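import Pool.Agent.Lib.MP_3ff0f8_gt.T.Spec

section
/-!
# Module CYC: cycles
-/
namespace Pool.Agent.Lib.MP3ff0f8.T

namespace CYCM

variable {V E : Type}

lemma rv_rv (d : Dart E) : rv (rv d) = d := by
  simp [rv]

lemma rv_fst (d : Dart E) : (rv d).1 = d.1 := rfl

lemma rv_ne (d : Dart E) : rv d ≠ d := by
  intro h
  have := congrArg Prod.snd h
  simp [rv] at this

lemma fst_eq {x y : Dart E} (h : x.1 = y.1) : x = y ∨ x = rv y := by
  obtain ⟨e, b⟩ := x
  obtain ⟨f, c⟩ := y
  simp only at h
  subst h
  cases b <;> cases c <;> simp [rv]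

lemma rot {G : Gr V E} {c : List (Dart E)} (k : ℕ) (h : IsCyc G c) : IsCyc G (c.rotate k) where
  ne := by
    have := h.ne
    simpa using this
  mem := by
    intro d hd
    exact h.mem d (List.mem_rotate.mp hd)
  nde := by
    rw [List.map_rotate]
    exact List.nodup_rotate.mpr h.nde
  ndv := by
    rw [List.map_rotate]
    exact List.nodup_rotate.mpr h.ndv
  cl := by
    rw [List.map_rotate, List.map_rotate, h.cl, List.rotate_rotate, List.rotate_rotate, add_comm]

lemma rev_rot_one {α : Type} (l : List α) : ((l.rotate 1).reverse).rotate 1 = l.reverse := by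
  cases l with
  | nil => simp
  | cons a t => simp

lemma map_rvc {α : Type} (f : Dart E → α) (c : List (Dart E)) :
    (rvc c).map f = (c.map fun d => f (rv d)).reverse := by
  simp [rvc, List.map_reverse, List.map_map, Function.comp_def]

lemma rev {G : Gr V E} {c : List (Dart E)} (h : IsCyc G c) : IsCyc G (rvc c) where
  ne := by
    have := h.ne
    simpa [rvc] using this
  mem := by
    intro d hd
    simp only [rvc, List.mem_reverse, List.mem_map] at hd
    obtain ⟨d', hd', rfl⟩ := hd
    exact h.mem d' hd'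
  nde := by
    rw [map_rvc]
    exact List.nodup_reverse.mpr h.nde
  ndv := by
    rw [map_rvc, h.cl]
    exact List.nodup_reverse.mpr (List.nodup_rotate.mpr h.ndv)
  cl := by
    rw [map_rvc, map_rvc, h.cl, rev_rot_one]
    simp only [rv_rv]

lemma two {G : Gr V E} {c : List (Dart E)} {d l : Dart E} (h : IsCyc G c)
    (hd : c.head? = some d) (hl : c.getLast? = some l) :
    (G.vt (rv l) = G.vt d ∧
      ∀ x : Dart E, x.1 ∈ c.map Prod.fst → G.vt x = G.vt d → x = d ∨ x = rv l) := by
  have hcl := h.cl
  have h1 : G.vt (rv l) = G.vt d := by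
    have e1 : (c.map fun d => G.vt (rv d)).getLast? = some (G.vt (rv l)) := by
      rw [List.getLast?_map, hl]; rfl
    have e2 : ((c.map G.vt).rotate 1).getLast? = some (G.vt d) := by
      cases c with
      | nil => simp at hd
      | cons a t =>
        simp only [List.head?_cons, Option.some.injEq] at hd
        subst hd
        simp
    rw [hcl, e2] at e1
    exact (Option.some.inj e1).symm
  refine ⟨h1, ?_⟩
  intro x hx hv
  obtain ⟨y, hy, hyx⟩ := List.mem_map.mp hx
  have hdc : d ∈ c := List.mem_of_mem_head? hd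
  have hlc : l ∈ c := List.mem_of_mem_getLast? hl
  rcases fst_eq hyx.symm with rfl | rfl
  · left
    exact List.inj_on_of_nodup_map h.ndv hy hdc hv
  · right
    have hnd : (c.map fun d => G.vt (rv d)).Nodup := by
      rw [hcl]; exact List.nodup_rotate.mpr h.ndv
    have := List.inj_on_of_nodup_map hnd hy hlc (hv.trans h1.symm)
    rw [this]

lemma step {G : Gr V E} {p s : List (Dart E)} {x y : Dart E} (h : IsCyc G (p ++ x :: y :: s)) :
    G.vt (rv x) = G.vt y ∧ ∀ z : Dart E, z.1 ∈ (p ++ x :: y :: s).map Prod.fst →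
      G.vt z = G.vt y → z = y ∨ z = rv x := by
  have e : (p ++ x :: y :: s).rotate (p.length + 1) = y :: s ++ (p ++ [x]) := by
    have : p ++ x :: y :: s = (p ++ [x]) ++ (y :: s) := by simp
    rw [this]
    have hl : p.length + 1 = (p ++ [x]).length := by simp
    rw [hl, List.rotate_append_length_eq]
  have h' := rot (p.length + 1) h
  rw [e] at h'
  have hlast : (y :: s ++ (p ++ [x])).getLast? = some x := by
    rw [← List.append_assoc, List.getLast?_append]
    simp
  have ht := two (d := y) (l := x) h' (by simp) hlast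
  refine ⟨ht.1, fun z hz hv => ht.2 z ?_ hv⟩
  simp only [List.map_append, List.map_cons, List.mem_append, List.mem_cons, List.cons_append,
    List.map_nil, List.mem_nil_iff, or_false] at hz ⊢
  tauto

lemma same_aux {G : Gr V E} (n : ℕ) : ∀ (p s s' : List (Dart E)) (x : Dart E), s.length = n →
    IsCyc G (p ++ x :: s) → IsCyc G (p ++ x :: s') → s.length = s'.length →
    (∀ e, e ∈ (p ++ x :: s).map Prod.fst ↔ e ∈ (p ++ x :: s').map Prod.fst) → s = s' := by
  induction n with
  | zero =>
    intro p s s' x hn _ _ hl _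
    have h1 := List.length_eq_zero_iff.mp hn
    have h2 := List.length_eq_zero_iff.mp (hl.symm.trans hn)
    rw [h1, h2]
  | succ n ih =>
    intro p s s' x hn hc hc' hl he
    cases s with
    | nil => simp at hn
    | cons y s =>
      cases s' with
      | nil => simp at hl
      | cons y' s' =>
        have h1 := step hc
        have h2 := step hc'
        have hy : y' = y := by
          have hm : y'.1 ∈ (p ++ x :: y :: s).map Prod.fst := by
            rw [he]
            simp
          rcases h1.2 y' hm (h2.1.symm.trans h1.1) with h | h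
          · exact h
          · exfalso
            have hnd := hc'.nde
            have hxy : y'.1 = x.1 := by rw [h]; rfl
            simp only [List.map_append, List.map_cons] at hnd
            have := (List.nodup_append.mp hnd).2.1
            rw [List.nodup_cons] at this
            exact this.1 (by rw [← hxy]; simp)
        subst hy
        have e1 : p ++ x :: y' :: s = (p ++ [x]) ++ y' :: s := by simp
        have e2 : p ++ x :: y' :: s' = (p ++ [x]) ++ y' :: s' := by simp
        rw [e1] at hc he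
        rw [e2] at hc' he
        have := ih (p ++ [x]) s s' y' (by simpa using hn) hc hc' (by simpa using hl) he
        rw [this]

lemma same_head {G : Gr V E} {c c' : List (Dart E)} {d : Dart E} (hc : IsCyc G (d :: c))
    (hc' : IsCyc G (d :: c'))
    (he : ∀ e, e ∈ (d :: c).map Prod.fst ↔ e ∈ (d :: c').map Prod.fst) : d :: c = d :: c' := by
  have hp : ((d :: c).map Prod.fst).Perm ((d :: c').map Prod.fst) :=
    (List.perm_ext_iff_of_nodup hc.nde hc'.nde).mpr he
  have hl := hp.length_eq
  simp only [List.map_cons, List.length_cons, List.length_map, Nat.add_right_cancel_iff] at hl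
  have := same_aux (G := G) c.length [] c c' d rfl (by simpa using hc) (by simpa using hc') hl
    (by simpa using he)
  rw [this]

lemma exists_rot {c : List (Dart E)} {d : Dart E} (h : d ∈ c) :
    ∃ k t, c.rotate k = d :: t := by
  obtain ⟨a, b, rfl⟩ := List.append_of_mem h
  exact ⟨a.length, b ++ a, by rw [List.rotate_append_length_eq]; simp⟩

lemma mem_map_rotate {c : List (Dart E)} (k : ℕ) (e : E) :
    e ∈ (c.rotate k).map Prod.fst ↔ e ∈ c.map Prod.fst := by
  simp [List.mem_rotate]

lemma mem_map_rvc {c : List (Dart E)} (e : E) :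
    e ∈ (rvc c).map Prod.fst ↔ e ∈ c.map Prod.fst := by
  rw [map_rvc]
  simp only [List.mem_reverse]
  exact Iff.rfl

lemma same1 {G : Gr V E} {c c' : List (Dart E)} {d : Dart E} (hc : IsCyc G c) (hc' : IsCyc G c')
    (he : ∀ e, e ∈ c.map Prod.fst ↔ e ∈ c'.map Prod.fst) (h : d ∈ c) (h' : d ∈ c') :
    c'.IsRotated c := by
  obtain ⟨k, t, hk⟩ := exists_rot h
  obtain ⟨k', t', hk'⟩ := exists_rot h'
  have h1 := rot k hc
  have h2 := rot k' hc'
  have e1 := mem_map_rotate (c := c) k
  have e2 := mem_map_rotate (c := c') k'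
  rw [hk] at h1 e1
  rw [hk'] at h2 e2
  have := same_head h1 h2 (fun e => by rw [e1, e2, he])
  have r1 : c.IsRotated (d :: t) := ⟨k, hk⟩
  have r2 : c'.IsRotated (d :: t') := ⟨k', hk'⟩
  rw [← this] at r2
  exact r2.trans r1.symm

lemma same {G : Gr V E} {c c' : List (Dart E)} (hc : IsCyc G c) (hc' : IsCyc G c')
    (he : ∀ e, e ∈ c.map Prod.fst ↔ e ∈ c'.map Prod.fst) :
    c'.IsRotated c ∨ c'.IsRotated (rvc c) := by
  cases c with
  | nil => exact absurd rfl hc.ne
  | cons d t =>
    have hm : d.1 ∈ c'.map Prod.fst := (he d.1).mp (by simp)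
    obtain ⟨d', hd', hdd⟩ := List.mem_map.mp hm
    rcases fst_eq hdd with rfl | rfl
    · left
      exact same1 hc hc' he (by simp) hd'
    · right
      refine same1 (rev hc) hc' (fun e => by rw [mem_map_rvc, he]) ?_ hd'
      simp [rvc]

lemma map_cv (c : List (Dart E)) : (cv c).map Prod.fst = c.flatMap fun d => [d, rv d] := by
  simp [cv, List.map_flatMap]

lemma cvnd {G : Gr V E} {c : List (Dart E)} (h : IsCyc G c) : ((cv c).map Prod.fst).Nodup := by
  rw [map_cv, List.nodup_flatMap]
  constructor
  · intro x _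
    simp only [List.nodup_cons, List.mem_singleton, List.not_mem_nil, not_false_eq_true,
      List.nodup_nil, and_true]
    exact fun h => rv_ne x h.symm
  · have h1 : c.Pairwise fun a b => a.1 ≠ b.1 := by
      have := h.nde
      rw [List.Nodup, List.pairwise_map] at this
      exact this
    refine h1.imp ?_
    intro a b hab
    rw [Function.onFun, List.disjoint_left]
    intro z hz hz'
    simp only [List.mem_cons, List.not_mem_nil, or_false] at hz hz'
    apply hab
    have e1 : z.1 = a.1 := by rcases hz with rfl | rfl <;> rfl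
    have e2 : z.1 = b.1 := by rcases hz' with rfl | rfl <;> rfl
    rw [← e1, e2]

lemma on_iff [DecidableEq E] {c : List (Dart E)} (s : Dart E) :
    on (cv c) s ↔ s.1 ∈ c.map Prod.fst := by
  unfold on
  rw [map_cv, List.mem_flatMap, List.mem_map]
  constructor
  · rintro ⟨d, hd, hs⟩
    simp only [List.mem_cons, List.not_mem_nil, or_false] at hs
    refine ⟨d, hd, ?_⟩
    rcases hs with rfl | rfl <;> rfl
  · rintro ⟨d, hd, hs⟩
    refine ⟨d, hd, ?_⟩
    simp only [List.mem_cons, List.not_mem_nil, or_false]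
    exact fst_eq hs.symm

lemma up {c : List (Dart E)} (s : Dart E) : (s, true) ∈ cv c ↔ s ∈ c := by
  unfold cv
  rw [List.mem_flatMap]
  constructor
  · rintro ⟨d, hd, hs⟩
    simp only [List.mem_cons, Prod.mk.injEq, and_true, Bool.true_eq_false, and_false,
      List.not_mem_nil, or_false] at hs
    rw [hs]; exact hd
  · intro h
    exact ⟨s, h, by simp⟩

lemma dn {c : List (Dart E)} (s : Dart E) : (s, false) ∈ cv c ↔ rv s ∈ c := by
  unfold cv
  rw [List.mem_flatMap]
  constructor
  · rintro ⟨d, hd, hs⟩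
    simp only [List.mem_cons, Prod.mk.injEq, and_true, Bool.false_eq_true, and_false,
      List.not_mem_nil, or_false, false_or] at hs
    rw [hs, rv_rv]; exact hd
  · intro h
    exact ⟨rv s, h, by simp [rv_rv]⟩

lemma acv_eq (c : List (Dart E)) : acv (c.map fun d => (d, rv d)) = cv c := by
  simp [acv, cv, List.flatMap_map]

lemma acyc {G : Gr V E} {c : List (Dart E)} (h : IsCyc G c) :
    ACyc G.vt Prod.fst (c.map fun d => (d, rv d)) ∧ acv (c.map fun d => (d, rv d)) = cv c := by
  refine ⟨⟨?_, ?_, ?_, ?_, ?_, ?_⟩, acv_eq c⟩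
  · have := h.ne
    simpa using this
  · rw [acv_eq]; exact cvnd h
  · intro x hx
    obtain ⟨d, _, rfl⟩ := List.mem_map.mp hx
    rfl
  · simpa [List.map_map, Function.comp_def] using h.cl
  · simpa [List.map_map, Function.comp_def] using h.ndv
  · simpa [List.map_map, Function.comp_def] using h.nde

end CYCM

theorem specCYC : SpecCYC where
  rot := fun k h => CYCM.rot k h
  rev := fun h => CYCM.rev h
  two := fun h hd hl => CYCM.two h hd hl
  same := fun h h' he => CYCM.same h h' he
  res := by
    intro V E G Y c hY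
    constructor
    · intro h
      exact ⟨⟨h.ne, fun d hd => hY (h.mem d hd), h.nde, h.ndv, h.cl⟩, h.mem⟩
    · rintro ⟨h, hm⟩
      exact ⟨h.ne, hm, h.nde, h.ndv, h.cl⟩
  cvnd := fun h => CYCM.cvnd h
  on := fun s => CYCM.on_iff s
  up := fun s => CYCM.up s
  dn := fun s => CYCM.dn s
  acyc := fun h => CYCM.acyc h

end Pool.Agent.Lib.MP3ff0f8.T
end

section
/-!
# MP_3ff0f8_gt, topological half: module ADD

Adding a loop or a pendant edge to a good graph.
-/
namespace Pool.Agent.Lib.MP3ff0f8.T

namespace ADDM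

variable {V E : Type} {G : Gr V E}

theorem rv_rv (d : Dart E) : rv (rv d) = d := by
  unfold rv; simp

theorem rv_ne (d : Dart E) : rv d ≠ d := by
  rcases d with ⟨e, b⟩
  unfold rv
  cases b <;> simp

theorem rv_fst (d : Dart E) : (rv d).1 = d.1 := rfl

theorem eq_or {x d : Dart E} (h : x.1 = d.1) : x = d ∨ x = rv d := by
  rcases x with ⟨x1, x2⟩
  rcases d with ⟨d1, d2⟩
  simp only at h
  subst h
  unfold rv
  cases x2 <;> cases d2 <;> simp

/-- the dart after `y` -/
theorem nxt {c : List (Dart E)} (hc : IsCyc G c) {y : Dart E} (hy : y ∈ c) :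
    ∃ z ∈ c, G.vt z = G.vt (rv y) := by
  have h : G.vt (rv y) ∈ c.map fun d => G.vt (rv d) := List.mem_map.2 ⟨y, hy, rfl⟩
  rw [hc.cl, List.mem_rotate, List.mem_map] at h
  exact h

/-- the dart before `z` -/
theorem prv {c : List (Dart E)} (hc : IsCyc G c) {z : Dart E} (hz : z ∈ c) :
    ∃ y ∈ c, G.vt (rv y) = G.vt z := by
  have h : G.vt z ∈ (c.map G.vt).rotate 1 := by
    rw [List.mem_rotate]
    exact List.mem_map.2 ⟨z, hz, rfl⟩
  rw [← hc.cl, List.mem_map] at h
  exact h

theorem nde_eq {c : List (Dart E)} (hc : IsCyc G c) {x y : Dart E} (hx : x ∈ c) (hy : y ∈ c)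
    (h : x.1 = y.1) : x = y :=
  List.inj_on_of_nodup_map hc.nde hx hy h

/-- a cycle through a loop consists of the loop only -/
theorem loop {c : List (Dart E)} (hc : IsCyc G c) {x : Dart E} (hx : x ∈ c)
    (h : G.vt x = G.vt (rv x)) : c = [x] := by
  obtain ⟨i, hi, hix⟩ := List.getElem_of_mem hx
  have h1 : (c.map fun d => G.vt (rv d))[i]'(by simpa using hi) = G.vt (rv x) := by
    simp [hix]
  have h2 : (c.map fun d => G.vt (rv d))[i]'(by simpa using hi) =
      ((c.map G.vt).rotate 1)[i]'(by simpa using hi) := by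
    congr 1
    exact hc.cl
  rw [h1, List.getElem_rotate] at h2
  have h3 : (c.map G.vt)[i]'(by simpa using hi) = G.vt x := by simp [hix]
  rw [← h, ← h3] at h2
  have h4 := (hc.ndv.getElem_inj_iff).1 h2
  simp only [List.length_map] at h4
  have hlen : c.length = 1 := by
    by_contra hne
    rcases Nat.lt_or_ge (i + 1) c.length with h5 | h5
    · rw [Nat.mod_eq_of_lt h5] at h4
      omega
    · have h6 : i + 1 = c.length := by omega
      rw [h6, Nat.mod_self] at h4
      omega
  obtain ⟨a, ha⟩ := List.length_eq_one_iff.1 hlen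
  subst ha
  rw [List.mem_singleton] at hx
  rw [hx]

end ADDM

open ADDM in
theorem specADD (hPSU : SpecPSU) (hRUN : SpecRUN) (hBLK : SpecBLK) (hCYC : SpecCYC)
    (hFRT : SpecFRT) : SpecADD := by
  intro V E _ _ G d hdX hcase hgood
  obtain ⟨bot, W, top, hdia, hval⟩ := hgood
  obtain ⟨U, hU1, hU2, -⟩ := hFRT.fr hdia (G.vt d) (bot.filter fun x => G.vt x = G.vt d)
    (List.Perm.refl _)
  set P := bot.filter fun x => G.vt x = G.vt d with hPdef
  set Q := bot.filter fun x => (G.res (G.X.erase d.1)).vt x ≠ G.vt d with hQdef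
  have hPv : ∀ x ∈ P, G.vt x = G.vt d := by
    intro x hx
    simpa using (List.mem_filter.1 hx).2
  have hQv : ∀ x ∈ Q, G.vt x ≠ G.vt d := by
    intro x hx
    have := (List.mem_filter.1 hx).2
    simpa [Gr.res] using this
  have hmb : ∀ x, x ∈ P ++ Q ↔ x.1 ∈ G.X.erase d.1 := hU1.mb
  have hdn : d ∉ P ++ Q := by
    rw [hmb]; simp
  have hrn : rv d ∉ P ++ Q := by
    rw [hmb, rv_fst]; simp
  have hperm := hRUN.perm hU1.dia.run
  have htop : ∀ x ∈ top, x.1 ∈ G.X.erase d.1 := by
    intro x hx
    exact (hmb x).1 (hperm.mem_iff.2 hx)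
  have hQB : Blocks G.vt Q := hBLK.fil _ _ _ hdia.dia.bb
  have hbb : Blocks G.vt ([rv d] ++ ([d] ++ P) ++ Q) := by
    by_cases hl : G.vt d = G.vt (rv d)
    · apply hBLK.app
      · apply hBLK.one _ _ (G.vt d)
        intro x hx
        simp only [List.mem_append, List.mem_singleton] at hx
        rcases hx with hx | hx | hx
        · rw [hx, hl]
        · rw [hx]
        · exact hPv x hx
      · exact hQB
      · intro x hx y hy
        have : G.vt x = G.vt d := by
          simp only [List.mem_append, List.mem_singleton] at hx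
          rcases hx with hx | hx | hx
          · rw [hx, hl]
          · rw [hx]
          · exact hPv x hx
        rw [this]
        exact fun h => hQv y hy h.symm
    · have hpen := hcase.resolve_left hl
      rw [List.append_assoc]
      apply hBLK.app
      · exact hBLK.one _ _ (G.vt (rv d)) (by simp)
      · apply hBLK.app
        · apply hBLK.one _ _ (G.vt d)
          intro x hx
          simp only [List.mem_append, List.mem_singleton] at hx
          rcases hx with hx | hx
          · rw [hx]
          · exact hPv x hx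
        · exact hQB
        · intro x hx y hy
          have : G.vt x = G.vt d := by
            simp only [List.mem_append, List.mem_singleton] at hx
            rcases hx with hx | hx
            · rw [hx]
            · exact hPv x hx
          rw [this]
          exact fun h => hQv y hy h.symm
      · intro x hx y hy hxy
        rw [List.mem_singleton] at hx
        subst hx
        have hyX : y.1 ∈ G.X := by
          rw [List.append_assoc, List.mem_append, List.mem_singleton] at hy
          rcases hy with hy | hy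
          · rw [hy]; exact hdX
          · exact Finset.mem_of_mem_erase ((hmb y).1 hy)
        have hyr := hpen y hyX hxy.symm
        rw [List.append_assoc, List.mem_append, List.mem_singleton] at hy
        rcases hy with hy | hy
        · rw [hyr] at hy
          exact rv_ne d hy
        · rw [hyr] at hy
          exact hrn hy
  refine ⟨[rv d, d] ++ (P ++ Q) ++ [], U ++ W, [rv d, d] ++ top ++ [], ?_, ?_⟩
  · refine ⟨?_, ?_, ?_, ?_, ?_⟩
    · intro x
      simp only [List.append_nil]
      rw [List.mem_append, hmb]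
      simp only [List.mem_cons, List.not_mem_nil, or_false, Finset.mem_erase]
      constructor
      · rintro ((h | h) | h)
        · rw [h, rv_fst]; exact hdX
        · rw [h]; exact hdX
        · exact h.2
      · intro h
        by_cases hx : x.1 = d.1
        · rcases eq_or hx with h1 | h1
          · exact Or.inl (Or.inr h1)
          · exact Or.inl (Or.inl h1)
        · exact Or.inr ⟨hx, h⟩
    · rw [List.append_nil, List.nodup_append]
      refine ⟨?_, hU1.dia.nd, ?_⟩
      · simp only [List.nodup_cons, List.mem_singleton, List.not_mem_nil, not_false_iff,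
          List.nodup_nil, and_true]
        exact rv_ne d
      · intro x hx y hy hxy
        subst hxy
        simp only [List.mem_cons, List.not_mem_nil, or_false] at hx
        rcases hx with hx | hx
        · subst hx; exact hrn hy
        · subst hx; exact hdn hy
    · rw [List.append_nil]
      have : [rv d, d] ++ (P ++ Q) = [rv d] ++ ([d] ++ P) ++ Q := by simp
      rw [this]
      exact hbb
    · rw [List.append_nil]
      apply hBLK.app
      · apply hBLK.one _ _ d.1
        intro x hx
        simp only [List.mem_cons, List.not_mem_nil, or_false] at hx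
        rcases hx with hx | hx
        · rw [hx, rv_fst]
        · rw [hx]
      · exact hU1.dia.tt
      · intro x hx y hy
        have h1 : x.1 = d.1 := by
          simp only [List.mem_cons, List.not_mem_nil, or_false] at hx
          rcases hx with hx | hx
          · rw [hx, rv_fst]
          · rw [hx]
        rw [h1]
        exact (Finset.ne_of_mem_erase (htop y hy)).symm
    · exact hRUN.ctx _ _ hU1.dia.run
  · intro c hc
    by_cases hdc : ∀ x ∈ c, x.1 ∈ G.X.erase d.1
    · have hc' : IsCyc (G.res (G.X.erase d.1)) c :=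
        (hCYC.res (Finset.erase_subset _ _)).2 ⟨hc, hdc⟩
      rw [hU2.1 c hc']
      exact hval c hc'
    · push Not at hdc
      obtain ⟨x, hxc, hx⟩ := hdc
      have hx1 : x.1 = d.1 := by
        by_contra hne
        exact hx (Finset.mem_erase.2 ⟨hne, hc.mem x hxc⟩)
      have hxd := eq_or hx1
      have hloop : G.vt d = G.vt (rv d) := by
        by_contra hl
        have hpen := hcase.resolve_left hl
        have hboth : d ∈ c ∧ rv d ∈ c := by
          rcases hxd with h | h
          · subst h
            refine ⟨hxc, ?_⟩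
            obtain ⟨z, hz, hz2⟩ := nxt hc hxc
            rw [← hpen z (hc.mem z hz) hz2]
            exact hz
          · subst h
            refine ⟨?_, hxc⟩
            obtain ⟨y, hy, hy2⟩ := prv hc hxc
            have := hpen (rv y) (hc.mem y hy) hy2
            have h2 : y = d := by
              rw [← rv_rv y, this, rv_rv]
            rw [← h2]
            exact hy
        exact rv_ne d (nde_eq hc hboth.2 hboth.1 rfl)
      have hxl : G.vt x = G.vt (rv x) := by
        rcases hxd with h | h
        · rw [h]; exact hloop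
        · rw [h, rv_rv]; exact hloop.symm
      have hcx := loop hc hxc hxl
      have hz : ∀ z ∈ U ++ W, ∀ w ∈ (U ++ W) ++ [], bet (cv c) z w = 0 := by
        intro z hz w _
        have hz1 : z.1.1 ∈ G.X.erase d.1 := (hmb z.1).1 (hRUN.mem hU1.dia.nd hU1.dia.run z hz).1
        have : ¬ on (cv c) z.1 := by
          rw [hCYC.on, hcx]
          simp only [List.map_cons, List.map_nil, List.mem_singleton]
          rw [hx1]
          exact Finset.ne_of_mem_erase hz1
        unfold bet
        rw [if_neg (fun h => this h.1)]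
      have := hPSU.pre (bet (cv c)) (U ++ W) [] hz
      rw [List.append_nil] at this
      unfold AW
      rw [this]
      rfl

end Pool.Agent.Lib.MP3ff0f8.T
end

section
/-! # MP_3ff0f8_gt, module BLK: contiguous blocks (helper18) -/
namespace Pool.Agent.Lib.MP3ff0f8.T.BLKM

open Pool.Agent.Lib.MP3ff0f8.T

theorem sub {S β : Type} (f : S → β) (L L' : List S) (h : L'.Sublist L) (H : Blocks f L) :
    Blocks f L' := fun a b c hs hac => H a b c (hs.trans h) hac

theorem fil {S β : Type} (f : S → β) (p : S → Bool) (L : List S) (H : Blocks f L) :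
    Blocks f (L.filter p) := sub f L _ List.filter_sublist H

theorem one {S β : Type} (f : S → β) (P : List S) (v : β) (h : ∀ x ∈ P, f x = v) :
    Blocks f P := by
  intro a b c hs _
  rw [h b (hs.subset (by simp)), h a (hs.subset (by simp))]

theorem rev {S β : Type} (f : S → β) (L : List S) (H : Blocks f L) : Blocks f L.reverse := by
  intro a b c hs hac
  have h1 : [c, b, a].Sublist L := by
    have := List.reverse_sublist.2 hs
    simpa using this
  rw [H c b a h1 hac.symm, hac]

theorem map {S S' β : Type} (f : S' → β) (g : S → S') (L : List S)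
    (H : Blocks (fun x => f (g x)) L) : Blocks f (L.map g) := by
  intro a b c hs hac
  obtain ⟨l, hl, hl'⟩ := List.sublist_map_iff.1 hs
  match l, hl' with
  | [x, y, z], hl' =>
    simp only [List.map_cons, List.map_nil, List.cons.injEq, and_true] at hl'
    obtain ⟨rfl, rfl, rfl⟩ := hl'
    exact H x y z hl hac

theorem cgr {S β γ : Type} (f : S → β) (g : S → γ) (L : List S) (H : Blocks f L)
    (h : ∀ x ∈ L, ∀ y ∈ L, f x = f y ↔ g x = g y) : Blocks g L := by
  intro a b c hs hac
  have ha := hs.subset (show a ∈ [a, b, c] by simp)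
  have hb := hs.subset (show b ∈ [a, b, c] by simp)
  have hc := hs.subset (show c ∈ [a, b, c] by simp)
  exact (h b hb a ha).1 (H a b c hs ((h a ha c hc).2 hac))

theorem nil {S β : Type} (f : S → β) : Blocks f ([] : List S) := by
  intro a b c hs
  exact absurd hs (by simp)

theorem tail {S β : Type} {f : S → β} {x : S} {L : List S} (H : Blocks f (x :: L)) :
    Blocks f L := sub f _ _ (List.sublist_cons_self x L) H

/-- once the value `f x` of the head has been left, it does not occur any more -/
theorem dec {S β : Type} [DecidableEq β] (f : S → β) (L : List S) (H : Blocks f L) (v : β) :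
    ∃ L₁ L₂, L = L₁ ++ L.filter (fun x => f x = v) ++ L₂ ∧ (∀ x ∈ L₁, f x ≠ v) ∧
      ∀ x ∈ L₂, f x ≠ v := by
  induction L with
  | nil => exact ⟨[], [], by simp, by simp, by simp⟩
  | cons a L ih =>
    obtain ⟨L₁, L₂, hL, h1, h2⟩ := ih (tail H)
    by_cases ha : f a = v
    · -- then `L₁ = []` or the filter is empty
      by_cases hf : L.filter (fun x => f x = v) = []
      · refine ⟨[], L, ?_, by simp, ?_⟩
        · rw [List.filter_cons_of_pos (by simpa using ha), hf]; simp
        · intro x hx hxv
          have : x ∈ L.filter (fun x => f x = v) := List.mem_filter.2 ⟨hx, by simpa using hxv⟩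
          rw [hf] at this; simp at this
      · refine ⟨[], L₂, ?_, by simp, h2⟩
        have hL1 : L₁ = [] := by
          by_contra hne
          obtain ⟨b, L₁', rfl⟩ := List.exists_cons_of_ne_nil hne
          obtain ⟨c, F', hF⟩ := List.exists_cons_of_ne_nil hf
          have hc : f c = v := by
            have : c ∈ L.filter (fun x => f x = v) := by rw [hF]; simp
            simpa using (List.mem_filter.1 this).2
          have hs : [a, b, c].Sublist (a :: L) := by
            apply List.Sublist.cons_cons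
            rw [hL, hF]
            simp only [List.cons_append, List.append_assoc]
            apply List.Sublist.cons_cons
            exact List.singleton_sublist.2 (by simp)
          exact h1 b (by simp) ((H a b c hs (ha.trans hc.symm)).trans ha)
        rw [List.filter_cons_of_pos (by simpa using ha)]
        rw [hL1] at hL
        simpa using hL
    · refine ⟨a :: L₁, L₂, ?_, ?_, h2⟩
      · rw [List.filter_cons_of_neg (by simpa using ha)]
        rw [List.cons_append, List.cons_append, ← hL]
      · intro x hx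
        rcases List.mem_cons.1 hx with rfl | hx
        · exact ha
        · exact h1 x hx

/-- sublists of length three of an append -/
theorem three {S : Type} {a b c : S} {A B : List S} (h : [a, b, c].Sublist (A ++ B)) :
    [a, b, c].Sublist A ∨ ([a, b].Sublist A ∧ c ∈ B) ∨ (a ∈ A ∧ [b, c].Sublist B) ∨
      [a, b, c].Sublist B := by
  obtain ⟨l₁, l₂, hl, h1, h2⟩ := List.sublist_append_iff.1 h
  match l₁, l₂, hl with
  | [], [_, _, _], hl => simp at hl; obtain ⟨rfl, rfl, rfl⟩ := hl; exact Or.inr (Or.inr (Or.inr h2))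
  | [_], [_, _], hl =>
    simp at hl; obtain ⟨rfl, rfl, rfl⟩ := hl
    exact Or.inr (Or.inr (Or.inl ⟨h1.subset (by simp), h2⟩))
  | [_, _], [_], hl =>
    simp at hl; obtain ⟨rfl, rfl, rfl⟩ := hl
    exact Or.inr (Or.inl ⟨h1, h2.subset (by simp)⟩)
  | [_, _, _], [], hl => simp at hl; obtain ⟨rfl, rfl, rfl⟩ := hl; exact Or.inl h1

theorem app {S β : Type} (f : S → β) (A B : List S) (hA : Blocks f A) (hB : Blocks f B)
    (h : ∀ x ∈ A, ∀ y ∈ B, f x ≠ f y) : Blocks f (A ++ B) := by
  intro a b c hs hac
  rcases three hs with h' | ⟨h', hc⟩ | ⟨ha, h'⟩ | h'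
  · exact hA a b c h' hac
  · exact absurd hac (h a (h'.subset (by simp)) c hc)
  · exact absurd hac (h a ha c (h'.subset (by simp)))
  · exact hB a b c h' hac

theorem ins {S β : Type} (f : S → β) (A P B : List S) (v : β) (H : Blocks f (A ++ B))
    (h : ∀ x ∈ A, ∀ y ∈ B, f x ≠ f y) (hP : ∀ x ∈ P, f x = v) (hA : ∀ x ∈ A, f x ≠ v)
    (hB : ∀ x ∈ B, f x ≠ v) : Blocks f (A ++ P ++ B) := by
  have h1 : Blocks f A := sub f _ _ (List.sublist_append_left A B) H
  have h2 : Blocks f B := sub f _ _ (List.sublist_append_right A B) H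
  apply app f (A ++ P) B _ h2
  · intro x hx y hy
    rcases List.mem_append.1 hx with hx | hx
    · exact h x hx y hy
    · rw [hP x hx]; exact (hB y hy).symm
  · apply app f A P h1 (one f P v hP)
    intro x hx y hy
    rw [hP y hy]; exact hA x hx

theorem adj {S β : Type} (f : S → β) (L : List S) (s t : S) (hn : L.Nodup) (H : Blocks f L)
    (hs : s ∈ L) (ht : t ∈ L) (hst : s ≠ t) (hf : f s = f t)
    (h : ∀ x ∈ L, f x = f s → x = s ∨ x = t) :
    ∃ A B, L = A ++ s :: t :: B ∨ L = A ++ t :: s :: B := by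
  classical
  obtain ⟨L₁, L₂, hL, h1, h2⟩ := dec f L H (f s)
  set F := L.filter (fun x => f x = f s) with hF
  have hFn : F.Nodup := hn.filter _
  have hsF : s ∈ F := List.mem_filter.2 ⟨hs, by simp⟩
  have htF : t ∈ F := List.mem_filter.2 ⟨ht, by simpa using hf.symm⟩
  have hmem : ∀ x ∈ F, x = s ∨ x = t := fun x hx =>
    h x (List.mem_filter.1 hx).1 (by simpa using (List.mem_filter.1 hx).2)
  have hperm : F.Perm [s, t] := by
    rw [List.perm_ext_iff_of_nodup hFn (by simp [hst])]
    intro x
    constructor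
    · intro hx; simpa using hmem x hx
    · intro hx
      rcases (by simpa using hx : x = s ∨ x = t) with rfl | rfl
      · exact hsF
      · exact htF
  refine ⟨L₁, L₂, ?_⟩
  have hcases : F = [s, t] ∨ F = [t, s] := by
    have hlen := hperm.length_eq
    match hFe : F, hlen with
    | [x, y], _ =>
      have hx := hmem x (by simp)
      have hy := hmem y (by simp)
      have hxy : x ≠ y := by simpa using hFn
      rcases hx with rfl | rfl <;> rcases hy with rfl | rfl
      · exact absurd rfl hxy
      · exact Or.inl rfl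
      · exact Or.inr rfl
      · exact absurd rfl hxy
  rcases hcases with hc | hc
  · left; rw [hL, hc]; simp
  · right; rw [hL, hc]; simp

end Pool.Agent.Lib.MP3ff0f8.T.BLKM

namespace Pool.Agent.Lib.MP3ff0f8.T

theorem specBLK : SpecBLK where
  fil := BLKM.fil
  sub := BLKM.sub
  dec := fun f L H v => BLKM.dec f L H v
  one := BLKM.one
  app := BLKM.app
  ins := BLKM.ins
  rev := BLKM.rev
  map := BLKM.map
  cgr := BLKM.cgr
  adj := BLKM.adj

end Pool.Agent.Lib.MP3ff0f8.T
end

section
/-!
# Module CFI: two diagrams with the same ends and parities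
-/
namespace Pool.Agent.Lib.MP3ff0f8.T

namespace CFIM

lemma add_self (x : ZMod 2) : x + x = 0 := CharTwo.add_self_eq_zero x

/-- `bet` vanishes on the diagonal -/
lemma bet_self {S : Type} [DecidableEq S] (q : List (S × Bool)) (z : S × S) : bet q z z = 0 := by
  unfold bet
  split_ifs with h0 h1 h2 h2
  · exact add_self 1
  · exfalso
    apply h2
    obtain ⟨a, b, c⟩ := h1
    unfold l01 at a c
    unfold l10 at b
    by_cases he : z.1 = z.2
    · refine ⟨?_, ?_, ?_⟩
      · right; refine ⟨he, ?_⟩
        rcases b with b | b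
        · exact absurd b (lt_irrefl _)
        · rw [he]; exact b.2
      · right; refine ⟨rfl, ?_⟩
        rcases c with c | c
        · rw [he] at c; exact absurd c (lt_irrefl _)
        · exact c.2
      · right; refine ⟨he.symm, ?_⟩
        rcases b with b | b
        · exact absurd b (lt_irrefl _)
        · exact b.2
    · exfalso
      rcases a with a | a
      · rcases c with c | c
        · exact absurd (lt_trans a c) (lt_irrefl _)
        · exact he c.1.symm
      · exact he a.1
  · exfalso
    apply h1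
    obtain ⟨a, b, c⟩ := h2
    unfold l10 at a c
    unfold l01 at b
    by_cases he : z.1 = z.2
    · refine ⟨?_, ?_, ?_⟩
      · right; refine ⟨he, ?_⟩
        rcases b with b | b
        · exact absurd b (lt_irrefl _)
        · rw [he]; exact b.2
      · right; refine ⟨rfl, ?_⟩
        rcases c with c | c
        · rw [he] at c; exact absurd c (lt_irrefl _)
        · exact c.2
      · right; refine ⟨he.symm, ?_⟩
        rcases b with b | b
        · exact absurd b (lt_irrefl _)
        · exact b.2
    · exfalso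
      rcases a with a | a
      · rcases c with c | c
        · exact absurd (lt_trans a c) (lt_irrefl _)
        · exact he c.1.symm
      · exact he a.1
  · exact add_zero 0
  · rfl

lemma par_reverse {α : Type} [DecidableEq α] (W : List α) (z : α) : par W.reverse z = par W z := by
  unfold par
  rw [List.count_reverse]

lemma par_append {α : Type} [DecidableEq α] (A B : List α) (z : α) :
    par (A ++ B) z = par A z + par B z := by
  unfold par
  rw [List.count_append, Nat.cast_add]

end CFIM

open CFIM in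
theorem specCFI (hPSU : SpecPSU) (hRUN : SpecRUN) (hCYC : SpecCYC) (hLOC : SpecLOC) : SpecCFI := by
  intro V E _ G bot top W W' hD hD' hpar
  have htop : top.Nodup := (hRUN.perm hD.dia.run).nodup_iff.1 hD.dia.nd
  have hrun : Run top (W'.reverse ++ W) top := hRUN.trans (hRUN.rev hD'.dia.run) hD.dia.run
  have hev : ∀ z, par (W'.reverse ++ W) z = 0 := by
    intro z
    rw [par_append, par_reverse, hpar z, add_self]
  obtain ⟨κ, μ, hκ⟩ := hLOC top (W'.reverse ++ W) htop hrun hev
  have hmt : ∀ s, s ∈ top.toFinset → s.1 ∈ G.X := by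
    intro s hs
    rw [List.mem_toFinset] at hs
    exact (hD.mb s).1 ((hRUN.perm hD.dia.run).mem_iff.2 hs)
  have key : ∀ q : List (Dart E × Bool), AW q (W'.reverse ++ W) = AW q W + AW q W' := by
    intro q
    unfold AW
    have h1 := hPSU.app (bet q) W'.reverse W
    have h2 := hPSU.app (bet q) W'.reverse W'
    have h3 := hPSU.rev (bet q) (bet_self q) W'.reverse
    rw [List.reverse_reverse] at h3
    have h4 := hPSU.crr (bet q) W'.reverse W W' hpar
    rw [h1, h4]
    rw [h2] at h3
    -- h3 : ps W'.reverse + ps W' + cr = 0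
    have h5 : ps (bet q) W'.reverse + cr (bet q) W'.reverse W' = ps (bet q) W' := by
      have h6 := add_self (ps (bet q) W')
      linear_combination h3 - h6
    linear_combination h5
  refine ⟨fun c => (∑ s ∈ top.toFinset, ∑ t ∈ top.toFinset, ∑ u ∈ top.toFinset,
        κ s t u * (xe s.1 c * xe t.1 c * xe u.1 c)) +
      ∑ s ∈ top.toFinset, ∑ t ∈ top.toFinset, μ s t * cc s t c, ?_, ?_⟩
  · apply Submodule.add_mem (x := fun c => ∑ s ∈ top.toFinset, ∑ t ∈ top.toFinset, ∑ u ∈ top.toFinset,
        κ s t u * (xe s.1 c * xe t.1 c * xe u.1 c))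
      (y := fun c => ∑ s ∈ top.toFinset, ∑ t ∈ top.toFinset, μ s t * cc s t c)
    · have : (fun c : List (Dart E) => ∑ s ∈ top.toFinset, ∑ t ∈ top.toFinset, ∑ u ∈ top.toFinset,
          κ s t u * (xe s.1 c * xe t.1 c * xe u.1 c)) =
          ∑ s ∈ top.toFinset, ∑ t ∈ top.toFinset, ∑ u ∈ top.toFinset,
          κ s t u • (fun c => xe s.1 c * xe t.1 c * xe u.1 c) := by
        funext c
        simp only [Finset.sum_apply, Pi.smul_apply, smul_eq_mul]
      rw [this]
      refine Submodule.sum_mem _ fun s hs => Submodule.sum_mem _ fun t ht =>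
        Submodule.sum_mem _ fun u hu => Submodule.smul_mem _ _ (Submodule.subset_span ?_)
      left
      exact ⟨s.1, hmt s hs, t.1, hmt t ht, u.1, hmt u hu, rfl⟩
    · have : (fun c : List (Dart E) => ∑ s ∈ top.toFinset, ∑ t ∈ top.toFinset, μ s t * cc s t c) =
          ∑ s ∈ top.toFinset, ∑ t ∈ top.toFinset, μ s t • (cc s t) := by
        funext c
        simp only [Finset.sum_apply, Pi.smul_apply, smul_eq_mul]
      rw [this]
      refine Submodule.sum_mem _ fun s hs => Submodule.sum_mem _ fun t ht =>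
        Submodule.smul_mem _ _ (Submodule.subset_span ?_)
      right
      exact ⟨s, t, hmt s hs, hmt t ht, rfl⟩
  · intro c hc
    have h1 := hκ (cv c) (hCYC.cvnd hc)
    rw [key] at h1
    have hion : ∀ s : Dart E, ion (cv c) s = xe s.1 c := by
      intro s
      unfold ion xe
      simp only [hCYC.on]
    have hcoh : ∀ s t : Dart E, coh (cv c) s t = cc s t c := by
      intro s t
      unfold coh cc
      simp only [hCYC.up, hCYC.dn]
    simp only [hion, hcoh] at h1
    have h2 := add_self (AW (cv c) W')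
    linear_combination h1 - h2

end Pool.Agent.Lib.MP3ff0f8.T
end

section
/-!
# Module CNA: the cone over an internally 4-connected graph
-/
namespace Pool.Agent.Lib.MP3ff0f8.T

namespace CNAM

set_option linter.unusedSectionVars false

variable {V E : Type} [DecidableEq V] [DecidableEq E]

omit [DecidableEq E] in
lemma mem_st {G : Gr V E} (u : V) (x : Dart E) : x ∈ G.st u ↔ x.1 ∈ G.X ∧ G.vt x = u := by
  simp [Gr.st]

omit [DecidableEq E] in
lemma mem_vs {G : Gr V E} (A : Finset E) (u : V) :
    u ∈ G.vs A ↔ ∃ x : Dart E, x.1 ∈ A ∧ G.vt x = u := by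
  unfold Gr.vs
  rw [Finset.mem_image]
  constructor
  · rintro ⟨x, hx, h⟩
    exact ⟨x, by simpa using hx, h⟩
  · rintro ⟨x, hx, h⟩
    exact ⟨x, by simpa using hx, h⟩

lemma inl_mem {G : Gr V E} (e : E) : Sum.inl e ∈ (cone G).X ↔ e ∈ G.X := by
  simp [cone]

lemma inr_mem {G : Gr V E} (v : V) : Sum.inr v ∈ (cone G).X ↔ v ∈ G.vs G.X := by
  simp [cone]

lemma vt_inl {G : Gr V E} (e : E) (b : Bool) : (cone G).vt (Sum.inl e, b) = some (G.vt (e, b)) := rfl
lemma vt_inr {G : Gr V E} (v : V) : (cone G).vt (Sum.inr v, true) = some v := rfl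
lemma vt_inr' {G : Gr V E} (v : V) : (cone G).vt (Sum.inr v, false) = none := rfl

/-- a graph without loops and parallels on at most three vertices -/
lemma few {G : Gr V E} (hL : Loopless G) (hN : NoPar G) {A : Finset E} (hA : A ⊆ G.X)
    {T : Finset V} (hT : G.vs A ⊆ T) (h3 : T.card ≤ 3) : A.card ≤ T.card := by
  have hinj : Set.InjOn (fun e => ({G.vt (e, false), G.vt (e, true)} : Finset V)) (A : Set E) := by
    intro e he f hf hef
    simp only at hef
    have he' := hA he
    have hf' := hA hf
    have h1 : G.vt (e, false) ∈ ({G.vt (f, false), G.vt (f, true)} : Finset V) := by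
      rw [← hef]; simp
    have h2 : G.vt (e, true) ∈ ({G.vt (f, false), G.vt (f, true)} : Finset V) := by
      rw [← hef]; simp
    have hl := hL (e, false) he'
    simp only [Finset.mem_insert, Finset.mem_singleton] at h1 h2
    rcases h1 with h1 | h1
    · rcases h2 with h2 | h2
      · exact absurd (h1.trans h2.symm) hl
      · exact hN (e, false) (f, false) he' hf' h1 h2
    · rcases h2 with h2 | h2
      · exact hN (e, false) (f, true) he' hf' h1 h2
      · exact absurd (h1.trans h2.symm) hl
  have hsub : A.image (fun e => ({G.vt (e, false), G.vt (e, true)} : Finset V)) ⊆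
      T.powersetCard 2 := by
    intro s hs
    obtain ⟨e, he, rfl⟩ := Finset.mem_image.1 hs
    rw [Finset.mem_powersetCard]
    refine ⟨?_, Finset.card_pair (hL (e, false) (hA he))⟩
    intro v hv
    simp only [Finset.mem_insert, Finset.mem_singleton] at hv
    apply hT
    rw [mem_vs]
    rcases hv with rfl | rfl
    · exact ⟨(e, false), he, rfl⟩
    · exact ⟨(e, true), he, rfl⟩
  have h := Finset.card_le_card hsub
  rw [Finset.card_image_of_injOn hinj, Finset.card_powersetCard] at h
  generalize T.card = k at h h3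
  have hc : Nat.choose k 2 ≤ k := by
    interval_cases k <;> decide
  exact h.trans hc

lemma loopless {G : Gr V E} (hL : Loopless G) : Loopless (cone G) := by
  rintro ⟨e | v, b⟩ hd
  · rw [inl_mem] at hd
    intro h
    exact hL (e, b) hd (Option.some.inj h)
  · cases b
    · intro h; exact absurd h (by simp [rv, vt_inr, vt_inr'])
    · intro h; exact absurd h (by simp [rv, vt_inr, vt_inr'])

lemma nopar {G : Gr V E} (hN : NoPar G) : NoPar (cone G) := by
  rintro ⟨e | v, b⟩ ⟨f | w, b'⟩ hd hd' h1 h2
  · rw [inl_mem] at hd hd'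
    have := hN (e, b) (f, b') hd hd' (Option.some.inj h1) (Option.some.inj h2)
    exact congrArg Sum.inl this
  · exfalso
    cases b'
    · exact absurd h1 (by simp [vt_inl, vt_inr'])
    · exact absurd h2 (by simp [rv, vt_inl, vt_inr'])
  · exfalso
    cases b
    · exact absurd h1 (by simp [vt_inl, vt_inr'])
    · exact absurd h2 (by simp [rv, vt_inl, vt_inr'])
  · cases b <;> cases b'
    · simp only [rv, Bool.not_false, vt_inr, Option.some.injEq] at h2
      rw [h2]
    · exact absurd h1 (by simp [vt_inr, vt_inr'])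
    · exact absurd h1 (by simp [vt_inr, vt_inr'])
    · simp only [vt_inr, Option.some.injEq] at h1
      rw [h1]

/-- the ends of the darts at a vertex are different -/
lemma inj_end {G : Gr V E} (hL : Loopless G) (hN : NoPar G) (u : V) :
    Set.InjOn (fun x : Dart E => G.vt (rv x)) (G.st u : Set (Dart E)) := by
  intro x hx y hy hxy
  have hx' := (mem_st u x).1 hx
  have hy' := (mem_st u y).1 hy
  have e := hN x y hx'.1 hy'.1 (hx'.2.trans hy'.2.symm) hxy
  obtain ⟨ex, bx⟩ := x
  obtain ⟨ey, bY⟩ := y
  simp only at e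
  subst e
  by_cases hb : bx = bY
  · rw [hb]
  · exfalso
    have : (ex, bY) = rv (ex, bx) := by
      cases bx <;> cases bY <;> simp_all [rv]
    apply hL (ex, bx) hx'.1
    rw [← this, hx'.2, hy'.2]

/-- the darts at a vertex belong to different edges -/
lemma inj_edge {G : Gr V E} (hL : Loopless G) (u : V) :
    Set.InjOn (Prod.fst : Dart E → E) (G.st u : Set (Dart E)) := by
  intro x hx y hy hxy
  have hx' := (mem_st u x).1 hx
  have hy' := (mem_st u y).1 hy
  obtain ⟨ex, bx⟩ := x
  obtain ⟨ey, bY⟩ := y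
  simp only at hxy
  subst hxy
  by_cases hb : bx = bY
  · rw [hb]
  · exfalso
    have : (ex, bY) = rv (ex, bx) := by
      cases bx <;> cases bY <;> simp_all [rv]
    apply hL (ex, bx) hx'.1
    rw [← this, hx'.2, hy'.2]

lemma st_nonempty {G : Gr V E} {u : V} (h : u ∈ G.vs G.X) : (G.st u).Nonempty := by
  obtain ⟨x, hx, hxu⟩ := (mem_vs G.X u).1 h
  exact ⟨x, (mem_st u x).2 ⟨hx, hxu⟩⟩

lemma deg3 {G : Gr V E} (hL : Loopless G) (hN : NoPar G) (hD : Deg3 G) (hne : G.X.Nonempty) :
    Deg3 (cone G) := by
  intro w hw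
  cases w with
  | none =>
    obtain ⟨e, he⟩ := hne
    have hv : G.vt (e, false) ∈ G.vs G.X := (mem_vs _ _).2 ⟨(e, false), he, rfl⟩
    have h3 := hD _ (st_nonempty hv)
    have h1 : (G.st (G.vt (e, false))).card ≤ (G.vs G.X).card := by
      rw [← Finset.card_image_of_injOn (inj_end hL hN (G.vt (e, false)))]
      apply Finset.card_le_card
      intro z hz
      obtain ⟨x, hx, rfl⟩ := Finset.mem_image.1 hz
      exact (mem_vs _ _).2 ⟨rv x, ((mem_st _ x).1 hx).1, rfl⟩
    have h2 : (G.vs G.X).card ≤ ((cone G).st none).card := by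
      rw [← Finset.card_image_of_injective (G.vs G.X)
        (f := fun v : V => ((Sum.inr v, false) : Dart (E ⊕ V))) (by
          intro a b hab
          simpa using hab)]
      apply Finset.card_le_card
      intro z hz
      obtain ⟨v, hv, rfl⟩ := Finset.mem_image.1 hz
      rw [mem_st]
      exact ⟨(inr_mem v).2 hv, rfl⟩
    omega
  | some v =>
    have hv : v ∈ G.vs G.X := by
      obtain ⟨⟨e | w, b⟩, hx⟩ := hw
      · obtain ⟨h1, h2⟩ := (mem_st _ _).1 hx
        rw [inl_mem] at h1
        exact (mem_vs _ _).2 ⟨(e, b), h1, Option.some.inj h2⟩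
      · obtain ⟨h1, h2⟩ := (mem_st _ _).1 hx
        rw [inr_mem] at h1
        cases b
        · exact absurd h2 (by simp [vt_inr'])
        · rw [vt_inr, Option.some.injEq] at h2
          rw [← h2]; exact h1
    have h3 := hD _ (st_nonempty hv)
    refine h3.trans ?_
    rw [← Finset.card_image_of_injective (G.st v)
      (f := fun x : Dart E => ((Sum.inl x.1, x.2) : Dart (E ⊕ V))) (by
        rintro ⟨a, b⟩ ⟨c, d⟩ hab
        simpa using hab)]
    apply Finset.card_le_card
    intro z hz
    obtain ⟨x, hx, rfl⟩ := Finset.mem_image.1 hz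
    obtain ⟨h1, h2⟩ := (mem_st _ _).1 hx
    rw [mem_st]
    exact ⟨(inl_mem _).2 h1, by rw [vt_inl, ← h2]⟩

/-- case 1: the apex is not on `A` -/
lemma case1 {G : Gr V E} (hL : Loopless G) (hN : NoPar G) {A B : Finset (E ⊕ V)}
    (hU : A ∪ B = (cone G).X) (hk : ((cone G).vs A ∩ (cone G).vs B).card ≤ 3)
    (hn : none ∉ (cone G).vs A) : A.card ≤ ((cone G).vs A ∩ (cone G).vs B).card := by
  have hA : A ⊆ (cone G).X := by rw [← hU]; exact Finset.subset_union_left
  refine few (loopless hL) (nopar hN) hA ?_ hk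
  intro w hw
  rw [Finset.mem_inter]
  refine ⟨hw, ?_⟩
  obtain ⟨x, hx, rfl⟩ := (mem_vs _ _).1 hw
  obtain ⟨e | v, b⟩ := x
  · have he : e ∈ G.X := (inl_mem e).1 (hA hx)
    have hv : G.vt (e, b) ∈ G.vs G.X := (mem_vs _ _).2 ⟨(e, b), he, rfl⟩
    have h1 : (Sum.inr (G.vt (e, b)) : E ⊕ V) ∈ A ∪ B := by
      rw [hU]; exact (inr_mem _).2 hv
    rcases Finset.mem_union.1 h1 with h2 | h2
    · exact absurd ((mem_vs _ _).2 ⟨(Sum.inr (G.vt (e, b)), false), h2, rfl⟩) hn
    · exact (mem_vs _ _).2 ⟨(Sum.inr (G.vt (e, b)), true), h2, rfl⟩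
  · exact absurd ((mem_vs _ _).2 ⟨(Sum.inr v, false), hx, rfl⟩) hn

/-- case 2: few edges of `G` in `A` -/
lemma case2 {G : Gr V E} (hL : Loopless G) (hN : NoPar G) (hD : Deg3 G) {A B : Finset (E ⊕ V)}
    (hU : A ∪ B = (cone G).X) (hk : ((cone G).vs A ∩ (cone G).vs B).card ≤ 3)
    (h2 : (G.X.filter fun e => Sum.inl e ∈ A).card ≤ 2) (hnB : none ∈ (cone G).vs B) :
    A.card ≤ ((cone G).vs A ∩ (cone G).vs B).card := by
  have hA : A ⊆ (cone G).X := by rw [← hU]; exact Finset.subset_union_left
  refine few (loopless hL) (nopar hN) hA ?_ hk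
  intro w hw
  rw [Finset.mem_inter]
  refine ⟨hw, ?_⟩
  by_contra hcon
  cases w with
  | none => exact hcon hnB
  | some v =>
    have hv : v ∈ G.vs G.X := by
      obtain ⟨x, hx, hxv⟩ := (mem_vs _ _).1 hw
      obtain ⟨e | w, b⟩ := x
      · have he : e ∈ G.X := (inl_mem e).1 (hA hx)
        exact (mem_vs _ _).2 ⟨(e, b), he, Option.some.inj hxv⟩
      · have he : w ∈ G.vs G.X := (inr_mem w).1 (hA hx)
        cases b
        · exact absurd hxv (by simp [vt_inr'])
        · rw [vt_inr, Option.some.injEq] at hxv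
          rw [← hxv]; exact he
    have h3 := hD _ (st_nonempty hv)
    have h4 : (G.st v).card ≤ (G.X.filter fun e => Sum.inl e ∈ A).card := by
      rw [← Finset.card_image_of_injOn (inj_edge hL v)]
      apply Finset.card_le_card
      intro e he
      obtain ⟨x, hx, rfl⟩ := Finset.mem_image.1 he
      obtain ⟨h5, h6⟩ := (mem_st _ _).1 hx
      rw [Finset.mem_filter]
      refine ⟨h5, ?_⟩
      have h7 : (Sum.inl x.1 : E ⊕ V) ∈ A ∪ B := by rw [hU]; exact (inl_mem _).2 h5
      rcases Finset.mem_union.1 h7 with h8 | h8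
      · exact h8
      · exfalso
        apply hcon
        refine (mem_vs _ _).2 ⟨(Sum.inl x.1, x.2), h8, ?_⟩
        rw [vt_inl, ← h6]
    omega

lemma sep4 {G : Gr V E} (hL : Loopless G) (hN : NoPar G) (hD : Deg3 G) (hS : Sep4 G) :
    Sep4 (cone G) := by
  intro A B hdis hU hk
  by_cases hnA : none ∈ (cone G).vs A
  · by_cases hnB : none ∈ (cone G).vs B
    · set A' := G.X.filter fun e => Sum.inl e ∈ A with hA'
      set B' := G.X.filter fun e => Sum.inl e ∈ B with hB'
      have hdis' : Disjoint A' B' := by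
        rw [Finset.disjoint_left]
        intro e he hf
        exact Finset.disjoint_left.1 hdis (Finset.mem_filter.1 he).2 (Finset.mem_filter.1 hf).2
      have hU' : A' ∪ B' = G.X := by
        ext e
        rw [Finset.mem_union, Finset.mem_filter, Finset.mem_filter]
        constructor
        · rintro (h | h)
          · exact h.1
          · exact h.1
        · intro h
          have h7 : (Sum.inl e : E ⊕ V) ∈ A ∪ B := by rw [hU]; exact (inl_mem _).2 h
          rcases Finset.mem_union.1 h7 with h8 | h8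
          · exact Or.inl ⟨h, h8⟩
          · exact Or.inr ⟨h, h8⟩
      have hT : (G.vs A' ∩ G.vs B').card + 1 ≤ ((cone G).vs A ∩ (cone G).vs B).card := by
        have h1 : (insert none ((G.vs A' ∩ G.vs B').image some)).card =
            (G.vs A' ∩ G.vs B').card + 1 := by
          rw [Finset.card_insert_of_notMem (by simp),
            Finset.card_image_of_injective _ (Option.some_injective V)]
        rw [← h1]
        apply Finset.card_le_card
        intro w hw
        rw [Finset.mem_insert, Finset.mem_image] at hw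
        rcases hw with rfl | ⟨v, hv, rfl⟩
        · exact Finset.mem_inter.2 ⟨hnA, hnB⟩
        · obtain ⟨h2, h3⟩ := Finset.mem_inter.1 hv
          obtain ⟨x, hx, hxv⟩ := (mem_vs _ _).1 h2
          obtain ⟨y, hy, hyv⟩ := (mem_vs _ _).1 h3
          refine Finset.mem_inter.2 ⟨?_, ?_⟩
          · exact (mem_vs _ _).2 ⟨(Sum.inl x.1, x.2), (Finset.mem_filter.1 hx).2, by
              rw [vt_inl, ← hxv]⟩
          · exact (mem_vs _ _).2 ⟨(Sum.inl y.1, y.2), (Finset.mem_filter.1 hy).2, by
              rw [vt_inl, ← hyv]⟩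
      rcases hS A' B' hdis' hU' (by omega) with h | h
      · left
        exact case2 hL hN hD hU hk (by rw [← hA']; omega) hnB
      · right
        rw [Finset.inter_comm]
        exact case2 hL hN hD (by rw [Finset.union_comm]; exact hU)
          (by rw [Finset.inter_comm]; exact hk) (by rw [← hB']; omega) hnA
    · right
      rw [Finset.inter_comm]
      exact case1 hL hN (by rw [Finset.union_comm]; exact hU)
        (by rw [Finset.inter_comm]; exact hk) hnB
  · left
    exact case1 hL hN hU hk hnA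

end CNAM

theorem specCNA : SpecCNA := by
  intro V E _ _ G hL hN hD hS hne
  exact ⟨CNAM.loopless hL, CNAM.nopar hN, CNAM.deg3 hL hN hD hne, CNAM.sep4 hL hN hD hS⟩

end Pool.Agent.Lib.MP3ff0f8.T
end

section
/-!
# MP_3ff0f8_gt, topological half: module TRE
-/
set_option autoImplicit false

namespace Pool.Agent.Lib.MP3ff0f8.T.TREM

open Pool.Agent.Lib.MP3ff0f8.T

variable {V E : Type}

theorem rv_rv (d : Dart E) : rv (rv d) = d := by
  unfold rv
  simp

theorem rv_fst (d : Dart E) : (rv d).1 = d.1 := rfl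

/-- the next dart of a cycle starts where the present one ends -/
theorem next {G : Gr V E} {l : List (Dart E)} (h : IsCyc G l) (i : ℕ) (hi : i < l.length) :
    G.vt (rv l[i]) = G.vt (l[(i + 1) % l.length]'(Nat.mod_lt _ (by omega))) := by
  have h1 : (l.map fun d => G.vt (rv d))[i]'(by simpa using hi) =
      ((l.map G.vt).rotate 1)[i]'(by simpa using hi) := by
    congr 1
    exact h.cl
  rw [List.getElem_rotate] at h1
  simpa using h1

/-- a closed walk which passes a vertex with `P` and a vertex without `P` leaves `P` -/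
theorem leave {G : Gr V E} {l : List (Dart E)} (h : IsCyc G l) (P : V → Prop)
    (h1 : ∃ d ∈ l, P (G.vt d)) (h2 : ∃ d ∈ l, ¬ P (G.vt d)) :
    ∃ x ∈ l, P (G.vt x) ∧ ¬ P (G.vt (rv x)) := by
  by_contra hcon
  push Not at hcon
  obtain ⟨d, hd, hPd⟩ := h1
  obtain ⟨e, he, hPe⟩ := h2
  obtain ⟨i, hi, rfl⟩ := List.getElem_of_mem hd
  obtain ⟨j, hj, rfl⟩ := List.getElem_of_mem he
  have hpos : 0 < l.length := by omega
  have key : ∀ k : ℕ, P (G.vt (l[(i + k) % l.length]'(Nat.mod_lt _ hpos))) := by
    intro k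
    induction k with
    | zero =>
      have : (i + 0) % l.length = i := by rw [Nat.add_zero, Nat.mod_eq_of_lt hi]
      simp only [this]
      exact hPd
    | succ k ih =>
      have h3 := hcon _ (List.getElem_mem (Nat.mod_lt (i + k) hpos)) ih
      rw [next h _ (Nat.mod_lt _ hpos)] at h3
      have : ((i + k) % l.length + 1) % l.length = (i + (k + 1)) % l.length := by
        rw [Nat.mod_add_mod, Nat.add_assoc]
      simp only [this] at h3
      exact h3
  have h4 := key (l.length - i + j)
  have : (i + (l.length - i + j)) % l.length = j := by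
    rw [show i + (l.length - i + j) = l.length + j by omega, Nat.add_mod_left, Nat.mod_eq_of_lt hj]
  simp only [this] at h4
  exact hPe h4

theorem end_mem {G : Gr V E} {l : List (Dart E)} (h : IsCyc G l) {x : Dart E} (hx : x ∈ l) :
    G.vt (rv x) ∈ l.map G.vt := by
  obtain ⟨i, hi, rfl⟩ := List.getElem_of_mem hx
  rw [next h i hi]
  exact List.mem_map_of_mem (List.getElem_mem _)

theorem eq_of_fst {G : Gr V E} {c : List (Dart E)} (h : IsCyc G c) {x y : Dart E} (hx : x ∈ c)
    (hy : y ∈ c) (e : x.1 = y.1) : x = y :=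
  List.inj_on_of_nodup_map h.nde hx hy e

theorem le [DecidableEq V] [DecidableEq E] {G : Gr V E} (T : Finset E) (B : Finset V)
    (hC : Conn G T B) (hn : B.Nonempty) : B.card ≤ T.card + 1 := by
  have key : ∀ n : ℕ, ∀ (S : Finset V) (U : Finset E), (B \ S).card = n → S ⊆ B → S.Nonempty →
      U ⊆ T → (∀ d : Dart E, d.1 ∈ U → G.vt d ∈ S) → S.card ≤ U.card + 1 →
      B.card ≤ T.card + 1 := by
    intro n
    induction n with
    | zero =>
      intro S U h0 hS _ hU _ hc
      have : B ⊆ S := by
        rw [Finset.card_eq_zero, Finset.sdiff_eq_empty_iff_subset] at h0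
        exact h0
      exact (Finset.card_le_card this).trans (hc.trans (by
        have := Finset.card_le_card hU
        omega))
    | succ n ih =>
      intro S U h0 hS hne hU hd hc
      have hSB : S ≠ B := by
        rintro rfl
        simp at h0
      obtain ⟨d, h1, h2, h3, h4⟩ := hC S hS hne hSB
      refine ih (insert (G.vt (rv d)) S) (insert d.1 U) ?_ ?_ (Finset.insert_nonempty _ _) ?_ ?_ ?_
      · rw [Finset.sdiff_insert, Finset.card_erase_of_mem, h0]
        · rfl
        · rw [Finset.mem_sdiff]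
          exact ⟨h3, h4⟩
      · intro x hx
        rcases Finset.mem_insert.1 hx with rfl | hx
        · exact h3
        · exact hS hx
      · intro x hx
        rcases Finset.mem_insert.1 hx with rfl | hx
        · exact h1
        · exact hU hx
      · intro x hx
        rcases Finset.mem_insert.1 hx with hx | hx
        · rcases eq_or_ne x d with rfl | hne'
          · exact Finset.mem_insert_of_mem h2
          · have : x = rv d := by
              unfold rv
              refine Prod.ext hx ?_
              by_contra hcon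
              apply hne'
              refine Prod.ext hx ?_
              cases hx2 : x.2 <;> cases hd2 : d.2 <;> simp_all
            rw [this]
            exact Finset.mem_insert_self _ _
        · exact Finset.mem_insert_of_mem (hd x hx)
      · have hnU : d.1 ∉ U := fun h => h4 (hd (rv d) h)
        rw [Finset.card_insert_of_notMem h4, Finset.card_insert_of_notMem hnU]
        omega
  obtain ⟨b, hb⟩ := hn
  exact key _ {b} ∅ rfl (Finset.singleton_subset_iff.2 hb) (Finset.singleton_nonempty b)
    (Finset.empty_subset _) (by simp) (by simp)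

theorem chord [DecidableEq V] [DecidableEq E] {G : Gr V E} (Y : Finset E)
    (B : Finset V) (c : List (Dart E)) (f : E) (hC : Conn G Y B)
    (hB : ∀ d : Dart E, d.1 ∈ Y → G.vt d ∈ B) (hc : IsCyc G c) (hY : ∀ d ∈ c, d.1 ∈ Y)
    (hf : ∀ b : Bool, G.vt (f, b) ∈ c.map G.vt) : Conn G (Y.erase f) B := by
  intro S hS hne hSB
  obtain ⟨x, h1, h2, h3, h4⟩ := hC S hS hne hSB
  by_cases hxf : x.1 = f
  · have hx1 : ∃ d ∈ c, G.vt d ∈ S := by
      obtain ⟨d, hd, e⟩ := List.mem_map.1 (hf x.2)
      refine ⟨d, hd, ?_⟩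
      rw [e, ← hxf]
      exact h2
    have hx2 : ∃ d ∈ c, G.vt d ∉ S := by
      obtain ⟨d, hd, e⟩ := List.mem_map.1 (hf (!x.2))
      refine ⟨d, hd, ?_⟩
      rw [e, ← hxf]
      exact h4
    obtain ⟨y, hy, hy1, hy2⟩ := leave hc (· ∈ S) hx1 hx2
    obtain ⟨z, hz, hz1, hz2⟩ := leave hc (· ∉ S) hx2 (by
      obtain ⟨d, hd, e⟩ := hx1
      exact ⟨d, hd, not_not.2 e⟩)
    rw [not_not] at hz2
    by_cases hyf : y.1 = f
    · have hzf : z.1 ≠ f := by
        intro hzf
        have := eq_of_fst hc hy hz (hyf.trans hzf.symm)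
        rw [this] at hy1
        exact hz1 hy1
      refine ⟨rv z, Finset.mem_erase.2 ⟨hzf, hY z hz⟩, hz2, ?_, ?_⟩
      · rw [rv_rv]
        exact hB z (hY z hz)
      · rw [rv_rv]
        exact hz1
    · exact ⟨y, Finset.mem_erase.2 ⟨hyf, hY y hy⟩, hy1, hB (rv y) (hY y hy), hy2⟩
  · exact ⟨x, Finset.mem_erase.2 ⟨hxf, h1⟩, h2, h3, h4⟩

end Pool.Agent.Lib.MP3ff0f8.T.TREM

namespace Pool.Agent.Lib.MP3ff0f8.T

theorem specTRE : SpecTRE where
  le := fun T B h1 h2 _ => TREM.le T B h1 h2
  chord := fun Y B c f => TREM.chord Y B c f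

end Pool.Agent.Lib.MP3ff0f8.T
end

section
/-!
# MP_3ff0f8_gt, topological half: module DFC
-/
set_option autoImplicit false
set_option linter.unusedSectionVars false

namespace Pool.Agent.Lib.MP3ff0f8.T.DFCM

open Pool.Agent.Lib.MP3ff0f8.T

variable {V E : Type} [DecidableEq V] [DecidableEq E]

/-- the merging of the end of `d` into its start -/
def mg (G : Gr V E) (d : Dart E) (v : V) : V := if v = G.vt (rv d) then G.vt d else v

theorem con_vt (G : Gr V E) (d x : Dart E) : (G.con d).vt x = mg G d (G.vt x) := rfl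

theorem eq_or {d x : Dart E} (h : x.1 = d.1) : x = d ∨ x = rv d := by
  rcases eq_or_ne x d with h1 | h1
  · exact Or.inl h1
  · right
    unfold rv
    refine Prod.ext h ?_
    by_contra hcon
    apply h1
    refine Prod.ext h ?_
    cases hx2 : x.2 <;> cases hd2 : d.2 <;> simp_all

theorem mg_start (G : Gr V E) (d : Dart E) : mg G d (G.vt d) = G.vt d := by
  unfold mg
  split_ifs <;> rfl

theorem mg_end (G : Gr V E) (d : Dart E) : mg G d (G.vt (rv d)) = G.vt d := by
  unfold mg
  rw [if_pos rfl]

theorem mg_of_fst (G : Gr V E) {d x : Dart E} (h : x.1 = d.1) : mg G d (G.vt x) = G.vt d := by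
  rcases eq_or h with rfl | rfl
  · exact mg_start G x
  · exact mg_end G d

theorem del_eq (e : E) {c : List (Dart E)} (h : e ∉ c.map Prod.fst) : del e c = c := by
  unfold del
  rw [List.filter_eq_self]
  intro d hd
  simp only [ne_eq, decide_not, Bool.not_eq_eq_eq_not, Bool.not_true, decide_eq_false_iff_not]
  intro h1
  exact h (h1 ▸ List.mem_map_of_mem hd)

theorem del_cons {x : Dart E} {c : List (Dart E)} (h : ((x :: c).map Prod.fst).Nodup) :
    del x.1 (x :: c) = c := by
  have h1 : x.1 ∉ c.map Prod.fst := by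
    rw [List.map_cons, List.nodup_cons] at h
    exact h.1
  unfold del
  rw [List.filter_cons_of_neg (by simp)]
  exact del_eq _ h1

theorem del_rot (e : E) {c c' : List (Dart E)} (h : c.IsRotated c') :
    (del e c).IsRotated (del e c') := by
  obtain ⟨k, rfl⟩ := h
  rcases Nat.lt_or_ge c.length k with hk | hk
  · rw [← List.rotate_mod]
    rcases Nat.eq_zero_or_pos c.length with h0 | h0
    · rw [List.length_eq_zero_iff.1 h0]
      exact List.IsRotated.refl _
    · have : k % c.length ≤ c.length := (Nat.mod_lt _ h0).le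
      rw [List.rotate_eq_drop_append_take this]
      unfold del
      rw [List.filter_append]
      conv_lhs => rw [← List.take_append_drop (k % c.length) c, List.filter_append]
      exact List.isRotated_append
  · rw [List.rotate_eq_drop_append_take hk]
    unfold del
    rw [List.filter_append]
    conv_lhs => rw [← List.take_append_drop k c, List.filter_append]
    exact List.isRotated_append

/-- a cycle which passes at most one end of `d` and not the edge of `d` stays a cycle -/
theorem cyc_of_not {G : Gr V E} {c : List (Dart E)} (hc : IsCyc G c) (d : Dart E)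
    (h : d.1 ∉ c.map Prod.fst) (h2 : ¬ (G.vt d ∈ c.map G.vt ∧ G.vt (rv d) ∈ c.map G.vt)) :
    IsCyc (G.con d) c where
  ne := hc.ne
  mem := fun x hx => Finset.mem_erase.2
    ⟨fun h1 => h (h1 ▸ List.mem_map_of_mem hx), hc.mem x hx⟩
  nde := hc.nde
  ndv := by
    have h1 : c.map (G.con d).vt = (c.map G.vt).map (mg G d) := by
      rw [List.map_map]
      rfl
    rw [h1]
    refine (List.nodup_map_iff_inj_on hc.ndv).2 ?_
    intro v hv w hw hvw
    unfold mg at hvw
    split_ifs at hvw with a b b
    · rw [a, b]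
    · exact absurd ⟨hvw ▸ hw, a ▸ hv⟩ h2
    · exact absurd ⟨hvw ▸ hv, b ▸ hw⟩ h2
    · exact hvw
  cl := by
    have h1 : c.map (G.con d).vt = (c.map G.vt).map (mg G d) := by
      rw [List.map_map]
      rfl
    have h3 : c.map (fun x => (G.con d).vt (rv x)) = (c.map fun x => G.vt (rv x)).map (mg G d) := by
      rw [List.map_map]
      rfl
    rw [h1, h3, hc.cl, List.map_rotate]

/-- a cycle which starts with `x`, an orientation of the edge of `d` -/
theorem cyc_cons {G : Gr V E} {c : List (Dart E)} {x d : Dart E} (hc : IsCyc G (x :: c))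
    (hx : x.1 = d.1) (hd : G.vt d ≠ G.vt (rv d)) : IsCyc (G.con d) c := by
  have hcl := hc.cl
  have hne : c ≠ [] := by
    rintro rfl
    simp only [List.map_cons, List.map_nil, List.rotate_singleton, List.cons.injEq, and_true] at hcl
    rcases eq_or hx with rfl | rfl
    · exact hd hcl.symm
    · rw [TREM.rv_rv] at hcl
      exact hd hcl
  refine ⟨hne, ?_, ?_, ?_, ?_⟩
  · intro y hy
    refine Finset.mem_erase.2 ⟨?_, hc.mem y (List.mem_cons_of_mem _ hy)⟩
    intro h1
    have h2 := hc.nde
    rw [List.map_cons, List.nodup_cons] at h2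
    exact h2.1 (hx ▸ h1 ▸ List.mem_map_of_mem hy)
  · have h2 := hc.nde
    rw [List.map_cons, List.nodup_cons] at h2
    exact h2.2
  · have h2 := hc.ndv
    rw [List.map_cons, List.nodup_cons] at h2
    have h1 : c.map (G.con d).vt = (c.map G.vt).map (mg G d) := by
      rw [List.map_map]
      rfl
    rw [h1]
    refine (List.nodup_map_iff_inj_on h2.2).2 ?_
    intro v hv w hw hvw
    have hv' : v ≠ G.vt x := fun e => h2.1 (e ▸ hv)
    have hw' : w ≠ G.vt x := fun e => h2.1 (e ▸ hw)
    unfold mg at hvw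
    rcases eq_or hx with rfl | rfl
    · split_ifs at hvw with a b b
      · rw [a, b]
      · exact absurd hvw.symm hw'
      · exact absurd hvw hv'
      · exact hvw
    · rw [if_neg hv', if_neg hw'] at hvw
      exact hvw
  · obtain ⟨y, c', rfl⟩ := List.exists_cons_of_ne_nil hne
    have h1 := congrArg (List.map (mg G d)) hcl
    rw [List.map_map, ← List.map_rotate, List.map_map] at h1
    simp only [List.map_cons, List.rotate_cons_succ, List.rotate_zero, List.map_append,
      List.cons_append, List.map_nil, List.cons.injEq, Function.comp] at h1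
    have h3 : mg G d (G.vt (rv x)) = G.vt d := mg_of_fst G (x := rv x) hx
    have h4 : mg G d (G.vt x) = G.vt d := mg_of_fst G hx
    rw [h3, h4] at h1
    simp only [List.map_cons, List.rotate_cons_succ, List.rotate_zero, con_vt]
    rw [← h1.1]
    exact h1.2

/-- contraction of an edge of a cycle -/
theorem cyc_of_mem {G : Gr V E} {c : List (Dart E)}
    (hr : ∀ {H : Gr V E} {c : List (Dart E)} (k : ℕ), IsCyc H c → IsCyc H (c.rotate k))
    (hc : IsCyc G c) (d : Dart E)
    (h : d.1 ∈ c.map Prod.fst) (hd : G.vt d ≠ G.vt (rv d)) : IsCyc (G.con d) (del d.1 c) := by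
  obtain ⟨x, hx, e⟩ := List.mem_map.1 h
  obtain ⟨A, B, rfl⟩ := List.append_of_mem hx
  have h1 : (A ++ x :: B).IsRotated (x :: B ++ A) := List.isRotated_append
  obtain ⟨k, hk⟩ := h1
  have h2 := hr k hc
  rw [hk, List.cons_append] at h2
  have h3 := cyc_cons h2 e hd
  have h4 : del d.1 (x :: B ++ A) = B ++ A := by
    rw [← e, List.cons_append]
    exact del_cons h2.nde
  have h5 : (del d.1 (x :: B ++ A)).IsRotated (del d.1 (A ++ x :: B)) :=
    (del_rot d.1 ⟨k, hk⟩).symm
  rw [h4] at h5
  obtain ⟨m, hm⟩ := h5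
  rw [← hm]
  exact hr m h3

/-- the edge set of the 4-cycle `ε` together with all trees -/
def YY (M : D4M V E) (ε : Fin 4 → Bool) : Finset E :=
  (Finset.univ.biUnion M.T) ∪ Finset.univ.image fun i => (M.bd i (ε i)).1

theorem card_YY {G : Gr V E} {M : D4M V E} (hM : IsD4 G M) (ε : Fin 4 → Bool) :
    (YY M ε).card ≤ (Finset.univ.biUnion M.B).card := by
  have h1 : (Finset.univ.biUnion M.B).card = ∑ i, (M.B i).card :=
    Finset.card_biUnion fun i _ j _ hij => hM.disj i j hij
  have h2 : (Finset.univ.biUnion M.T).card ≤ ∑ i, (M.T i).card := Finset.card_biUnion_le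
  have h3 : (Finset.univ.image fun i => (M.bd i (ε i)).1).card ≤ 4 := by
    refine Finset.card_image_le.trans ?_
    simp
  have h4 : ∑ i, (M.B i).card = ∑ i, (M.T i).card + 4 := by
    rw [← Finset.sum_congr rfl fun i _ => hM.card i, Finset.sum_add_distrib]
    simp
  rw [h1, h4]
  exact (Finset.card_union_le _ _).trans (Nat.add_le_add h2 h3)

theorem ends_YY {G : Gr V E} {M : D4M V E} (hM : IsD4 G M) (ε : Fin 4 → Bool) (d : Dart E)
    (h : d.1 ∈ YY M ε) : G.vt d ∈ Finset.univ.biUnion M.B := by
  unfold YY at h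
  rcases Finset.mem_union.1 h with h | h
  · obtain ⟨i, _, hi⟩ := Finset.mem_biUnion.1 h
    exact Finset.mem_biUnion.2 ⟨i, Finset.mem_univ _, hM.ends i d hi⟩
  · obtain ⟨i, _, hi⟩ := Finset.mem_image.1 h
    rcases eq_or (x := d) (d := M.bd i (ε i)) hi.symm with rfl | rfl
    · exact Finset.mem_biUnion.2 ⟨i, Finset.mem_univ _, hM.bS i _⟩
    · exact Finset.mem_biUnion.2 ⟨i + 1, Finset.mem_univ _, hM.bE i _⟩

theorem conn_YY {G : Gr V E} {M : D4M V E} (hM : IsD4 G M) (ε : Fin 4 → Bool) :
    Conn G (YY M ε) (Finset.univ.biUnion M.B) := by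
  intro S hS hne hSB
  by_cases hex : ∃ i, (S ∩ M.B i).Nonempty ∧ S ∩ M.B i ≠ M.B i
  · obtain ⟨i, h1, h2⟩ := hex
    obtain ⟨x, a1, a2, a3, a4⟩ := hM.conn i (S ∩ M.B i) Finset.inter_subset_right h1 h2
    refine ⟨x, Finset.mem_union_left _ (Finset.mem_biUnion.2 ⟨i, Finset.mem_univ _, a1⟩),
      (Finset.mem_inter.1 a2).1, Finset.mem_biUnion.2 ⟨i, Finset.mem_univ _, a3⟩, ?_⟩
    intro h
    exact a4 (Finset.mem_inter.2 ⟨h, a3⟩)
  · push Not at hex
    have hP : ∀ i, M.B i ⊆ S ∨ Disjoint S (M.B i) := by
      intro i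
      rcases (S ∩ M.B i).eq_empty_or_nonempty with h | h
      · exact Or.inr (Finset.disjoint_iff_inter_eq_empty.2 h)
      · left
        rw [← hex i h]
        exact Finset.inter_subset_left
    have hne' : ∀ i, (M.B i).Nonempty := fun i => ⟨_, hM.bS i true⟩
    have h0 : ∃ i, M.B i ⊆ S := by
      obtain ⟨v, hv⟩ := hne
      obtain ⟨i, _, hi⟩ := Finset.mem_biUnion.1 (hS hv)
      refine ⟨i, (hP i).resolve_right ?_⟩
      intro h
      exact Finset.disjoint_left.1 h hv hi
    have h1 : ∃ i, ¬ M.B i ⊆ S := by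
      by_contra hcon
      push Not at hcon
      exact hSB (Finset.Subset.antisymm hS (Finset.biUnion_subset.2 fun i _ => hcon i))
    have h2 : ∃ i, M.B i ⊆ S ∧ ¬ M.B (i + 1) ⊆ S := by
      by_contra hcon
      push Not at hcon
      obtain ⟨i, hi⟩ := h0
      obtain ⟨j, hj⟩ := h1
      apply hj
      have a1 := hcon _ hi
      have a2 := hcon _ a1
      have a3 := hcon _ a2
      have : ∀ i j : Fin 4, j = i ∨ j = i + 1 ∨ j = i + 1 + 1 ∨ j = i + 1 + 1 + 1 := by decide
      rcases this i j with rfl | rfl | rfl | rfl <;> assumption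
    obtain ⟨i, hi, hi'⟩ := h2
    have hdis := (hP (i + 1)).resolve_left hi'
    refine ⟨M.bd i (ε i), Finset.mem_union_right _ (Finset.mem_image_of_mem _ (Finset.mem_univ i)),
      hi (hM.bS i _), Finset.mem_biUnion.2 ⟨i + 1, Finset.mem_univ _, hM.bE i _⟩, ?_⟩
    intro h
    exact Finset.disjoint_left.1 hdis h (hM.bE i _)

end Pool.Agent.Lib.MP3ff0f8.T.DFCM

namespace Pool.Agent.Lib.MP3ff0f8.T

theorem specDFC (hTRE : SpecTRE) (hCYC : SpecCYC) : SpecDFC := by
  intro V E _ _ G M hM ε c hc j d hd hne
  by_cases h : d.1 ∈ c.map Prod.fst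
  · exact DFCM.cyc_of_mem (fun k h => hCYC.rot k h) hc.cyc d h hne
  · rw [DFCM.del_eq _ h]
    refine DFCM.cyc_of_not hc.cyc d h ?_
    rintro ⟨h1, h2⟩
    have hcY : ∀ x ∈ c, x.1 ∈ DFCM.YY M ε := by
      intro x hx
      rcases hc.mem x hx with ⟨i, hi⟩ | ⟨i, rfl⟩
      · exact Finset.mem_union_left _ (Finset.mem_biUnion.2 ⟨i, Finset.mem_univ _, hi⟩)
      · exact Finset.mem_union_right _ (Finset.mem_image_of_mem _ (Finset.mem_univ i))
    have hdY : d.1 ∈ DFCM.YY M ε :=
      Finset.mem_union_left _ (Finset.mem_biUnion.2 ⟨j, Finset.mem_univ _, hd⟩)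
    have hends := DFCM.ends_YY hM ε
    have hC1 := hTRE.chord (DFCM.YY M ε) _ c d.1 (DFCM.conn_YY hM ε) hends hc.cyc hcY (by
      intro b
      rcases DFCM.eq_or (x := (d.1, b)) (d := d) rfl with e | e
      · rw [e]
        exact h1
      · rw [e]
        exact h2)
    obtain ⟨x, c', hxc⟩ := List.exists_cons_of_ne_nil hc.cyc.ne
    have hx : x ∈ c := by
      rw [hxc]
      exact List.mem_cons_self
    have hcY' : ∀ x ∈ c, x.1 ∈ (DFCM.YY M ε).erase d.1 := fun x hx =>
      Finset.mem_erase.2 ⟨fun e => h (e ▸ List.mem_map_of_mem hx), hcY x hx⟩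
    have hC2 := hTRE.chord _ _ c x.1 hC1 (fun y hy => hends y (Finset.mem_erase.1 hy).2) hc.cyc hcY'
      (by
        intro b
        rcases DFCM.eq_or (x := (x.1, b)) (d := x) rfl with e | e
        · rw [e]
          exact List.mem_map_of_mem hx
        · rw [e]
          exact TREM.end_mem hc.cyc hx)
    have h3 := hTRE.le _ _ hC2 ⟨_, hends d hdY⟩ (fun y hy =>
      hends y (Finset.mem_erase.1 (Finset.mem_erase.1 hy).2).2)
    rw [Finset.card_erase_of_mem (hcY' x hx), Finset.card_erase_of_mem hdY] at h3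
    have h4 := DFCM.card_YY hM ε
    have h5 : 2 ≤ (DFCM.YY M ε).card := by
      have : 0 < ((DFCM.YY M ε).erase d.1).card := Finset.card_pos.2 ⟨_, hcY' x hx⟩
      rw [Finset.card_erase_of_mem hdY] at this
      omega
    omega

end Pool.Agent.Lib.MP3ff0f8.T
end

section
/-!
# MP_3ff0f8_gt, topological half: module CON (contraction of an edge)
-/
set_option linter.unusedSectionVars false

namespace Pool.Agent.Lib.MP3ff0f8.T.CONM

open Pool.Agent.Lib.MP3ff0f8.T DFCM

variable {V E : Type} [DecidableEq V] [DecidableEq E]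

lemma mem_del {e : E} {c : List (Dart E)} {x : Dart E} : x ∈ del e c ↔ x ∈ c ∧ x.1 ≠ e := by
  simp [del]

lemma mem_del_map {e f : E} {c : List (Dart E)} (h : f ≠ e) :
    f ∈ (del e c).map Prod.fst ↔ f ∈ c.map Prod.fst := by
  simp only [List.mem_map, mem_del]
  constructor
  · rintro ⟨x, ⟨hx, _⟩, h2⟩
    exact ⟨x, hx, h2⟩
  · rintro ⟨x, hx, h2⟩
    exact ⟨x, ⟨hx, h2 ▸ h⟩, h2⟩

/-- a cycle through an end of `d` still passes the merged vertex after the contraction -/
lemma exists_del {G : Gr V E} {d : Dart E} (hne : G.vt d ≠ G.vt (rv d)) {c : List (Dart E)}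
    (hc : IsCyc G c) {x : Dart E} (hx : x ∈ c) :
    ∃ y ∈ del d.1 c, (G.con d).vt y = (G.con d).vt x := by
  by_cases h : x.1 = d.1
  · have h1 : G.vt (rv x) ∈ c.map G.vt := TREM.end_mem hc hx
    obtain ⟨y, hy, hy2⟩ := List.mem_map.1 h1
    refine ⟨y, mem_del.2 ⟨hy, ?_⟩, ?_⟩
    · intro e
      have h2 : y = x := TREM.eq_of_fst hc hy hx (e.trans h.symm)
      rw [h2] at hy2
      rcases eq_or h with rfl | rfl
      · exact hne hy2
      · rw [TREM.rv_rv] at hy2
        exact hne hy2.symm
    · rw [con_vt, con_vt, hy2, mg_of_fst G h, mg_of_fst G (x := rv x) h]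
  · exact ⟨x, mem_del.2 ⟨hx, h⟩, rfl⟩

lemma dj_con {G : Gr V E} {d : Dart E} (hne : G.vt d ≠ G.vt (rv d)) {c c' : List (Dart E)}
    (hc : IsCyc G c) (hc' : IsCyc G c') (h : Dj (G.con d) (del d.1 c) (del d.1 c')) :
    Dj G c c' := by
  intro x hx y hy hxy
  obtain ⟨x', hx', ex⟩ := exists_del hne hc hx
  obtain ⟨y', hy', ey⟩ := exists_del hne hc' hy
  refine h x' hx' y' hy' ?_
  rw [ex, ey, con_vt, con_vt, hxy]

/-- a strand of an edge of a cycle is at a vertex of the cycle -/
lemma vert {G : Gr V E} {c : List (Dart E)} (hc : IsCyc G c) {s : Dart E}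
    (hs : s.1 ∈ c.map Prod.fst) : ∃ x ∈ c, G.vt x = G.vt s := by
  obtain ⟨y, hy, hy2⟩ := List.mem_map.1 hs
  rcases eq_or (x := s) (d := y) hy2.symm with rfl | rfl
  · exact ⟨s, hy, rfl⟩
  · exact List.mem_map.1 (TREM.end_mem hc hy)

lemma map_cv_cons (d : Dart E) (c : List (Dart E)) :
    (cv (d :: c)).map Prod.fst = d :: rv d :: (cv c).map Prod.fst := by
  simp [cv]

section ix

variable {S : Type} [DecidableEq S]

lemma idxOf2 (x y p : S) (l : List S) (h1 : x ≠ p) (h2 : y ≠ p) :
    (x :: y :: l).idxOf p = l.idxOf p + 2 := by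
  rw [List.idxOf_cons_ne _ h1, List.idxOf_cons_ne _ h2]

lemma idxOf0 (x : S) (l : List S) : (x :: l).idxOf x = 0 := List.idxOf_cons_self

lemma idxOf1 (x y : S) (l : List S) (h1 : x ≠ y) : (x :: y :: l).idxOf y = 1 := by
  rw [List.idxOf_cons_ne _ h1, List.idxOf_cons_self]

end ix

lemma idx_cons (d : Dart E) (c : List (Dart E)) {p : Dart E} (hp : p.1 ≠ d.1) :
    idx (cv (d :: c)) p = idx (cv c) p + 2 := by
  unfold idx
  rw [map_cv_cons]
  apply idxOf2
  · intro h
    exact hp (by rw [← h])
  · intro h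
    exact hp (by rw [← h]; rfl)

lemma idx_d (d : Dart E) (c : List (Dart E)) : idx (cv (d :: c)) d = 0 := by
  unfold idx
  rw [map_cv_cons]
  apply idxOf0

lemma idx_rvd (d : Dart E) (c : List (Dart E)) : idx (cv (d :: c)) (rv d) = 1 := by
  unfold idx
  rw [map_cv_cons]
  exact idxOf1 _ _ _ (CYCM.rv_ne d).symm

lemma mem_cons (d : Dart E) (c : List (Dart E)) {p : Dart E} (hp : p.1 ≠ d.1) (b : Bool) :
    (p, b) ∈ cv (d :: c) ↔ (p, b) ∈ cv c := by
  have h1 : p ≠ d := fun h => hp (by rw [h])
  have h2 : p ≠ rv d := fun h => hp (by rw [h]; rfl)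
  have h3 : cv (d :: c) = (d, true) :: (rv d, false) :: cv c := by simp [cv]
  rw [h3]
  simp [h1, h2]

lemma on_cons (d : Dart E) (c : List (Dart E)) {p : Dart E} (hp : p.1 ≠ d.1) :
    on (cv (d :: c)) p ↔ on (cv c) p := by
  unfold on
  rw [map_cv_cons]
  have h1 : p ≠ d := fun h => hp (by rw [h])
  have h2 : p ≠ rv d := fun h => hp (by rw [h]; rfl)
  simp [h1, h2]

/-- events away from the edge of `d` -/
lemma bet_cons (d : Dart E) (c : List (Dart E)) {z w : Dart E × Dart E} (h1 : z.1.1 ≠ d.1)
    (h2 : z.2.1 ≠ d.1) (h3 : w.1.1 ≠ d.1) (h4 : w.2.1 ≠ d.1) :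
    bet (cv (d :: c)) z w = bet (cv c) z w := by
  unfold bet l01 l10
  simp only [on_cons d c h1, on_cons d c h2, on_cons d c h3, on_cons d c h4,
    idx_cons d c h1, idx_cons d c h2, idx_cons d c h3, idx_cons d c h4,
    mem_cons d c h1, mem_cons d c h2, mem_cons d c h3, mem_cons d c h4, Nat.add_lt_add_iff_right]
  congr

/-- events under the edge of `d`, when the curve starts with `d` -/
lemma bet_under (d : Dart E) (c : List (Dart E))
    {z w : Dart E × Dart E} (h1 : z.1.1 ≠ d.1)
    (h2 : z.2 = d ∨ z.2 = rv d) (h3 : w.1.1 ≠ d.1) :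
    bet (cv (d :: c)) z w = 0 := by
  have e1 := idx_cons d c h1
  have e3 := idx_cons d c h3
  have e2 : idx (cv (d :: c)) z.2 ≤ 1 := by
    rcases h2 with h2 | h2 <;> rw [h2]
    · rw [idx_d]; exact Nat.zero_le _
    · rw [idx_rvd]
  have n1 : w.1 ≠ z.2 := by
    intro h
    apply h3
    rw [h]
    rcases h2 with h2 | h2 <;> rw [h2]
    rfl
  have k2 : ¬ l10 (cv (d :: c)) w.1 z.2 := by
    rintro (h | ⟨h, _⟩)
    · omega
    · exact n1 h
  have k1 : ¬ (l01 (cv (d :: c)) z.1 w.2 ∧ l10 (cv (d :: c)) w.2 z.2) := by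
    rintro ⟨ha, hb⟩
    have hi : idx (cv (d :: c)) w.2 ≤ 1 := by
      rcases hb with hb | ⟨hb, _⟩
      · omega
      · rw [hb]; exact e2
    rcases ha with ha | ⟨ha, _⟩
    · omega
    · rw [← ha] at hi
      omega
  unfold bet
  rw [if_neg (show ¬ (l01 (cv (d :: c)) z.1 w.2 ∧ l10 (cv (d :: c)) w.2 z.2 ∧
      l01 (cv (d :: c)) z.2 w.1) from fun h => k1 ⟨h.1, h.2.1⟩),
    if_neg (show ¬ (l10 (cv (d :: c)) w.1 z.2 ∧ l01 (cv (d :: c)) z.2 w.2 ∧
      l10 (cv (d :: c)) w.2 z.1) from fun h => k2 h.1)]
  simp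

/-- the edge sets of `del` -/
lemma del_same {e : E} {c c' : List (Dart E)}
    (h : ∀ f, f ∈ c.map Prod.fst ↔ f ∈ c'.map Prod.fst) (f : E) :
    f ∈ (del e c).map Prod.fst ↔ f ∈ (del e c').map Prod.fst := by
  by_cases hf : f = e
  · subst hf
    simp only [List.mem_map, mem_del]
    constructor <;> rintro ⟨x, ⟨_, h1⟩, h2⟩ <;> exact absurd h2 h1
  · rw [mem_del_map hf, mem_del_map hf, h]

/-- a cycle through the edge of `d` can be made to start with `d` -/
lemma exists_start (hCYC : SpecCYC) {G : Gr V E} {c : List (Dart E)} (hc : IsCyc G c) {d : Dart E}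
    (h : d.1 ∈ c.map Prod.fst) : ∃ c₁, IsCyc G (d :: c₁) ∧
      ∀ e, e ∈ c.map Prod.fst ↔ e ∈ (d :: c₁).map Prod.fst := by
  obtain ⟨x, hx, hx2⟩ := List.mem_map.1 h
  rcases eq_or hx2 with rfl | rfl
  · obtain ⟨k, t, hk⟩ := CYCM.exists_rot hx
    refine ⟨t, ?_, ?_⟩
    · rw [← hk]; exact hCYC.rot k hc
    · intro e
      rw [← hk, CYCM.mem_map_rotate]
  · have hd : d ∈ rvc c := by
      unfold rvc
      rw [List.mem_reverse, List.mem_map]
      exact ⟨rv d, hx, TREM.rv_rv d⟩
    obtain ⟨k, t, hk⟩ := CYCM.exists_rot hd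
    refine ⟨t, ?_, ?_⟩
    · rw [← hk]; exact hCYC.rot k (hCYC.rev hc)
    · intro e
      rw [← hk, CYCM.mem_map_rotate, CYCM.mem_map_rvc]

end Pool.Agent.Lib.MP3ff0f8.T.CONM

namespace Pool.Agent.Lib.MP3ff0f8.T

open CONM DFCM in
theorem specCON (hNRM : SpecNRM) (hPSU : SpecPSU) (hRUN : SpecRUN) (hBLK : SpecBLK)
    (hCYC : SpecCYC) (hBAS : SpecBAS) : SpecCON := by
  intro V E _ _ G bot top W hD d hd hne
  obtain ⟨P, Q, R, R', U, W₃, hP, hQ, hR, hU, -, hrun, hD', ⟨F, hF, hFv⟩, hlk⟩ :=
    hNRM hD d hd hne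
  have hnd := hD'.dia.nd
  have hsub : (P ++ Q ++ R).Sublist (P ++ d :: rv d :: (Q ++ R)) := by
    rw [List.append_assoc]
    exact List.Sublist.append (List.Sublist.refl _) ((List.sublist_cons_self _ _).trans
      (List.sublist_cons_self _ _))
  have hPQR : ∀ x ∈ P ++ Q ++ R, x.1 ≠ d.1 := by
    intro x hx e
    have hp : (P ++ d :: rv d :: (Q ++ R)).Perm (d :: rv d :: (P ++ Q ++ R)) := by
      rw [List.append_assoc]
      refine List.perm_middle.trans (List.Perm.cons _ ?_)
      exact List.perm_middle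
    have h1 := hp.nodup_iff.1 hnd
    rw [List.nodup_cons, List.nodup_cons] at h1
    rcases eq_or e with rfl | rfl
    · exact h1.1 (List.mem_cons_of_mem _ hx)
    · exact h1.2.1 hx
  have hDc : IsDia (G.con d) (P ++ Q ++ R) W₃ R' := by
    refine ⟨?_, ⟨hnd.sublist hsub, ?_, ?_, hrun⟩⟩
    · intro x
      have h1 := hD'.mb x
      rw [show (G.con d).X = G.X.erase d.1 from rfl, Finset.mem_erase]
      constructor
      · intro hx
        exact ⟨hPQR x hx, h1.1 (hsub.subset hx)⟩
      · rintro ⟨h2, h3⟩
        have h4 := h1.2 h3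
        have n1 : x ≠ d := fun h => h2 (by rw [h])
        have n2 : x ≠ rv d := fun h => h2 (by rw [h]; rfl)
        simp only [List.mem_append, List.mem_cons, n1, n2, false_or] at h4 ⊢
        tauto
    · have hPQ : ∀ x ∈ P ++ Q, (G.con d).vt x = G.vt d := by
        intro x hx
        rw [con_vt]
        rcases List.mem_append.1 hx with hx | hx
        · rw [hP x hx]; exact mg_start G d
        · rw [hQ x hx]; exact mg_end G d
      have hR2 : ∀ x ∈ R, (G.con d).vt x = G.vt x := by
        intro x hx
        rw [con_vt]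
        unfold mg
        rw [if_neg (hR x hx).2]
      refine hBLK.app _ _ _ (hBLK.one _ _ _ hPQ) ?_ ?_
      · refine hBLK.cgr G.vt (G.con d).vt R ?_ ?_
        · refine hBLK.sub G.vt _ R ?_ hD'.dia.bb
          exact ((List.sublist_append_right Q R).trans ((List.sublist_cons_self _ _).trans
            (List.sublist_cons_self _ _))).trans (List.sublist_append_right _ _)
        · intro x hx y hy
          rw [hR2 x hx, hR2 y hy]
      · intro x hx y hy
        rw [hPQ x hx, hR2 y hy]
        exact (hR y hy).1.symm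
    · refine hBLK.sub Prod.fst _ R' ?_ hD'.dia.tt
      exact (List.sublist_cons_self _ _).trans (List.sublist_cons_self _ _)
  have hW3 : ∀ z ∈ W₃, z.1.1 ≠ d.1 ∧ z.2.1 ≠ d.1 := by
    intro z hz
    have h1 := hRUN.mem hDc.dia.nd hrun z hz
    exact ⟨hPQR _ h1.1, hPQR _ h1.2.1⟩
  have hU1 : ∀ z ∈ U, z.1.1 ≠ d.1 := by
    intro z hz
    exact hPQR _ (List.mem_append_left _ (List.mem_append_left _ (hU z hz).1))
  have hUe : ∀ z ∈ U, z.2.1 = d.1 := by
    intro z hz
    rcases (hU z hz).2 with h | h <;> rw [h]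
    rfl
  have hUW1 : ∀ w ∈ U ++ W₃, w.1.1 ≠ d.1 := by
    intro w hw
    rcases List.mem_append.1 hw with hw | hw
    · exact hU1 w hw
    · exact (hW3 w hw).1
  refine ⟨P ++ Q ++ R, W₃, R', hDc, ⟨F, hF, ?_⟩, ?_⟩
  · intro c hc hc'
    rw [← hFv c hc]
    by_cases h : d.1 ∈ c.map Prod.fst
    · obtain ⟨c₁, hc₁, he⟩ := exists_start hCYC hc h
      have hdel : del d.1 (d :: c₁) = c₁ := del_cons hc₁.nde
      have hc₁' : IsCyc (G.con d) c₁ := cyc_cons hc₁ rfl hne
      have e1 : AW (cv (d :: c₁)) (U ++ W₃) = AW (cv c) (U ++ W₃) := hBAS.same hD' hc hc₁ he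
      have e2 : AW (cv c₁) W₃ = AW (cv (del d.1 c)) W₃ := by
        refine hBAS.same hDc hc' hc₁' ?_
        intro f
        have := del_same (e := d.1) he f
        rw [hdel] at this
        exact this
      rw [← e1, ← e2]
      have e3 : AW (cv (d :: c₁)) (U ++ W₃) = AW (cv (d :: c₁)) W₃ := by
        unfold AW
        refine hPSU.pre _ _ _ ?_
        intro z hz w hw
        exact bet_under d c₁ (hU1 z hz) (hU z hz).2 (hUW1 w hw)
      rw [e3]
      unfold AW
      refine (hPSU.cgr _ _ _ ?_).symm
      intro z hz w hw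
      exact bet_cons d c₁ (hW3 z hz).1 (hW3 z hz).2 (hW3 w hw).1 (hW3 w hw).2
    · rw [del_eq _ h]
      unfold AW
      refine (hPSU.pre _ _ _ ?_).symm
      intro z hz w _
      unfold bet
      rw [if_neg]
      rintro ⟨_, h2, _⟩
      rw [hCYC.on, hUe z hz] at h2
      exact h h2
  · intro c₁ c₂ hc₁ hc₂ _ _ hdj
    have hDj : Dj G c₁ c₂ := dj_con hne hc₁ hc₂ hdj
    rw [← hlk c₁ c₂ hc₁ hc₂ hDj]
    unfold lk
    rw [List.countP_append]
    have h0 : U.countP (fun z => decide (z.1.1 ∈ c₁.map Prod.fst ∧ z.2.1 ∈ c₂.map Prod.fst)) = 0 := by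
      rw [List.countP_eq_zero]
      intro z hz
      rw [decide_eq_true_eq]
      rintro ⟨ha, hb⟩
      obtain ⟨x, hx, ex⟩ := vert hc₁ ha
      rw [hUe z hz] at hb
      obtain ⟨y, hy, ey⟩ := vert hc₂ hb
      refine hDj x hx y hy ?_
      rw [ex, ey]
      exact hP _ (hU z hz).1
    rw [h0, zero_add]
    congr 1
    apply List.countP_congr
    intro z hz
    rw [decide_eq_true_eq, decide_eq_true_eq, mem_del_map (hW3 z hz).1, mem_del_map (hW3 z hz).2]

end Pool.Agent.Lib.MP3ff0f8.T
end

section
/-!
# MP_3ff0f8_gt, topological half: module LIF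
-/
set_option autoImplicit false
set_option linter.unusedSectionVars false

namespace Pool.Agent.Lib.MP3ff0f8.T.LIFM

open Pool.Agent.Lib.MP3ff0f8.T DFCM

variable {V E : Type} [DecidableEq V] [DecidableEq E]

/-- away from the merged vertex nothing changes -/
theorem vt_of_ne {G : Gr V E} {d x : Dart E} (h : (G.con d).vt x ≠ G.vt d) :
    (G.con d).vt x = G.vt x := by
  rw [con_vt] at h ⊢
  unfold mg at h ⊢
  split_ifs at h ⊢ with a
  · exact absurd rfl h
  · rfl

theorem vt_of_eq {G : Gr V E} {d x : Dart E} (h : (G.con d).vt x = G.vt d) :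
    G.vt x = G.vt d ∨ G.vt x = G.vt (rv d) := by
  rw [con_vt] at h
  unfold mg at h
  split_ifs at h with a
  · exact Or.inr a
  · exact Or.inl h

theorem mem_of_con {G : Gr V E} {d : Dart E} {c : List (Dart E)} (h : IsCyc (G.con d) c) :
    ∀ x ∈ c, x.1 ≠ d.1 ∧ x.1 ∈ G.X := fun x hx => Finset.mem_erase.1 (h.mem x hx)

theorem del_con {G : Gr V E} {d : Dart E} {c : List (Dart E)} (h : IsCyc (G.con d) c) :
    del d.1 c = c := by
  refine del_eq _ ?_
  intro h1
  obtain ⟨x, hx, e⟩ := List.mem_map.1 h1
  exact (mem_of_con h x hx).1 e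

/-- the lift of a cycle which does not pass the merged vertex -/
theorem lift_away {G : Gr V E} {d : Dart E} {c : List (Dart E)} (h : IsCyc (G.con d) c)
    (h1 : G.vt d ∉ c.map (G.con d).vt) : IsCyc G c := by
  have h2 : c.map (G.con d).vt = c.map G.vt := by
    refine List.map_congr_left fun x hx => vt_of_ne ?_
    intro e
    exact h1 (e ▸ List.mem_map_of_mem hx)
  have h3 : c.map (fun x => (G.con d).vt (rv x)) = c.map fun x => G.vt (rv x) := by
    refine List.map_congr_left fun x hx => vt_of_ne ?_
    intro e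
    exact h1 (e ▸ TREM.end_mem h hx)
  refine ⟨h.ne, fun x hx => (mem_of_con h x hx).2, h.nde, ?_, ?_⟩
  · rw [← h2]
    exact h.ndv
  · rw [← h3, h.cl, h2]

/-- the lift of a cycle which starts at the merged vertex -/
theorem lift_cons {G : Gr V E} {d x : Dart E} {R : List (Dart E)} (hd : d.1 ∈ G.X)
    (hne : G.vt d ≠ G.vt (rv d)) (h : IsCyc (G.con d) (x :: R)) (hx : (G.con d).vt x = G.vt d) :
    ∃ c, IsCyc G c ∧ del d.1 c = x :: R := by
  have hndv := h.ndv
  rw [List.map_cons, List.nodup_cons] at hndv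
  have hR : ∀ y ∈ R, (G.con d).vt y = G.vt y ∧ G.vt y ≠ G.vt d ∧ G.vt y ≠ G.vt (rv d) := by
    intro y hy
    have h1 : (G.con d).vt y ≠ G.vt d := by
      intro e
      exact hndv.1 (by rw [hx, ← e]; exact List.mem_map_of_mem hy)
    have h2 := vt_of_ne h1
    refine ⟨h2, h2 ▸ h1, ?_⟩
    intro e
    rw [con_vt, e, mg_end] at h1
    exact h1 rfl
  -- last dart
  obtain ⟨I, z, hIz⟩ : ∃ I z, x :: R = I ++ [z] :=
    ⟨(x :: R).dropLast, (x :: R).getLast (by simp), (List.dropLast_append_getLast (by simp)).symm⟩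
  have hcl := h.cl
  have hmemL := mem_of_con h
  have hnde := h.nde
  rw [List.map_cons (f := (G.con d).vt), List.rotate_cons_succ, List.rotate_zero, hIz,
    List.map_append, List.map_cons, List.map_nil, hx] at hcl
  obtain ⟨hI, hz⟩ := List.append_inj' hcl rfl
  rw [List.cons.injEq] at hz
  have hz := hz.1
  have hI2 : I.map (fun y => G.vt (rv y)) = R.map G.vt := by
    have h1 : I.map (fun y => (G.con d).vt (rv y)) = I.map fun y => G.vt (rv y) := by
      refine List.map_congr_left fun y hy => vt_of_ne ?_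
      intro e
      have h2 : (G.con d).vt (rv y) ∈ R.map (G.con d).vt := by
        rw [← hI]
        exact List.mem_map_of_mem (f := fun y => (G.con d).vt (rv y)) hy
      obtain ⟨w, hw, hw2⟩ := List.mem_map.1 h2
      rw [← hw2, (hR w hw).1] at e
      exact (hR w hw).2.1 e
    rw [← h1, hI]
    exact List.map_congr_left fun y hy => (hR y hy).1
  have hx2 := vt_of_eq hx
  have hz2 := vt_of_eq hz
  have hdx : ∀ y ∈ x :: R, y.1 ≠ d.1 := fun y hy => (hmemL y hy).1
  have hRndv : (R.map G.vt).Nodup := by
    have h1 : R.map (G.con d).vt = R.map G.vt := List.map_congr_left fun y hy => (hR y hy).1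
    rw [← h1]
    exact hndv.2
  have hxR : G.vt x ∉ R.map G.vt := by
    intro e
    obtain ⟨y, hy, hy2⟩ := List.mem_map.1 e
    rcases hx2 with h1 | h1
    · exact (hR y hy).2.1 (hy2.trans h1)
    · exact (hR y hy).2.2 (hy2.trans h1)
  have hcase : G.vt (rv z) = G.vt x ∨
      ∃ w : Dart E, w.1 = d.1 ∧ G.vt w = G.vt (rv z) ∧ G.vt (rv w) = G.vt x ∧
        (G.vt w = G.vt d ∨ G.vt w = G.vt (rv d)) ∧ G.vt w ≠ G.vt x := by
    rcases hx2 with h1 | h1 <;> rcases hz2 with h2 | h2
    · exact Or.inl (h2.trans h1.symm)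
    · exact Or.inr ⟨rv d, rfl, h2.symm, by rw [TREM.rv_rv]; exact h1.symm, Or.inr rfl,
        fun e => hne (h1.symm.trans e.symm)⟩
    · exact Or.inr ⟨d, rfl, h2.symm, h1.symm, Or.inl rfl, fun e => hne (e.trans h1)⟩
    · exact Or.inl (h2.trans h1.symm)
  rcases hcase with hc | ⟨w, hw1, hw2, hw3, hw4, hw5⟩
  · refine ⟨x :: R, ⟨by simp, fun y hy => (hmemL y hy).2, hnde, ?_, ?_⟩, del_con h⟩
    · rw [List.map_cons, List.nodup_cons]
      exact ⟨hxR, hRndv⟩
    · rw [List.map_cons (f := G.vt), List.rotate_cons_succ, List.rotate_zero, hIz, List.map_append,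
        List.map_cons, List.map_nil, hI2, hc]
  · have hwn : w.1 ∉ (x :: R).map Prod.fst := by
      intro e
      obtain ⟨y, hy, hy2⟩ := List.mem_map.1 e
      exact hdx y hy (hy2.trans hw1)
    refine ⟨(x :: R) ++ [w], ⟨by simp, ?_, ?_, ?_, ?_⟩, ?_⟩
    · intro y hy
      rcases List.mem_append.1 hy with hy | hy
      · exact (hmemL y hy).2
      · rw [List.mem_singleton] at hy
        rw [hy, hw1]
        exact hd
    · rw [List.map_append, List.map_cons (l := []), List.map_nil]
      refine List.Nodup.append hnde (List.nodup_singleton _) ?_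
      intro y hy hy2
      rw [List.mem_singleton] at hy2
      exact hwn (hy2 ▸ hy)
    · rw [List.map_append, List.map_cons (l := []), List.map_nil]
      refine List.Nodup.append ?_ (List.nodup_singleton _) ?_
      · rw [List.map_cons, List.nodup_cons]
        exact ⟨hxR, hRndv⟩
      · intro y hy hy2
        rw [List.mem_singleton] at hy2
        rw [hy2, List.map_cons, List.mem_cons] at hy
        rcases hy with hy | hy
        · exact hw5 hy
        · obtain ⟨u, hu, hu2⟩ := List.mem_map.1 hy
          rcases hw4 with h1 | h1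
          · exact (hR u hu).2.1 (hu2.trans h1)
          · exact (hR u hu).2.2 (hu2.trans h1)
    · have h1 : ((x :: R) ++ [w]).map G.vt = G.vt x :: (R.map G.vt ++ [G.vt w]) := by
        simp
      rw [h1, List.rotate_cons_succ, List.rotate_zero, hIz, List.map_append, List.map_append,
        hI2]
      simp only [List.map_cons, List.map_nil]
      rw [hw2, hw3]
    · have h2 : del d.1 [w] = [] := by
        unfold del
        simp [hw1]
      have h3 : del d.1 (x :: R ++ [w]) = del d.1 (x :: R) ++ del d.1 [w] := by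
        unfold del
        rw [List.filter_append]
      rw [h3, h2, List.append_nil]
      exact del_con h

end Pool.Agent.Lib.MP3ff0f8.T.LIFM

namespace Pool.Agent.Lib.MP3ff0f8.T

theorem specLIF (hCYC : SpecCYC) : SpecLIF := by
  intro V E _ _ G d hd hne c' h
  by_cases h1 : G.vt d ∈ c'.map (G.con d).vt
  · obtain ⟨x, hx, hx2⟩ := List.mem_map.1 h1
    obtain ⟨A, B, rfl⟩ := List.append_of_mem hx
    have h2 : (A ++ x :: B).IsRotated (x :: B ++ A) := List.isRotated_append
    obtain ⟨k, hk⟩ := h2
    have h3 := hCYC.rot k h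
    rw [hk, List.cons_append] at h3
    obtain ⟨c, hc, hc2⟩ := LIFM.lift_cons hd hne h3 hx2
    refine ⟨c, hc, ?_⟩
    rw [hc2, ← List.cons_append]
    exact List.isRotated_append
  · refine ⟨c', LIFM.lift_away h h1, ?_⟩
    rw [LIFM.del_con h]

end Pool.Agent.Lib.MP3ff0f8.T
end

section
/-!
# MP_3ff0f8_gt, topological half: module DDC
-/
set_option autoImplicit false
set_option linter.unusedSectionVars false

namespace Pool.Agent.Lib.MP3ff0f8.T.DDCM

open Pool.Agent.Lib.MP3ff0f8.T DFCM

variable {V E : Type} [DecidableEq V] [DecidableEq E]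

/-- the linking number only depends on the edge sets -/
theorem lk_congr (W : List (Dart E × Dart E)) {c c' a a' : List (Dart E)}
    (h : ∀ x, x ∈ c ↔ x ∈ a) (h' : ∀ x, x ∈ c' ↔ x ∈ a') : lk W c c' = lk W a a' := by
  unfold lk
  congr 2
  funext z
  have h1 : ∀ e, e ∈ c.map Prod.fst ↔ e ∈ a.map Prod.fst := by
    intro e
    simp only [List.mem_map, h]
  have h2 : ∀ e, e ∈ c'.map Prod.fst ↔ e ∈ a'.map Prod.fst := by
    intro e
    simp only [List.mem_map, h']
  simp only [h1, h2]

/-- the lifted `D₄` minor -/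
def lft (G : Gr V E) (d : Dart E) (M : D4M V E) : D4M V E where
  B := fun i => if G.vt d ∈ M.B i then insert (G.vt (rv d)) (M.B i) else M.B i
  T := fun i => if G.vt d ∈ M.B i then insert d.1 (M.T i) else M.T i
  bd := M.bd

variable {G : Gr V E} {d : Dart E} {M : D4M V E}

theorem con_ne (hne : G.vt d ≠ G.vt (rv d)) (x : Dart E) : (G.con d).vt x ≠ G.vt (rv d) := by
  rw [con_vt]
  unfold mg
  split_ifs with h
  · exact hne
  · exact h

theorem not_mem_B (hne : G.vt d ≠ G.vt (rv d)) (hM : IsD4 (G.con d) M) (i : Fin 4) :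
    G.vt (rv d) ∉ M.B i := by
  intro h
  have h1 : ({G.vt (rv d)} : Finset V) ≠ M.B i := by
    intro e
    have h2 := hM.bS i true
    rw [← e, Finset.mem_singleton] at h2
    exact con_ne hne _ h2
  obtain ⟨x, _, h3, _⟩ := hM.conn i {G.vt (rv d)} (Finset.singleton_subset_iff.2 h)
    (Finset.singleton_nonempty _) h1
  rw [Finset.mem_singleton] at h3
  exact con_ne hne _ h3

theorem B_sub (i : Fin 4) : M.B i ⊆ (lft G d M).B i := by
  intro v hv
  show v ∈ if G.vt d ∈ M.B i then insert (G.vt (rv d)) (M.B i) else M.B i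
  split_ifs
  · exact Finset.mem_insert_of_mem hv
  · exact hv

theorem T_sub (i : Fin 4) : M.T i ⊆ (lft G d M).T i := by
  intro v hv
  show v ∈ if G.vt d ∈ M.B i then insert d.1 (M.T i) else M.T i
  split_ifs
  · exact Finset.mem_insert_of_mem hv
  · exact hv

theorem mem_T {i : Fin 4} {e : E} (h : e ∈ (lft G d M).T i) :
    e ∈ M.T i ∨ (e = d.1 ∧ G.vt d ∈ M.B i) := by
  have h1 : e ∈ if G.vt d ∈ M.B i then insert d.1 (M.T i) else M.T i := h
  split_ifs at h1 with h2
  · rcases Finset.mem_insert.1 h1 with h3 | h3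
    · exact Or.inr ⟨h3, h2⟩
    · exact Or.inl h3
  · exact Or.inl h1

theorem mem_B {i : Fin 4} {v : V} (h : v ∈ (lft G d M).B i) :
    v ∈ M.B i ∨ (v = G.vt (rv d) ∧ G.vt d ∈ M.B i) := by
  have h1 : v ∈ if G.vt d ∈ M.B i then insert (G.vt (rv d)) (M.B i) else M.B i := h
  split_ifs at h1 with h2
  · rcases Finset.mem_insert.1 h1 with h3 | h3
    · exact Or.inr ⟨h3, h2⟩
    · exact Or.inl h3
  · exact Or.inl h1

theorem end_mem_B {i : Fin 4} (h : G.vt d ∈ M.B i) : G.vt (rv d) ∈ (lft G d M).B i := by
  show _ ∈ if G.vt d ∈ M.B i then insert (G.vt (rv d)) (M.B i) else M.B i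
  rw [if_pos h]
  exact Finset.mem_insert_self _ _

theorem d_mem_T {i : Fin 4} (h : G.vt d ∈ M.B i) : d.1 ∈ (lft G d M).T i := by
  show _ ∈ if G.vt d ∈ M.B i then insert d.1 (M.T i) else M.T i
  rw [if_pos h]
  exact Finset.mem_insert_self _ _

/-- a dart at `B i` in the contraction is at the lifted `B i` in `G` -/
theorem vt_mem {i : Fin 4} {x : Dart E} (h : (G.con d).vt x ∈ M.B i) :
    G.vt x ∈ (lft G d M).B i := by
  by_cases h1 : (G.con d).vt x = G.vt d
  · rcases LIFM.vt_of_eq h1 with h2 | h2
    · rw [h2, ← h1]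
      exact B_sub i h
    · rw [h2]
      exact end_mem_B (h1 ▸ h)
  · rw [← LIFM.vt_of_ne h1]
    exact B_sub i h

theorem isD4_lft (hd : d.1 ∈ G.X) (hne : G.vt d ≠ G.vt (rv d)) (hM : IsD4 (G.con d) M) :
    IsD4 G (lft G d M) where
  disj := by
    intro i j hij
    rw [Finset.disjoint_left]
    intro v hv hv'
    rcases mem_B hv with h1 | ⟨h1, h2⟩ <;> rcases mem_B hv' with h3 | ⟨h3, h4⟩
    · exact Finset.disjoint_left.1 (hM.disj i j hij) h1 h3
    · exact not_mem_B hne hM i (h3 ▸ h1)
    · exact not_mem_B hne hM j (h1 ▸ h3)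
    · exact Finset.disjoint_left.1 (hM.disj i j hij) h2 h4
  sub := by
    intro i e he
    rcases mem_T he with h1 | ⟨h1, _⟩
    · exact Finset.mem_of_mem_erase (hM.sub i h1)
    · rw [h1]
      exact hd
  ends := by
    intro i x hx
    rcases mem_T hx with h1 | ⟨h1, h2⟩
    · exact vt_mem (hM.ends i x h1)
    · rcases eq_or h1 with rfl | rfl
      · exact B_sub i h2
      · exact end_mem_B h2
  conn := by
    intro i S hS hSne hSB
    -- reduction to a subset `S'` of `M.B i`
    have key : ∀ S' ⊆ M.B i, S'.Nonempty → S' ≠ M.B i →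
        (∀ x : Dart E, (G.con d).vt x ∈ S' → G.vt x ∈ S) →
        (∀ x : Dart E, (G.con d).vt x ∈ M.B i → (G.con d).vt x ∉ S' → G.vt x ∉ S) →
        ∃ x : Dart E, x.1 ∈ (lft G d M).T i ∧ G.vt x ∈ S ∧ G.vt (rv x) ∈ (lft G d M).B i ∧
          G.vt (rv x) ∉ S := by
      intro S' h1 h2 h3 h4 h5
      obtain ⟨x, a1, a2, a3, a4⟩ := hM.conn i S' h1 h2 h3
      exact ⟨x, T_sub i a1, h4 x a2, vt_mem a3, h5 _ a3 a4⟩
    have hp' := not_mem_B hne hM i
    by_cases hp : G.vt d ∈ M.B i
    · by_cases h1 : G.vt d ∈ S <;> by_cases h2 : G.vt (rv d) ∈ S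
      · refine key (S.erase (G.vt (rv d))) ?_ ⟨G.vt d, Finset.mem_erase.2 ⟨hne, h1⟩⟩ ?_ ?_ ?_
        · intro v hv
          rw [Finset.mem_erase] at hv
          rcases mem_B (hS hv.2) with h3 | ⟨h3, _⟩
          · exact h3
          · exact absurd h3 hv.1
        · intro e
          apply hSB
          refine Finset.Subset.antisymm hS ?_
          intro v hv
          rcases mem_B hv with h3 | ⟨h3, _⟩
          · rw [← e] at h3
            exact Finset.mem_of_mem_erase h3
          · rw [h3]
            exact h2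
        · intro x hx
          by_cases h3 : (G.con d).vt x = G.vt d
          · rcases LIFM.vt_of_eq h3 with h4 | h4
            · rw [h4]
              exact h1
            · rw [h4]
              exact h2
          · rw [← LIFM.vt_of_ne h3]
            exact Finset.mem_of_mem_erase hx
        · intro x hx hx'
          have h3 : (G.con d).vt x ≠ G.vt d := by
            intro e
            rw [e] at hx'
            exact hx' (Finset.mem_erase.2 ⟨hne, h1⟩)
          rw [← LIFM.vt_of_ne h3]
          intro h4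
          exact hx' (Finset.mem_erase.2 ⟨con_ne hne x, h4⟩)
      · exact ⟨d, d_mem_T hp, h1, end_mem_B hp, h2⟩
      · refine ⟨rv d, d_mem_T hp, h2, ?_, ?_⟩
        · rw [TREM.rv_rv]
          exact B_sub i hp
        · rw [TREM.rv_rv]
          exact h1
      · refine key S ?_ hSne ?_ ?_ ?_
        · intro v hv
          rcases mem_B (hS hv) with h3 | ⟨h3, _⟩
          · exact h3
          · exact absurd (h3 ▸ hv) h2
        · intro e
          exact h1 (e ▸ hp)
        · intro x hx
          have h3 : (G.con d).vt x ≠ G.vt d := by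
            intro e
            exact h1 (e ▸ hx)
          rw [← LIFM.vt_of_ne h3]
          exact hx
        · intro x _ hx'
          by_cases h3 : (G.con d).vt x = G.vt d
          · rcases LIFM.vt_of_eq h3 with h4 | h4
            · rw [h4]
              exact h1
            · rw [h4]
              exact h2
          · rw [← LIFM.vt_of_ne h3]
            exact hx'
    · have hBi : (lft G d M).B i = M.B i := by
        show (if G.vt d ∈ M.B i then insert (G.vt (rv d)) (M.B i) else M.B i) = M.B i
        rw [if_neg hp]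
      rw [hBi] at hS hSB
      refine key S hS hSne hSB ?_ ?_
      · intro x hx
        have h3 : (G.con d).vt x ≠ G.vt d := by
          intro e
          exact hp (hS (e ▸ hx))
        rw [← LIFM.vt_of_ne h3]
        exact hx
      · intro x hx hx'
        have h3 : (G.con d).vt x ≠ G.vt d := by
          intro e
          exact hp (e ▸ hx)
        rw [← LIFM.vt_of_ne h3]
        exact hx'
  card := by
    intro i
    show (if G.vt d ∈ M.B i then insert d.1 (M.T i) else M.T i).card + 1 =
      (if G.vt d ∈ M.B i then insert (G.vt (rv d)) (M.B i) else M.B i).card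
    have h1 := hM.card i
    split_ifs with h
    · have h2 : d.1 ∉ M.T i := by
        intro h3
        exact (Finset.mem_erase.1 (hM.sub i h3)).1 rfl
      rw [Finset.card_insert_of_notMem h2, Finset.card_insert_of_notMem (not_mem_B hne hM i), h1]
    · exact h1
  bX := fun i b => Finset.mem_of_mem_erase (hM.bX i b)
  bS := fun i b => vt_mem (hM.bS i b)
  bE := fun i b => vt_mem (hM.bE i b)
  bN := hM.bN

/-- the vertices of the 2-cycle `i` -/
theorem vt_ci {H : Gr V E} (hM : IsD4 H M) {i : Fin 4} {C : List (Dart E)} (hC : IsCi H M i C) :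
    ∀ x ∈ C, H.vt x ∈ M.B i ∨ H.vt x ∈ M.B (i + 1) := by
  intro x hx
  rcases hC.mem x hx with h | h | h | h
  · exact Or.inl (hM.ends _ x h)
  · exact Or.inr (hM.ends _ x h)
  · rcases eq_or h with rfl | rfl
    · exact Or.inl (hM.bS i _)
    · exact Or.inr (hM.bE i _)
  · rcases eq_or h with rfl | rfl
    · exact Or.inl (hM.bS i _)
    · exact Or.inr (hM.bE i _)

/-- the dart after an orientation of the edge of `d` on a cycle which has other edges -/
theorem exists_next {l : List (Dart E)} (hc : IsCyc G l) {x : Dart E} (hx : x ∈ l)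
    (hxd : x.1 = d.1) (hdel : del d.1 l ≠ []) :
    ∃ y ∈ del d.1 l, (G.con d).vt y = G.vt d := by
  obtain ⟨i, hi, rfl⟩ := List.getElem_of_mem hx
  have hpos : 0 < l.length := by omega
  have hm : (i + 1) % l.length < l.length := Nat.mod_lt _ hpos
  have h1 := TREM.next hc i hi
  refine ⟨l[(i + 1) % l.length], ?_, ?_⟩
  · unfold del
    rw [List.mem_filter]
    refine ⟨List.getElem_mem _, ?_⟩
    simp only [ne_eq, decide_not, Bool.not_eq_eq_eq_not, Bool.not_true, decide_eq_false_iff_not]
    intro h2
    have h3 := TREM.eq_of_fst hc (List.getElem_mem hm) (List.getElem_mem hi) (h2.trans hxd.symm)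
    have h4 : l.Nodup := List.Nodup.of_map _ hc.nde
    have h5 := (List.Nodup.getElem_inj_iff h4).1 h3
    have h6 : l.length = 1 := by
      rcases Nat.lt_or_ge (i + 1) l.length with h7 | h7
      · rw [Nat.mod_eq_of_lt h7] at h5
        omega
      · have h8 : i + 1 = l.length := by omega
        rw [h8, Nat.mod_self] at h5
        omega
    apply hdel
    obtain ⟨z, hz⟩ := List.length_eq_one_iff.1 h6
    subst hz
    have h9 : i = 0 := by
      simp only [List.length_singleton] at hi
      omega
    subst h9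
    simp only [List.getElem_cons_zero] at hxd
    unfold del
    simp [hxd]
  · rw [con_vt, ← h1]
    exact mg_of_fst G (x := rv l[i]) hxd

theorem isCi_lft (hM : IsD4 (G.con d) M) {i : Fin 4} {C c : List (Dart E)}
    (hC : IsCi (G.con d) M i C) (hc : IsCyc G c) (h : (del d.1 c).IsRotated C) :
    IsCi G (lft G d M) i c where
  cyc := hc
  mem := by
    intro x hx
    by_cases hxd : x.1 = d.1
    · have hne' : del d.1 c ≠ [] := by
        intro e
        rw [e] at h
        exact hC.cyc.ne (List.isRotated_nil_iff'.1 h).symm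
      obtain ⟨y, hy, hy2⟩ := exists_next hc hx hxd hne'
      have hyC : y ∈ C := h.mem_iff.1 hy
      have h2 := vt_ci hM hC y hyC
      rw [hy2] at h2
      rw [hxd]
      rcases h2 with h2 | h2
      · exact Or.inl (d_mem_T h2)
      · exact Or.inr (Or.inl (d_mem_T h2))
    · have hxC : x ∈ C := by
        refine h.mem_iff.1 ?_
        unfold del
        rw [List.mem_filter]
        exact ⟨hx, by simpa using hxd⟩
      rcases hC.mem x hxC with h1 | h1 | h1 | h1
      · exact Or.inl (T_sub i h1)
      · exact Or.inr (Or.inl (T_sub (i + 1) h1))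
      · exact Or.inr (Or.inr (Or.inl h1))
      · exact Or.inr (Or.inr (Or.inr h1))
  b0 := by
    obtain ⟨x, hx, hx2⟩ := List.mem_map.1 hC.b0
    have h1 := h.mem_iff.2 hx
    unfold del at h1
    rw [List.mem_filter] at h1
    exact List.mem_map.2 ⟨x, h1.1, hx2⟩
  b1 := by
    obtain ⟨x, hx, hx2⟩ := List.mem_map.1 hC.b1
    have h1 := h.mem_iff.2 hx
    unfold del at h1
    rw [List.mem_filter] at h1
    exact List.mem_map.2 ⟨x, h1.1, hx2⟩

/-- the 2-cycles `i` and `j` are disjoint if `j ≠ i`, `j ≠ i ± 1` -/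
theorem dj {H : Gr V E} (hM : IsD4 H M) {i j : Fin 4} (h1 : i ≠ j) (h2 : i ≠ j + 1)
    (h3 : i + 1 ≠ j) {C C' : List (Dart E)} (hC : IsCi H M i C) (hC' : IsCi H M j C') :
    Dj H C C' := by
  intro x hx y hy e
  have h4 : i + 1 ≠ j + 1 := fun e => h1 (add_right_cancel e)
  have a1 := vt_ci hM hC x hx
  have a2 := vt_ci hM hC' y hy
  rw [← e] at a2
  rcases a1 with a1 | a1 <;> rcases a2 with a2 | a2
  · exact Finset.disjoint_left.1 (hM.disj _ _ h1) a1 a2
  · exact Finset.disjoint_left.1 (hM.disj _ _ h2) a1 a2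
  · exact Finset.disjoint_left.1 (hM.disj _ _ h3) a1 a2
  · exact Finset.disjoint_left.1 (hM.disj _ _ h4) a1 a2

theorem dj_rot {H : Gr V E} {C C' c c' : List (Dart E)} (h : Dj H C C') (h1 : c.IsRotated C)
    (h2 : c'.IsRotated C') : Dj H c c' := fun x hx y hy => h x (h1.mem_iff.1 hx) y (h2.mem_iff.1 hy)

end Pool.Agent.Lib.MP3ff0f8.T.DDCM

namespace Pool.Agent.Lib.MP3ff0f8.T

theorem specDDC (hRES : SpecRES) (hCON : SpecCON) (hLIF : SpecLIF) (hCYC : SpecCYC) : SpecDDC where
  res := by
    rintro V E _ G Y hY ⟨bot, W, top, hdia, h⟩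
    obtain ⟨bot', W', top', hdia', _, hlk⟩ := hRES hdia Y hY
    refine ⟨bot', W', top', hdia', ?_⟩
    intro M hM C hC
    have hM' : IsD4 G M :=
      ⟨hM.disj, fun i => (hM.sub i).trans hY, hM.ends, hM.conn, hM.card, fun i b => hY (hM.bX i b),
        hM.bS, hM.bE, hM.bN⟩
    have hC' : ∀ i, IsCi G M i (C i) := fun i =>
      ⟨((hCYC.res hY).1 (hC i).cyc).1, (hC i).mem, (hC i).b0, (hC i).b1⟩
    rw [hlk _ _ (hC 0).cyc (hC 2).cyc, hlk _ _ (hC 3).cyc (hC 1).cyc]
    exact h M hM' C hC'
  con := by
    rintro V E _ _ G d hd hne ⟨bot, W, top, hdia, h⟩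
    obtain ⟨bot', W', top', hdia', _, hlk⟩ := hCON hdia d hd hne
    refine ⟨bot', W', top', hdia', ?_⟩
    intro M hM C hC
    choose c hc hcr using fun i => hLIF d hd hne (C i) (hC i).cyc
    have hdc : ∀ i, IsCyc (G.con d) (del d.1 (c i)) := by
      intro i
      obtain ⟨k, hk⟩ := (hcr i).symm
      rw [← hk]
      exact hCYC.rot k (hC i).cyc
    have e1 : lk W' (C 0) (C 2) = lk W (c 0) (c 2) := by
      rw [← hlk _ _ (hc 0) (hc 2) (hdc 0) (hdc 2) (DDCM.dj_rot (DDCM.dj hM (by decide) (by decide)
        (by decide) (hC 0) (hC 2)) (hcr 0) (hcr 2))]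
      exact DDCM.lk_congr W' (fun x => (hcr 0).mem_iff.symm) (fun x => (hcr 2).mem_iff.symm)
    have e2 : lk W' (C 3) (C 1) = lk W (c 3) (c 1) := by
      rw [← hlk _ _ (hc 3) (hc 1) (hdc 3) (hdc 1) (DDCM.dj_rot (DDCM.dj hM (by decide) (by decide)
        (by decide) (hC 3) (hC 1)) (hcr 3) (hcr 1))]
      exact DDCM.lk_congr W' (fun x => (hcr 3).mem_iff.symm) (fun x => (hcr 1).mem_iff.symm)
    rw [e1, e2]
    exact h (DDCM.lft G d M) (DDCM.isD4_lft hd hne hM) c
      (fun i => DDCM.isCi_lft hM (hC i) (hc i) (hcr i))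

end Pool.Agent.Lib.MP3ff0f8.T
end

section
/-! # IND: a graph with a diagram without doubly linked `D₄` minors is good -/
namespace Pool.Agent.Lib.MP3ff0f8.T
namespace INDM

open Finset

/-- the argument with Theorem C -/
theorem core (hGAD : SpecGAD) (hBAS : SpecBAS) (hDFL : SpecDFL) {V E : Type} [DecidableEq V]
    [DecidableEq E] {G : Gr V E} (hL : Loopless G) (hU : Ug G) (hD : D4even G) : Good G := by
  classical
  obtain ⟨bot, W, top, hdia, hlk⟩ := hD
  set φ : Finset E → ZMod 2 := fun S =>
    if h : ∃ c, IsCyc G c ∧ (c.map Prod.fst).toFinset = S then AW (cv h.choose) W else 0 with hφd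
  have hφ : ∀ c, IsCyc G c → φ (c.map Prod.fst).toFinset = AW (cv c) W := by
    intro c hc
    have hex : ∃ c', IsCyc G c' ∧ (c'.map Prod.fst).toFinset = (c.map Prod.fst).toFinset :=
      ⟨c, hc, rfl⟩
    have h1 : φ (c.map Prod.fst).toFinset = AW (cv hex.choose) W := by
      simp only [hφd]
      rw [dif_pos hex]
    rw [h1]
    refine hBAS.same hdia hc hex.choose_spec.1 ?_
    intro e
    have h2 := hex.choose_spec.2
    rw [← List.mem_toFinset, ← List.mem_toFinset, h2]
  have hsum : ∀ M : D4M V E, IsD4 G M → ∀ c : (Fin 4 → Bool) → List (Dart E),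
      (∀ ε, IsCe G M ε (c ε)) → ∑ ε, φ ((c ε).map Prod.fst).toFinset = 0 := by
    intro M hM c hc
    obtain ⟨C, hC, hs⟩ := (hDFL M hM c hc).2 bot W top hdia
    rw [Finset.sum_congr rfl (fun ε _ => hφ (c ε) (hc ε).cyc), hs]
    exact hlk M hM C hC
  obtain ⟨F, hF, hFc⟩ := hU φ hsum
  exact hGAD hL hdia ⟨F, hF, fun c hc => (hφ c hc).symm.trans (hFc c hc)⟩

theorem rv_rv {E : Type} (d : Dart E) : rv (rv d) = d := by
  simp [rv]

theorem good_empty {V E : Type} [DecidableEq V] [DecidableEq E] (G : Gr V E) (h : G.X = ∅) :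
    Good G := by
  refine ⟨[], [], [], ⟨fun d => by simp [h], ⟨List.nodup_nil, ?_, ?_, Run.nil _⟩⟩, ?_⟩
  · intro a b c hs
    simp at hs
  · intro a b c hs
    simp at hs
  · intro c hc
    exfalso
    obtain ⟨d, hd⟩ := List.exists_mem_of_ne_nil c hc.ne
    have := hc.mem d hd
    rw [h] at this
    simp at this

theorem good_res (hRES : SpecRES) (hCYC : SpecCYC) {V E : Type} [DecidableEq E] {G : Gr V E}
    (Y : Finset E) (hY : Y ⊆ G.X) (h : Good G) : Good (G.res Y) := by
  obtain ⟨bot, W, top, hdia, hz⟩ := h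
  obtain ⟨bot', W', top', hdia', hA, -⟩ := hRES hdia Y hY
  exact ⟨bot', W', top', hdia', fun c hc => by
    rw [hA c hc]
    exact hz c ((hCYC.res hY).1 hc).1⟩

theorem good_of_cone (hRES : SpecRES) (hCYC : SpecCYC) (hISO : SpecISO) {V E : Type}
    [DecidableEq V] [DecidableEq E] {G : Gr V E} (hne : G.X.Nonempty) (h : Good (cone G)) :
    Good G := by
  obtain ⟨e0, he0⟩ := hne
  have hsub : G.X.map ⟨Sum.inl, Sum.inl_injective⟩ ⊆ (cone G).X := by
    intro x hx
    simp only [cone, Finset.mem_union]
    exact Or.inl hx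
  have h1 := good_res hRES hCYC _ hsub h
  let δ : Dart (E ⊕ V) → Dart E := fun d => (Sum.elim id (fun _ => e0) d.1, d.2)
  let ψ : Option V → V := fun o => o.getD (G.vt (e0, true))
  refine (hISO (G := (cone G).res (G.X.map ⟨Sum.inl, Sum.inl_injective⟩)) (H := G) (δ := δ)
    (ψ := ψ) ?_).1 h1
  have key : ∀ d : Dart (E ⊕ V), d.1 ∈ ((cone G).res (G.X.map ⟨Sum.inl, Sum.inl_injective⟩)).X →
      ∃ e ∈ G.X, d = (Sum.inl e, d.2) := by
    intro d hd
    simp only [Gr.res, Finset.mem_map, Function.Embedding.coeFn_mk] at hd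
    obtain ⟨e, he, hde⟩ := hd
    exact ⟨e, he, Prod.ext hde.symm rfl⟩
  constructor
  · intro d d' hd hd' hh
    obtain ⟨e, he, h1⟩ := key d hd
    obtain ⟨e', he', h2⟩ := key d' hd'
    rw [h1, h2] at hh ⊢
    simp only [δ, Sum.elim_inl, id, Prod.mk.injEq] at hh
    rw [hh.1, hh.2]
  · intro d hd
    obtain ⟨e, he, h1⟩ := key d hd
    rw [h1]
    simp [δ, rv]
  · intro d hd
    obtain ⟨e, he, h1⟩ := key d hd
    rw [h1]
    simpa [δ] using he
  · intro d' hd'
    refine ⟨(Sum.inl d'.1, d'.2), ?_, ?_⟩
    · simp only [Gr.res, Finset.mem_map, Function.Embedding.coeFn_mk]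
      exact ⟨d'.1, hd', rfl⟩
    · simp [δ]
  · intro d hd
    obtain ⟨e, he, h1⟩ := key d hd
    rw [h1]
    simp [δ, ψ, Gr.res, cone]
  · intro d d' hd hd' hh
    obtain ⟨e, he, h1⟩ := key d hd
    obtain ⟨e', he', h2⟩ := key d' hd'
    rw [h1, h2] at hh ⊢
    simp only [ψ, Gr.res, cone, Option.getD_some] at hh ⊢
    rw [hh]

theorem star_card {V E : Type} [DecidableEq V] [DecidableEq E] {k : ℕ} (G : Gr V E) (A : Finset E)
    (v : Fin k → V) : (star G A v).X.card = A.card + k := by
  unfold star
  simp only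
  rw [Finset.card_union_of_disjoint, Finset.card_map, Finset.card_map, Finset.card_univ,
    Fintype.card_fin]
  rw [Finset.disjoint_left]
  intro x hx hx'
  simp only [Finset.mem_map, Function.Embedding.coeFn_mk] at hx hx'
  obtain ⟨e, -, rfl⟩ := hx
  obtain ⟨i, -, hi⟩ := hx'
  cases hi

end INDM

open Finset INDM in
theorem specIND (hC : SpecC) (hGAD : SpecGAD) (hBAS : SpecBAS) (hDDC : SpecDDC) (hDFL : SpecDFL)
    (hADD : SpecADD) (hSUB : SpecSUB) (hPAR : SpecPAR) (hGLA : SpecGLA) (hGLB : SpecGLB)
    (hMIK : SpecMIK) (hSEP : SpecSEP) (hISO : SpecISO) (hRES : SpecRES) (hCYC : SpecCYC)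
    (hCNA : SpecCNA) (hCNB : SpecCNB) (hCNC : SpecCNC) (hCND : SpecCND) : SpecIND := by
  have main : ∀ n : ℕ, ∀ (V E : Type) [DecidableEq V] [DecidableEq E] (G : Gr V E),
      G.X.card = n → D4even G → Good G := by
    intro n
    induction n using Nat.strong_induction_on with
    | _ n ih =>
    intro V E _ _ G hn hD
    have herase : ∀ e ∈ G.X, Good (G.res (G.X.erase e)) := by
      intro e he
      refine ih (G.X.erase e).card ?_ V E (G.res (G.X.erase e)) rfl
        (hDDC.res _ (Finset.erase_subset _ _) hD)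
      rw [← hn]
      exact Finset.card_erase_lt_of_mem he
    have hcon : ∀ d : Dart E, d.1 ∈ G.X → G.vt d ≠ G.vt (rv d) → Good (G.con d) := by
      intro d hd hne
      refine ih (G.X.erase d.1).card ?_ V E (G.con d) rfl (hDDC.con d hd hne hD)
      rw [← hn]
      exact Finset.card_erase_lt_of_mem hd
    -- loops
    by_cases hloop : ∃ d : Dart E, d.1 ∈ G.X ∧ G.vt d = G.vt (rv d)
    · obtain ⟨d, hd, hv⟩ := hloop
      exact hADD d hd (Or.inl hv) (herase _ hd)
    push Not at hloop
    have hL : Loopless G := hloop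
    -- parallel edges
    by_cases hpar : ∃ d d' : Dart E, d.1 ∈ G.X ∧ d'.1 ∈ G.X ∧ d.1 ≠ d'.1 ∧ G.vt d = G.vt d' ∧
        G.vt (rv d) = G.vt (rv d')
    · obtain ⟨d, d', hd, hd', hne, h1, h2⟩ := hpar
      exact hPAR d d' hL hd hd' hne h1 h2 (herase _ hd')
    push Not at hpar
    have hN : NoPar G := by
      intro d d' hd hd' h1 h2
      by_contra hne
      exact hpar d d' hd hd' hne h1 h2
    -- small degrees
    by_cases hdeg : Deg3 G
    swap
    · unfold Deg3 at hdeg
      push Not at hdeg
      obtain ⟨w, hw, hlt⟩ := hdeg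
      have hmem : ∀ x : Dart E, x ∈ G.st w ↔ x.1 ∈ G.X ∧ G.vt x = w := by
        intro x
        simp [Gr.st]
      have hpos : 0 < (G.st w).card := Finset.card_pos.2 hw
      have h12 : (G.st w).card = 1 ∨ (G.st w).card = 2 := by omega
      rcases h12 with h1 | h2
      · obtain ⟨y, hy⟩ := Finset.card_eq_one.1 h1
        have hyw : y ∈ G.st w := by rw [hy]; exact Finset.mem_singleton_self _
        have hy2 := (hmem y).1 hyw
        refine hADD (rv y) (by simpa [rv] using hy2.1) (Or.inr ?_)
          (by simpa [rv] using herase _ hy2.1)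
        intro x hx hv
        rw [rv_rv] at hv ⊢
        have : x ∈ G.st w := (hmem x).2 ⟨hx, by rw [hv]; exact hy2.2⟩
        rw [hy] at this
        exact Finset.mem_singleton.1 this
      · obtain ⟨y, g, hyg, hst⟩ := Finset.card_eq_two.1 h2
        have hyw : y ∈ G.st w := by rw [hst]; simp
        have hgw : g ∈ G.st w := by rw [hst]; simp
        have hy2 := (hmem y).1 hyw
        have hg2 := (hmem g).1 hgw
        have hdX : (rv y).1 ∈ G.X := by simpa [rv] using hy2.1
        have hne : G.vt (rv y) ≠ G.vt (rv (rv y)) := hL (rv y) hdX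
        refine hSUB (rv y) g hdX hg2.1 ?_ hne ?_ ?_ ?_ (hcon (rv y) hdX hne)
        · intro he
          have he' : y.1 = g.1 := by simpa [rv] using he
          have hb : g.2 ≠ y.2 := by
            intro hb
            exact hyg (Prod.ext he' hb.symm)
          have hgr : g = rv y := by
            refine Prod.ext he'.symm ?_
            simp only [rv]
            revert hb
            cases g.2 <;> cases y.2 <;> simp
          apply hL y hy2.1
          rw [← hgr, hg2.2, hy2.2]
        · rw [rv_rv, hg2.2, hy2.2]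
        · rw [rv_rv, hy2.2, ← hg2.2]
          exact fun h => hL g hg2.1 h.symm
        · intro x hx hv
          rw [rv_rv] at hv ⊢
          have : x ∈ G.st w := (hmem x).2 ⟨hx, by rw [hv]; exact hy2.2⟩
          rw [hst] at this
          simpa using this
    -- separations
    by_cases hS : Sep4 G
    swap
    · obtain ⟨k, A, B, v, hk, hAB, hU, hA, hB, hv, hcom, ⟨K, f, hK1, hK2, hK3, hK4, hK5⟩,
        ⟨K', f', hK1', hK2', hK3', hK4', hK5'⟩⟩ := hSEP hL hN hdeg hS
      have hAX : A ⊆ G.X := by rw [← hU]; exact Finset.subset_union_left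
      have hBX : B ⊆ G.X := by rw [← hU]; exact Finset.subset_union_right
      have hXA : G.X \ A = B := by
        rw [← hU, Finset.union_sdiff_left]
        exact Finset.sdiff_eq_self_of_disjoint hAB.symm
      have hXB : G.X \ B = A := by
        rw [← hU, Finset.union_sdiff_right]
        exact Finset.sdiff_eq_self_of_disjoint hAB
      have hcard : G.X.card = A.card + B.card := by
        rw [← hU, Finset.card_union_of_disjoint hAB]
      have h1 : D4even (star G A v) :=
        hMIK A v K f hAX hv hK1 (by rw [hXA]; exact hK2) hK3 hK4 (by rw [hXA]; exact hK5) hD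
      have h2 : D4even (star G B v) :=
        hMIK B v K' f' hBX hv hK1' (by rw [hXB]; exact hK2') hK3' hK4' (by rw [hXB]; exact hK5') hD
      have g1 : Good (star G A v) :=
        ih _ (by rw [star_card]; omega) _ _ (star G A v) rfl h1
      have g2 : Good (star G B v) :=
        ih _ (by rw [star_card]; omega) _ _ (star G B v) rfl h2
      exact hGLB A B v hAB hU hL hv hcom (hGLA A B v hAB hk hv g1 g2)
    -- Theorem C
    by_cases hP : APl G
    · rcases Finset.eq_empty_or_nonempty G.X with hX | hX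
      · exact good_empty G hX
      · obtain ⟨c1, c2, c3, c4⟩ := hCNA G hL hN hdeg hS hX
        have hnp : ¬ APl (cone G) := hCNC G (hCND G hL hN hdeg hX)
        exact good_of_cone hRES hCYC hISO hX
          (core hGAD hBAS hDFL c1 (hC (cone G) c1 c2 c3 c4 hnp) (hCNB G hP))
    · exact core hGAD hBAS hDFL hL (hC G hL hN hdeg hS hP) hD
  intro V E _ _ G hD
  exact main _ V E G rfl hD

end Pool.Agent.Lib.MP3ff0f8.T
end
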