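import Pool.Agent.Lib.MP_3ff0f8_gt.T.Spec
import Pool.Agent.Lib.MP_3ff0f8_gt.T.IND

/-!
# Module BAS: change of the base point and of the direction of a closed curve
-/

namespace Pool.Agent.Lib.MP3ff0f8.T

namespace BASM

section words

lemma map_fst_flp {S : Type} (q : List (S × Bool)) : (flp q).map Prod.fst = q.map Prod.fst := by
  simp [flp, List.map_map, Function.comp_def]

lemma mem_flp {S : Type} (q : List (S × Bool)) (p : S) (b : Bool) : (p, b) ∈ flp q ↔ (p, !b) ∈ q := by
  unfold flp
  rw [List.mem_map]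
  constructor
  · rintro ⟨x, hx, h⟩
    obtain ⟨s, c⟩ := x
    simp only [Prod.mk.injEq] at h
    obtain ⟨rfl, rfl⟩ := h
    simpa using hx
  · intro h
    exact ⟨(p, !b), h, by simp⟩

variable {S : Type} [DecidableEq S]

omit [DecidableEq S] in
lemma on_flp (q : List (S × Bool)) (p : S) : on (flp q) p ↔ on q p := by
  unfold on
  rw [map_fst_flp]

lemma idx_flp (q : List (S × Bool)) (p : S) : idx (flp q) p = idx q p := by
  unfold idx
  rw [map_fst_flp]

lemma l01_flp (q : List (S × Bool)) (p r : S) : l01 (flp q) p r ↔ l10 q p r := by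
  unfold l01 l10
  rw [idx_flp, idx_flp, mem_flp]
  simp

lemma l10_flp (q : List (S × Bool)) (p r : S) : l10 (flp q) p r ↔ l01 q p r := by
  unfold l01 l10
  rw [idx_flp, idx_flp, mem_flp]
  simp

lemma bet_flp (q : List (S × Bool)) (z w : S × S) : bet (flp q) w z = bet q z w := by
  unfold bet
  simp only [on_flp, l01_flp, l10_flp]
  by_cases h : on q z.1 ∧ on q z.2 ∧ on q w.1 ∧ on q w.2
  · have h' : on q w.1 ∧ on q w.2 ∧ on q z.1 ∧ on q z.2 := by tauto
    rw [if_pos h, if_pos h', add_comm]
  · have h' : ¬ (on q w.1 ∧ on q w.2 ∧ on q z.1 ∧ on q z.2) := by tauto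
    rw [if_neg h, if_neg h']

lemma flip (hPSU : SpecPSU) (q : List (S × Bool)) (W : List (S × S)) :
    AW (flp q) W.reverse = AW q W := by
  unfold AW
  rw [hPSU.rvs]
  exact hPSU.cgr _ _ _ fun z _ w _ => bet_flp q z w

omit [DecidableEq S] in
lemma on_rev (q : List (S × Bool)) (p : S) : on (flp q).reverse p ↔ on q p := by
  unfold on
  rw [List.map_reverse, List.mem_reverse, map_fst_flp]

lemma idxOf_reverse {L : List S} (h : L.Nodup) {p : S} (hp : p ∈ L) :
    L.reverse.idxOf p + L.idxOf p + 1 = L.length := by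
  have hi : L.idxOf p < L.length := List.idxOf_lt_length_of_mem hp
  have hg : L[L.idxOf p] = p := List.getElem_idxOf hi
  have hk : L.length - 1 - L.idxOf p < L.reverse.length := by
    rw [List.length_reverse]; omega
  have e : L.reverse[L.length - 1 - L.idxOf p] = p := by
    rw [List.getElem_reverse]
    have : L.length - 1 - (L.length - 1 - L.idxOf p) = L.idxOf p := by omega
    simp only [this, hg]
  have := (List.nodup_reverse.mpr h).idxOf_getElem (L.length - 1 - L.idxOf p) hk
  rw [e] at this
  omega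

lemma idx_rev {q : List (S × Bool)} (h : (q.map Prod.fst).Nodup) {p : S} (hp : on q p) :
    idx (flp q).reverse p + idx q p + 1 = q.length := by
  unfold idx
  rw [List.map_reverse, map_fst_flp, idxOf_reverse h hp, List.length_map]

lemma l01_rev {q : List (S × Bool)} (h : (q.map Prod.fst).Nodup) {p r : S} (hp : on q p)
    (hr : on q r) : l01 (flp q).reverse p r ↔ l10 q r p := by
  have h1 := idx_rev h hp
  have h2 := idx_rev h hr
  unfold l01 l10
  rw [List.mem_reverse, mem_flp]
  have e : idx (flp q).reverse p < idx (flp q).reverse r ↔ idx q r < idx q p := by omega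
  rw [e]
  constructor
  · rintro (h | ⟨rfl, h⟩)
    · exact Or.inl h
    · exact Or.inr ⟨rfl, by simpa using h⟩
  · rintro (h | ⟨rfl, h⟩)
    · exact Or.inl h
    · exact Or.inr ⟨rfl, by simpa using h⟩

lemma l10_rev {q : List (S × Bool)} (h : (q.map Prod.fst).Nodup) {p r : S} (hp : on q p)
    (hr : on q r) : l10 (flp q).reverse p r ↔ l01 q r p := by
  have h1 := idx_rev h hp
  have h2 := idx_rev h hr
  unfold l01 l10
  rw [List.mem_reverse, mem_flp]
  have e : idx (flp q).reverse p < idx (flp q).reverse r ↔ idx q r < idx q p := by omega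
  rw [e]
  constructor
  · rintro (h | ⟨rfl, h⟩)
    · exact Or.inl h
    · exact Or.inr ⟨rfl, by simpa using h⟩
  · rintro (h | ⟨rfl, h⟩)
    · exact Or.inl h
    · exact Or.inr ⟨rfl, by simpa using h⟩

lemma bet_rev {q : List (S × Bool)} (h : (q.map Prod.fst).Nodup) (z w : S × S) :
    bet (flp q).reverse z w = bet q z w := by
  unfold bet
  simp only [on_rev]
  by_cases ho : on q z.1 ∧ on q z.2 ∧ on q w.1 ∧ on q w.2
  · rw [if_pos ho, if_pos ho, add_comm]
    obtain ⟨a, b, c, d⟩ := ho
    simp only [l01_rev h a d, l10_rev h d b, l01_rev h b c, l10_rev h c b, l01_rev h b d,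
      l10_rev h d a]
    congr 1
    · exact if_congr (by tauto) rfl rfl
    · exact if_congr (by tauto) rfl rfl
  · rw [if_neg ho, if_neg ho]

lemma rev (hPSU : SpecPSU) (q : List (S × Bool)) (W : List (S × S))
    (h : (q.map Prod.fst).Nodup) : AW (flp q).reverse W = AW q W := by
  unfold AW
  exact hPSU.cgr _ _ _ fun z _ w _ => bet_rev h z w

end words

section cycles

variable {V E : Type}

lemma cv_cons (d : Dart E) (c : List (Dart E)) :
    cv (d :: c) = (d, true) :: (rv d, false) :: cv c := by
  simp [cv]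

lemma cv_append (a b : List (Dart E)) : cv (a ++ b) = cv a ++ cv b := by
  simp [cv]

lemma cv_rotate_one (c : List (Dart E)) : cv (c.rotate 1) = (cv c).rotate 2 := by
  cases c with
  | nil => simp [cv]
  | cons d t =>
    rw [cv_cons]
    have : (d :: t).rotate 1 = t ++ [d] := by simp
    rw [this, cv_append]
    simp [cv, List.rotate_cons_succ]

lemma cv_rotate (c : List (Dart E)) (n : ℕ) : cv (c.rotate n) = (cv c).rotate (2 * n) := by
  induction n with
  | zero => simp
  | succ n ih =>
    rw [← List.rotate_rotate, cv_rotate_one, ih, List.rotate_rotate]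
    ring_nf

lemma cv_rvc (c : List (Dart E)) : cv (rvc c) = (flp (cv c)).reverse := by
  induction c with
  | nil => simp [cv, rvc, flp]
  | cons d t ih =>
    have e : rvc (d :: t) = rvc t ++ [rv d] := by simp [rvc]
    rw [e, cv_append, ih, cv_cons]
    simp [flp, cv, CYCM.rv_rv]

/-- the pairs (`rv` of a dart, next dart) -/
def nx (c : List (Dart E)) : List (Dart E × Dart E) := (c.map rv).zip (c.rotate 1)

lemma nx_map_fst (c : List (Dart E)) : (nx c).map Prod.fst = c.map rv := by
  unfold nx
  rw [List.map_fst_zip]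
  simp

lemma nx_map_snd (c : List (Dart E)) : (nx c).map Prod.snd = c.rotate 1 := by
  unfold nx
  rw [List.map_snd_zip]
  simp

lemma acv_zip_aux (a : Dart E) : ∀ (t : List (Dart E)) (d : Dart E),
    acv (((d :: t).map rv).zip (t ++ [a])) = flp ((rv d, false) :: cv t ++ [(a, true)]) := by
  intro t
  induction t with
  | nil => intro d; simp [acv, flp, cv]
  | cons e t ih =>
    intro d
    have := ih e
    simp only [List.map_cons, List.cons_append, List.zip_cons_cons] at this ⊢
    have h2 : ∀ (x : Dart E × Dart E) (l : List (Dart E × Dart E)),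
        acv (x :: l) = (x.1, true) :: (x.2, false) :: acv l := by
      intro x l; simp [acv]
    rw [h2, this, cv_cons]
    simp [flp]

lemma acv_nx (c : List (Dart E)) : acv (nx c) = flp ((cv c).rotate 1) := by
  cases c with
  | nil => simp [nx, acv, cv, flp]
  | cons d t =>
    have := acv_zip_aux d t d
    unfold nx
    have e : (d :: t).rotate 1 = t ++ [d] := by simp
    rw [e, this, cv_cons]
    simp [List.rotate_cons_succ]

lemma flp_rotate {S : Type} (q : List (S × Bool)) (n : ℕ) : flp (q.rotate n) = (flp q).rotate n := by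
  simp [flp, List.map_rotate]

lemma adia_rev {G : Gr V E} [DecidableEq E] (hRUN : SpecRUN) {bot top : List (Dart E)}
    {W : List (Dart E × Dart E)} (h : IsDia G bot W top) :
    ADia Prod.fst G.vt top W.reverse bot :=
  ⟨(hRUN.perm h.dia.run).nodup_iff.mp h.dia.nd, h.dia.tt, h.dia.bb, hRUN.rev h.dia.run⟩

lemma acyc_nx {G : Gr V E} {c : List (Dart E)} (h : IsCyc G c) : ACyc Prod.fst G.vt (nx c) := by
  have hl : (nx c).map (fun x => G.vt x.1) = c.map fun d => G.vt (rv d) := by
    have : (fun x : Dart E × Dart E => G.vt x.1) = G.vt ∘ Prod.fst := rfl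
    rw [this, ← List.map_map, nx_map_fst, List.map_map]
    rfl
  have hl2 : (nx c).map (fun x => G.vt x.2) = (c.map G.vt).rotate 1 := by
    have : (fun x : Dart E × Dart E => G.vt x.2) = G.vt ∘ Prod.snd := rfl
    rw [this, ← List.map_map, nx_map_snd, List.map_rotate]
  have hl3 : (nx c).map (fun x => x.1.1) = c.map Prod.fst := by
    have : (fun x : Dart E × Dart E => x.1.1) = Prod.fst ∘ Prod.fst := rfl
    rw [this, ← List.map_map, nx_map_fst, List.map_map]
    rfl
  have hl4 : (nx c).map (fun x => x.2.1) = (c.map Prod.fst).rotate 1 := by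
    have : (fun x : Dart E × Dart E => x.2.1) = Prod.fst ∘ Prod.snd := rfl
    rw [this, ← List.map_map, nx_map_snd, List.map_rotate]
  constructor
  · intro hn
    apply h.ne
    have := congrArg List.length hn
    simp [nx] at this
    exact this
  · rw [acv_nx, map_fst_flp, List.map_rotate]
    exact List.nodup_rotate.mpr (CYCM.cvnd h)
  · have he : (nx c).map (fun x => G.vt x.1) = (nx c).map (fun x => G.vt x.2) := by
      rw [hl, hl2, h.cl]
    intro x hx
    exact List.map_inj_left.mp he x hx
  · rw [hl4, hl3]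
  · rw [hl3]; exact h.nde
  · rw [hl, h.cl]
    exact List.nodup_rotate.mpr h.ndv

lemma mem_nx {c : List (Dart E)} {x : Dart E × Dart E} (hx : x ∈ nx c) :
    (∃ d ∈ c, x.1 = rv d) ∧ x.2 ∈ c := by
  unfold nx at hx
  have := List.of_mem_zip hx
  refine ⟨?_, List.mem_rotate.mp this.2⟩
  obtain ⟨d, hd, h⟩ := List.mem_map.mp this.1
  exact ⟨d, hd, h.symm⟩

lemma half1 (hHAL : SpecHAL) [DecidableEq E] {G : Gr V E} {bot top : List (Dart E)}
    {W : List (Dart E × Dart E)} {c : List (Dart E)} (hD : IsDia G bot W top) (hc : IsCyc G c) :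
    AW ((cv c).rotate 1) W = AW (cv c) W := by
  have h := CYCM.acyc hc
  have := hHAL G.vt Prod.fst bot W top _ hD.dia h.1 ?_
  · rw [h.2] at this
    exact this
  · intro x hx
    obtain ⟨d, hd, rfl⟩ := List.mem_map.mp hx
    exact ⟨(hD.mb d).mpr (hc.mem d hd), (hD.mb (rv d)).mpr (hc.mem d hd)⟩

lemma half2 (hHAL : SpecHAL) (hPSU : SpecPSU) (hRUN : SpecRUN) [DecidableEq E] {G : Gr V E}
    {bot top : List (Dart E)} {W : List (Dart E × Dart E)} {c : List (Dart E)}
    (hD : IsDia G bot W top) (hc : IsCyc G c) :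
    AW ((cv c).rotate 2) W = AW ((cv c).rotate 1) W := by
  have hp := hRUN.perm hD.dia.run
  have := hHAL Prod.fst G.vt top W.reverse bot _ (adia_rev hRUN hD) (acyc_nx hc) ?_
  · rw [acv_nx, ← flp_rotate, List.rotate_rotate, flip hPSU, flip hPSU] at this
    exact this
  · intro x hx
    obtain ⟨⟨d, hd, h1⟩, h2⟩ := mem_nx hx
    refine ⟨hp.mem_iff.mp ((hD.mb _).mpr ?_), hp.mem_iff.mp ((hD.mb _).mpr (hc.mem _ h2))⟩
    rw [h1]
    exact hc.mem d hd

lemma rotall (hHAL : SpecHAL) (hPSU : SpecPSU) (hRUN : SpecRUN) [DecidableEq E] {G : Gr V E}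
    {bot top : List (Dart E)} {W : List (Dart E × Dart E)} (hD : IsDia G bot W top) (k : ℕ) :
    ∀ {c : List (Dart E)}, IsCyc G c → AW ((cv c).rotate k) W = AW (cv c) W := by
  induction k using Nat.strong_induction_on with
  | _ k ih =>
    intro c hc
    match k, ih with
    | 0, _ => simp
    | 1, _ => exact half1 hHAL hD hc
    | k + 2, ih =>
      have e : (cv c).rotate (k + 2) = (cv (c.rotate 1)).rotate k := by
        rw [cv_rotate_one, List.rotate_rotate, add_comm]
      rw [e, ih k (by omega) (CYCM.rot 1 hc), cv_rotate_one, half2 hHAL hPSU hRUN hD hc,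
        half1 hHAL hD hc]

lemma cyr (hHAL : SpecHAL) (hPSU : SpecPSU) (hRUN : SpecRUN) [DecidableEq E] {G : Gr V E}
    {bot top : List (Dart E)} {W : List (Dart E × Dart E)} {c c' : List (Dart E)}
    (hD : IsDia G bot W top) (hc : IsCyc G c) (h : c'.IsRotated c) :
    AW (cv c') W = AW (cv c) W := by
  obtain ⟨n, hn⟩ := h.symm
  rw [← hn, cv_rotate]
  exact rotall hHAL hPSU hRUN hD (2 * n) hc

lemma neg (hPSU : SpecPSU) [DecidableEq E] {G : Gr V E} {c : List (Dart E)}
    (W : List (Dart E × Dart E)) (hc : IsCyc G c) : AW (cv (rvc c)) W = AW (cv c) W := by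
  rw [cv_rvc]
  exact rev hPSU _ W (CYCM.cvnd hc)

end cycles

end BASM

theorem specBAS (hHAL : SpecHAL) (hPSU : SpecPSU) (hRUN : SpecRUN) : SpecBAS where
  flip := fun q W => BASM.flip hPSU q W
  rev := fun q W h => BASM.rev hPSU q W h
  rot := fun hD hc k => BASM.rotall hHAL hPSU hRUN hD k hc
  cyr := fun hD hc h => BASM.cyr hHAL hPSU hRUN hD hc h
  neg := fun W hc => BASM.neg hPSU W hc
  same := by
    intro V E _ G bot top W c c' hD hc hc' he
    rcases CYCM.same hc hc' he with h | h
    · exact BASM.cyr hHAL hPSU hRUN hD hc h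
    · rw [BASM.cyr hHAL hPSU hRUN hD (CYCM.rev hc) h]
      exact BASM.neg hPSU W hc

end Pool.Agent.Lib.MP3ff0f8.T
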