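import Pool.Agent.Lib.MP_3ff0f8_gt.T.Spec

/-!
# Module CNB: the cone over an algebraically planar graph
-/

namespace Pool.Agent.Lib.MP3ff0f8.T

namespace CNBM

variable {V E : Type}

lemma two_mul_zmod (a : ZMod 2) : a + a = 0 := CharTwo.add_self_eq_zero a

/-- sum over the two ends of the edge of a dart -/
lemma ends (f : V → ZMod 2) (vt : Dart E → V) (d : Dart E) :
    ∑ b : Bool, f (vt (d.1, b)) = f (vt d) + f (vt (rv d)) := by
  obtain ⟨e, b⟩ := d
  rw [Fintype.sum_bool]
  cases b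
  · exact add_comm _ _
  · rfl

/-- every vertex of a cycle is the end of two edges -/
lemma cyc_sum {G : Gr V E} {c : List (Dart E)} (hc : IsCyc G c) (f : V → ZMod 2) :
    (c.map fun d => ∑ b : Bool, f (G.vt (d.1, b))).sum = 0 := by
  have h1 : (c.map fun d => ∑ b : Bool, f (G.vt (d.1, b))) =
      c.map fun d => f (G.vt d) + f (G.vt (rv d)) :=
    List.map_congr_left (fun d _ => ends f G.vt d)
  rw [h1, List.sum_map_add]
  have h2 : (c.map fun d => f (G.vt (rv d))) = ((c.map G.vt).rotate 1).map f := by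
    rw [← hc.cl, List.map_map]; rfl
  have h3 : (c.map fun d => f (G.vt d)) = (c.map G.vt).map f := by
    rw [List.map_map]; rfl
  rw [h2, h3]
  have h4 : (((c.map G.vt).rotate 1).map f).Perm ((c.map G.vt).map f) :=
    (List.rotate_perm _ 1).map f
  rw [h4.sum_eq]
  exact two_mul_zmod _

lemma sum_zero {α : Type} (l : List α) (f : α → ZMod 2) (h : ∀ x ∈ l, f x = 0) :
    (l.map f).sum = 0 := by
  apply List.sum_eq_zero
  intro y hy
  obtain ⟨x, hx, rfl⟩ := List.mem_map.1 hy
  exact h x hx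

lemma sum_swap {α β : Type} (l : List α) (m : List β) (f : α → β → ZMod 2) :
    (l.map fun a => (m.map fun b => f a b).sum).sum =
      (m.map fun b => (l.map fun a => f a b).sum).sum := by
  induction l with
  | nil => simp
  | cons a l ih =>
    simp only [List.map_cons, List.sum_cons]
    rw [ih, ← List.sum_map_add]

/-- ends of darts of a cycle are starts -/
lemma end_mem {G : Gr V E} {c : List (Dart E)} (hc : IsCyc G c) {d : Dart E} (hd : d ∈ c) :
    ∃ d' ∈ c, G.vt d' = G.vt (rv d) := by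
  have h1 : G.vt (rv d) ∈ c.map fun d => G.vt (rv d) := List.mem_map.2 ⟨d, hd, rfl⟩
  rw [hc.cl, List.mem_rotate, List.mem_map] at h1
  exact h1

/-- indicator of an inequality -/
noncomputable def lt (a b : ℝ) : ZMod 2 := if a < b then 1 else 0

lemma lt_add {a b : ℝ} (h : a ≠ b) : lt a b + lt b a = 1 := by
  unfold lt
  rcases lt_or_gt_of_ne h with h | h
  · rw [if_pos h, if_neg (not_lt.2 h.le)]; rfl
  · rw [if_neg (not_lt.2 h.le), if_pos h]; rfl

/-- sum over the four pairs of ends -/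
noncomputable def X4 (vt : Dart E → V) (x : V → ℝ) (e f : E) : ZMod 2 :=
  ∑ b : Bool, ∑ b' : Bool, lt (x (vt (e, b))) (x (vt (f, b')))

lemma X4_symm {vt : Dart E → V} {x : V → ℝ} {e f : E}
    (h : ∀ b b', x (vt (e, b)) ≠ x (vt (f, b'))) : X4 vt x e f = X4 vt x f e := by
  unfold X4
  rw [Finset.sum_comm (s := (Finset.univ : Finset Bool)) (t := (Finset.univ : Finset Bool))
    (f := fun b b' => lt (x (vt (f, b))) (x (vt (e, b'))))]
  simp only [Fintype.sum_bool]
  have h1 := lt_add (h true true)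
  have h2 := lt_add (h true false)
  have h3 := lt_add (h false true)
  have h4 := lt_add (h false false)
  have e1 : ∀ a b : ZMod 2, a + b = 1 → a = b + 1 := by decide
  rw [e1 _ _ h1, e1 _ _ h2, e1 _ _ h3, e1 _ _ h4]
  generalize lt (x (vt (f, true))) (x (vt (e, true))) = p
  generalize lt (x (vt (f, false))) (x (vt (e, true))) = q
  generalize lt (x (vt (f, true))) (x (vt (e, false))) = r
  generalize lt (x (vt (f, false))) (x (vt (e, false))) = s
  revert p q r s
  decide

lemma X4_sum {G : Gr V E} {c : List (Dart E)} (hc : IsCyc G c) (x : V → ℝ) (e : E) :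
    (c.map fun d => X4 G.vt x e d.1).sum = 0 := by
  have h : ∀ f, X4 G.vt x e f = ∑ b' : Bool, (fun v => ∑ b : Bool, lt (x (G.vt (e, b))) (x v))
      (G.vt (f, b')) := by
    intro f
    unfold X4
    rw [Finset.sum_comm]
  rw [List.map_congr_left (fun d _ => h d.1)]
  exact cyc_sum hc (fun v => ∑ b : Bool, lt (x (G.vt (e, b))) (x v))

/-- the edge of a dart of a cycle has its ends on the cycle -/
lemma edge_end {G : Gr V E} {c : List (Dart E)} (hc : IsCyc G c) {d : Dart E} (hd : d ∈ c)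
    (b : Bool) : ∃ d' ∈ c, G.vt d' = G.vt (d.1, b) := by
  by_cases hb : d.2 = b
  · exact ⟨d, hd, by rw [← hb]⟩
  · obtain ⟨d', h1, h2⟩ := end_mem hc hd
    refine ⟨d', h1, ?_⟩
    rw [h2]
    congr 1
    obtain ⟨e, b'⟩ := d
    cases b <;> cases b' <;> simp_all [rv]

/-- vertices of the cycles of a `D₄` minor -/
lemma ci_vtx {G : Gr V E} {M : D4M V E} (hM : IsD4 G M) {i : Fin 4} {C : List (Dart E)}
    (hC : IsCi G M i C) {d : Dart E} (hd : d ∈ C) : G.vt d ∈ M.B i ∨ G.vt d ∈ M.B (i + 1) := by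
  have key : ∀ b, d.1 = (M.bd i b).1 → G.vt d ∈ M.B i ∨ G.vt d ∈ M.B (i + 1) := by
    intro b h
    have h1 : d = M.bd i b ∨ d = rv (M.bd i b) := by
      obtain ⟨e, c⟩ := d
      generalize M.bd i b = y at h
      obtain ⟨f, c'⟩ := y
      simp only at h
      subst h
      cases c <;> cases c' <;> simp [rv]
    rcases h1 with rfl | rfl
    · exact Or.inl (hM.bS i b)
    · exact Or.inr (hM.bE i b)
  rcases hC.mem d hd with h | h | h | h
  · exact Or.inl (hM.ends i d h)
  · exact Or.inr (hM.ends (i + 1) d h)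
  · exact key false h
  · exact key true h

lemma ci_dj {G : Gr V E} {M : D4M V E} (hM : IsD4 G M) {C C' : List (Dart E)}
    (hC : IsCi G M 0 C) (hC' : IsCi G M 2 C') : Dj G C C' := by
  intro d hd d' hd' h
  have h1 := ci_vtx hM hC hd
  have h2 := ci_vtx hM hC' hd'
  rw [← h] at h2
  have e1 : (0 : Fin 4) + 1 = 1 := rfl
  have e2 : (2 : Fin 4) + 1 = 3 := rfl
  rw [e1] at h1
  rw [e2] at h2
  rcases h1 with h1 | h1 <;> rcases h2 with h2 | h2
  · exact Finset.disjoint_left.1 (hM.disj 0 2 (by decide)) h1 h2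
  · exact Finset.disjoint_left.1 (hM.disj 0 3 (by decide)) h1 h2
  · exact Finset.disjoint_left.1 (hM.disj 1 2 (by decide)) h1 h2
  · exact Finset.disjoint_left.1 (hM.disj 1 3 (by decide)) h1 h2

/-- the extension of `ρ` to the apex -/
def rho (ρ : V → E → ZMod 2) (o : Option V) (e : E) : ZMod 2 := o.elim 0 fun v => ρ v e

variable [DecidableEq V] [DecidableEq E]

/-- the prescribed linking numbers -/
noncomputable def lf (G : Gr V E) (x : Option V → ℝ) (ρ : V → E → ZMod 2) :
    E ⊕ V → E ⊕ V → ZMod 2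
  | Sum.inl e, f => ∑ b : Bool, rho ρ ((cone G).vt (f, b)) e
  | Sum.inr v, Sum.inl f => (∑ b : Bool, rho ρ ((cone G).vt (Sum.inr v, b)) f) +
      X4 (cone G).vt x (Sum.inl f) (Sum.inr v)
  | Sum.inr _, Sum.inr _ => 0

/-- the double sum for two cycles -/
noncomputable def DD (l : E ⊕ V → E ⊕ V → ZMod 2) (c c' : List (Dart (E ⊕ V))) : ZMod 2 :=
  (c.map fun d => (c'.map fun d' => l d.1 d'.1).sum).sum

lemma DD_zero {G : Gr V E} {x : Option V → ℝ} {ρ : V → E → ZMod 2} {c c' : List (Dart (E ⊕ V))}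
    (hc : IsCyc (cone G) c) (hc' : IsCyc (cone G) c') (h : ∀ d ∈ c, (cone G).vt d ≠ none) :
    DD (lf G x ρ) c c' = 0 := by
  unfold DD
  apply sum_zero
  intro d hd
  obtain ⟨e | v, b⟩ := d
  · exact cyc_sum hc' (fun o => rho ρ o e)
  · exfalso
    cases b
    · exact h _ hd rfl
    · obtain ⟨d', h1, h2⟩ := end_mem hc hd
      exact h d' h1 h2

lemma DD_swap {G : Gr V E} {x : Option V → ℝ} {l : E ⊕ V → E ⊕ V → ZMod 2}
    {c c' : List (Dart (E ⊕ V))} (hc' : IsCyc (cone G) c')
    (hl : ∀ d ∈ c, ∀ d' ∈ c', l d.1 d'.1 + l d'.1 d.1 = X4 (cone G).vt x d.1 d'.1) :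
    DD l c c' = DD l c' c := by
  unfold DD
  rw [sum_swap c' c]
  have h1 : (c.map fun d => (c'.map fun d' => l d.1 d'.1).sum) =
      c.map fun d => (c'.map fun d' => l d'.1 d.1).sum + (c'.map fun d' => X4 (cone G).vt x d.1 d'.1).sum := by
    apply List.map_congr_left
    intro d hd
    rw [← List.sum_map_add]
    congr 1
    apply List.map_congr_left
    intro d' hd'
    rw [← hl d hd d' hd']
    have : ∀ a b : ZMod 2, a = b + (a + b) := by decide
    exact this _ _
  rw [h1, List.sum_map_add]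
  have h2 : (c.map fun d => (c'.map fun d' => X4 (cone G).vt x d.1 d'.1).sum).sum = 0 :=
    sum_zero _ _ (fun d _ => X4_sum hc' x d.1)
  rw [h2, add_zero]

end CNBM

open CNBM in
theorem specCNB (hLKD : SpecLKD) : SpecCNB := by
  intro V E _ _ G hG
  obtain ⟨x, ρ, hx, hρ⟩ := hG
  obtain ⟨y, hy⟩ := Infinite.exists_notMem_finset ((G.vs G.X).image x)
  have hy' : ∀ v ∈ G.vs G.X, x v ≠ y := fun v hv h => hy (Finset.mem_image.2 ⟨v, hv, h⟩)
  have hmv : ∀ d : Dart E, d.1 ∈ G.X → G.vt d ∈ G.vs G.X := by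
    intro d hd
    unfold Gr.vs
    exact Finset.mem_image.2 ⟨d, by simp [hd], rfl⟩
  have hvs : ∀ v ∈ G.vs G.X, ∃ d : Dart E, d.1 ∈ G.X ∧ G.vt d = v := by
    intro v hv
    unfold Gr.vs at hv
    obtain ⟨d, hd, h⟩ := Finset.mem_image.1 hv
    exact ⟨d, by simpa using hd, h⟩
  set x' : Option V → ℝ := fun o => o.elim y x with hx'def
  -- the vertices of the cone
  have hcv : ∀ d : Dart (E ⊕ V), d.1 ∈ (cone G).X → (cone G).vt d = none ∨
      ∃ v ∈ G.vs G.X, (cone G).vt d = some v := by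
    rintro ⟨e | v, b⟩ hd
    · have he : e ∈ G.X := by simpa [cone] using hd
      exact Or.inr ⟨_, hmv (e, b) he, rfl⟩
    · have he : v ∈ G.vs G.X := by simpa [cone] using hd
      cases b
      · exact Or.inl rfl
      · exact Or.inr ⟨v, he, rfl⟩
  have hx' : ∀ d d' : Dart (E ⊕ V), d.1 ∈ (cone G).X → d'.1 ∈ (cone G).X →
      x' ((cone G).vt d) = x' ((cone G).vt d') → (cone G).vt d = (cone G).vt d' := by
    intro d d' hd hd' h
    rcases hcv d hd with h1 | ⟨v, hv, h1⟩ <;> rcases hcv d' hd' with h2 | ⟨w, hw, h2⟩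
    · rw [h1, h2]
    · rw [h1, h2] at h
      exact absurd h.symm (hy' w hw)
    · rw [h1, h2] at h
      exact absurd h (hy' v hv)
    · rw [h1, h2] at h ⊢
      obtain ⟨a, ha, rfl⟩ := hvs v hv
      obtain ⟨b, hb, rfl⟩ := hvs w hw
      rw [hx a b ha hb h]
  have hl : ∀ e ∈ (cone G).X, ∀ f ∈ (cone G).X,
      (∀ b b', (cone G).vt (e, b) ≠ (cone G).vt (f, b')) →
      lf G x' ρ e f + lf G x' ρ f e = X4 (cone G).vt x' e f := by
    rintro (e | v) he (f | w) hf hd
    · have he' : e ∈ G.X := by simpa [cone] using he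
      have hf' : f ∈ G.X := by simpa [cone] using hf
      exact hρ e he' f hf' (fun b b' h => hd b b' (congrArg some h))
    · have : ∀ a b : ZMod 2, a + (a + b) = b := by decide
      exact this _ _
    · have h1 : ∀ a b : ZMod 2, a + b + a = b := by decide
      have h2 : X4 (cone G).vt x' (Sum.inr v) (Sum.inl f) =
          X4 (cone G).vt x' (Sum.inl f) (Sum.inr v) := by
        apply X4_symm
        intro b b' h
        exact hd b b' (hx' _ _ he hf h)
      rw [h2]
      exact h1 _ _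
    · exact absurd rfl (hd false false)
  obtain ⟨bot, W, top, hdia, hlk⟩ := hLKD (cone G) x' (lf G x' ρ) hx' (by
    intro e he f hf hd
    exact hl e he f hf hd)
  refine ⟨bot, W, top, hdia, ?_⟩
  intro M hM C hC
  have hdj := ci_dj hM (hC 0) (hC 2)
  have hc := (hC 0).cyc
  have hc' := (hC 2).cyc
  have h0 : lk W (C 0) (C 2) = DD (lf G x' ρ) (C 0) (C 2) := hlk _ _ hc hc' hdj
  have hsym : ∀ d ∈ C 0, ∀ d' ∈ C 2, lf G x' ρ d.1 d'.1 + lf G x' ρ d'.1 d.1 =
      X4 (cone G).vt x' d.1 d'.1 := by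
    intro d hd d' hd'
    refine hl _ (hc.mem d hd) _ (hc'.mem d' hd') ?_
    intro b b' h
    obtain ⟨a, ha, ha'⟩ := edge_end hc hd b
    obtain ⟨a2, ha2, ha2'⟩ := edge_end hc' hd' b'
    exact hdj a ha a2 ha2 (by rw [ha', ha2', h])
  have hz : DD (lf G x' ρ) (C 0) (C 2) = 0 := by
    by_cases h : ∀ d ∈ C 0, (cone G).vt d ≠ none
    · exact DD_zero hc hc' h
    · push Not at h
      obtain ⟨d, hd, hdn⟩ := h
      rw [DD_swap hc' hsym]
      refine DD_zero hc' hc (fun d' hd' h' => hdj d hd d' hd' (hdn.trans h'.symm))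
  rw [h0, hz, zero_mul]

end Pool.Agent.Lib.MP3ff0f8.T
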