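import Pool.Agent.Lib.MP_3ff0f8_gt.T.Spec

/-!
# Module CNC: the cone over a graph with a subdivision of `K₄`
-/

namespace Pool.Agent.Lib.MP3ff0f8.T

namespace CNCM

variable {V E : Type}

lemma ch_mem {G : Gr V E} : ∀ (P : List (Dart E)) (s t : V), Ch G s P t → ∀ d ∈ P, d.1 ∈ G.X := by
  intro P
  induction P with
  | nil => intro s t _ d hd; simp at hd
  | cons a P ih =>
    intro s t h d hd
    rcases List.mem_cons.1 hd with rfl | hd
    · exact h.1
    · exact ih _ _ h.2.2 d hd

/-- the vertices of the darts of a chain are on the chain -/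
lemma ch_vtx {G : Gr V E} : ∀ (P : List (Dart E)) (s t : V), Ch G s P t → ∀ d ∈ P,
    G.vt d ∈ cvs G s P ∧ G.vt (rv d) ∈ cvs G s P := by
  intro P
  induction P with
  | nil => intro s t _ d hd; simp at hd
  | cons a P ih =>
    intro s t h d hd
    rcases List.mem_cons.1 hd with rfl | hd
    · rw [h.2.1]
      simp [cvs]
    · have h1 := ih _ _ h.2.2 d hd
      have hsub : ∀ u, u ∈ cvs G (G.vt (rv a)) P → u ∈ cvs G s (a :: P) := by
        intro u hu
        simp only [cvs, List.map_cons, List.mem_cons] at hu ⊢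
        exact Or.inr hu
      exact ⟨hsub _ h1.1, hsub _ h1.2⟩

lemma ch_start (G : Gr V E) (P : List (Dart E)) (s : V) : s ∈ cvs G s P := by
  simp [cvs]

lemma ch_end {G : Gr V E} : ∀ (P : List (Dart E)) (s t : V), Ch G s P t → t ∈ cvs G s P := by
  intro P
  induction P with
  | nil => intro s t h; rw [← (show s = t from h)]; exact ch_start G [] s
  | cons a P ih =>
    intro s t h
    have := ih _ _ h.2.2
    simp only [cvs, List.map_cons, List.mem_cons] at this ⊢
    exact Or.inr this

/-- sum over the ends of the edges of a chain -/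
lemma ch_sum {G : Gr V E} (f : V → ZMod 2) : ∀ (P : List (Dart E)) (s t : V), Ch G s P t →
    (P.map fun d => ∑ b : Bool, f (G.vt (d.1, b))).sum = f s + f t := by
  intro P
  induction P with
  | nil =>
    intro s t h
    rw [← (show s = t from h)]
    simp only [List.map_nil, List.sum_nil]
    exact (CharTwo.add_self_eq_zero _).symm
  | cons a P ih =>
    intro s t h
    have h1 := ih _ _ h.2.2
    rw [List.map_cons, List.sum_cons, h1]
    have h2 : ∑ b : Bool, f (G.vt (a.1, b)) = f s + f (G.vt (rv a)) := by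
      rw [← h.2.1]
      obtain ⟨e, b⟩ := a
      rw [Fintype.sum_bool]
      cases b
      · exact add_comm _ _
      · rfl
    rw [h2]
    have : ∀ a b c : ZMod 2, a + b + (b + c) = a + c := by decide
    exact this _ _ _

lemma edge_vt {d : Dart E} {vt : Dart E → V} (b : Bool) :
    vt (d.1, b) = vt d ∨ vt (d.1, b) = vt (rv d) := by
  obtain ⟨e, c⟩ := d
  cases b <;> cases c <;> simp [rv]

lemma sum_swap {α β : Type} (l : List α) (m : List β) (f : α → β → ZMod 2) :
    (l.map fun a => (m.map fun b => f a b).sum).sum =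
      (m.map fun b => (l.map fun a => f a b).sum).sum := by
  induction l with
  | nil => simp
  | cons a l ih =>
    simp only [List.map_cons, List.sum_cons]
    rw [ih, ← List.sum_map_add]

/-- indicator of an inequality -/
noncomputable def lt (a b : ℝ) : ZMod 2 := if a < b then 1 else 0

lemma lt_add {a b : ℝ} (h : a ≠ b) : lt a b + lt b a = 1 := by
  unfold lt
  rcases lt_or_gt_of_ne h with h | h
  · rw [if_pos h, if_neg (not_lt.2 h.le)]; rfl
  · rw [if_neg (not_lt.2 h.le), if_pos h]; rfl

variable [DecidableEq V] [DecidableEq E]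

/-- the sum of `ρ v` over a chain -/
def R (ρ : Option V → E ⊕ V → ZMod 2) (v : Option V) (P : List (Dart E)) : ZMod 2 :=
  (P.map fun d => ρ v (Sum.inl d.1)).sum

/-- the terms of the equation for an apex edge -/
noncomputable def Fk (x : Option V → ℝ) (ρ : Option V → E ⊕ V → ZMod 2) (k i : V) : ZMod 2 :=
  ρ (some i) (Sum.inr k) + lt (x (some i)) (x none) + lt (x (some i)) (x (some k))

/-- two opposite chains -/
lemma opp {G : Gr V E} {x : Option V → ℝ} {ρ : Option V → E ⊕ V → ZMod 2}
    (hρ : ∀ e ∈ (cone G).X, ∀ f ∈ (cone G).X,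
      (∀ b b', (cone G).vt (e, b) ≠ (cone G).vt (f, b')) →
      (∑ b : Bool, ρ ((cone G).vt (f, b)) e) + (∑ b : Bool, ρ ((cone G).vt (e, b)) f) =
        ∑ b : Bool, ∑ b' : Bool, if x ((cone G).vt (e, b)) < x ((cone G).vt (f, b')) then 1 else 0)
    {P Q : List (Dart E)} {i j k l : V} (hP : Ch G i P j) (hQ : Ch G k Q l)
    (hd : ∀ u ∈ cvs G i P, u ∉ cvs G k Q) :
    R ρ (some k) P + R ρ (some l) P + (R ρ (some i) Q + R ρ (some j) Q) =
      lt (x (some i)) (x (some k)) + lt (x (some i)) (x (some l)) +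
      (lt (x (some j)) (x (some k)) + lt (x (some j)) (x (some l))) := by
  -- the equation for two darts
  have h1 : ∀ d ∈ P, ∀ d' ∈ Q, (∑ b : Bool, ρ (some (G.vt (d'.1, b))) (Sum.inl d.1)) +
      (∑ b : Bool, ρ (some (G.vt (d.1, b))) (Sum.inl d'.1)) =
      ∑ b : Bool, ∑ b' : Bool, lt (x (some (G.vt (d.1, b)))) (x (some (G.vt (d'.1, b')))) := by
    intro d hdP d' hdQ
    refine hρ (Sum.inl d.1) (by simp [cone, ch_mem P i j hP d hdP]) (Sum.inl d'.1)
      (by simp [cone, ch_mem Q k l hQ d' hdQ]) ?_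
    intro b b' h
    have h' : G.vt (d.1, b) = G.vt (d'.1, b') := Option.some.inj h
    have a1 := ch_vtx P i j hP d hdP
    have a2 := ch_vtx Q k l hQ d' hdQ
    have b1 : G.vt (d.1, b) ∈ cvs G i P := by
      rcases edge_vt (vt := G.vt) (d := d) b with h | h <;> rw [h]
      · exact a1.1
      · exact a1.2
    have b2 : G.vt (d'.1, b') ∈ cvs G k Q := by
      rcases edge_vt (vt := G.vt) (d := d') b' with h | h <;> rw [h]
      · exact a2.1
      · exact a2.2
    rw [← h'] at b2
    exact hd _ b1 b2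
  -- sum over all pairs
  have h2 : (P.map fun d => (Q.map fun d' =>
      (∑ b : Bool, ρ (some (G.vt (d'.1, b))) (Sum.inl d.1))).sum).sum +
      (P.map fun d => (Q.map fun d' =>
      (∑ b : Bool, ρ (some (G.vt (d.1, b))) (Sum.inl d'.1))).sum).sum =
      (P.map fun d => (Q.map fun d' =>
      ∑ b : Bool, ∑ b' : Bool, lt (x (some (G.vt (d.1, b)))) (x (some (G.vt (d'.1, b'))))).sum).sum := by
    rw [← List.sum_map_add]
    congr 1
    apply List.map_congr_left
    intro d hdP
    rw [← List.sum_map_add]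
    congr 1
    apply List.map_congr_left
    intro d' hdQ
    exact h1 d hdP d' hdQ
  have h3 : (P.map fun d => (Q.map fun d' =>
      (∑ b : Bool, ρ (some (G.vt (d'.1, b))) (Sum.inl d.1))).sum).sum =
      R ρ (some k) P + R ρ (some l) P := by
    unfold R
    rw [← List.sum_map_add]
    congr 1
    apply List.map_congr_left
    intro d _
    exact ch_sum (fun v => ρ (some v) (Sum.inl d.1)) Q k l hQ
  have h4 : (P.map fun d => (Q.map fun d' =>
      (∑ b : Bool, ρ (some (G.vt (d.1, b))) (Sum.inl d'.1))).sum).sum =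
      R ρ (some i) Q + R ρ (some j) Q := by
    unfold R
    rw [sum_swap, ← List.sum_map_add]
    congr 1
    apply List.map_congr_left
    intro d' _
    exact ch_sum (fun v => ρ (some v) (Sum.inl d'.1)) P i j hP
  have h5 : (P.map fun d => (Q.map fun d' =>
      ∑ b : Bool, ∑ b' : Bool, lt (x (some (G.vt (d.1, b)))) (x (some (G.vt (d'.1, b'))))).sum).sum =
      lt (x (some i)) (x (some k)) + lt (x (some i)) (x (some l)) +
      (lt (x (some j)) (x (some k)) + lt (x (some j)) (x (some l))) := by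
    have h6 : (P.map fun d => (Q.map fun d' =>
        ∑ b : Bool, ∑ b' : Bool, lt (x (some (G.vt (d.1, b)))) (x (some (G.vt (d'.1, b'))))).sum) =
        P.map fun d => ∑ b : Bool, (fun v => lt (x (some v)) (x (some k)) +
          lt (x (some v)) (x (some l))) (G.vt (d.1, b)) := by
      apply List.map_congr_left
      intro d _
      have h7 : (Q.map fun d' => ∑ b : Bool, ∑ b' : Bool,
          lt (x (some (G.vt (d.1, b)))) (x (some (G.vt (d'.1, b'))))) =
          Q.map fun d' => ∑ b' : Bool, (fun v => ∑ b : Bool,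
            lt (x (some (G.vt (d.1, b)))) (x (some v))) (G.vt (d'.1, b')) := by
        apply List.map_congr_left
        intro d' _
        rw [Finset.sum_comm]
      rw [h7, ch_sum (fun v => ∑ b : Bool, lt (x (some (G.vt (d.1, b)))) (x (some v))) Q k l hQ,
        ← Finset.sum_add_distrib]
    rw [h6]
    exact ch_sum (fun v => lt (x (some v)) (x (some k)) + lt (x (some v)) (x (some l))) P i j hP
  rw [h3, h4, h5] at h2
  exact h2

/-- a chain and an apex edge -/
lemma apex {G : Gr V E} {x : Option V → ℝ} {ρ : Option V → E ⊕ V → ZMod 2}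
    (hρ : ∀ e ∈ (cone G).X, ∀ f ∈ (cone G).X,
      (∀ b b', (cone G).vt (e, b) ≠ (cone G).vt (f, b')) →
      (∑ b : Bool, ρ ((cone G).vt (f, b)) e) + (∑ b : Bool, ρ ((cone G).vt (e, b)) f) =
        ∑ b : Bool, ∑ b' : Bool, if x ((cone G).vt (e, b)) < x ((cone G).vt (f, b')) then 1 else 0)
    {P : List (Dart E)} {i j k : V} (hk : k ∈ G.vs G.X) (hP : Ch G i P j)
    (hd : k ∉ cvs G i P) :
    R ρ none P + R ρ (some k) P = Fk x ρ k i + Fk x ρ k j := by
  have h1 : ∀ d ∈ P, ρ none (Sum.inl d.1) + ρ (some k) (Sum.inl d.1) =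
      ∑ b : Bool, (fun v => ρ (some v) (Sum.inr k) + lt (x (some v)) (x none) +
        lt (x (some v)) (x (some k))) (G.vt (d.1, b)) := by
    intro d hdP
    have h2 := hρ (Sum.inl d.1) (by simp [cone, ch_mem P i j hP d hdP]) (Sum.inr k)
      (by simpa [cone] using hk) (by
        intro b b' h
        cases b'
        · exact absurd h (by simp [cone])
        · have h' : G.vt (d.1, b) = k := Option.some.inj h
          have a1 := ch_vtx P i j hP d hdP
          have b1 : G.vt (d.1, b) ∈ cvs G i P := by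
            rcases edge_vt (vt := G.vt) (d := d) b with h | h <;> rw [h]
            · exact a1.1
            · exact a1.2
          rw [h'] at b1
          exact hd b1)
    have h3 : ∑ b : Bool, ρ ((cone G).vt (Sum.inr k, b)) (Sum.inl d.1) =
        ρ none (Sum.inl d.1) + ρ (some k) (Sum.inl d.1) := by
      rw [Fintype.sum_bool]
      exact add_comm _ _
    have h4 : (∑ b : Bool, ∑ b' : Bool, if x ((cone G).vt (Sum.inl d.1, b)) <
        x ((cone G).vt (Sum.inr k, b')) then (1 : ZMod 2) else 0) =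
        ∑ b : Bool, (lt (x (some (G.vt (d.1, b)))) (x none) +
          lt (x (some (G.vt (d.1, b)))) (x (some k))) := by
      apply Finset.sum_congr rfl
      intro b _
      rw [Fintype.sum_bool]
      exact add_comm _ _
    rw [h3, h4] at h2
    have h5 : ∀ a b c : ZMod 2, a + b = c → a = b + c := by decide
    rw [h5 _ _ _ h2, ← Finset.sum_add_distrib]
    apply Finset.sum_congr rfl
    intro b _
    exact (add_assoc _ _ _).symm
  unfold R
  rw [← List.sum_map_add, List.map_congr_left h1]
  exact ch_sum (fun v => ρ (some v) (Sum.inr k) + lt (x (some v)) (x none) +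
        lt (x (some v)) (x (some k))) P i j hP

end CNCM

open CNCM in
theorem specCNC : SpecCNC := by
  intro V E _ _ G hK hA
  obtain ⟨w, P, hP, hd⟩ := hK
  obtain ⟨x, ρ, hx, hρ⟩ := hA
  have s : ∀ i j, w i ∈ cvs G (w i) (P i j) := fun i j => ch_start G _ _
  have t : ∀ i j, i < j → w j ∈ cvs G (w i) (P i j) := fun i j h => ch_end _ _ _ (hP i j h)
  -- the opposite chains
  have d1 := hd 0 1 2 3 (by decide) (by decide) (by decide) (by decide) (by decide) (by decide)
  have d1' := hd 2 3 0 1 (by decide) (by decide) (by decide) (by decide) (by decide) (by decide)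
  have d2 := hd 0 2 1 3 (by decide) (by decide) (by decide) (by decide) (by decide) (by decide)
  have d2' := hd 1 3 0 2 (by decide) (by decide) (by decide) (by decide) (by decide) (by decide)
  have d3 := hd 0 3 1 2 (by decide) (by decide) (by decide) (by decide) (by decide) (by decide)
  have d3' := hd 1 2 0 3 (by decide) (by decide) (by decide) (by decide) (by decide) (by decide)
  have p01 := hP 0 1 (by decide)
  have p02 := hP 0 2 (by decide)
  have p03 := hP 0 3 (by decide)
  have p12 := hP 1 2 (by decide)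
  have p13 := hP 1 3 (by decide)
  have p23 := hP 2 3 (by decide)
  -- the vertices are different
  have n01 : w 0 ≠ w 1 := fun h => d2 _ (s 0 2) (by rw [h]; exact s 1 3)
  have n02 : w 0 ≠ w 2 := fun h => d1 _ (s 0 1) (by rw [h]; exact s 2 3)
  have n03 : w 0 ≠ w 3 := fun h => d1 _ (s 0 1) (by rw [h]; exact t 2 3 (by decide))
  have n12 : w 1 ≠ w 2 := fun h => d1 _ (t 0 1 (by decide)) (by rw [h]; exact s 2 3)
  have n13 : w 1 ≠ w 3 := fun h => d1 _ (t 0 1 (by decide)) (by rw [h]; exact t 2 3 (by decide))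
  have n23 : w 2 ≠ w 3 := fun h => d2 _ (t 0 2 (by decide)) (by rw [h]; exact t 1 3 (by decide))
  -- and they are vertices of edges
  have hv : ∀ (i j : V) (Q : List (Dart E)), Ch G i Q j → i ≠ j → i ∈ G.vs G.X ∧ j ∈ G.vs G.X := by
    intro i j Q
    have hmv : ∀ d : Dart E, d.1 ∈ G.X → G.vt d ∈ G.vs G.X := by
      intro d hd
      unfold Gr.vs
      exact Finset.mem_image.2 ⟨d, by simp [hd], rfl⟩
    induction Q generalizing i with
    | nil => intro h h'; exact absurd h h'
    | cons a Q ih =>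
      intro h h'
      refine ⟨by rw [← h.2.1]; exact hmv a h.1, ?_⟩
      by_cases h2 : G.vt (rv a) = j
      · rw [← h2]; exact hmv (rv a) h.1
      · exact (ih _ h.2.2 h2).2
  have v0 := (hv _ _ _ p01 n01).1
  have v1 := (hv _ _ _ p01 n01).2
  have v2 := (hv _ _ _ p02 n02).2
  have v3 := (hv _ _ _ p03 n03).2
  have hxn : ∀ a b : V, a ∈ G.vs G.X → b ∈ G.vs G.X → a ≠ b → x (some a) ≠ x (some b) := by
    intro a b ha hb hab h
    apply hab
    have := hx (Sum.inr a, true) (Sum.inr b, true) (by simpa [cone] using ha)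
      (by simpa [cone] using hb) h
    exact Option.some.inj this
  -- the three equations for opposite chains
  have e1 := opp hρ p01 p23 d1
  have e2 := opp hρ p02 p13 d2
  have e3 := opp hρ p03 p12 d3
  -- the order
  have l12 := lt_add (hxn _ _ v1 v2 n12)
  have l13 := lt_add (hxn _ _ v1 v3 n13)
  have l23 := lt_add (hxn _ _ v2 v3 n23)
  -- the apex edges
  have a01_2 := apex hρ v2 p01 (fun h => d1 _ h (s 2 3))
  have a01_3 := apex hρ v3 p01 (fun h => d1 _ h (t 2 3 (by decide)))
  have a23_0 := apex hρ v0 p23 (fun h => d1' _ h (s 0 1))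
  have a23_1 := apex hρ v1 p23 (fun h => d1' _ h (t 0 1 (by decide)))
  have a02_1 := apex hρ v1 p02 (fun h => d2 _ h (s 1 3))
  have a02_3 := apex hρ v3 p02 (fun h => d2 _ h (t 1 3 (by decide)))
  have a13_0 := apex hρ v0 p13 (fun h => d2' _ h (s 0 2))
  have a13_2 := apex hρ v2 p13 (fun h => d2' _ h (t 0 2 (by decide)))
  have a03_1 := apex hρ v1 p03 (fun h => d3 _ h (s 1 2))
  have a03_2 := apex hρ v2 p03 (fun h => d3 _ h (t 1 2 (by decide)))
  have a12_0 := apex hρ v0 p12 (fun h => d3' _ h (s 0 3))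
  have a12_3 := apex hρ v3 p12 (fun h => d3' _ h (t 0 3 (by decide)))
  have two : (2 : ZMod 2) = 0 := rfl
  -- per chain
  have key : ∀ (N a b u v : ZMod 2), N + a = u → N + b = v → a + b = u + v := by decide
  have c01 := key _ _ _ _ _ a01_2 a01_3
  have c23 := key _ _ _ _ _ a23_0 a23_1
  have c02 := key _ _ _ _ _ a02_1 a02_3
  have c13 := key _ _ _ _ _ a13_0 a13_2
  have c03 := key _ _ _ _ _ a03_1 a03_2
  have c12 := key _ _ _ _ _ a12_0 a12_3
  rw [c01, c23] at e1
  rw [c02, c13] at e2
  rw [c03, c12] at e3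
  have hfin : (1 : ZMod 2) = 0 := by
    linear_combination (-1) * (e1 + e2 + e3) - l12 - l13 - l23 + (
      Fk x ρ (w 2) (w 0) + Fk x ρ (w 2) (w 1) + Fk x ρ (w 3) (w 0) + Fk x ρ (w 3) (w 1) +
      Fk x ρ (w 0) (w 2) + Fk x ρ (w 0) (w 3) + Fk x ρ (w 1) (w 2) + Fk x ρ (w 1) (w 3) +
      Fk x ρ (w 1) (w 0) + Fk x ρ (w 3) (w 2) + Fk x ρ (w 0) (w 1) + Fk x ρ (w 2) (w 3) -
      (lt (x (some (w 0))) (x (some (w 1))) + lt (x (some (w 0))) (x (some (w 2))) +
      lt (x (some (w 0))) (x (some (w 3)))) - 1) * two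
  exact absurd hfin (by decide)

end Pool.Agent.Lib.MP3ff0f8.T
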