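import Pool.Agent.Lib.MP_3ff0f8_gt.T.Spec

/-!
# MP_3ff0f8_gt, topological half: module DFB (base of the `D₄` lemma)
-/

namespace Pool.Agent.Lib.MP3ff0f8.T

namespace DFBM

open Finset

/-- sums over `ε` of functions invariant under the change of one coordinate vanish -/
lemma sum_flip (f : (Fin 4 → Bool) → ZMod 2) (j : Fin 4)
    (h : ∀ ε, f (Function.update ε j (!(ε j))) = f ε) : ∑ ε, f ε = 0 := by
  refine Finset.sum_involution (fun ε _ => Function.update ε j (!(ε j))) ?_ ?_ ?_ ?_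
  · intro ε _
    rw [h]
    exact CharTwo.add_self_eq_zero _
  · intro ε _ _ he
    have := congrFun he j
    simp at this
  · intro ε _
    exact Finset.mem_univ _
  · intro ε _
    simp

/-- `f` depends only on the coordinate `j` -/
def Dep (f : (Fin 4 → Bool) → ZMod 2) (j : Fin 4) : Prop := ∀ ε ε', ε j = ε' j → f ε = f ε'

lemma exists_ne3 : ∀ a b c : Fin 4, ∃ j : Fin 4, a ≠ j ∧ b ≠ j ∧ c ≠ j := by decide

lemma sum_three {f g h : (Fin 4 → Bool) → ZMod 2} {a b c : Fin 4} (hf : Dep f a) (hg : Dep g b)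
    (hh : Dep h c) : ∑ ε, f ε * g ε * h ε = 0 := by
  obtain ⟨j, h1, h2, h3⟩ := exists_ne3 a b c
  apply sum_flip _ j
  intro ε
  rw [hf (Function.update ε j (!(ε j))) ε (Function.update_of_ne h1 _ _),
    hg (Function.update ε j (!(ε j))) ε (Function.update_of_ne h2 _ _),
    hh (Function.update ε j (!(ε j))) ε (Function.update_of_ne h3 _ _)]

/-! ### The abstract curve -/

/-- abstract strands: index of the bead, bead, direction -/
abbrev A := Fin 4 × Bool × Bool

/-- the curve -/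
def ca (ε : Fin 4 → Bool) : List (A × Bool) :=
  [((0, ε 0, true), true), ((0, ε 0, false), false), ((1, ε 1, true), true),
   ((1, ε 1, false), false), ((2, ε 2, true), true), ((2, ε 2, false), false),
   ((3, ε 3, true), true), ((3, ε 3, false), false)]

lemma on_ca (ε : Fin 4 → Bool) (x : A) : on (ca ε) x ↔ x.2.1 = ε x.1 := by
  obtain ⟨i, b, u⟩ := x
  fin_cases i <;> cases u <;> simp [on, ca]

lemma idx_ca (ε : Fin 4 → Bool) (x : A) (h : x.2.1 = ε x.1) :
    idx (ca ε) x = 2 * x.1.val + (if x.2.2 then 0 else 1) := by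
  obtain ⟨i, b, u⟩ := x
  simp only at h
  subst h
  fin_cases i <;> cases u <;> simp [idx, ca]

lemma mem_ca_true (ε : Fin 4 → Bool) (x : A) : (x, true) ∈ ca ε ↔ x.2.1 = ε x.1 ∧ x.2.2 = true := by
  obtain ⟨i, b, u⟩ := x
  fin_cases i <;> cases u <;> simp [ca]

lemma mem_ca_false (ε : Fin 4 → Bool) (x : A) :
    (x, false) ∈ ca ε ↔ x.2.1 = ε x.1 ∧ x.2.2 = false := by
  obtain ⟨i, b, u⟩ := x
  fin_cases i <;> cases u <;> simp [ca]

/-- abstract position -/
def ky (x : A) : ℕ := 2 * x.1.val + (if x.2.2 then 0 else 1)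

/-- abstract `l01` -/
def k01 (p r : A) : Prop := ky p < ky r ∨ (p.1 = r.1 ∧ p.2.2 = true ∧ r.2.2 = true)

/-- abstract `l10` -/
def k10 (p r : A) : Prop := ky p < ky r ∨ (p.1 = r.1 ∧ p.2.2 = false ∧ r.2.2 = false)

instance (p r : A) : Decidable (k01 p r) := by unfold k01; infer_instance
instance (p r : A) : Decidable (k10 p r) := by unfold k10; infer_instance

/-- both strands on the curve -/
def onn (ε : Fin 4 → Bool) (x : A) : Prop := x.2.1 = ε x.1

instance (ε : Fin 4 → Bool) (x : A) : Decidable (onn ε x) := by unfold onn; infer_instance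

lemma l01_ca {ε : Fin 4 → Bool} {p r : A} (hp : onn ε p) (hr : onn ε r) :
    l01 (ca ε) p r ↔ k01 p r := by
  unfold l01 k01
  rw [idx_ca ε p hp, idx_ca ε r hr, mem_ca_true]
  unfold onn at hp hr
  unfold ky
  apply or_congr Iff.rfl
  constructor
  · rintro ⟨rfl, _, h⟩
    exact ⟨rfl, h, h⟩
  · rintro ⟨h1, h2, h3⟩
    refine ⟨?_, hp, h2⟩
    ext1
    · exact h1
    · ext1
      · rw [hp, hr, h1]
      · rw [h2, h3]

lemma l10_ca {ε : Fin 4 → Bool} {p r : A} (hp : onn ε p) (hr : onn ε r) :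
    l10 (ca ε) p r ↔ k10 p r := by
  unfold l10 k10
  rw [idx_ca ε p hp, idx_ca ε r hr, mem_ca_false]
  unfold onn at hp hr
  unfold ky
  apply or_congr Iff.rfl
  constructor
  · rintro ⟨rfl, _, h⟩
    exact ⟨rfl, h, h⟩
  · rintro ⟨h1, h2, h3⟩
    refine ⟨?_, hp, h2⟩
    ext1
    · exact h1
    · ext1
      · rw [hp, hr, h1]
      · rw [h2, h3]

/-- abstract value -/
def KK (z w : A × A) : ZMod 2 :=
  (if k01 z.1 w.2 ∧ k10 w.2 z.2 ∧ k01 z.2 w.1 then 1 else 0) +
    (if k10 w.1 z.2 ∧ k01 z.2 w.2 ∧ k10 w.2 z.1 then 1 else 0)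

lemma bet_ca (ε : Fin 4 → Bool) (z w : A × A) :
    bet (ca ε) z w = if onn ε z.1 ∧ onn ε z.2 ∧ onn ε w.1 ∧ onn ε w.2 then KK z w else 0 := by
  unfold bet
  simp only [on_ca]
  change (if onn ε z.1 ∧ onn ε z.2 ∧ onn ε w.1 ∧ onn ε w.2 then _ else _) = _
  by_cases h : onn ε z.1 ∧ onn ε z.2 ∧ onn ε w.1 ∧ onn ε w.2
  · rw [if_pos h, if_pos h]
    obtain ⟨h1, h2, h3, h4⟩ := h
    unfold KK
    simp only [l01_ca h1 h4, l10_ca h4 h2, l01_ca h2 h3, l10_ca h3 h2, l01_ca h2 h4, l10_ca h4 h1]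
  · rw [if_neg h, if_neg h]

/-- first kind of events -/
def PA (z : A × A) : ZMod 2 := if z.1.1 = 0 ∧ z.2.1 = 2 then 1 else 0

/-- second kind of events -/
def QA (z : A × A) : ZMod 2 := if z.1.1 = 3 ∧ z.2.1 = 1 then 1 else 0

lemma k01_ne {p r : A} (h : p.1 ≠ r.1) : k01 p r ↔ p.1 < r.1 := by
  unfold k01 ky
  have : p.1.val ≠ r.1.val := fun h' => h (Fin.ext h')
  rw [Fin.lt_def]
  constructor
  · rintro (h1 | ⟨h1, -⟩)
    · split_ifs at h1 <;> omega
    · exact absurd h1 h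
  · intro h1
    left
    split_ifs <;> omega

lemma k10_ne {p r : A} (h : p.1 ≠ r.1) : k10 p r ↔ p.1 < r.1 := by
  unfold k10 ky
  have : p.1.val ≠ r.1.val := fun h' => h (Fin.ext h')
  rw [Fin.lt_def]
  constructor
  · rintro (h1 | ⟨h1, -⟩)
    · split_ifs at h1 <;> omega
    · exact absurd h1 h
  · intro h1
    left
    split_ifs <;> omega

lemma four : ∀ a b c d : Fin 4, (∀ j : Fin 4, j = a ∨ j = b ∨ j = c ∨ j = d) →
    (a ≠ b ∧ a ≠ c ∧ a ≠ d ∧ b ≠ c ∧ b ≠ d ∧ c ≠ d) ∧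
    ((if a < d ∧ d < b ∧ b < c then (1 : ZMod 2) else 0) +
      (if c < b ∧ b < d ∧ d < a then 1 else 0) =
      (if a = 0 ∧ b = 2 then 1 else 0) * (if c = 3 ∧ d = 1 then 1 else 0) +
      (if a = 3 ∧ b = 1 then 1 else 0) * (if c = 0 ∧ d = 2 then 1 else 0)) := by decide

lemma miss : ∀ a b c d j : Fin 4, (a ≠ j ∧ b ≠ j ∧ c ≠ j ∧ d ≠ j) →
    (if a = 0 ∧ b = 2 then (1 : ZMod 2) else 0) * (if c = 3 ∧ d = 1 then 1 else 0) +
      (if a = 3 ∧ b = 1 then 1 else 0) * (if c = 0 ∧ d = 2 then 1 else 0) = 0 := by decide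

theorem sum_ca (z w : A × A) : ∑ ε, bet (ca ε) z w = PA z * QA w + QA z * PA w := by
  simp only [bet_ca]
  by_cases hj : ∀ j : Fin 4, j = z.1.1 ∨ j = z.2.1 ∨ j = w.1.1 ∨ j = w.2.1
  · obtain ⟨⟨hab, hac, had, hbc, hbd, hcd⟩, hK⟩ := four _ _ _ _ hj
    have hKK : KK z w = PA z * QA w + QA z * PA w := by
      unfold KK PA QA
      simp only [k01_ne had, k10_ne hbd.symm, k01_ne hbc, k10_ne hbc.symm, k01_ne hbd,
        k10_ne had.symm]
      exact hK
    rw [← hKK]
    set b' : Fin 4 → Bool := fun i => if i = z.1.1 then z.1.2.1 else if i = z.2.1 then z.2.2.1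
      else if i = w.1.1 then w.1.2.1 else w.2.2.1 with hb'
    have key : ∀ ε : Fin 4 → Bool, (onn ε z.1 ∧ onn ε z.2 ∧ onn ε w.1 ∧ onn ε w.2) ↔ ε = b' := by
      intro ε
      unfold onn
      constructor
      · rintro ⟨h1, h2, h3, h4⟩
        funext i
        rw [hb']
        simp only
        rcases hj i with h | h | h | h
        · rw [if_pos h, h, h1]
        · rw [if_neg (by rw [h]; exact hab.symm), if_pos h, h, h2]
        · rw [if_neg (by rw [h]; exact hac.symm), if_neg (by rw [h]; exact hbc.symm), if_pos h, h,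
            h3]
        · rw [if_neg (by rw [h]; exact had.symm), if_neg (by rw [h]; exact hbd.symm),
            if_neg (by rw [h]; exact hcd.symm), h, h4]
      · rintro rfl
        simp only [hb']
        refine ⟨by simp, ?_, ?_, ?_⟩
        · simp [hab.symm]
        · simp [hac.symm, hbc.symm]
        · simp [had.symm, hbd.symm, hcd.symm]
    simp only [key]
    rw [Finset.sum_ite_eq' Finset.univ b' (fun _ => KK z w)]
    simp
  · push Not at hj
    obtain ⟨j, h1, h2, h3, h4⟩ := hj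
    have hR : PA z * QA w + QA z * PA w = 0 := by
      unfold PA QA
      exact miss _ _ _ _ j ⟨h1.symm, h2.symm, h3.symm, h4.symm⟩
    rw [hR]
    apply sum_flip _ j
    intro ε
    have e1 : ∀ x : A, j ≠ x.1 → (onn (Function.update ε j (!(ε j))) x ↔ onn ε x) := by
      intro x hx
      unfold onn
      rw [Function.update_of_ne hx.symm]
    simp only [e1 z.1 h1, e1 z.2 h2, e1 w.1 h3, e1 w.2 h4]

/-! ### Transfer -/

section transfer

set_option linter.unusedSectionVars false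

variable {S T : Type} [DecidableEq S] [DecidableEq T]

lemma on_map (φ : S → T) (hφ : Function.Injective φ) (q : List (S × Bool)) (x : S) :
    on (q.map (Prod.map φ id)) (φ x) ↔ on q x := by
  unfold on
  rw [List.map_map]
  have : (Prod.fst ∘ Prod.map φ id : S × Bool → T) = φ ∘ Prod.fst := by
    funext y
    rfl
  rw [this, ← List.map_map]
  exact List.mem_map_of_injective hφ

lemma on_map' (φ : S → T) (q : List (S × Bool)) (y : T) (h : on (q.map (Prod.map φ id)) y) :
    ∃ x, y = φ x := by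
  unfold on at h
  rw [List.map_map] at h
  obtain ⟨x, _, rfl⟩ := List.mem_map.1 h
  exact ⟨x.1, rfl⟩

lemma idxOf_map (φ : S → T) (hφ : Function.Injective φ) (l : List S) (x : S) :
    (l.map φ).idxOf (φ x) = l.idxOf x := by
  induction l with
  | nil => simp
  | cons a l ih =>
    rw [List.map_cons]
    by_cases h : a = x
    · subst h
      simp
    · rw [List.idxOf_cons_ne _ (fun h' => h (hφ h')), List.idxOf_cons_ne _ h, ih]

lemma idx_map (φ : S → T) (hφ : Function.Injective φ) (q : List (S × Bool)) (x : S) :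
    idx (q.map (Prod.map φ id)) (φ x) = idx q x := by
  unfold idx
  rw [List.map_map]
  have : (Prod.fst ∘ Prod.map φ id : S × Bool → T) = φ ∘ Prod.fst := by
    funext y
    rfl
  rw [this, ← List.map_map]
  exact idxOf_map φ hφ _ _

lemma mem_map (φ : S → T) (hφ : Function.Injective φ) (q : List (S × Bool)) (x : S) (b : Bool) :
    (φ x, b) ∈ q.map (Prod.map φ id) ↔ (x, b) ∈ q := by
  have h2 : Function.Injective (Prod.map φ id : S × Bool → T × Bool) :=
    hφ.prodMap Function.injective_id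
  exact List.mem_map_of_injective (a := (x, b)) h2

lemma l01_map (φ : S → T) (hφ : Function.Injective φ) (q : List (S × Bool)) (x y : S) :
    l01 (q.map (Prod.map φ id)) (φ x) (φ y) ↔ l01 q x y := by
  unfold l01
  rw [idx_map φ hφ, idx_map φ hφ, mem_map φ hφ, hφ.eq_iff]

lemma l10_map (φ : S → T) (hφ : Function.Injective φ) (q : List (S × Bool)) (x y : S) :
    l10 (q.map (Prod.map φ id)) (φ x) (φ y) ↔ l10 q x y := by
  unfold l10
  rw [idx_map φ hφ, idx_map φ hφ, mem_map φ hφ, hφ.eq_iff]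

lemma bet_map (φ : S → T) (hφ : Function.Injective φ) (q : List (S × Bool)) (a b c d : S) :
    bet (q.map (Prod.map φ id)) (φ a, φ b) (φ c, φ d) = bet q (a, b) (c, d) := by
  unfold bet
  simp only [on_map φ hφ, l01_map φ hφ, l10_map φ hφ]

lemma bet_off (q : List (S × Bool)) (z w : S × S)
    (h : ¬ (on q z.1 ∧ on q z.2 ∧ on q w.1 ∧ on q w.2)) : bet q z w = 0 := by
  unfold bet
  rw [if_neg h]

end transfer

/-! ### Sums over pairs -/

lemma ps_sum {α ι : Type} (s : Finset ι) (g : ι → α → α → ZMod 2) (W : List α) :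
    ∑ i ∈ s, ps (g i) W = ps (fun z w => ∑ i ∈ s, g i z w) W := by
  induction W with
  | nil => simp [ps]
  | cons z W ih =>
    simp only [ps]
    rw [Finset.sum_add_distrib, ih]
    congr 1
    clear ih
    induction W with
    | nil => simp
    | cons w W ih =>
      simp only [List.map_cons, List.sum_cons]
      rw [Finset.sum_add_distrib, ih]

lemma ps_pq {α : Type} (p q : α → ZMod 2) (h : ∀ z, p z * q z = 0) (W : List α) :
    ps (fun z w => p z * q w + q z * p w) W = (W.map p).sum * (W.map q).sum := by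
  induction W with
  | nil => simp [ps]
  | cons z W ih =>
    simp only [ps, List.map_cons, List.sum_cons]
    rw [ih, List.sum_map_add, List.sum_map_mul_left, List.sum_map_mul_left]
    linear_combination -(h z)

lemma countP_sum {α : Type} (P : α → Prop) [DecidablePred P] (W : List α) :
    ((W.countP fun z => P z : ℕ) : ZMod 2) = (W.map fun z => if P z then (1 : ZMod 2) else 0).sum := by
  induction W with
  | nil => simp
  | cons z W ih =>
    rw [List.countP_cons, List.map_cons, List.sum_cons, Nat.cast_add, ih, add_comm]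
    congr 1
    by_cases h : P z <;> simp [h]

/-! ### The graph -/

lemma rv_rv {E : Type} (d : Dart E) : rv (rv d) = d := by
  obtain ⟨e, b⟩ := d
  simp [rv]

lemma eq_or_rv {E : Type} {d d' : Dart E} (h : d.1 = d'.1) : d = d' ∨ d = rv d' := by
  obtain ⟨e, b⟩ := d
  obtain ⟨e', b'⟩ := d'
  simp only at h
  subst h
  cases b <;> cases b' <;> simp [rv]

section graph

set_option linter.unusedSectionVars false

variable {V E : Type} [DecidableEq V] [DecidableEq E] {G : Gr V E} {M : D4M V E}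

/-- the strands of the beads -/
def ph (M : D4M V E) (x : A) : Dart E := if x.2.2 then M.bd x.1 x.2.1 else rv (M.bd x.1 x.2.1)

lemma exv (hM : IsD4 G M) (hT : ∀ i, M.T i = ∅) : ∃ v : Fin 4 → V, Function.Injective v ∧
    (∀ i b, G.vt (M.bd i b) = v i) ∧ ∀ i b, G.vt (rv (M.bd i b)) = v (i + 1) := by
  have h1 : ∀ i, ∃ x, M.B i = {x} := by
    intro i
    have := hM.card i
    rw [hT i, Finset.card_empty, zero_add] at this
    exact Finset.card_eq_one.1 this.symm
  choose v hv using h1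
  refine ⟨v, ?_, ?_, ?_⟩
  · intro i j hij
    by_contra hne
    have := hM.disj i j hne
    rw [hv i, hv j, hij, Finset.disjoint_singleton] at this
    exact this rfl
  · intro i b
    have := hM.bS i b
    rwa [hv i, Finset.mem_singleton] at this
  · intro i b
    have := hM.bE i b
    rwa [hv (i + 1), Finset.mem_singleton] at this

lemma cyc4 : ∀ i j : Fin 4, i = j + 1 → i + 1 = j → False := by decide

lemma bd_inj (hM : IsD4 G M) (hT : ∀ i, M.T i = ∅) {i j : Fin 4} {b b' : Bool}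
    (h : M.bd i b = M.bd j b') : i = j ∧ b = b' := by
  obtain ⟨v, hv, h1, h2⟩ := exv hM hT
  have hij : i = j := by
    apply hv
    rw [← h1 i b, ← h1 j b', h]
  subst hij
  refine ⟨rfl, ?_⟩
  have := hM.bN i
  by_contra hne
  cases b <;> cases b'
  · exact hne rfl
  · exact this (by rw [h])
  · exact this (by rw [h])
  · exact hne rfl

lemma bd_rv (hM : IsD4 G M) (hT : ∀ i, M.T i = ∅) {i j : Fin 4} {b b' : Bool}
    (h : M.bd i b = rv (M.bd j b')) : False := by
  obtain ⟨v, hv, h1, h2⟩ := exv hM hT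
  apply cyc4 i j
  · apply hv
    rw [← h1 i b, ← h2 j b', h]
  · apply hv
    rw [← h2 i b, ← h1 j b', h, rv_rv]

lemma ph_inj (hM : IsD4 G M) (hT : ∀ i, M.T i = ∅) : Function.Injective (ph M) := by
  rintro ⟨i, b, u⟩ ⟨j, b', u'⟩ h
  unfold ph at h
  cases u <;> cases u' <;> simp only [if_true, if_false, Bool.false_eq_true] at h
  · have h' : M.bd i b = M.bd j b' := by rw [← rv_rv (M.bd i b), h, rv_rv]
    obtain ⟨rfl, rfl⟩ := bd_inj hM hT h'
    rfl
  · exact (bd_rv hM hT h.symm).elim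
  · exact (bd_rv hM hT h).elim
  · obtain ⟨rfl, rfl⟩ := bd_inj hM hT h
    rfl

lemma bde_inj (hM : IsD4 G M) (hT : ∀ i, M.T i = ∅) {i j : Fin 4} {b b' : Bool}
    (h : (M.bd i b).1 = (M.bd j b').1) : i = j ∧ b = b' := by
  rcases eq_or_rv h with h | h
  · exact bd_inj hM hT h
  · exact (bd_rv hM hT h).elim

/-- the cycle through the beads -/
def bc (M : D4M V E) (ε : Fin 4 → Bool) : List (Dart E) :=
  [M.bd 0 (ε 0), M.bd 1 (ε 1), M.bd 2 (ε 2), M.bd 3 (ε 3)]

lemma cyc_bc (hM : IsD4 G M) (hT : ∀ i, M.T i = ∅) (ε : Fin 4 → Bool) : IsCyc G (bc M ε) := by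
  obtain ⟨v, hv, h1, h2⟩ := exv hM hT
  have hn : ∀ i j : Fin 4, i ≠ j → (M.bd i (ε i)).1 ≠ (M.bd j (ε j)).1 :=
    fun i j hij h => hij (bde_inj hM hT h).1
  constructor
  · simp [bc]
  · intro d hd
    simp only [bc, List.mem_cons, List.not_mem_nil, or_false] at hd
    rcases hd with rfl | rfl | rfl | rfl <;> exact hM.bX _ _
  · simp only [bc, List.map_cons, List.map_nil, List.nodup_cons, List.mem_cons, List.not_mem_nil,
      or_false, not_or, List.nodup_nil, and_true, not_false_eq_true]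
    exact ⟨⟨hn 0 1 (by decide), hn 0 2 (by decide), hn 0 3 (by decide)⟩,
      ⟨hn 1 2 (by decide), hn 1 3 (by decide)⟩, hn 2 3 (by decide)⟩
  · simp only [bc, List.map_cons, List.map_nil, h1, List.nodup_cons, List.mem_cons,
      List.not_mem_nil, or_false, not_or, List.nodup_nil, and_true, not_false_eq_true, hv.eq_iff]
    decide
  · simp only [bc, List.map_cons, List.map_nil, h1, h2]
    rfl

/-- the 2-cycles -/
def cc2 (M : D4M V E) (i : Fin 4) : List (Dart E) := [M.bd i false, rv (M.bd i true)]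

lemma ne_succ : ∀ i : Fin 4, i ≠ i + 1 := by decide

lemma cyc_cc2 (hM : IsD4 G M) (hT : ∀ i, M.T i = ∅) (i : Fin 4) : IsCi G M i (cc2 M i) := by
  obtain ⟨v, hv, h1, h2⟩ := exv hM hT
  have hrv : ∀ d : Dart E, (rv d).1 = d.1 := fun d => rfl
  constructor
  · constructor
    · simp [cc2]
    · intro d hd
      simp only [cc2, List.mem_cons, List.not_mem_nil, or_false] at hd
      rcases hd with rfl | rfl
      · exact hM.bX _ _
      · exact hM.bX _ _
    · simp only [cc2, List.map_cons, List.map_nil, List.nodup_cons, List.mem_cons,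
        List.not_mem_nil, or_false, List.nodup_nil, and_true, not_false_eq_true, hrv]
      exact hM.bN i
    · simp only [cc2, List.map_cons, List.map_nil, List.nodup_cons, List.mem_cons,
        List.not_mem_nil, or_false, List.nodup_nil, and_true, not_false_eq_true, h1, h2,
        hv.eq_iff]
      exact ne_succ i
    · simp only [cc2, List.map_cons, List.map_nil, h1, h2, rv_rv]
      rfl
  · intro d hd
    simp only [cc2, List.mem_cons, List.not_mem_nil, or_false] at hd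
    rcases hd with rfl | rfl
    · right; right; left; rfl
    · right; right; right; rfl
  · simp [cc2]
  · simp [cc2, hrv]

lemma mem_cc2 (i : Fin 4) (d : Dart E) :
    d.1 ∈ (cc2 M i).map Prod.fst ↔ ∃ x : A, x.1 = i ∧ d = ph M x := by
  constructor
  · intro h
    simp only [cc2, List.map_cons, List.map_nil, List.mem_cons, List.not_mem_nil, or_false] at h
    rcases h with h | h
    · rcases eq_or_rv h with h | h
      · exact ⟨(i, false, true), rfl, h⟩
      · exact ⟨(i, false, false), rfl, h⟩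
    · rcases eq_or_rv h with h | h
      · exact ⟨(i, true, false), rfl, h⟩
      · exact ⟨(i, true, true), rfl, by rw [h, rv_rv]; rfl⟩
  · rintro ⟨⟨j, b, u⟩, rfl, rfl⟩
    have hrv : ∀ d : Dart E, (rv d).1 = d.1 := fun d => rfl
    cases b <;> cases u <;> simp [cc2, ph, hrv]

lemma mem_cc2' (hM : IsD4 G M) (hT : ∀ i, M.T i = ∅) (i : Fin 4) (x : A) :
    (ph M x).1 ∈ (cc2 M i).map Prod.fst ↔ x.1 = i := by
  rw [mem_cc2]
  constructor
  · rintro ⟨y, rfl, h⟩
    rw [ph_inj hM hT h]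
  · intro h
    exact ⟨x, h, rfl⟩

lemma cv_bc (ε : Fin 4 → Bool) : cv (bc M ε) = (ca ε).map (Prod.map (ph M) id) := by
  simp [cv, bc, ca, ph]

theorem sum_bet (hM : IsD4 G M) (hT : ∀ i, M.T i = ∅) (z w : Dart E × Dart E) :
    ∑ ε, bet (cv (bc M ε)) z w =
      (if z.1.1 ∈ (cc2 M 0).map Prod.fst ∧ z.2.1 ∈ (cc2 M 2).map Prod.fst then (1 : ZMod 2) else 0) *
      (if w.1.1 ∈ (cc2 M 3).map Prod.fst ∧ w.2.1 ∈ (cc2 M 1).map Prod.fst then (1 : ZMod 2) else 0) +
      (if z.1.1 ∈ (cc2 M 3).map Prod.fst ∧ z.2.1 ∈ (cc2 M 1).map Prod.fst then (1 : ZMod 2) else 0) *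
      (if w.1.1 ∈ (cc2 M 0).map Prod.fst ∧ w.2.1 ∈ (cc2 M 2).map Prod.fst then (1 : ZMod 2) else 0) := by
  simp only [cv_bc]
  obtain ⟨z1, z2⟩ := z
  obtain ⟨w1, w2⟩ := w
  simp only
  by_cases h : ((∃ a, z1 = ph M a) ∧ ∃ b, z2 = ph M b) ∧ (∃ c, w1 = ph M c) ∧ ∃ d, w2 = ph M d
  · obtain ⟨⟨⟨a, rfl⟩, b, rfl⟩, ⟨c, rfl⟩, d, rfl⟩ := h
    simp only [bet_map (ph M) (ph_inj hM hT), mem_cc2' hM hT]
    exact sum_ca (a, b) (c, d)
  · have hL : ∀ ε, bet ((ca ε).map (Prod.map (ph M) id)) (z1, z2) (w1, w2) = 0 := by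
      intro ε
      apply bet_off
      rintro ⟨h1, h2, h3, h4⟩
      exact h ⟨⟨on_map' _ _ _ h1, on_map' _ _ _ h2⟩, on_map' _ _ _ h3, on_map' _ _ _ h4⟩
    simp only [hL, Finset.sum_const_zero]
    have hm : ∀ i (d : Dart E), d.1 ∈ (cc2 M i).map Prod.fst → ∃ x, d = ph M x := by
      intro i d hd
      obtain ⟨x, _, hx⟩ := (mem_cc2 i d).1 hd
      exact ⟨x, hx⟩
    symm
    have e1 : ∀ i j k l : Fin 4,
      (if z1.1 ∈ (cc2 M i).map Prod.fst ∧ z2.1 ∈ (cc2 M j).map Prod.fst then (1 : ZMod 2) else 0) *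
      (if w1.1 ∈ (cc2 M k).map Prod.fst ∧ w2.1 ∈ (cc2 M l).map Prod.fst then (1 : ZMod 2) else 0)
        = 0 := by
      intro i j k l
      by_cases h1 : z1.1 ∈ (cc2 M i).map Prod.fst ∧ z2.1 ∈ (cc2 M j).map Prod.fst
      · by_cases h2 : w1.1 ∈ (cc2 M k).map Prod.fst ∧ w2.1 ∈ (cc2 M l).map Prod.fst
        · exact (h ⟨⟨hm _ _ h1.1, hm _ _ h1.2⟩, hm _ _ h2.1, hm _ _ h2.2⟩).elim
        · rw [if_neg h2, mul_zero]
      · rw [if_neg h1, zero_mul]
    rw [e1, e1, add_zero]

lemma mem_c (hT : ∀ i, M.T i = ∅) {ε : Fin 4 → Bool} {c : List (Dart E)}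
    (hc : IsCe G M ε c) (d : Dart E) : d ∈ c ↔ ∃ i, d = M.bd i (ε i) := by
  constructor
  · intro hd
    rcases hc.mem d hd with ⟨i, hi⟩ | h
    · rw [hT i] at hi
      exact absurd hi (Finset.notMem_empty _)
    · exact h
  · rintro ⟨i, rfl⟩
    exact hc.bds i

lemma mem_bc (ε : Fin 4 → Bool) (d : Dart E) : d ∈ bc M ε ↔ ∃ i, d = M.bd i (ε i) := by
  simp only [bc, List.mem_cons, List.not_mem_nil, or_false]
  constructor
  · rintro (h | h | h | h)
    exacts [⟨0, h⟩, ⟨1, h⟩, ⟨2, h⟩, ⟨3, h⟩]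
  · rintro ⟨i, h⟩
    fin_cases i
    · left; exact h
    · right; left; exact h
    · right; right; left; exact h
    · right; right; right; exact h

lemma dep_mem (hM : IsD4 G M) (hT : ∀ i, M.T i = ∅) {c : (Fin 4 → Bool) → List (Dart E)}
    (hc : ∀ ε, IsCe G M ε (c ε)) (s : Dart E) :
    ∃ j, Dep (fun ε => if s ∈ c ε then (1 : ZMod 2) else 0) j := by
  by_cases h : ∃ i b, s = M.bd i b
  · obtain ⟨i, b, rfl⟩ := h
    refine ⟨i, ?_⟩
    have : ∀ ε, M.bd i b ∈ c ε ↔ b = ε i := by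
      intro ε
      rw [mem_c hT (hc ε)]
      constructor
      · rintro ⟨j, hj⟩
        obtain ⟨rfl, h⟩ := bd_inj hM hT hj
        exact h
      · intro h
        exact ⟨i, by rw [h]⟩
    intro ε ε' he
    simp only [this, he]
  · refine ⟨0, ?_⟩
    have : ∀ ε, ¬ s ∈ c ε := by
      intro ε hs
      rw [mem_c hT (hc ε)] at hs
      obtain ⟨j, hj⟩ := hs
      exact h ⟨j, _, hj⟩
    intro ε ε' he
    simp only [this]

lemma dep_xe (hM : IsD4 G M) (hT : ∀ i, M.T i = ∅) {c : (Fin 4 → Bool) → List (Dart E)}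
    (hc : ∀ ε, IsCe G M ε (c ε)) (e : E) : ∃ j, Dep (fun ε => xe e (c ε)) j := by
  have hm : ∀ ε, e ∈ (c ε).map Prod.fst ↔ ∃ i, e = (M.bd i (ε i)).1 := by
    intro ε
    rw [List.mem_map]
    constructor
    · rintro ⟨d, hd, rfl⟩
      obtain ⟨i, rfl⟩ := (mem_c hT (hc ε) d).1 hd
      exact ⟨i, rfl⟩
    · rintro ⟨i, rfl⟩
      exact ⟨_, (hc ε).bds i, rfl⟩
  by_cases h : ∃ i b, e = (M.bd i b).1
  · obtain ⟨i, b, rfl⟩ := h
    refine ⟨i, ?_⟩
    have : ∀ ε, (M.bd i b).1 ∈ (c ε).map Prod.fst ↔ b = ε i := by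
      intro ε
      rw [hm]
      constructor
      · rintro ⟨j, hj⟩
        obtain ⟨rfl, h⟩ := bde_inj hM hT hj
        exact h
      · intro h
        exact ⟨i, by rw [h]⟩
    intro ε ε' he
    simp only [xe, this, he]
  · refine ⟨0, ?_⟩
    have : ∀ ε, ¬ e ∈ (c ε).map Prod.fst := by
      intro ε hs
      rw [hm] at hs
      obtain ⟨j, hj⟩ := hs
      exact h ⟨j, _, hj⟩
    intro ε ε' he
    simp only [xe, this]

lemma ite_and_mul (p q : Prop) [Decidable p] [Decidable q] :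
    (if p ∧ q then (1 : ZMod 2) else 0) = (if p then 1 else 0) * (if q then 1 else 0) * 1 := by
  by_cases hp : p <;> by_cases hq : q <;> simp [hp, hq]

lemma sum_FF (hM : IsD4 G M) (hT : ∀ i, M.T i = ∅) {c : (Fin 4 → Bool) → List (Dart E)}
    (hc : ∀ ε, IsCe G M ε (c ε)) (F : List (Dart E) → ZMod 2) (hF : F ∈ FF G) :
    ∑ ε, F (c ε) = 0 := by
  unfold FF at hF
  refine Submodule.span_induction (p := fun F _ => ∑ ε, F (c ε) = 0) ?_ ?_ ?_ ?_ hF
  · rintro f (⟨e, _, g, _, h, _, rfl⟩ | ⟨s, t, _, _, rfl⟩)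
    · obtain ⟨i, hi⟩ := dep_xe hM hT hc e
      obtain ⟨j, hj⟩ := dep_xe hM hT hc g
      obtain ⟨k, hk⟩ := dep_xe hM hT hc h
      exact sum_three hi hj hk
    · simp only [cc]
      rw [Finset.sum_add_distrib]
      simp only [ite_and_mul]
      have h1 : Dep (fun _ => (1 : ZMod 2)) 0 := fun _ _ _ => rfl
      obtain ⟨i, hi⟩ := dep_mem hM hT hc s
      obtain ⟨j, hj⟩ := dep_mem hM hT hc t
      obtain ⟨k, hk⟩ := dep_mem hM hT hc (rv s)
      obtain ⟨l, hl⟩ := dep_mem hM hT hc (rv t)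
      rw [sum_three hi hj h1, sum_three hk hl h1, add_zero]
  · simp
  · intro f g _ _ hf hg
    simp only [Pi.add_apply]
    rw [Finset.sum_add_distrib, hf, hg, add_zero]
  · intro a f _ hf
    simp only [Pi.smul_apply]
    rw [← Finset.smul_sum, hf, smul_zero]

end graph

end DFBM

open DFBM in
/-- **DFB** -/
theorem specDFB (hBAS : SpecBAS) : SpecDFB := by
  intro V E _ _ G M hM hT c hc
  refine ⟨sum_FF hM hT hc, ?_⟩
  intro bot W top hD
  refine ⟨cc2 M, cyc_cc2 hM hT, ?_⟩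
  have h1 : ∀ ε, AW (cv (c ε)) W = AW (cv (bc M ε)) W := by
    intro ε
    apply hBAS.same hD (cyc_bc hM hT ε) (hc ε).cyc
    intro e
    simp only [List.mem_map, mem_bc, mem_c hT (hc ε)]
  simp only [h1]
  simp only [AW]
  rw [ps_sum]
  simp only [sum_bet hM hT]
  rw [ps_pq (fun z : Dart E × Dart E => if z.1.1 ∈ (cc2 M 0).map Prod.fst ∧
      z.2.1 ∈ (cc2 M 2).map Prod.fst then (1 : ZMod 2) else 0)
    (fun z : Dart E × Dart E => if z.1.1 ∈ (cc2 M 3).map Prod.fst ∧
      z.2.1 ∈ (cc2 M 1).map Prod.fst then (1 : ZMod 2) else 0)]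
  · unfold lk
    rw [countP_sum, countP_sum]
  · intro z
    by_cases h1 : z.1.1 ∈ (cc2 M 0).map Prod.fst ∧ z.2.1 ∈ (cc2 M 2).map Prod.fst
    · have h2 : ¬ (z.1.1 ∈ (cc2 M 3).map Prod.fst ∧ z.2.1 ∈ (cc2 M 1).map Prod.fst) := by
        rintro ⟨h2, _⟩
        obtain ⟨x, hx, hx'⟩ := (mem_cc2 0 z.1).1 h1.1
        rw [hx', mem_cc2' hM hT, hx] at h2
        exact absurd h2 (by decide)
      rw [if_neg h2, mul_zero]
    · rw [if_neg h1, zero_mul]

end Pool.Agent.Lib.MP3ff0f8.T
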