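import Pool.Agent.Lib.MP_3ff0f8_gt.T.Spec

namespace Pool.Agent.Lib.MP3ff0f8.T.SGMM

open Pool.Agent.Lib.MP3ff0f8.T

theorem above_symm (v p q : ℝ × ℝ) : above v p q ↔ above v q p := by
  constructor
  · rintro ⟨t, h0, h1, h2, h3⟩
    exact ⟨1 - t, by linarith, by linarith, by rw [h2]; ring, by
      have : (1 - (1 - t)) * q.2 + (1 - t) * p.2 = (1 - t) * p.2 + t * q.2 := by ring
      rw [this]; exact h3⟩
  · rintro ⟨t, h0, h1, h2, h3⟩
    exact ⟨1 - t, by linarith, by linarith, by rw [h2]; ring, by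
      have : (1 - (1 - t)) * p.2 + (1 - t) * q.2 = (1 - t) * q.2 + t * p.2 := by ring
      rw [this]; exact h3⟩

/-- the crossing predicate -/
def Cr (p q r s : ℝ × ℝ) : Prop :=
  ∃ t u : ℝ, 0 < t ∧ t < 1 ∧ 0 < u ∧ u < 1 ∧ (1 - t) • p + t • q = (1 - u) • r + u • s

theorem cr_symm₁ (p q r s : ℝ × ℝ) : Cr p q r s ↔ Cr q p r s := by
  constructor
  · rintro ⟨t, u, h0, h1, h2, h3, h4⟩
    refine ⟨1 - t, u, by linarith, by linarith, h2, h3, ?_⟩
    rw [← h4, sub_sub_cancel, add_comm]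
  · rintro ⟨t, u, h0, h1, h2, h3, h4⟩
    refine ⟨1 - t, u, by linarith, by linarith, h2, h3, ?_⟩
    rw [← h4, sub_sub_cancel, add_comm]

theorem cr_symm₂ (p q r s : ℝ × ℝ) : Cr p q r s ↔ Cr p q s r := by
  constructor
  · rintro ⟨t, u, h0, h1, h2, h3, h4⟩
    refine ⟨t, 1 - u, h0, h1, by linarith, by linarith, ?_⟩
    rw [h4, sub_sub_cancel, add_comm]
  · rintro ⟨t, u, h0, h1, h2, h3, h4⟩
    refine ⟨t, 1 - u, h0, h1, by linarith, by linarith, ?_⟩
    rw [h4, sub_sub_cancel, add_comm]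

/-- the height of the line through `p`, `q` -/
noncomputable def L (p q : ℝ × ℝ) (x : ℝ) : ℝ := p.2 + (q.2 - p.2) / (q.1 - p.1) * (x - p.1)

theorem L_at (p q : ℝ × ℝ) (h : p.1 < q.1) (t : ℝ) :
    L p q ((1 - t) * p.1 + t * q.1) = (1 - t) * p.2 + t * q.2 := by
  have : q.1 - p.1 ≠ 0 := by linarith
  unfold L
  have e : (1 - t) * p.1 + t * q.1 - p.1 = t * (q.1 - p.1) := by ring
  rw [e]
  field_simp
  ring

theorem param (p q : ℝ × ℝ) (h : p.1 < q.1) (x : ℝ) (h1 : p.1 < x) (h2 : x < q.1) :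
    ∃ t : ℝ, 0 < t ∧ t < 1 ∧ x = (1 - t) * p.1 + t * q.1 := by
  have hp : 0 < q.1 - p.1 := by linarith
  refine ⟨(x - p.1) / (q.1 - p.1), div_pos (by linarith) hp, ?_, ?_⟩
  · rw [div_lt_one hp]; linarith
  · field_simp
    ring

theorem above_iff (v p q : ℝ × ℝ) (h : p.1 < q.1) :
    above v p q ↔ p.1 < v.1 ∧ v.1 < q.1 ∧ L p q v.1 < v.2 := by
  constructor
  · rintro ⟨t, h0, h1, h2, h3⟩
    refine ⟨by rw [h2]; nlinarith, by rw [h2]; nlinarith, ?_⟩
    rw [h2, L_at p q h]; exact h3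
  · rintro ⟨h1, h2, h3⟩
    obtain ⟨t, t0, t1, ht⟩ := param p q h v.1 h1 h2
    refine ⟨t, t0, t1, ht, ?_⟩
    rw [ht, L_at p q h] at h3
    exact h3

theorem cr_iff (p q r s : ℝ × ℝ) (h : p.1 < q.1) (h' : r.1 < s.1) :
    Cr p q r s ↔ ∃ x, p.1 < x ∧ x < q.1 ∧ r.1 < x ∧ x < s.1 ∧ L p q x = L r s x := by
  constructor
  · rintro ⟨t, u, t0, t1, u0, u1, e⟩
    have e1 : (1 - t) * p.1 + t * q.1 = (1 - u) * r.1 + u * s.1 := by
      have := congrArg Prod.fst e; simpa using this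
    have e2 : (1 - t) * p.2 + t * q.2 = (1 - u) * r.2 + u * s.2 := by
      have := congrArg Prod.snd e; simpa using this
    refine ⟨(1 - t) * p.1 + t * q.1, by nlinarith, by nlinarith, ?_, ?_, ?_⟩
    · rw [e1]; nlinarith
    · rw [e1]; nlinarith
    · rw [L_at p q h, e1, L_at r s h', e2]
  · rintro ⟨x, x1, x2, x3, x4, e⟩
    obtain ⟨t, t0, t1, ht⟩ := param p q h x x1 x2
    obtain ⟨u, u0, u1, hu⟩ := param r s h' x x3 x4
    refine ⟨t, u, t0, t1, u0, u1, ?_⟩
    have e2 : (1 - t) * p.2 + t * q.2 = (1 - u) * r.2 + u * s.2 := by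
      rw [← L_at p q h, ← L_at r s h', ← ht, ← hu, e]
    have e1 : (1 - t) * p.1 + t * q.1 = (1 - u) * r.1 + u * s.1 := by rw [← ht, ← hu]
    ext
    · simpa using e1
    · simpa using e2

/-- sign changes of the difference of two affine functions -/
theorem zero_iff (p q r s : ℝ × ℝ) (a b : ℝ) (hab : a < b)
    (ha : L p q a ≠ L r s a) (hb : L p q b ≠ L r s b) :
    (∃ x, a < x ∧ x < b ∧ L p q x = L r s x) ↔ (L p q a < L r s a ↔ L r s b < L p q b) := by
  set m : ℝ := (q.2 - p.2) / (q.1 - p.1) - (s.2 - r.2) / (s.1 - r.1) with hm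
  set k : ℝ := p.2 - (q.2 - p.2) / (q.1 - p.1) * p.1 - (r.2 - (s.2 - r.2) / (s.1 - r.1) * r.1) with hk
  have key : ∀ x, L p q x - L r s x = m * x + k := by
    intro x; unfold L; rw [hm, hk]; ring
  have ka := key a
  have kb := key b
  constructor
  · rintro ⟨x, x1, x2, hx⟩
    have kx := key x
    rw [hx, sub_self] at kx
    have ea : L p q a - L r s a = m * (a - x) := by rw [ka]; linarith
    have eb : L p q b - L r s b = m * (b - x) := by rw [kb]; linarith
    have hm0 : m ≠ 0 := by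
      rintro h0
      rw [h0, zero_mul] at ea
      exact ha (by linarith)
    rcases lt_or_gt_of_ne hm0 with hn | hp
    · constructor
      · intro h; exfalso; nlinarith
      · intro h; exfalso; nlinarith
    · constructor
      · intro _; nlinarith
      · intro _; nlinarith
  · intro hiff
    rcases lt_or_gt_of_ne ha with h1 | h1
    · have h2 := hiff.1 h1
      have hm0 : 0 < m := by
        by_contra hc
        nlinarith
      refine ⟨-k / m, ?_, ?_, ?_⟩
      · rw [lt_div_iff₀ hm0]; nlinarith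
      · rw [div_lt_iff₀ hm0]; nlinarith
      · have := key (-k / m)
        have e : m * (-k / m) + k = 0 := by field_simp; ring
        linarith
    · have h2 : L p q b < L r s b := by
        rcases lt_or_gt_of_ne hb with h | h
        · exact h
        · exact absurd (hiff.2 h) (by linarith)
      have hm0 : m < 0 := by
        by_contra hc
        nlinarith
      refine ⟨-k / m, ?_, ?_, ?_⟩
      · rw [lt_div_iff_of_neg hm0]; nlinarith
      · rw [div_lt_iff_of_neg hm0]; nlinarith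
      · have := key (-k / m)
        have hne : m ≠ 0 := by linarith
        have e : m * (-k / m) + k = 0 := by field_simp; ring
        linarith

open Classical in
/-- the right side -/
noncomputable def R (p q r s : ℝ × ℝ) : ZMod 2 :=
  (if above r p q then 1 else 0) + (if above s p q then 1 else 0) + (if above p r s then 1 else 0) +
  (if above q r s then 1 else 0) +
  ((if p.1 < r.1 then 1 else 0) + (if q.1 < r.1 then 1 else 0) + (if p.1 < s.1 then 1 else 0) +
    (if q.1 < s.1 then 1 else 0))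

open Classical in
theorem R_symm₁ (p q r s : ℝ × ℝ) : R p q r s = R q p r s := by
  unfold R
  rw [if_congr (above_symm r p q) rfl rfl, if_congr (above_symm s p q) rfl rfl]
  ring

open Classical in
theorem R_symm₂ (p q r s : ℝ × ℝ) : R p q r s = R p q s r := by
  unfold R
  rw [if_congr (above_symm p r s) rfl rfl, if_congr (above_symm q r s) rfl rfl]
  ring

theorem L_left (p q : ℝ × ℝ) (h : p.1 < q.1) : L p q p.1 = p.2 := by
  unfold L; simp

theorem L_right (p q : ℝ × ℝ) (h : p.1 < q.1) : L p q q.1 = q.2 := by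
  have := L_at p q h 1
  simpa using this

/-- no endpoint of one segment is on the other -/
def Nd (p q r s : ℝ × ℝ) : Prop := ∀ t : ℝ, 0 ≤ t → t ≤ 1 → (1 - t) • p + t • q ≠ r ∧ (1 - t) • p + t • q ≠ s ∧
    (1 - t) • r + t • s ≠ p ∧ (1 - t) • r + t • s ≠ q

theorem nd_L (p q r : ℝ × ℝ) (h : p.1 < q.1) (h1 : p.1 < r.1) (h2 : r.1 < q.1)
    (hn : ∀ t : ℝ, 0 ≤ t → t ≤ 1 → (1 - t) • p + t • q ≠ r) : L p q r.1 ≠ r.2 := by
  intro e
  obtain ⟨t, t0, t1, ht⟩ := param p q h r.1 h1 h2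
  apply hn t t0.le t1.le
  rw [ht, L_at p q h] at e
  ext
  · simpa using ht.symm
  · simpa using e

open Classical in
theorem main (p q r s : ℝ × ℝ) (h : p.1 < q.1) (h' : r.1 < s.1)
    (pr : p.1 ≠ r.1) (ps : p.1 ≠ s.1) (qr : q.1 ≠ r.1) (qs : q.1 ≠ s.1) (hn : Nd p q r s) :
    (if Cr p q r s then (1 : ZMod 2) else 0) = R p q r s := by
  have z2 : (1 : ZMod 2) + 1 = 0 := by decide
  unfold R
  rw [if_congr (above_iff r p q h) rfl rfl, if_congr (above_iff s p q h) rfl rfl,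
    if_congr (above_iff p r s h') rfl rfl, if_congr (above_iff q r s h') rfl rfl,
    if_congr (cr_iff p q r s h h') rfl rfl]
  have nr : p.1 < r.1 → r.1 < q.1 → L p q r.1 ≠ r.2 := fun a b =>
    nd_L p q r h a b (fun t t0 t1 => (hn t t0 t1).1)
  have ns : p.1 < s.1 → s.1 < q.1 → L p q s.1 ≠ s.2 := fun a b =>
    nd_L p q s h a b (fun t t0 t1 => (hn t t0 t1).2.1)
  have np : r.1 < p.1 → p.1 < s.1 → L r s p.1 ≠ p.2 := fun a b =>
    nd_L r s p h' a b (fun t t0 t1 => (hn t t0 t1).2.2.1)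
  have nq : r.1 < q.1 → q.1 < s.1 → L r s q.1 ≠ q.2 := fun a b =>
    nd_L r s q h' a b (fun t t0 t1 => (hn t t0 t1).2.2.2)
  have Lp := L_left p q h
  have Lq := L_right p q h
  have Lr := L_left r s h'
  have Ls := L_right r s h'
  rcases lt_or_gt_of_ne pr with pr | pr
  · rcases lt_or_gt_of_ne qr with qr | qr
    · -- p < q < r < s
      have a1 : ¬ (∃ x, p.1 < x ∧ x < q.1 ∧ r.1 < x ∧ x < s.1 ∧ L p q x = L r s x) := by
        rintro ⟨x, _, _, _, _, _⟩; linarith
      have a2 : ¬ (p.1 < r.1 ∧ r.1 < q.1 ∧ L p q r.1 < r.2) := fun hh => by linarith [hh.2.1]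
      have a3 : ¬ (p.1 < s.1 ∧ s.1 < q.1 ∧ L p q s.1 < s.2) := fun hh => by linarith [hh.2.1]
      have a4 : ¬ (r.1 < p.1 ∧ p.1 < s.1 ∧ L r s p.1 < p.2) := fun hh => by linarith [hh.1]
      have a5 : ¬ (r.1 < q.1 ∧ q.1 < s.1 ∧ L r s q.1 < q.2) := fun hh => by linarith [hh.1]
      rw [if_neg a1, if_neg a2, if_neg a3, if_neg a4, if_neg a5, if_pos pr, if_pos qr,
        if_pos (by linarith), if_pos (by linarith)]
      decide
    · rcases lt_or_gt_of_ne qs with qs | qs
      · -- p < r < q < s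
        have a1 : (∃ x, p.1 < x ∧ x < q.1 ∧ r.1 < x ∧ x < s.1 ∧ L p q x = L r s x) ↔
            (∃ x, r.1 < x ∧ x < q.1 ∧ L p q x = L r s x) := by
          constructor
          · rintro ⟨x, _, b, c, _, e⟩; exact ⟨x, c, b, e⟩
          · rintro ⟨x, c, b, e⟩; exact ⟨x, by linarith, b, c, by linarith, e⟩
        have hr := nr pr qr
        have hq := nq qr qs
        have a0 := zero_iff p q r s r.1 q.1 qr (by rw [Lr]; exact hr) (by rw [Lq]; exact hq.symm)
        rw [if_congr (a1.trans a0) rfl rfl, Lr, Lq]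
        have a2 : (p.1 < r.1 ∧ r.1 < q.1 ∧ L p q r.1 < r.2) ↔ L p q r.1 < r.2 :=
          ⟨fun hh => hh.2.2, fun hh => ⟨pr, qr, hh⟩⟩
        have a3 : ¬ (p.1 < s.1 ∧ s.1 < q.1 ∧ L p q s.1 < s.2) := fun hh => by linarith [hh.2.1]
        have a4 : ¬ (r.1 < p.1 ∧ p.1 < s.1 ∧ L r s p.1 < p.2) := fun hh => by linarith [hh.1]
        have a5 : (r.1 < q.1 ∧ q.1 < s.1 ∧ L r s q.1 < q.2) ↔ L r s q.1 < q.2 :=
          ⟨fun hh => hh.2.2, fun hh => ⟨qr, qs, hh⟩⟩
        rw [if_congr a2 rfl rfl, if_neg a3, if_neg a4, if_congr a5 rfl rfl, if_pos pr,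
          if_neg (by linarith : ¬ q.1 < r.1), if_pos (by linarith : p.1 < s.1), if_pos qs]
        by_cases c1 : L p q r.1 < r.2 <;> by_cases c2 : L r s q.1 < q.2 <;> simp [c1, c2] <;> decide
      · -- p < r < s < q
        have a1 : (∃ x, p.1 < x ∧ x < q.1 ∧ r.1 < x ∧ x < s.1 ∧ L p q x = L r s x) ↔
            (∃ x, r.1 < x ∧ x < s.1 ∧ L p q x = L r s x) := by
          constructor
          · rintro ⟨x, _, b, c, d, e⟩; exact ⟨x, c, d, e⟩
          · rintro ⟨x, c, b, e⟩; exact ⟨x, by linarith, by linarith, c, b, e⟩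
        have hr := nr pr qr
        have hs := ns (by linarith) qs
        have a0 := zero_iff p q r s r.1 s.1 h' (by rw [Lr]; exact hr) (by rw [Ls]; exact hs)
        rw [if_congr (a1.trans a0) rfl rfl, Lr, Ls]
        have a2 : (p.1 < r.1 ∧ r.1 < q.1 ∧ L p q r.1 < r.2) ↔ L p q r.1 < r.2 :=
          ⟨fun hh => hh.2.2, fun hh => ⟨pr, qr, hh⟩⟩
        have a3 : (p.1 < s.1 ∧ s.1 < q.1 ∧ L p q s.1 < s.2) ↔ L p q s.1 < s.2 :=
          ⟨fun hh => hh.2.2, fun hh => ⟨by linarith, qs, hh⟩⟩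
        have a4 : ¬ (r.1 < p.1 ∧ p.1 < s.1 ∧ L r s p.1 < p.2) := fun hh => by linarith [hh.1]
        have a5 : ¬ (r.1 < q.1 ∧ q.1 < s.1 ∧ L r s q.1 < q.2) := fun hh => by linarith [hh.2.1]
        rw [if_congr a2 rfl rfl, if_congr a3 rfl rfl, if_neg a4, if_neg a5, if_pos pr,
          if_neg (by linarith : ¬ q.1 < r.1), if_pos (by linarith : p.1 < s.1),
          if_neg (by linarith : ¬ q.1 < s.1)]
        by_cases c1 : L p q r.1 < r.2
        · by_cases c2 : L p q s.1 < s.2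
          · have c3 : ¬ s.2 < L p q s.1 := by linarith
            simp [c1, c2, c3]; decide
          · have c3 : s.2 < L p q s.1 := lt_of_le_of_ne (not_lt.1 c2) hs.symm
            simp [c1, c2, c3]; decide
        · by_cases c2 : L p q s.1 < s.2
          · have c3 : ¬ s.2 < L p q s.1 := by linarith
            simp [c1, c2, c3]; decide
          · have c3 : s.2 < L p q s.1 := lt_of_le_of_ne (not_lt.1 c2) hs.symm
            simp [c1, c2, c3]; decide
  · rcases lt_or_gt_of_ne ps with ps | ps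
    · rcases lt_or_gt_of_ne qs with qs | qs
      · -- r < p < q < s
        have a1 : (∃ x, p.1 < x ∧ x < q.1 ∧ r.1 < x ∧ x < s.1 ∧ L p q x = L r s x) ↔
            (∃ x, p.1 < x ∧ x < q.1 ∧ L p q x = L r s x) := by
          constructor
          · rintro ⟨x, a, b, c, d, e⟩; exact ⟨x, a, b, e⟩
          · rintro ⟨x, c, b, e⟩; exact ⟨x, c, b, by linarith, by linarith, e⟩
        have hp := np pr ps
        have hq := nq (by linarith) qs
        have a0 := zero_iff p q r s p.1 q.1 h (by rw [Lp]; exact hp.symm) (by rw [Lq]; exact hq.symm)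
        rw [if_congr (a1.trans a0) rfl rfl, Lp, Lq]
        have a2 : ¬ (p.1 < r.1 ∧ r.1 < q.1 ∧ L p q r.1 < r.2) := fun hh => by linarith [hh.1]
        have a3 : ¬ (p.1 < s.1 ∧ s.1 < q.1 ∧ L p q s.1 < s.2) := fun hh => by linarith [hh.2.1]
        have a4 : (r.1 < p.1 ∧ p.1 < s.1 ∧ L r s p.1 < p.2) ↔ L r s p.1 < p.2 :=
          ⟨fun hh => hh.2.2, fun hh => ⟨pr, ps, hh⟩⟩
        have a5 : (r.1 < q.1 ∧ q.1 < s.1 ∧ L r s q.1 < q.2) ↔ L r s q.1 < q.2 :=
          ⟨fun hh => hh.2.2, fun hh => ⟨by linarith, qs, hh⟩⟩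
        rw [if_neg a2, if_neg a3, if_congr a4 rfl rfl, if_congr a5 rfl rfl,
          if_neg (by linarith : ¬ p.1 < r.1), if_neg (by linarith : ¬ q.1 < r.1), if_pos ps, if_pos qs]
        by_cases c1 : L r s p.1 < p.2
        · have c4 : ¬ p.2 < L r s p.1 := by linarith
          by_cases c2 : L r s q.1 < q.2
          · simp [c1, c2, c4]; decide
          · simp [c1, c2, c4]; decide
        · have c4 : p.2 < L r s p.1 := lt_of_le_of_ne (not_lt.1 c1) hp.symm
          by_cases c2 : L r s q.1 < q.2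
          · simp [c1, c2, c4]; decide
          · simp [c1, c2, c4]; decide
      · -- r < p < s < q
        have a1 : (∃ x, p.1 < x ∧ x < q.1 ∧ r.1 < x ∧ x < s.1 ∧ L p q x = L r s x) ↔
            (∃ x, p.1 < x ∧ x < s.1 ∧ L p q x = L r s x) := by
          constructor
          · rintro ⟨x, a, b, c, d, e⟩; exact ⟨x, a, d, e⟩
          · rintro ⟨x, c, b, e⟩; exact ⟨x, c, by linarith, by linarith, b, e⟩
        have hp := np pr ps
        have hs := ns ps qs
        have a0 := zero_iff p q r s p.1 s.1 ps (by rw [Lp]; exact hp.symm) (by rw [Ls]; exact hs)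
        rw [if_congr (a1.trans a0) rfl rfl, Lp, Ls]
        have a2 : ¬ (p.1 < r.1 ∧ r.1 < q.1 ∧ L p q r.1 < r.2) := fun hh => by linarith [hh.1]
        have a3 : (p.1 < s.1 ∧ s.1 < q.1 ∧ L p q s.1 < s.2) ↔ L p q s.1 < s.2 :=
          ⟨fun hh => hh.2.2, fun hh => ⟨ps, qs, hh⟩⟩
        have a4 : (r.1 < p.1 ∧ p.1 < s.1 ∧ L r s p.1 < p.2) ↔ L r s p.1 < p.2 :=
          ⟨fun hh => hh.2.2, fun hh => ⟨pr, ps, hh⟩⟩
        have a5 : ¬ (r.1 < q.1 ∧ q.1 < s.1 ∧ L r s q.1 < q.2) := fun hh => by linarith [hh.2.1]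
        rw [if_neg a2, if_congr a3 rfl rfl, if_congr a4 rfl rfl, if_neg a5,
          if_neg (by linarith : ¬ p.1 < r.1), if_neg (by linarith : ¬ q.1 < r.1), if_pos ps,
          if_neg (by linarith : ¬ q.1 < s.1)]
        by_cases c1 : L r s p.1 < p.2
        · have c4 : ¬ p.2 < L r s p.1 := by linarith
          by_cases c2 : L p q s.1 < s.2
          · have c3 : ¬ s.2 < L p q s.1 := by linarith
            simp [c1, c2, c3, c4]; decide
          · have c3 : s.2 < L p q s.1 := lt_of_le_of_ne (not_lt.1 c2) hs.symm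
            simp [c1, c2, c3, c4]; decide
        · have c4 : p.2 < L r s p.1 := lt_of_le_of_ne (not_lt.1 c1) hp.symm
          by_cases c2 : L p q s.1 < s.2
          · have c3 : ¬ s.2 < L p q s.1 := by linarith
            simp [c1, c2, c3, c4]; decide
          · have c3 : s.2 < L p q s.1 := lt_of_le_of_ne (not_lt.1 c2) hs.symm
            simp [c1, c2, c3, c4]
    · -- r < s < p < q
      have a1 : ¬ (∃ x, p.1 < x ∧ x < q.1 ∧ r.1 < x ∧ x < s.1 ∧ L p q x = L r s x) := by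
        rintro ⟨x, _, _, _, _, _⟩; linarith
      have a2 : ¬ (p.1 < r.1 ∧ r.1 < q.1 ∧ L p q r.1 < r.2) := fun hh => by linarith [hh.1]
      have a3 : ¬ (p.1 < s.1 ∧ s.1 < q.1 ∧ L p q s.1 < s.2) := fun hh => by linarith [hh.1]
      have a4 : ¬ (r.1 < p.1 ∧ p.1 < s.1 ∧ L r s p.1 < p.2) := fun hh => by linarith [hh.2.1]
      have a5 : ¬ (r.1 < q.1 ∧ q.1 < s.1 ∧ L r s q.1 < q.2) := fun hh => by linarith [hh.2.1]
      rw [if_neg a1, if_neg a2, if_neg a3, if_neg a4, if_neg a5, if_neg (by linarith : ¬ p.1 < r.1),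
        if_neg (by linarith : ¬ q.1 < r.1), if_neg (by linarith : ¬ p.1 < s.1),
        if_neg (by linarith : ¬ q.1 < s.1)]
      decide

theorem Nd.swap₁ {p q r s : ℝ × ℝ} (h : Nd p q r s) : Nd q p r s := by
  intro t t0 t1
  have a := h (1 - t) (by linarith) (by linarith)
  have b := h t t0 t1
  rw [sub_sub_cancel, add_comm] at a
  exact ⟨a.1, a.2.1, b.2.2.2, b.2.2.1⟩

theorem Nd.swap₂ {p q r s : ℝ × ℝ} (h : Nd p q r s) : Nd p q s r := by
  intro t t0 t1
  have a := h (1 - t) (by linarith) (by linarith)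
  have b := h t t0 t1
  have e : (1 - (1 - t)) • r + (1 - t) • s = (1 - t) • s + t • r := by rw [sub_sub_cancel, add_comm]
  rw [e] at a
  exact ⟨b.2.1, b.1, a.2.2.1, a.2.2.2⟩

end Pool.Agent.Lib.MP3ff0f8.T.SGMM

namespace Pool.Agent.Lib.MP3ff0f8.T

open SGMM in
theorem specSGM : SpecSGM := by
  classical
  intro p q r s pq pr ps qr qs rs hn
  have hn' : SGMM.Nd p q r s := hn
  show (if Cr p q r s then (1 : ZMod 2) else 0) = R p q r s
  rcases lt_or_gt_of_ne pq with h | h <;> rcases lt_or_gt_of_ne rs with h' | h'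
  · exact main p q r s h h' pr ps qr qs hn'
  · rw [if_congr (cr_symm₂ p q r s) rfl rfl, R_symm₂]
    exact main p q s r h h' ps pr qs qr hn'.swap₂
  · rw [if_congr (cr_symm₁ p q r s) rfl rfl, R_symm₁]
    exact main q p r s h h' qr qs pr ps hn'.swap₁
  · rw [if_congr (cr_symm₁ p q r s) rfl rfl, R_symm₁, if_congr (cr_symm₂ q p r s) rfl rfl, R_symm₂]
    exact main q p s r h h' qs qr ps pr hn'.swap₁.swap₂

end Pool.Agent.Lib.MP3ff0f8.T
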