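import Pool.Agent.Lib.MP_3ff0f8_gt.T.Spec

section
/-!
# MP_3ff0f8_gt, topological half: module DFL (the `D₄` lemma)
-/
namespace Pool.Agent.Lib.MP3ff0f8.T

namespace DFLM

open Finset

lemma rv_rv {E : Type} (d : Dart E) : rv (rv d) = d := by
  obtain ⟨e, b⟩ := d
  simp [rv]

lemma eq_or_rv {E : Type} {d d' : Dart E} (h : d.1 = d'.1) : d = d' ∨ d = rv d' := by
  obtain ⟨e, b⟩ := d
  obtain ⟨e', b'⟩ := d'
  simp only at h
  subst h
  cases b <;> cases b' <;> simp [rv]

section

set_option linter.unusedSectionVars false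

variable {V E : Type} [DecidableEq V] [DecidableEq E] {G : Gr V E} {M : D4M V E}

/-- a `D₄` minor has disjoint bags -/
lemma bag_eq (hM : IsD4 G M) {i j : Fin 4} {x : V} (hi : x ∈ M.B i) (hj : x ∈ M.B j) : i = j := by
  by_contra h
  exact Finset.disjoint_left.1 (hM.disj i j h) hi hj

lemma ne_succ : ∀ i : Fin 4, i ≠ i + 1 := by decide

lemma vmem (hM : IsD4 G M) {i : Fin 4} {C : List (Dart E)} (hC : IsCi G M i C) {x : Dart E}
    (hx : x ∈ C) : G.vt x ∈ M.B i ∨ G.vt x ∈ M.B (i + 1) := by
  have hb : ∀ b, x.1 = (M.bd i b).1 → G.vt x ∈ M.B i ∨ G.vt x ∈ M.B (i + 1) := by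
    intro b h
    rcases eq_or_rv h with h | h
    · left
      rw [h]
      exact hM.bS i b
    · right
      rw [h]
      exact hM.bE i b
  rcases hC.mem x hx with h | h | h | h
  · exact Or.inl (hM.ends i x h)
  · exact Or.inr (hM.ends (i + 1) x h)
  · exact hb false h
  · exact hb true h

/-- the contracted minor -/
def MM (G : Gr V E) (M : D4M V E) (j : Fin 4) (d : Dart E) : D4M V E :=
  ⟨Function.update M.B j ((M.B j).erase (G.vt (rv d))),
    Function.update M.T j ((M.T j).erase d.1), M.bd⟩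

lemma MM_B_sub (j : Fin 4) (d : Dart E) (i : Fin 4) : (MM G M j d).B i ⊆ M.B i := by
  unfold MM
  simp only
  by_cases h : i = j
  · subst h
    rw [Function.update_self]
    exact Finset.erase_subset _ _
  · rw [Function.update_of_ne h]

lemma MM_T_sub (j : Fin 4) (d : Dart E) (i : Fin 4) : (MM G M j d).T i ⊆ M.T i := by
  unfold MM
  simp only
  by_cases h : i = j
  · subst h
    rw [Function.update_self]
    exact Finset.erase_subset _ _
  · rw [Function.update_of_ne h]

lemma MM_T_mem {j : Fin 4} {d : Dart E} {i : Fin 4} {e : E} (he : e ∈ M.T i) (h : e ≠ d.1) :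
    e ∈ (MM G M j d).T i := by
  unfold MM
  simp only
  by_cases hi : i = j
  · subst hi
    rw [Function.update_self]
    exact Finset.mem_erase.2 ⟨h, he⟩
  · rwa [Function.update_of_ne hi]

variable {j : Fin 4} {d : Dart E}

lemma ends2 (hM : IsD4 G M) (hd : d.1 ∈ M.T j) : G.vt d ∈ M.B j ∧ G.vt (rv d) ∈ M.B j :=
  ⟨hM.ends j d hd, hM.ends j (rv d) hd⟩

lemma memB (hM : IsD4 G M) (hd : d.1 ∈ M.T j) (hne : G.vt d ≠ G.vt (rv d)) {x : Dart E}
    {i : Fin 4} (hx : G.vt x ∈ M.B i) : (G.con d).vt x ∈ (MM G M j d).B i := by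
  obtain ⟨h1, h2⟩ := ends2 hM hd
  unfold Gr.con MM
  simp only
  by_cases h : G.vt x = G.vt (rv d)
  · rw [if_pos h]
    have : i = j := bag_eq hM (h ▸ hx) h2
    subst this
    rw [Function.update_self]
    exact Finset.mem_erase.2 ⟨hne, h1⟩
  · rw [if_neg h]
    by_cases hi : i = j
    · subst hi
      rw [Function.update_self]
      exact Finset.mem_erase.2 ⟨h, hx⟩
    · rwa [Function.update_of_ne hi]

lemma bead_ne (hM : IsD4 G M) (hd : d.1 ∈ M.T j) (i : Fin 4) (b : Bool) :
    (M.bd i b).1 ≠ d.1 := by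
  intro h
  obtain ⟨h1, h2⟩ := ends2 hM hd
  have h3 : G.vt (M.bd i b) ∈ M.B j ∧ G.vt (rv (M.bd i b)) ∈ M.B j := by
    rcases eq_or_rv h with h | h
    · rw [h]
      exact ⟨h1, h2⟩
    · rw [h, rv_rv]
      exact ⟨h2, h1⟩
  have h4 := bag_eq hM (hM.bS i b) h3.1
  have h5 := bag_eq hM (hM.bE i b) h3.2
  exact ne_succ i (h4.trans h5.symm)

theorem isD4_con (hM : IsD4 G M) (hd : d.1 ∈ M.T j) (hne : G.vt d ≠ G.vt (rv d)) :
    IsD4 (G.con d) (MM G M j d) := by
  obtain ⟨hp, hp'⟩ := ends2 hM hd
  constructor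
  · intro i k hik
    exact Finset.disjoint_of_subset_left (MM_B_sub j d i)
      (Finset.disjoint_of_subset_right (MM_B_sub j d k) (hM.disj i k hik))
  · intro i e he
    refine Finset.mem_erase.2 ⟨?_, hM.sub i (MM_T_sub j d i he)⟩
    rintro rfl
    have hi : i = j := bag_eq hM (hM.ends i d (MM_T_sub j d i he)) hp
    subst hi
    unfold MM at he
    simp only [Function.update_self] at he
    exact Finset.notMem_erase _ _ he
  · intro i x hx
    exact memB hM hd hne (hM.ends i x (MM_T_sub j d i hx))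
  · intro i S hS hSn hSne
    by_cases hi : i = j
    · subst hi
      have hBi : (MM G M i d).B i = (M.B i).erase (G.vt (rv d)) := by
        unfold MM
        simp only [Function.update_self]
      rw [hBi] at hS hSne
      have hp'S : G.vt (rv d) ∉ S := fun h => Finset.notMem_erase _ _ (hS h)
      obtain ⟨x, hxT, hx1, hx2, hx3⟩ := hM.conn i (if G.vt d ∈ S then insert (G.vt (rv d)) S else S)
        (by
          split_ifs with h
          · intro y hy
            rcases Finset.mem_insert.1 hy with rfl | hy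
            · exact hp'
            · exact Finset.mem_of_mem_erase (hS hy)
          · exact fun y hy => Finset.mem_of_mem_erase (hS hy))
        (by
          split_ifs with h
          · exact Finset.insert_nonempty _ _
          · exact hSn)
        (by
          split_ifs with h
          · intro h'
            apply hSne
            rw [← h', Finset.erase_insert hp'S]
          · intro h'
            rw [h'] at h
            exact h hp)
      have hxd : x.1 ≠ d.1 := by
        intro h
        by_cases hS' : G.vt d ∈ S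
        · rw [if_pos hS'] at hx3
          rcases eq_or_rv h with h | h
          · rw [h] at hx3
            exact hx3 (Finset.mem_insert_self _ _)
          · rw [h, rv_rv] at hx3
            exact hx3 (Finset.mem_insert_of_mem hS')
        · rw [if_neg hS'] at hx1
          rcases eq_or_rv h with h | h
          · rw [h] at hx1
            exact hS' hx1
          · rw [h] at hx1
            exact hp'S hx1
      refine ⟨x, MM_T_mem hxT hxd, ?_, ?_, ?_⟩
      · unfold Gr.con
        simp only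
        by_cases h : G.vt x = G.vt (rv d)
        · rw [if_pos h]
          by_contra hS'
          rw [if_neg hS', h] at hx1
          exact hp'S hx1
        · rw [if_neg h]
          by_cases hS' : G.vt d ∈ S
          · rw [if_pos hS'] at hx1
            exact (Finset.mem_insert.1 hx1).resolve_left h
          · rwa [if_neg hS'] at hx1
      · exact memB hM hd hne hx2
      · unfold Gr.con
        simp only
        by_cases h : G.vt (rv x) = G.vt (rv d)
        · rw [if_pos h]
          intro hS'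
          rw [if_pos hS', h] at hx3
          exact hx3 (Finset.mem_insert_self _ _)
        · rw [if_neg h]
          intro hx
          apply hx3
          split_ifs with hS'
          · exact Finset.mem_insert_of_mem hx
          · exact hx
    · have hBi : (MM G M j d).B i = M.B i := by
        unfold MM
        simp only [Function.update_of_ne hi]
      rw [hBi] at hS hSne
      obtain ⟨x, hxT, hx1, hx2, hx3⟩ := hM.conn i S hS hSn hSne
      have hxd : x.1 ≠ d.1 := by
        intro h
        rw [h] at hxT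
        exact hi (bag_eq hM (hM.ends i d hxT) hp)
      have hv : ∀ y : Dart E, G.vt y ∈ M.B i → (G.con d).vt y = G.vt y := by
        intro y hy
        unfold Gr.con
        simp only
        rw [if_neg]
        intro h
        rw [h] at hy
        exact hi (bag_eq hM hy hp')
      refine ⟨x, MM_T_mem hxT hxd, ?_, ?_, ?_⟩
      · rw [hv x (hS hx1)]
        exact hx1
      · exact memB hM hd hne hx2
      · rw [hv (rv x) hx2]
        exact hx3
  · intro i
    unfold MM
    simp only
    by_cases hi : i = j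
    · subst hi
      rw [Function.update_self, Function.update_self, Finset.card_erase_of_mem hd,
        Finset.card_erase_of_mem hp', ← hM.card i]
      have : 0 < (M.T i).card := Finset.card_pos.2 ⟨_, hd⟩
      omega
    · rw [Function.update_of_ne hi, Function.update_of_ne hi]
      exact hM.card i
  · intro i b
    exact Finset.mem_erase.2 ⟨bead_ne hM hd i b, hM.bX i b⟩
  · intro i b
    exact memB hM hd hne (hM.bS i b)
  · intro i b
    exact memB hM hd hne (hM.bE i b)
  · intro i
    exact hM.bN i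

lemma mem_del {e : E} {c : List (Dart E)} {x : Dart E} : x ∈ del e c ↔ x ∈ c ∧ x.1 ≠ e := by
  simp [del]

lemma isCe_del (hM : IsD4 G M) (hd : d.1 ∈ M.T j) {ε : Fin 4 → Bool}
    {c : List (Dart E)} (hc : IsCe G M ε c) (hcyc : IsCyc (G.con d) (del d.1 c)) :
    IsCe (G.con d) (MM G M j d) ε (del d.1 c) := by
  constructor
  · exact hcyc
  · intro x hx
    obtain ⟨hx, hxd⟩ := mem_del.1 hx
    rcases hc.mem x hx with ⟨i, hi⟩ | h
    · exact Or.inl ⟨i, MM_T_mem hi hxd⟩
    · exact Or.inr h
  · intro i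
    exact mem_del.2 ⟨hc.bds i, bead_ne hM hd i _⟩

/-- the next dart -/
lemma next {c : List (Dart E)} (hc : IsCyc G c) {x : Dart E} (hx : x ∈ c) :
    ∃ y ∈ c, G.vt y = G.vt (rv x) := by
  have h : G.vt (rv x) ∈ c.map (fun d => G.vt (rv d)) := List.mem_map.2 ⟨x, hx, rfl⟩
  rw [hc.cl, List.mem_rotate] at h
  exact List.mem_map.1 h

lemma isCi_lift (hM : IsD4 G M) (hd : d.1 ∈ M.T j) (hne : G.vt d ≠ G.vt (rv d)) {i : Fin 4}
    {C C' : List (Dart E)} (hC' : IsCi (G.con d) (MM G M j d) i C') (hC : IsCyc G C)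
    (hm : ∀ x, x ∈ del d.1 C ↔ x ∈ C') : IsCi G M i C := by
  have hM' := isD4_con hM hd hne
  constructor
  · exact hC
  · intro x hx
    by_cases hxd : x.1 = d.1
    · obtain ⟨y, hy, hyx⟩ := next hC hx
      have hyx' : y ≠ x := by
        rintro rfl
        rcases eq_or_rv hxd with h | h
        · rw [h] at hyx
          exact hne hyx
        · rw [h, rv_rv] at hyx
          exact hne hyx.symm
      have hyd : y.1 ≠ d.1 := by
        intro h
        exact hyx' (List.inj_on_of_nodup_map hC.nde hy hx (h.trans hxd.symm))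
      have hyC' : y ∈ C' := (hm y).1 (mem_del.2 ⟨hy, hyd⟩)
      have hvt : (G.con d).vt y = G.vt d := by
        unfold Gr.con
        simp only
        rcases eq_or_rv hxd with h | h
        · rw [h] at hyx
          rw [if_pos hyx]
        · rw [h, rv_rv] at hyx
          rw [if_neg (by rw [hyx]; exact hne), hyx]
      have := vmem hM' hC' hyC'
      rw [hvt] at this
      rcases this with h | h
      · left
        rw [hxd, bag_eq hM (MM_B_sub j d _ h) (ends2 hM hd).1]
        exact hd
      · right; left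
        rw [hxd, bag_eq hM (MM_B_sub j d _ h) (ends2 hM hd).1]
        exact hd
    · rcases hC'.mem x ((hm x).1 (mem_del.2 ⟨hx, hxd⟩)) with h | h | h | h
      · exact Or.inl (MM_T_sub j d i h)
      · exact Or.inr (Or.inl (MM_T_sub j d (i + 1) h))
      · exact Or.inr (Or.inr (Or.inl h))
      · exact Or.inr (Or.inr (Or.inr h))
  · obtain ⟨x, hx, hx'⟩ := List.mem_map.1 hC'.b0
    exact List.mem_map.2 ⟨x, (mem_del.1 ((hm x).2 hx)).1, hx'⟩
  · obtain ⟨x, hx, hx'⟩ := List.mem_map.1 hC'.b1
    exact List.mem_map.2 ⟨x, (mem_del.1 ((hm x).2 hx)).1, hx'⟩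

lemma lk_congr (W : List (Dart E × Dart E)) {c c' e e' : List (Dart E)}
    (h : ∀ x, x ∈ c ↔ x ∈ c') (h' : ∀ x, x ∈ e ↔ x ∈ e') : lk W c e = lk W c' e' := by
  unfold lk
  simp only [List.mem_map, h, h']

lemma dj_of (hM : IsD4 G M) {i k : Fin 4} (h1 : i ≠ k) (h2 : i ≠ k + 1) (h3 : i + 1 ≠ k)
    (h4 : i + 1 ≠ k + 1) {c c' C C' : List (Dart E)} (hC : IsCi G M i C) (hC' : IsCi G M k C')
    (hm : ∀ x, x ∈ c ↔ x ∈ C) (hm' : ∀ x, x ∈ c' ↔ x ∈ C') : Dj G c c' := by
  intro x hx y hy hxy
  rcases vmem hM hC ((hm x).1 hx) with h | h <;> rcases vmem hM hC' ((hm' y).1 hy) with h' | h' <;>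
    rw [hxy] at h
  · exact h1 (bag_eq hM h h')
  · exact h2 (bag_eq hM h h')
  · exact h3 (bag_eq hM h h')
  · exact h4 (bag_eq hM h h')

end

end DFLM

open DFLM in
/-- **DFL** -/
theorem specDFL (hDFB : SpecDFB) (hDFC : SpecDFC) (hCON : SpecCON) (hLIF : SpecLIF)
    (hRSF : SpecRSF) (hCYC : SpecCYC) : SpecDFL := by
  intro V E _ _ G M
  generalize hn : ∑ i, (M.T i).card = n
  induction n using Nat.strong_induction_on generalizing G M with
  | _ n ih =>
  intro hM c hc
  by_cases hT : ∀ i, M.T i = ∅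
  · exact hDFB M hM hT c hc
  · push Not at hT
    obtain ⟨j, hj⟩ := hT
    obtain ⟨d, hd, hne⟩ : ∃ d : Dart E, d.1 ∈ M.T j ∧ G.vt d ≠ G.vt (rv d) := by
      have h1 : 2 ≤ (M.B j).card := by
        rw [← hM.card j]
        have := Finset.card_pos.2 hj
        omega
      obtain ⟨b, hb⟩ : (M.B j).Nonempty := Finset.card_pos.1 (by omega)
      obtain ⟨d, hd, h2, h3, h4⟩ := hM.conn j {b} (Finset.singleton_subset_iff.2 hb)
        (Finset.singleton_nonempty b) (by
          intro h
          rw [← h, Finset.card_singleton] at h1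
          omega)
      refine ⟨d, hd, ?_⟩
      intro h
      rw [← h] at h4
      exact h4 h2
    have hdX : d.1 ∈ G.X := hM.sub j hd
    have hM' := isD4_con hM hd hne
    have hcyc' : ∀ ε, IsCyc (G.con d) (del d.1 (c ε)) := fun ε => hDFC M hM ε (c ε) (hc ε) j d hd hne
    have hc' : ∀ ε, IsCe (G.con d) (MM G M j d) ε (del d.1 (c ε)) :=
      fun ε => isCe_del hM hd (hc ε) (hcyc' ε)
    have hlt : ∑ i, ((MM G M j d).T i).card < n := by
      rw [← hn]
      apply Finset.sum_lt_sum
      · intro i _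
        exact Finset.card_le_card (MM_T_sub j d i)
      · refine ⟨j, Finset.mem_univ _, ?_⟩
        have : (MM G M j d).T j = (M.T j).erase d.1 := by
          unfold MM
          simp only [Function.update_self]
        rw [this]
        exact Finset.card_erase_lt_of_mem hd
    obtain ⟨ih1, ih2⟩ := ih _ hlt (MM G M j d) rfl hM' (fun ε => del d.1 (c ε)) hc'
    have hfst : ∀ F ∈ FF G, ∑ ε, F (c ε) = 0 := by
      intro F hF
      obtain ⟨F', hF', h⟩ := hRSF d hdX hne F hF
      rw [← ih1 F' hF']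
      apply Finset.sum_congr rfl
      intro ε _
      exact (h (c ε) (hc ε).cyc (hcyc' ε)).symm
    refine ⟨hfst, ?_⟩
    intro bot W top hD
    obtain ⟨bot', W', top', hD', ⟨F, hF, hFv⟩, hlk⟩ := hCON hD d hdX hne
    obtain ⟨C', hC', hsum⟩ := ih2 bot' W' top' hD'
    have hlift : ∀ i, ∃ C, IsCyc G C ∧ (del d.1 C).IsRotated (C' i) :=
      fun i => hLIF d hdX hne (C' i) (hC' i).cyc
    choose C hC hrot using hlift
    have hm : ∀ i x, x ∈ del d.1 (C i) ↔ x ∈ C' i := fun i x => (hrot i).mem_iff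
    have hdc : ∀ i, IsCyc (G.con d) (del d.1 (C i)) := by
      intro i
      obtain ⟨k, hk⟩ := (hrot i).symm
      rw [← hk]
      exact hCYC.rot k (hC' i).cyc
    refine ⟨C, fun i => isCi_lift hM hd hne (hC' i) (hC i) (hm i), ?_⟩
    have h02 : lk W' (C' 0) (C' 2) = lk W (C 0) (C 2) := by
      rw [← hlk (C 0) (C 2) (hC 0) (hC 2) (hdc 0) (hdc 2)
        (dj_of hM' (by decide) (by decide) (by decide) (by decide) (hC' 0) (hC' 2) (hm 0) (hm 2))]
      exact lk_congr W' (fun x => (hm 0 x).symm) fun x => (hm 2 x).symm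
    have h31 : lk W' (C' 3) (C' 1) = lk W (C 3) (C 1) := by
      rw [← hlk (C 3) (C 1) (hC 3) (hC 1) (hdc 3) (hdc 1)
        (dj_of hM' (by decide) (by decide) (by decide) (by decide) (hC' 3) (hC' 1) (hm 3) (hm 1))]
      exact lk_congr W' (fun x => (hm 3 x).symm) fun x => (hm 1 x).symm
    rw [← h02, ← h31, ← hsum]
    have : ∀ ε, AW (cv (del d.1 (c ε))) W' = AW (cv (c ε)) W + F (c ε) :=
      fun ε => hFv (c ε) (hc ε).cyc (hcyc' ε)
    simp only [this]
    rw [Finset.sum_add_distrib, hfst F hF, add_zero]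

end Pool.Agent.Lib.MP3ff0f8.T
end

section
/-!
# MP_3ff0f8_gt, topological half: module EMB (the realisation is an embedding)
-/
namespace Pool.Agent.Lib.MP3ff0f8.T

namespace EMBM

variable {V E : Type} [Fintype V] [DecidableEq V] [DecidableEq E]

/-- the arc of the realisation -/
lemma arc_len (vt : Dart E → V) (bot : List (Dart E)) (W : List (Dart E × Dart E)) (e : E) :
    ((real vt bot W).arc e).length = 4 * W.length + 2 := by
  simp only [real, List.length_append, List.length_map, List.length_range, List.length_reverse]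
  ring

lemma nodes_zero (vt : Dart E → V) (bot : List (Dart E)) (W : List (Dart E × Dart E)) (e : E) :
    ((real vt bot W).nodes vt e).getD 0 0 = vxr vt bot (vt (e, false)) := by
  simp [Emb.nodes, real]

lemma nodes_up0 (vt : Dart E → V) (bot : List (Dart E)) (W : List (Dart E × Dart E)) (e : E)
    (j : ℕ) (hj : j ≤ 2 * W.length) :
    ((real vt bot W).nodes vt e).getD (j + 1) 0 = Nd bot W (e, false) j := by
  have h1 : ((real vt bot W).nodes vt e)[j + 1]? = some (Nd bot W (e, false) j) := by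
    simp only [Emb.nodes, real, List.getElem?_cons_succ]
    rw [List.getElem?_append_left (by simp; omega), List.getElem?_append_left (by simp; omega)]
    rw [List.getElem?_map, List.getElem?_range (by omega)]
    rfl
  rw [List.getD_eq_getElem?_getD, h1]
  rfl

lemma nodes_up1 (vt : Dart E → V) (bot : List (Dart E)) (W : List (Dart E × Dart E)) (e : E)
    (j : ℕ) (hj : j ≤ 2 * W.length) :
    ((real vt bot W).nodes vt e).getD (4 * W.length + 2 - j) 0 = Nd bot W (e, true) j := by
  have h1 : ((real vt bot W).nodes vt e)[4 * W.length + 2 - j]? = some (Nd bot W (e, true) j) := by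
    obtain ⟨k, hk⟩ : ∃ k, 4 * W.length + 2 - j = k + 1 := ⟨4 * W.length + 1 - j, by omega⟩
    rw [hk]
    simp only [Emb.nodes, real, List.getElem?_cons_succ]
    rw [List.getElem?_append_left (by simp; omega), List.getElem?_append_right (by simp; omega)]
    rw [List.getElem?_map, List.length_map, List.length_range,
      List.getElem?_reverse (by simp; omega), List.length_range, List.getElem?_range (by omega)]
    simp only [Option.map_some]
    congr 2
    omega
  rw [List.getD_eq_getElem?_getD, h1]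
  rfl

lemma nodes_last (vt : Dart E → V) (bot : List (Dart E)) (W : List (Dart E × Dart E)) (e : E) :
    ((real vt bot W).nodes vt e).getD (4 * W.length + 3) 0 = vxr vt bot (vt (e, true)) := by
  have h1 : ((real vt bot W).nodes vt e)[4 * W.length + 3]? = some (vxr vt bot (vt (e, true))) := by
    have h2 := arc_len vt bot W e
    simp only [Emb.nodes, List.getElem?_cons_succ]
    rw [List.getElem?_append_right (by omega), h2, Nat.sub_self]
    rfl
  rw [List.getD_eq_getElem?_getD, h1]
  rfl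

/-- every segment has a label and a direction -/
lemma label (vt : Dart E → V) (bot : List (Dart E)) (W : List (Dart E × Dart E)) (e : E)
    (i : ℕ) (hi : i ≤ 4 * W.length + 2) :
    ∃ l : Lab E, l.ok W ∧
      (((real vt bot W).sg vt e i = (l.lo vt bot W, l.hi bot W)) ∨
        ((real vt bot W).sg vt e i = (l.hi bot W, l.lo vt bot W))) ∧
      ((i = 0 ∧ l = .fan (e, false)) ∨
        (1 ≤ i ∧ i ≤ 2 * W.length ∧ l = .up (e, false) (i - 1)) ∨
        (i = 2 * W.length + 1 ∧ l = .cap e) ∨
        (2 * W.length + 2 ≤ i ∧ i ≤ 4 * W.length + 1 ∧ l = .up (e, true) (4 * W.length + 1 - i)) ∨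
        (i = 4 * W.length + 2 ∧ l = .fan (e, true))) := by
  rcases Nat.lt_or_ge 0 i with h0 | h0
  swap
  · obtain rfl : i = 0 := by omega
    refine ⟨.fan (e, false), trivial, Or.inl ?_, Or.inl ⟨rfl, rfl⟩⟩
    simp only [Emb.sg, Lab.lo, Lab.hi]
    rw [nodes_zero, nodes_up0 vt bot W e 0 (by omega)]
  rcases Nat.lt_or_ge (2 * W.length) i with h1 | h1
  swap
  · refine ⟨.up (e, false) (i - 1), ?_, Or.inl ?_, Or.inr (Or.inl ⟨h0, h1, rfl⟩)⟩
    · show i - 1 < 2 * W.length
      omega
    · simp only [Emb.sg, Lab.lo, Lab.hi]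
      obtain ⟨k, rfl⟩ : ∃ k, i = k + 1 := ⟨i - 1, by omega⟩
      rw [nodes_up0 vt bot W e k (by omega), nodes_up0 vt bot W e (k + 1) (by omega)]
      rfl
  rcases Nat.lt_or_ge (2 * W.length + 1) i with h2 | h2
  swap
  · obtain rfl : i = 2 * W.length + 1 := by omega
    refine ⟨.cap e, trivial, Or.inl ?_, Or.inr (Or.inr (Or.inl ⟨rfl, rfl⟩))⟩
    simp only [Emb.sg, Lab.lo, Lab.hi]
    rw [nodes_up0 vt bot W e (2 * W.length) le_rfl]
    have h3 := nodes_up1 vt bot W e (2 * W.length) le_rfl
    rw [show 4 * W.length + 2 - 2 * W.length = 2 * W.length + 1 + 1 by omega] at h3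
    rw [h3]
  rcases Nat.lt_or_ge (4 * W.length + 1) i with h3 | h3
  swap
  · refine ⟨.up (e, true) (4 * W.length + 1 - i), ?_, Or.inr ?_,
      Or.inr (Or.inr (Or.inr (Or.inl ⟨h2, h3, rfl⟩)))⟩
    · show 4 * W.length + 1 - i < 2 * W.length
      omega
    · simp only [Emb.sg, Lab.lo, Lab.hi]
      have h4 := nodes_up1 vt bot W e (4 * W.length + 1 - i + 1) (by omega)
      have h5 := nodes_up1 vt bot W e (4 * W.length + 1 - i) (by omega)
      rw [show 4 * W.length + 2 - (4 * W.length + 1 - i + 1) = i by omega] at h4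
      rw [show 4 * W.length + 2 - (4 * W.length + 1 - i) = i + 1 by omega] at h5
      rw [h4, h5]
  · obtain rfl : i = 4 * W.length + 2 := by omega
    refine ⟨.fan (e, true), trivial, Or.inr ?_, Or.inr (Or.inr (Or.inr (Or.inr ⟨rfl, rfl⟩)))⟩
    simp only [Emb.sg, Lab.lo, Lab.hi]
    rw [nodes_last]
    have h4 := nodes_up1 vt bot W e 0 (by omega)
    rw [show 4 * W.length + 2 - 0 = 4 * W.length + 2 by omega] at h4
    rw [h4]

omit [Fintype V] [DecidableEq V] in
lemma height (bot : List (Dart E)) (W : List (Dart E × Dart E)) (s : Dart E) (k : ℕ)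
    (h : k < W.length) :
    ((Nd bot W s (2 * k + 1)).2.2 = if W[k].1 = s then 1 else 0) ∧
    ((Nd bot W s (2 * k + 1 + 1)).2.2 = if W[k].1 = s then 1 else 0) := by
  have h1 : (2 * k + 1 - 1) / 2 = k := by omega
  have h2 : (2 * k + 1 + 1 - 1) / 2 = k := by omega
  have h3 : (W.map Prod.fst)[k]? = some W[k].1 := by
    rw [List.getElem?_map, List.getElem?_eq_getElem h]
    rfl
  simp only [Nd, h1, h2, h3, Option.some.injEq]
  constructor
  · by_cases h4 : W[k].1 = s
    · simp [h4]
    · simp [h4]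
  · by_cases h4 : W[k].1 = s
    · simp [h4]
    · simp [h4]

end EMBM

open EMBM in
theorem specEMB (hPLN : SpecPLN) (hNOD : SpecNOD) (hSTT : SpecSTT) : SpecEMB := by
  intro V E _ _ _ _ vt bot top W hD
  have hss := hNOD.ss vt bot top W hD
  have hvs := hNOD.vs vt bot W
  have hvv := hNOD.vv vt bot
  have hmem : ∀ e p, p ∈ (real vt bot W).arc e →
      ∃ b j, j ≤ 2 * W.length ∧ Nd bot W (e, b) j = p := by
    intro e p hp
    simp only [real, List.mem_append, List.mem_map, List.mem_range, List.mem_reverse] at hp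
    rcases hp with ⟨j, hj, rfl⟩ | ⟨j, hj, rfl⟩
    · exact ⟨false, j, by omega, rfl⟩
    · exact ⟨true, j, by omega, rfl⟩
  have hlohi : ∀ l : Lab E, l.ok W → l.lo vt bot W ≠ l.hi bot W := by
    intro l hl
    cases l with
    | fan s => exact hvs _ _ _
    | up s j =>
      intro h
      have hj : j < 2 * W.length := hl
      have := (hss s s j (j + 1) (by omega) (by omega) h).2
      omega
    | cap e =>
      intro h
      have := (hss (e, false) (e, true) _ _ le_rfl le_rfl h).1
      simp at this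
  refine ⟨hvv, ?_, ?_, ?_, ?_, ?_⟩
  · intro e
    simp only [real]
    rw [List.nodup_append]
    refine ⟨?_, ?_, ?_⟩
    · rw [List.nodup_map_iff_inj_on List.nodup_range]
      intro a ha b hb hab
      rw [List.mem_range] at ha hb
      exact (hss _ _ _ _ (by omega) (by omega) hab).2
    · rw [List.nodup_map_iff_inj_on (List.nodup_reverse.2 List.nodup_range)]
      intro a ha b hb hab
      rw [List.mem_reverse, List.mem_range] at ha hb
      exact (hss _ _ _ _ (by omega) (by omega) hab).2
    · intro p hp q hq hpq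
      rw [List.mem_map] at hp hq
      obtain ⟨j, hj, rfl⟩ := hp
      obtain ⟨j', hj', rfl⟩ := hq
      rw [List.mem_range] at hj
      rw [List.mem_reverse, List.mem_range] at hj'
      have := (hss _ _ _ _ (by omega) (by omega) hpq).1
      simp at this
  · intro e e' hne p hp hp'
    obtain ⟨b, j, hj, rfl⟩ := hmem e p hp
    obtain ⟨b', j', hj', h⟩ := hmem e' _ hp'
    have := (hss _ _ _ _ hj' hj h).1
    exact hne (Prod.mk.inj this).1.symm
  · intro v e hv
    obtain ⟨b, j, hj, h⟩ := hmem e _ hv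
    exact hvs _ _ _ h.symm
  · intro e i hi
    rw [arc_len] at hi
    obtain ⟨l, hl, hs, -⟩ := label vt bot W e i hi
    rcases hs with hs | hs
    · rw [hs]; exact hlohi l hl
    · rw [hs]; exact (hlohi l hl).symm
  · intro e e' i j hi hj hne p hp hp'
    rw [arc_len] at hi hj
    obtain ⟨l, hl, hs, hli⟩ := label vt bot W e i hi
    obtain ⟨l', hl', hs', hli'⟩ := label vt bot W e' j hj
    have hll : l ≠ l' := by
      intro h
      subst h
      apply hne
      rcases hli with ⟨h1, h2⟩ | ⟨h1, h1', h2⟩ | ⟨h1, h2⟩ | ⟨h1, h1', h2⟩ | ⟨h1, h2⟩ <;>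
      rcases hli' with ⟨h3, h4⟩ | ⟨h3, h3', h4⟩ | ⟨h3, h4⟩ | ⟨h3, h3', h4⟩ | ⟨h3, h4⟩ <;>
      · rw [h2] at h4
        simp only [Lab.fan.injEq, Lab.up.injEq, Lab.cap.injEq, Prod.mk.injEq, and_true, and_false,
          false_and, reduceCtorEq] at h4 <;>
        first
          | (rw [Prod.mk.injEq]; exact ⟨h4, by omega⟩)
          | (rw [Prod.mk.injEq]; exact ⟨h4.1, by omega⟩)
    have hseg : ∀ (l : Lab E) (q r : P3), ((q, r) = (l.lo vt bot W, l.hi bot W) ∨
        (q, r) = (l.hi bot W, l.lo vt bot W)) → p ∈ segment ℝ q r →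
        ∃ t : ℝ, 0 ≤ t ∧ t ≤ 1 ∧ l.p vt bot W t = p := by
      intro l q r hqr hpq
      rcases hqr with hqr | hqr
      · obtain ⟨rfl, rfl⟩ := Prod.mk.inj hqr
        obtain ⟨a, b, ha, hb, hab, rfl⟩ := hpq
        refine ⟨b, hb, by linarith, ?_⟩
        simp only [Lab.p]
        rw [show 1 - b = a by linarith]
      · obtain ⟨rfl, rfl⟩ := Prod.mk.inj hqr
        obtain ⟨a, b, ha, hb, hab, rfl⟩ := hpq
        refine ⟨a, ha, by linarith, ?_⟩
        simp only [Lab.p]
        rw [show 1 - a = b by linarith, add_comm]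
    obtain ⟨s, hs0, hs1, hsp⟩ := hseg l _ _ hs hp
    obtain ⟨t, ht0, ht1, htp⟩ := hseg l' _ _ hs' hp'
    have hend : ∀ (l : Lab E) (q r : P3) (t : ℝ), ((q, r) = (l.lo vt bot W, l.hi bot W) ∨
        (q, r) = (l.hi bot W, l.lo vt bot W)) → (t = 0 ∨ t = 1) → l.p vt bot W t = p →
        p = q ∨ p = r := by
      intro l q r t hqr ht hpt
      have h1 : p = l.lo vt bot W ∨ p = l.hi bot W := by
        rcases ht with rfl | rfl
        · left; rw [← hpt]; simp [Lab.p]
        · right; rw [← hpt]; simp [Lab.p]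
      rcases hqr with hqr | hqr
      · obtain ⟨rfl, rfl⟩ := Prod.mk.inj hqr
        exact h1
      · obtain ⟨rfl, rfl⟩ := Prod.mk.inj hqr
        exact h1.symm
    have hxy : samexy (l.p vt bot W s) (l'.p vt bot W t) := by
      rw [hsp, htp]; exact ⟨rfl, rfl⟩
    rcases hPLN vt bot top W hD l l' hl hl' hll s t hs0 hs1 ht0 ht1 hxy with
      ⟨-, h1, h2⟩ | ⟨rfl, rfl, k, hk, h⟩
    · exact ⟨hend l _ _ s hs h1 hsp, hend l' _ _ t hs' h2 htp⟩
    · exfalso
      have hstep := (hSTT.step hD.dia.nd hD.dia.run k hk).1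
      have hne' : W[k].1 ≠ W[k].2 := by
        intro h
        rw [h] at hstep
        omega
      have hz : (l.p vt bot W (1 / 2)).2.2 = (l'.p vt bot W (1 / 2)).2.2 := by rw [hsp, htp]
      have h1 := height bot W W[k].1 k hk
      have h2 := height bot W W[k].2 k hk
      rw [if_pos rfl] at h1
      rw [if_neg hne'] at h2
      have e1 : ((Lab.up W[k].1 (2 * k + 1)).p vt bot W (1 / 2)).2.2 = 1 := by
        simp only [Lab.p, Lab.lo, Lab.hi, Prod.snd_add, Prod.smul_snd, h1.1, h1.2, smul_eq_mul]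
        norm_num
      have e2 : ((Lab.up W[k].2 (2 * k + 1)).p vt bot W (1 / 2)).2.2 = 0 := by
        simp only [Lab.p, Lab.lo, Lab.hi, Prod.snd_add, Prod.smul_snd, h2.1, h2.2, smul_eq_mul]
        norm_num
      rcases h with ⟨rfl, rfl⟩ | ⟨rfl, rfl⟩
      · rw [e1, e2] at hz; norm_num at hz
      · rw [e1, e2] at hz; norm_num at hz

end Pool.Agent.Lib.MP3ff0f8.T
end

section
/-! # FIN: the conclusion of the topological half -/
namespace Pool.Agent.Lib.MP3ff0f8.T

theorem specFIN (hIND : SpecIND) (hGTW : SpecGTW) (hEMB : SpecEMB) (hPVC : SpecPVC) : SpecFIN := by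
  intro V E _ _ _ _ vt hI Γ hΓ
  by_contra hno
  obtain ⟨bot, W, top, hdia, hz⟩ := hIND (fg vt) (hGTW vt Γ hΓ hno)
  obtain ⟨c, hc, ha⟩ := hI (real vt bot W) (hEMB vt bot top W hdia)
  obtain ⟨hR, hp⟩ := hPVC vt bot top W hdia c hc
  have hid : sh 0 0 = id := by
    funext p
    simp [sh]
  have h0 := ha 0 0
  rw [hid, List.map_id] at h0
  have h1 : Odd (pv ((real vt bot W).poly vt c)) := h0 hR
  rw [hz c hc] at hp
  have h2 : Even (pv ((real vt bot W).poly vt c)) := by
    rw [← ZMod.natCast_eq_zero_iff_even]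
    exact hp
  exact (Nat.not_even_iff_odd.2 h1) h2

end Pool.Agent.Lib.MP3ff0f8.T
end

section
/-!
# Module FRT: a block can be moved to the front or to the end
-/
set_option autoImplicit false
set_option linter.unusedSectionVars false

namespace Pool.Agent.Lib.MP3ff0f8.T

namespace FRTM

section words

variable {S : Type} [DecidableEq S]

theorem par_zero {α : Type} [DecidableEq α] {W : List α} {z : α} (h : z ∉ W) : par W z = 0 := by
  unfold par
  rw [List.count_eq_zero_of_not_mem h]
  rfl

theorem inv_swap {A B : List S} (hnd : (A ++ B).Nodup) {s p : S} (hs : s ∈ A) (hp : p ∈ B) :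
    inv (A ++ B) (B ++ A) s p = 1 := by
  have hd : ∀ x ∈ A, x ∉ B := fun x hx hx' => (List.nodup_append.1 hnd).2.2 x hx x hx' rfl
  have h1 : (A ++ B).idxOf s < (A ++ B).idxOf p := by
    rw [List.idxOf_append_of_mem hs, List.idxOf_append_of_notMem fun h => hd p h hp]
    have := List.idxOf_lt_length_iff.2 hs
    omega
  have h2 : ¬ (B ++ A).idxOf s < (B ++ A).idxOf p := by
    rw [List.idxOf_append_of_mem hp, List.idxOf_append_of_notMem (hd s hs)]
    have := List.idxOf_lt_length_iff.2 hp
    omega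
  unfold inv
  rw [if_neg]
  intro h
  exact h2 (h.1 h1)

theorem par_exch (hRUN : SpecRUN) {A B : List S} {W : List (S × S)} (hnd : (A ++ B).Nodup)
    (hR : Run (A ++ B) W (B ++ A)) (hW : ∀ z ∈ W, z.1 ∈ A ∧ z.2 ∈ B) {s p : S} (hs : s ∈ A)
    (hp : p ∈ B) : par W (s, p) = 1 := by
  have hd : ∀ x ∈ A, x ∉ B := fun x hx hx' => (List.nodup_append.1 hnd).2.2 x hx x hx' rfl
  have h1 := hRUN.pari hnd hR s (List.mem_append_left _ hs) p (List.mem_append_right _ hp)
    (fun h => hd s hs (h ▸ hp))
  rw [inv_swap hnd hs hp, par_zero (z := (p, s)) (fun h => hd p (hW _ h).1 hp), add_zero] at h1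
  exact h1

theorem par_exch' (hRUN : SpecRUN) {A B : List S} {W : List (S × S)} (hnd : (A ++ B).Nodup)
    (hR : Run (A ++ B) W (B ++ A)) (hW : ∀ z ∈ W, z.1 ∈ B ∧ z.2 ∈ A) {s p : S} (hs : s ∈ B)
    (hp : p ∈ A) : par W (s, p) = 1 := by
  have hd : ∀ x ∈ A, x ∉ B := fun x hx hx' => (List.nodup_append.1 hnd).2.2 x hx x hx' rfl
  have h1 := hRUN.pari hnd hR p (List.mem_append_left _ hp) s (List.mem_append_right _ hs)
    (fun h => hd p hp (h ▸ hs))
  rw [inv_swap hnd hp hs, par_zero (z := (p, s)) (fun h => hd p hp (hW _ h).1), zero_add] at h1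
  exact h1

theorem countP_eq {α : Type} [DecidableEq α] (Q : α → Prop) [DecidablePred Q] (W : List α)
    (T : Finset α) (hT : ∀ z ∈ W, z ∈ T) :
    ((W.countP fun z => Q z : ℕ) : ZMod 2) = ∑ z ∈ T, (if Q z then 1 else 0) * par W z := by
  induction W with
  | nil => simp [par]
  | cons a W ih =>
    rw [List.countP_cons, Nat.cast_add, ih fun z hz => hT z (List.mem_cons_of_mem _ hz)]
    have h1 : ∀ z, par (a :: W) z = par W z + if a = z then 1 else 0 := by
      intro z
      unfold par
      rw [List.count_cons]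
      push_cast
      congr 1
      by_cases h : a = z <;> simp [h]
    simp only [h1, mul_add, Finset.sum_add_distrib]
    congr 1
    rw [Finset.sum_eq_single a]
    · by_cases h : Q a <;> simp [h]
    · intro b _ hb
      have hab : ¬ a = b := fun h => hb h.symm
      rw [if_neg hab, mul_zero]
    · intro h
      exact absurd (hT a List.mem_cons_self) h

end words

section graph

variable {V E : Type} [DecidableEq E] {G : Gr V E}

theorem lk_append (W W' : List (Dart E × Dart E)) (c c' : List (Dart E)) :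
    lk (W ++ W') c c' = lk W c c' + lk W' c c' := by
  unfold lk
  rw [List.countP_append, Nat.cast_add]

theorem lk_exch {A B : List (Dart E)} {U : List (Dart E × Dart E)}
    (hU : ∀ z ∈ U, z.1 ∈ A ∧ z.2 ∈ B) (hpar : ∀ s ∈ A, ∀ p ∈ B, par U (s, p) = 1)
    {c c' : List (Dart E)}
    (hB : ∑ p ∈ B.toFinset, (if p.1 ∈ c'.map Prod.fst then 1 else 0 : ZMod 2) = 0) :
    lk U c c' = 0 := by
  unfold lk
  rw [countP_eq (fun z : Dart E × Dart E => z.1.1 ∈ c.map Prod.fst ∧ z.2.1 ∈ c'.map Prod.fst) U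
    (A.toFinset ×ˢ B.toFinset) fun z hz => by
      rw [Finset.mem_product, List.mem_toFinset, List.mem_toFinset]
      exact hU z hz]
  rw [Finset.sum_product]
  refine Finset.sum_eq_zero fun s hs => ?_
  rw [List.mem_toFinset] at hs
  have h1 : ∀ p ∈ B.toFinset,
      (if (s, p).1.1 ∈ c.map Prod.fst ∧ (s, p).2.1 ∈ c'.map Prod.fst then 1 else 0 : ZMod 2) *
        par U (s, p) =
      (if s.1 ∈ c.map Prod.fst then 1 else 0) * (if p.1 ∈ c'.map Prod.fst then 1 else 0) := by
    intro p hp
    rw [List.mem_toFinset] at hp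
    rw [hpar s hs p hp, mul_one]
    by_cases h2 : s.1 ∈ c.map Prod.fst <;> by_cases h3 : p.1 ∈ c'.map Prod.fst <;> simp [h2, h3]
  rw [Finset.sum_congr rfl h1, ← Finset.mul_sum, hB, mul_zero]

theorem eq_or {x d : Dart E} (h : x.1 = d.1) : x = d ∨ x = rv d := by
  obtain ⟨x1, x2⟩ := x
  obtain ⟨d1, d2⟩ := d
  simp only at h
  subst h
  cases x2 <;> cases d2 <;> simp [rv]

/-- a strand of a cycle starts at a vertex of the cycle -/
theorem vtx_on {c : List (Dart E)} (hc : IsCyc G c) {x : Dart E} (hx : x.1 ∈ c.map Prod.fst) :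
    ∃ d ∈ c, G.vt d = G.vt x := by
  obtain ⟨d, hd, hdx⟩ := List.mem_map.1 hx
  have h1 : x = d ∨ x = rv d := by
    obtain ⟨x1, x2⟩ := x
    obtain ⟨d1, d2⟩ := d
    simp only at hdx
    subst hdx
    cases x2 <;> cases d2 <;> simp [rv]
  rcases h1 with rfl | rfl
  · exact ⟨x, hd, rfl⟩
  · have h2 : G.vt (rv d) ∈ c.map fun d => G.vt (rv d) := List.mem_map.2 ⟨d, hd, rfl⟩
    rw [hc.cl, List.mem_rotate] at h2
    obtain ⟨d', hd', h3⟩ := List.mem_map.1 h2
    exact ⟨d', hd', h3⟩

/-- disjoint cycles do not pass the same vertex -/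
theorem not_both {c c' : List (Dart E)} (hc : IsCyc G c) (hc' : IsCyc G c') (hD : Dj G c c')
    {x y : Dart E} (hx : x.1 ∈ c.map Prod.fst) (hy : y.1 ∈ c'.map Prod.fst)
    (hxy : G.vt x = G.vt y) : False := by
  obtain ⟨d, hd, h1⟩ := vtx_on hc hx
  obtain ⟨d', hd', h2⟩ := vtx_on hc' hy
  exact hD d hd d' hd' (by rw [h1, h2, hxy])

/-- a cycle has `0` or `2` strands at a vertex -/
theorem even_at (hCYC : SpecCYC) {c : List (Dart E)} (hc : IsCyc G c) {B : List (Dart E)} {v : V}
    (hB : ∀ x, x ∈ B ↔ x.1 ∈ G.X ∧ G.vt x = v) :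
    ∑ p ∈ B.toFinset, (if p.1 ∈ c.map Prod.fst then 1 else 0 : ZMod 2) = 0 := by
  classical
  by_cases hv : ∃ d ∈ c, G.vt d = v
  · obtain ⟨d, hd, hdv⟩ := hv
    obtain ⟨A, B', hAB⟩ := List.append_of_mem hd
    have hrot : c.rotate A.length = d :: (B' ++ A) := by
      rw [hAB, List.rotate_append_length_eq]
      rfl
    set c' := d :: (B' ++ A) with hc'
    have hcyc' : IsCyc G c' := by
      rw [← hrot]
      exact hCYC.rot _ hc
    have hmemiff : ∀ x : Dart E, x ∈ c' ↔ x ∈ c := by
      intro x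
      rw [← hrot, List.mem_rotate]
    have hmem : ∀ e : E, e ∈ c'.map Prod.fst ↔ e ∈ c.map Prod.fst := by
      intro e
      simp only [List.mem_map, hmemiff]
    obtain ⟨l, hl⟩ : ∃ l, c'.getLast? = some l := by
      rw [hc']
      exact ⟨_, List.getLast?_eq_some_getLast (by simp)⟩
    obtain ⟨h1, h2⟩ := hCYC.two hcyc' (by rw [hc']; rfl) hl
    have hlc : l ∈ c' := List.mem_of_getLast? hl
    have hdc : d ∈ c' := by rw [hc']; simp
    have hne : d ≠ rv l := by
      intro h
      have h3 : d = l := List.inj_on_of_nodup_map hcyc'.nde hdc hlc (by rw [h]; rfl)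
      rw [h3] at h
      have h4 := congrArg Prod.snd h
      change l.2 = !l.2 at h4
      cases hb : l.2 <;> rw [hb] at h4 <;> simp at h4
    have h3 : ∑ p ∈ B.toFinset, (if p.1 ∈ c.map Prod.fst then 1 else 0 : ZMod 2) =
        ∑ p ∈ ({d, rv l} : Finset (Dart E)), (1 : ZMod 2) := by
      rw [← Finset.sum_filter]
      refine Finset.sum_congr ?_ fun _ _ => rfl
      ext x
      rw [Finset.mem_filter, List.mem_toFinset, hB, Finset.mem_insert, Finset.mem_singleton,
        ← hmem]
      constructor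
      · rintro ⟨⟨-, h4⟩, h5⟩
        exact h2 x h5 (h4.trans hdv.symm)
      · rintro (rfl | rfl)
        · exact ⟨⟨hcyc'.mem _ hdc, hdv⟩, List.mem_map.2 ⟨_, hdc, rfl⟩⟩
        · exact ⟨⟨hcyc'.mem l hlc, h1.trans hdv⟩, List.mem_map.2 ⟨l, hlc, rfl⟩⟩
    rw [h3, Finset.sum_pair hne]
    decide
  · refine Finset.sum_eq_zero fun p hp => ?_
    rw [List.mem_toFinset, hB] at hp
    rw [if_neg]
    intro h
    obtain ⟨d, hd, h1⟩ := vtx_on hc h
    exact hv ⟨d, hd, h1.trans hp.2⟩

/-- events between strands at the same vertex do not count -/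
theorem lk_block {U : List (Dart E × Dart E)} {v : V} (hU : ∀ z ∈ U, G.vt z.1 = v ∧ G.vt z.2 = v)
    {c c' : List (Dart E)} (hc : IsCyc G c) (hc' : IsCyc G c') (hD : Dj G c c') :
    lk U c c' = 0 := by
  unfold lk
  rw [List.countP_eq_zero.2]
  · rfl
  · intro z hz h
    simp only [decide_eq_true_eq] at h
    exact not_both hc hc' hD h.1 h.2 ((hU z hz).1.trans (hU z hz).2.symm)

end graph

end FRTM

open FRTM in
theorem specFRT (hPSU : SpecPSU) (hRUN : SpecRUN) (hBLK : SpecBLK) (hCYC : SpecCYC)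
    (hPRE : SpecPRE) : SpecFRT := by
  have _ := hPSU
  refine ⟨?_, ?_, ?_⟩
  · intro V E _ _ G bot top W hW v P hP
    obtain ⟨L₁, L₂, hL, h1, h2⟩ := hBLK.dec G.vt bot hW.dia.bb v
    set P₀ := bot.filter (fun x => G.vt x = v) with hP₀
    have hfil : bot.filter (fun x => G.vt x ≠ v) = L₁ ++ L₂ := by
      conv_lhs => rw [hL]
      rw [List.filter_append, List.filter_append]
      have e1 : L₁.filter (fun x => G.vt x ≠ v) = L₁ :=
        List.filter_eq_self.2 fun x hx => by simpa using h1 x hx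
      have e2 : L₂.filter (fun x => G.vt x ≠ v) = L₂ :=
        List.filter_eq_self.2 fun x hx => by simpa using h2 x hx
      have e3 : P₀.filter (fun x => G.vt x ≠ v) = [] :=
        List.filter_eq_nil_iff.2 fun x hx => by
          rw [hP₀, List.mem_filter] at hx
          simpa using hx.2
      rw [e1, e2, e3, List.append_nil]
    rw [hfil]
    have hmemP : ∀ x ∈ P, G.vt x = v := fun x hx => by
      have := hP.mem_iff.1 hx
      rw [hP₀, List.mem_filter] at this
      simpa using this.2
    have hmemP₀ : ∀ x, x ∈ P₀ ↔ x.1 ∈ G.X ∧ G.vt x = v := fun x => by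
      rw [hP₀, List.mem_filter, hW.mb]
      simp
    have hnd : (L₁ ++ P₀ ++ L₂).Nodup := by
      rw [← hL]
      exact hW.dia.nd
    have hperm : (P ++ (L₁ ++ L₂)).Perm bot := by
      conv_rhs => rw [hL]
      rw [List.append_assoc]
      refine (List.Perm.append_right _ hP).trans ?_
      rw [← List.append_assoc, ← List.append_assoc]
      exact List.Perm.append_right _ List.perm_append_comm
    have hPnd : P.Nodup := (List.nodup_append.1 (hperm.nodup_iff.2 hW.dia.nd)).1
    obtain ⟨U₀, hU₀⟩ := hRUN.exi hP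
    obtain ⟨U₁, hU₁, hU₁'⟩ := hRUN.exch' P₀ L₁
    have hr0 : Run (P ++ (L₁ ++ L₂)) U₀ (P₀ ++ (L₁ ++ L₂)) := by
      have := hRUN.ctx [] (L₁ ++ L₂) hU₀
      simpa using this
    have hr1 : Run (P₀ ++ (L₁ ++ L₂)) U₁ bot := by
      have := hRUN.ctx [] L₂ hU₁
      rw [List.nil_append, List.nil_append, ← hL, List.append_assoc] at this
      exact this
    have hU2 : ∀ z ∈ U₀ ++ U₁, G.vt z.2 = v := by
      intro z hz
      rcases List.mem_append.1 hz with hz | hz
      · exact hmemP _ (hRUN.mem hPnd hU₀ z hz).2.1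
      · exact ((hmemP₀ _).1 (hU₁' z hz).2).2
    have hdia : IsDia G (P ++ (L₁ ++ L₂)) (U₀ ++ U₁ ++ W) top := by
      refine ⟨fun d => ?_, ?_, ?_, hW.dia.tt, hRUN.trans (hRUN.trans hr0 hr1) hW.dia.run⟩
      · rw [hperm.mem_iff, hW.mb]
      · exact hperm.nodup_iff.2 hW.dia.nd
      · refine hBLK.app _ _ _ (hBLK.one _ _ v hmemP) ?_ ?_
        · rw [← hfil]
          exact hBLK.fil _ _ _ hW.dia.bb
        · intro x hx y hy
          rw [hmemP x hx]
          rcases List.mem_append.1 hy with hy | hy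
          · exact (h1 y hy).symm
          · exact (h2 y hy).symm
    refine ⟨U₀ ++ U₁, hdia, ⟨hPRE.bot hW hdia hU2, fun c c' hc hc' hD => ?_⟩, hU2⟩
    have hnd1 : (P₀ ++ L₁).Nodup := by
      have := (List.nodup_append.1 hnd).1
      exact (List.perm_append_comm.nodup_iff).1 this
    rw [lk_append, lk_append, lk_block (v := v) (fun z hz =>
        ⟨hmemP _ (hRUN.mem hPnd hU₀ z hz).1, hmemP _ (hRUN.mem hPnd hU₀ z hz).2.1⟩) hc hc' hD,
      lk_exch hU₁' (fun s hs p hp => par_exch' hRUN hnd1 hU₁ hU₁' hs hp)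
        (even_at hCYC hc' hmemP₀)]
    simp
  · intro V E _ _ G bot top W hW v P hP
    obtain ⟨L₁, L₂, hL, h1, h2⟩ := hBLK.dec G.vt bot hW.dia.bb v
    set P₀ := bot.filter (fun x => G.vt x = v) with hP₀
    have hfil : bot.filter (fun x => G.vt x ≠ v) = L₁ ++ L₂ := by
      conv_lhs => rw [hL]
      rw [List.filter_append, List.filter_append]
      have e1 : L₁.filter (fun x => G.vt x ≠ v) = L₁ :=
        List.filter_eq_self.2 fun x hx => by simpa using h1 x hx
      have e2 : L₂.filter (fun x => G.vt x ≠ v) = L₂ :=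
        List.filter_eq_self.2 fun x hx => by simpa using h2 x hx
      have e3 : P₀.filter (fun x => G.vt x ≠ v) = [] :=
        List.filter_eq_nil_iff.2 fun x hx => by
          rw [hP₀, List.mem_filter] at hx
          simpa using hx.2
      rw [e1, e2, e3, List.append_nil]
    rw [hfil]
    have hmemP : ∀ x ∈ P, G.vt x = v := fun x hx => by
      have := hP.mem_iff.1 hx
      rw [hP₀, List.mem_filter] at this
      simpa using this.2
    have hmemP₀ : ∀ x, x ∈ P₀ ↔ x.1 ∈ G.X ∧ G.vt x = v := fun x => by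
      rw [hP₀, List.mem_filter, hW.mb]
      simp
    have hnd : (L₁ ++ P₀ ++ L₂).Nodup := by
      rw [← hL]
      exact hW.dia.nd
    have hperm : (L₁ ++ L₂ ++ P).Perm bot := by
      conv_rhs => rw [hL]
      rw [List.append_assoc, List.append_assoc]
      refine List.Perm.append_left _ ?_
      refine List.perm_append_comm.trans ?_
      exact List.Perm.append_right _ hP
    have hPnd : P.Nodup := (List.nodup_append.1 (hperm.nodup_iff.2 hW.dia.nd)).2.1
    obtain ⟨U₀, hU₀⟩ := hRUN.exi hP
    obtain ⟨U₁, hU₁, hU₁'⟩ := hRUN.exch L₂ P₀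
    have hr0 : Run (L₁ ++ L₂ ++ P) U₀ (L₁ ++ L₂ ++ P₀) := by
      have := hRUN.ctx (L₁ ++ L₂) [] hU₀
      simpa using this
    have hr1 : Run (L₁ ++ L₂ ++ P₀) U₁ bot := by
      have := hRUN.ctx L₁ [] hU₁
      rw [List.append_nil, List.append_nil, ← List.append_assoc, ← List.append_assoc, ← hL] at this
      exact this
    have hU2 : ∀ z ∈ U₀ ++ U₁, G.vt z.2 = v := by
      intro z hz
      rcases List.mem_append.1 hz with hz | hz
      · exact hmemP _ (hRUN.mem hPnd hU₀ z hz).2.1
      · exact ((hmemP₀ _).1 (hU₁' z hz).2).2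
    have hdia : IsDia G (L₁ ++ L₂ ++ P) (U₀ ++ U₁ ++ W) top := by
      refine ⟨fun d => ?_, ?_, ?_, hW.dia.tt, hRUN.trans (hRUN.trans hr0 hr1) hW.dia.run⟩
      · rw [hperm.mem_iff, hW.mb]
      · exact hperm.nodup_iff.2 hW.dia.nd
      · refine hBLK.app _ _ _ ?_ (hBLK.one _ _ v hmemP) ?_
        · rw [← hfil]
          exact hBLK.fil _ _ _ hW.dia.bb
        · intro y hy x hx
          rw [hmemP x hx]
          rcases List.mem_append.1 hy with hy | hy
          · exact h1 y hy
          · exact h2 y hy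
    refine ⟨U₀ ++ U₁, hdia, ⟨hPRE.bot hW hdia hU2, fun c c' hc hc' hD => ?_⟩, hU2⟩
    have hnd1 : (L₂ ++ P₀).Nodup := by
      have := (List.nodup_append.1 (show (L₁ ++ (P₀ ++ L₂)).Nodup by
        rw [← List.append_assoc]
        exact hnd)).2.1
      exact (List.perm_append_comm.nodup_iff).1 this
    rw [lk_append, lk_append, lk_block (v := v) (fun z hz =>
        ⟨hmemP _ (hRUN.mem hPnd hU₀ z hz).1, hmemP _ (hRUN.mem hPnd hU₀ z hz).2.1⟩) hc hc' hD,
      lk_exch hU₁' (fun s hs p hp => par_exch hRUN hnd1 hU₁ hU₁' hs hp)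
        (even_at hCYC hc' hmemP₀)]
    simp
  · intro V E _ G bot top W hW d hd
    set e := d.1 with he
    obtain ⟨M₁, M₂, hM, h1, h2⟩ := hBLK.dec Prod.fst top hW.dia.tt e
    set Q₀ := top.filter (fun x => x.1 = e) with hQ₀
    have hbt : bot.Perm top := hRUN.perm hW.dia.run
    have htnd : top.Nodup := hbt.nodup_iff.1 hW.dia.nd
    have hfil : top.filter (fun x => x.1 ≠ e) = M₁ ++ M₂ := by
      conv_lhs => rw [hM]
      rw [List.filter_append, List.filter_append]
      have e1 : M₁.filter (fun x => x.1 ≠ e) = M₁ :=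
        List.filter_eq_self.2 fun x hx => by simpa using h1 x hx
      have e2 : M₂.filter (fun x => x.1 ≠ e) = M₂ :=
        List.filter_eq_self.2 fun x hx => by simpa using h2 x hx
      have e3 : Q₀.filter (fun x => x.1 ≠ e) = [] :=
        List.filter_eq_nil_iff.2 fun x hx => by
          rw [hQ₀, List.mem_filter] at hx
          simpa using hx.2
      rw [e1, e2, e3, List.append_nil]
    rw [hfil]
    have hdr : d ≠ rv d := by
      intro h
      have h4 := congrArg Prod.snd h
      change d.2 = !d.2 at h4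
      cases hb : d.2 <;> rw [hb] at h4 <;> simp at h4
    have hmemQ : ∀ x, x ∈ Q₀ ↔ x = d ∨ x = rv d := fun x => by
      rw [hQ₀, List.mem_filter, ← hbt.mem_iff, hW.mb]
      simp only [decide_eq_true_eq]
      constructor
      · rintro ⟨-, hx⟩
        exact eq_or hx
      · rintro (rfl | rfl)
        · exact ⟨hd, rfl⟩
        · exact ⟨hd, rfl⟩
    have hQperm : Q₀.Perm [d, rv d] := by
      refine (List.perm_ext_iff_of_nodup (htnd.filter _) ?_).2 fun x => ?_
      · simp [hdr]
      · rw [hmemQ]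
        simp
    obtain ⟨U₀, hU₀⟩ := hRUN.exi hQperm
    obtain ⟨U₁, hU₁, hU₁'⟩ := hRUN.exch M₁ Q₀
    have hQnd : Q₀.Nodup := htnd.filter _
    have hr1 : Run top U₁ (Q₀ ++ M₁ ++ M₂) := by
      have := hRUN.ctx [] M₂ hU₁
      rw [List.nil_append, List.nil_append, ← hM] at this
      exact this
    have hr0 : Run (Q₀ ++ M₁ ++ M₂) U₀ (d :: rv d :: (M₁ ++ M₂)) := by
      have := hRUN.ctx [] (M₁ ++ M₂) hU₀
      simpa using this
    have hfst : ∀ x ∈ Q₀, x.1 = e := fun x hx => by
      rcases (hmemQ x).1 hx with rfl | rfl <;> rfl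
    have hU2 : ∀ z ∈ U₁ ++ U₀, z.2.1 = e := by
      intro z hz
      rcases List.mem_append.1 hz with hz | hz
      · exact hfst _ (hU₁' z hz).2
      · exact hfst _ (hRUN.mem hQnd hU₀ z hz).2.1
    have hdia : IsDia G bot (W ++ (U₁ ++ U₀)) (d :: rv d :: (M₁ ++ M₂)) := by
      refine ⟨hW.mb, hW.dia.nd, hW.dia.bb, ?_, hRUN.trans hW.dia.run (hRUN.trans hr1 hr0)⟩
      have : d :: rv d :: (M₁ ++ M₂) = [d, rv d] ++ (M₁ ++ M₂) := rfl
      rw [this]
      refine hBLK.app _ _ _ (hBLK.one _ _ e ?_) ?_ ?_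
      · intro x hx
        simp only [List.mem_cons, List.not_mem_nil, or_false] at hx
        rcases hx with rfl | rfl <;> rfl
      · rw [← hfil]
        exact hBLK.fil _ _ _ hW.dia.tt
      · intro x hx y hy
        have hx' : x.1 = e := by
          simp only [List.mem_cons, List.not_mem_nil, or_false] at hx
          rcases hx with rfl | rfl <;> rfl
        rw [hx']
        rcases List.mem_append.1 hy with hy | hy
        · exact (h1 y hy).symm
        · exact (h2 y hy).symm
    refine ⟨U₁ ++ U₀, hdia, ⟨hPRE.top hW hdia hU2, fun c c' hc hc' hD => ?_⟩, hU2⟩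
    have hnd : (M₁ ++ Q₀ ++ M₂).Nodup := by
      rw [← hM]
      exact htnd
    have hnd1 : (M₁ ++ Q₀).Nodup := (List.nodup_append.1 hnd).1
    have h3 : lk U₀ c c' = 0 := by
      unfold lk
      rw [List.countP_eq_zero.2]
      · rfl
      · intro z hz h
        simp only [decide_eq_true_eq] at h
        have h4 := hfst _ (hRUN.mem hQnd hU₀ z hz).1
        have h5 := hfst _ (hRUN.mem hQnd hU₀ z hz).2.1
        rw [h4, h5] at h
        exact not_both hc hc' hD (x := d) (y := d) h.1 h.2 rfl
    have h4 : lk U₁ c c' = 0 := by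
      refine lk_exch hU₁' (fun s hs p hp => par_exch hRUN hnd1 hU₁ hU₁' hs hp) ?_
      have h5 : Q₀.toFinset = {d, rv d} := by
        ext x
        rw [List.mem_toFinset, hmemQ, Finset.mem_insert, Finset.mem_singleton]
      rw [h5, Finset.sum_pair hdr]
      change (if d.1 ∈ c'.map Prod.fst then 1 else 0 : ZMod 2) +
        (if d.1 ∈ c'.map Prod.fst then 1 else 0) = 0
      split_ifs
      · decide
      · decide
    rw [lk_append, lk_append, h3, h4]
    simp

end Pool.Agent.Lib.MP3ff0f8.T
end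

section
/-!
# Module GAD: gadgets
-/
set_option autoImplicit false
set_option linter.unusedSectionVars false

namespace Pool.Agent.Lib.MP3ff0f8.T

namespace GADM

/-! ## The finite model -/

/-- abstract version of `bet` -/
def betA {n : ℕ} (lt : Fin n → Fin n → Bool) (fl on : Fin n → Bool) (z w : Fin n × Fin n) :
    ZMod 2 :=
  if (on z.1 && on z.2 && on w.1 && on w.2) = true then
    (if ((lt z.1 w.2 || (decide (z.1 = w.2) && fl z.1)) &&
        (lt w.2 z.2 || (decide (w.2 = z.2) && !fl w.2)) &&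
        (lt z.2 w.1 || (decide (z.2 = w.1) && fl z.2))) = true then 1 else 0) +
    (if ((lt w.1 z.2 || (decide (w.1 = z.2) && !fl w.1)) &&
        (lt z.2 w.2 || (decide (z.2 = w.2) && fl z.2)) &&
        (lt w.2 z.1 || (decide (w.2 = z.1) && !fl w.2))) = true then 1 else 0)
  else 0

/-- the order on three elements -/
def lt3 (x y z : Bool) (a b : Fin 3) : Bool :=
  if a = 0 ∧ b = 1 then x else if a = 1 ∧ b = 2 then y else if a = 0 ∧ b = 2 then z else
  if a = 1 ∧ b = 0 then !x else if a = 2 ∧ b = 1 then !y else if a = 2 ∧ b = 0 then !z else false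

/-- the order on two elements -/
def lt2 (x : Bool) (a b : Fin 2) : Bool :=
  if a = 0 ∧ b = 1 then x else if a = 1 ∧ b = 0 then !x else false

/-- the word on three strands -/
def g3 : List (Fin 3 × Fin 3) := [(0, 1), (1, 0), (1, 2), (2, 1), (1, 0), (0, 1), (2, 1), (1, 2)]

/-- the word on two strands -/
def g2 : List (Fin 2 × Fin 2) := [(0, 1), (1, 0), (0, 1), (1, 0)]

/-- a function given by three values -/
def fn3 (p q r : Bool) (a : Fin 3) : Bool := if a = 0 then p else if a = 1 then q else r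

/-- a function given by two values -/
def fn2 (p q : Bool) (a : Fin 2) : Bool := if a = 0 then p else q

theorem model3 : ∀ x y z p q r o₁ o₂ o₃ : Bool,
    ((o₁ && o₂ && o₃) = true → (x = true → y = true → z = true) ∧
      (x = false → y = false → z = false)) →
    ps (betA (lt3 x y z) (fn3 p q r) (fn3 o₁ o₂ o₃)) g3 =
      if (o₁ && o₂ && o₃) = true then 1 else 0 := by
  decide

theorem model2 : ∀ x p q o₁ o₂ : Bool,
    ps (betA (lt2 x) (fn2 p q) (fn2 o₁ o₂)) g2 =
      (if (o₁ && o₂ && p && q) = true then 1 else 0) +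
      (if (o₁ && o₂ && !p && !q) = true then 1 else 0) := by
  decide

/-! ## Transfer to curves -/

section transfer

variable {S : Type} [DecidableEq S]

theorem idx_inj {q : List (S × Bool)} {a b : S} (ha : T.on q a) (hne : a ≠ b) :
    idx q a ≠ idx q b := by
  intro h
  apply hne
  unfold idx at h
  exact (List.idxOf_inj ha).1 h

omit [DecidableEq S] in
theorem flags {q : List (S × Bool)} (hq : (q.map Prod.fst).Nodup) {a : S} (ha : T.on q a) :
    (a, false) ∈ q ↔ ¬ (a, true) ∈ q := by
  constructor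
  · intro h1 h2
    have := List.inj_on_of_nodup_map hq h1 h2 rfl
    simp at this
  · intro h
    unfold T.on at ha
    rw [List.mem_map] at ha
    obtain ⟨⟨x, b⟩, hx, hxa⟩ := ha
    simp only at hxa
    subst hxa
    cases b
    · exact hx
    · exact absurd hx h

theorem bet_eq {n : ℕ} {q : List (S × Bool)} (hq : (q.map Prod.fst).Nodup) {φ : Fin n → S}
    (hφ : Function.Injective φ) {lt : Fin n → Fin n → Bool} {fl on : Fin n → Bool}
    (hon : ∀ a, on a = true ↔ T.on q (φ a)) (hlt0 : ∀ a, lt a a = false)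
    (hlt : ∀ a b, on a = true → on b = true → a ≠ b →
      (lt a b = true ↔ idx q (φ a) < idx q (φ b)))
    (hfl : ∀ a, fl a = true ↔ (φ a, true) ∈ q) (z w : Fin n × Fin n) :
    bet q (φ z.1, φ z.2) (φ w.1, φ w.2) = betA lt fl on z w := by
  have h01 : ∀ a b, on a = true → on b = true →
      (l01 q (φ a) (φ b) ↔ (lt a b || (decide (a = b) && fl a)) = true) := by
    intro a b ha hb
    unfold l01
    by_cases hab : a = b
    · subst hab
      simp [hlt0, hfl]
    · have h1 : φ a ≠ φ b := fun h => hab (hφ h)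
      simp [hab, h1, hlt a b ha hb hab]
  have h10 : ∀ a b, on a = true → on b = true →
      (l10 q (φ a) (φ b) ↔ (lt a b || (decide (a = b) && !fl a)) = true) := by
    intro a b ha hb
    unfold l10
    by_cases hab : a = b
    · subst hab
      have h1 := flags hq ((hon a).1 ha)
      simp [hlt0, h1, ← hfl]
    · have h1 : φ a ≠ φ b := fun h => hab (hφ h)
      simp [hab, h1, hlt a b ha hb hab]
  unfold bet betA
  by_cases hall : on z.1 = true ∧ on z.2 = true ∧ on w.1 = true ∧ on w.2 = true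
  · obtain ⟨h1, h2, h3, h4⟩ := hall
    have hA : (on z.1 && on z.2 && on w.1 && on w.2) = true := by simp [h1, h2, h3, h4]
    rw [if_pos ⟨(hon _).1 h1, (hon _).1 h2, (hon _).1 h3, (hon _).1 h4⟩, if_pos hA]
    simp only [Bool.and_eq_true]
    congr 1
    · refine if_congr ?_ rfl rfl
      rw [h01 _ _ h1 h4, h10 _ _ h4 h2, h01 _ _ h2 h3, and_assoc]
    · refine if_congr ?_ rfl rfl
      rw [h10 _ _ h3 h2, h01 _ _ h2 h4, h10 _ _ h4 h1, and_assoc]
  · rw [if_neg, if_neg]
    · simp only [Bool.and_eq_true, and_assoc]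
      exact hall
    · rintro ⟨h1, h2, h3, h4⟩
      exact hall ⟨(hon _).2 h1, (hon _).2 h2, (hon _).2 h3, (hon _).2 h4⟩

theorem bet_self {q : List (S × Bool)} (hq : (q.map Prod.fst).Nodup) (z : S × S) :
    bet q z z = 0 := by
  unfold bet
  by_cases hon : T.on q z.1 ∧ T.on q z.2 ∧ T.on q z.1 ∧ T.on q z.2
  · rw [if_pos hon]
    have hk : ∀ a b : S, T.on q a → l01 q a b → l01 q b a → l10 q b b → False := by
      intro a b ha h1 h2 h3
      unfold l01 at h1 h2
      unfold l10 at h3
      by_cases hab : a = b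
      · subst hab
        have h4 : (a, true) ∈ q := by
          rcases h1 with h1 | h1
          · exact absurd h1 (lt_irrefl _)
          · exact h1.2
        have h5 : (a, false) ∈ q := by
          rcases h3 with h3 | h3
          · exact absurd h3 (lt_irrefl _)
          · exact h3.2
        exact ((flags hq ha).1 h5) h4
      · have hba : b ≠ a := fun h => hab h.symm
        simp only [hab, hba, false_and, or_false] at h1 h2
        omega
    have hk2 : ∀ a b : S, T.on q b → l10 q a b → l10 q b a → l01 q b b → False := by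
      intro a b ha h1 h2 h3
      unfold l10 at h1 h2
      unfold l01 at h3
      by_cases hab : a = b
      · subst hab
        have h4 : (a, false) ∈ q := by
          rcases h1 with h1 | h1
          · exact absurd h1 (lt_irrefl _)
          · exact h1.2
        have h5 : (a, true) ∈ q := by
          rcases h3 with h3 | h3
          · exact absurd h3 (lt_irrefl _)
          · exact h3.2
        exact ((flags hq ha).1 h4) h5
      · have hba : b ≠ a := fun h => hab h.symm
        simp only [hab, hba, false_and, or_false] at h1 h2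
        omega
    rw [if_neg (fun h => hk z.1 z.2 hon.1 h.1 h.2.2 h.2.1),
      if_neg (fun h => hk2 z.1 z.2 hon.2.1 h.1 h.2.2 h.2.1), add_zero]
  · rw [if_neg hon]

theorem AW_g3 (hPSU : SpecPSU) {q : List (S × Bool)} (hq : (q.map Prod.fst).Nodup) {s t u : S}
    (hst : s ≠ t) (hsu : s ≠ u) (htu : t ≠ u) :
    AW q [(s, t), (t, s), (t, u), (u, t), (t, s), (s, t), (u, t), (t, u)] =
      if T.on q s ∧ T.on q t ∧ T.on q u then 1 else 0 := by
  let φ : Fin 3 → S := fun a => if a = 0 then s else if a = 1 then t else u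
  have hφ : Function.Injective φ := by
    intro a b
    fin_cases a <;> fin_cases b <;> simp [φ, hst, hsu, htu, hst.symm, hsu.symm, htu.symm]
  let x : Bool := decide (idx q s < idx q t)
  let y : Bool := decide (idx q t < idx q u)
  let z : Bool := decide (idx q s < idx q u)
  let fl : Fin 3 → Bool := fn3 (decide ((s, true) ∈ q)) (decide ((t, true) ∈ q)) (decide ((u, true) ∈ q))
  let on : Fin 3 → Bool := fn3 (decide (T.on q s)) (decide (T.on q t)) (decide (T.on q u))
  have hmap : ([(s, t), (t, s), (t, u), (u, t), (t, s), (s, t), (u, t), (t, u)] : List (S × S)) =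
      g3.map fun a => (φ a.1, φ a.2) := by
    simp [g3, φ]
  have hon : ∀ a, on a = true ↔ T.on q (φ a) := by
    intro a
    fin_cases a <;> simp [on, fn3, φ]
  have hfl : ∀ a, fl a = true ↔ (φ a, true) ∈ q := by
    intro a
    fin_cases a <;> simp [fl, fn3, φ]
  have hlt : ∀ a b, on a = true → on b = true → a ≠ b →
      (lt3 x y z a b = true ↔ idx q (φ a) < idx q (φ b)) := by
    intro a b ha hb hab
    have h1 : idx q (φ a) ≠ idx q (φ b) := idx_inj ((hon a).1 ha) fun h => hab (hφ h)
    revert h1 hab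
    clear ha hb
    fin_cases a <;> fin_cases b <;> simp [lt3, x, y, z, φ] <;> omega
  rw [AW, hmap, hPSU.map, hPSU.cgr _ (betA (lt3 x y z) fl on) g3 fun a _ b _ =>
    bet_eq hq hφ hon (fun a => by fin_cases a <;> simp [lt3]) hlt hfl a b]
  rw [model3 x y z _ _ _ _ _ _]
  · simp only [Bool.and_eq_true, decide_eq_true_eq, and_assoc]
  · intro h
    simp only [Bool.and_eq_true, decide_eq_true_eq, and_assoc] at h
    have h1 := idx_inj h.1 hst
    have h2 := idx_inj h.2.1 htu
    constructor
    · simp only [x, y, z, decide_eq_true_eq]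
      omega
    · simp only [x, y, z, decide_eq_false_iff_not]
      omega

theorem AW_g2 (hPSU : SpecPSU) {q : List (S × Bool)} (hq : (q.map Prod.fst).Nodup) {s t : S}
    (hst : s ≠ t) : AW q [(s, t), (t, s), (s, t), (t, s)] = coh q s t := by
  let φ : Fin 2 → S := fun a => if a = 0 then s else t
  have hφ : Function.Injective φ := by
    intro a b
    fin_cases a <;> fin_cases b <;> simp [φ, hst, hst.symm]
  let x : Bool := decide (idx q s < idx q t)
  let fl : Fin 2 → Bool := fn2 (decide ((s, true) ∈ q)) (decide ((t, true) ∈ q))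
  let on : Fin 2 → Bool := fn2 (decide (T.on q s)) (decide (T.on q t))
  have hmap : ([(s, t), (t, s), (s, t), (t, s)] : List (S × S)) =
      g2.map fun a => (φ a.1, φ a.2) := by
    simp [g2, φ]
  have hon : ∀ a, on a = true ↔ T.on q (φ a) := by
    intro a
    fin_cases a <;> simp [on, fn2, φ]
  have hfl : ∀ a, fl a = true ↔ (φ a, true) ∈ q := by
    intro a
    fin_cases a <;> simp [fl, fn2, φ]
  have hlt : ∀ a b, on a = true → on b = true → a ≠ b →
      (lt2 x a b = true ↔ idx q (φ a) < idx q (φ b)) := by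
    intro a b ha hb hab
    have h1 : idx q (φ a) ≠ idx q (φ b) := idx_inj ((hon a).1 ha) fun h => hab (hφ h)
    revert h1 hab
    clear ha hb
    fin_cases a <;> fin_cases b <;> simp [lt2, x, φ] <;> omega
  rw [AW, hmap, hPSU.map, hPSU.cgr _ (betA (lt2 x) fl on) g2 fun a _ b _ =>
    bet_eq hq hφ hon (fun a => by fin_cases a <;> simp [lt2]) hlt hfl a b]
  rw [model2 x _ _ _ _]
  unfold coh
  have hmem : ∀ a : S, ∀ b : Bool, (a, b) ∈ q → T.on q a := fun a b h =>
    List.mem_map.2 ⟨(a, b), h, rfl⟩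
  congr 1
  · refine if_congr ?_ rfl rfl
    simp only [Bool.and_eq_true, decide_eq_true_eq]
    exact ⟨fun h => ⟨h.1.2, h.2⟩, fun h => ⟨⟨⟨hmem _ _ h.1, hmem _ _ h.2⟩, h.1⟩, h.2⟩⟩
  · refine if_congr ?_ rfl rfl
    simp only [Bool.and_eq_true, decide_eq_true_eq, Bool.not_eq_true', decide_eq_false_iff_not]
    constructor
    · rintro ⟨⟨⟨h1, h2⟩, h3⟩, h4⟩
      exact ⟨(flags hq h1).2 h3, (flags hq h2).2 h4⟩
    · rintro ⟨h1, h2⟩
      exact ⟨⟨⟨hmem _ _ h1, hmem _ _ h2⟩, (flags hq (hmem _ _ h1)).1 h1⟩,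
        (flags hq (hmem _ _ h2)).1 h2⟩

end transfer

/-! ## Insertion of a gadget -/

section ins

variable {S : Type} [DecidableEq S]

theorem par_twice (A B : List S) (h : B.Perm (A ++ A)) (z : S) : par B z = 0 := by
  unfold par
  rw [h.count_eq, List.count_append]
  push_cast
  have h2 : (2 : ZMod 2) = 0 := by decide
  linear_combination (A.count z : ZMod 2) * h2

theorem par_g3 (s t u : S) (z : S × S) :
    par [(s, t), (t, s), (t, u), (u, t), (t, s), (s, t), (u, t), (t, u)] z = 0 := by
  refine par_twice [(s, t), (t, s), (t, u), (u, t)] _ ?_ z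
  have e : ([(s, t), (t, s), (t, u), (u, t), (t, s), (s, t), (u, t), (t, u)] : List (S × S)) =
      [(s, t), (t, s), (t, u), (u, t)] ++ ([(t, s), (s, t)] ++ [(u, t), (t, u)]) := rfl
  rw [e]
  refine List.Perm.append_left _ ?_
  exact (List.Perm.append (List.Perm.swap _ _ _) (List.Perm.swap _ _ _))

theorem par_g2 (s t : S) (z : S × S) : par [(s, t), (t, s), (s, t), (t, s)] z = 0 :=
  par_twice [(s, t), (t, s)] _ (List.Perm.refl _) z

theorem run_g3 (s t u : S) (B : List S) :
    Run (s :: t :: u :: B) [(s, t), (t, s), (t, u), (u, t), (t, s), (s, t), (u, t), (t, u)]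
      (s :: t :: u :: B) := by
  refine Run.over [] (u :: B) s t _ _ ?_
  refine Run.over [] (u :: B) t s _ _ ?_
  refine Run.over [s] B t u _ _ ?_
  refine Run.over [s] B u t _ _ ?_
  refine Run.under [] (u :: B) s t _ _ ?_
  refine Run.under [] (u :: B) t s _ _ ?_
  refine Run.under [s] B t u _ _ ?_
  refine Run.under [s] B u t _ _ ?_
  exact Run.nil _

theorem run_g2 (s t : S) (B : List S) :
    Run (s :: t :: B) [(s, t), (t, s), (s, t), (t, s)] (s :: t :: B) := by
  refine Run.over [] B s t _ _ ?_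
  refine Run.over [] B t s _ _ ?_
  refine Run.over [] B s t _ _ ?_
  refine Run.over [] B t s _ _ ?_
  exact Run.nil _

theorem AW_ins (hPSU : SpecPSU) {q : List (S × Bool)} (hq : (q.map Prod.fst).Nodup)
    (w g W : List (S × S)) (hg : ∀ z, par g z = 0) :
    AW q (w ++ g ++ w.reverse ++ W) = AW q W + AW q g := by
  unfold AW
  have e1 : w ++ g ++ w.reverse ++ W = w ++ g ++ (w.reverse ++ W) := by
    simp only [List.append_assoc]
  have e2 : w ++ (w.reverse ++ W) = [] ++ (w ++ w.reverse) ++ W := by simp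
  rw [e1, hPSU.ins _ _ _ _ hg, e2, hPSU.ins _ _ _ _ (fun z => par_twice w _ (by
    exact List.Perm.append_left _ (List.reverse_perm w)) z), hPSU.rev _ (bet_self hq), add_zero]
  rfl

end ins

/-! ## Achievable functions -/

section graph

variable {V E : Type} [DecidableEq V] [DecidableEq E] {G : Gr V E} {bot top : List (Dart E)}

/-- `F` can be added to the values -/
def Ach (G : Gr V E) (bot top : List (Dart E)) (F : List (Dart E) → ZMod 2) : Prop :=
  ∀ W, IsDia G bot W top → ∃ W', IsDia G bot W' top ∧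
    ∀ c, IsCyc G c → AW (cv c) W' = AW (cv c) W + F c

omit [DecidableEq V] in
theorem ach_zero : Ach G bot top 0 := fun W h => ⟨W, h, fun c _ => by simp⟩

omit [DecidableEq V] in
theorem ach_add {F F' : List (Dart E) → ZMod 2} (h : Ach G bot top F) (h' : Ach G bot top F') :
    Ach G bot top (F + F') := by
  intro W hW
  obtain ⟨W₁, h₁, e₁⟩ := h W hW
  obtain ⟨W₂, h₂, e₂⟩ := h' W₁ h₁
  refine ⟨W₂, h₂, fun c hc => ?_⟩
  rw [e₂ c hc, e₁ c hc, Pi.add_apply]
  ring

omit [DecidableEq V] in
theorem ach_congr {F F' : List (Dart E) → ZMod 2} (h : Ach G bot top F)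
    (he : ∀ c, IsCyc G c → F' c = F c) : Ach G bot top F' := by
  intro W hW
  obtain ⟨W₁, h₁, e₁⟩ := h W hW
  exact ⟨W₁, h₁, fun c hc => by rw [e₁ c hc, he c hc]⟩

omit [DecidableEq V] in
theorem ach_sum {ι : Type} (T : Finset ι) (F : ι → List (Dart E) → ZMod 2)
    (h : ∀ i ∈ T, Ach G bot top (F i)) : Ach G bot top (∑ i ∈ T, F i) := by
  classical
  induction T using Finset.induction_on with
  | empty =>
    rw [Finset.sum_empty]
    exact ach_zero
  | insert a T ha ih =>
    rw [Finset.sum_insert ha]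
    exact ach_add (h a (Finset.mem_insert_self a T))
      (ih fun i hi => h i (Finset.mem_insert_of_mem hi))

omit [DecidableEq V] in
theorem ach_g3 (hPSU : SpecPSU) (hRUN : SpecRUN) (hCYC : SpecCYC) {s t u : Dart E}
    (hs : s.1 ∈ G.X) (ht : t.1 ∈ G.X) (hu : u.1 ∈ G.X) (hst : s ≠ t) (hsu : s ≠ u) (htu : t ≠ u) :
    Ach G bot top (fun c => xe s.1 c * xe t.1 c * xe u.1 c) := by
  intro W hW
  have h1 : bot.Perm (s :: t :: u :: ((bot.erase s).erase t).erase u) := by
    have k1 : bot.Perm (s :: bot.erase s) := List.perm_cons_erase ((hW.mb s).2 hs)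
    have k2 : t ∈ bot.erase s := (List.mem_erase_of_ne hst.symm).2 ((hW.mb t).2 ht)
    have k3 : u ∈ (bot.erase s).erase t :=
      (List.mem_erase_of_ne htu.symm).2 ((List.mem_erase_of_ne hsu.symm).2 ((hW.mb u).2 hu))
    exact k1.trans ((List.Perm.cons _ ((List.perm_cons_erase k2).trans
      (List.Perm.cons _ (List.perm_cons_erase k3)))))
  obtain ⟨w, hw⟩ := hRUN.exi h1
  refine ⟨_, ⟨hW.mb, hW.dia.nd, hW.dia.bb, hW.dia.tt, hRUN.trans (hRUN.trans (hRUN.trans hw
    (run_g3 s t u _)) (hRUN.rev hw)) hW.dia.run⟩, fun c hc => ?_⟩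
  have hq := hCYC.cvnd hc
  rw [AW_ins hPSU hq _ _ _ (par_g3 s t u), AW_g3 hPSU hq hst hsu htu]
  congr 1
  simp only [hCYC.on]
  unfold xe
  by_cases k1 : s.1 ∈ c.map Prod.fst <;> by_cases k2 : t.1 ∈ c.map Prod.fst <;>
    by_cases k3 : u.1 ∈ c.map Prod.fst <;> simp only [k1, k2, k3, and_self, and_true, and_false,
      false_and, if_true, if_false, mul_one, mul_zero, zero_mul]

omit [DecidableEq V] in
theorem ach_g2 (hPSU : SpecPSU) (hRUN : SpecRUN) (hCYC : SpecCYC) {s t : Dart E}
    (hs : s.1 ∈ G.X) (ht : t.1 ∈ G.X) (hst : s ≠ t) : Ach G bot top (cc s t) := by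
  intro W hW
  have h1 : bot.Perm (s :: t :: (bot.erase s).erase t) := by
    have k1 : bot.Perm (s :: bot.erase s) := List.perm_cons_erase ((hW.mb s).2 hs)
    have k2 : t ∈ bot.erase s := (List.mem_erase_of_ne hst.symm).2 ((hW.mb t).2 ht)
    exact k1.trans (List.Perm.cons _ (List.perm_cons_erase k2))
  obtain ⟨w, hw⟩ := hRUN.exi h1
  refine ⟨_, ⟨hW.mb, hW.dia.nd, hW.dia.bb, hW.dia.tt, hRUN.trans (hRUN.trans (hRUN.trans hw
    (run_g2 s t _)) (hRUN.rev hw)) hW.dia.run⟩, fun c hc => ?_⟩
  have hq := hCYC.cvnd hc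
  rw [AW_ins hPSU hq _ _ _ (par_g2 s t), AW_g2 hPSU hq hst]
  congr 1
  unfold coh cc
  simp only [hCYC.up, hCYC.dn]

theorem xe_sq (e : E) (c : List (Dart E)) : xe e c * xe e c = xe e c := by
  unfold xe
  split_ifs <;> simp

omit [DecidableEq V] in
theorem ach_pair (hPSU : SpecPSU) (hRUN : SpecRUN) (hCYC : SpecCYC) {e f : E}
    (he : e ∈ G.X) (hf : f ∈ G.X) (hef : e ≠ f) : Ach G bot top (fun c => xe e c * xe f c) := by
  refine ach_congr (ach_g3 hPSU hRUN hCYC (s := (e, false)) (t := (e, true)) (u := (f, false))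
    he he hf (by simp) (by simp [hef]) (by simp [hef])) fun c _ => ?_
  rw [xe_sq]

/-- the number of edges at the start of a dart of a cycle -/
theorem count_one (hCYC : SpecCYC) (hG : Loopless G) {c : List (Dart E)} (hc : IsCyc G c)
    {d : Dart E} (hd : d ∈ c) (T : Finset (Dart E))
    (hT : ∀ x, x ∈ T ↔ x.1 ∈ G.X ∧ G.vt x = G.vt d ∧ x.1 ≠ d.1) :
    ∑ x ∈ T, xe x.1 c = 1 := by
  obtain ⟨A, B, rfl⟩ := List.append_of_mem hd
  set c' := d :: (B ++ A) with hc'
  have hrot : (A ++ d :: B).rotate A.length = c' := by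
    rw [List.rotate_append_length_eq]
    rfl
  have hcyc' : IsCyc G c' := by
    rw [← hrot]
    exact hCYC.rot _ hc
  have hmemiff : ∀ x : Dart E, x ∈ c' ↔ x ∈ A ++ d :: B := by
    intro x
    rw [← hrot, List.mem_rotate]
  have hmem : ∀ e : E, e ∈ c'.map Prod.fst ↔ e ∈ (A ++ d :: B).map Prod.fst := by
    intro e
    simp only [List.mem_map, hmemiff]
  obtain ⟨l, hl⟩ : ∃ l, c'.getLast? = some l := by
    rw [hc']
    exact ⟨_, List.getLast?_eq_some_getLast (by simp)⟩
  obtain ⟨h1, h2⟩ := hCYC.two hcyc' (by rw [hc']; rfl) hl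
  have hlc : l ∈ c' := List.mem_of_getLast? hl
  have hlX : l.1 ∈ G.X := hcyc'.mem l hlc
  have hdX : d.1 ∈ G.X := hc.mem d hd
  have hld : l.1 ≠ d.1 := by
    intro h
    have h3 : l = d := List.inj_on_of_nodup_map hcyc'.nde hlc (by rw [hc']; simp) h
    rw [h3] at h1
    exact hG d hdX h1.symm
  rw [Finset.sum_eq_single (rv l)]
  · unfold xe
    rw [if_pos]
    rw [← hmem]
    exact List.mem_map.2 ⟨l, hlc, rfl⟩
  · intro x hx hne
    rw [hT] at hx
    unfold xe
    rw [if_neg]
    intro h3
    rw [← hmem] at h3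
    rcases h2 x h3 hx.2.1 with h4 | h4
    · exact hx.2.2 (by rw [h4])
    · exact hne h4
  · intro h
    exact absurd ((hT (rv l)).2 ⟨hlX, h1, hld⟩) h

theorem ach_one (hPSU : SpecPSU) (hRUN : SpecRUN) (hCYC : SpecCYC) (hG : Loopless G) {e : E}
    (he : e ∈ G.X) (hbot : ∀ d : Dart E, d ∈ bot ↔ d.1 ∈ G.X) :
    Ach G bot top (fun c => xe e c) := by
  let T : Finset (Dart E) := bot.toFinset.filter fun x => G.vt x = G.vt (e, false) ∧ x.1 ≠ e
  have hT : ∀ x, x ∈ T ↔ x.1 ∈ G.X ∧ G.vt x = G.vt (e, false) ∧ x.1 ≠ e := by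
    intro x
    simp only [T, Finset.mem_filter, List.mem_toFinset, hbot]
  refine ach_congr (ach_sum T (fun x c => xe e c * xe x.1 c) fun x hx => ?_) fun c hc => ?_
  · rw [hT] at hx
    exact ach_pair hPSU hRUN hCYC he hx.1 hx.2.2.symm
  · rw [Finset.sum_apply, ← Finset.mul_sum]
    by_cases hec : e ∈ c.map Prod.fst
    · obtain ⟨d, hd, hde⟩ := List.mem_map.1 hec
      have key : ∑ x ∈ T, xe x.1 c = 1 := by
        by_cases hd2 : (e, false) ∈ c
        · exact count_one hCYC hG hc hd2 T hT
        · have h3 : d = (e, true) := by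
            obtain ⟨d1, b⟩ := d
            simp only at hde
            subst hde
            cases b
            · exact absurd hd hd2
            · rfl
          have h4 : (e, false) ∈ rvc c := by
            unfold rvc
            rw [List.mem_reverse, List.mem_map]
            exact ⟨d, hd, by rw [h3]; rfl⟩
          have h5 := count_one hCYC hG (hCYC.rev hc) h4 T hT
          have h6 : ∀ x : Dart E, xe x.1 (rvc c) = xe x.1 c := by
            intro x
            unfold xe
            refine if_congr ?_ rfl rfl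
            unfold rvc
            simp only [List.mem_map, List.mem_reverse]
            constructor
            · rintro ⟨a, ⟨b, hb, rfl⟩, hab⟩
              exact ⟨b, hb, hab⟩
            · rintro ⟨b, hb, hab⟩
              exact ⟨rv b, ⟨b, hb, rfl⟩, hab⟩
          rw [← h5]
          exact Finset.sum_congr rfl fun x _ => (h6 x).symm
      rw [key, mul_one]
    · have : xe e c = 0 := by
        unfold xe
        rw [if_neg hec]
      rw [this, zero_mul]

theorem ach_FF (hPSU : SpecPSU) (hRUN : SpecRUN) (hCYC : SpecCYC) (hG : Loopless G)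
    (hbot : ∀ d : Dart E, d ∈ bot ↔ d.1 ∈ G.X) {F : List (Dart E) → ZMod 2} (hF : F ∈ FF G) :
    Ach G bot top F := by
  unfold FF at hF
  refine Submodule.span_induction (p := fun F _ => Ach G bot top F) ?_ ach_zero
    (fun _ _ _ _ h h' => ach_add h h') ?_ hF
  · rintro f (⟨e, he, g, hg, h, hh, rfl⟩ | ⟨s, t, hs, ht, rfl⟩)
    · by_cases heg : e = g
      · subst heg
        by_cases heh : e = h
        · subst heh
          refine ach_congr (ach_one hPSU hRUN hCYC hG he hbot) fun c _ => ?_
          rw [xe_sq, xe_sq]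
        · refine ach_congr (ach_pair hPSU hRUN hCYC he hh heh) fun c _ => ?_
          rw [xe_sq]
      · by_cases heh : e = h
        · subst heh
          refine ach_congr (ach_pair hPSU hRUN hCYC he hg heg) fun c _ => ?_
          rw [mul_right_comm, xe_sq]
        · by_cases hgh : g = h
          · subst hgh
            refine ach_congr (ach_pair hPSU hRUN hCYC he hg heg) fun c _ => ?_
            rw [mul_assoc, xe_sq]
          · exact ach_g3 hPSU hRUN hCYC (s := (e, false)) (t := (g, false)) (u := (h, false))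
              he hg hh (by simp [heg]) (by simp [heh]) (by simp [hgh])
    · by_cases hst : s = t
      · subst hst
        refine ach_congr (ach_one hPSU hRUN hCYC hG hs hbot) fun c hc => ?_
        unfold cc xe
        simp only [and_self]
        have hnot : ¬ (s ∈ c ∧ rv s ∈ c) := by
          rintro ⟨h1, h2⟩
          have h3 := List.inj_on_of_nodup_map hc.nde h1 h2 rfl
          have h4 := congrArg Prod.snd h3
          change s.2 = !s.2 at h4
          cases hb : s.2 <;> rw [hb] at h4 <;> simp at h4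
        by_cases h1 : s.1 ∈ c.map Prod.fst
        · rw [if_pos h1]
          have h2 : s ∈ c ∨ rv s ∈ c := by
            obtain ⟨⟨d1, b⟩, hd, hde⟩ := List.mem_map.1 h1
            obtain ⟨s1, b'⟩ := s
            simp only at hde
            subst hde
            cases b <;> cases b' <;> simp [rv, hd]
          rcases h2 with h2 | h2
          · rw [if_pos h2, if_neg fun h3 => hnot ⟨h2, h3⟩, add_zero]
          · rw [if_neg fun h3 => hnot ⟨h3, h2⟩, if_pos h2, zero_add]
        · rw [if_neg h1, if_neg, if_neg, add_zero]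
          · intro h2
            exact h1 (List.mem_map.2 ⟨rv s, h2, rfl⟩)
          · intro h2
            exact h1 (List.mem_map.2 ⟨s, h2, rfl⟩)
      · exact ach_g2 hPSU hRUN hCYC hs ht hst
  · intro a F' _ h
    have ha : a = 0 ∨ a = 1 := by
      revert a
      decide
    rcases ha with rfl | rfl
    · rw [zero_smul]
      exact ach_zero
    · rwa [one_smul]

end graph

end GADM

open GADM in
theorem specGAD (hPSU : SpecPSU) (hRUN : SpecRUN) (hCYC : SpecCYC) : SpecGAD := by
  intro V E _ _ G bot top W hG hW hIn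
  obtain ⟨F, hF, hval⟩ := hIn
  obtain ⟨W', hW', h⟩ := ach_FF (top := top) hPSU hRUN hCYC hG hW.mb hF W hW
  refine ⟨bot, W', top, hW', fun c hc => ?_⟩
  have h1 := hval c hc
  simp only at h1
  rw [h c hc, h1]
  have h2 : (2 : ZMod 2) = 0 := by decide
  linear_combination (F c) * h2

end Pool.Agent.Lib.MP3ff0f8.T
end

section
/-!
# Module GCO: contraction preserves `Good`, if no loop arises
-/
namespace Pool.Agent.Lib.MP3ff0f8.T

namespace GCOM

variable {V E : Type} [DecidableEq E]

lemma xe_congr {c c' : List (Dart E)} (h : ∀ d, d ∈ c ↔ d ∈ c') (e : E) : xe e c = xe e c' := by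
  unfold xe
  have : e ∈ c.map Prod.fst ↔ e ∈ c'.map Prod.fst := by
    simp only [List.mem_map]
    constructor
    · rintro ⟨d, hd, he⟩; exact ⟨d, (h d).1 hd, he⟩
    · rintro ⟨d, hd, he⟩; exact ⟨d, (h d).2 hd, he⟩
  simp only [this]

lemma cc_congr {c c' : List (Dart E)} (h : ∀ d, d ∈ c ↔ d ∈ c') (s t : Dart E) :
    cc s t c = cc s t c' := by
  unfold cc
  simp only [h]

/-- the elements of `F(G)` only depend on the set of the darts of the cycle -/
lemma FF_congr {G : Gr V E} {F : List (Dart E) → ZMod 2} (hF : F ∈ FF G) {c c' : List (Dart E)}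
    (h : ∀ d, d ∈ c ↔ d ∈ c') : F c = F c' := by
  unfold FF at hF
  induction hF using Submodule.span_induction with
  | mem f hf =>
    rcases hf with ⟨e, _, g, _, k, _, rfl⟩ | ⟨s, t, _, _, rfl⟩
    · simp only [xe_congr h]
    · exact cc_congr h s t
  | zero => rfl
  | add f g _ _ hf hg => simp only [Pi.add_apply, hf, hg]
  | smul a f _ hf => simp only [Pi.smul_apply, hf]

lemma mem_of_isRotated {α : Type} {c c' : List α} (h : c.IsRotated c') (d : α) : d ∈ c ↔ d ∈ c' :=
  h.mem_iff

end GCOM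

open GCOM in
theorem specGCO (hCON : SpecCON) (hLIF : SpecLIF) (hRSF : SpecRSF) (hGAD : SpecGAD)
    (hBAS : SpecBAS) (hCYC : SpecCYC) : SpecGCO := by
  intro V E _ _ G d hd hne hL ⟨bot, W, top, hD, hW⟩
  obtain ⟨bot', W', top', hD', ⟨F, hF, hFc⟩, -⟩ := hCON hD d hd hne
  obtain ⟨F', hF', hFF⟩ := hRSF d hd hne F hF
  refine hGAD hL hD' ⟨F', hF', ?_⟩
  intro c' hc'
  obtain ⟨c, hc, hr⟩ := hLIF d hd hne c' hc'
  have hdc : IsCyc (G.con d) (del d.1 c) := by
    obtain ⟨k, hk⟩ := hr.symm
    rw [← hk]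
    exact hCYC.rot k hc'
  have h1 : AW (cv c') W' = AW (cv (del d.1 c)) W' := (hBAS.cyr hD' hc' hr).symm
  have h2 := hFc c hc hdc
  rw [hW c hc, zero_add] at h2
  show AW (cv c') W' = F' c'
  rw [h1, h2, ← hFF c hc hdc]
  exact FF_congr hF' (fun x => hr.mem_iff)

end Pool.Agent.Lib.MP3ff0f8.T
end

section
/-!
# MP_3ff0f8_gt, topological half: GEN
-/
namespace Pool.Agent.Lib.MP3ff0f8.T

namespace GENM

open Polynomial

theorem fin1 (x y z : ℝ) (h : ¬ (x = 0 ∧ y = 0 ∧ z = 0)) :
    {τ : ℝ | x + τ * z + τ ^ 3 * y + τ ^ 5 * z = 0}.Finite := by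
  have hp : (C x + C z * X + C y * X ^ 3 + C z * X ^ 5 : ℝ[X]) ≠ 0 := by
    intro hp
    apply h
    have h0 := congrArg (fun q => q.coeff 0) hp
    have h1 := congrArg (fun q => q.coeff 1) hp
    have h3 := congrArg (fun q => q.coeff 3) hp
    simp [Polynomial.coeff_X, Polynomial.coeff_C, Polynomial.coeff_X_pow] at h0 h1 h3
    exact ⟨h0, h3, h1⟩
  refine (Polynomial.finite_setOf_isRoot hp).subset ?_
  intro τ hτ
  simp only [Set.mem_setOf_eq] at hτ ⊢
  simp only [Polynomial.IsRoot.def, Polynomial.eval_add, Polynomial.eval_mul, Polynomial.eval_C,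
    Polynomial.eval_X, Polynomial.eval_pow]
  linarith [hτ, mul_comm τ z, mul_comm (τ ^ 3) y, mul_comm (τ ^ 5) z]

theorem fin2 (n1 n2 n3 : ℝ) (h : ¬ (n1 = 0 ∧ n2 = 0 ∧ n3 = 0)) :
    {τ : ℝ | n3 - τ * n1 - τ ^ 2 * n2 = 0}.Finite := by
  have hp : (C n3 - C n1 * X - C n2 * X ^ 2 : ℝ[X]) ≠ 0 := by
    intro hp
    apply h
    have h0 := congrArg (fun q => q.coeff 0) hp
    have h1 := congrArg (fun q => q.coeff 1) hp
    have h3 := congrArg (fun q => q.coeff 2) hp
    simp [Polynomial.coeff_X, Polynomial.coeff_C, Polynomial.coeff_X_pow] at h0 h1 h3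
    exact ⟨h1, h3, h0⟩
  refine (Polynomial.finite_setOf_isRoot hp).subset ?_
  intro τ hτ
  simp only [Set.mem_setOf_eq] at hτ ⊢
  simp only [Polynomial.IsRoot.def, Polynomial.eval_sub, Polynomial.eval_mul, Polynomial.eval_C,
    Polynomial.eval_X, Polynomial.eval_pow]
  linarith [hτ, mul_comm τ n1, mul_comm (τ ^ 2) n2]

theorem fin1' (p q : P3) :
    {τ : ℝ | p ≠ q ∧ (p.1 - q.1) + τ * (p.2.2 - q.2.2) + τ ^ 3 * (p.2.1 - q.2.1) +
      τ ^ 5 * (p.2.2 - q.2.2) = 0}.Finite := by
  by_cases h : p = q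
  · simp [h]
  · refine (fin1 (p.1 - q.1) (p.2.1 - q.2.1) (p.2.2 - q.2.2) ?_).subset fun τ hτ => hτ.2
    rintro ⟨h1, h2, h3⟩
    apply h
    refine Prod.ext (by linarith) (Prod.ext (by linarith) (by linarith))

theorem fin2' (n1 n2 n3 : ℝ) :
    {τ : ℝ | ¬ (n1 = 0 ∧ n2 = 0 ∧ n3 = 0) ∧ n3 - τ * n1 - τ ^ 2 * n2 = 0}.Finite := by
  by_cases h : n1 = 0 ∧ n2 = 0 ∧ n3 = 0
  · simp [h]
  · exact (fin2 n1 n2 n3 h).subset fun τ hτ => hτ.2

def c1 (u w : P3) : ℝ := u.2.1 * w.2.2 - u.2.2 * w.2.1
def c2 (u w : P3) : ℝ := u.2.2 * w.1 - u.1 * w.2.2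
def c3 (u w : P3) : ℝ := u.1 * w.2.1 - u.2.1 * w.1

end GENM

open GENM in
theorem specGEN : SpecGEN := by
  intro ι _ N hN
  have hfin : ((⋃ i, ⋃ j, {τ : ℝ | N i ≠ N j ∧ ((N i).1 - (N j).1) + τ * ((N i).2.2 - (N j).2.2) +
      τ ^ 3 * ((N i).2.1 - (N j).2.1) + τ ^ 5 * ((N i).2.2 - (N j).2.2) = 0}) ∪
      ⋃ i, ⋃ j, ⋃ k, {τ : ℝ | ¬ (c1 (N i - N j) (N k - N j) = 0 ∧ c2 (N i - N j) (N k - N j) = 0 ∧
        c3 (N i - N j) (N k - N j) = 0) ∧ c3 (N i - N j) (N k - N j) -
        τ * c1 (N i - N j) (N k - N j) - τ ^ 2 * c2 (N i - N j) (N k - N j) = 0}).Finite := by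
    refine Set.Finite.union ?_ ?_
    · exact Set.finite_iUnion fun i => Set.finite_iUnion fun j => fin1' (N i) (N j)
    · exact Set.finite_iUnion fun i => Set.finite_iUnion fun j => Set.finite_iUnion fun k =>
        fin2' _ _ _
  obtain ⟨τ, hτ⟩ := hfin.infinite_compl.nonempty
  simp only [Set.mem_compl_iff, Set.mem_union, Set.mem_iUnion, Set.mem_setOf_eq, not_or,
    not_exists] at hτ
  obtain ⟨hA, hB⟩ := hτ
  have hA' : ∀ i j, N i ≠ N j → ((N i).1 - (N j).1) + τ * ((N i).2.2 - (N j).2.2) +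
      τ ^ 3 * (((N i).2.1 - (N j).2.1) + τ ^ 2 * ((N i).2.2 - (N j).2.2)) ≠ 0 := by
    intro i j hij h
    refine hA i j ⟨hij, ?_⟩
    linear_combination h
  refine ⟨τ, τ ^ 2, τ ^ 3, ?_, ?_⟩
  · intro i j hij h
    refine hA' i j (fun h => hij (hN h)) ?_
    simp only [sh] at h
    linear_combination h
  · intro i j k hns t ht0 ht1 hs
    obtain ⟨e1, e2⟩ := hs
    simp only [sh, Prod.fst_add, Prod.snd_add, Prod.smul_mk, Prod.mk_add_mk, smul_eq_mul] at e1 e2
    have hv3 : (N i).2.2 - (1 - t) * (N j).2.2 - t * (N k).2.2 ≠ 0 := by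
      intro hv
      apply hns
      rw [segment_eq_image]
      refine ⟨t, ⟨ht0, ht1⟩, ?_⟩
      refine Prod.ext ?_ (Prod.ext ?_ ?_)
      · simp only [Prod.fst_add, Prod.smul_fst, smul_eq_mul]
        linear_combination -e1 + τ * hv
      · simp only [Prod.fst_add, Prod.snd_add, Prod.smul_fst, Prod.smul_snd, smul_eq_mul]
        linear_combination -e2 + τ ^ 2 * hv
      · simp only [Prod.snd_add, Prod.smul_snd, smul_eq_mul]
        linear_combination -hv
    have hn : c1 (N i - N j) (N k - N j) = 0 ∧ c2 (N i - N j) (N k - N j) = 0 ∧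
        c3 (N i - N j) (N k - N j) = 0 := by
      by_contra hn
      refine hB i j k ⟨hn, ?_⟩
      have h : ((N i).2.2 - (1 - t) * (N j).2.2 - t * (N k).2.2) *
          (c3 (N i - N j) (N k - N j) - τ * c1 (N i - N j) (N k - N j) -
            τ ^ 2 * c2 (N i - N j) (N k - N j)) = 0 := by
        have h1 : (N i).1 - (1 - t) * (N j).1 - t * (N k).1 =
          -τ * ((N i).2.2 - (1 - t) * (N j).2.2 - t * (N k).2.2) := by linear_combination e1
        have h2 : (N i).2.1 - (1 - t) * (N j).2.1 - t * (N k).2.1 =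
          -τ ^ 2 * ((N i).2.2 - (1 - t) * (N j).2.2 - t * (N k).2.2) := by linear_combination e2
        have h3 : ((N i).1 - (1 - t) * (N j).1 - t * (N k).1) * c1 (N i - N j) (N k - N j) +
          ((N i).2.1 - (1 - t) * (N j).2.1 - t * (N k).2.1) * c2 (N i - N j) (N k - N j) +
          ((N i).2.2 - (1 - t) * (N j).2.2 - t * (N k).2.2) * c3 (N i - N j) (N k - N j) = 0 := by
          simp only [c1, c2, c3, Prod.fst_sub, Prod.snd_sub]
          ring
        rw [h1, h2] at h3
        linear_combination h3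
      rcases mul_eq_zero.1 h with h | h
      · exact absurd h hv3
      · exact h
    obtain ⟨n1, n2, n3⟩ := hn
    by_cases hjk : N j = N k
    · by_cases hij : N i = N j
      · apply hns
        rw [hij]; exact left_mem_segment ℝ _ _
      · refine hA' i j hij ?_
        rw [← hjk] at e1 e2
        linear_combination e1 + τ ^ 3 * e2
    · have f1 : ((N k).1 - (N j).1) + τ * ((N k).2.2 - (N j).2.2) = 0 := by
        have : ((N i).2.2 - (1 - t) * (N j).2.2 - t * (N k).2.2) *
            (((N k).1 - (N j).1) + τ * ((N k).2.2 - (N j).2.2)) = 0 := by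
          simp only [c1, c2, c3, Prod.fst_sub, Prod.snd_sub] at n1 n2 n3
          linear_combination n2 + ((N k).2.2 - (N j).2.2) * e1
        rcases mul_eq_zero.1 this with h | h
        · exact absurd h hv3
        · exact h
      have f2 : ((N k).2.1 - (N j).2.1) + τ ^ 2 * ((N k).2.2 - (N j).2.2) = 0 := by
        have : ((N i).2.2 - (1 - t) * (N j).2.2 - t * (N k).2.2) *
            (((N k).2.1 - (N j).2.1) + τ ^ 2 * ((N k).2.2 - (N j).2.2)) = 0 := by
          simp only [c1, c2, c3, Prod.fst_sub, Prod.snd_sub] at n1 n2 n3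
          linear_combination -n1 + ((N k).2.2 - (N j).2.2) * e2
        rcases mul_eq_zero.1 this with h | h
        · exact absurd h hv3
        · exact h
      refine hA' k j (fun h => hjk h.symm) ?_
      rw [f1, f2]; ring

end Pool.Agent.Lib.MP3ff0f8.T
end

section
/-!
# GLB: contracting the connecting edges of the gluing graph
-/
namespace Pool.Agent.Lib.MP3ff0f8.T

namespace GLBM

open Finset

variable {V E : Type} [DecidableEq V] [DecidableEq E] {k : ℕ}

/-- the merging map on the vertices -/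
def mu (v : Fin k → V) (j : ℕ) : (V × Bool) ⊕ Fin k → (V × Bool) ⊕ Fin k
  | Sum.inr i => if (i : ℕ) < j then Sum.inl (v i, false) else Sum.inr i
  | Sum.inl (w, β) =>
    if β = true ∧ ∃ i : Fin k, (i : ℕ) < j ∧ v i = w then Sum.inl (w, false) else Sum.inl (w, β)

/-- the edges which are left -/
def Yj (A B : Finset E) (j : ℕ) : Finset (E ⊕ (Fin k × Bool)) :=
  (A ∪ B).map ⟨Sum.inl, Sum.inl_injective⟩ ∪
    ((Finset.univ : Finset (Fin k × Bool)).filter fun p => j ≤ (p.1 : ℕ)).map
      ⟨Sum.inr, Sum.inr_injective⟩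

theorem mem_inl {A B : Finset E} {j : ℕ} {e : E} :
    (Sum.inl e : E ⊕ (Fin k × Bool)) ∈ Yj A B j ↔ e ∈ A ∪ B := by
  simp [Yj]

theorem mem_inr {A B : Finset E} {j : ℕ} {p : Fin k × Bool} :
    (Sum.inr p : E ⊕ (Fin k × Bool)) ∈ Yj A B j ↔ j ≤ (p.1 : ℕ) := by
  simp [Yj]

/-- the graph `G_j` -/
def Gj (G : Gr V E) (A B : Finset E) (v : Fin k → V) (j : ℕ) :
    Gr ((V × Bool) ⊕ Fin k) (E ⊕ (Fin k × Bool)) :=
  ⟨Yj A B j, fun d => mu v j ((g0 G A B v).vt d)⟩

theorem mu_inr_lt {v : Fin k → V} {j : ℕ} {i : Fin k} (h : (i : ℕ) < j) :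
    mu v j (Sum.inr i) = Sum.inl (v i, false) := if_pos h

theorem mu_inr_ge {v : Fin k → V} {j : ℕ} {i : Fin k} (h : ¬ (i : ℕ) < j) :
    mu v j (Sum.inr i) = Sum.inr i := if_neg h

theorem mu_false (v : Fin k → V) (j : ℕ) (w : V) :
    mu v j (Sum.inl (w, false)) = Sum.inl (w, false) := by
  simp [mu]

theorem mu_true_pos {v : Fin k → V} {j : ℕ} {w : V} (h : ∃ i : Fin k, (i : ℕ) < j ∧ v i = w) :
    mu v j (Sum.inl (w, true)) = Sum.inl (w, false) := if_pos ⟨rfl, h⟩

theorem mu_true_neg {v : Fin k → V} {j : ℕ} {w : V} (h : ¬ ∃ i : Fin k, (i : ℕ) < j ∧ v i = w) :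
    mu v j (Sum.inl (w, true)) = Sum.inl (w, true) := if_neg fun h' => h h'.2

theorem mu_inl (v : Fin k → V) (j : ℕ) (w : V) (β : Bool) :
    ∃ β', mu v j (Sum.inl (w, β)) = Sum.inl (w, β') := by
  cases β
  · exact ⟨false, mu_false v j w⟩
  · by_cases h : ∃ i : Fin k, (i : ℕ) < j ∧ v i = w
    · exact ⟨false, mu_true_pos h⟩
    · exact ⟨true, mu_true_neg h⟩

theorem g0_inl (G : Gr V E) (A B : Finset E) (v : Fin k → V) (e : E) (b : Bool) :
    (g0 G A B v).vt (Sum.inl e, b) = Sum.inl (G.vt (e, b), decide (e ∈ B)) := by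
  cases b <;> rfl

theorem g0_false (G : Gr V E) (A B : Finset E) (v : Fin k → V) (p : Fin k × Bool) :
    (g0 G A B v).vt (Sum.inr p, false) = Sum.inr p.1 := rfl

theorem g0_true (G : Gr V E) (A B : Finset E) (v : Fin k → V) (p : Fin k × Bool) :
    (g0 G A B v).vt (Sum.inr p, true) = Sum.inl (v p.1, p.2) := rfl

/-- a sufficient condition for having no loops -/
theorem loopless {G : Gr V E} {A B : Finset E} (hL : Loopless G)
    (hAB : A ∪ B = G.X) (H : Gr ((V × Bool) ⊕ Fin k) (E ⊕ (Fin k × Bool)))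
    (h1 : ∀ e, Sum.inl e ∈ H.X → e ∈ A ∪ B)
    (h2 : ∀ e b, ∃ β', H.vt (Sum.inl e, b) = Sum.inl (G.vt (e, b), β'))
    (h3 : ∀ p, Sum.inr p ∈ H.X → H.vt (Sum.inr p, false) ≠ H.vt (Sum.inr p, true)) :
    Loopless H := by
  rintro ⟨e | p, b⟩ hd
  · have he : e ∈ G.X := hAB ▸ h1 e hd
    obtain ⟨β, hβ⟩ := h2 e b
    obtain ⟨β', hβ'⟩ := h2 e (!b)
    change H.vt (Sum.inl e, b) ≠ H.vt (Sum.inl e, !b)
    rw [hβ, hβ']
    intro h
    have h4 := congrArg Prod.fst (Sum.inl_injective h)
    exact hL (e, b) he h4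
  · change H.vt (Sum.inr p, b) ≠ H.vt (Sum.inr p, !b)
    cases b
    · exact h3 p hd
    · exact (h3 p hd).symm

theorem step (hG : SpecGCO) {G : Gr V E} {A B : Finset E} {v : Fin k → V} (hL : Loopless G)
    (hAB : A ∪ B = G.X) (hv : Function.Injective v) (j : Fin k)
    (h : Good (Gj G A B v j)) : Good (Gj G A B v (j + 1)) := by
  classical
  set H := Gj G A B v j with hH
  have hnj : ¬ ∃ i : Fin k, (i : ℕ) < (j : ℕ) ∧ v i = v j := by
    rintro ⟨i, hi, hij⟩
    rw [hv hij] at hi
    exact lt_irrefl _ hi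
  have htf : ∀ w : V, (Sum.inl (w, false) : (V × Bool) ⊕ Fin k) ≠ Sum.inl (w, true) := by
    intro w h
    have := congrArg Prod.snd (Sum.inl_injective h)
    simp at this
  have htf' : ∀ w w' : V, (Sum.inl (w, false) : (V × Bool) ⊕ Fin k) ≠ Sum.inl (w', true) := by
    intro w w' h
    have := congrArg Prod.snd (Sum.inl_injective h)
    simp at this
  -- first contraction
  let d : Dart (E ⊕ (Fin k × Bool)) := (Sum.inr (j, false), true)
  have hd0 : H.vt d = Sum.inl (v j, false) := by
    change mu v j (Sum.inl (v j, false)) = _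
    exact mu_false _ _ _
  have hd1 : H.vt (rv d) = Sum.inr j := by
    change mu v j (Sum.inr j) = _
    exact mu_inr_ge (lt_irrefl _)
  have hdX : d.1 ∈ H.X := mem_inr.2 le_rfl
  have hdne : H.vt d ≠ H.vt (rv d) := by
    rw [hd0, hd1]
    exact fun h => by cases h
  have hc : ∀ x, (H.con d).vt x = if H.vt x = Sum.inr j then Sum.inl (v j, false) else H.vt x := by
    intro x
    change (if H.vt x = H.vt (rv d) then H.vt d else H.vt x) = _
    rw [hd0, hd1]
  have hHinl : ∀ e b, ∃ β', H.vt (Sum.inl e, b) = Sum.inl (G.vt (e, b), β') := by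
    intro e b
    change ∃ β', mu v j ((g0 G A B v).vt (Sum.inl e, b)) = _
    rw [g0_inl]
    exact mu_inl v j _ _
  have hHf : ∀ p : Fin k × Bool, H.vt (Sum.inr p, false) = mu v j (Sum.inr p.1) := fun p => rfl
  have hHt : ∀ p : Fin k × Bool, H.vt (Sum.inr p, true) = mu v j (Sum.inl (v p.1, p.2)) :=
    fun p => rfl
  have hcinl : ∀ e b, ∃ β', (H.con d).vt (Sum.inl e, b) = Sum.inl (G.vt (e, b), β') := by
    intro e b
    obtain ⟨β', hβ⟩ := hHinl e b
    refine ⟨β', ?_⟩
    rw [hc, hβ, if_neg]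
    exact fun h => by cases h
  have hcX : ∀ x, x ∈ (H.con d).X ↔ x ≠ Sum.inr (j, false) ∧ x ∈ Yj A B (j : ℕ) := by
    intro x
    change x ∈ H.X.erase d.1 ↔ _
    rw [Finset.mem_erase]
    rfl
  have hL1 : Loopless (H.con d) := by
    refine loopless hL hAB _ (fun e he => mem_inl.1 ((hcX _).1 he).2) hcinl ?_
    rintro ⟨i, β⟩ hp
    obtain ⟨hp1, hp2⟩ := (hcX _).1 hp
    have hji : (j : ℕ) ≤ (i : ℕ) := mem_inr.1 hp2
    rw [hc, hc, hHf, hHt]
    simp only
    rw [mu_inr_ge (show ¬ (i : ℕ) < (j : ℕ) by omega)]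
    by_cases hij : i = j
    · subst hij
      have hβ : β = true := by
        cases β
        · exact absurd rfl hp1
        · rfl
      subst hβ
      rw [if_pos rfl, mu_true_neg hnj, if_neg (by exact fun h => by cases h)]
      exact htf _
    · obtain ⟨β', hβ'⟩ := mu_inl v (j : ℕ) (v i) β
      rw [hβ', if_neg (fun h => hij (Sum.inr_injective h)), if_neg (by exact fun h => by cases h)]
      exact fun h => by cases h
  have hg1 : Good (H.con d) := hG d hdX hdne hL1 h
  -- second contraction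
  let d' : Dart (E ⊕ (Fin k × Bool)) := (Sum.inr (j, true), false)
  have hd0' : (H.con d).vt d' = Sum.inl (v j, false) := by
    rw [hc, show H.vt d' = Sum.inr j from mu_inr_ge (lt_irrefl _), if_pos rfl]
  have hd1' : (H.con d).vt (rv d') = Sum.inl (v j, true) := by
    rw [hc, show H.vt (rv d') = Sum.inl (v j, true) from mu_true_neg hnj,
      if_neg (by exact fun h => by cases h)]
  have hdX' : d'.1 ∈ (H.con d).X := by
    rw [hcX]
    refine ⟨?_, mem_inr.2 le_rfl⟩
    intro h
    have := congrArg Prod.snd (Sum.inr_injective h)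
    simp at this
  have hdne' : (H.con d).vt d' ≠ (H.con d).vt (rv d') := by
    rw [hd0', hd1']
    exact htf _
  have hc' : ∀ x, ((H.con d).con d').vt x =
      if (H.con d).vt x = Sum.inl (v j, true) then Sum.inl (v j, false) else (H.con d).vt x := by
    intro x
    change (if (H.con d).vt x = (H.con d).vt (rv d') then (H.con d).vt d' else (H.con d).vt x) = _
    rw [hd0', hd1']
  have heq : (H.con d).con d' = Gj G A B v (j + 1) := by
    have e1 : ((H.con d).con d').X = (Gj G A B v (j + 1)).X := by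
      ext x
      change x ∈ (H.con d).X.erase d'.1 ↔ x ∈ Yj A B ((j : ℕ) + 1)
      rw [Finset.mem_erase, hcX]
      rcases x with e | ⟨i, β⟩
      · rw [mem_inl, mem_inl]
        constructor
        · exact fun h => h.2.2
        · exact fun h => ⟨fun h' => (by cases h'), fun h' => (by cases h'), h⟩
      · rw [mem_inr, mem_inr]
        constructor
        · rintro ⟨h1, h2, h3⟩
          simp only at h3 ⊢
          have hij : i ≠ j := by
            rintro rfl
            cases β
            · exact h2 rfl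
            · exact h1 rfl
          have : (i : ℕ) ≠ (j : ℕ) := fun h => hij (Fin.ext h)
          omega
        · intro h3
          simp only at h3 ⊢
          refine ⟨?_, ?_, by omega⟩
          · intro h
            have h4 := congrArg Prod.fst (Sum.inr_injective h)
            have h5 := congrArg Fin.val h4
            simp only at h5
            omega
          · intro h
            have h4 := congrArg Prod.fst (Sum.inr_injective h)
            have h5 := congrArg Fin.val h4
            simp only at h5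
            omega
    have e2 : ((H.con d).con d').vt = (Gj G A B v (j + 1)).vt := by
      funext x
      rw [hc', hc]
      change _ = mu v (j + 1) ((g0 G A B v).vt x)
      have hx : H.vt x = mu v j ((g0 G A B v).vt x) := rfl
      rw [hx]
      rcases (g0 G A B v).vt x with ⟨w, β⟩ | i
      · have hne : ∀ z : V × Bool, (Sum.inl z : (V × Bool) ⊕ Fin k) ≠ Sum.inr j :=
          fun z h => by cases h
        cases β
        · rw [mu_false, mu_false]
          simp only [if_neg (hne _), if_neg (htf' _ _)]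
        · by_cases h1 : ∃ i : Fin k, (i : ℕ) < (j : ℕ) ∧ v i = w
          · have h2 : ∃ i : Fin k, (i : ℕ) < (j : ℕ) + 1 ∧ v i = w := by
              obtain ⟨i, hi, hw⟩ := h1
              exact ⟨i, by omega, hw⟩
            rw [mu_true_pos h1, mu_true_pos h2]
            simp only [if_neg (hne _), if_neg (htf' _ _)]
          · rw [mu_true_neg h1]
            simp only [if_neg (hne _)]
            by_cases h3 : v j = w
            · rw [if_pos (by rw [h3]), mu_true_pos ⟨j, Nat.lt_succ_self _, h3⟩, h3]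
            · rw [if_neg (fun h => h3 (congrArg Prod.fst (Sum.inl_injective h)).symm), mu_true_neg]
              rintro ⟨i, hi, hw⟩
              have hij : i ≠ j := by
                rintro rfl
                exact h3 hw
              have : (i : ℕ) ≠ (j : ℕ) := fun h => hij (Fin.ext h)
              exact h1 ⟨i, by omega, hw⟩
      · by_cases h1 : (i : ℕ) < (j : ℕ)
        · rw [mu_inr_lt h1, mu_inr_lt (show (i : ℕ) < (j : ℕ) + 1 by omega)]
          have hne : ∀ z : V × Bool, (Sum.inl z : (V × Bool) ⊕ Fin k) ≠ Sum.inr j :=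
            fun z h => by cases h
          simp only [if_neg (hne _), if_neg (htf' _ _)]
        · rw [mu_inr_ge h1]
          by_cases h2 : i = j
          · subst h2
            simp only [if_true]
            rw [mu_inr_lt (Nat.lt_succ_self _)]
            simp only [if_neg (htf' _ _)]
          · have : (i : ℕ) ≠ (j : ℕ) := fun h => h2 (Fin.ext h)
            have h3 : (Sum.inr i : (V × Bool) ⊕ Fin k) ≠ Sum.inr j :=
              fun h => h2 (Sum.inr_injective h)
            have h4 : (Sum.inr i : (V × Bool) ⊕ Fin k) ≠ Sum.inl (v j, true) :=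
              fun h => by cases h
            rw [mu_inr_ge (show ¬ (i : ℕ) < (j : ℕ) + 1 by omega)]
            simp only [if_neg h3, if_neg h4]
    have e3 : ∀ P Q : Gr ((V × Bool) ⊕ Fin k) (E ⊕ (Fin k × Bool)), P.X = Q.X → P.vt = Q.vt →
        P = Q := by
      rintro ⟨X1, v1⟩ ⟨X2, v2⟩ h h'
      subst h h'
      rfl
    exact e3 _ _ e1 e2
  rw [← heq]
  refine hG d' hdX' hdne' ?_ hg1
  rw [heq]
  refine loopless hL hAB _ (fun e he => mem_inl.1 he) ?_ ?_
  · intro e b
    change ∃ β', mu v (j + 1) ((g0 G A B v).vt (Sum.inl e, b)) = _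
    rw [g0_inl]
    exact mu_inl v _ _ _
  · rintro ⟨i, β⟩ hp
    have hp' : (j : ℕ) + 1 ≤ (i : ℕ) := mem_inr.1 hp
    change mu v (j + 1) (Sum.inr i) ≠ mu v (j + 1) (Sum.inl (v i, β))
    obtain ⟨β', hβ'⟩ := mu_inl v ((j : ℕ) + 1) (v i) β
    rw [hβ', mu_inr_ge (show ¬ (i : ℕ) < (j : ℕ) + 1 by omega)]
    exact fun h => by cases h

theorem good_j (hG : SpecGCO) {G : Gr V E} {A B : Finset E} {v : Fin k → V} (hL : Loopless G)
    (hAB : A ∪ B = G.X) (hv : Function.Injective v) (h : Good (g0 G A B v)) :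
    ∀ j ≤ k, Good (Gj G A B v j) := by
  intro j
  induction j with
  | zero =>
    intro _
    have e1 : Yj (k := k) A B 0 = (g0 G A B v).X := by
      ext x
      simp [Yj, g0]
    have e2 : (fun d => mu v 0 ((g0 G A B v).vt d)) = (g0 G A B v).vt := by
      funext x
      rcases (g0 G A B v).vt x with ⟨w, β⟩ | i
      · cases β
        · exact mu_false _ _ _
        · refine mu_true_neg ?_
          rintro ⟨i, hi, -⟩
          exact absurd hi (Nat.not_lt_zero _)
      · exact mu_inr_ge (Nat.not_lt_zero _)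
    have e3 : Gj G A B v 0 = g0 G A B v := by
      unfold Gj
      rw [e1, e2]
    rw [e3]
    exact h
  | succ j ih =>
    intro hj
    exact step hG hL hAB hv ⟨j, hj⟩ (ih (by omega))

/-- a graph type without edges is good -/
theorem good_empty [IsEmpty E] (G : Gr V E) : Good G := by
  refine ⟨[], [], [], ⟨fun d => (IsEmpty.false d.1).elim, ?_⟩, ?_⟩
  · refine ⟨List.nodup_nil, ?_, ?_, Run.nil _⟩
    · intro a
      exact (IsEmpty.false a.1).elim
    · intro a
      exact (IsEmpty.false a.1).elim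
  · intro c hc
    cases c with
    | nil => exact absurd rfl hc.ne
    | cons d c => exact (IsEmpty.false d.1).elim

end GLBM

open GLBM in
theorem specGLB (hGCO : SpecGCO) (hISO : SpecISO) : SpecGLB := by
  intro V E _ _ k G A B v hdis hAB hL hv hw h
  classical
  rcases isEmpty_or_nonempty E with hE | ⟨⟨e₀⟩⟩
  · exact good_empty G
  have hk := good_j hGCO hL hAB hv h k le_rfl
  have hmem : ∀ x, x ∈ (Gj G A B v k).X → ∃ e, x = Sum.inl e ∧ e ∈ A ∪ B := by
    rintro (e | p) hx
    · exact ⟨e, rfl, mem_inl.1 hx⟩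
    · exact absurd (mem_inr.1 hx) (by have := p.1.2; omega)
  let δ : Dart (E ⊕ (Fin k × Bool)) → Dart E := fun d => (d.1.elim id fun _ => e₀, d.2)
  let ψ : (V × Bool) ⊕ Fin k → V := fun x => x.elim Prod.fst v
  have hiso : IsIso (Gj G A B v k) G δ ψ := by
    refine ⟨?_, ?_, ?_, ?_, ?_, ?_⟩
    · rintro ⟨x, b⟩ ⟨x', b'⟩ hx hx' heq
      obtain ⟨e, rfl, -⟩ := hmem _ hx
      obtain ⟨e', rfl, -⟩ := hmem _ hx'
      have h1 : e = e' := congrArg Prod.fst heq
      have h2 : b = b' := congrArg Prod.snd heq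
      rw [h1, h2]
    · rintro ⟨x, b⟩ _
      rfl
    · rintro ⟨x, b⟩ hx
      obtain ⟨e, rfl, he⟩ := hmem _ hx
      exact hAB ▸ he
    · rintro ⟨e, b⟩ he
      exact ⟨(Sum.inl e, b), mem_inl.2 (hAB.symm ▸ he), rfl⟩
    · rintro ⟨x, b⟩ hx
      obtain ⟨e, rfl, he⟩ := hmem _ hx
      change G.vt (e, b) = ψ (mu v k ((g0 G A B v).vt (Sum.inl e, b)))
      rw [g0_inl]
      obtain ⟨β', hβ'⟩ := mu_inl v k (G.vt (e, b)) (decide (e ∈ B))
      rw [hβ']
      rfl
    · rintro ⟨x, b⟩ ⟨x', b'⟩ hx hx' heq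
      obtain ⟨e, rfl, he⟩ := hmem _ hx
      obtain ⟨e', rfl, he'⟩ := hmem _ hx'
      change ψ (mu v k ((g0 G A B v).vt (Sum.inl e, b))) =
        ψ (mu v k ((g0 G A B v).vt (Sum.inl e', b'))) at heq
      change mu v k ((g0 G A B v).vt (Sum.inl e, b)) = mu v k ((g0 G A B v).vt (Sum.inl e', b'))
      rw [g0_inl, g0_inl] at heq ⊢
      have hvv : G.vt (e, b) = G.vt (e', b') := by
        obtain ⟨β, hβ⟩ := mu_inl v k (G.vt (e, b)) (decide (e ∈ B))
        obtain ⟨β', hβ'⟩ := mu_inl v k (G.vt (e', b')) (decide (e' ∈ B))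
        rw [hβ, hβ'] at heq
        exact heq
      rw [hvv]
      have key : ∀ (f f' : E) (c c' : Bool), f ∈ A ∪ B → f' ∈ A ∪ B → f ∈ B → f' ∉ B →
          G.vt (f, c) = G.vt (f', c') →
          mu v k (Sum.inl (G.vt (f', c'), true)) = mu v k (Sum.inl (G.vt (f', c'), false)) := by
        intro f f' c c' _ hf' hfB hfB' hff
        have hfA' : f' ∈ A := (Finset.mem_union.1 hf').resolve_right hfB'
        have h1 : G.vt (f', c') ∈ G.vs A ∩ G.vs B := by
          refine Finset.mem_inter.2 ⟨?_, ?_⟩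
          · exact Finset.mem_image.2 ⟨(f', c'), Finset.mem_product.2 ⟨hfA', Finset.mem_univ _⟩, rfl⟩
          · exact Finset.mem_image.2 ⟨(f, c), Finset.mem_product.2 ⟨hfB, Finset.mem_univ _⟩, hff⟩
        obtain ⟨i, hi⟩ := hw _ h1
        rw [mu_false, mu_true_pos ⟨i, i.2, hi.symm⟩]
      by_cases h1 : e ∈ B <;> by_cases h2 : e' ∈ B
      · rw [decide_eq_true h1, decide_eq_true h2]
      · rw [decide_eq_true h1, decide_eq_false h2]
        exact key e e' b b' he he' h1 h2 hvv
      · rw [decide_eq_false h1, decide_eq_true h2, ← hvv]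
        exact (key e' e b' b he' he h2 h1 hvv.symm).symm
      · rw [decide_eq_false h1, decide_eq_false h2]
  exact (hISO hiso).1 hk

end Pool.Agent.Lib.MP3ff0f8.T
end

section
namespace Pool.Agent.Lib.MP3ff0f8.T.PSGM

open Pool.Agent.Lib.MP3ff0f8.T Finset

variable {M : Type} [AddCommMonoid M]

/-- open sum: the sum of `h` over the consecutive pairs of `l ++ [z]` -/
def os (h : P3 → P3 → M) : List P3 → P3 → M
  | [], _ => 0
  | a :: l, z => h a ((l ++ [z]).headD 0) + os h l z

theorem os_app (h : P3 → P3 → M) (A B : List P3) (z : P3) :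
    os h (A ++ B) z = os h A ((B ++ [z]).headD 0) + os h B z := by
  induction A with
  | nil => simp [os]
  | cons a A ih =>
    simp only [List.cons_append, os, ih, add_assoc]
    congr 1
    cases A with
    | nil => simp
    | cons b A => simp

theorem os_range (h : P3 → P3 → M) (l : List P3) (z : P3) :
    os h l z = ∑ i ∈ range l.length, h ((l ++ [z]).getD i 0) ((l ++ [z]).getD (i + 1) 0) := by
  induction l with
  | nil => simp [os]
  | cons a l ih =>
    rw [os, ih, List.length_cons, Finset.sum_range_succ', add_comm]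
    congr 1
    · simp only [List.cons_append, List.getD_cons_zero, List.getD_cons_succ]
      cases l <;> simp

theorem closed (h : P3 → P3 → M) (a : P3) (l : List P3) :
    ∑ i ∈ range (a :: l).length, h (nd (a :: l) i) (nd (a :: l) (i + 1)) = os h (a :: l) a := by
  rw [os_range]
  apply Finset.sum_congr rfl
  intro i hi
  have hi' : i < (a :: l).length := Finset.mem_range.1 hi
  have e1 : nd (a :: l) i = ((a :: l) ++ [a]).getD i 0 := by
    unfold nd
    rw [Nat.mod_eq_of_lt hi', List.getD_append _ _ _ _ hi']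
  have e2 : nd (a :: l) (i + 1) = ((a :: l) ++ [a]).getD (i + 1) 0 := by
    unfold nd
    by_cases hc : i + 1 < (a :: l).length
    · rw [Nat.mod_eq_of_lt hc, List.getD_append _ _ _ _ hc]
    · have : i + 1 = (a :: l).length := by omega
      rw [this, Nat.mod_self, List.getD_append_right _ _ _ _ le_rfl]
      simp
  rw [e1, e2]

theorem rev_sum (h : P3 → P3 → M) (hs : ∀ p q, h p q = h q p) (a b : P3) (l : List P3) :
    os h (b :: l.reverse) a = os h (a :: l) b := by
  rw [os_range, os_range]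
  have hl : (b :: l.reverse).length = l.length + 1 := by simp
  rw [hl, List.length_cons, ← Finset.sum_range_reflect]
  apply Finset.sum_congr rfl
  intro i hi
  have hi' : i < l.length + 1 := Finset.mem_range.1 hi
  have er : (b :: l.reverse) ++ [a] = ((a :: l) ++ [b]).reverse := by simp
  have key : ∀ j, j < l.length + 2 → ((b :: l.reverse) ++ [a]).getD j 0 =
      ((a :: l) ++ [b]).getD (l.length + 1 - j) 0 := by
    intro j hj
    rw [er, List.getD_reverse _ (by simp; omega)]
    congr 1
    simp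
  rw [key _ (by omega), key _ (by omega), hs]
  congr 2 <;> omega

variable {V E : Type}

theorem dart (G : Gr V E) (Γ : Emb V E) (h : P3 → P3 → M) (hs : ∀ p q, h p q = h q p)
    (d : Dart E) : os h (Γ.dn G.vt d) (Γ.vx (G.vt (rv d))) =
      ∑ i ∈ range ((Γ.arc d.1).length + 1), h (Γ.sg G.vt d.1 i).1 (Γ.sg G.vt d.1 i).2 := by
  have base : os h (Γ.vx (G.vt (d.1, false)) :: Γ.arc d.1) (Γ.vx (G.vt (d.1, true))) =
      ∑ i ∈ range ((Γ.arc d.1).length + 1), h (Γ.sg G.vt d.1 i).1 (Γ.sg G.vt d.1 i).2 := by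
    rw [os_range]
    rfl
  obtain ⟨e, b⟩ := d
  cases b
  · exact base
  · rw [← base]
    exact rev_sum h hs _ _ _

theorem dn_ne (G : Gr V E) (Γ : Emb V E) (d : Dart E) : ∃ l, Γ.dn G.vt d = Γ.vx (G.vt d) :: l := by
  unfold Emb.dn
  split
  · exact ⟨_, rfl⟩
  · exact ⟨_, rfl⟩

theorem flat (G : Gr V E) (Γ : Emb V E) (h : P3 → P3 → M) (c : List (Dart E)) (w : V)
    (hc : c.map (fun d => G.vt (rv d)) = (c.map G.vt ++ [w]).tail) (hne : c ≠ []) :
    os h (c.flatMap (Γ.dn G.vt)) (Γ.vx w) =
      (c.map fun d => os h (Γ.dn G.vt d) (Γ.vx (G.vt (rv d)))).sum := by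
  induction c with
  | nil => exact absurd rfl hne
  | cons d c ih =>
    cases c with
    | nil =>
      have : G.vt (rv d) = w := by simpa using hc
      simp [this]
    | cons d' c =>
      have hc' : G.vt (rv d) = G.vt d' ∧
          (d' :: c).map (fun d => G.vt (rv d)) = ((d' :: c).map G.vt ++ [w]).tail := by
        simpa using hc
      rw [List.flatMap_cons, os_app, ih hc'.2 (by simp), List.map_cons, List.sum_cons]
      congr 2
      obtain ⟨l, hl⟩ := dn_ne G Γ d'
      rw [List.flatMap_cons, hl, hc'.1]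
      simp

theorem psg (G : Gr V E) (Γ : Emb V E) (c : List (Dart E))
    (h : P3 → P3 → M) (hs : ∀ p q, h p q = h q p) (hc : IsCyc G c) :
    ∑ i ∈ range (Γ.poly G.vt c).length, h (nd (Γ.poly G.vt c) i) (nd (Γ.poly G.vt c) (i + 1)) =
    (c.map fun d => ∑ i ∈ range ((Γ.arc d.1).length + 1),
      h (Γ.sg G.vt d.1 i).1 (Γ.sg G.vt d.1 i).2).sum := by
  obtain ⟨d, c', rfl⟩ : ∃ d c', c = d :: c' := by
    cases c with
    | nil => exact absurd rfl hc.ne
    | cons d c' => exact ⟨d, c', rfl⟩
  have e : ∃ l, Γ.poly G.vt (d :: c') = Γ.vx (G.vt d) :: l := by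
    unfold Emb.poly
    obtain ⟨l, hl⟩ := dn_ne G Γ d
    rw [List.flatMap_cons, hl]
    exact ⟨_, rfl⟩
  obtain ⟨l, hl⟩ := e
  have hcl : (d :: c').map (fun d => G.vt (rv d)) = ((d :: c').map G.vt ++ [G.vt d]).tail := by
    rw [hc.cl]
    simp
  have := flat G Γ h (d :: c') (G.vt d) hcl (by simp)
  have h2 : os h (Γ.poly G.vt (d :: c')) (Γ.vx (G.vt d)) =
      ∑ i ∈ range (Γ.poly G.vt (d :: c')).length,
        h (nd (Γ.poly G.vt (d :: c')) i) (nd (Γ.poly G.vt (d :: c')) (i + 1)) := by
    rw [hl, closed]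
  rw [← h2]
  unfold Emb.poly
  rw [this]
  congr 1
  apply List.map_congr_left
  intro x _
  exact dart G Γ h hs x

end Pool.Agent.Lib.MP3ff0f8.T.PSGM

namespace Pool.Agent.Lib.MP3ff0f8.T

open PSGM Finset in
theorem specPSG : SpecPSG := by
  intro V E _ G Γ c h hs hc
  exact psg G Γ c h hs hc

end Pool.Agent.Lib.MP3ff0f8.T
end

section
/-!
# MP_3ff0f8_gt, topological half: module STT (the states of a run)
-/
namespace Pool.Agent.Lib.MP3ff0f8.T

namespace STTM

variable {S : Type} [DecidableEq S]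

lemma map_swap {A B : List S} {s t : S} (h : (A ++ s :: t :: B).Nodup) :
    (A ++ s :: t :: B).map (Equiv.swap s t) = A ++ t :: s :: B := by
  rw [List.map_append, List.map_cons, List.map_cons, Equiv.swap_apply_left,
    Equiv.swap_apply_right]
  rw [List.nodup_append] at h
  obtain ⟨-, h2, h3⟩ := h
  rw [List.nodup_cons, List.nodup_cons] at h2
  have hA : A.map (Equiv.swap s t) = A := by
    conv_rhs => rw [← List.map_id A]
    apply List.map_congr_left
    intro x hx
    exact Equiv.swap_apply_of_ne_of_ne (h3 x hx s (by simp)) (h3 x hx t (by simp))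
  have hB : B.map (Equiv.swap s t) = B := by
    conv_rhs => rw [← List.map_id B]
    apply List.map_congr_left
    intro x hx
    refine Equiv.swap_apply_of_ne_of_ne ?_ ?_
    · rintro rfl
      exact h2.1 (List.mem_cons_of_mem _ hx)
    · rintro rfl
      exact h2.2.1 hx
  rw [hA, hB]

omit [DecidableEq S] in
lemma perm_swap (A B : List S) (s t : S) : (A ++ t :: s :: B).Perm (A ++ s :: t :: B) :=
  List.Perm.append_left _ (List.Perm.swap _ _ _)

lemma run {bot top : List S} {W : List (S × S)} (h : Run bot W top) : bot.Nodup →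
    ∀ k ≤ W.length, Run bot (W.take k) (stt bot W k) ∧
      Run (stt bot W k) (W.drop k) top ∧ (stt bot W k).Perm bot ∧ (stt bot W k).Nodup := by
  induction h
  · rename_i L
    intro hn k hk
    obtain rfl : k = 0 := by simpa using hk
    exact ⟨Run.nil L, Run.nil L, List.Perm.refl _, hn⟩
  · rename_i A B s t W L' hr ih
    intro hn k hk
    cases k with
    | zero => exact ⟨Run.nil _, Run.over A B s t W L' hr, List.Perm.refl _, hn⟩
    | succ k =>
      have hn' : (A ++ t :: s :: B).Nodup := (perm_swap A B s t).nodup_iff.2 hn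
      have e : stt (A ++ s :: t :: B) ((s, t) :: W) (k + 1) = stt (A ++ t :: s :: B) W k := by
        show stt ((A ++ s :: t :: B).map (Equiv.swap s t)) W k = _
        rw [map_swap hn]
      obtain ⟨h1, h2, h3, h4⟩ := ih hn' k (by simpa using hk)
      rw [e]
      exact ⟨Run.over A B s t _ _ h1, h2, h3.trans (perm_swap A B s t), h4⟩
  · rename_i A B s t W L' hr ih
    intro hn k hk
    cases k with
    | zero => exact ⟨Run.nil _, Run.under A B s t W L' hr, List.Perm.refl _, hn⟩
    | succ k =>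
      have hn' : (A ++ t :: s :: B).Nodup := (perm_swap A B s t).nodup_iff.2 hn
      have e : stt (A ++ s :: t :: B) ((t, s) :: W) (k + 1) = stt (A ++ t :: s :: B) W k := by
        show stt ((A ++ s :: t :: B).map (Equiv.swap t s)) W k = _
        rw [Equiv.swap_comm, map_swap hn]
      obtain ⟨h1, h2, h3, h4⟩ := ih hn' k (by simpa using hk)
      rw [e]
      exact ⟨Run.under A B s t _ _ h1, h2, h3.trans (perm_swap A B s t), h4⟩

lemma succ (k : ℕ) : ∀ (L : List S) (W : List (S × S)) (h : k < W.length),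
    stt L W (k + 1) = (stt L W k).map (Equiv.swap W[k].1 W[k].2) := by
  induction k with
  | zero =>
    intro L W h
    cases W with
    | nil => simp at h
    | cons z W => simp [stt]
  | succ k ih =>
    intro L W h
    cases W with
    | nil => simp at h
    | cons z W =>
      show stt (L.map (Equiv.swap z.1 z.2)) W (k + 1) = (stt (L.map (Equiv.swap z.1 z.2)) W k).map _
      rw [ih _ W (by simpa using h)]
      rfl

lemma idx1 {A B : List S} {s t : S} (h : (A ++ s :: t :: B).Nodup) :
    (A ++ s :: t :: B).idxOf s = A.length ∧ (A ++ s :: t :: B).idxOf t = A.length + 1 := by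
  rw [List.nodup_append] at h
  obtain ⟨-, h2, h3⟩ := h
  rw [List.nodup_cons, List.nodup_cons] at h2
  have hs : s ∉ A := fun hs => h3 s hs s (by simp) rfl
  have ht : t ∉ A := fun ht => h3 t ht t (by simp) rfl
  have hst : s ≠ t := by
    rintro rfl
    exact h2.1 (by simp)
  constructor
  · rw [List.idxOf_append_of_notMem hs, List.idxOf_cons_self]
    rfl
  · rw [List.idxOf_append_of_notMem ht, List.idxOf_cons_ne _ hst, List.idxOf_cons_self]

lemma idx2 {A B : List S} {s t x : S} (hs : x ≠ s) (ht : x ≠ t) :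
    (A ++ s :: t :: B).idxOf x = (A ++ t :: s :: B).idxOf x := by
  by_cases hx : x ∈ A
  · rw [List.idxOf_append_of_mem hx, List.idxOf_append_of_mem hx]
  · rw [List.idxOf_append_of_notMem hx, List.idxOf_append_of_notMem hx,
      List.idxOf_cons_ne _ hs.symm, List.idxOf_cons_ne _ ht.symm,
      List.idxOf_cons_ne _ ht.symm, List.idxOf_cons_ne _ hs.symm]

end STTM

open STTM in
theorem specSTT : SpecSTT where
  run := fun hn h => STTM.run h hn
  fin := by
    intro S _ bot top W hn h
    have h1 := (STTM.run h hn W.length le_rfl).2.1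
    rw [List.drop_length] at h1
    generalize stt bot W W.length = L at h1 ⊢
    cases h1
    rfl
  step := by
    intro S _ bot top W hn h k hk
    obtain ⟨-, h1, -, h2⟩ := STTM.run h hn k hk.le
    have h3 := STTM.succ k bot W hk
    rw [List.drop_eq_getElem_cons hk] at h1
    generalize stt bot W k = L at h1 h2 h3
    generalize W[k] = z at h1 h3
    generalize stt bot W (k + 1) = L' at h3
    generalize W.drop (k + 1) = W' at h1
    cases h1
    · rename_i A B s t hr
      subst h3
      rw [map_swap h2]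
      have h4 : (A ++ t :: s :: B).Nodup := (perm_swap A B s t).nodup_iff.2 h2
      obtain ⟨h5, h6⟩ := idx1 h2
      obtain ⟨h7, h8⟩ := idx1 h4
      refine ⟨Or.inl ?_, ?_, ?_, ?_⟩
      · show _ = List.idxOf t _
        rw [h5, h6]
      · show List.idxOf s _ = List.idxOf t _
        rw [h8, h6]
      · show List.idxOf t _ = List.idxOf s _
        rw [h7, h5]
      · intro x _ hx1 hx2
        exact idx2 hx2 hx1
    · rename_i A B s t hr
      subst h3
      rw [Equiv.swap_comm, map_swap h2]
      have h4 : (A ++ t :: s :: B).Nodup := (perm_swap A B s t).nodup_iff.2 h2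
      obtain ⟨h5, h6⟩ := idx1 h2
      obtain ⟨h7, h8⟩ := idx1 h4
      refine ⟨Or.inr ?_, ?_, ?_, ?_⟩
      · show _ = List.idxOf t _
        rw [h5, h6]
      · show List.idxOf t _ = List.idxOf s _
        rw [h7, h5]
      · show List.idxOf s _ = List.idxOf t _
        rw [h8, h6]
      · intro x _ hx1 hx2
        exact idx2 hx1 hx2

end Pool.Agent.Lib.MP3ff0f8.T
end
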