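import Pool.Agent.Lib.MP_3ff0f8_gt.T.Spec
import Pool.Agent.Lib.MP_3ff0f8_gt.T.STT
import Pool.Agent.Lib.MP_3ff0f8_gt.T.SGM

namespace Pool.Agent.Lib.MP3ff0f8.T.GTWM

open Pool.Agent.Lib.MP3ff0f8.T Finset

variable {V E : Type}

/-! ## nodes -/

/-- all nodes of the embedding -/
def Nod (Γ : Emb V E) (p : P3) : Prop := (∃ v, p = Γ.vx v) ∨ ∃ e, p ∈ Γ.arc e

/-- the projection to the plane -/
noncomputable def pr (a b c : ℝ) (p : P3) : ℝ × ℝ :=
  ((sh a b p).1 + c * (sh a b p).2.1, (sh a b p).2.1)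

theorem gen (hGEN : SpecGEN) [Fintype V] [Fintype E] {vt : Dart E → V} {Γ : Emb V E}
    (h : IsEmb vt Γ) : ∃ a b c : ℝ,
    (∀ p q, Nod Γ p → Nod Γ q → p ≠ q → (pr a b c p).1 ≠ (pr a b c q).1) ∧
    ∀ p q r, Nod Γ p → Nod Γ q → Nod Γ r → p ∉ segment ℝ q r → ∀ t : ℝ, 0 ≤ t → t ≤ 1 →
      ¬ samexy (sh a b p) ((1 - t) • sh a b q + t • sh a b r) := by
  classical
  let N : (V ⊕ (Σ e : E, Fin (Γ.arc e).length)) → P3 :=
    Sum.elim Γ.vx (fun x => (Γ.arc x.1).get x.2)
  have hN : Function.Injective N := by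
    intro x y hxy
    rcases x with v | ⟨e, i⟩ <;> rcases y with w | ⟨f, j⟩
    · exact congrArg Sum.inl (h.vinj hxy)
    · exfalso
      have hxy' : Γ.vx v = (Γ.arc f).get j := hxy
      exact h.vdis v f (hxy' ▸ List.get_mem _ _)
    · exfalso
      have hxy' : (Γ.arc e).get i = Γ.vx w := hxy
      exact h.vdis w e (hxy' ▸ List.get_mem _ _)
    · have hxy' : (Γ.arc e).get i = (Γ.arc f).get j := hxy
      by_cases hef : e = f
      · subst hef
        have := (h.anod e).injective_get hxy'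
        rw [this]
      · exfalso
        exact h.adis e f hef _ (List.get_mem _ i) (hxy' ▸ List.get_mem _ _)
  have hr : ∀ p, Nod Γ p → ∃ i, N i = p := by
    rintro p (⟨v, rfl⟩ | ⟨e, he⟩)
    · exact ⟨Sum.inl v, rfl⟩
    · obtain ⟨i, hi⟩ := List.mem_iff_get.1 he
      exact ⟨Sum.inr ⟨e, i⟩, hi⟩
  obtain ⟨a, b, c, h1, h2⟩ := hGEN N hN
  refine ⟨a, b, c, ?_, ?_⟩
  · intro p q hp hq hpq
    obtain ⟨i, rfl⟩ := hr p hp
    obtain ⟨j, rfl⟩ := hr q hq
    exact h1 i j (fun hij => hpq (by rw [hij]))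
  · intro p q r hp hq hr' hn
    obtain ⟨i, rfl⟩ := hr p hp
    obtain ⟨j, rfl⟩ := hr q hq
    obtain ⟨k, rfl⟩ := hr r hr'
    exact h2 i j k hn

/-- the `i`-th node of the arc of `e` -/
noncomputable def nn (Γ : Emb V E) (vt : Dart E → V) (e : E) (i : ℕ) : P3 := (Γ.nodes vt e).getD i 0

theorem nn_mem (Γ : Emb V E) (vt : Dart E → V) (e : E) (i : ℕ) (hi : i ≤ (Γ.arc e).length + 1) :
    nn Γ vt e i ∈ Γ.nodes vt e := by
  unfold nn
  have : i < (Γ.nodes vt e).length := by unfold Emb.nodes; simp; omega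
  rw [List.getD_eq_getElem _ _ this]
  exact List.getElem_mem _

theorem nn_zero (Γ : Emb V E) (vt : Dart E → V) (e : E) : nn Γ vt e 0 = Γ.vx (vt (e, false)) := rfl

theorem nn_last (Γ : Emb V E) (vt : Dart E → V) (e : E) :
    nn Γ vt e ((Γ.arc e).length + 1) = Γ.vx (vt (e, true)) := by
  unfold nn Emb.nodes
  rw [List.getD_cons_succ, List.getD_append_right _ _ _ _ le_rfl]
  simp

theorem nodes_nod {Γ : Emb V E} {vt : Dart E → V} {e : E} {p : P3} (hp : p ∈ Γ.nodes vt e) :
    Nod Γ p := by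
  unfold Emb.nodes at hp
  simp only [List.mem_cons, List.mem_append, List.not_mem_nil, or_false] at hp
  rcases hp with h | h | h
  · exact Or.inl ⟨_, h⟩
  · exact Or.inr ⟨_, h⟩
  · exact Or.inl ⟨_, h⟩

theorem nodes_disj {Γ : Emb V E} {vt : Dart E → V} (h : IsEmb vt Γ) {e f : E}
    (hef : ∀ b b', vt (e, b) ≠ vt (f, b')) {p : P3} (hp : p ∈ Γ.nodes vt e)
    (hq : p ∈ Γ.nodes vt f) : False := by
  have hne : e ≠ f := by
    rintro rfl
    exact hef false false rfl
  unfold Emb.nodes at hp hq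
  simp only [List.mem_cons, List.mem_append, List.not_mem_nil, or_false] at hp hq
  rcases hp with h1 | h1 | h1 <;> rcases hq with h2 | h2 | h2
  · exact hef _ _ (h.vinj (h1.symm.trans h2))
  · exact h.vdis _ _ (h1 ▸ h2)
  · exact hef _ _ (h.vinj (h1.symm.trans h2))
  · exact h.vdis _ _ (h2 ▸ h1)
  · exact h.adis e f hne _ h1 h2
  · exact h.vdis _ _ (h2 ▸ h1)
  · exact hef _ _ (h.vinj (h1.symm.trans h2))
  · exact h.vdis _ _ (h1 ▸ h2)
  · exact hef _ _ (h.vinj (h1.symm.trans h2))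

theorem sg_eq (Γ : Emb V E) (vt : Dart E → V) (e : E) (i : ℕ) :
    Γ.sg vt e i = (nn Γ vt e i, nn Γ vt e (i + 1)) := rfl

/-- two segments of vertex-disjoint edges have no common point -/
theorem seg_disj {Γ : Emb V E} {vt : Dart E → V} (h : IsEmb vt Γ) {e f : E}
    (hef : ∀ b b', vt (e, b) ≠ vt (f, b')) {i j : ℕ} (hi : i ≤ (Γ.arc e).length)
    (hj : j ≤ (Γ.arc f).length) {p : P3}
    (h1 : p ∈ segment ℝ (nn Γ vt e i) (nn Γ vt e (i + 1)))
    (h2 : p ∈ segment ℝ (nn Γ vt f j) (nn Γ vt f (j + 1))) : False := by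
  have hne : e ≠ f := by
    rintro rfl
    exact hef false false rfl
  have hm := h.meet e f i j hi hj (fun hh => hne (congrArg Prod.fst hh)) p h1 h2
  have a : p ∈ Γ.nodes vt e := by
    rcases hm.1 with hh | hh
    · rw [hh]; exact nn_mem Γ vt e i (by omega)
    · rw [hh]; exact nn_mem Γ vt e (i + 1) (by omega)
  have b : p ∈ Γ.nodes vt f := by
    rcases hm.2 with hh | hh
    · rw [hh]; exact nn_mem Γ vt f j (by omega)
    · rw [hh]; exact nn_mem Γ vt f (j + 1) (by omega)
  exact nodes_disj h hef a b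

/-! ## crossing of two segments -/

/-- the first segment passes over the second one -/
def Ov (a b : ℝ) (p q r s : P3) : Prop :=
  ∃ u v : ℝ, 0 < u ∧ u < 1 ∧ 0 < v ∧ v < 1 ∧
    samexy ((1 - u) • sh a b p + u • sh a b q) ((1 - v) • sh a b r + v • sh a b s) ∧
    ((1 - v) • sh a b r + v • sh a b s).2.2 < ((1 - u) • sh a b p + u • sh a b q).2.2

theorem ov_swap₁ (a b : ℝ) (p q r s : P3) : Ov a b p q r s ↔ Ov a b q p r s := by
  constructor <;>
  · rintro ⟨u, v, u0, u1, v0, v1, h1, h2⟩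
    refine ⟨1 - u, v, by linarith, by linarith, v0, v1, ?_, ?_⟩
    · rw [sub_sub_cancel, add_comm]; exact h1
    · rw [sub_sub_cancel, add_comm ((u : ℝ) • _)]; exact h2

theorem ov_swap₂ (a b : ℝ) (p q r s : P3) : Ov a b p q r s ↔ Ov a b p q s r := by
  constructor <;>
  · rintro ⟨u, v, u0, u1, v0, v1, h1, h2⟩
    refine ⟨u, 1 - v, u0, u1, by linarith, by linarith, ?_, ?_⟩
    · rw [sub_sub_cancel, add_comm ((v : ℝ) • _)]; exact h1
    · rw [sub_sub_cancel, add_comm ((v : ℝ) • _)]; exact h2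

theorem sh_lin (a b u : ℝ) (p q : P3) :
    sh a b ((1 - u) • p + u • q) = (1 - u) • sh a b p + u • sh a b q := by
  unfold sh
  ext
  · simp; ring
  · simp; ring
  · simp

theorem sh_inj (a b : ℝ) (p q : P3) (h : sh a b p = sh a b q) : p = q := by
  unfold sh at h
  have h1 := congrArg Prod.fst h
  have h2 := congrArg (fun x => x.2.1) h
  have h3 := congrArg (fun x => x.2.2) h
  simp only at h1 h2 h3
  rw [h3] at h1 h2
  ext
  · linarith
  · linarith
  · exact h3

theorem samexy_iff (a b c u v : ℝ) (p q r s : P3) :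
    samexy ((1 - u) • sh a b p + u • sh a b q) ((1 - v) • sh a b r + v • sh a b s) ↔
    (1 - u) • pr a b c p + u • pr a b c q = (1 - v) • pr a b c r + v • pr a b c s := by
  unfold samexy pr
  constructor
  · rintro ⟨h1, h2⟩
    simp only [Prod.fst_add, Prod.smul_fst, Prod.snd_add, Prod.smul_snd, smul_eq_mul] at h1 h2
    ext
    · simp only [Prod.fst_add, Prod.smul_fst, smul_eq_mul]
      linear_combination h1 + c * h2
    · simp only [Prod.snd_add, Prod.smul_snd, smul_eq_mul]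
      exact h2
  · intro h
    have h1 := congrArg Prod.fst h
    have h2 := congrArg Prod.snd h
    simp only [Prod.fst_add, Prod.smul_fst, Prod.snd_add, Prod.smul_snd, smul_eq_mul] at h1 h2
    simp only [Prod.fst_add, Prod.smul_fst, Prod.snd_add, Prod.smul_snd, smul_eq_mul]
    exact ⟨by linear_combination h1 - c * h2, h2⟩

theorem mem_seg (p q : P3) (u : ℝ) (u0 : 0 ≤ u) (u1 : u ≤ 1) : (1 - u) • p + u • q ∈ segment ℝ p q :=
  ⟨1 - u, u, by linarith, u0, by ring, rfl⟩

open Classical in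
/-- over plus under is crossing -/
theorem cross (a b c : ℝ) (p q r s : P3)
    (hpq : (pr a b c p).1 ≠ (pr a b c q).1) (hrs : (pr a b c r).1 ≠ (pr a b c s).1)
    (hd : ∀ x, x ∈ segment ℝ p q → x ∈ segment ℝ r s → False)
    (hn : SGMM.Nd (pr a b c p) (pr a b c q) (pr a b c r) (pr a b c s))
    (hpr : (pr a b c p).1 ≠ (pr a b c r).1) (hps : (pr a b c p).1 ≠ (pr a b c s).1)
    (hqr : (pr a b c q).1 ≠ (pr a b c r).1) (hqs : (pr a b c q).1 ≠ (pr a b c s).1) :
    (if Ov a b p q r s then (1 : ZMod 2) else 0) + (if Ov a b r s p q then 1 else 0) =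
      if SGMM.Cr (pr a b c p) (pr a b c q) (pr a b c r) (pr a b c s) then 1 else 0 := by
  have z2 : (1 : ZMod 2) + 1 = 0 := by decide
  -- a crossing point is over or under
  have key : ∀ u v : ℝ, 0 < u → u < 1 → 0 < v → v < 1 →
      samexy ((1 - u) • sh a b p + u • sh a b q) ((1 - v) • sh a b r + v • sh a b s) →
      ((1 - v) • sh a b r + v • sh a b s).2.2 ≠ ((1 - u) • sh a b p + u • sh a b q).2.2 := by
    intro u v u0 u1 v0 v1 hxy hz
    have he : (1 - u) • sh a b p + u • sh a b q = (1 - v) • sh a b r + v • sh a b s := by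
      ext
      · exact hxy.1
      · exact hxy.2
      · exact hz.symm
    rw [← sh_lin, ← sh_lin] at he
    have he' := sh_inj a b _ _ he
    exact hd _ (mem_seg p q u u0.le u1.le) (he' ▸ mem_seg r s v v0.le v1.le)
  by_cases hc : SGMM.Cr (pr a b c p) (pr a b c q) (pr a b c r) (pr a b c s)
  · rw [if_pos hc]
    obtain ⟨u, v, u0, u1, v0, v1, e⟩ := hc
    have hxy := (samexy_iff a b c u v p q r s).2 e
    have hne := key u v u0 u1 v0 v1 hxy
    -- uniqueness of the parameters
    have uniq : ∀ u' v' : ℝ, 0 < u' → u' < 1 → 0 < v' → v' < 1 →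
        (1 - u') • pr a b c p + u' • pr a b c q = (1 - v') • pr a b c r + v' • pr a b c s →
        u' = u ∧ v' = v := by
      intro u' v' u0' u1' v0' v1' e'
      by_contra hcon
      have E1 := congrArg Prod.fst e
      have E2 := congrArg Prod.snd e
      have E1' := congrArg Prod.fst e'
      have E2' := congrArg Prod.snd e'
      simp only [Prod.fst_add, Prod.smul_fst, Prod.snd_add, Prod.smul_snd, smul_eq_mul] at E1 E2 E1' E2'
      set P := pr a b c p
      set Q := pr a b c q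
      set R := pr a b c r
      set S := pr a b c s
      have D1 : (u' - u) * (Q.1 - P.1) = (v' - v) * (S.1 - R.1) := by linear_combination E1' - E1
      have D2 : (u' - u) * (Q.2 - P.2) = (v' - v) * (S.2 - R.2) := by linear_combination E2' - E2
      have hu : u' ≠ u := by
        rintro rfl
        rw [sub_self, zero_mul] at D1
        rcases mul_eq_zero.1 D1.symm with h0 | h0
        · exact hcon ⟨rfl, by linarith⟩
        · exact hrs (by linarith)
      have hu' : u' - u ≠ 0 := sub_ne_zero.2 hu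
      -- Q - P = k (S - R)
      obtain ⟨k, hk⟩ : ∃ k : ℝ, k = (v' - v) / (u' - u) := ⟨_, rfl⟩
      have K1 : Q.1 - P.1 = k * (S.1 - R.1) := by
        rw [hk]; field_simp; linear_combination D1
      have K2 : Q.2 - P.2 = k * (S.2 - R.2) := by
        rw [hk]; field_simp; linear_combination D2
      have hk0 : k ≠ 0 := by
        rintro h0
        rw [h0, zero_mul] at K1
        exact hpq (by linarith)
      -- the parameter on `r s` of `P` is `v - u k`, that of `Q` is `v + (1 - u) k`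
      have PR1 : P.1 = (1 - (v - u * k)) * R.1 + (v - u * k) * S.1 := by
        linear_combination E1 - u * K1
      have PR2 : P.2 = (1 - (v - u * k)) * R.2 + (v - u * k) * S.2 := by
        linear_combination E2 - u * K2
      have QR1 : Q.1 = (1 - (v + (1 - u) * k)) * R.1 + (v + (1 - u) * k) * S.1 := by
        linear_combination E1 + (1 - u) * K1
      have QR2 : Q.2 = (1 - (v + (1 - u) * k)) * R.2 + (v + (1 - u) * k) * S.2 := by
        linear_combination E2 + (1 - u) * K2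
      have nP : ¬ (0 ≤ v - u * k ∧ v - u * k ≤ 1) := by
        rintro ⟨h0, h1⟩
        apply (hn _ h0 h1).2.2.1
        ext
        · simp only [Prod.fst_add, Prod.smul_fst, smul_eq_mul]; exact PR1.symm
        · simp only [Prod.snd_add, Prod.smul_snd, smul_eq_mul]; exact PR2.symm
      have nQ : ¬ (0 ≤ v + (1 - u) * k ∧ v + (1 - u) * k ≤ 1) := by
        rintro ⟨h0, h1⟩
        apply (hn _ h0 h1).2.2.2
        ext
        · simp only [Prod.fst_add, Prod.smul_fst, smul_eq_mul]; exact QR1.symm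
        · simp only [Prod.snd_add, Prod.smul_snd, smul_eq_mul]; exact QR2.symm
      -- the parameter on `p q` of `R` is `u - v / k`, that of `S` is `u + (1 - v) / k`
      have RP1 : R.1 = (1 - (u - v / k)) * P.1 + (u - v / k) * Q.1 := by
        have : k * R.1 = k * ((1 - (u - v / k)) * P.1 + (u - v / k) * Q.1) := by
          have e3 : k * ((1 - (u - v / k)) * P.1 + (u - v / k) * Q.1) =
            k * ((1 - u) * P.1 + u * Q.1) - v * (Q.1 - P.1) := by field_simp; ring
          rw [e3]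
          linear_combination -k * E1 + v * K1
        exact mul_left_cancel₀ hk0 this
      have RP2 : R.2 = (1 - (u - v / k)) * P.2 + (u - v / k) * Q.2 := by
        have : k * R.2 = k * ((1 - (u - v / k)) * P.2 + (u - v / k) * Q.2) := by
          have e3 : k * ((1 - (u - v / k)) * P.2 + (u - v / k) * Q.2) =
            k * ((1 - u) * P.2 + u * Q.2) - v * (Q.2 - P.2) := by field_simp; ring
          rw [e3]
          linear_combination -k * E2 + v * K2
        exact mul_left_cancel₀ hk0 this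
      have nR : ¬ (0 ≤ u - v / k ∧ u - v / k ≤ 1) := by
        rintro ⟨h0, h1⟩
        apply (hn _ h0 h1).1
        ext
        · simp only [Prod.fst_add, Prod.smul_fst, smul_eq_mul]; exact RP1.symm
        · simp only [Prod.snd_add, Prod.smul_snd, smul_eq_mul]; exact RP2.symm
      rcases lt_or_gt_of_ne hk0 with hneg | hpos
      · -- k < 0: P has the parameter v - u k > 0, hence > 1; Q has v + (1 - u) k < 1, hence < 0;
        have c1 : 1 < v - u * k := by
          by_contra hh; exact nP ⟨by nlinarith, by linarith⟩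
        apply nR
        have hkk : v / k < 0 := div_neg_of_pos_of_neg v0 hneg
        have c2 : v + (1 - u) * k < 0 := by
          by_contra hh; exact nQ ⟨by linarith, by nlinarith⟩
        refine ⟨by linarith, ?_⟩
        -- u - v / k ≤ 1 iff v + (1-u) k ≤ 0
        have e4 : u - v / k - 1 = -(v + (1 - u) * k) / k := by field_simp; ring
        have : -(v + (1 - u) * k) / k ≤ 0 := by
          apply div_nonpos_of_nonneg_of_nonpos <;> linarith
        linarith
      · have c1 : v - u * k < 0 := by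
          by_contra hh; exact nP ⟨by linarith, by nlinarith⟩
        apply nR
        have hkk : 0 < v / k := div_pos v0 hpos
        refine ⟨?_, by linarith⟩
        have e4 : u - v / k = -(v - u * k) / k := by field_simp; ring
        rw [e4]
        apply div_nonneg <;> linarith
    have uq : ∀ u' v' : ℝ, 0 < u' → u' < 1 → 0 < v' → v' < 1 →
        samexy ((1 - u') • sh a b p + u' • sh a b q) ((1 - v') • sh a b r + v' • sh a b s) →
        u' = u ∧ v' = v := fun u' v' u0' u1' v0' v1' hh =>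
      uniq u' v' u0' u1' v0' v1' ((samexy_iff a b c u' v' p q r s).1 hh)
    rcases lt_or_gt_of_ne hne with hlt | hgt
    · have o1 : Ov a b p q r s := ⟨u, v, u0, u1, v0, v1, hxy, hlt⟩
      have o2 : ¬ Ov a b r s p q := by
        rintro ⟨v', u', v0', v1', u0', u1', hxy', hz⟩
        obtain ⟨rfl, rfl⟩ := uq u' v' u0' u1' v0' v1' ⟨hxy'.1.symm, hxy'.2.symm⟩
        exact absurd hz (not_lt.2 hlt.le)
      rw [if_pos o1, if_neg o2, add_zero]
    · have o1 : Ov a b r s p q := ⟨v, u, v0, v1, u0, u1, ⟨hxy.1.symm, hxy.2.symm⟩, hgt⟩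
      have o2 : ¬ Ov a b p q r s := by
        rintro ⟨u', v', u0', u1', v0', v1', hxy', hz⟩
        obtain ⟨rfl, rfl⟩ := uq u' v' u0' u1' v0' v1' hxy'
        exact absurd hz (not_lt.2 hgt.le)
      rw [if_neg o2, if_pos o1, zero_add]
  · rw [if_neg hc]
    have o1 : ¬ Ov a b p q r s := by
      rintro ⟨u, v, u0, u1, v0, v1, hxy, _⟩
      exact hc ⟨u, v, u0, u1, v0, v1, (samexy_iff a b c u v p q r s).1 hxy⟩
    have o2 : ¬ Ov a b r s p q := by
      rintro ⟨v, u, v0, v1, u0, u1, hxy, _⟩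
      exact hc ⟨u, v, u0, u1, v0, v1, (samexy_iff a b c u v p q r s).1 ⟨hxy.1.symm, hxy.2.symm⟩⟩
    rw [if_neg o1, if_neg o2, add_zero]

/-! ## sums -/

theorem tele (F : ℕ → ZMod 2) (n : ℕ) : ∑ i ∈ range n, (F i + F (i + 1)) = F 0 + F n := by
  induction n with
  | zero => simp [CharTwo.add_self_eq_zero]
  | succ n ih =>
    rw [Finset.sum_range_succ, ih]
    have : F n + F n = 0 := CharTwo.add_self_eq_zero _
    linear_combination this

open Classical in
/-- over, as an element of `ZMod 2` -/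
noncomputable def hov (a b : ℝ) (p q r s : P3) : ZMod 2 := if Ov a b p q r s then 1 else 0

/-- the number of the crossings of `e` over `f` -/
noncomputable def lam (Γ : Emb V E) (vt : Dart E → V) (a b : ℝ) (e f : E) : ZMod 2 :=
  ∑ i ∈ range ((Γ.arc e).length + 1), ∑ j ∈ range ((Γ.arc f).length + 1),
    hov a b (nn Γ vt e i) (nn Γ vt e (i + 1)) (nn Γ vt f j) (nn Γ vt f (j + 1))

open Classical in
/-- the number of the segments of `e` below `p` -/
noncomputable def ro (Γ : Emb V E) (vt : Dart E → V) (a b c : ℝ) (p : P3) (e : E) : ZMod 2 :=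
  ∑ i ∈ range ((Γ.arc e).length + 1),
    if above (pr a b c p) (pr a b c (nn Γ vt e i)) (pr a b c (nn Γ vt e (i + 1))) then 1 else 0

open Classical in
theorem lam_symm (hSGM : SpecSGM) {Γ : Emb V E} {vt : Dart E → V} (h : IsEmb vt Γ) {a b c : ℝ}
    (h1 : ∀ p q, Nod Γ p → Nod Γ q → p ≠ q → (pr a b c p).1 ≠ (pr a b c q).1)
    (h2 : ∀ p q r, Nod Γ p → Nod Γ q → Nod Γ r → p ∉ segment ℝ q r → ∀ t : ℝ, 0 ≤ t → t ≤ 1 →
      ¬ samexy (sh a b p) ((1 - t) • sh a b q + t • sh a b r))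
    {e f : E} (hef : ∀ b b', vt (e, b) ≠ vt (f, b')) :
    lam Γ vt a b e f + lam Γ vt a b f e =
      ro Γ vt a b c (Γ.vx (vt (f, false))) e + ro Γ vt a b c (Γ.vx (vt (f, true))) e +
      (ro Γ vt a b c (Γ.vx (vt (e, false))) f + ro Γ vt a b c (Γ.vx (vt (e, true))) f) +
      ∑ b₁ : Bool, ∑ b₂ : Bool, if (pr a b c (Γ.vx (vt (e, b₁)))).1 <
        (pr a b c (Γ.vx (vt (f, b₂)))).1 then 1 else 0 := by
  set A : ℕ → ℕ → ZMod 2 := fun i j => if above (pr a b c (nn Γ vt f j)) (pr a b c (nn Γ vt e i))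
    (pr a b c (nn Γ vt e (i + 1))) then 1 else 0 with hA
  set B : ℕ → ℕ → ZMod 2 := fun j i => if above (pr a b c (nn Γ vt e i)) (pr a b c (nn Γ vt f j))
    (pr a b c (nn Γ vt f (j + 1))) then 1 else 0 with hB
  set T : ℕ → ℕ → ZMod 2 := fun i j => if (pr a b c (nn Γ vt e i)).1 < (pr a b c (nn Γ vt f j)).1
    then 1 else 0 with hT
  have pt : ∀ i ∈ range ((Γ.arc e).length + 1), ∀ j ∈ range ((Γ.arc f).length + 1),
      hov a b (nn Γ vt e i) (nn Γ vt e (i + 1)) (nn Γ vt f j) (nn Γ vt f (j + 1)) +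
      hov a b (nn Γ vt f j) (nn Γ vt f (j + 1)) (nn Γ vt e i) (nn Γ vt e (i + 1)) =
      (A i j + A i (j + 1)) + (B j i + B j (i + 1)) +
        ((T i j + T i (j + 1)) + (T (i + 1) j + T (i + 1) (j + 1))) := by
    intro i hi j hj
    have hi' : i ≤ (Γ.arc e).length := by have := Finset.mem_range.1 hi; omega
    have hj' : j ≤ (Γ.arc f).length := by have := Finset.mem_range.1 hj; omega
    have mp := nn_mem Γ vt e i (by omega)
    have mq := nn_mem Γ vt e (i + 1) (by omega)
    have mr := nn_mem Γ vt f j (by omega)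
    have ms := nn_mem Γ vt f (j + 1) (by omega)
    have np := nodes_nod mp
    have nq := nodes_nod mq
    have nr := nodes_nod mr
    have ns := nodes_nod ms
    have dne : ∀ x y, x ∈ Γ.nodes vt e → y ∈ Γ.nodes vt f → x ≠ y := by
      rintro x y hx hy rfl
      exact nodes_disj h hef hx hy
    have hpq := h1 _ _ np nq (h.ndeg e i hi')
    have hrs := h1 _ _ nr ns (h.ndeg f j hj')
    have hpr := h1 _ _ np nr (dne _ _ mp mr)
    have hps := h1 _ _ np ns (dne _ _ mp ms)
    have hqr := h1 _ _ nq nr (dne _ _ mq mr)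
    have hqs := h1 _ _ nq ns (dne _ _ mq ms)
    have hd : ∀ x, x ∈ segment ℝ (nn Γ vt e i) (nn Γ vt e (i + 1)) →
        x ∈ segment ℝ (nn Γ vt f j) (nn Γ vt f (j + 1)) → False :=
      fun x hx hy => seg_disj h hef hi' hj' hx hy
    have tonode : ∀ (x y z : P3) (t : ℝ), ¬ samexy (sh a b x) ((1 - t) • sh a b y + t • sh a b z) →
        (1 - t) • pr a b c y + t • pr a b c z ≠ pr a b c x := by
      intro x y z t hns he
      apply hns
      have := (samexy_iff a b c 0 t x x y z).2 (by rw [he]; simp)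
      simpa using this
    have hn : SGMM.Nd (pr a b c (nn Γ vt e i)) (pr a b c (nn Γ vt e (i + 1)))
        (pr a b c (nn Γ vt f j)) (pr a b c (nn Γ vt f (j + 1))) := by
      intro t t0 t1
      refine ⟨tonode _ _ _ t (h2 _ _ _ nr np nq ?_ t t0 t1),
        tonode _ _ _ t (h2 _ _ _ ns np nq ?_ t t0 t1),
        tonode _ _ _ t (h2 _ _ _ np nr ns ?_ t t0 t1),
        tonode _ _ _ t (h2 _ _ _ nq nr ns ?_ t t0 t1)⟩
      · intro hh; exact hd _ hh (left_mem_segment ℝ _ _)
      · intro hh; exact hd _ hh (right_mem_segment ℝ _ _)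
      · intro hh; exact hd _ (left_mem_segment ℝ _ _) hh
      · intro hh; exact hd _ (right_mem_segment ℝ _ _) hh
    have hcross := cross a b c _ _ _ _ hpq hrs hd hn hpr hps hqr hqs
    have hsg := hSGM _ _ _ _ hpq hpr hps hqr hqs hrs hn
    unfold hov
    rw [hcross]
    refine Eq.trans ?_ (hsg.trans ?_)
    · rfl
    · simp only [hA, hB, hT]
      ring
  have e1 : lam Γ vt a b e f + lam Γ vt a b f e =
      ∑ i ∈ range ((Γ.arc e).length + 1), ∑ j ∈ range ((Γ.arc f).length + 1),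
      ((A i j + A i (j + 1)) + (B j i + B j (i + 1)) +
        ((T i j + T i (j + 1)) + (T (i + 1) j + T (i + 1) (j + 1)))) := by
    unfold lam
    rw [Finset.sum_comm (s := range ((Γ.arc f).length + 1)), ← Finset.sum_add_distrib]
    apply Finset.sum_congr rfl
    intro i hi
    rw [← Finset.sum_add_distrib]
    apply Finset.sum_congr rfl
    intro j hj
    exact pt i hi j hj
  rw [e1]
  simp only [Finset.sum_add_distrib]
  have f1 : ∑ i ∈ range ((Γ.arc e).length + 1), ∑ j ∈ range ((Γ.arc f).length + 1), A i j +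
      ∑ i ∈ range ((Γ.arc e).length + 1), ∑ j ∈ range ((Γ.arc f).length + 1), A i (j + 1) =
      ro Γ vt a b c (Γ.vx (vt (f, false))) e + ro Γ vt a b c (Γ.vx (vt (f, true))) e := by
    rw [← Finset.sum_add_distrib]
    have : ∀ i ∈ range ((Γ.arc e).length + 1), (∑ j ∈ range ((Γ.arc f).length + 1), A i j +
        ∑ j ∈ range ((Γ.arc f).length + 1), A i (j + 1)) = A i 0 + A i ((Γ.arc f).length + 1) := by
      intro i _
      rw [← Finset.sum_add_distrib, tele]
    rw [Finset.sum_congr rfl this, Finset.sum_add_distrib]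
    simp only [hA, nn_zero, nn_last]
    rfl
  have f2 : ∑ i ∈ range ((Γ.arc e).length + 1), ∑ j ∈ range ((Γ.arc f).length + 1), B j i +
      ∑ i ∈ range ((Γ.arc e).length + 1), ∑ j ∈ range ((Γ.arc f).length + 1), B j (i + 1) =
      ro Γ vt a b c (Γ.vx (vt (e, false))) f + ro Γ vt a b c (Γ.vx (vt (e, true))) f := by
    rw [Finset.sum_comm, Finset.sum_comm (s := range ((Γ.arc e).length + 1)), ← Finset.sum_add_distrib]
    have : ∀ j ∈ range ((Γ.arc f).length + 1), (∑ i ∈ range ((Γ.arc e).length + 1), B j i +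
        ∑ i ∈ range ((Γ.arc e).length + 1), B j (i + 1)) = B j 0 + B j ((Γ.arc e).length + 1) := by
      intro i _
      rw [← Finset.sum_add_distrib, tele]
    rw [Finset.sum_congr rfl this, Finset.sum_add_distrib]
    simp only [hB, nn_zero, nn_last]
    rfl
  have f3 : (∑ i ∈ range ((Γ.arc e).length + 1), ∑ j ∈ range ((Γ.arc f).length + 1), T i j +
      ∑ i ∈ range ((Γ.arc e).length + 1), ∑ j ∈ range ((Γ.arc f).length + 1), T i (j + 1)) +
      (∑ i ∈ range ((Γ.arc e).length + 1), ∑ j ∈ range ((Γ.arc f).length + 1), T (i + 1) j +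
      ∑ i ∈ range ((Γ.arc e).length + 1), ∑ j ∈ range ((Γ.arc f).length + 1), T (i + 1) (j + 1)) =
      ∑ b₁ : Bool, ∑ b₂ : Bool, if (pr a b c (Γ.vx (vt (e, b₁)))).1 <
        (pr a b c (Γ.vx (vt (f, b₂)))).1 then 1 else 0 := by
    have g : ∀ i, (∑ j ∈ range ((Γ.arc f).length + 1), T i j +
        ∑ j ∈ range ((Γ.arc f).length + 1), T i (j + 1)) = T i 0 + T i ((Γ.arc f).length + 1) := by
      intro i
      rw [← Finset.sum_add_distrib, tele]
    rw [← Finset.sum_add_distrib, ← Finset.sum_add_distrib, ← Finset.sum_add_distrib]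
    have g2 : ∀ i ∈ range ((Γ.arc e).length + 1), (∑ j ∈ range ((Γ.arc f).length + 1), T i j +
        ∑ j ∈ range ((Γ.arc f).length + 1), T i (j + 1) +
        (∑ j ∈ range ((Γ.arc f).length + 1), T (i + 1) j +
        ∑ j ∈ range ((Γ.arc f).length + 1), T (i + 1) (j + 1))) =
        (T i 0 + T i ((Γ.arc f).length + 1)) + (T (i + 1) 0 + T (i + 1) ((Γ.arc f).length + 1)) := by
      intro i _
      rw [g i, g (i + 1)]
    rw [Finset.sum_congr rfl g2, tele (fun i => T i 0 + T i ((Γ.arc f).length + 1))]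
    simp only [hT, nn_zero, nn_last, Fintype.sum_bool]
    ring
  rw [← f1, ← f2, ← f3]

/-! ## polygons -/

theorem sh_zero (a b : ℝ) : sh a b 0 = 0 := by
  unfold sh; ext <;> simp

theorem nd_map (a b : ℝ) (P : List P3) (i : ℕ) : nd (P.map (sh a b)) i = sh a b (nd P i) := by
  unfold nd
  rw [List.length_map]
  conv_lhs => rw [← sh_zero a b]
  rw [List.getD_map]

theorem pt_map (a b : ℝ) (P : List P3) (i : ℕ) (t : ℝ) :
    pt (P.map (sh a b)) i t = (1 - t) • sh a b (nd P i) + t • sh a b (nd P (i + 1)) := by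
  unfold pt
  rw [nd_map, nd_map]

theorem ov_map (a b : ℝ) (P Q : List P3) (i j : ℕ) :
    (∃ s t, ov (P.map (sh a b)) (Q.map (sh a b)) i j s t) ↔
      Ov a b (nd P i) (nd P (i + 1)) (nd Q j) (nd Q (j + 1)) := by
  unfold ov Ov
  simp only [pt_map]

open Classical in
theorem lkn_eq (a b : ℝ) (P Q : List P3) :
    (lkn (P.map (sh a b)) (Q.map (sh a b)) : ZMod 2) = ∑ i ∈ range P.length, ∑ j ∈ range Q.length,
      hov a b (nd P i) (nd P (i + 1)) (nd Q j) (nd Q (j + 1)) := by
  unfold lkn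
  rw [List.length_map, List.length_map, Finset.card_filter, Nat.cast_sum, Finset.sum_product]
  apply Finset.sum_congr rfl
  intro i _
  apply Finset.sum_congr rfl
  intro j _
  unfold hov
  rw [if_congr (ov_map a b P Q i j) rfl rfl]
  split <;> simp

open Classical in
theorem hov_swap₁ (a b : ℝ) (p q r s : P3) : hov a b p q r s = hov a b q p r s := by
  unfold hov
  rw [if_congr (ov_swap₁ a b p q r s) rfl rfl]

open Classical in
theorem hov_swap₂ (a b : ℝ) (p q r s : P3) : hov a b p q r s = hov a b p q s r := by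
  unfold hov
  rw [if_congr (ov_swap₂ a b p q r s) rfl rfl]

theorem lkn_lam {G : Gr V E} {Γ : Emb V E} (a b : ℝ) {c c' : List (Dart E)} (hc : IsCyc G c)
    (hc' : IsCyc G c') :
    (lkn ((Γ.poly G.vt c).map (sh a b)) ((Γ.poly G.vt c').map (sh a b)) : ZMod 2) =
      (c.map fun d => (c'.map fun d' => lam Γ G.vt a b d.1 d'.1).sum).sum := by
  rw [lkn_eq]
  have e1 := PSGM.psg G Γ c (fun p q => ∑ j ∈ range (Γ.poly G.vt c').length,
    hov a b p q (nd (Γ.poly G.vt c') j) (nd (Γ.poly G.vt c') (j + 1)))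
    (fun p q => Finset.sum_congr rfl fun j _ => hov_swap₁ a b p q _ _) hc
  rw [e1]
  congr 1
  apply List.map_congr_left
  intro d _
  have e2 : ∀ i ∈ range ((Γ.arc d.1).length + 1), ∑ j ∈ range (Γ.poly G.vt c').length,
      hov a b (Γ.sg G.vt d.1 i).1 (Γ.sg G.vt d.1 i).2 (nd (Γ.poly G.vt c') j)
        (nd (Γ.poly G.vt c') (j + 1)) =
      (c'.map fun d' => ∑ j ∈ range ((Γ.arc d'.1).length + 1),
        hov a b (Γ.sg G.vt d.1 i).1 (Γ.sg G.vt d.1 i).2 (Γ.sg G.vt d'.1 j).1
          (Γ.sg G.vt d'.1 j).2).sum := by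
    intro i _
    exact PSGM.psg G Γ c' (fun r s => hov a b (Γ.sg G.vt d.1 i).1 (Γ.sg G.vt d.1 i).2 r s)
      (fun r s => hov_swap₂ a b _ _ r s) hc'
  rw [Finset.sum_congr rfl e2]
  have e3 : ∀ (l : List (Dart E)) (s : Finset ℕ) (F : ℕ → Dart E → ZMod 2),
      ∑ i ∈ s, (l.map (F i)).sum = (l.map fun d' => ∑ i ∈ s, F i d').sum := by
    intro l s F
    induction l with
    | nil => simp
    | cons x l ih => simp [Finset.sum_add_distrib, ih]
  rw [e3]
  rfl

/-- the segments of the polygon of a cycle -/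
theorem poly_seg {G : Gr V E} {Γ : Emb V E} {c : List (Dart E)} (hc : IsCyc G c) {i : ℕ}
    (hi : i < (Γ.poly G.vt c).length) : ∃ d ∈ c, ∃ k ≤ (Γ.arc d.1).length,
      (nd (Γ.poly G.vt c) i = nn Γ G.vt d.1 k ∧ nd (Γ.poly G.vt c) (i + 1) = nn Γ G.vt d.1 (k + 1)) ∨
      (nd (Γ.poly G.vt c) i = nn Γ G.vt d.1 (k + 1) ∧ nd (Γ.poly G.vt c) (i + 1) = nn Γ G.vt d.1 k) := by
  classical
  by_contra hcon
  push_neg at hcon
  set P := nd (Γ.poly G.vt c) i with hP
  set Q := nd (Γ.poly G.vt c) (i + 1) with hQ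
  have e := PSGM.psg (M := ℕ) G Γ c (fun p q => if (p = P ∧ q = Q) ∨ (p = Q ∧ q = P) then 1 else 0)
    (fun p q => by
      apply if_congr _ rfl rfl
      constructor
      · rintro (⟨h1, h2⟩ | ⟨h1, h2⟩)
        · exact Or.inr ⟨h2, h1⟩
        · exact Or.inl ⟨h2, h1⟩
      · rintro (⟨h1, h2⟩ | ⟨h1, h2⟩)
        · exact Or.inr ⟨h2, h1⟩
        · exact Or.inl ⟨h2, h1⟩) hc
  have e1 : 1 ≤ ∑ i ∈ range (Γ.poly G.vt c).length,
      (if (nd (Γ.poly G.vt c) i = P ∧ nd (Γ.poly G.vt c) (i + 1) = Q) ∨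
        (nd (Γ.poly G.vt c) i = Q ∧ nd (Γ.poly G.vt c) (i + 1) = P) then 1 else 0) := by
    refine le_trans ?_ (Finset.single_le_sum (fun _ _ => Nat.zero_le _) (Finset.mem_range.2 hi))
    rw [if_pos (Or.inl ⟨rfl, rfl⟩)]
  rw [e] at e1
  have e2 : (c.map fun d => ∑ i ∈ range ((Γ.arc d.1).length + 1),
      (if ((Γ.sg G.vt d.1 i).1 = P ∧ (Γ.sg G.vt d.1 i).2 = Q) ∨
        ((Γ.sg G.vt d.1 i).1 = Q ∧ (Γ.sg G.vt d.1 i).2 = P) then 1 else 0)).sum = 0 := by
    apply List.sum_eq_zero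
    intro x hx
    obtain ⟨d, hd, rfl⟩ := List.mem_map.1 hx
    apply Finset.sum_eq_zero
    intro k hk
    have hk' : k ≤ (Γ.arc d.1).length := by have := Finset.mem_range.1 hk; omega
    have := hcon d hd k hk'
    rw [if_neg]
    rintro (⟨h1, h2⟩ | ⟨h1, h2⟩)
    · exact this.1 h1.symm h2.symm
    · exact this.2 h2.symm h1.symm
  omega

theorem regl {G : Gr V E} {Γ : Emb V E} (h : IsEmb G.vt Γ) {a b : ℝ}
    (h2 : ∀ p q r, Nod Γ p → Nod Γ q → Nod Γ r → p ∉ segment ℝ q r → ∀ t : ℝ, 0 ≤ t → t ≤ 1 →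
      ¬ samexy (sh a b p) ((1 - t) • sh a b q + t • sh a b r))
    {c c' : List (Dart E)} (hc : IsCyc G c) (hc' : IsCyc G c') (hd : Dj G c c')
    (hv : ∀ d ∈ c, ∀ b, ∃ x ∈ c, G.vt (d.1, b) = G.vt x)
    (hv' : ∀ d ∈ c', ∀ b, ∃ x ∈ c', G.vt (d.1, b) = G.vt x) {i j : ℕ}
    (hi : i < (Γ.poly G.vt c).length) (hj : j < (Γ.poly G.vt c').length) (t : ℝ) (t0 : 0 ≤ t)
    (t1 : t ≤ 1) :
    ¬ samexy (nd ((Γ.poly G.vt c).map (sh a b)) i) (pt ((Γ.poly G.vt c').map (sh a b)) j t) := by
  rw [nd_map, pt_map]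
  obtain ⟨d, hdc, k, hk, hseg⟩ := poly_seg (Γ := Γ) hc hi
  obtain ⟨d', hdc', k', hk', hseg'⟩ := poly_seg (Γ := Γ) hc' hj
  have hef : ∀ b b', G.vt (d.1, b) ≠ G.vt (d'.1, b') := by
    intro b b' he
    obtain ⟨x, hx, hx'⟩ := hv d hdc b
    obtain ⟨y, hy, hy'⟩ := hv' d' hdc' b'
    exact hd x hx y hy (by rw [← hx', he, hy'])
  obtain ⟨m, hm, hmP⟩ : ∃ m, (m = k ∨ m = k + 1) ∧ nd (Γ.poly G.vt c) i = nn Γ G.vt d.1 m := by
    rcases hseg with hh | hh
    · exact ⟨k, Or.inl rfl, hh.1⟩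
    · exact ⟨k + 1, Or.inr rfl, hh.1⟩
  have memP : nn Γ G.vt d.1 m ∈ segment ℝ (nn Γ G.vt d.1 k) (nn Γ G.vt d.1 (k + 1)) := by
    rcases hm with rfl | rfl
    · exact left_mem_segment ℝ _ _
    · exact right_mem_segment ℝ _ _
  have n1 : Nod Γ (nn Γ G.vt d.1 m) := nodes_nod (nn_mem Γ G.vt d.1 m (by omega))
  have n2 : Nod Γ (nn Γ G.vt d'.1 k') := nodes_nod (nn_mem Γ G.vt d'.1 k' (by omega))
  have n3 : Nod Γ (nn Γ G.vt d'.1 (k' + 1)) := nodes_nod (nn_mem Γ G.vt d'.1 (k' + 1) (by omega))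
  rw [hmP]
  rcases hseg' with hh | hh
  · rw [hh.1, hh.2]
    exact h2 _ _ _ n1 n2 n3 (fun hx => seg_disj h hef hk hk' memP hx) t t0 t1
  · rw [hh.1, hh.2]
    exact h2 _ _ _ n1 n3 n2 (fun hx => seg_disj h hef hk hk' memP (by
      rw [segment_symm]; exact hx)) t t0 t1

/-- the vertices of the edges of a cycle are starts of darts of the cycle -/
theorem cyc_vt {G : Gr V E} {c : List (Dart E)} (hc : IsCyc G c) :
    ∀ d ∈ c, ∀ b, ∃ x ∈ c, G.vt (d.1, b) = G.vt x := by
  have h1 : ∀ d ∈ c, ∃ x ∈ c, G.vt (rv d) = G.vt x := by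
    intro d hd
    have : G.vt (rv d) ∈ c.map (fun d => G.vt (rv d)) := List.mem_map_of_mem hd
    rw [hc.cl, List.mem_rotate, List.mem_map] at this
    obtain ⟨x, hx, hx'⟩ := this
    exact ⟨x, hx, hx'.symm⟩
  intro d hd b
  obtain ⟨e, β⟩ := d
  by_cases hb : b = β
  · subst hb
    exact ⟨_, hd, rfl⟩
  · obtain ⟨x, hx, hx'⟩ := h1 _ hd
    refine ⟨x, hx, ?_⟩
    rw [← hx']
    have : b = !β := by cases b <;> cases β <;> simp_all
    subst this
    rfl

theorem two_sum {G : Gr V E} {c : List (Dart E)} (hc : IsCyc G c) (F : V → ZMod 2) :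
    (c.map fun d => F (G.vt (d.1, false)) + F (G.vt (d.1, true))).sum = 0 := by
  have e : ∀ d : Dart E, F (G.vt (d.1, false)) + F (G.vt (d.1, true)) =
      F (G.vt d) + F (G.vt (rv d)) := by
    rintro ⟨e, b⟩
    cases b
    · rfl
    · exact add_comm _ _
  have e2 : (c.map fun d => F (G.vt (rv d))).sum = (c.map fun d => F (G.vt d)).sum := by
    have h1 : (c.map fun d => F (G.vt (rv d))) = (c.map fun d => G.vt (rv d)).map F := by
      rw [List.map_map]; rfl
    have h2 : (c.map fun d => F (G.vt d)) = (c.map G.vt).map F := by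
      rw [List.map_map]; rfl
    rw [h1, h2, hc.cl]
    exact (((c.map G.vt).rotate_perm 1).map F).sum_eq
  simp only [e]
  rw [List.sum_map_add, e2]
  exact CharTwo.add_self_eq_zero _

end Pool.Agent.Lib.MP3ff0f8.T.GTWM

namespace Pool.Agent.Lib.MP3ff0f8.T

open GTWM Finset in
theorem specGTW (hLKD : SpecLKD) (hGEN : SpecGEN) (hSGM : SpecSGM) : SpecGTW := by
  classical
  intro V E _ _ _ _ vt Γ h hno
  obtain ⟨a, b, c, h1, h2⟩ := gen hGEN h
  let l : E → E → ZMod 2 := fun e f => lam Γ vt a b e f +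
    (ro Γ vt a b c (Γ.vx (vt (f, false))) e + ro Γ vt a b c (Γ.vx (vt (f, true))) e)
  obtain ⟨bot, W, top, hdia, hlk⟩ := hLKD (fg vt) (fun v => (pr a b c (Γ.vx v)).1) l
    (by
      intro d d' _ _ hx
      by_contra hne
      exact h1 _ _ (Or.inl ⟨_, rfl⟩) (Or.inl ⟨_, rfl⟩) (fun hh => hne (h.vinj hh)) hx)
    (by
      intro e _ f _ hef
      have := lam_symm hSGM h h1 h2 (e := e) (f := f) hef
      show lam Γ vt a b e f + (ro Γ vt a b c (Γ.vx (vt (f, false))) e +
        ro Γ vt a b c (Γ.vx (vt (f, true))) e) + (lam Γ vt a b f e +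
        (ro Γ vt a b c (Γ.vx (vt (e, false))) f + ro Γ vt a b c (Γ.vx (vt (e, true))) f)) =
        ∑ b₁ : Bool, ∑ b₂ : Bool, if (pr a b c (Γ.vx (vt (e, b₁)))).1 <
        (pr a b c (Γ.vx (vt (f, b₂)))).1 then 1 else 0
      have z1 := CharTwo.add_self_eq_zero (ro Γ vt a b c (Γ.vx (vt (f, false))) e +
        ro Γ vt a b c (Γ.vx (vt (f, true))) e)
      have z2 := CharTwo.add_self_eq_zero (ro Γ vt a b c (Γ.vx (vt (e, false))) f +
        ro Γ vt a b c (Γ.vx (vt (e, true))) f)
      linear_combination this + z1 + z2)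
  refine ⟨bot, W, top, hdia, ?_⟩
  intro M hM C hC
  -- the linking numbers
  have key : ∀ p q, IsCyc (fg vt) p → IsCyc (fg vt) q → Dj (fg vt) p q → lk W p q ≠ 0 →
      lkodd (Γ.poly vt p) (Γ.poly vt q) := by
    intro p q hp hq hpq hne
    refine ⟨a, b, ⟨?_, ?_⟩, ?_⟩
    · intro i j hi hj t t0 t1
      rw [List.length_map] at hi hj
      exact regl (G := fg vt) h h2 hp hq hpq (cyc_vt hp) (cyc_vt hq) hi hj t t0 t1
    · intro i j hi hj t t0 t1
      rw [List.length_map] at hi hj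
      exact regl (G := fg vt) h h2 hq hp (fun x hx y hy he => hpq y hy x hx he.symm)
        (cyc_vt hq) (cyc_vt hp) hj hi t t0 t1
    · have e1 : (lkn ((Γ.poly vt p).map (sh a b)) ((Γ.poly vt q).map (sh a b)) : ZMod 2) =
          lk W p q := by
        refine (lkn_lam (G := fg vt) (Γ := Γ) a b hp hq).trans ?_
        rw [hlk p q hp hq hpq]
        have e2 : ∀ d : Dart E, (q.map fun d' => l d.1 d'.1).sum =
            (q.map fun d' => lam Γ vt a b d.1 d'.1).sum := by
          intro d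
          show (q.map fun d' => lam Γ vt a b d.1 d'.1 +
            (ro Γ vt a b c (Γ.vx (vt (d'.1, false))) d.1 +
              ro Γ vt a b c (Γ.vx (vt (d'.1, true))) d.1)).sum = _
          rw [List.sum_map_add]
          have := two_sum (G := fg vt) hq (fun v => ro Γ vt a b c (Γ.vx v) d.1)
          have this' : (q.map fun d' => (ro Γ vt a b c (Γ.vx (vt (d'.1, false))) d.1 +
              ro Γ vt a b c (Γ.vx (vt (d'.1, true))) d.1)).sum = 0 := this
          rw [this', add_zero]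
        simp only [e2]
        rfl
      rw [← ZMod.natCast_ne_zero_iff_odd, e1]
      exact hne
  have vtC : ∀ i, ∀ d ∈ C i, vt d ∈ M.B i ∨ vt d ∈ M.B (i + 1) := by
    intro i d hd
    rcases (hC i).mem d hd with hh | hh | hh | hh
    · exact Or.inl (hM.ends i d hh)
    · exact Or.inr (hM.ends (i + 1) d hh)
    · have a1 := hM.bS i false
      have a2 := hM.bE i false
      have : d = M.bd i false ∨ d = rv (M.bd i false) := by
        obtain ⟨e, β⟩ := d
        rcases hx : M.bd i false with ⟨e', β'⟩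
        rw [hx] at hh
        have hh' : e = e' := hh
        subst hh'
        cases β <;> cases β' <;> simp [rv]
      rcases this with rfl | rfl
      · exact Or.inl a1
      · exact Or.inr a2
    · have a1 := hM.bS i true
      have a2 := hM.bE i true
      have : d = M.bd i true ∨ d = rv (M.bd i true) := by
        obtain ⟨e, β⟩ := d
        rcases hx : M.bd i true with ⟨e', β'⟩
        rw [hx] at hh
        have hh' : e = e' := hh
        subst hh'
        cases β <;> cases β' <;> simp [rv]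
      rcases this with rfl | rfl
      · exact Or.inl a1
      · exact Or.inr a2
  have dj : ∀ i j : Fin 4, i ≠ j → i ≠ j + 1 → i + 1 ≠ j → i + 1 ≠ j + 1 →
      Dj (fg vt) (C i) (C j) := by
    intro i j n1 n2 n3 n4 d hd d' hd' he
    have he' : vt d = vt d' := he
    rcases vtC i d hd with p1 | p1 <;> rcases vtC j d' hd' with p2 | p2
    · exact Finset.disjoint_left.1 (hM.disj _ _ n1) p1 (he' ▸ p2)
    · exact Finset.disjoint_left.1 (hM.disj _ _ n2) p1 (he' ▸ p2)
    · exact Finset.disjoint_left.1 (hM.disj _ _ n3) p1 (he' ▸ p2)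
    · exact Finset.disjoint_left.1 (hM.disj _ _ n4) p1 (he' ▸ p2)
  by_contra hcon
  have hx : lk W (C 0) (C 2) ≠ 0 := fun hh => hcon (by rw [hh, zero_mul])
  have hy : lk W (C 3) (C 1) ≠ 0 := fun hh => hcon (by rw [hh, mul_zero])
  exact hno ⟨M, hM, C, hC,
    key _ _ (hC 0).cyc (hC 2).cyc (dj 0 2 (by decide) (by decide) (by decide) (by decide)) hx,
    key _ _ (hC 3).cyc (hC 1).cyc (dj 3 1 (by decide) (by decide) (by decide) (by decide)) hy⟩

end Pool.Agent.Lib.MP3ff0f8.T
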