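import Pool.Agent.Lib.MP_3ff0f8_gt.T.Spec

/-!
# MP_3ff0f8_gt, topological half: HAL
-/

namespace Pool.Agent.Lib.MP3ff0f8.T

namespace HALM

def bit (b : Bool) : ZMod 2 := if b then 1 else 0

def g1 (p r : Bool) : ZMod 2 := bit (p && !r)

def NN (L : List Bool) : ZMod 2 := ps g1 L

theorem two : (2 : ZMod 2) = 0 := by decide

theorem cr_cons {α : Type} (g : α → α → ZMod 2) (A B : List α) (s : α) :
    cr g A (s :: B) = (A.map fun z => g z s).sum + cr g A B := by
  unfold cr
  simp [List.sum_map_add]

theorem NN_swap (hP : SpecPSU) (A B : List Bool) (s t : Bool) :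
    NN (A ++ s :: t :: B) + NN (A ++ t :: s :: B) = bit s + bit t := by
  unfold NN
  rw [hP.app, hP.app, cr_cons, cr_cons, cr_cons, cr_cons]
  simp only [ps, List.map_cons, List.sum_cons]
  have h : g1 s t + g1 t s = bit s + bit t := by revert s t; decide
  linear_combination (ps g1 A + (B.map (g1 s)).sum + (B.map (g1 t)).sum + ps g1 B +
    (A.map fun z => g1 z s).sum + (A.map fun z => g1 z t).sum + cr g1 A B) * two + h

theorem NN_ins (hP : SpecPSU) (A B : List Bool) (b : Bool) :
    NN (A ++ b :: b :: B) = NN (A ++ B) := by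
  unfold NN
  rw [hP.app, hP.app, cr_cons, cr_cons]
  simp only [ps, List.map_cons, List.sum_cons]
  have h : g1 b b = 0 := by revert b; decide
  linear_combination ((B.map (g1 b)).sum + (A.map fun z => g1 z b).sum) * two + h

theorem NN_cc (hP : SpecPSU) (B : List Bool) (b : Bool) : NN (b :: b :: B) = NN B :=
  NN_ins hP [] B b

/-- lists in which entries come in adjacent pairs with equal values -/
theorem pairs_aux (hP : SpecPSU) {S β : Type} (f : S → β) (χ : S → Bool) :
    ∀ (n : ℕ) (L : List S), L.length ≤ n → L.Nodup → Blocks f L →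
      (∀ p ∈ L, ∃ p' ∈ L, p' ≠ p ∧ f p' = f p ∧ χ p' = χ p ∧ ∀ r ∈ L, f r = f p → r = p ∨ r = p') →
      NN (L.map χ) = 0 := by
  intro n
  induction n with
  | zero =>
    intro L hL _ _ _
    have : L = [] := List.length_eq_zero_iff.1 (by omega)
    subst this; rfl
  | succ n ih =>
    intro L hL hnd hB hp
    match L, hL, hnd, hB, hp with
    | [], _, _, _, _ => rfl
    | p :: L₁, hL, hnd, hB, hp =>
      obtain ⟨p', hp', hne, hf, hχ, huniq⟩ := hp p (by simp)
      have hp1 : p' ∈ L₁ := by
        rcases List.mem_cons.1 hp' with h | h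
        · exact absurd h hne
        · exact h
      match L₁, hp1, hL, hnd, hB, hp, huniq with
      | [], hp1, _, _, _, _, _ => simp at hp1
      | r :: L₂, hp1, hL, hnd, hB, hp, huniq =>
        have hr : r = p' := by
          by_contra hr
          have h2 : p' ∈ L₂ := by
            rcases List.mem_cons.1 hp1 with h | h
            · exact absurd h.symm hr
            · exact h
          have hsub : [p, r, p'].Sublist (p :: r :: L₂) := by
            refine List.Sublist.cons_cons _ (List.Sublist.cons_cons _ ?_)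
            exact List.singleton_sublist.2 h2
          have h3 := hB p r p' hsub hf.symm
          rcases huniq r (by simp) h3 with h | h
          · subst h
            exact (List.nodup_cons.1 hnd).1 (by simp)
          · exact hr h
        subst hr
        simp only [List.map_cons]
        rw [hχ, NN_cc hP]
        have hnd1 := (List.nodup_cons.1 hnd)
        have hnd2 := (List.nodup_cons.1 hnd1.2)
        apply ih L₂
        · simp only [List.length_cons] at hL; omega
        · exact hnd2.2
        · intro a b c hs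
          exact hB a b c (List.Sublist.cons _ (List.Sublist.cons _ hs))
        · intro x hx
          obtain ⟨x', hx', hxne, hxf, hxχ, hxu⟩ := hp x (by simp [hx])
          have hxp : x ≠ p := by
            rintro rfl; exact hnd1.1 (by simp [hx])
          have hxr : x ≠ r := by
            rintro rfl; exact hnd2.1 hx
          have hfx : f x ≠ f p := by
            intro h
            rcases huniq x (by simp [hx]) h with h | h
            · exact hxp h
            · exact hxr h
          have hx2 : x' ∈ L₂ := by
            rcases List.mem_cons.1 hx' with h | h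
            · subst h; exact absurd hxf.symm hfx
            · rcases List.mem_cons.1 h with h | h
              · subst h; exact absurd (hxf.symm.trans hf) hfx
              · exact h
          exact ⟨x', hx2, hxne, hxf, hxχ, fun y hy => hxu y (by simp [hy])⟩

/-- flattening of a list of pairs -/
def fl {S : Type} (l : List (S × S)) : List S := l.flatMap fun x => [x.1, x.2]

theorem mem_fl {S : Type} {l : List (S × S)} {p : S} :
    p ∈ fl l ↔ ∃ x ∈ l, p = x.1 ∨ p = x.2 := by
  unfold fl
  simp [List.mem_flatMap]

theorem fl_ne {S : Type} : ∀ {l : List (S × S)}, (fl l).Nodup → ∀ x ∈ l, x.1 ≠ x.2 := by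
  intro l
  induction l with
  | nil => intro _ x hx; simp at hx
  | cons y l ih =>
    intro h x hx
    have h' : (y.1 :: y.2 :: fl l).Nodup := h
    rcases List.mem_cons.1 hx with rfl | hx
    · intro he
      exact (List.nodup_cons.1 h').1 (by rw [he]; simp)
    · exact ih (List.nodup_cons.1 (List.nodup_cons.1 h').2).2 x hx

theorem pairs (hP : SpecPSU) {S β : Type} (f : S → β) (χ : S → Bool) (L : List S)
    (l : List (S × S)) (hL : L.Nodup) (hB : Blocks f L) (hm : ∀ p, p ∈ L ↔ p ∈ fl l)
    (hl : (fl l).Nodup) (hf : ∀ x ∈ l, f x.1 = f x.2) (hfn : (l.map fun x => f x.2).Nodup)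
    (hχ : ∀ x ∈ l, χ x.1 = χ x.2) : NN (L.map χ) = 0 := by
  refine pairs_aux hP f χ L.length L le_rfl hL hB ?_
  intro p hp
  obtain ⟨x, hx, hpx⟩ := mem_fl.1 ((hm p).1 hp)
  have hne := fl_ne hl x hx
  have huni : ∀ r ∈ L, f r = f x.2 → r = x.1 ∨ r = x.2 := by
    intro r hr hfr
    obtain ⟨y, hy, hry⟩ := mem_fl.1 ((hm r).1 hr)
    have h1 : f y.2 = f x.2 := by
      rcases hry with rfl | rfl
      · rw [← hf y hy]; exact hfr
      · exact hfr
    have h2 : y = x := List.inj_on_of_nodup_map hfn hy hx h1
    subst h2; exact hry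
  rcases hpx with rfl | rfl
  · refine ⟨x.2, (hm _).2 (mem_fl.2 ⟨x, hx, Or.inr rfl⟩), hne.symm, (hf x hx).symm, (hχ x hx).symm, ?_⟩
    intro r hr hfr
    exact huni r hr (hfr.trans (hf x hx))
  · refine ⟨x.1, (hm _).2 (mem_fl.2 ⟨x, hx, Or.inl rfl⟩), hne, hf x hx, hχ x hx, ?_⟩
    intro r hr hfr
    exact (huni r hr hfr).symm

/-! ### the run -/

def chm (m i : ℕ) : Bool := decide (0 < i ∧ i ≤ 2 * (m / 2))
def chp (m i : ℕ) : Bool := decide (i < 2 * ((m + 1) / 2))

def ff (z w : ℕ × ℕ) : ZMod 2 :=
  (if z.1 = 0 then bit (chp z.2 w.1) + bit (chp z.2 w.2) else 0) +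
  (if w.1 = 0 then bit (chm w.2 z.1) + bit (chm w.2 z.2) else 0)

theorem NN_swap' (hP : SpecPSU) {S : Type} (χ : S → Bool) (A B : List S) (s t : S) :
    NN ((A ++ s :: t :: B).map χ) = bit (χ s) + bit (χ t) + NN ((A ++ t :: s :: B).map χ) := by
  have h := NN_swap hP (A.map χ) (B.map χ) (χ s) (χ t)
  simp only [List.map_append, List.map_cons]
  linear_combination h - NN (List.map χ A ++ χ t :: χ s :: List.map χ B) * two

theorem runsum (hP : SpecPSU) {S : Type} (χ : S → Bool) {L L' : List S} {W : List (S × S)}
    (h : Run L W L') :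
    (W.map fun y => bit (χ y.1) + bit (χ y.2)).sum = NN (L.map χ) + NN (L'.map χ) := by
  induction h
  · rename_i L
    simp only [List.map_nil, List.sum_nil]; linear_combination -(NN (L.map χ)) * two
  · rename_i A B s t W L' h ih
    simp only [List.map_cons, List.sum_cons, ih]
    rw [NN_swap' hP χ A B s t]; ring
  · rename_i A B s t W L' h ih
    simp only [List.map_cons, List.sum_cons, ih]
    rw [NN_swap' hP χ A B s t]; ring

theorem five (hP : SpecPSU) (A B : List ℕ) (s t u : ℕ) (hn : (A ++ s :: t :: B).Nodup)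
    (h : (s = 0 ∧ t = u) ∨ (t = 0 ∧ s = u)) :
    NN ((A ++ s :: t :: B).map (chm u)) = NN ((A ++ t :: s :: B).map (chp u)) := by
  have hst : s ≠ t ∧ (∀ x ∈ A, x ≠ s ∧ x ≠ t) ∧ (∀ x ∈ B, x ≠ s ∧ x ≠ t) := by
    rw [List.nodup_append] at hn
    obtain ⟨_, h2, h3⟩ := hn
    have h4 := List.nodup_cons.1 h2
    have h5 := List.nodup_cons.1 h4.2
    refine ⟨?_, ?_, ?_⟩
    · rintro rfl; exact h4.1 (by simp)
    · intro x hx
      exact ⟨h3 x hx s (by simp), h3 x hx t (by simp)⟩
    · intro x hx
      refine ⟨?_, ?_⟩
      · rintro rfl; exact h4.1 (by simp [hx])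
      · rintro rfl; exact h5.1 hx
  obtain ⟨hst, hA, hB⟩ := hst
  have hu : 0 < u := by omega
  have key : ∀ x, x ≠ s → x ≠ t → chm u x = chp u x := by
    intro x h1 h2
    have h3 : x ≠ 0 ∧ x ≠ u := by omega
    unfold chm chp
    rw [decide_eq_decide]
    omega
  have hAm : A.map (chm u) = A.map (chp u) :=
    List.map_congr_left fun x hx => key x (hA x hx).1 (hA x hx).2
  have hBm : B.map (chm u) = B.map (chp u) :=
    List.map_congr_left fun x hx => key x (hB x hx).1 (hB x hx).2
  simp only [List.map_append, List.map_cons, hAm, hBm]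
  rcases Nat.even_or_odd' u with ⟨c, hc | hc⟩
  · have e1 : chm u 0 = false := by unfold chm; simp
    have e2 : chm u u = true := by unfold chm; rw [decide_eq_true_iff]; omega
    have e3 : chp u 0 = true := by unfold chp; rw [decide_eq_true_iff]; omega
    have e4 : chp u u = false := by unfold chp; rw [decide_eq_false_iff_not]; omega
    rcases h with ⟨rfl, rfl⟩ | ⟨rfl, rfl⟩
    · rw [e1, e2, e3, e4]
    · rw [e1, e2, e3, e4]
  · have e1 : chm u 0 = false := by unfold chm; simp
    have e2 : chm u u = false := by unfold chm; rw [decide_eq_false_iff_not]; omega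
    have e3 : chp u 0 = true := by unfold chp; rw [decide_eq_true_iff]; omega
    have e4 : chp u u = true := by unfold chp; rw [decide_eq_true_iff]; omega
    rcases h with ⟨rfl, rfl⟩ | ⟨rfl, rfl⟩
    · rw [e1, e2, e3, e4, NN_ins hP, NN_ins hP]
    · rw [e1, e2, e3, e4, NN_ins hP, NN_ins hP]

theorem sum_ite_add {α : Type} (W : List α) (P : α → Prop) [DecidablePred P] (f g : α → ZMod 2) :
    (W.map fun w => if P w then f w else 0).sum + (W.map fun w => if P w then g w else 0).sum =
      (W.map fun w => if P w then f w + g w else 0).sum := by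
  rw [← List.sum_map_add]
  congr 1
  apply List.map_congr_left
  intro x _
  split_ifs <;> simp

theorem step (hP : SpecPSU) (A B : List ℕ) (s t a b : ℕ) (W : List (ℕ × ℕ)) (L' : List ℕ)
    (hab : (a = s ∧ b = t) ∨ (a = t ∧ b = s))
    (hrun : Run (A ++ t :: s :: B) W L') (hn : (A ++ s :: t :: B).Nodup)
    (ih : ps ff W = (W.map fun w => if w.1 = 0 then
      NN ((A ++ t :: s :: B).map (chm w.2)) + NN (L'.map (chp w.2)) else 0).sum) :
    ps ff ((a, b) :: W) = (((a, b) :: W).map fun w => if w.1 = 0 then
      NN ((A ++ s :: t :: B).map (chm w.2)) + NN (L'.map (chp w.2)) else 0).sum := by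
  have h1 : ∀ w : ℕ × ℕ, NN ((A ++ s :: t :: B).map (chm w.2)) =
      bit (chm w.2 a) + bit (chm w.2 b) + NN ((A ++ t :: s :: B).map (chm w.2)) := by
    intro w
    rw [NN_swap' hP]
    rcases hab with ⟨rfl, rfl⟩ | ⟨rfl, rfl⟩
    · rfl
    · ring
  have h2 : (W.map (ff (a, b))).sum = (if a = 0 then
        NN ((A ++ t :: s :: B).map (chp b)) + NN (L'.map (chp b)) else 0) +
      (W.map fun w => if w.1 = 0 then bit (chm w.2 a) + bit (chm w.2 b) else 0).sum := by
    have h3 : (W.map (ff (a, b))) = W.map fun w =>
        (if a = 0 then bit (chp b w.1) + bit (chp b w.2) else 0) +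
        (if w.1 = 0 then bit (chm w.2 a) + bit (chm w.2 b) else 0) := rfl
    rw [h3, List.sum_map_add]
    congr 1
    by_cases ha : a = 0
    · simp only [ha, if_true]
      exact runsum hP (chp b) hrun
    · simp [ha]
  show (W.map (ff (a, b))).sum + ps ff W = _
  rw [h2, ih, add_assoc, sum_ite_add]
  simp only [List.map_cons, List.sum_cons]
  congr 1
  · by_cases ha : a = 0
    · simp only [ha, if_true]
      congr 1
      refine (five hP A B s t b hn ?_).symm
      omega
    · simp [ha]
  · congr 1
    apply List.map_congr_left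
    intro w _
    by_cases hw : w.1 = 0
    · simp only [hw, if_true]
      rw [h1 w]; ring
    · simp [hw]

theorem main_run (hP : SpecPSU) {L L' : List ℕ} {W : List (ℕ × ℕ)} (h : Run L W L')
    (hn : L.Nodup) : ps ff W = (W.map fun w => if w.1 = 0 then
      NN (L.map (chm w.2)) + NN (L'.map (chp w.2)) else 0).sum := by
  induction h
  · rfl
  · rename_i A B s t W L' h ih
    have hn' : (A ++ t :: s :: B).Nodup :=
      ((List.Perm.swap s t B).append_left A).nodup_iff.2 hn
    exact step hP A B s t s t W L' (Or.inl ⟨rfl, rfl⟩) h hn (ih hn')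
  · rename_i A B s t W L' h ih
    have hn' : (A ++ t :: s :: B).Nodup :=
      ((List.Perm.swap s t B).append_left A).nodup_iff.2 hn
    exact step hP A B s t t s W L' (Or.inr ⟨rfl, rfl⟩) h hn (ih hn')

/-! ### the pointwise identity -/

def tB (i j : ℕ) : Bool := decide (i < j ∨ (i = j ∧ i % 2 = 0))
def qB (i j : ℕ) : Bool := if i = 0 then decide (j = 0) else (decide (j = 0) || tB i j)

def bR (x y v : Bool) : ZMod 2 := bit (x && !y && v) + bit (!v && y && !x)

def b0 (z w : ℕ × ℕ) : ZMod 2 := bR (tB z.1 w.2) (tB z.2 w.2) (tB z.2 w.1)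
def b1 (z w : ℕ × ℕ) : ZMod 2 := bR (qB z.1 w.2) (qB z.2 w.2) (qB z.2 w.1)

theorem tB_zero_left (j : ℕ) : tB 0 j = true := by
  unfold tB; rw [decide_eq_true_iff]; omega
theorem tB_zero_right (i : ℕ) : tB i 0 = decide (i = 0) := by
  unfold tB; rw [decide_eq_decide]; omega
theorem chp_eq (m i : ℕ) : chp m i = !(tB m i) := by
  unfold chp tB
  rw [← decide_not, decide_eq_decide]; omega
theorem chm_eq (m i : ℕ) : chm m i = (!(decide (i = 0)) && tB i m) := by
  unfold chm tB
  rw [← decide_not, ← Bool.decide_and, decide_eq_decide]; omega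

theorem ident (z w : ℕ × ℕ) (hz : z.1 ≠ z.2) (hw : w.1 ≠ w.2) : b0 z w + b1 z w = ff z w := by
  obtain ⟨i1, i2⟩ := z
  obtain ⟨j1, j2⟩ := w
  simp only at hz hw
  unfold b0 b1 ff
  simp only [chp_eq, chm_eq]
  by_cases h1 : i1 = 0
  · subst h1
    have h2 : i2 ≠ 0 := fun h => hz h.symm
    by_cases h3 : j1 = 0
    · subst h3
      have h4 : j2 ≠ 0 := fun h => hw h.symm
      simp only [qB, h2, h4, if_true, if_false, tB_zero_left, tB_zero_right, decide_false, decide_true]
      generalize tB i2 j2 = y
      revert y; decide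
    · by_cases h4 : j2 = 0
      · subst h4
        simp only [qB, h2, h3, if_true, if_false, tB_zero_left, tB_zero_right, decide_false, decide_true]
        generalize tB i2 j1 = y
        revert y; decide
      · simp only [qB, h2, h3, h4, if_true, if_false, tB_zero_left, decide_false]
        generalize tB i2 j1 = y
        generalize tB i2 j2 = x
        revert x y; decide
  · by_cases h2 : i2 = 0
    · subst h2
      by_cases h3 : j1 = 0
      · subst h3
        have h4 : j2 ≠ 0 := fun h => hw h.symm
        simp only [qB, h1, h4, if_true, if_false, tB_zero_left, tB_zero_right, decide_false, decide_true]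
        generalize tB i1 j2 = y
        revert y; decide
      · by_cases h4 : j2 = 0
        · subst h4
          simp only [qB, h1, h3, if_true, if_false, tB_zero_left, tB_zero_right, decide_false, decide_true]
          decide
        · simp only [qB, h1, h3, h4, if_true, if_false, tB_zero_left, decide_false]
          generalize tB i1 j2 = x
          revert x; decide
    · by_cases h3 : j1 = 0
      · subst h3
        have h4 : j2 ≠ 0 := fun h => hw h.symm
        simp only [qB, h1, h2, h4, if_true, if_false, tB_zero_right, decide_false, decide_true]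
        generalize tB i1 j2 = x
        generalize tB i2 j2 = y
        revert x y; decide
      · by_cases h4 : j2 = 0
        · subst h4
          simp only [qB, h1, h2, h3, if_true, if_false, tB_zero_right, decide_false, decide_true]
          generalize tB i2 j1 = x
          revert x; decide
        · simp only [qB, h1, h2, h3, h4, if_false, decide_false]
          generalize tB i1 j2 = x
          generalize tB i2 j2 = y
          generalize tB i2 j1 = v
          revert x y v; decide

theorem ps_add {α : Type} (g h : α → α → ZMod 2) (W : List α) :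
    ps g W + ps h W = ps (fun z w => g z w + h z w) W := by
  induction W with
  | nil => simp [ps]
  | cons z W ih =>
    simp only [ps]
    rw [← ih, List.sum_map_add]; ring

/-! ### indices on the curve -/

section idx

variable {S : Type} [DecidableEq S]

theorem map_acv (l : List (S × S)) : (acv l).map Prod.fst = fl l := by
  unfold acv fl
  induction l with
  | nil => rfl
  | cons x l ih => simp only [List.flatMap_cons, List.map_append, ih]; rfl

theorem par_idx : ∀ (l : List (S × S)), (fl l).Nodup → ∀ p ∈ fl l,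
    ((p, true) ∈ acv l ↔ (fl l).idxOf p % 2 = 0) ∧ ((p, false) ∈ acv l ↔ (fl l).idxOf p % 2 = 1) := by
  intro l
  induction l with
  | nil => intro _ p hp; simp [fl] at hp
  | cons x l ih =>
    intro hn p hp
    have hn' : (x.1 :: x.2 :: fl l).Nodup := hn
    have e : fl (x :: l) = x.1 :: x.2 :: fl l := rfl
    have e' : acv (x :: l) = (x.1, true) :: (x.2, false) :: acv l := rfl
    have h1 := List.nodup_cons.1 hn'
    have h2 := List.nodup_cons.1 h1.2
    have hmem : ∀ b, (p, b) ∈ acv l → p ∈ fl l := by
      intro b hb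
      rw [← map_acv]
      exact List.mem_map.2 ⟨_, hb, rfl⟩
    rw [e] at hp ⊢
    rw [e']
    by_cases hp1 : p = x.1
    · subst hp1
      have h3 : x.1 ∉ fl l := fun h => h1.1 (by simp [h])
      have h4 : x.1 ≠ x.2 := by
        intro h; exact h1.1 (by rw [← h]; simp)
      rw [List.idxOf_cons_self]
      refine ⟨by simp, ?_⟩
      simp only [List.mem_cons, Prod.mk.injEq]
      constructor
      · rintro (⟨_, h⟩ | ⟨h, _⟩ | h)
        · simp at h
        · exact absurd h h4
        · exact absurd (hmem _ h) h3
      · intro h; simp at h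
    · rw [List.idxOf_cons_ne _ (fun h => hp1 h.symm)]
      by_cases hp2 : p = x.2
      · subst hp2
        rw [List.idxOf_cons_self]
        refine ⟨?_, by simp⟩
        simp only [List.mem_cons, Prod.mk.injEq]
        constructor
        · rintro (⟨h, _⟩ | ⟨_, h⟩ | h)
          · exact absurd h hp1
          · simp at h
          · exact absurd (hmem _ h) h2.1
        · intro h; simp at h
      · rw [List.idxOf_cons_ne _ (fun h => hp2 h.symm)]
        have hp3 : p ∈ fl l := by
          simp only [List.mem_cons] at hp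
          tauto
        have := ih h2.2 p hp3
        simp only [List.mem_cons, Prod.mk.injEq, hp1, hp2, false_and, false_or]
        rw [this.1, this.2]
        constructor <;> omega

theorem l10_iff (q : List (S × Bool)) (hn : (q.map Prod.fst).Nodup) (p r : S) (hp : on q p)
    (hr : on q r) : l10 q p r ↔ ¬ l01 q r p := by
  have hp' : p ∈ q.map Prod.fst := hp
  have hr' : r ∈ q.map Prod.fst := hr
  have h1 : idx q p = idx q r ↔ p = r := List.idxOf_inj hp'
  have h2 : (p, false) ∈ q ↔ ¬ (p, true) ∈ q := by
    constructor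
    · intro h h'
      have := List.inj_on_of_nodup_map hn h h' rfl
      simp at this
    · intro h
      obtain ⟨⟨x, b⟩, hx, hxp⟩ := List.mem_map.1 hp'
      simp only at hxp
      subst hxp
      cases b with
      | false => exact hx
      | true => exact absurd hx h
  unfold l10 l01
  by_cases hpr : p = r
  · subst hpr
    simp [h2]
  · have h3 : idx q p ≠ idx q r := fun h => hpr (h1.1 h)
    have h4 : ¬ r = p := fun h => hpr h.symm
    simp only [hpr, h4, false_and, or_false]
    omega

theorem bet_eq (q : List (S × Bool)) (hn : (q.map Prod.fst).Nodup) (z w : S × S)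
    (h1 : on q z.1) (h2 : on q z.2) (h3 : on q w.1) (h4 : on q w.2) :
    bet q z w = bR (decide (l01 q z.1 w.2)) (decide (l01 q z.2 w.2)) (decide (l01 q z.2 w.1)) := by
  unfold bet
  rw [if_pos ⟨h1, h2, h3, h4⟩]
  simp only [l10_iff q hn _ _ h4 h2, l10_iff q hn _ _ h3 h2, l10_iff q hn _ _ h4 h1]
  by_cases ha : l01 q z.1 w.2 <;> by_cases hb : l01 q z.2 w.2 <;> by_cases hc : l01 q z.2 w.1 <;>
    simp [ha, hb, hc, bR, bit]

theorem l01_q (l : List (S × S)) (hn : (fl l).Nodup) (p r : S) (hp : p ∈ fl l) (hr : r ∈ fl l) :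
    decide (l01 (acv l) p r) = tB ((fl l).idxOf p) ((fl l).idxOf r) := by
  unfold tB
  rw [decide_eq_decide]
  unfold l01 idx
  rw [map_acv]
  have h1 : (fl l).idxOf p = (fl l).idxOf r ↔ p = r := List.idxOf_inj hp
  rw [h1, (par_idx l hn p hp).1]

theorem l01_q1 (a a' : S) (l : List (S × S)) (hn : (fl ((a, a') :: l)).Nodup) (p r : S)
    (hp : p ∈ fl ((a, a') :: l)) (hr : r ∈ fl ((a, a') :: l)) :
    decide (l01 ((acv ((a, a') :: l)).rotate 1) p r) =
      qB ((fl ((a, a') :: l)).idxOf p) ((fl ((a, a') :: l)).idxOf r) := by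
  have e1 : ((acv ((a, a') :: l)).rotate 1).map Prod.fst = (a' :: fl l) ++ [a] := by
    have : acv ((a, a') :: l) = (a, true) :: (a', false) :: acv l := rfl
    rw [this, List.rotate_cons_succ, List.rotate_zero, List.map_append, List.map_cons, map_acv]
    rfl
  have e2 : fl ((a, a') :: l) = a :: (a' :: fl l) := rfl
  have e3 : ∀ p : S, (p, true) ∈ (acv ((a, a') :: l)).rotate 1 ↔ (p, true) ∈ acv ((a, a') :: l) :=
    fun p => List.mem_rotate
  have hn' := List.nodup_cons.1 (e2 ▸ hn)
  rw [Bool.eq_iff_iff, decide_eq_true_iff]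
  unfold l01 idx
  rw [e1, e3, (par_idx _ hn p hp).1, e2]
  rw [e2] at hp hr
  have hlt : ∀ x ∈ (a' :: fl l), (a' :: fl l).idxOf x < (a' :: fl l).length :=
    fun x hx => List.idxOf_lt_length_of_mem hx
  have ha : ((a' :: fl l) ++ [a]).idxOf a = (a' :: fl l).length := by
    rw [List.idxOf_append_of_notMem hn'.1]; simp
  have hb : ∀ x ∈ (a' :: fl l), ((a' :: fl l) ++ [a]).idxOf x = (a' :: fl l).idxOf x :=
    fun x hx => List.idxOf_append_of_mem hx
  by_cases h1 : p = a
  · subst h1
    rw [ha, List.idxOf_cons_self]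
    unfold qB
    rw [if_pos rfl, decide_eq_true_iff]
    by_cases h2 : r = p
    · subst h2; simp
    · have h3 : r ∈ a' :: fl l := by
        rcases List.mem_cons.1 hr with h | h
        · exact absurd h h2
        · exact h
      rw [hb r h3, List.idxOf_cons_ne _ (fun h => h2 h.symm)]
      have := hlt r h3
      constructor
      · rintro (h | h)
        · omega
        · exact absurd h.1.symm h2
      · intro h; omega
  · have h1' : p ∈ a' :: fl l := by
      rcases List.mem_cons.1 hp with h | h
      · exact absurd h h1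
      · exact h
    rw [hb p h1', List.idxOf_cons_ne _ (fun h => h1 h.symm)]
    unfold qB
    rw [if_neg (by omega)]
    by_cases h2 : r = a
    · subst h2
      rw [ha, List.idxOf_cons_self]
      have := hlt p h1'
      simp only [decide_true, Bool.true_or, iff_true]
      left; exact this
    · have h3 : r ∈ a' :: fl l := by
        rcases List.mem_cons.1 hr with h | h
        · exact absurd h h2
        · exact h
      rw [hb r h3, List.idxOf_cons_ne _ (fun h => h2 h.symm)]
      have h4 : (a' :: fl l).idxOf p = (a' :: fl l).idxOf r ↔ p = r := List.idxOf_inj h1'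
      unfold tB
      have h5 : decide ((a' :: fl l).idxOf r + 1 = 0) = false := by
        rw [decide_eq_false_iff_not]; omega
      rw [h5, Bool.false_or, decide_eq_true_iff, ← h4]
      constructor
      · rintro (h | h)
        · left; omega
        · right; omega
      · rintro (h | h)
        · left; omega
        · right; omega

end idx

/-! ### the pairs at the bottom -/

def pr {S : Type} : S → List (S × S) → S → List (S × S)
  | b, [], a => [(b, a)]
  | b, x :: l, a => (b, x.1) :: pr x.2 l a

theorem fl_pr {S : Type} : ∀ (l : List (S × S)) (b a : S), fl (pr b l a) = b :: (fl l ++ [a]) := by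
  intro l
  induction l with
  | nil => intro b a; rfl
  | cons x l ih =>
    intro b a
    have : fl (pr b (x :: l) a) = b :: x.1 :: fl (pr x.2 l a) := rfl
    rw [this, ih]; rfl

theorem f_pr {S β : Type} (f : S → β) : ∀ (l : List (S × S)) (b a : S),
    f b :: l.map (fun x => f x.2) = l.map (fun x => f x.1) ++ [f a] →
    ∀ x ∈ pr b l a, f x.1 = f x.2 := by
  intro l
  induction l with
  | nil =>
    intro b a h x hx
    simp only [pr, List.mem_singleton] at hx
    subst hx
    simpa using h
  | cons y l ih =>
    intro b a h x hx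
    simp only [List.map_cons, List.cons_append, List.cons.injEq] at h
    rcases List.mem_cons.1 hx with rfl | hx
    · exact h.1
    · exact ih y.2 a h.2 x hx

theorem snd_pr {S β : Type} (f : S → β) : ∀ (l : List (S × S)) (b a : S),
    (pr b l a).map (fun x => f x.2) = l.map (fun x => f x.1) ++ [f a] := by
  intro l
  induction l with
  | nil => intro b a; rfl
  | cons y l ih =>
    intro b a
    simp only [pr, List.map_cons, List.cons_append, ih]

theorem pos_l {S : Type} : ∀ (l : List (S × S)) (P : List S), ∀ x ∈ l,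
    ∃ P' R, P ++ fl l = P' ++ x.1 :: x.2 :: R ∧ P'.length % 2 = P.length % 2 := by
  intro l
  induction l with
  | nil => intro P x hx; simp at hx
  | cons y l ih =>
    intro P x hx
    have e : fl (y :: l) = y.1 :: y.2 :: fl l := rfl
    rcases List.mem_cons.1 hx with rfl | hx
    · exact ⟨P, fl l, by rw [e], rfl⟩
    · obtain ⟨P', R, h1, h2⟩ := ih (P ++ [y.1, y.2]) x hx
      refine ⟨P', R, ?_, ?_⟩
      · rw [e, ← h1]; simp
      · rw [h2]; simp

theorem pos_pr {S : Type} : ∀ (l : List (S × S)) (b a : S) (P : List S), ∀ x ∈ pr b l a,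
    (∃ P' R, P ++ b :: fl l = P' ++ x.1 :: x.2 :: R ∧ P'.length % 2 = P.length % 2) ∨
    (x.2 = a ∧ ∃ P', P ++ b :: fl l = P' ++ [x.1] ∧ P'.length % 2 = P.length % 2) := by
  intro l
  induction l with
  | nil =>
    intro b a P x hx
    simp only [pr, List.mem_singleton] at hx
    subst hx
    exact Or.inr ⟨rfl, P, rfl, rfl⟩
  | cons y l ih =>
    intro b a P x hx
    have e : fl (y :: l) = y.1 :: y.2 :: fl l := rfl
    rcases List.mem_cons.1 hx with rfl | hx
    · exact Or.inl ⟨P, y.2 :: fl l, by rw [e], rfl⟩
    · have e2 : P ++ b :: fl (y :: l) = (P ++ [b, y.1]) ++ y.2 :: fl l := by rw [e]; simp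
      have e3 : (P ++ [b, y.1]).length % 2 = P.length % 2 := by simp
      rw [e2]
      rcases ih y.2 a (P ++ [b, y.1]) x hx with ⟨P', R, h1, h2⟩ | ⟨h0, P', h1, h2⟩
      · exact Or.inl ⟨P', R, h1, h2.trans e3⟩
      · exact Or.inr ⟨h0, P', h1, h2.trans e3⟩

theorem idx_pos {S : Type} [DecidableEq S] (P R : List S) (x y : S) (hn : (P ++ x :: y :: R).Nodup) :
    (P ++ x :: y :: R).idxOf x = P.length ∧ (P ++ x :: y :: R).idxOf y = P.length + 1 := by
  rw [List.nodup_append] at hn
  obtain ⟨_, h2, h3⟩ := hn
  have hx : x ∉ P := fun h => h3 x h x (by simp) rfl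
  have hy : y ∉ P := fun h => h3 y h y (by simp) rfl
  have hxy : x ≠ y := by
    rintro rfl; exact (List.nodup_cons.1 h2).1 (by simp)
  constructor
  · rw [List.idxOf_append_of_notMem hx, List.idxOf_cons_self]; simp
  · rw [List.idxOf_append_of_notMem hy, List.idxOf_cons_ne _ hxy, List.idxOf_cons_self]

theorem idx_last {S : Type} [DecidableEq S] (P : List S) (x : S) (hn : (P ++ [x]).Nodup) :
    (P ++ [x]).idxOf x = P.length := by
  rw [List.nodup_append] at hn
  obtain ⟨_, _, h3⟩ := hn
  have hx : x ∉ P := fun h => h3 x h x (by simp) rfl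
  rw [List.idxOf_append_of_notMem hx, List.idxOf_cons_self]; simp

theorem chp_l {S : Type} [DecidableEq S] (l : List (S × S)) (hn : (fl l).Nodup) (m : ℕ) :
    ∀ x ∈ l, chp m ((fl l).idxOf x.1) = chp m ((fl l).idxOf x.2) := by
  intro x hx
  obtain ⟨P, R, h1, h2⟩ := pos_l l [] x hx
  simp only [List.nil_append, List.length_nil] at h1 h2
  rw [h1] at hn ⊢
  obtain ⟨h3, h4⟩ := idx_pos P R x.1 x.2 hn
  rw [h3, h4]
  unfold chp
  rw [decide_eq_decide]; omega

theorem chm_l {S : Type} [DecidableEq S] (a a' : S) (l : List (S × S))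
    (hn : (fl ((a, a') :: l)).Nodup) (m : ℕ) (hm : m < (fl ((a, a') :: l)).length) :
    ∀ x ∈ pr a' l a, chm m ((fl ((a, a') :: l)).idxOf x.1) = chm m ((fl ((a, a') :: l)).idxOf x.2) := by
  intro x hx
  have e : fl ((a, a') :: l) = [a] ++ a' :: fl l := rfl
  rcases pos_pr l a' a [a] x hx with ⟨P, R, h1, h2⟩ | ⟨h0, P, h1, h2⟩
  · rw [e, h1] at hn ⊢
    obtain ⟨h3, h4⟩ := idx_pos P R x.1 x.2 hn
    rw [h3, h4]
    simp only [List.length_singleton] at h2
    unfold chm
    rw [decide_eq_decide]; omega
  · have e5 : (fl ((a, a') :: l)).idxOf a = 0 := by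
      have : fl ((a, a') :: l) = a :: (a' :: fl l) := rfl
      rw [this, List.idxOf_cons_self]
    rw [h0, e5]
    rw [e, h1] at hn hm ⊢
    rw [idx_last P x.1 hn]
    simp only [List.length_singleton] at h2
    simp only [List.length_append, List.length_singleton] at hm
    unfold chm
    rw [decide_eq_decide]; omega

end HALM

open HALM in
theorem specHAL (hPSU : SpecPSU) (hRUN : SpecRUN) (hBLK : SpecBLK) : SpecHAL := by
  intro S β γ _ bk tk bot W top l hd hc hl
  obtain ⟨⟨a, a'⟩, l', rfl⟩ : ∃ x l', l = x :: l' := by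
    cases l with
    | nil => exact absurd rfl hc.ne
    | cons x l' => exact ⟨x, l', rfl⟩
  set l := (a, a') :: l' with hldef
  have hn : (fl l).Nodup := by rw [← map_acv]; exact hc.nd
  have hn1 : (((acv l).rotate 1).map Prod.fst).Nodup := by
    rw [List.map_rotate, List.nodup_rotate]; exact hc.nd
  have hon : ∀ p, on (acv l) p ↔ p ∈ fl l := by
    intro p; unfold on; rw [map_acv]
  have hon1 : ∀ p, on ((acv l).rotate 1) p ↔ p ∈ fl l := by
    intro p; unfold on; rw [List.map_rotate, List.mem_rotate, map_acv]
  let P : S → Bool := fun p => decide (p ∈ fl l)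
  let ix : S → ℕ := fun p => (fl l).idxOf p
  set bot' := bot.filter P with hbot'
  set top' := top.filter P with htop'
  set W' := W.filter (fun z => P z.1 && P z.2) with hW'
  have run' : Run bot' W' top' := hRUN.filt P hd.run
  have run'' := hRUN.map ix run'
  have hmb : ∀ p, p ∈ bot' ↔ p ∈ fl l := by
    intro p
    rw [hbot', List.mem_filter]
    simp only [P, decide_eq_true_iff]
    constructor
    · exact fun h => h.2
    · intro h
      refine ⟨?_, h⟩
      obtain ⟨x, hx, h | h⟩ := mem_fl.1 h
      · rw [h]; exact (hl x hx).1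
      · rw [h]; exact (hl x hx).2
  have hmt : ∀ p, p ∈ top' ↔ p ∈ fl l := by
    intro p
    rw [← (hRUN.perm run').mem_iff]; exact hmb p
  have hndb : bot'.Nodup := hd.nd.filter _
  have hndt : top'.Nodup := (hRUN.perm run').nodup_iff.1 hndb
  have hixinj : ∀ p ∈ fl l, ∀ r, ix p = ix r → p = r := fun p hp r h => (List.idxOf_inj hp).1 h
  have hnix : (bot'.map ix).Nodup := by
    refine List.Nodup.map_on ?_ hndb
    intro p hp r _ h
    exact hixinj p ((hmb p).1 hp) r h
  have hWm : ∀ z ∈ W', z.1 ∈ fl l ∧ z.2 ∈ fl l := by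
    intro z hz
    rw [hW', List.mem_filter] at hz
    simp only [P, Bool.and_eq_true, decide_eq_true_iff] at hz
    exact hz.2
  set W0 := W'.map (Prod.map ix ix) with hW0
  have key0 : AW (acv l) W = ps b0 W0 := by
    unfold AW
    rw [← hPSU.fil (bet (acv l)) (fun z => P z.1 && P z.2) W, hW0, hPSU.map]
    · apply hPSU.cgr
      intro z hz w hw
      obtain ⟨h1, h2⟩ := hWm z hz
      obtain ⟨h3, h4⟩ := hWm w hw
      rw [bet_eq (acv l) hc.nd z w ((hon _).2 h1) ((hon _).2 h2) ((hon _).2 h3) ((hon _).2 h4),
        l01_q l hn _ _ h1 h4, l01_q l hn _ _ h2 h4, l01_q l hn _ _ h2 h3]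
      rfl
    · intro z _ w _ h
      unfold bet
      rw [if_neg]
      rintro ⟨h1, h2, h3, h4⟩
      rw [hon] at h1 h2 h3 h4
      simp only [P, h1, h2, h3, h4, decide_true, Bool.and_self] at h
      simp at h
  have key1 : AW ((acv l).rotate 1) W = ps b1 W0 := by
    unfold AW
    rw [← hPSU.fil (bet ((acv l).rotate 1)) (fun z => P z.1 && P z.2) W, hW0, hPSU.map]
    · apply hPSU.cgr
      intro z hz w hw
      obtain ⟨h1, h2⟩ := hWm z hz
      obtain ⟨h3, h4⟩ := hWm w hw
      rw [bet_eq ((acv l).rotate 1) hn1 z w ((hon1 _).2 h1) ((hon1 _).2 h2) ((hon1 _).2 h3)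
        ((hon1 _).2 h4), l01_q1 a a' l' hn _ _ h1 h4, l01_q1 a a' l' hn _ _ h2 h4,
        l01_q1 a a' l' hn _ _ h2 h3]
      rfl
    · intro z _ w _ h
      unfold bet
      rw [if_neg]
      rintro ⟨h1, h2, h3, h4⟩
      rw [hon1] at h1 h2 h3 h4
      simp only [P, h1, h2, h3, h4, decide_true, Bool.and_self] at h
      simp at h
  have hsum : AW (acv l) W + AW ((acv l).rotate 1) W = 0 := by
    rw [key0, key1, ps_add]
    have e1 : ps (fun z w => b0 z w + b1 z w) W0 = ps ff W0 := by
      apply hPSU.cgr
      intro z hz w hw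
      exact ident z w (hRUN.mem hnix run'' z hz).2.2 (hRUN.mem hnix run'' w hw).2.2
    rw [e1, main_run hPSU run'' hnix]
    apply List.sum_eq_zero
    intro y hy
    obtain ⟨w, hw, rfl⟩ := List.mem_map.1 hy
    have hlt : w.2 < (fl l).length := by
      obtain ⟨p, hp, hpw⟩ := List.mem_map.1 (hRUN.mem hnix run'' w hw).2.1
      rw [← hpw]
      exact List.idxOf_lt_length_of_mem ((hmb p).1 hp)
    have z1 : NN ((bot'.map ix).map (chm w.2)) = 0 := by
      rw [List.map_map]
      refine pairs hPSU bk _ bot' (pr a' l' a) hndb (hBLK.fil _ _ _ hd.bb) ?_ ?_ ?_ ?_ ?_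
      · intro p
        rw [hmb p, fl_pr]
        have e : fl l = a :: (a' :: fl l') := rfl
        rw [e]
        simp only [List.mem_cons, List.mem_append, List.not_mem_nil, or_false]
        tauto
      · rw [fl_pr]
        have e : (a' :: (fl l' ++ [a])) = (fl l).rotate 1 := by
          have e : fl l = a :: (a' :: fl l') := rfl
          rw [e, List.rotate_cons_succ, List.rotate_zero]; rfl
        rw [e, List.nodup_rotate]; exact hn
      · refine f_pr bk l' a' a ?_
        have := hc.cl
        rw [hldef] at this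
        simpa [List.rotate_cons_succ] using this
      · rw [snd_pr]
        have := hc.nb
        rw [hldef] at this
        simp only [List.map_cons] at this
        rw [← List.nodup_rotate (n := 1), List.rotate_cons_succ, List.rotate_zero] at this
        exact this
      · intro x hx
        exact chm_l a a' l' hn w.2 hlt x hx
    have z2 : NN ((top'.map ix).map (chp w.2)) = 0 := by
      rw [List.map_map]
      refine pairs hPSU tk _ top' l hndt (hBLK.fil _ _ _ hd.tt) hmt hn hc.tp ?_ ?_
      · have h1 : (l.map fun x => tk x.2) = l.map fun x => tk x.1 :=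
          List.map_congr_left fun x hx => (hc.tp x hx).symm
        rw [h1]; exact hc.nt
      · intro x hx
        exact chp_l l hn w.2 x hx
    simp only [z1, z2]
    simp
  linear_combination hsum - AW (acv l) W * two

end Pool.Agent.Lib.MP3ff0f8.T
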