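import Pool.Agent.Lib.MP_3ff0f8_gt.T.Spec

/-!
# Module LKD: a diagram with prescribed linking numbers
-/

namespace Pool.Agent.Lib.MP3ff0f8.T

namespace LKDM

lemma add_self (x : ZMod 2) : x + x = 0 := CharTwo.add_self_eq_zero x

lemma inv_comm {S : Type} [DecidableEq S] (L L' : List S) (s t : S) (hs : s ∈ L) (hs' : s ∈ L')
    (hst : s ≠ t) : inv L L' s t = inv L L' t s := by
  have h1 : L.idxOf s ≠ L.idxOf t := fun h => hst ((List.idxOf_inj hs).1 h)
  have h2 : L'.idxOf s ≠ L'.idxOf t := fun h => hst ((List.idxOf_inj hs').1 h)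
  unfold inv
  congr 1
  apply propext
  constructor
  · intro h
    constructor <;> intro h3 <;> omega
  · intro h
    constructor <;> intro h3 <;> omega

/-- in `ZMod 2` the inversion is the sum of the two order indicators -/
lemma inv_eq {S : Type} [DecidableEq S] (L L' : List S) (s t : S) :
    inv L L' s t = (if L.idxOf s < L.idxOf t then 1 else 0) +
      (if L'.idxOf s < L'.idxOf t then 1 else 0) := by
  unfold inv
  by_cases h1 : L.idxOf s < L.idxOf t <;> by_cases h2 : L'.idxOf s < L'.idxOf t <;>
    simp [h1, h2]
  exact (add_self 1).symm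

/-- in a sorted list the order of the positions is the order of the values -/
lemma idx_sorted {S : Type} [DecidableEq S] (y : S → ℝ) (L : List S)
    (hL : L.Pairwise fun a b => y a ≤ y b) (s t : S) (hs : s ∈ L) (ht : t ∈ L) (hst : y s ≠ y t) :
    L.idxOf s < L.idxOf t ↔ y s < y t := by
  have h1 : L.idxOf s < L.length := List.idxOf_lt_length_of_mem hs
  have h2 : L.idxOf t < L.length := List.idxOf_lt_length_of_mem ht
  have e1 : L[L.idxOf s] = s := List.getElem_idxOf h1
  have e2 : L[L.idxOf t] = t := List.getElem_idxOf h2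
  rw [List.pairwise_iff_getElem] at hL
  constructor
  · intro h
    have := hL _ _ h1 h2 h
    rw [e1, e2] at this
    exact lt_of_le_of_ne this hst
  · intro h
    by_contra hn
    rcases Nat.lt_or_ge (L.idxOf t) (L.idxOf s) with h3 | h3
    · have := hL _ _ h2 h1 h3
      rw [e1, e2] at this
      exact absurd h (not_lt.2 this)
    · have h4 : L.idxOf s = L.idxOf t := by omega
      have h5 : s = t := (List.idxOf_inj hs).1 h4
      exact hst (by rw [h5])

/-- position (with the instance used in the definitions) -/
def ix {S : Type} [DecidableEq S] (L : List S) (s : S) : ℕ := L.idxOf s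

lemma ix_self {S : Type} [DecidableEq S] (L : List S) (s : S) : ix (s :: L) s = 0 :=
  List.idxOf_cons_self

lemma ix_ne {S : Type} [DecidableEq S] (L : List S) (s t : S) (h : s ≠ t) :
    ix (s :: L) t = ix L t + 1 := List.idxOf_cons_ne _ h

lemma ix_inj {S : Type} [DecidableEq S] {L : List S} {s t : S} (hs : s ∈ L) (h : ix L s = ix L t) :
    s = t := (List.idxOf_inj hs).1 h

lemma ix_sorted {S : Type} [DecidableEq S] (y : S → ℝ) (L : List S)
    (hL : L.Pairwise fun a b => y a ≤ y b) (s t : S) (hs : s ∈ L) (ht : t ∈ L) (hst : y s ≠ y t) :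
    ix L s < ix L t ↔ y s < y t := idx_sorted y L hL s t hs ht hst

lemma ix_lt {S : Type} [DecidableEq S] (L : List S) (x y : S) (hL : L.Nodup)
    (hxy : [x, y].Sublist L) : ix L x < ix L y := by
  have hp : L.Pairwise fun p q => L.idxOf p < L.idxOf q := by
    rw [List.pairwise_iff_getElem]
    intro i j hi hj hij
    rw [hL.idxOf_getElem, hL.idxOf_getElem]
    exact hij
  have := hp.sublist hxy
  rw [List.pairwise_cons] at this
  exact this.1 y (by simp)

lemma inv_ix {S : Type} [DecidableEq S] (L L' : List S) (s t : S) :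
    inv L L' s t = (if ix L s < ix L t then 1 else 0) + (if ix L' s < ix L' t then 1 else 0) :=
  inv_eq L L' s t

/-- the list of the caps -/
def caps {E : Type} (l : List E) : List (Dart E) := l.flatMap fun e => [(e, false), (e, true)]

lemma mem_caps {E : Type} (l : List E) (d : Dart E) : d ∈ caps l ↔ d.1 ∈ l := by
  unfold caps
  rw [List.mem_flatMap]
  constructor
  · rintro ⟨e, he, h⟩
    simp only [List.mem_cons, List.not_mem_nil, or_false] at h
    rcases h with h | h <;> (rw [h]; exact he)
  · intro h
    refine ⟨d.1, h, ?_⟩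
    obtain ⟨e, b⟩ := d
    cases b <;> simp

lemma nodup_caps {E : Type} (l : List E) (h : l.Nodup) : (caps l).Nodup := by
  induction l with
  | nil => exact List.nodup_nil
  | cons e l ih =>
    have h1 := List.nodup_cons.1 h
    have : caps (e :: l) = (e, false) :: (e, true) :: caps l := rfl
    rw [this, List.nodup_cons, List.nodup_cons]
    refine ⟨?_, ?_, ih h1.2⟩
    · rw [List.mem_cons]
      rintro (h2 | h2)
      · simp at h2
      · rw [mem_caps] at h2
        exact h1.1 h2
    · intro h2
      rw [mem_caps] at h2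
      exact h1.1 h2

/-- different edges are separated in the list of the caps -/
lemma caps_sep {E : Type} [DecidableEq E] (l : List E) (h : l.Nodup) (e f : E) (he : e ∈ l)
    (hf : f ∈ l) (hef : e ≠ f) :
    (∀ b b', ix (caps l) (e, b) < ix (caps l) (f, b')) ∨
    (∀ b b', ix (caps l) (f, b') < ix (caps l) (e, b)) := by
  induction l with
  | nil => exact absurd he List.not_mem_nil
  | cons g l ih =>
    have h1 := List.nodup_cons.1 h
    have hc : caps (g :: l) = (g, false) :: (g, true) :: caps l := rfl
    have hg : ∀ x : E, x ≠ g → ∀ b, ix (caps (g :: l)) (x, b) = ix (caps l) (x, b) + 2 := by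
      intro x hx b
      rw [hc, ix_ne _ _ _ (by simp [Ne.symm hx]), ix_ne _ _ _ (by simp [Ne.symm hx])]
    have hg' : ∀ b, ix (caps (g :: l)) (g, b) < 2 := by
      intro b
      rw [hc]
      cases b
      · rw [ix_self]; omega
      · rw [ix_ne _ _ _ (by simp), ix_self]; omega
    rcases List.mem_cons.1 he with rfl | he'
    · left
      intro b b'
      rw [hg f (Ne.symm hef) b']
      have := hg' b
      omega
    · rcases List.mem_cons.1 hf with rfl | hf'
      · right
        intro b b'
        rw [hg e hef b]
        have := hg' b'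
        omega
      · have heg : e ≠ g := fun hh => h1.1 (hh ▸ he')
        have hfg : f ≠ g := fun hh => h1.1 (hh ▸ hf')
        rcases ih h1.2 he' hf' with h2 | h2
        · left
          intro b b'
          rw [hg e heg, hg f hfg]
          have := h2 b b'
          omega
        · right
          intro b b'
          rw [hg e heg, hg f hfg]
          have := h2 b b'
          omega

/-- the caps form blocks -/
lemma caps_blocks {E : Type} [DecidableEq E] (l : List E) (h : l.Nodup) :
    Blocks (Prod.fst : Dart E → E) (caps l) := by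
  intro a b c hs hac
  by_contra hb
  have hnd := nodup_caps l h
  have hma : a ∈ caps l := hs.subset (by simp)
  have hmb : b ∈ caps l := hs.subset (by simp)
  have hmc : c ∈ caps l := hs.subset (by simp)
  have h1 : ix (caps l) a < ix (caps l) b :=
    ix_lt _ a b hnd (List.Sublist.trans (by simp) hs)
  have h2 : ix (caps l) b < ix (caps l) c :=
    ix_lt _ b c hnd (List.Sublist.trans (List.sublist_cons_self a [b, c]) hs)
  rw [mem_caps] at hma hmb hmc
  rcases caps_sep l h b.1 a.1 hmb hma hb with h3 | h3
  · have := h3 b.2 a.2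
    have e1 : ((b.1, b.2) : Dart E) = b := rfl
    have e2 : ((a.1, a.2) : Dart E) = a := rfl
    rw [e1, e2] at this
    omega
  · have := h3 b.2 c.2
    have e1 : ((b.1, b.2) : Dart E) = b := rfl
    have e2 : ((a.1, c.2) : Dart E) = c := by rw [hac]
    rw [e1, e2] at this
    omega

/-! ## counting -/

lemma sum_ind {E : Type} [DecidableEq E] (A : List E) (hA : A.Nodup) (x : E) :
    (A.map fun e => if e = x then (1 : ZMod 2) else 0).sum = if x ∈ A then 1 else 0 := by
  induction A with
  | nil => simp
  | cons a A ih =>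
    have h := List.nodup_cons.1 hA
    rw [List.map_cons, List.sum_cons, ih h.2]
    by_cases hx : a = x
    · subst hx
      simp [h.1]
    · have hx' : x ≠ a := fun h => hx h.symm
      simp [hx, hx']

lemma sum_left {E : Type} (B : List E) (u : ZMod 2) (h : E → ZMod 2) :
    (B.map fun f => u * h f).sum = u * (B.map h).sum := by
  induction B with
  | nil => simp
  | cons b B ih => rw [List.map_cons, List.sum_cons, List.map_cons, List.sum_cons, ih, mul_add]

lemma sum_prod {E : Type} (A B : List E) (g h : E → ZMod 2) :
    (A.map fun e => (B.map fun f => g e * h f).sum).sum = (A.map g).sum * (B.map h).sum := by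
  induction A with
  | nil => simp
  | cons a A ih =>
    rw [List.map_cons, List.sum_cons, ih, List.map_cons, List.sum_cons, add_mul, sum_left]

lemma sum_add' {E : Type} (A : List E) (g h : E → ZMod 2) :
    (A.map fun e => g e + h e).sum = (A.map g).sum + (A.map h).sum := by
  induction A with
  | nil => simp
  | cons a A ih =>
    rw [List.map_cons, List.sum_cons, ih, List.map_cons, List.sum_cons, List.map_cons,
      List.sum_cons]
    ring

lemma par_cons {α : Type} [DecidableEq α] (y : α) (W : List α) (z : α) :
    par (y :: W) z = par W z + if y = z then 1 else 0 := by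
  unfold par
  rw [List.count_cons, Nat.cast_add]
  congr 1
  by_cases h : y = z
  · subst h; simp
  · have : (y == z) = false := by simpa using h
    rw [this]
    simp [h]

lemma count_eq {E : Type} [DecidableEq E] (A B : List E) (hA : A.Nodup) (hB : B.Nodup)
    (W : List (Dart E × Dart E)) :
    ((W.countP fun z => decide (z.1.1 ∈ A ∧ z.2.1 ∈ B) : ℕ) : ZMod 2) =
      (A.map fun e => (B.map fun f => ∑ b : Bool, ∑ b' : Bool,
        par W (((e, b), (f, b')) : Dart E × Dart E)).sum).sum := by
  induction W with
  | nil =>
    have : ∀ z : Dart E × Dart E, par ([] : List (Dart E × Dart E)) z = 0 := by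
      intro z; simp [par]
    simp [this]
  | cons z W ih =>
    rw [List.countP_cons, Nat.cast_add, ih]
    have h1 : ∀ e f : E, (∑ b : Bool, ∑ b' : Bool,
        par (z :: W) (((e, b), (f, b')) : Dart E × Dart E)) =
        (∑ b : Bool, ∑ b' : Bool, par W (((e, b), (f, b')) : Dart E × Dart E)) +
        (if e = z.1.1 then 1 else 0) * (if f = z.2.1 then 1 else 0) := by
      intro e f
      simp only [par_cons, Finset.sum_add_distrib]
      congr 1
      obtain ⟨⟨e', b₁⟩, ⟨f', b₂⟩⟩ := z
      by_cases he : e = e'
      · subst he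
        by_cases hf : f = f'
        · subst hf
          simp only [Fintype.sum_bool]
          cases b₁ <;> cases b₂ <;> simp
        · have hf' : f' ≠ f := fun h => hf h.symm
          simp [hf, hf']
      · have he' : e' ≠ e := fun h => he h.symm
        simp [he, he']
    simp only [h1, sum_add']
    rw [sum_prod, sum_ind A hA, sum_ind B hB]
    congr 1
    by_cases h2 : z.1.1 ∈ A <;> by_cases h3 : z.2.1 ∈ B <;> simp [h2, h3]

/-- every end of an edge of a cycle is a vertex of the cycle -/
lemma end_mem {V E : Type} {G : Gr V E} {c : List (Dart E)} (hc : IsCyc G c) {d : Dart E}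
    (hd : d ∈ c) (b : Bool) : ∃ d' ∈ c, G.vt d' = G.vt (d.1, b) := by
  by_cases hb : b = d.2
  · exact ⟨d, hd, by rw [hb]⟩
  · have hb' : b = !d.2 := by
      cases b <;> cases h : d.2 <;> simp_all
    have h1 : G.vt (rv d) ∈ (c.map G.vt).rotate 1 := by
      rw [← hc.cl]
      exact List.mem_map.2 ⟨d, hd, rfl⟩
    rw [List.mem_rotate] at h1
    obtain ⟨d', hd', h2⟩ := List.mem_map.1 h1
    refine ⟨d', hd', ?_⟩
    rw [h2, hb']
    rfl

end LKDM

open LKDM in
theorem specLKD (hREA : SpecREA) : SpecLKD := by
  classical
  intro V E _ _ G x l hx hl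
  -- the two lists
  obtain ⟨top, htop⟩ : ∃ top, top = caps G.X.toList := ⟨_, rfl⟩
  obtain ⟨bot, hbot⟩ : ∃ bot, bot = top.mergeSort (fun a b => decide (x (G.vt a) ≤ x (G.vt b))) :=
    ⟨_, rfl⟩
  have hsep := caps_sep G.X.toList (Finset.nodup_toList _)
  have hperm : bot.Perm top := by rw [hbot]; exact List.mergeSort_perm _ _
  have htn : top.Nodup := by rw [htop]; exact nodup_caps _ (Finset.nodup_toList _)
  have hbn : bot.Nodup := hperm.nodup_iff.2 htn
  have htm : ∀ d, d ∈ top ↔ d.1 ∈ G.X := by
    intro d
    rw [htop, mem_caps, Finset.mem_toList]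
  have hbm : ∀ d, d ∈ bot ↔ d.1 ∈ G.X := by
    intro d
    rw [hperm.mem_iff, htm]
  have hsort : bot.Pairwise fun a b => x (G.vt a) ≤ x (G.vt b) := by
    have := List.pairwise_mergeSort (le := fun a b => decide (x (G.vt a) ≤ x (G.vt b)))
      (by
        intro a b c h1 h2
        simp only [decide_eq_true_eq] at h1 h2 ⊢
        exact le_trans h1 h2)
      (by
        intro a b
        simp only [Bool.or_eq_true, decide_eq_true_eq]
        exact le_total _ _) top
    rw [← hbot] at this
    refine this.imp ?_
    intro a b h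
    simpa using h
  have hbb : Blocks G.vt bot := by
    intro a b c hs hac
    have h1 := hsort.sublist hs
    rw [List.pairwise_cons, List.pairwise_cons] at h1
    have h2 := h1.1 b (by simp)
    have h3 := h1.2.1 c (by simp)
    rw [← hac] at h3
    exact hx b a ((hbm b).1 (hs.subset (by simp))) ((hbm a).1 (hs.subset (by simp)))
      (le_antisymm h3 h2)
  have htt : Blocks (Prod.fst : Dart E → E) top := by
    rw [htop]
    exact caps_blocks _ (Finset.nodup_toList _)
  -- the parities
  obtain ⟨κ, hκ⟩ : ∃ κ : Dart E → Dart E → ZMod 2,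
      κ = fun s t => if s.2 = false ∧ t.2 = false then l s.1 t.1 else 0 := ⟨_, rfl⟩
  obtain ⟨a, ha⟩ : ∃ a : Dart E → Dart E → ZMod 2,
      a = fun s t => if ix top s < ix top t then κ s t else inv bot top s t + κ t s :=
    ⟨_, rfl⟩
  have hinv : ∀ s ∈ bot, ∀ t ∈ bot, s ≠ t → a s t + a t s = inv bot top s t := by
    intro s hs t ht hst
    have hs' := hperm.mem_iff.1 hs
    have ht' := hperm.mem_iff.1 ht
    have hne : ix top s ≠ ix top t := fun h => hst (ix_inj hs' h)
    rw [ha]
    simp only
    rcases lt_or_gt_of_ne hne with h | h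
    · rw [if_pos h, if_neg (not_lt.2 h.le), inv_comm bot top s t hs hs' hst]
      have := add_self (κ s t)
      linear_combination this
    · rw [if_neg (not_lt.2 h.le), if_pos h]
      have := add_self (κ t s)
      linear_combination this
  obtain ⟨W, hW, hpar⟩ := hREA bot top a hbn hperm hinv
  refine ⟨bot, W, top, ⟨hbm, ⟨hbn, hbb, htt, hW⟩⟩, ?_⟩
  have hxne : ∀ s ∈ bot, ∀ t ∈ bot, G.vt s ≠ G.vt t →
      (ix bot s < ix bot t ↔ x (G.vt s) < x (G.vt t)) := by
    intro s hs t ht hst
    exact ix_sorted (fun s => x (G.vt s)) bot hsort s t hs ht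
      (fun h => hst (hx s t ((hbm s).1 hs) ((hbm t).1 ht) h))
  have hsum : ∀ e ∈ G.X, ∀ f ∈ G.X, (∀ b b', G.vt (e, b) ≠ G.vt (f, b')) →
      ∑ b : Bool, ∑ b' : Bool, par W (((e, b), (f, b')) : Dart E × Dart E) = l e f := by
    intro e he f hf hdis
    have hef : e ≠ f := by
      rintro rfl
      exact hdis true true rfl
    have h1 : ∀ b b' : Bool, par W (((e, b), (f, b')) : Dart E × Dart E) = a (e, b) (f, b') := by
      intro b b'
      refine hpar (e, b) ((hbm _).2 he) (f, b') ((hbm _).2 hf) ?_
      intro h
      exact hef (Prod.mk.inj h).1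
    simp only [h1]
    rcases hsep e f (Finset.mem_toList.2 he) (Finset.mem_toList.2 hf) hef with h2 | h2
    · rw [← htop] at h2
      have h3 : ∀ b b' : Bool, a (e, b) (f, b') = κ (e, b) (f, b') := by
        intro b b'
        rw [ha]
        simp only
        rw [if_pos (h2 b b')]
      simp only [h3, hκ]
      simp
    · rw [← htop] at h2
      have h3 : ∀ b b' : Bool, a (e, b) (f, b') =
          (if x (G.vt (e, b)) < x (G.vt (f, b')) then 1 else 0) + κ (f, b') (e, b) := by
        intro b b'
        rw [ha]
        simp only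
        rw [if_neg (not_lt.2 (h2 b b').le), inv_ix, if_neg (not_lt.2 (h2 b b').le), add_zero]
        congr 1
        have := hxne (e, b) ((hbm _).2 he) (f, b') ((hbm _).2 hf) (hdis b b')
        simp only [this]
      simp only [h3, Finset.sum_add_distrib]
      have h4 : ∑ b : Bool, ∑ b' : Bool, κ (f, b') (e, b) = l f e := by
        simp only [hκ]
        simp
      rw [h4, ← hl e he f hf hdis]
      have := add_self (l f e)
      linear_combination this
  intro c c' hc hc' hdj
  unfold lk
  rw [count_eq (c.map Prod.fst) (c'.map Prod.fst) hc.nde hc'.nde]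
  rw [List.map_map]
  congr 1
  apply List.map_congr_left
  intro d hd
  simp only [Function.comp_apply]
  rw [List.map_map]
  congr 1
  apply List.map_congr_left
  intro d' hd'
  simp only [Function.comp_apply]
  refine hsum d.1 (hc.mem d hd) d'.1 (hc'.mem d' hd') ?_
  intro b b' h
  obtain ⟨y, hy, hy2⟩ := end_mem hc hd b
  obtain ⟨y', hy', hy2'⟩ := end_mem hc' hd' b'
  exact hdj y hy y' hy' (by rw [hy2, hy2', h])

end Pool.Agent.Lib.MP3ff0f8.T
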