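import Pool.Agent.Lib.MP_3ff0f8_gt.T.Defs

/-!
# MP_3ff0f8_gt, topological half: the modules

Module `XXX` = file `T/XXX.lean`, theorem `specXXX (hYYY : SpecYYY) … : SpecXXX`, own lemmas in the
namespace `Pool.Agent.Lib.MP3ff0f8.T.XXXM`.  Hypotheses may be any other Specs listed in the
docstring (before it in the order of this file).
-/

namespace Pool.Agent.Lib.MP3ff0f8.T

open Finset

/-! ## A. Words -/

/-- **PSU** (90 lines).  Pair sums.  `rev`: `ps (A ++ A.reverse) = ps A + ps A.reverse + cr A
A.reverse`; `ps A + ps A.reverse` is the sum of `g z w` over all pairs of different positions of `A`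
and `cr A A.reverse = cr A A` is the sum over all pairs of positions; the diagonal vanishes.
`ins` from `app`, `crl`, `crr` (`cr A B = cr B C = 0` if `par B = 0`).  `crl`: `cr g A B` is
`∑ z ∈ (A ++ A').toFinset, par A z * (B.map (g z)).sum`. -/
structure SpecPSU : Prop where
  app : ∀ {α : Type} (g : α → α → ZMod 2) (A B : List α), ps g (A ++ B) = ps g A + ps g B + cr g A B
  crl : ∀ {α : Type} [DecidableEq α] (g : α → α → ZMod 2) (A A' B : List α),
    (∀ z, par A z = par A' z) → cr g A B = cr g A' B
  crr : ∀ {α : Type} [DecidableEq α] (g : α → α → ZMod 2) (A B B' : List α),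
    (∀ z, par B z = par B' z) → cr g A B = cr g A B'
  rev : ∀ {α : Type} (g : α → α → ZMod 2), (∀ z, g z z = 0) → ∀ A : List α, ps g (A ++ A.reverse) = 0
  rvs : ∀ {α : Type} (g : α → α → ZMod 2) (A : List α), ps g A.reverse = ps (fun z w => g w z) A
  ins : ∀ {α : Type} [DecidableEq α] (g : α → α → ZMod 2) (A B C : List α),
    (∀ z, par B z = 0) → ps g (A ++ B ++ C) = ps g (A ++ C) + ps g B
  pre : ∀ {α : Type} (g : α → α → ZMod 2) (A B : List α),
    (∀ z ∈ A, ∀ w ∈ A ++ B, g z w = 0) → ps g (A ++ B) = ps g B
  suf : ∀ {α : Type} (g : α → α → ZMod 2) (A B : List α),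
    (∀ z ∈ A ++ B, ∀ w ∈ B, g z w = 0) → ps g (A ++ B) = ps g A
  fil : ∀ {α : Type} (g : α → α → ZMod 2) (p : α → Bool) (W : List α),
    (∀ z ∈ W, ∀ w ∈ W, p z = false ∨ p w = false → g z w = 0) → ps g (W.filter p) = ps g W
  cgr : ∀ {α : Type} (g g' : α → α → ZMod 2) (W : List α),
    (∀ z ∈ W, ∀ w ∈ W, g z w = g' z w) → ps g W = ps g' W
  map : ∀ {α β : Type} (g : β → β → ZMod 2) (f : α → β) (W : List α),
    ps g (W.map f) = ps (fun a b => g (f a) (f b)) W
  ixs : ∀ {α : Type} (g : α → α → ZMod 2) (W : List α),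
    ps g W = ∑ k : Fin W.length, ∑ l : Fin W.length, if k < l then g (W.get k) (W.get l) else 0

/-- **RUN** (200 lines).  Elementary properties of runs, by induction on `Run`.  `pari`: an event
with other strands does not change the relative order of `s` and `t`.  `exch`: the strands of `P` pass
over those of `Q` (induction; `P` and `Q` arbitrary lists), `exch'`: under. -/
structure SpecRUN : Prop where
  trans : ∀ {S : Type} {L L' L'' : List S} {W W' : List (S × S)},
    Run L W L' → Run L' W' L'' → Run L (W ++ W') L''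
  rev : ∀ {S : Type} {L L' : List S} {W : List (S × S)}, Run L W L' → Run L' W.reverse L
  perm : ∀ {S : Type} {L L' : List S} {W : List (S × S)}, Run L W L' → L.Perm L'
  ctx : ∀ {S : Type} {L L' : List S} {W : List (S × S)} (A B : List S),
    Run L W L' → Run (A ++ L ++ B) W (A ++ L' ++ B)
  mir : ∀ {S : Type} {L L' : List S} {W : List (S × S)}, Run L W L' → Run L.reverse W L'.reverse
  filt : ∀ {S : Type} {L L' : List S} {W : List (S × S)} (P : S → Bool), Run L W L' →
    Run (L.filter P) (W.filter fun z => P z.1 && P z.2) (L'.filter P)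
  map : ∀ {S S' : Type} {L L' : List S} {W : List (S × S)} (f : S → S'), Run L W L' →
    Run (L.map f) (W.map (Prod.map f f)) (L'.map f)
  mem : ∀ {S : Type} {L L' : List S} {W : List (S × S)}, L.Nodup → Run L W L' →
    ∀ z ∈ W, z.1 ∈ L ∧ z.2 ∈ L ∧ z.1 ≠ z.2
  pari : ∀ {S : Type} [DecidableEq S] {L L' : List S} {W : List (S × S)}, L.Nodup → Run L W L' →
    ∀ s ∈ L, ∀ t ∈ L, s ≠ t → par W (s, t) + par W (t, s) = inv L L' s t
  split : ∀ {S : Type} {L L' : List S} {W₁ W₂ : List (S × S)} {z : S × S},
    Run L (W₁ ++ z :: W₂) L' → ∃ (A B : List S) (s t : S), Run L W₁ (A ++ s :: t :: B) ∧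
      Run (A ++ t :: s :: B) W₂ L' ∧ (z = (s, t) ∨ z = (t, s))
  appr : ∀ {S : Type} {L L' : List S} {W₁ W₂ : List (S × S)}, Run L (W₁ ++ W₂) L' →
    ∃ M, Run L W₁ M ∧ Run M W₂ L'
  exi : ∀ {S : Type} {L L' : List S}, L.Perm L' → ∃ W, Run L W L'
  exch : ∀ {S : Type} (P Q : List S), ∃ W, Run (P ++ Q) W (Q ++ P) ∧ ∀ z ∈ W, z.1 ∈ P ∧ z.2 ∈ Q
  exch' : ∀ {S : Type} (P Q : List S), ∃ W, Run (P ++ Q) W (Q ++ P) ∧ ∀ z ∈ W, z.1 ∈ Q ∧ z.2 ∈ P

/-- **BLK** (100 lines).  Contiguous blocks. -/
structure SpecBLK : Prop where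
  fil : ∀ {S β : Type} (f : S → β) (p : S → Bool) (L : List S), Blocks f L → Blocks f (L.filter p)
  sub : ∀ {S β : Type} (f : S → β) (L L' : List S), L'.Sublist L → Blocks f L → Blocks f L'
  dec : ∀ {S β : Type} [DecidableEq β] (f : S → β) (L : List S), Blocks f L → ∀ v : β,
    ∃ L₁ L₂, L = L₁ ++ L.filter (fun x => f x = v) ++ L₂ ∧ (∀ x ∈ L₁, f x ≠ v) ∧ ∀ x ∈ L₂, f x ≠ v
  one : ∀ {S β : Type} (f : S → β) (P : List S) (v : β), (∀ x ∈ P, f x = v) → Blocks f P
  app : ∀ {S β : Type} (f : S → β) (A B : List S), Blocks f A → Blocks f B →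
    (∀ x ∈ A, ∀ y ∈ B, f x ≠ f y) → Blocks f (A ++ B)
  ins : ∀ {S β : Type} (f : S → β) (A P B : List S) (v : β), Blocks f (A ++ B) →
    (∀ x ∈ A, ∀ y ∈ B, f x ≠ f y) → (∀ x ∈ P, f x = v) → (∀ x ∈ A, f x ≠ v) → (∀ x ∈ B, f x ≠ v) →
    Blocks f (A ++ P ++ B)
  rev : ∀ {S β : Type} (f : S → β) (L : List S), Blocks f L → Blocks f L.reverse
  map : ∀ {S S' β : Type} (f : S' → β) (g : S → S') (L : List S),
    Blocks (fun x => f (g x)) L → Blocks f (L.map g)
  cgr : ∀ {S β γ : Type} (f : S → β) (g : S → γ) (L : List S), Blocks f L →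
    (∀ x ∈ L, ∀ y ∈ L, f x = f y ↔ g x = g y) → Blocks g L
  adj : ∀ {S β : Type} (f : S → β) (L : List S) (s t : S), L.Nodup → Blocks f L → s ∈ L → t ∈ L →
    s ≠ t → f s = f t → (∀ x ∈ L, f x = f s → x = s ∨ x = t) →
    ∃ A B, L = A ++ s :: t :: B ∨ L = A ++ t :: s :: B

/-- **REA** (from PSU?, RUN; 120 lines).  All parities are realised.  Take any run `W₀` from `L` to
`L'` (`exi`).  By `pari` the set of the pairs `s, t` with `par W₀ (s, t) ≠ a s t` is symmetric.
Correct one pair after the other (induction on the number of bad pairs): for `s ≠ t ∈ L` choose a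
list `A ++ s :: t :: B` which is a permutation of `L`, a run `w` from `L` to it, and replace `W` by
`w ++ [(s, t), (t, s)] ++ w.reverse ++ W`: this changes `par (s, t)` and `par (t, s)` by `1` and
nothing else. -/
def SpecREA : Prop := ∀ {S : Type} [DecidableEq S] (L L' : List S) (a : S → S → ZMod 2),
  L.Nodup → L.Perm L' → (∀ s ∈ L, ∀ t ∈ L, s ≠ t → a s t + a t s = inv L L' s t) →
  ∃ W, Run L W L' ∧ ∀ s ∈ L, ∀ t ∈ L, s ≠ t → par W (s, t) = a s t

/-- **HAL** (from PSU, RUN, BLK; 300 lines).  Moving the base point of a closed curve over half an edge.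
Write `q = acv l`, `q₁ = q.rotate 1`, `a` = the first strand of `q` (traversed upwards).  First restrict
everything to the strands on `q` (`filt`, `fil`; `bet` vanishes if one of the four strands is not on the
curve).  For a strand `u ≠ a` of `q` let `M = {p : 0 < idx p < idx u}`, `Λ₋ = M ∪ {u if u is
traversed upwards}`, `Λ₊ = M ∪ {a} ∪ {u if u is traversed downwards}`.
(1) Pointwise (checked numerically for all cases): for events `z`, `w` (`z.1 ≠ z.2`, `w.1 ≠ w.2`) on `q`
 `bet q z w + bet q₁ z w = [z.1 = a] ([w.1 ∈ Λ₊(z.2)] + [w.2 ∈ Λ₊(z.2)])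
    + [w.1 = a] ([z.1 ∈ Λ₋(w.2)] + [z.2 ∈ Λ₋(w.2)])`.
(`idx q₁ p = idx q p - 1` for `p ≠ a`, `idx q₁ a = n - 1`; case distinction and `omega`.)
(2) Hence `AW q W + AW q₁ W` is the sum over the positions `W = W₁ ++ x :: W₂` with `x = (a, u)` of
 `I(x) = ∑_{y ∈ W₁} ([y.1 ∈ Λ₋] + [y.2 ∈ Λ₋]) + ∑_{y ∈ W₂} ([y.1 ∈ Λ₊] + [y.2 ∈ Λ₊])`, `Λ± = Λ±(u)`.
(3) For a set `Λ` of strands and a list `L` let `N(Λ; L)` be the number mod 2 of the pairs `p ∈ Λ`,
`r ∉ Λ`, `p` before `r` in `L`.  Along a run from `L` to `L'` with word `Y` one has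
`∑_{y ∈ Y} ([y.1 ∈ Λ] + [y.2 ∈ Λ]) = N(Λ; L) + N(Λ; L')` (the exchange of adjacent entries).
(4) `N(Λ₋; bot) = 0` as `Λ₋` is a union of pairs (`x.2` of an entry of `l`, `x.1` of the next one) which
are adjacent in `bot` restricted to `q` (same value of `bk`, `Blocks`, each value of `bk` occurs for
exactly one such pair); all other strands also form such pairs; so for every pair outside and every
pair inside the contribution is `0`, `2` or `4`.  Similarly `N(Λ₊; top) = 0` (`Λ₊` is a union of
entries `{x.1, x.2}` of `l`).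
(5) If `x` exchanges `a` and `u`, `L⁻ = … a u …` or `… u a …`, `L⁺` the exchanged list, then
`N(Λ₋; L⁻) = N(Λ₊; L⁺)`: if `u` goes upwards then `u ∈ Λ₋`, `a ∉ Λ₋`, `a ∈ Λ₊`, `u ∉ Λ₊` and the
positions of the two sets agree; if `u` goes downwards, `a, u ∉ Λ₋` and `a, u ∈ Λ₊`, and the two
adjacent strands `a`, `u` contribute even numbers.
(6) So `I(x) = N(Λ₋; bot) + N(Λ₋; L⁻) + N(Λ₊; L⁺) + N(Λ₊; top) = 0`. -/
def SpecHAL : Prop := ∀ {S β γ : Type} [DecidableEq S] (bk : S → β) (tk : S → γ)
  (bot : List S) (W : List (S × S)) (top : List S) (l : List (S × S)),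
  ADia bk tk bot W top → ACyc bk tk l → (∀ x ∈ l, x.1 ∈ bot ∧ x.2 ∈ bot) →
  AW ((acv l).rotate 1) W = AW (acv l) W

/-- **CYC** (120 lines).  Cycles.  `same`: rotate `c'` so that it starts with a dart `d'` whose edge is
that of the first dart `d` of `c` (rotated), `d' = d` or `d' = rv d`; replace `c` by `rvc c` in the
second case; then the next vertex is the same, and the next edge is the other edge of the common edge
set at this vertex (`two`), and so on.  `two`: the darts of edges of `c` which start at the start of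
the first dart are only the first dart and the reversed last dart. -/
structure SpecCYC : Prop where
  rot : ∀ {V E : Type} {G : Gr V E} {c : List (Dart E)} (k : ℕ), IsCyc G c → IsCyc G (c.rotate k)
  rev : ∀ {V E : Type} {G : Gr V E} {c : List (Dart E)}, IsCyc G c → IsCyc G (rvc c)
  two : ∀ {V E : Type} {G : Gr V E} {c : List (Dart E)} {d l : Dart E}, IsCyc G c →
    c.head? = some d → c.getLast? = some l →
    (G.vt (rv l) = G.vt d ∧ ∀ x : Dart E, x.1 ∈ c.map Prod.fst → G.vt x = G.vt d → x = d ∨ x = rv l)
  same : ∀ {V E : Type} {G : Gr V E} {c c' : List (Dart E)}, IsCyc G c → IsCyc G c' →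
    (∀ e, e ∈ c.map Prod.fst ↔ e ∈ c'.map Prod.fst) → c'.IsRotated c ∨ c'.IsRotated (rvc c)
  res : ∀ {V E : Type} {G : Gr V E} {Y : Finset E} {c : List (Dart E)}, Y ⊆ G.X →
    (IsCyc (G.res Y) c ↔ IsCyc G c ∧ ∀ d ∈ c, d.1 ∈ Y)
  cvnd : ∀ {V E : Type} {G : Gr V E} {c : List (Dart E)}, IsCyc G c → ((cv c).map Prod.fst).Nodup
  on : ∀ {E : Type} [DecidableEq E] {c : List (Dart E)} (s : Dart E),
    on (cv c) s ↔ s.1 ∈ c.map Prod.fst
  up : ∀ {E : Type} {c : List (Dart E)} (s : Dart E), (s, true) ∈ cv c ↔ s ∈ c
  dn : ∀ {E : Type} {c : List (Dart E)} (s : Dart E), (s, false) ∈ cv c ↔ rv s ∈ c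
  acyc : ∀ {V E : Type} {G : Gr V E} {c : List (Dart E)}, IsCyc G c →
    ACyc G.vt Prod.fst (c.map fun d => (d, rv d)) ∧ acv (c.map fun d => (d, rv d)) = cv c

/-- **BAS** (from HAL, CYC, PSU, RUN; 150 lines).  Invariance under change of base point and
reversal.  `flip`: `bet (flp q) w z = bet q z w` (the two patterns of `bet` are exchanged, as `l01`,
`l10` are), and `rvs`.  `rev`: for a curve without repeated strand, `l01` for the reversed curve
with changed flags is `l01' p r ↔ l10 q r p` and `l10' p r ↔ l01 q r p` (on the curve), and again the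
two patterns are exchanged.  `rot`: one half step is HAL; for the second half step use HAL for the
reversed diagram: `bot` and `top`, `bk` and `tk` exchanged, `W.reverse`, and the curve `flp ((acv
l).rotate 1) = acv l'` with `l'` = the pairs (`x.2` of an entry of `l`, `x.1` of the next entry), with
`flip`.  `top`: the same for the curve based at a cap.  `neg`: `cv (rvc c) = (flp (cv c)).reverse`. -/
structure SpecBAS : Prop where
  flip : ∀ {S : Type} [DecidableEq S] (q : List (S × Bool)) (W : List (S × S)),
    AW (flp q) W.reverse = AW q W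
  rev : ∀ {S : Type} [DecidableEq S] (q : List (S × Bool)) (W : List (S × S)),
    (q.map Prod.fst).Nodup → AW (flp q).reverse W = AW q W
  rot : ∀ {V E : Type} [DecidableEq E] {G : Gr V E} {bot top : List (Dart E)}
    {W : List (Dart E × Dart E)} {c : List (Dart E)}, IsDia G bot W top → IsCyc G c →
    ∀ k, AW ((cv c).rotate k) W = AW (cv c) W
  cyr : ∀ {V E : Type} [DecidableEq E] {G : Gr V E} {bot top : List (Dart E)}
    {W : List (Dart E × Dart E)} {c c' : List (Dart E)}, IsDia G bot W top → IsCyc G c →
    c'.IsRotated c → AW (cv c') W = AW (cv c) W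
  neg : ∀ {V E : Type} [DecidableEq E] {G : Gr V E} {c : List (Dart E)}
    (W : List (Dart E × Dart E)), IsCyc G c → AW (cv (rvc c)) W = AW (cv c) W
  same : ∀ {V E : Type} [DecidableEq E] {G : Gr V E} {bot top : List (Dart E)}
    {W : List (Dart E × Dart E)} {c c' : List (Dart E)}, IsDia G bot W top → IsCyc G c →
    IsCyc G c' → (∀ e, e ∈ c.map Prod.fst ↔ e ∈ c'.map Prod.fst) → AW (cv c') W = AW (cv c) W

/-- **LOC** (from PSU, RUN; 200 lines).  Closed runs with all parities even.  Let `N(x, y)` be the
number mod 2 of pairs of positions `k < l` of `U` with `U[k] = x`, `U[l] = y`; then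
`AW q U = ∑_{x, y} bet q x y * N(x, y)` (sum over the events on strands of `L`).  As all numbers of
occurrences are even, `N(x, y) = N(y, x)` for `x ≠ y`.  `bet q x x = 0`.  Put
`γ q x y = bet q x y + bet q y x`.
(a) `x`, `y` without common strand: `bet q x y = bet q y x` (`γ = 0`): no contribution.
(b) `x = (s, t)`, `y = (t, s)`: `γ q x y = coh q s t` if `s`, `t` are on `q`; contributes `μ s t *
coh q s t`, `μ s t = N((s, t), (t, s))` (take `s` before `t` in `L`).
(c) `x`, `y` with exactly one common strand, so contained in a triple `s, t, u` (in the order of `L`):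
(c1) for every `x = (o, v)` and every third strand `w`: `∑_y N(x, y) = 0`, the sum over the four events
`y ∈ {(o, w), (w, o), (v, w), (w, v)}`: for each position `k` with `U[k] = x`, `x` exchanges the
adjacent strands `o`, `v`, so `w` is on the same side of both, and the number mod 2 of later events
exchanging `w` with `o` or `v` is (by `pari` for the rest of the word) `[w before o at the end] + [w
before v at the end]`, independent of `k`; the number of the `k` is even.
(c2) finite check (`decide`, 48 curves on three strands; `γ` depends only on which of the three strands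
is the middle one on `q`): for `q` containing `s, t, u` there is a function `c` on the six events on
`{s, t, u}` with `γ q x y = γ [(s, true), (t, true), (u, true)] x y + c x + c y` for all `x`, `y` with
exactly one common strand.  (If the middle strand is `t`, `c = 0`; if it is `u`, `c` is the indicator of
the events with over strand `s`; if it is `s`, `c` is the indicator of the events with over strand `u`.)
Hence the contribution of the triple is `κ s t u = ∑ γ [(s, true), (t, true), (u, true)] x y * N(x,
y)` (sum over the twelve unordered pairs) if `s, t, u` are all on `q`, and `0` otherwise. -/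
def SpecLOC : Prop := ∀ {S : Type} [DecidableEq S] (L : List S) (U : List (S × S)), L.Nodup →
  Run L U L → (∀ z, par U z = 0) →
  ∃ (κ : S → S → S → ZMod 2) (μ : S → S → ZMod 2), ∀ q : List (S × Bool), (q.map Prod.fst).Nodup →
    AW q U = (∑ s ∈ L.toFinset, ∑ t ∈ L.toFinset, ∑ u ∈ L.toFinset,
        κ s t u * (ion q s * ion q t * ion q u)) +
      ∑ s ∈ L.toFinset, ∑ t ∈ L.toFinset, μ s t * coh q s t

/-- **CFI** (from LOC, PSU, RUN, CYC; 80 lines).  Two diagrams with the same ends and parities differ
by an element of `F(G)`: `U = W'.reverse ++ W` is a run from `top` to `top` with even parities and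
`AW q U = AW q W + AW q W'` (`app`, `crl`, `rev`).  For `q = cv c`: `ion q s = xe s.1 c`,
`coh q s t = cc s t c`. -/
def SpecCFI : Prop := ∀ {V E : Type} [DecidableEq E] {G : Gr V E} {bot top : List (Dart E)}
  {W W' : List (Dart E × Dart E)}, IsDia G bot W top → IsDia G bot W' top →
  (∀ z, par W z = par W' z) →
  ∃ F ∈ FF G, ∀ c, IsCyc G c → AW (cv c) W = AW (cv c) W' + F c

/-- **GAD** (from PSU, RUN, CYC; 200 lines).  If `G` has no loops and the values of a diagram are in
`F(G)`, they can be made zero.  If `g` is a word with even parities, `Run (s :: t :: u :: B) g (s :: t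
:: u :: B)`, and `w` a run from `bot` to `s :: t :: u :: B`, then `w ++ g ++ w.reverse ++ W` is a
diagram with the same ends and `AW q` increases by `AW q g` (`ins`, `rev`).
`g = [(s,t),(t,s),(t,u),(u,t),(t,s),(s,t),(u,t),(t,u)]` has `AW q g = 1` if `s, t, u` are on `q`, and
`0` otherwise (48 + a few cases, `decide`-like: only the relative order and the flags matter).
`g = [(s,t),(t,s),(s,t),(t,s)]` has `AW q g = coh q s t`.  So one can add `xe e * xe f * xe h` for
distinct `e, f, h` (strands `(e, false)`, …), `xe e * xe f` for `e ≠ f` (strands `(e, false)`, `(e, true)`,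
`(f, false)`), and `cc s t` for `s ≠ t`; `xe e` for one edge `e`: as `G` has no loops, for a cycle
through `e` exactly one other edge of the cycle is incident with `v = vt (e, false)` so
`xe e = ∑ xe e * xe f` over the darts `(f, b)` at `v`, `f ≠ e` (on cycles); `cc s s = xe s.1`,
`cc s (rv s) = 0`.  `Submodule.span_induction` for the statement: for every diagram with the given
ends there is another one with the same ends and `AW` increased by `F`. -/
def SpecGAD : Prop := ∀ {V E : Type} [DecidableEq V] [DecidableEq E] {G : Gr V E}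
  {bot top : List (Dart E)} {W : List (Dart E × Dart E)}, Loopless G → IsDia G bot W top →
  InF G (fun c => AW (cv c) W) → Good G

/-! ## B. Moves -/

/-- the two words have the same Polyak-Viro numbers and linking numbers mod 2 -/
def Eqv {V E : Type} [DecidableEq E] (G : Gr V E) (W W' : List (Dart E × Dart E)) : Prop :=
  (∀ c, IsCyc G c → AW (cv c) W' = AW (cv c) W) ∧
  ∀ c c', IsCyc G c → IsCyc G c' → Dj G c c' → lk W' c c' = lk W c c'

/-- **PRE** (from PSU, RUN, CYC, BAS; 120 lines).  `bot`: an event `z` before all others whose under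
strand is at `v`: for a cycle `c` through `v`, take the base point at `v` (`cyr`): then the under strand is the
first or the last strand of `cv c` (`two`) and `bet (cv c) z w = 0` for all `w` (both patterns are
impossible).  If `c` does not pass `v`, `z.2` is not on `cv c`.  `top`: the dual statement, with the base point
at the cap of `e` (`(cv c).rotate 1`, `rot`), where `bet q w z = 0` for all `w`. -/
structure SpecPRE : Prop where
  bot : ∀ {V E : Type} [DecidableEq E] {G : Gr V E} {bot bot' top : List (Dart E)}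
    {U W : List (Dart E × Dart E)} {v : V}, IsDia G bot W top → IsDia G bot' (U ++ W) top →
    (∀ z ∈ U, G.vt z.2 = v) → ∀ c, IsCyc G c → AW (cv c) (U ++ W) = AW (cv c) W
  top : ∀ {V E : Type} [DecidableEq E] {G : Gr V E} {bot top top' : List (Dart E)}
    {U W : List (Dart E × Dart E)} {e : E}, IsDia G bot W top → IsDia G bot (W ++ U) top' →
    (∀ z ∈ U, z.2.1 = e) → ∀ c, IsCyc G c → AW (cv c) (W ++ U) = AW (cv c) W

/-- **FRT** (from PSU, RUN, BLK, CYC, PRE; 200 lines).  A block can be moved to the front or to the end of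
`bot`, in any internal order, and a cap to the front of `top`.  `bot = L₁ ++ P₀ ++ L₂` with `P₀` the
block of `v` (if there is no strand at `v` there is nothing to do).  `U` = (a run from `P` to `P₀`) followed
by (`P₀` passes under `L₁`, `exch'`): all under strands are at `v`; PRE gives the values `AW`.
`lk`: for disjoint cycles, the events inside the block do not count; for `s ∉ P₀` the parity of the
events `(s, p)` in `U` is the same for all `p ∈ P₀` (by `pari`; `(p, s)` does not occur), and a cycle has
`0` or `2` strands at `v`.  The front of `top` in the same way, time reversed.  The end: mirror (`mir`,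
or directly). -/
structure SpecFRT : Prop where
  fr : ∀ {V E : Type} [DecidableEq V] [DecidableEq E] {G : Gr V E} {bot top : List (Dart E)}
    {W : List (Dart E × Dart E)}, IsDia G bot W top → ∀ (v : V) (P : List (Dart E)),
    P.Perm (bot.filter fun x => G.vt x = v) →
    ∃ U, IsDia G (P ++ bot.filter fun x => G.vt x ≠ v) (U ++ W) top ∧ Eqv G W (U ++ W) ∧
      ∀ z ∈ U, G.vt z.2 = v
  la : ∀ {V E : Type} [DecidableEq V] [DecidableEq E] {G : Gr V E} {bot top : List (Dart E)}
    {W : List (Dart E × Dart E)}, IsDia G bot W top → ∀ (v : V) (P : List (Dart E)),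
    P.Perm (bot.filter fun x => G.vt x = v) →
    ∃ U, IsDia G ((bot.filter fun x => G.vt x ≠ v) ++ P) (U ++ W) top ∧ Eqv G W (U ++ W) ∧
      ∀ z ∈ U, G.vt z.2 = v
  tp : ∀ {V E : Type} [DecidableEq E] {G : Gr V E} {bot top : List (Dart E)}
    {W : List (Dart E × Dart E)}, IsDia G bot W top → ∀ d : Dart E, d.1 ∈ G.X →
    ∃ U, IsDia G bot (W ++ U) (d :: rv d :: top.filter fun x => x.1 ≠ d.1) ∧ Eqv G W (W ++ U) ∧
      ∀ z ∈ U, z.2.1 = d.1

/-- **RNG** (from PSU, RUN, BLK, CYC, BAS, PRE, FRT; 250 lines).  Changing parities without changing the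
values.  `ring`: the strand `t` goes around the block of `v ≠ vt t`.  By FRT (twice) there is a run `U₁ =
U_b ++ U_a` from `bot₁ = (block of t, t last) ++ (block of v) ++ rest` to `bot`, where the under strands
of `U_a` are at `v` (block of `v` to the front) and those of `U_b` at `vt t`.  Let `s₁ … s_m` be the block of `v`,
`R = [(t, s₁), …, (t, s_m), (s_m, t), …, (s₁, t)]`, a run from `bot₁` to `bot₁`.  Take
`W' = U₁.reverse ++ R ++ U₁ ++ W`.  Claims: the values do not change under prepending `R` to `U₁ ++
W`, and under prepending `U_a.reverse` or `U_b.reverse` (PRE).  For `R`: let `c` pass `v` and contain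
`t` (otherwise clear); take the base point at `vt t`, so that `t` is the first or the last strand of `q = cv c`.
Exactly two strands `s`, `s'` of the block are on `q`, `s` traversed downwards, immediately followed by `s'`
upwards.  Events with under strand `t` have `bet q z w = 0`.  `bet q (t, s) w = bet q (t, s') w` for all
`w ∉ R` (`s` and `s'` are adjacent on `q` and the vertex is between them at the lowest level), and the
pairs inside `R` contribute `0` (checked numerically, for both orders of `s`, `s'` in the block).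
`lk`: the two strands of a cycle at `v` contribute together an even number; `U₁.reverse ++ R ++ U₁` has
the parities of `R`.
`clasp`, same vertex `v`: by FRT there is a run `U` from `bot₁ = (block of v, ending with s, t) ++ rest` to
`bot` whose under strands are at `v`; `W' = U.reverse ++ [(s,t),(t,s)] ++ U ++ W`, PRE (all under strands
at `v`).  Same edge (`t = rv s`): at the top, `W' = W ++ U ++ [(s,t),(t,s)] ++ U.reverse`. -/
structure SpecRNG : Prop where
  ring : ∀ {V E : Type} [DecidableEq V] [DecidableEq E] {G : Gr V E} {bot top : List (Dart E)}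
    {W : List (Dart E × Dart E)}, IsDia G bot W top → ∀ t ∈ bot, ∀ v, G.vt t ≠ v →
    ∃ W', IsDia G bot W' top ∧ Eqv G W W' ∧ ∀ z : Dart E × Dart E, par W' z = par W z +
      (if (z.1 = t ∧ z.2 ∈ bot ∧ G.vt z.2 = v) ∨ (z.2 = t ∧ z.1 ∈ bot ∧ G.vt z.1 = v) then 1 else 0)
  clasp : ∀ {V E : Type} [DecidableEq V] [DecidableEq E] {G : Gr V E} {bot top : List (Dart E)}
    {W : List (Dart E × Dart E)}, IsDia G bot W top → ∀ s ∈ bot, ∀ t ∈ bot, s ≠ t →
    (G.vt s = G.vt t ∨ s.1 = t.1) →
    ∃ W', IsDia G bot W' top ∧ Eqv G W W' ∧ ∀ z : Dart E × Dart E, par W' z = par W z +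
      (if z = (s, t) ∨ z = (t, s) then 1 else 0)

/-- **NRM** (from PSU, RUN, BLK, REA, CFI, FRT, RNG; 250 lines).  Normal form of a diagram at an edge (dart
`d` from `p` to `p'`, `p ≠ p'`).  (1) FRT: `bot₁ = P ++ d :: rv d :: Q ++ R` (`P ++ [d]` = block of `p`,
`rv d :: Q` = block of `p'`), `top₁ = d :: rv d :: R'`.  (2) RNG: all parities `(d, s)`, `(rv d, s)`,
`s ≠ d, rv d`, and `(d, rv d)` can be made `0`: `(d, s)` for `vt s ≠ p` by the ring of `s` around `p`, for
`vt s = p` by the clasp of `s`, `d`; `(rv d, s)` for `vt s ≠ p'` by the ring of `s` around `p'`, for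
`vt s = p'` by the clasp of `s`, `rv d`; these moves change `(d, x)` or `(rv d, x)` only for
`x = s`; `(d, rv d)` by the clasp of `d`, `rv d` (same edge).  Then by `pari` `(s, d)` and `(s, rv d)` have the
parity `1` for `s ∈ P` and `0` for the other `s`, and `(rv d, d)` has parity `0`.
(3) `U` = the explicit run `[(s, d), (s, rv d) for s ∈ P.reverse]` from `bot₁` to
`d :: rv d :: (P ++ Q ++ R)`; REA gives `W₃` from `P ++ Q ++ R` to `R'` with the parities of the
diagram obtained in (2) (restricted to the other strands: `pari`, `inv` does not change when other entries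
are removed).  `U ++ W₃` has the same parities, so CFI applies. -/
def SpecNRM : Prop := ∀ {V E : Type} [DecidableEq V] [DecidableEq E] {G : Gr V E}
  {bot top : List (Dart E)} {W : List (Dart E × Dart E)}, IsDia G bot W top →
  ∀ d : Dart E, d.1 ∈ G.X → G.vt d ≠ G.vt (rv d) →
  ∃ P Q R R' : List (Dart E), ∃ U W₃ : List (Dart E × Dart E),
    (∀ x ∈ P, G.vt x = G.vt d) ∧ (∀ x ∈ Q, G.vt x = G.vt (rv d)) ∧
    (∀ x ∈ R, G.vt x ≠ G.vt d ∧ G.vt x ≠ G.vt (rv d)) ∧
    (∀ z ∈ U, z.1 ∈ P ∧ (z.2 = d ∨ z.2 = rv d)) ∧
    Run (P ++ d :: rv d :: (Q ++ R)) U (d :: rv d :: (P ++ Q ++ R)) ∧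
    Run (P ++ Q ++ R) W₃ R' ∧
    IsDia G (P ++ d :: rv d :: (Q ++ R)) (U ++ W₃) (d :: rv d :: R') ∧
    (∃ F ∈ FF G, ∀ c, IsCyc G c → AW (cv c) (U ++ W₃) = AW (cv c) W + F c) ∧
    ∀ c c', IsCyc G c → IsCyc G c' → Dj G c c' → lk (U ++ W₃) c c' = lk W c c'

/-- **CON** (from NRM, PSU, RUN, BLK, CYC, BAS; 200 lines).  Contraction of an edge.  Take `bot' = P ++ Q ++
R`, `W' = W₃`, `top' = R'` of NRM (the blocks `P`, `Q` are now one block).  Values: if `d.1` is not on `c`,
no event of `U` is on `cv c` and `del d.1 c = c`.  If it is, by BAS one may assume `c = d :: c₁`,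
`del d.1 c = c₁`; `cv c = [(d, true), (rv d, false)] ++ cv c₁`; for `z ∈ U` (before all others): `bet
(cv c) z w = 0` for all `w ∈ U ++ W₃` (`z = (s, d)`: `d` is first; `z = (s, rv d)`: both patterns need a
strand before `rv d`, i.e. `d`, which is never an over strand, in the position `o'` or
`s`; checked numerically); and `bet (cv c) z w = bet (cv c₁) z w` for `z, w ∈ W₃` (`d`, `rv d` do
not occur in `W₃`, and the relative order is the same).
`lk`: if `d.1` is on `c₂` and `(s, d) ∈ U`, then `s` is at `vt d`, which is not on `c₁`, so `s` is not on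
`c₁`; so no event of `U` counts. -/
def SpecCON : Prop := ∀ {V E : Type} [DecidableEq V] [DecidableEq E] {G : Gr V E}
  {bot top : List (Dart E)} {W : List (Dart E × Dart E)}, IsDia G bot W top →
  ∀ d : Dart E, d.1 ∈ G.X → G.vt d ≠ G.vt (rv d) →
  ∃ (bot' : List (Dart E)) (W' : List (Dart E × Dart E)) (top' : List (Dart E)),
    IsDia (G.con d) bot' W' top' ∧
    (∃ F ∈ FF G, ∀ c, IsCyc G c → IsCyc (G.con d) (del d.1 c) →
      AW (cv (del d.1 c)) W' = AW (cv c) W + F c) ∧
    ∀ c₁ c₂, IsCyc G c₁ → IsCyc G c₂ → IsCyc (G.con d) (del d.1 c₁) →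
      IsCyc (G.con d) (del d.1 c₂) → Dj (G.con d) (del d.1 c₁) (del d.1 c₂) →
      lk W' (del d.1 c₁) (del d.1 c₂) = lk W c₁ c₂

/-! ## C. Minors -/

/-- **LIF** (from CYC; 120 lines).  Every cycle of a contraction lifts.  Rotate `c'` so that it starts at
the merged vertex `vt d` if it passes it, `c' = [x₁, …, x_n]`.  In `G`, `vt (rv x_i) = vt x_{i+1}` for
`i < n`, and `vt (rv x_n)`, `vt x₁` are in `{vt d, vt (rv d)}`.  If they are equal take `c = c'`,
otherwise `c = c' ++ [d]` or `c' ++ [rv d]`. -/
def SpecLIF : Prop := ∀ {V E : Type} [DecidableEq V] [DecidableEq E] {G : Gr V E} (d : Dart E),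
  d.1 ∈ G.X → G.vt d ≠ G.vt (rv d) → ∀ c', IsCyc (G.con d) c' →
  ∃ c, IsCyc G c ∧ (del d.1 c).IsRotated c'

/-- **RSF** (from CYC; 200 lines).  Elements of `F(G)` restrict to elements of `F(G / d)`.  Put
`P` = darts at `vt d` other than `d` (`Finset`).  On the cycles `c` of `G` such that `del d.1 c` is a cycle
of `G / d`: `xe d.1 c = ∑_{x ∈ P} xe x.1 (del d.1 c)` (a cycle has `0` or `2` strands at the vertex
`vt d`), `xe e c = xe e (del d.1 c)` for `e ≠ d.1`; for darts `s, t` of other edges `cc s t c = cc s t (del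
d.1 c)`; for a dart `t` of another edge
`cc d t c = ∑_{x ∈ P} cc (rv x) t (del d.1 c) + ∑_{{x, y} ⊆ P} (xe x.1 xe y.1 xe t.1) (del d.1 c)`
(sum over the two-element subsets of `P`; check the three cases: `c` does not pass `vt d`; it passes
through `d` in one of the two directions; it passes `vt d` but not `d`),
`cc (rv d) t = cc d (rv t)`, `cc d d = xe d.1`, `cc d (rv d) = 0`. -/
def SpecRSF : Prop := ∀ {V E : Type} [DecidableEq V] [DecidableEq E] {G : Gr V E} (d : Dart E),
  d.1 ∈ G.X → G.vt d ≠ G.vt (rv d) → ∀ F ∈ FF G, ∃ F' ∈ FF (G.con d), ∀ c, IsCyc G c →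
    IsCyc (G.con d) (del d.1 c) → F' (del d.1 c) = F c

/-- **RES** (from PSU, RUN, BLK, CYC; 100 lines).  Restriction to a subgraph: remove all strands of other
edges. -/
def SpecRES : Prop := ∀ {V E : Type} [DecidableEq E] {G : Gr V E}
  {bot top : List (Dart E)} {W : List (Dart E × Dart E)}, IsDia G bot W top → ∀ Y ⊆ G.X,
  ∃ (bot' : List (Dart E)) (W' : List (Dart E × Dart E)) (top' : List (Dart E)),
    IsDia (G.res Y) bot' W' top' ∧
    (∀ c, IsCyc (G.res Y) c → AW (cv c) W' = AW (cv c) W) ∧
    ∀ c c', IsCyc (G.res Y) c → IsCyc (G.res Y) c' → lk W' c c' = lk W c c'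

/-- **ISO** (from PSU, RUN, BLK, CYC; 200 lines).  Invariance under isomorphisms: apply `δ` to all strands.
Cycles of `H` are the images of cycles of `G`.  For `D4even`: transport the `D₄` minor back. -/
def SpecISO : Prop := ∀ {V E V' E' : Type} [DecidableEq V] [DecidableEq E] [DecidableEq V']
  [DecidableEq E'] {G : Gr V E} {H : Gr V' E'} {δ : Dart E → Dart E'} {ψ : V → V'},
  IsIso G H δ ψ → (Good G → Good H) ∧ (D4even G → D4even H)

/-- **GCO** (from CON, LIF, RSF, GAD, BAS, CYC; 80 lines).  Contraction preserves `Good`, if no loop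
arises. -/
def SpecGCO : Prop := ∀ {V E : Type} [DecidableEq V] [DecidableEq E] {G : Gr V E} (d : Dart E),
  d.1 ∈ G.X → G.vt d ≠ G.vt (rv d) → Loopless (G.con d) → Good G → Good (G.con d)

/-- **DDC** (from RES, CON, LIF, CYC; 200 lines).  `D4even` is inherited by minors.  Contraction: let `M'`
be a `D₄` minor of `G.con d`, `p = vt d`, `p' = vt (rv d)`.  `p'` is in no `B' i` (no dart of `G.con d` is at
`p'`, and every `B' i` contains the start of a bead; if `B' i ≠ {p'}`, use `Conn` with `S = {p'}`).  If `p`
is in no `B' i`, `M'` is a `D₄` minor of `G`.  If `p ∈ B' j`, replace `B' j` by `B' j ∪ {p'}` and `T' j` by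
`T' j ∪ {d.1}`.  The cycles `C' i` lift by LIF to cycles `C i` of `G`, and the edge `d.1` is on `C i` only if
`C' i` passes `p`, i.e. `j = i` or `j = i + 1` (all vertices of `C' i` are in `B' i ∪ B' (i + 1)`);
`lk` only depends on the edge sets; `Dj` for `C' 0`, `C' 2` by the disjointness of the `B' i`. -/
structure SpecDDC : Prop where
  res : ∀ {V E : Type} [DecidableEq E] {G : Gr V E} (Y : Finset E), Y ⊆ G.X → D4even G →
    D4even (G.res Y)
  con : ∀ {V E : Type} [DecidableEq V] [DecidableEq E] {G : Gr V E} (d : Dart E), d.1 ∈ G.X →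
    G.vt d ≠ G.vt (rv d) → D4even G → D4even (G.con d)

/-- **TRE** (150 lines).  `le`: induction on `B.card`: if it is at least 2, a dart `d` of `T` leaves
`{b}`, `b ∈ B`; contract: `(B.erase (vt (rv d)), T.erase d.1)` is connected in `G.con d`.  `chord`: let
`f ∈ Y` with both ends on the cycle `c`.  Let `S ⊆ B` be nonempty and proper, `x` the dart of `Y` leaving `S` given
by `Conn`.  If `x.1 ≠ f` take `x`.  Otherwise the ends of `f`, both on `c`, are one in `S` and one not in `S`.
So the closed walk `c` leaves `S` and enters `S`: there are darts `x, y ∈ c` with `vt x ∈ S`, `vt (rv x) ∉ S`,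
`vt y ∉ S`, `vt (rv y) ∈ S`; `x.1 ≠ y.1` (as `c` has no repeated edge); one of `x.1`, `y.1` is not `f`;
take `x` or `rv y`. -/
structure SpecTRE : Prop where
  le : ∀ {V E : Type} [DecidableEq V] [DecidableEq E] {G : Gr V E} (T : Finset E) (B : Finset V),
    Conn G T B → B.Nonempty → (∀ d : Dart E, d.1 ∈ T → G.vt d ∈ B) → B.card ≤ T.card + 1
  chord : ∀ {V E : Type} [DecidableEq V] [DecidableEq E] {G : Gr V E} (Y : Finset E)
    (B : Finset V) (c : List (Dart E)) (f : E), Conn G Y B → (∀ d : Dart E, d.1 ∈ Y → G.vt d ∈ B) →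
    IsCyc G c → (∀ d ∈ c, d.1 ∈ Y) → (∀ b : Bool, G.vt (f, b) ∈ c.map G.vt) → Conn G (Y.erase f) B

/-- **DFC** (from TRE, CYC; 150 lines).  Contraction of a tree edge maps the 4-cycles of a `D₄` minor to
cycles.  Let `Y = ⋃ T i ∪ {bd i (ε i)}`, `B = ⋃ B i`: `Conn G Y B` (let `S ⊂ B`; if some `S ∩ B i` is
nonempty and proper in `B i` use `T i`, otherwise some `i` has `B i ⊆ S`, `B (i + 1) ∩ S = ∅` and
`bd i (ε i)` leaves `S`) and `Y.card ≤ B.card`.  If `c` passed both ends of `d` but not `d.1`, `chord`
(twice: `f = d.1`, then an edge of `c`) and `le` give `B.card ≤ Y.card - 2 + 1`, contradiction.  So either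
`c` contains `d.1` (at most once), or it passes at most one of the two vertices, and `del d.1 c` is a
cycle of `G.con d`. -/
def SpecDFC : Prop := ∀ {V E : Type} [DecidableEq V] [DecidableEq E] {G : Gr V E} (M : D4M V E),
  IsD4 G M → ∀ ε c, IsCe G M ε c → ∀ j (d : Dart E), d.1 ∈ M.T j → G.vt d ≠ G.vt (rv d) →
  IsCyc (G.con d) (del d.1 c)

/-- **DFB** (from CYC, BAS; 200 lines).  Base of the `D₄` lemma: all trees are single vertices.  By
`same` the cycle `c ε` is a rotation of `[bd 0 (ε 0), …, bd 3 (ε 3)]` (it contains exactly these edges, and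
these darts).  `C i = [bd i false, rv (bd i true)]`.  Values: `∑_ε bet (cv (c ε)) z w` for two events
`z`, `w`: if one of the four strands is not on a bead, or some index `i` does not occur among the
indices of the beads of the four strands, the sum is zero (the terms for `ε` and `ε` with `ε i` changed
cancel).  Otherwise the four strands are on beads of four different indices, `bet` is evaluated on the
order `0 < 1 < 2 < 3`, and the sum is `1` iff one of the events has over strand on a bead `0`,
under strand on a bead `2` and the other one has over strand on a bead `3`, under strand on a bead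
`1` (checked numerically for all pairs of events).  So the total is the product of the numbers of
events of the two kinds.  `F`: products of three `xe` and `cc s t` involve at most three indices. -/
def SpecDFB : Prop := ∀ {V E : Type} [DecidableEq V] [DecidableEq E] {G : Gr V E} (M : D4M V E),
  IsD4 G M → (∀ i, M.T i = ∅) → ∀ c : (Fin 4 → Bool) → List (Dart E), (∀ ε, IsCe G M ε (c ε)) →
  (∀ F ∈ FF G, ∑ ε, F (c ε) = 0) ∧
  ∀ bot W top, IsDia G bot W top → ∃ C : Fin 4 → List (Dart E), (∀ i, IsCi G M i (C i)) ∧
    ∑ ε, AW (cv (c ε)) W = lk W (C 0) (C 2) * lk W (C 3) (C 1)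

/-- **DFL** (from DFB, DFC, CON, LIF, RSF, CYC; 200 lines).  The `D₄` lemma, by induction on `∑ i, (M.T
i).card` (for all `G`).  Choose `j` with `T j ≠ ∅`; `B j` has at least two elements, so by `Conn` there
is a dart `d`, `d.1 ∈ T j`, `vt d ≠ vt (rv d)`.  `M' = M` with `B j`, `T j` replaced by `(B j).erase (vt (rv
d))`, `(T j).erase d.1` is a `D₄` minor of `G.con d`, `c' ε = del d.1 (c ε)` (DFC).  First part: RSF.
Second part: CON gives `W'`; `∑ AW (cv (c' ε)) W' = ∑ AW (cv (c ε)) W + ∑ F (c ε)`; lift the `C' i` to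
`C i` (LIF; `d.1` can only be on `C i` if `C' i` passes `vt d`, so `j = i` or `j = i + 1`); `lk` by CON. -/
def SpecDFL : Prop := ∀ {V E : Type} [DecidableEq V] [DecidableEq E] {G : Gr V E} (M : D4M V E),
  IsD4 G M → ∀ c : (Fin 4 → Bool) → List (Dart E), (∀ ε, IsCe G M ε (c ε)) →
  (∀ F ∈ FF G, ∑ ε, F (c ε) = 0) ∧
  ∀ bot W top, IsDia G bot W top → ∃ C : Fin 4 → List (Dart E), (∀ i, IsCi G M i (C i)) ∧
    ∑ ε, AW (cv (c ε)) W = lk W (C 0) (C 2) * lk W (C 3) (C 1)

/-! ## D. Adding edges, gluing -/

/-- **ADD** (from FRT, PSU, RUN, BLK, CYC, BAS; 150 lines).  Adding a loop or a pendant edge.  `v = vt d`.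
By FRT the block of `v` is at the front of `bot`; put `rv d :: d ::` in front of `bot` and of `top`, same word
`W`.  No event involves these strands.  A cycle containing `d.1` is `[d]` or `[rv d]` (loop), or does
not exist (pendant edge). -/
def SpecADD : Prop := ∀ {V E : Type} [DecidableEq V] [DecidableEq E] {G : Gr V E} (d : Dart E),
  d.1 ∈ G.X →
  (G.vt d = G.vt (rv d) ∨ ∀ x : Dart E, x.1 ∈ G.X → G.vt x = G.vt (rv d) → x = rv d) →
  Good (G.res (G.X.erase d.1)) → Good G

/-- **SUB** (from PSU, RUN, BLK, CYC, BAS; 300 lines).  Subdivision.  `w = vt (rv d)` has degree 2, the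
darts at `w` are `rv d` and `g`; `H = G.con d`; in `H` the edge of `g` goes from `a = vt d` to `b = vt (rv g)`.
Let `(bot, W, top)` be a diagram of `H` with values `0` and `σ` the map replacing the strand `g` by `d`.
If `top = T₁ ++ g :: rv g :: T₂`, take `bot' = rv d :: g :: bot.map σ`, the word `W.map (σ × σ) ++ U`,
`U` a run moving `rv d :: g` to the right under `T₁ ++ [d]` (`exch'`), and `top' = T₁ ++ d :: rv d :: g ::
rv g :: T₂`.  If `top = T₁ ++ rv g :: g :: T₂`: `bot' = g :: rv d :: bot.map σ`, under `T₁ ++ [rv g]`,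
`top' = T₁ ++ rv g :: g :: rv d :: d :: T₂`.  Values: a cycle `c` of `G` without `d.1` does not pass `w`,
is a cycle of `H`, `σ` fixes its strands and the events of `U` are not on it.  A cycle with `d.1`: by BAS
(for the new diagram) one may assume that `c = g :: (c₁ ++ [d])`, `cv c = (g, true) :: (rv g, false) :: (cv
c₁ ++ [(d, true), (rv d, false)])`.  For `z ∈ U` (under strand `g` or `rv d`, the first or the last
strand of `cv c`; `g` and `rv d` are never over strands) and every `y` before `z`, `bet (cv c) y z =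
0` (checked numerically), so `U` can be omitted.  The other events do not involve `g`, `rv d`, and
after renaming `d` to `g` the curve becomes `(rv g, false) :: (cv c₁ ++ [(g, true)]) = (cv (g ::
c₁)).rotate 1` with `g :: c₁` a cycle of `H`; by BAS for `H` the value is that of `cv (g :: c₁)`, i.e. `0`. -/
def SpecSUB : Prop := ∀ {V E : Type} [DecidableEq V] [DecidableEq E] {G : Gr V E} (d g : Dart E),
  d.1 ∈ G.X → g.1 ∈ G.X → d.1 ≠ g.1 → G.vt d ≠ G.vt (rv d) → G.vt g = G.vt (rv d) →
  G.vt (rv g) ≠ G.vt (rv d) → (∀ x : Dart E, x.1 ∈ G.X → G.vt x = G.vt (rv d) → x = rv d ∨ x = g) →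
  Good (G.con d) → Good G

/-- **PAR** (from PSU, RUN, BLK, CYC, BAS, GAD; 250 lines).  Adding an edge `d'.1` parallel to `d.1`.  Let `(bot,
W, top)` be a diagram of `G - d'.1` with values `0`.  Replace in all lists the strand `d` by `d, d'` and
`rv d` by `rv d, rv d'`, and each event `(o, u)` by the product word of all `(o', u')`, `o'` a copy of
`o`, `u'` a copy of `u` (in an order which exchanges the two blocks).  At the top one has `… d d' (rv d)
(rv d') …` (or `… rv d, rv d', d, d' …`); add the event `(d', rv d)` (resp. `(rv d', d)`).  Values: for a cycle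
without `d'.1` only the original events count (one copy of each): `0`; for a cycle with `d'.1` but
without `d.1`, the same after renaming `d'` to `d`; a cycle with both edges is `[d, rv d']` up
to rotation and reversal, and has some value `κ`: so `AW (cv c) W' = κ * xe d.1 c * xe d'.1 c` on all
cycles and GAD applies (`G` has no loops). -/
def SpecPAR : Prop := ∀ {V E : Type} [DecidableEq V] [DecidableEq E] {G : Gr V E} (d d' : Dart E),
  Loopless G → d.1 ∈ G.X → d'.1 ∈ G.X → d.1 ≠ d'.1 → G.vt d = G.vt d' → G.vt (rv d) = G.vt (rv d') →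
  Good (G.res (G.X.erase d'.1)) → Good G

/-- **GLA** (from FRT, PSU, RUN, BLK, CYC, BAS; 350 lines).  Joining `star G A v` and `star G B v` at their
centres.  Write `y_i` for the edge `Sum.inr i` of `star G A v` and `y'_i` for that of `star G B v`.  By FRT
there are diagrams with values `0`: `(L₁ ++ [y_0, …, y_{k-1}], W₁, T₁)` of `star G A v` (strands `(y_i,
false)`, the block of the centre at the end) and `([y'_0, …, y'_{k-1}] ++ L₂, W₂, T₂)` of `star G B v`.  In
`g0 G A B v` the strands `(Sum.inr (i, false), false)` and `(Sum.inr (i, true), false)` are at the vertex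
`Sum.inr i`.  Take `bot = L₁ ++ [y_0, y'_0, y_1, y'_1, …] ++ L₂` (all lists mapped to the strands of `g0`), the
word `U ++ W₁ ++ W₂`, where `U` is a run from `[y_0, y'_0, y_1, y'_1, …]` to `[y_0, …, y_{k-1}, y'_0, …,
y'_{k-1}]` consisting of the events `(y'_i, y_j)`, `i < j` (`k ≤ 3`: `k = 3`: `[(y'_0, y_1), (y'_1, y_2),
(y'_0, y_2)]`), `top = T₁ ++ T₂`.  A cycle of `g0` contains both or none of the edges `y_i`, `y'_i`, and
`0` or `2` of the `y_i` (closed curve between the two sides; `k ≤ 3`).  If `0`, it is a cycle of `star G A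
v` or of `star G B v` and the value is `0`.  If it contains `y_i`, `y_j`, `i < j`, one may assume (BAS)
that it starts at the vertex `Sum.inr j` and first goes into the `B`-side: `cv c = q₂ ++ q₁`, `q₂ = y'_j ↑ …
y'_i ↓`, `q₁ = y_i ↑ … y_j ↓`, where `q₂`, `q₁` are the curves of cycles of `star G B v`, `star G A v` based at
the centres.  The only event of `U` on `c` is `(y'_i, y_j)`, it is before all others and its under strand is
the last one of `cv c`: `bet = 0`.  `bet (cv c) z w = 0` if `z` has both strands in `q₁` and `w` has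
both strands in `q₂` or conversely (the patterns alternate between the two events).  So the value is
`AW q₁ W₁ + AW q₂ W₂ = 0`. -/
def SpecGLA : Prop := ∀ {V E : Type} [DecidableEq V] [DecidableEq E] {k : ℕ} {G : Gr V E}
  (A B : Finset E) (v : Fin k → V), Disjoint A B → k ≤ 3 → Function.Injective v →
  Good (star G A v) → Good (star G B v) → Good (g0 G A B v)

/-- **GLB** (from GCO, ISO; 250 lines).  Contracting the `2 k` connecting edges of `g0` gives `G`.  For
`j ≤ k` let `G_j` be the graph with the edges `Sum.inl e` (`e ∈ A ∪ B`) and `Sum.inr (i, β)`, `i ≥ j`, and the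
incidence function of `g0` followed by the map `μ_j` which sends, for `i < j`, `Sum.inr i` and `Sum.inl (v
i, true)` to `Sum.inl (v i, false)`.  `G_{j+1}` is obtained from `G_j` by contracting first `Sum.inr (j,
false)` (its end `Sum.inr j` has only one other edge) and then `Sum.inr (j, true)`, which joins then
`(v j, false)` and `(v j, true)`; no loops arise: an edge of `A` joins different vertices `(a, false)`, `(b,
false)`, an edge of `B` two vertices with different first components.  So GCO applies, `Good G_k`, and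
`G_k` is isomorphic to `G` by `Sum.inl (w, β) ↦ w` (injective on the vertices which occur, because
`w` can occur with both `β` only if it is in `vs A ∩ vs B`, so `w = v i`, merged). -/
def SpecGLB : Prop := ∀ {V E : Type} [DecidableEq V] [DecidableEq E] {k : ℕ} {G : Gr V E}
  (A B : Finset E) (v : Fin k → V), Disjoint A B → A ∪ B = G.X → Loopless G →
  Function.Injective v → (∀ w ∈ G.vs A ∩ G.vs B, ∃ i, w = v i) → Good (g0 G A B v) → Good G

/-- **MIK** (from DDC, ISO; 200 lines).  `star G A v` is a minor of `G`.  Induction on `K.card` (for all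
`G`).  `K = {y}`: restrict to `A ∪ {(f i).1}`; isomorphic to `star G A v` (`y ↦ none`, `a ↦ some a`, the
edge `(f i).1 ↦ Sum.inr i`, oriented such that `f i` starts at `none`).  `2 ≤ K.card`: by `Conn` with `S =
{p}`, `p ∈ K`, there is a dart `d` of `G.X \ A` from `p` to `K \ {p}`; contract it: `K' = K.erase (vt (rv
d))`, `Conn` holds again, the darts of `A` and their vertices do not change (`K` is disjoint from `vs A`),
`d.1 ≠ (f i).1` as `vt (rv (f i)) = v i ∉ K`. -/
def SpecMIK : Prop := ∀ {V E : Type} [DecidableEq V] [DecidableEq E] {k : ℕ} {G : Gr V E}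
  (A : Finset E) (v : Fin k → V) (K : Finset V) (f : Fin k → Dart E), A ⊆ G.X →
  Function.Injective v → K.Nonempty → Conn G (G.X \ A) K → (∀ w ∈ K, w ∉ G.vs A) →
  (∀ i, v i ∉ K) → (∀ i, (f i).1 ∈ G.X \ A ∧ G.vt (f i) ∈ K ∧ G.vt (rv (f i)) = v i) →
  D4even G → D4even (star G A v)

/-- **SEP** (200 lines).  A separation with `k` minimal.  Let `A`, `B` be a partition of `X` with
`k = (vs A ∩ vs B).card ≤ 3`, `A.card > k`, `B.card > k` and `k` minimal, `T = vs A ∩ vs B = {v i}`.
`vs B ⊄ T`: a graph without loops and parallel edges on `k ≤ 3` vertices has at most `k` edges.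
Let `w ∈ vs B \ T` and `K` the set of the vertices reachable from `w` by darts of `B` avoiding `T`
(e.g. the smallest subset of `vs B \ T` containing `w` and closed under the darts of `B` with ends outside
`T`); `Conn G B K`; all darts of `X` at a vertex of `K` are in `B` and end in `K ∪ T`.  Let `A'` be the
set of the edges with an end in `K`, `B' = X \ A'`; then `vs A' ∩ vs B' ⊆ T' := ` the set of the
`v i` adjacent to `K`.  If `T' ≠ T` then `k' = (vs A' ∩ vs B').card < k`, `A'.card ≥ 3 > k'` (`Deg3` at `w`,
and the three darts at `w` belong to different edges), `B'.card ≥ A.card > k > k'`, contradicting the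
minimality of `k`.  So there are edges `f i` from `K` to all `v i`.  The same with `A` and `B`
exchanged. -/
def SpecSEP : Prop := ∀ {V E : Type} [DecidableEq V] [DecidableEq E] {G : Gr V E},
  Loopless G → NoPar G → Deg3 G → ¬ Sep4 G →
  ∃ (k : ℕ) (A B : Finset E) (v : Fin k → V), k ≤ 3 ∧ Disjoint A B ∧ A ∪ B = G.X ∧
    k < A.card ∧ k < B.card ∧ Function.Injective v ∧ (∀ w ∈ G.vs A ∩ G.vs B, ∃ i, w = v i) ∧
    (∃ (K : Finset V) (f : Fin k → Dart E), K.Nonempty ∧ Conn G B K ∧ (∀ w ∈ K, w ∉ G.vs A) ∧
      (∀ i, v i ∉ K) ∧ ∀ i, (f i).1 ∈ B ∧ G.vt (f i) ∈ K ∧ G.vt (rv (f i)) = v i) ∧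
    (∃ (K : Finset V) (f : Fin k → Dart E), K.Nonempty ∧ Conn G A K ∧ (∀ w ∈ K, w ∉ G.vs B) ∧
      (∀ i, v i ∉ K) ∧ ∀ i, (f i).1 ∈ A ∧ G.vt (f i) ∈ K ∧ G.vt (rv (f i)) = v i)

/-- a function on the edge sets of the cycles whose sum over the 16 four-cycles of every `D₄` minor
is zero agrees on the cycles with an element of `F(G)` -/
def Ug {V E : Type} [DecidableEq E] (G : Gr V E) : Prop := ∀ φ : Finset E → ZMod 2,
  (∀ M : D4M V E, IsD4 G M → ∀ c : (Fin 4 → Bool) → List (Dart E), (∀ ε, IsCe G M ε (c ε)) →
    ∑ ε, φ ((c ε).map Prod.fst).toFinset = 0) →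
  InF G (fun c => φ (c.map Prod.fst).toFinset)

/-- algebraically planar: the van Kampen cochain is a coboundary.  `x` are abscissas of the
vertices, different for different vertices of edges. -/
def APl {V E : Type} (G : Gr V E) : Prop := ∃ (x : V → ℝ) (ρ : V → E → ZMod 2),
  (∀ d d' : Dart E, d.1 ∈ G.X → d'.1 ∈ G.X → x (G.vt d) = x (G.vt d') → G.vt d = G.vt d') ∧
  ∀ e ∈ G.X, ∀ f ∈ G.X, (∀ b b', G.vt (e, b) ≠ G.vt (f, b')) →
    (∑ b : Bool, ρ (G.vt (f, b)) e) + (∑ b : Bool, ρ (G.vt (e, b)) f) =
      ∑ b : Bool, ∑ b' : Bool, if x (G.vt (e, b)) < x (G.vt (f, b')) then 1 else 0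

/-- **THEOREM C** (squad 7; hypothesis of the topological half), for graphs which are not
algebraically planar.  For a graph without loops and parallel edges, with all degrees `0` or `≥ 3`,
without edge partition `A`, `B` with `k ≤ 3` common vertices and `A.card > k`, `B.card > k`. -/
def SpecC : Prop := ∀ {V E : Type} [DecidableEq V] [DecidableEq E] (G : Gr V E), Loopless G → NoPar G →
  Deg3 G → Sep4 G → ¬ APl G → Ug G

/-- the cone over `G`: the new vertex `none` is joined to all vertices of edges of `G` -/
def cone {V E : Type} [DecidableEq V] [DecidableEq E] (G : Gr V E) : Gr (Option V) (E ⊕ V) :=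
  ⟨G.X.map ⟨Sum.inl, Sum.inl_injective⟩ ∪ (G.vs G.X).map ⟨Sum.inr, Sum.inr_injective⟩,
   fun d => match d with
    | (Sum.inl e, b) => some (G.vt (e, b))
    | (Sum.inr _, false) => none
    | (Sum.inr v, true) => some v⟩

/-- chains of darts of `G` from `s` to `t` -/
def Ch {V E : Type} (G : Gr V E) : V → List (Dart E) → V → Prop
  | s, [], t => s = t
  | s, d :: P, t => d.1 ∈ G.X ∧ G.vt d = s ∧ Ch G (G.vt (rv d)) P t

/-- the vertices of a chain starting at `s` -/
def cvs {V E : Type} (G : Gr V E) (s : V) (P : List (Dart E)) : List V :=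
  s :: P.map fun d => G.vt (rv d)

/-- four vertices and chains joining them, opposite chains being disjoint (a subdivision of `K₄`) -/
def HasK4 {V E : Type} (G : Gr V E) : Prop := ∃ (w : Fin 4 → V) (P : Fin 4 → Fin 4 → List (Dart E)),
  (∀ i j, i < j → Ch G (w i) (P i j) (w j)) ∧
  ∀ i j k l, i < j → k < l → i ≠ k → i ≠ l → j ≠ k → j ≠ l →
    ∀ u ∈ cvs G (w i) (P i j), u ∉ cvs G (w k) (P k l)

/-- **CNA** (200 lines).  The cone `H` over an internally 4-connected graph.  No loops, no parallels, degrees:
a vertex `some v` has one more edge, `none` is joined to all vertices of `G` (at least 4).  `Sep4`: let `A`,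
`B` be a partition of the edges of `H` with `T = vs A ∩ vs B`, `k = T.card ≤ 3`.  If `none ∉ vs A`, every
`w ∈ vs A` has its apex edge in `B`, so `vs A = T` and `A.card ≤ k` (a graph without loops and parallels on
`k ≤ 3` vertices has at most `k` edges).  Same for `B`.  Otherwise `none ∈ T`; let `T' = T \ {none}`, `A'`,
`B'` the edges of `G` in `A`, `B`; `vs A' ∩ vs B' ⊆ T'` has `k' ≤ k - 1 ≤ 2` elements and by `Sep4 G`
say `A'.card ≤ k'`.  A vertex `some w ∈ vs A \ T` would have its at least 3 edges of `G` in `A'`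
(`w ∉ vs B`); so `vs A = T`, and `A` consists of at most `k - 1` apex edges and of edges inside
`T'` (`k - 1 ≤ 2` vertices, so at most `1` edge, and none if `k - 1 ≤ 1`): `A.card ≤ k`. -/
def SpecCNA : Prop := ∀ {V E : Type} [DecidableEq V] [DecidableEq E] (G : Gr V E), Loopless G →
  NoPar G → Deg3 G → Sep4 G → G.X.Nonempty →
  Loopless (cone G) ∧ NoPar (cone G) ∧ Deg3 (cone G) ∧ Sep4 (cone G)

/-- **CNB** (from LKD, CYC; 200 lines).  The cone over an algebraically planar graph has a diagram in which
all linking numbers of disjoint cycles are even.  Extend `x` to `none` by a value different from those of the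
vertices of edges of `G`.  LKD for `cone G` with
`l (inl e) (inl f) = ∑_b ρ (vt (f, b)) e`, `l (inl e) (inr v) = ρ v e`, `l (inr v) (inl f) = ρ v f +
∑_{b, b'} [x' (vt (inl f, b)) < x' (vt (inr v, b'))]`, `l (inr v) (inr w) = 0` (`inr v`, `inr w` have the
common vertex `none`); the order of the two edges in `∑_{b, b'} [x .. < x ..]` does not matter mod 2.  Let
`c`, `c'` be disjoint cycles.  If `c` does not pass `none`, `∑_{e ∈ c, f ∈ c'} l e f = ∑_{e ∈ c} ∑_{f ∈
c'} ∑_{b} ρ' (vt (f, b)) e` with `ρ' none e = 0`, and every vertex of `c'` occurs twice: `0`.  If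
`c'` does not pass `none`, use `l e f + l f e = ∑_{b, b'} [..]`, whose sum over `e ∈ c`, `f ∈ c'` is
`0` (every vertex twice). -/
def SpecCNB : Prop := ∀ {V E : Type} [DecidableEq V] [DecidableEq E] (G : Gr V E), APl G →
  D4even (cone G)

/-- **CNC** (150 lines).  If `G` contains a subdivision of `K₄` (chains `P i j`), its cone is not
algebraically planar.  Let `x`, `ρ` be as in `APl (cone G)`, `h p q = [x p < x q]`, `a i` the apex edge of
`w i`.
(1) For `u : V → ZMod 2` and a chain `P` from `s` to `t`: `∑_{d ∈ P} (u (vt d) + u (vt (rv d))) = u s + u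
t`.  (2) For `P = P i j`, `Q = P k l` opposite, summing the equation of `APl` over all pairs of edges:
`∑_{d ∈ P} (ρ (w k) d + ρ (w l) d) + ∑_{d ∈ Q} (ρ (w i) d + ρ (w j) d) = h (w i) (w k) + h (w i) (w l) + h
(w j) (w k) + h (w j) (w l)`.  The sum over the three opposite pairs is
`∑_i ∑_{e ∈ C_i} ρ (w i) e = 1`, `C_i` = the three chains avoiding `w i` (exactly one of the three
pairings of four different reals is interleaving).  (3) Summing the equation for `e`, `a i` over `e ∈ C_i`:
`∑_{e ∈ C_i} (ρ none e + ρ (w i) e) = 0` (the other terms occur twice, by (1) and because each `w j`, `j ≠ i`,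
is the end of two of the three chains).  (4) `∑_i ∑_{e ∈ C_i} ρ none e = 0`, each chain is in two of
the `C_i`.  Contradiction. -/
def SpecCNC : Prop := ∀ {V E : Type} [DecidableEq V] [DecidableEq E] (G : Gr V E), HasK4 G →
  ¬ APl (cone G)

/-- **CND** (200 lines).  A graph with all degrees at least 3 contains a subdivision of `K₄`.  Consider
all pairs of a longest path `v₀ v₁ … v_k` (list of different vertices joined by edges) and an index
`i ≥ 2` such that `v₀` is adjacent to `v_i`; choose one with `i` minimal.  (All neighbours of `v₀` are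
on the path; it has at least two besides `v₁`.)  Let `v_j`, `j > i`, be another neighbour of `v₀`.  The path
`v_{i-1} … v₀ v_i … v_k` is also longest, so the neighbours of `v_{i-1}` are on it; let `v_m` be one
different from `v_{i-2}`, `v_i` (if `i = 2`, `v_{i-2} = v₀`).  If `m < i - 2`, it has the position `i -
1 - m` in `[2, i - 1]` on the new path, contradicting the minimality of `i`.  So `m > i`.  Let `t = min j
m`.  The four vertices are `v₀`, `v_{i-1}`, `v_i`, `v_t`, the chains: `v₀ … v_{i-1}`; the edges `v_{i-1} v_i`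
and `v₀ v_i`; `v_i … v_t`; `v₀ v_j … v_t`; `v_{i-1} v_m … v_t`. -/
def SpecCND : Prop := ∀ {V E : Type} [DecidableEq V] [DecidableEq E] (G : Gr V E), Loopless G →
  NoPar G → Deg3 G → G.X.Nonempty → HasK4 G

/-- **IND** (from SpecC and GAD, BAS, DDC, DFL, ADD, SUB, PAR, GLA, GLB, MIK, SEP, ISO, RES, CNA, CNB, CNC,
CND; 300 lines).  By
induction on the number of edges (for all types `V`, `E`): (1) a loop, or a vertex of degree 1:
ADD.  (2) parallel edges: PAR.  (3) a vertex `w` of degree 2 (no loops, no parallel edges): SUB, `G.con d` has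
fewer edges.  (4) `¬ Sep4 G`: SEP, MIK, induction hypothesis for `star G A v` and `star G B v` (`A.card + k <
A.card + B.card`), GLA, GLB.  (5) otherwise, if `¬ APl G`, let `(bot, W, top)` be a diagram as in
`D4even`; `φ S` = the value of a cycle with edge set `S` (well defined by `same`), the 16-sums vanish by DFL,
SpecC, GAD.  (6) If `APl G`, the same argument for `cone G` (CNA, CNB, CNC, CND; no induction) gives
`Good (cone G)`, and `G` is a subgraph of `cone G` (RES, ISO). -/
def SpecIND : Prop := ∀ {V E : Type} [DecidableEq V] [DecidableEq E] (G : Gr V E), D4even G → Good G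

/-! ## E. From an embedding to a diagram -/

/-- **LKD** (from REA, RUN, BLK, PSU, CYC; 200 lines).  A diagram with prescribed linking numbers.  `x` = the
abscissas of the vertices.  `bot` = all darts of `X` sorted by `x (vt d)`, those at one vertex
contiguous; `top` = the caps in any order.  For vertex-disjoint edges `e ≠ f`: `∑_{b, b'} inv bot top
(e, b) (f, b') = ∑_{b, b'} [x (vt (e, b)) < x (vt (f, b'))]` (four terms; the complement has the same
parity).  Choose the parities `a s t` with `a s t + a t s = inv bot top s t` such that for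
vertex-disjoint `e`, `f` `∑_{b, b'} a (e, b) (f, b') = l e f` (put all freedom into `a (e, false) (f,
false)`, for `e` before `f` in some order; the condition for `l f e` is then satisfied by the hypothesis),
REA.  Then `lk W c c' = ∑_{e ∈ c, f ∈ c'} l e f`. -/
def SpecLKD : Prop := ∀ {V E : Type} [DecidableEq V] [DecidableEq E] (G : Gr V E) (x : V → ℝ)
  (l : E → E → ZMod 2),
  (∀ d d' : Dart E, d.1 ∈ G.X → d'.1 ∈ G.X → x (G.vt d) = x (G.vt d') → G.vt d = G.vt d') →
  (∀ e ∈ G.X, ∀ f ∈ G.X, (∀ b b', G.vt (e, b) ≠ G.vt (f, b')) →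
    l e f + l f e = ∑ b : Bool, ∑ b' : Bool, if x (G.vt (e, b)) < x (G.vt (f, b')) then 1 else 0) →
  ∃ bot W top, IsDia G bot W top ∧ ∀ c c', IsCyc G c → IsCyc G c' → Dj G c c' →
    lk W c c' = (c.map fun d => (c'.map fun d' => l d.1 d'.1).sum).sum

/-- **GEN** (150 lines).  Generic projection of finitely many distinct points.  With `a = τ`, `b = τ²`, `c
= τ³`: for `i ≠ j` the difference of the first coordinates is `dx + τ dz + τ³ (dy + τ² dz)`, a nonzero
polynomial in `τ`.  If `N i`, `N j`, `N k` are not collinear, the determinant of the projections of `N j - N i`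
and `N k - N i` is `w₃ + τ w₁' + τ² w₂'` with the components of the (nonzero) cross product up to sign,
a nonzero polynomial in `τ`; so `N i` does not project to the line through the projections of `N j`,
`N k`.  If they are collinear but `N i` is not on the segment, use that the first coordinates after
projection are different, so the projection is injective on the line (or `N j = N k ≠ N i`).  Finitely many
bad `τ`. -/
def SpecGEN : Prop := ∀ {ι : Type} [Fintype ι] (N : ι → P3), Function.Injective N →
  ∃ a b c : ℝ, (∀ i j, i ≠ j → (sh a b (N i)).1 + c * (sh a b (N i)).2.1 ≠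
      (sh a b (N j)).1 + c * (sh a b (N j)).2.1) ∧
    ∀ i j k, N i ∉ segment ℝ (N j) (N k) → ∀ t : ℝ, 0 ≤ t → t ≤ 1 →
      ¬ samexy (sh a b (N i)) ((1 - t) • sh a b (N j) + t • sh a b (N k))

/-- `v` is above the segment `p q` of the plane: its abscissa is between those of `p` and `q` and it is
above the point of the segment with this abscissa -/
def above (v p q : ℝ × ℝ) : Prop :=
  ∃ t : ℝ, 0 < t ∧ t < 1 ∧ v.1 = (1 - t) * p.1 + t * q.1 ∧ (1 - t) * p.2 + t * q.2 < v.2

open Classical in
/-- **SGM** (150 lines).  Crossing of two segments `p q` and `r s` in the plane, the four abscissas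
distinct, no end point on the other segment: they cross iff the number of the following five statements
which hold is odd: `r` above `pq`; `s` above `pq`; `p` above `rs`; `q` above `rs`; exactly one of `r`,
`s` has its abscissa between those of `p` and `q`.  (Cases: intervals disjoint; nested; overlapping; the
signed vertical distance is an affine function on the common interval.) -/
def SpecSGM : Prop := ∀ p q r s : ℝ × ℝ, p.1 ≠ q.1 → p.1 ≠ r.1 → p.1 ≠ s.1 → q.1 ≠ r.1 → q.1 ≠ s.1 →
  r.1 ≠ s.1 →
  (∀ t : ℝ, 0 ≤ t → t ≤ 1 → (1 - t) • p + t • q ≠ r ∧ (1 - t) • p + t • q ≠ s ∧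
    (1 - t) • r + t • s ≠ p ∧ (1 - t) • r + t • s ≠ q) →
  (if ∃ t u : ℝ, 0 < t ∧ t < 1 ∧ 0 < u ∧ u < 1 ∧ (1 - t) • p + t • q = (1 - u) • r + u • s
    then (1 : ZMod 2) else 0) =
  (if above r p q then 1 else 0) + (if above s p q then 1 else 0) + (if above p r s then 1 else 0) +
  (if above q r s then 1 else 0) +
  ((if p.1 < r.1 then 1 else 0) + (if q.1 < r.1 then 1 else 0) + (if p.1 < s.1 then 1 else 0) +
    (if q.1 < s.1 then 1 else 0))

/-- **PSG** (150 lines).  The segments of the polygon of a cycle are those of its edges: for a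
symmetric function `h` of pairs of points.  (`nd P i`, `nd P (i + 1)` for `i < P.length` are the
consecutive pairs of the closed list `P`; for a dart `(e, true)` the arc is reversed.) -/
def SpecPSG : Prop := ∀ {V E : Type} [DecidableEq E] (G : Gr V E) (Γ : Emb V E) (c : List (Dart E))
  (h : P3 → P3 → ZMod 2) (_ : ∀ p q, h p q = h q p) (_ : IsCyc G c),
  ∑ i ∈ range (Γ.poly G.vt c).length, h (nd (Γ.poly G.vt c) i) (nd (Γ.poly G.vt c) (i + 1)) =
    (c.map fun d => ∑ i ∈ range ((Γ.arc d.1).length + 1),
      h (Γ.sg G.vt d.1 i).1 (Γ.sg G.vt d.1 i).2).sum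

/-- **GTW** (from LKD, GEN, SGM, PSG, CYC; 350 lines).  An embedding without double linked `D₄` minor
gives a diagram with `D4even`.  GEN for all nodes of `Γ` (index type `V ⊕ Σ e, Fin (arc e).length`)
gives `a, b, c`.  For `p ∈ P3` put `π p = ((sh a b p).1 + c (sh a b p).2.1, (sh a b p).2.1)`.  For edges
`e`, `f` let `λ e f` be the number mod 2 of pairs of segments (`i` of `e`, `j` of `f`) such that the first one
passes over the second one (in the projection after `sh a b`), `ρ v e` the number mod 2 of the segments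
`i` of `e` with `above (π (vx v)) (π …) (π …)`, and `l e f = λ e f + ρ (vt (f, false)) e + ρ (vt (f,
true)) e`.  If `e`, `f` have no common vertex, then their arcs are disjoint, so `λ e f + λ f e` is the number of
crossings, and SGM, summed over all pairs of segments (the interior nodes cancel), gives
`λ e f + λ f e = ρ (f₀) e + ρ (f₁) e + ρ (e₀) f + ρ (e₁) f + ∑_{b, b'} [x (vt (e, b)) < x (vt (f, b'))]`
with `x v = (π (vx v)).1`.  So LKD applies.  For disjoint cycles `c`, `c'`: `lk W c c' = ∑ l = ∑ λ` (every
vertex of `c'` is the end of exactly two strands of `c'`) `= lkn` of the sheared polygons mod 2 (PSG twice), and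
`RegL` holds by GEN (a node of the first polygon is not on the second one).  So if `lk W (C 0) (C 2) * lk W
(C 3) (C 1) = 1`, both `lkodd` hold, contradiction. -/
def SpecGTW : Prop := ∀ {V E : Type} [Fintype V] [Fintype E] [DecidableEq V] [DecidableEq E]
  (vt : Dart E → V) (Γ : Emb V E), IsEmb vt Γ →
  (¬ ∃ M : D4M V E, IsD4 (fg vt) M ∧ ∃ C : Fin 4 → List (Dart E), (∀ i, IsCi (fg vt) M i (C i)) ∧
    lkodd (Γ.poly vt (C 0)) (Γ.poly vt (C 2)) ∧ lkodd (Γ.poly vt (C 3)) (Γ.poly vt (C 1))) →
  D4even (fg vt)

/-! ## F. From a diagram to an embedding -/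

/-- **STT** (100 lines).  The states of a run: `stt bot W k` is a permutation of `bot`, `Run bot
(W.take k) (stt bot W k)` and `Run (stt bot W k) (W.drop k) top`; the `k`-th event exchanges two adjacent
entries. -/
structure SpecSTT : Prop where
  run : ∀ {S : Type} [DecidableEq S] {bot top : List S} {W : List (S × S)}, bot.Nodup →
    Run bot W top → ∀ k ≤ W.length, Run bot (W.take k) (stt bot W k) ∧
      Run (stt bot W k) (W.drop k) top ∧ (stt bot W k).Perm bot ∧ (stt bot W k).Nodup
  fin : ∀ {S : Type} [DecidableEq S] {bot top : List S} {W : List (S × S)}, bot.Nodup →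
    Run bot W top → stt bot W W.length = top
  step : ∀ {S : Type} [DecidableEq S] {bot top : List S} {W : List (S × S)}, bot.Nodup →
    Run bot W top → ∀ k (h : k < W.length),
      ((stt bot W k).idxOf W[k].1 + 1 = (stt bot W k).idxOf W[k].2 ∨
        (stt bot W k).idxOf W[k].2 + 1 = (stt bot W k).idxOf W[k].1) ∧
      (stt bot W (k + 1)).idxOf W[k].1 = (stt bot W k).idxOf W[k].2 ∧
      (stt bot W (k + 1)).idxOf W[k].2 = (stt bot W k).idxOf W[k].1 ∧
      ∀ s ∈ bot, s ≠ W[k].1 → s ≠ W[k].2 → (stt bot W (k + 1)).idxOf s = (stt bot W k).idxOf s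

/-- **PLN** (from STT, RUN, BLK; 300 lines).  Two points of different segments of the realisation (closed
segments, parameters in `[0, 1]`) with the same vertical projection: either they are a common end
point, or the two segments are those of the over strand and the under strand in the slab of some event, at their
middle points.  Compare the `y`-coordinates: fans have `y ∈ [-1, 0]`, `up s j` has `y ∈ [j, j + 1]`, caps
`y = 2 m`.  So apart from end points only segments of the same slab can meet.  Fans: at a height between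
`-1` and `0` the fans of different vertices have abscissas in disjoint intervals (blocks), those of one vertex
start at the same point and end at different ones.  `up s j`, `j` even: constant different abscissas.  `up s
j`, `j = 2 k + 1`: constant different integers except for the two strands of the `k`-th event, which
exchange adjacent integers `i`, `i + 1`: these two meet at the middle.  Caps: disjoint intervals
(adjacent strands of the same edge).  `lo`/`hi`: equal points at equal levels only for the same strand. -/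
def SpecPLN : Prop := ∀ {V E : Type} [Fintype V] [Fintype E] [DecidableEq V] [DecidableEq E]
  (vt : Dart E → V) (bot top : List (Dart E)) (W : List (Dart E × Dart E)),
  IsDia (fg vt) bot W top → ∀ l l' : Lab E, l.ok W → l'.ok W → l ≠ l' → ∀ s t : ℝ, 0 ≤ s → s ≤ 1 →
  0 ≤ t → t ≤ 1 → samexy (l.p vt bot W s) (l'.p vt bot W t) →
  (l.p vt bot W s = l'.p vt bot W t ∧ (s = 0 ∨ s = 1) ∧ (t = 0 ∨ t = 1)) ∨
  (s = 1 / 2 ∧ t = 1 / 2 ∧ ∃ (k : ℕ) (h : k < W.length),
    (l = .up W[k].1 (2 * k + 1) ∧ l' = .up W[k].2 (2 * k + 1)) ∨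
    (l = .up W[k].2 (2 * k + 1) ∧ l' = .up W[k].1 (2 * k + 1)))

/-- **NOD** (from STT, RUN; 80 lines).  The nodes of the realisation are pairwise distinct. -/
structure SpecNOD : Prop where
  ss : ∀ {V E : Type} [Fintype V] [Fintype E] [DecidableEq V] [DecidableEq E]
    (vt : Dart E → V) (bot top : List (Dart E)) (W : List (Dart E × Dart E)),
    IsDia (fg vt) bot W top → ∀ (s s' : Dart E) (j j' : ℕ), j ≤ 2 * W.length → j' ≤ 2 * W.length →
    Nd bot W s j = Nd bot W s' j' → s = s' ∧ j = j'
  vs : ∀ {V E : Type} [Fintype V] [Fintype E] [DecidableEq V] [DecidableEq E]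
    (vt : Dart E → V) (bot : List (Dart E)) (W : List (Dart E × Dart E)) (v : V) (s : Dart E) (j : ℕ),
    vxr vt bot v ≠ Nd bot W s j
  vv : ∀ {V E : Type} [Fintype V] [DecidableEq V]
    (vt : Dart E → V) (bot : List (Dart E)), Function.Injective (vxr vt bot)

/-- **EMB** (from PLN, NOD, STT; 200 lines).  The realisation is an embedding.  The `i`-th segment of the
edge `e` is: `fan (e, false)` for `i = 0`; `up (e, false) (i - 1)` for `1 ≤ i ≤ 2 m`; `cap e` for `i = 2 m +
1`; `up (e, true) (4 m + 1 - i)`, reversed, for `2 m + 2 ≤ i ≤ 4 m + 1`; `fan (e, true)`, reversed,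
for `i = 4 m + 2`.  In the second case of PLN the heights are `1` and `0`, so the points are different. -/
def SpecEMB : Prop := ∀ {V E : Type} [Fintype V] [Fintype E] [DecidableEq V] [DecidableEq E]
  (vt : Dart E → V) (bot top : List (Dart E)) (W : List (Dart E × Dart E)),
  IsDia (fg vt) bot W top → IsEmb vt (real vt bot W)

/-- **PIX** (from NOD, STT; 200 lines).  Index bookkeeping for the polygon of a cycle in the
realisation, `m = W.length`, `n = 4 m + 3` segments for each dart.  The segment number `n r + i` is, for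
the `r`-th dart `d` of `c`: `fan d` (`i = 0`), `up d (i - 1)` (`1 ≤ i ≤ 2 m`), `cap d.1` (`i = 2 m + 1`,
reversed if `d.2 = true`), `up (rv d) (4 m + 1 - i)` reversed (`2 m + 2 ≤ i ≤ 4 m + 1`), `fan (rv d)`
reversed (`i = 4 m + 2`). -/
structure SpecPIX : Prop where
  len : ∀ {V E : Type} [Fintype V] [Fintype E] [DecidableEq V] [DecidableEq E]
    (vt : Dart E → V) (bot : List (Dart E)) (W : List (Dart E × Dart E)) (C : List (Dart E)),
    ((real vt bot W).poly vt C).length = (4 * W.length + 3) * C.length
  fan0 : ∀ {V E : Type} [Fintype V] [Fintype E] [DecidableEq V] [DecidableEq E]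
    (vt : Dart E → V) (bot : List (Dart E)) (W : List (Dart E × Dart E)) (C : List (Dart E)),
    IsCyc (fg vt) C → ∀ r (h : r < C.length), ∀ t,
    pt ((real vt bot W).poly vt C) ((4 * W.length + 3) * r) t = (Lab.fan C[r]).p vt bot W t
  up0 : ∀ {V E : Type} [Fintype V] [Fintype E] [DecidableEq V] [DecidableEq E]
    (vt : Dart E → V) (bot : List (Dart E)) (W : List (Dart E × Dart E)) (C : List (Dart E)),
    IsCyc (fg vt) C → ∀ r (h : r < C.length), ∀ j < 2 * W.length, ∀ t,
    pt ((real vt bot W).poly vt C) ((4 * W.length + 3) * r + 1 + j) t = (Lab.up C[r] j).p vt bot W t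
  cap0 : ∀ {V E : Type} [Fintype V] [Fintype E] [DecidableEq V] [DecidableEq E]
    (vt : Dart E → V) (bot : List (Dart E)) (W : List (Dart E × Dart E)) (C : List (Dart E)),
    IsCyc (fg vt) C → ∀ r (h : r < C.length), ∀ t,
    pt ((real vt bot W).poly vt C) ((4 * W.length + 3) * r + 2 * W.length + 1) t =
      (Lab.cap C[r].1).p vt bot W (if C[r].2 then 1 - t else t)
  up1 : ∀ {V E : Type} [Fintype V] [Fintype E] [DecidableEq V] [DecidableEq E]
    (vt : Dart E → V) (bot : List (Dart E)) (W : List (Dart E × Dart E)) (C : List (Dart E)),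
    IsCyc (fg vt) C → ∀ r (h : r < C.length), ∀ j < 2 * W.length, ∀ t,
    pt ((real vt bot W).poly vt C) ((4 * W.length + 3) * r + 4 * W.length + 1 - j) t =
      (Lab.up (rv C[r]) j).p vt bot W (1 - t)
  fan1 : ∀ {V E : Type} [Fintype V] [Fintype E] [DecidableEq V] [DecidableEq E]
    (vt : Dart E → V) (bot : List (Dart E)) (W : List (Dart E × Dart E)) (C : List (Dart E)),
    IsCyc (fg vt) C → ∀ r (h : r < C.length), ∀ t,
    pt ((real vt bot W).poly vt C) ((4 * W.length + 3) * r + 4 * W.length + 2) t =
      (Lab.fan (rv C[r])).p vt bot W (1 - t)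

/-- **PVC** (from PLN, NOD, PIX, PSU, CYC; 350 lines).  The polygon of a cycle in the realisation has a
regular vertical projection, and its Polyak-Viro number mod 2 is `AW (cv c) W`.  By PLN the crossings
are exactly the events on the cycle: the event number `k`, `W[k] = (o, u)` with both strands on `cv c`,
gives the crossing of the segment `O k` (over) and `U k` (under) at their middle points, where for a
strand `p` with position `idx (cv c) p = 2 r` (upwards) the segment in the slab of the event `k` has
the number `(4 m + 3) r + 2 k + 2`, and for `idx (cv c) p = 2 r + 1` (downwards) `(4 m + 3) r + 4 m -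
2 k`.  The heights are `1` and `0`.  `O`, `U` are injective with disjoint values.  For `k < l`: `O k < U
l ↔ l01 (cv c) o u'`, etc., for `k > l`: `l10`.  So `pv` is the number of the pairs `(k, l)`, `k ≠ l`,
with the pattern, and grouping `(k, l)` and `(l, k)` gives `AW` (`ixs`).  `Reg`: a node of the polygon is
an end point of a segment; PLN with `s ∈ {0, 1}` and NOD; no triple points since the segment `O k` only
meets `U k`. -/
def SpecPVC : Prop := ∀ {V E : Type} [Fintype V] [Fintype E] [DecidableEq V] [DecidableEq E]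
  (vt : Dart E → V) (bot top : List (Dart E)) (W : List (Dart E × Dart E)),
  IsDia (fg vt) bot W top → ∀ c, IsCyc (fg vt) c →
    Reg ((real vt bot W).poly vt c) ∧ (pv ((real vt bot W).poly vt c) : ZMod 2) = AW (cv c) W

/-- **FIN** (from IND, GTW, EMB, PVC; 50 lines).  The conclusion. -/
def SpecFIN : Prop := ∀ (V E : Type) [Fintype V] [Fintype E] [DecidableEq V] [DecidableEq E]
  (vt : Dart E → V), Ia2 vt → ID4 vt

end Pool.Agent.Lib.MP3ff0f8.T
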