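import Pool.Agent.Lib.MP_3ff0f8_gt.T.IND
import Pool.Agent.Lib.MP_3ff0f8_gt.T.Spec

section
/-!
# Module GLA: joining two stars at their centres
-/
namespace Pool.Agent.Lib.MP3ff0f8.T

namespace GLAM

open Finset

/-! ### Words -/

section words

variable {S S' : Type} [DecidableEq S] [DecidableEq S']

theorem on_iff (q : List (S × Bool)) (p : S) : on q p ↔ p ∈ q.map Prod.fst := Iff.rfl

theorem on_append (q r : List (S × Bool)) (p : S) : on (q ++ r) p ↔ on q p ∨ on r p := by
  simp only [on_iff, List.map_append, List.mem_append]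

theorem on_of_mem {q : List (S × Bool)} {p : S} {b : Bool} (h : (p, b) ∈ q) : on q p :=
  List.mem_map.2 ⟨_, h, rfl⟩

theorem on_map {f : S → S'} (hf : Function.Injective f) (q : List (S × Bool)) (p : S) :
    on (q.map (Prod.map f id)) (f p) ↔ on q p := by
  simp only [on_iff, List.map_map]
  constructor
  · intro h
    obtain ⟨x, hx, hxp⟩ := List.mem_map.1 h
    exact List.mem_map.2 ⟨x, hx, hf hxp⟩
  · intro h
    obtain ⟨x, hx, rfl⟩ := List.mem_map.1 h
    exact List.mem_map.2 ⟨x, hx, rfl⟩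

theorem idxOf_map {f : S → S'} (hf : Function.Injective f) (p : S) :
    ∀ l : List S, (l.map f).idxOf (f p) = l.idxOf p
  | [] => rfl
  | a :: l => by
    by_cases h : a = p
    · rw [List.map_cons, h, List.idxOf_cons_self, List.idxOf_cons_self]
    · have h' : f a ≠ f p := fun e => h (hf e)
      rw [List.map_cons, List.idxOf_cons_ne _ h', List.idxOf_cons_ne _ h, idxOf_map hf p l]

theorem idx_map {f : S → S'} (hf : Function.Injective f) (q : List (S × Bool)) (p : S) :
    idx (q.map (Prod.map f id)) (f p) = idx q p := by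
  unfold idx
  rw [← idxOf_map hf p (q.map Prod.fst), List.map_map, List.map_map]
  rfl

theorem mem_map {f : S → S'} (hf : Function.Injective f) (q : List (S × Bool)) (p : S) (b : Bool) :
    (f p, b) ∈ q.map (Prod.map f id) ↔ (p, b) ∈ q := by
  constructor
  · intro h
    obtain ⟨⟨x, c⟩, hx, hxp⟩ := List.mem_map.1 h
    have h1 : f x = f p := congrArg Prod.fst hxp
    have h2 : c = b := congrArg Prod.snd hxp
    rw [← hf h1, ← h2]
    exact hx
  · intro h
    exact List.mem_map.2 ⟨_, h, rfl⟩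

theorem idx_left {q r : List (S × Bool)} {p : S} (h : on q p) : idx (q ++ r) p = idx q p := by
  unfold idx
  rw [List.map_append]
  exact List.idxOf_append_of_mem h

theorem idx_right {q r : List (S × Bool)} {p : S} (h : ¬ on q p) :
    idx (q ++ r) p = q.length + idx r p := by
  unfold idx
  rw [List.map_append, List.idxOf_append_of_notMem h, List.length_map]

theorem idx_lt {q : List (S × Bool)} {p : S} (h : on q p) : idx q p < q.length := by
  unfold idx
  rw [← List.length_map (f := Prod.fst) (as := q)]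
  exact List.idxOf_lt_length_of_mem h

/-- the value of `bet` only depends on the relative position of the four strands -/
theorem bet_cgr (f : S → S') (hf : Function.Injective f) (q : List (S × Bool))
    (q' : List (S' × Bool)) (z w : S × S)
    (hon : ∀ p, p = z.1 ∨ p = z.2 ∨ p = w.1 ∨ p = w.2 → (on q' (f p) ↔ on q p))
    (hidx : ∀ p r, p = z.1 ∨ p = z.2 ∨ p = w.1 ∨ p = w.2 → r = z.1 ∨ r = z.2 ∨ r = w.1 ∨ r = w.2 →
      on q p → on q r → (idx q' (f p) < idx q' (f r) ↔ idx q p < idx q r))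
    (hm : ∀ p b, p = z.1 ∨ p = z.2 ∨ p = w.1 ∨ p = w.2 → ((f p, b) ∈ q' ↔ (p, b) ∈ q)) :
    bet q' (Prod.map f f z) (Prod.map f f w) = bet q z w := by
  unfold bet
  have e1 : (Prod.map f f z).1 = f z.1 := rfl
  have e2 : (Prod.map f f z).2 = f z.2 := rfl
  have e3 : (Prod.map f f w).1 = f w.1 := rfl
  have e4 : (Prod.map f f w).2 = f w.2 := rfl
  rw [e1, e2, e3, e4]
  have p1 : z.1 = z.1 ∨ z.1 = z.2 ∨ z.1 = w.1 ∨ z.1 = w.2 := Or.inl rfl
  have p2 : z.2 = z.1 ∨ z.2 = z.2 ∨ z.2 = w.1 ∨ z.2 = w.2 := Or.inr (Or.inl rfl)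
  have p3 : w.1 = z.1 ∨ w.1 = z.2 ∨ w.1 = w.1 ∨ w.1 = w.2 := Or.inr (Or.inr (Or.inl rfl))
  have p4 : w.2 = z.1 ∨ w.2 = z.2 ∨ w.2 = w.1 ∨ w.2 = w.2 := Or.inr (Or.inr (Or.inr rfl))
  by_cases h : on q z.1 ∧ on q z.2 ∧ on q w.1 ∧ on q w.2
  · have h' : on q' (f z.1) ∧ on q' (f z.2) ∧ on q' (f w.1) ∧ on q' (f w.2) :=
      ⟨(hon _ p1).2 h.1, (hon _ p2).2 h.2.1, (hon _ p3).2 h.2.2.1, (hon _ p4).2 h.2.2.2⟩
    rw [if_pos h, if_pos h']
    have honq : ∀ p, p = z.1 ∨ p = z.2 ∨ p = w.1 ∨ p = w.2 → on q p := by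
      rintro p (rfl | rfl | rfl | rfl)
      · exact h.1
      · exact h.2.1
      · exact h.2.2.1
      · exact h.2.2.2
    have h01 : ∀ p r, p = z.1 ∨ p = z.2 ∨ p = w.1 ∨ p = w.2 →
        r = z.1 ∨ r = z.2 ∨ r = w.1 ∨ r = w.2 → (l01 q' (f p) (f r) ↔ l01 q p r) := by
      intro p r hp hr
      unfold l01
      rw [hidx p r hp hr (honq p hp) (honq r hr), hm p true hp, hf.eq_iff]
    have h10 : ∀ p r, p = z.1 ∨ p = z.2 ∨ p = w.1 ∨ p = w.2 →
        r = z.1 ∨ r = z.2 ∨ r = w.1 ∨ r = w.2 → (l10 q' (f p) (f r) ↔ l10 q p r) := by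
      intro p r hp hr
      unfold l10
      rw [hidx p r hp hr (honq p hp) (honq r hr), hm p false hp, hf.eq_iff]
    have a1 := h01 z.1 w.2 p1 p4
    have a2 := h10 w.2 z.2 p4 p2
    have a3 := h01 z.2 w.1 p2 p3
    have a4 := h10 w.1 z.2 p3 p2
    have a5 := h01 z.2 w.2 p2 p4
    have a6 := h10 w.2 z.1 p4 p1
    simp only [a1, a2, a3, a4, a5, a6]
  · have h' : ¬ (on q' (f z.1) ∧ on q' (f z.2) ∧ on q' (f w.1) ∧ on q' (f w.2)) := by
      rintro ⟨b1, b2, b3, b4⟩
      exact h ⟨(hon _ p1).1 b1, (hon _ p2).1 b2, (hon _ p3).1 b3, (hon _ p4).1 b4⟩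
    rw [if_neg h, if_neg h']

theorem bet_left {f : S → S'} (hf : Function.Injective f) (q : List (S × Bool))
    (r : List (S' × Bool)) (z w : S × S)
    (h : ∀ p, p = z.1 ∨ p = z.2 ∨ p = w.1 ∨ p = w.2 → ¬ on r (f p)) :
    bet (q.map (Prod.map f id) ++ r) (Prod.map f f z) (Prod.map f f w) = bet q z w := by
  refine bet_cgr f hf _ _ _ _ ?_ ?_ ?_
  · intro p hp
    rw [on_append, on_map hf]
    exact or_iff_left (h p hp)
  · intro p s hp hs hpq hsq
    rw [idx_left ((on_map hf q p).2 hpq), idx_left ((on_map hf q s).2 hsq), idx_map hf, idx_map hf]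
  · intro p b hp
    rw [List.mem_append, mem_map hf]
    exact or_iff_left fun h' => h p hp (on_of_mem h')

theorem bet_right {f : S → S'} (hf : Function.Injective f) (q : List (S × Bool))
    (r : List (S' × Bool)) (z w : S × S)
    (h : ∀ p, p = z.1 ∨ p = z.2 ∨ p = w.1 ∨ p = w.2 → ¬ on r (f p)) :
    bet (r ++ q.map (Prod.map f id)) (Prod.map f f z) (Prod.map f f w) = bet q z w := by
  refine bet_cgr f hf _ _ _ _ ?_ ?_ ?_
  · intro p hp
    rw [on_append, on_map hf]
    exact or_iff_right (h p hp)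
  · intro p s hp hs _ _
    rw [idx_right (h p hp), idx_right (h s hs), idx_map hf, idx_map hf]
    omega
  · intro p b hp
    rw [List.mem_append, mem_map hf]
    exact or_iff_right fun h' => h p hp (on_of_mem h')

/-- an event of the second part and a later event of the first part -/
theorem bet_cross (q r : List (S × Bool)) (z w : S × S) (hz1 : ¬ on q z.1) (hz2 : ¬ on q z.2)
    (hw : ¬ on r w.2) : bet (q ++ r) z w = 0 := by
  unfold bet
  by_cases h : on (q ++ r) z.1 ∧ on (q ++ r) z.2 ∧ on (q ++ r) w.1 ∧ on (q ++ r) w.2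
  · have hwq : on q w.2 := ((on_append q r _).1 h.2.2.2).resolve_right hw
    have i1 := idx_right (r := r) hz1
    have i2 := idx_right (r := r) hz2
    have i3 := idx_left (r := r) hwq
    have i4 := idx_lt hwq
    have n1 : z.1 ≠ w.2 := fun e => hz1 (e ▸ hwq)
    have n2 : z.2 ≠ w.2 := fun e => hz2 (e ▸ hwq)
    have m1 : ¬ l01 (q ++ r) z.1 w.2 := by
      rintro (h' | ⟨h', -⟩)
      · omega
      · exact n1 h'
    have m2 : ¬ l01 (q ++ r) z.2 w.2 := by
      rintro (h' | ⟨h', -⟩)
      · omega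
      · exact n2 h'
    rw [if_pos h, if_neg (fun h' => m1 h'.1), if_neg (fun h' => m2 h'.2.1), add_zero]
  · rw [if_neg h]

/-- an event whose under strand is the last strand, traversed downwards -/
theorem bet_last (q : List (S × Bool)) (s : S) (z w : S × S)
    (hq : ((q ++ [(s, false)]).map Prod.fst).Nodup) (hz : z.2 = s) :
    bet (q ++ [(s, false)]) z w = 0 := by
  have hs : ¬ on q s := by
    rw [List.map_append, List.nodup_append] at hq
    intro h
    exact hq.2.2 s h s (by simp) rfl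
  have hst : (s, true) ∉ q ++ [(s, false)] := by
    intro h
    rcases List.mem_append.1 h with h | h
    · exact hs (on_of_mem h)
    · simp at h
  unfold bet
  by_cases h : on (q ++ [(s, false)]) z.1 ∧ on (q ++ [(s, false)]) z.2 ∧
      on (q ++ [(s, false)]) w.1 ∧ on (q ++ [(s, false)]) w.2
  · have i1 := idx_right (r := [(s, false)]) hs
    have i2 := idx_lt h.2.2.1
    have i3 := idx_lt h.2.2.2
    rw [List.length_append, List.length_singleton] at i2 i3
    have m1 : ¬ l01 (q ++ [(s, false)]) s w.1 := by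
      rintro (h' | ⟨-, h'⟩)
      · omega
      · exact hst h'
    have m2 : ¬ l01 (q ++ [(s, false)]) s w.2 := by
      rintro (h' | ⟨-, h'⟩)
      · omega
      · exact hst h'
    rw [if_pos h, hz, if_neg (fun h' => m1 h'.2.2), if_neg (fun h' => m2 h'.2.1), add_zero]
  · rw [if_neg h]

theorem bet_off {q : List (S × Bool)} {z : S × S} (w : S × S) (h : ¬ (on q z.1 ∧ on q z.2)) :
    bet q z w = 0 := by
  unfold bet
  rw [if_neg fun h' => h ⟨h'.1, h'.2.1⟩]

theorem AW_nil (hPSU : SpecPSU) (W : List (S × S)) : AW ([] : List (S × Bool)) W = 0 := by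
  have h := hPSU.pre (bet ([] : List (S × Bool))) W []
    (fun z _ w _ => bet_off w (by rintro ⟨h, -⟩; simp [on_iff] at h))
  rw [List.append_nil] at h
  exact h

end words

/-! ### Strands -/

section graphs

variable {V E : Type} [DecidableEq V] [DecidableEq E] {k : ℕ}

/-- strands of a star, as strands of `g0` -/
def fs (β : Bool) (d : Dart (E ⊕ Fin k)) : Dart (E ⊕ (Fin k × Bool)) :=
  (Sum.map id (fun i => (i, β)) d.1, d.2)

/-- strands of `g0`, as strands of a star -/
def gs (d : Dart (E ⊕ (Fin k × Bool))) : Dart (E ⊕ Fin k) := (Sum.map id Prod.fst d.1, d.2)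

omit [DecidableEq E] in
theorem gs_fs (β : Bool) (d : Dart (E ⊕ Fin k)) : gs (fs β d) = d := by
  obtain ⟨e | i, b⟩ := d <;> rfl

omit [DecidableEq E] in
theorem fs_inj (β : Bool) :
    Function.Injective (fs β : Dart (E ⊕ Fin k) → Dart (E ⊕ (Fin k × Bool))) :=
  fun d d' h => by rw [← gs_fs β d, h, gs_fs]

omit [DecidableEq E] in
theorem fs_rv (β : Bool) (d : Dart (E ⊕ Fin k)) : fs β (rv d) = rv (fs β d) := rfl

omit [DecidableEq E] in
theorem gs_rv (d : Dart (E ⊕ (Fin k × Bool))) : gs (rv d) = rv (gs d) := rfl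

/-- the side of a strand -/
def sd (B : Finset E) (d : Dart (E ⊕ (Fin k × Bool))) : Bool :=
  d.1.elim (fun e => decide (e ∈ B)) Prod.snd

theorem sd_rv (B : Finset E) (d : Dart (E ⊕ (Fin k × Bool))) : sd B (rv d) = sd B d := rfl

theorem fs_gs {B : Finset E} {β : Bool} {d : Dart (E ⊕ (Fin k × Bool))} (h : sd B d = β) :
    fs β (gs d) = d := by
  obtain ⟨e | ⟨i, β'⟩, b⟩ := d
  · rfl
  · have : β' = β := h
    rw [this]
    rfl

/-- forget the side of a vertex -/
def th : (V × Bool) ⊕ Fin k → Option V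
  | Sum.inl p => some p.1
  | Sum.inr _ => none

theorem vt_th (G : Gr V E) (A B X : Finset E) (v : Fin k → V) (d : Dart (E ⊕ (Fin k × Bool))) :
    (star G X v).vt (gs d) = th ((g0 G A B v).vt d) := by
  obtain ⟨e | ⟨i, β⟩, b⟩ := d
  · rfl
  · cases b <;> rfl

theorem vt_inl {G : Gr V E} {A B : Finset E} {v : Fin k → V} {d : Dart (E ⊕ (Fin k × Bool))}
    {w : V} {β : Bool} (h : (g0 G A B v).vt d = Sum.inl (w, β)) : sd B d = β := by
  obtain ⟨e | ⟨i, β'⟩, b⟩ := d
  · have h' : (Sum.inl (G.vt (e, b), decide (e ∈ B)) : (V × Bool) ⊕ Fin k) = Sum.inl (w, β) := h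
    exact congrArg Prod.snd (Sum.inl_injective h')
  · cases b
    · have h' : (Sum.inr i : (V × Bool) ⊕ Fin k) = Sum.inl (w, β) := h
      exact absurd h' (by simp)
    · have h' : (Sum.inl (v i, β') : (V × Bool) ⊕ Fin k) = Sum.inl (w, β) := h
      exact congrArg Prod.snd (Sum.inl_injective h')

theorem vt_inr {G : Gr V E} {A B : Finset E} {v : Fin k → V} {d : Dart (E ⊕ (Fin k × Bool))}
    {i : Fin k} (h : (g0 G A B v).vt d = Sum.inr i) : d = (Sum.inr (i, sd B d), false) := by
  obtain ⟨e | ⟨i', β'⟩, b⟩ := d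
  · have h' : (Sum.inl (G.vt (e, b), decide (e ∈ B)) : (V × Bool) ⊕ Fin k) = Sum.inr i := h
    exact absurd h' (by simp)
  · cases b
    · have h' : (Sum.inr i' : (V × Bool) ⊕ Fin k) = Sum.inr i := h
      rw [Sum.inr_injective h']
      rfl
    · have h' : (Sum.inl (v i', β') : (V × Bool) ⊕ Fin k) = Sum.inr i := h
      exact absurd h' (by simp)

/-- the vertices of a cycle are the ends of its edges -/
theorem vmem {V E : Type} {G : Gr V E} {c : List (Dart E)} (hc : IsCyc G c) (w : V) :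
    w ∈ c.map G.vt ↔ ∃ d : Dart E, d.1 ∈ c.map Prod.fst ∧ G.vt d = w := by
  constructor
  · intro h
    obtain ⟨d, hd, hw⟩ := List.mem_map.1 h
    exact ⟨d, List.mem_map.2 ⟨d, hd, rfl⟩, hw⟩
  · rintro ⟨d, hd, rfl⟩
    obtain ⟨d', hd', hdd⟩ := List.mem_map.1 hd
    rcases CYCM.fst_eq hdd.symm with rfl | rfl
    · exact List.mem_map.2 ⟨d, hd', rfl⟩
    · have h : G.vt (rv d') ∈ c.map fun d => G.vt (rv d) := List.mem_map.2 ⟨d', hd', rfl⟩
      rw [hc.cl, List.mem_rotate] at h
      exact h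

/-! ### Cycles of `g0` -/

variable {G : Gr V E} {A B : Finset E} {v : Fin k → V}

theorem step_sd {p s : List (Dart (E ⊕ (Fin k × Bool)))} {x y : Dart (E ⊕ (Fin k × Bool))}
    (hc : IsCyc (g0 G A B v) (p ++ x :: y :: s)) :
    (sd B y = sd B x ∧ ∀ i, (g0 G A B v).vt y ≠ Sum.inr i) ∨
    (sd B y = !sd B x ∧ ∃ i, (g0 G A B v).vt y = Sum.inr i) := by
  have h1 := (CYCM.step hc).1
  rcases hy : (g0 G A B v).vt y with ⟨w, β⟩ | i
  · left
    refine ⟨?_, fun i h => by cases h⟩
    rw [hy] at h1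
    rw [vt_inl hy, ← sd_rv, vt_inl h1]
  · right
    refine ⟨?_, i, rfl⟩
    rw [hy] at h1
    have e1 := vt_inr hy
    have e2 := vt_inr h1
    rw [sd_rv] at e2
    have hne : x.1 ≠ y.1 := by
      have := hc.nde
      rw [List.map_append, List.nodup_append] at this
      have h3 := this.2.1
      rw [List.map_cons, List.map_cons, List.nodup_cons] at h3
      intro h
      exact h3.1 (by rw [h]; exact List.mem_cons_self)
    have e3 : x.1 = Sum.inr (i, sd B x) := congrArg Prod.fst e2
    have e4 : y.1 = Sum.inr (i, sd B y) := congrArg Prod.fst e1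
    rw [e3, e4] at hne
    by_contra hcon
    refine hne ?_
    have : sd B x = sd B y := by
      revert hcon
      cases sd B x <;> cases sd B y <;> simp
    rw [this]

/-- the chain condition -/
def Ch (B : Finset E) (f : Dart (E ⊕ (Fin k × Bool)) → (V × Bool) ⊕ Fin k) :
    Dart (E ⊕ (Fin k × Bool)) → List (Dart (E ⊕ (Fin k × Bool))) → Prop
  | _, [] => True
  | x, y :: l => ((sd B y = sd B x ∧ ∀ i, f y ≠ Sum.inr i) ∨
      (sd B y = !sd B x ∧ ∃ i, f y = Sum.inr i)) ∧ Ch B f y l

theorem ch_of : ∀ (l p : List (Dart (E ⊕ (Fin k × Bool)))) (x : Dart (E ⊕ (Fin k × Bool))),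
    IsCyc (g0 G A B v) (p ++ x :: l) → Ch B (g0 G A B v).vt x l
  | [], _, _, _ => trivial
  | y :: l, p, x, h => ⟨step_sd h, ch_of l (p ++ [x]) y (by simpa using h)⟩

omit [DecidableEq V] in
theorem split {f : Dart (E ⊕ (Fin k × Bool)) → (V × Bool) ⊕ Fin k} :
    ∀ (l : List (Dart (E ⊕ (Fin k × Bool)))) (x : Dart (E ⊕ (Fin k × Bool))), Ch B f x l →
    (∀ d ∈ l, sd B d = sd B x ∧ ∀ i, f d ≠ Sum.inr i) ∨
    ∃ p y s, l = p ++ y :: s ∧ (∀ d ∈ p, sd B d = sd B x ∧ ∀ i, f d ≠ Sum.inr i) ∧
      sd B y = !sd B x ∧ (∃ i, f y = Sum.inr i) ∧ Ch B f y s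
  | [], _, _ => Or.inl fun d hd => absurd hd (by simp)
  | y :: l, x, ⟨h, h'⟩ => by
    rcases h with ⟨h1, h2⟩ | ⟨h1, h2⟩
    · rcases split l y h' with h3 | ⟨p, z, s, h3, h4, h5, h6, h7⟩
      · left
        intro d hd
        rcases List.mem_cons.1 hd with rfl | hd
        · exact ⟨h1, h2⟩
        · rw [← h1]
          exact h3 d hd
      · right
        refine ⟨y :: p, z, s, by rw [h3]; rfl, ?_, by rw [h5, h1], h6, h7⟩
        intro d hd
        rcases List.mem_cons.1 hd with rfl | hd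
        · exact ⟨h1, h2⟩
        · rw [← h1]
          exact h4 d hd
    · exact Or.inr ⟨[], y, l, rfl, fun d hd => absurd hd (by simp), h1, h2, h'⟩

theorem decomp (hk : k ≤ 3) {x : Dart (E ⊕ (Fin k × Bool))}
    {l : List (Dart (E ⊕ (Fin k × Bool)))} (hc : IsCyc (g0 G A B v) (x :: l))
    (hx : sd B x = true) {j : Fin k} (hj : (g0 G A B v).vt x = Sum.inr j)
    (hlast : ∀ z, (x :: l).getLast? = some z → sd B z = false) :
    ∃ p y s i, l = p ++ y :: s ∧ (∀ d ∈ p, sd B d = true ∧ ∀ i, (g0 G A B v).vt d ≠ Sum.inr i) ∧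
      sd B y = false ∧ (g0 G A B v).vt y = Sum.inr i ∧
      ∀ d ∈ s, sd B d = false ∧ ∀ i, (g0 G A B v).vt d ≠ Sum.inr i := by
  have hlm : ∀ (q : List (Dart (E ⊕ (Fin k × Bool)))) (z : Dart (E ⊕ (Fin k × Bool)))
      (r : List (Dart (E ⊕ (Fin k × Bool)))), x :: l = q ++ z :: r →
      (∀ d ∈ z :: r, sd B d = true) → False := by
    intro q z r h h'
    have h1 : (z :: r).getLast? = some ((z :: r).getLast (by simp)) :=
      List.getLast?_eq_some_getLast _
    have h2 : (x :: l).getLast? = some ((z :: r).getLast (by simp)) := by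
      rw [h, List.getLast?_append, h1]
      rfl
    have h3 := hlast _ h2
    rw [h' _ (List.getLast_mem _)] at h3
    exact absurd h3 (by simp)
  have hch : Ch B (g0 G A B v).vt x l := ch_of l [] x hc
  rcases split l x hch with h | ⟨p, y, s, h1, h2, h3, ⟨i, hi⟩, h5⟩
  · exfalso
    refine hlm [] x l rfl ?_
    intro d hd
    rcases List.mem_cons.1 hd with rfl | hd
    · exact hx
    · rw [(h d hd).1, hx]
  · rw [hx] at h2 h3
    simp only [Bool.not_true] at h3
    rcases split s y h5 with h | ⟨p', y', s', h1', h2', h3', ⟨i', hi'⟩, h5'⟩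
    · rw [h3] at h
      exact ⟨p, y, s, i, h1, h2, h3, hi, h⟩
    · exfalso
      rw [h3] at h3'
      simp only [Bool.not_false] at h3'
      rcases split s' y' h5' with h | ⟨p'', y'', s'', h1'', -, -, ⟨i'', hi''⟩, -⟩
      · refine hlm (x :: (p ++ y :: p')) y' s' (by rw [h1, h1']; simp) ?_
        intro d hd
        rcases List.mem_cons.1 hd with rfl | hd
        · exact h3'
        · rw [(h d hd).1, h3']
      · have hsub : [x, y, y', y''].Sublist (x :: l) := by
          rw [h1, h1', h1'']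
          refine List.Sublist.cons_cons _ ?_
          refine List.Sublist.trans ?_ (List.sublist_append_right _ _)
          refine List.Sublist.cons_cons _ ?_
          refine List.Sublist.trans ?_ (List.sublist_append_right _ _)
          refine List.Sublist.cons_cons _ ?_
          refine List.Sublist.trans ?_ (List.sublist_append_right _ _)
          exact List.Sublist.cons_cons _ (List.nil_sublist _)
        have hnd := (hsub.map (g0 G A B v).vt).nodup hc.ndv
        simp only [List.map_cons, List.map_nil, hj, hi, hi', hi'', List.nodup_cons, List.mem_cons,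
          List.not_mem_nil, or_false, not_or, Sum.inr.injEq, Fin.ext_iff, List.nodup_nil,
          not_false_eq_true, and_true] at hnd
        have a1 := j.2
        have a2 := i.2
        have a3 := i'.2
        have a4 := i''.2
        omega

/-- a part of a cycle of `g0` in one side gives a cycle of the star -/
theorem piece {X : Finset E} {β : Bool} (hX : ∀ e, e ∈ A ∪ B → decide (e ∈ B) = β → e ∈ X)
    {p : List (Dart (E ⊕ (Fin k × Bool)))} (hne : p ≠ []) (hm : ∀ d ∈ p, d.1 ∈ (g0 G A B v).X)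
    (hs : ∀ d ∈ p, sd B d = β) (nde : (p.map Prod.fst).Nodup)
    (ndv : (p.map fun d => th ((g0 G A B v).vt d)).Nodup)
    (cl : (p.map fun d => th ((g0 G A B v).vt (rv d))) =
      (p.map fun d => th ((g0 G A B v).vt d)).rotate 1) :
    IsCyc (star G X v) (p.map gs) where
  ne := by simpa using hne
  mem := by
    intro d hd
    obtain ⟨d', hd', rfl⟩ := List.mem_map.1 hd
    have h1 := hm d' hd'
    have h2 := hs d' hd'
    obtain ⟨e | ⟨i, β'⟩, b⟩ := d'
    · have h3 : e ∈ A ∪ B := by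
        simpa [g0] using h1
      have h4 : e ∈ X := hX e h3 h2
      simpa [star, gs] using h4
    · simp [star, gs]
  nde := by
    rw [List.map_map]
    have : (p.map (Prod.fst ∘ gs)).map (Sum.map id fun i => (i, β)) = p.map Prod.fst := by
      rw [List.map_map]
      refine List.map_congr_left ?_
      intro d hd
      exact congrArg Prod.fst (fs_gs (hs d hd))
    refine List.Nodup.of_map (Sum.map id fun i => (i, β)) ?_
    rw [this]
    exact nde
  ndv := by
    rw [List.map_map]
    have : (star G X v).vt ∘ gs = fun d => th ((g0 G A B v).vt d) := funext fun d => vt_th G A B X v d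
    rw [this]
    exact ndv
  cl := by
    rw [List.map_map, List.map_map]
    have e1 : (star G X v).vt ∘ gs = fun d => th ((g0 G A B v).vt d) :=
      funext fun d => vt_th G A B X v d
    have e2 : (fun d => (star G X v).vt (rv d)) ∘ gs = fun d => th ((g0 G A B v).vt (rv d)) :=
      funext fun d => vt_th G A B X v (rv d)
    rw [e1, e2]
    exact cl

theorem th_nodup {p : List (Dart (E ⊕ (Fin k × Bool)))} {β : Bool}
    (hp : ∀ d ∈ p, sd B d = β ∧ ∀ i, (g0 G A B v).vt d ≠ Sum.inr i)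
    (h : (p.map (g0 G A B v).vt).Nodup) : (p.map fun d => th ((g0 G A B v).vt d)).Nodup := by
  have e : (p.map fun d => th ((g0 G A B v).vt d)) = (p.map (g0 G A B v).vt).map th := by
    rw [List.map_map]
    rfl
  rw [e]
  refine List.Nodup.map_on ?_ h
  have key : ∀ a ∈ p.map (g0 G A B v).vt, ∃ w, a = Sum.inl (w, β) := by
    intro a ha
    obtain ⟨d, hd, rfl⟩ := List.mem_map.1 ha
    rcases hy : (g0 G A B v).vt d with ⟨w, β'⟩ | i
    · rw [← vt_inl hy, (hp d hd).1]
      exact ⟨w, rfl⟩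
    · exact absurd hy ((hp d hd).2 i)
  intro a ha b hb hab
  obtain ⟨w, rfl⟩ := key a ha
  obtain ⟨w', rfl⟩ := key b hb
  have : w = w' := Option.some.inj hab
  rw [this]

theorem th_none {p : List (Dart (E ⊕ (Fin k × Bool)))} {β : Bool}
    (hp : ∀ d ∈ p, sd B d = β ∧ ∀ i, (g0 G A B v).vt d ≠ Sum.inr i) :
    none ∉ p.map fun d => th ((g0 G A B v).vt d) := by
  intro h
  obtain ⟨d, hd, h'⟩ := List.mem_map.1 h
  rcases hy : (g0 G A B v).vt d with ⟨w, β'⟩ | i
  · rw [hy] at h'
    exact absurd h' (by simp [th])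
  · exact absurd hy ((hp d hd).2 i)

theorem last_of {x : Dart (E ⊕ (Fin k × Bool))} {l : List (Dart (E ⊕ (Fin k × Bool)))} {j : Fin k}
    (hc : IsCyc (g0 G A B v) (x :: l)) (hx : (g0 G A B v).vt x = Sum.inr j) :
    ∃ q, x :: l = q ++ [(Sum.inr (j, !sd B x), true)] := by
  obtain ⟨q, z, hz⟩ : ∃ q z, x :: l = q ++ [z] :=
    ⟨(x :: l).dropLast, (x :: l).getLast (by simp), (List.dropLast_append_getLast _).symm⟩
  have h1 := (CYCM.two hc (d := x) (l := z) rfl (by rw [hz]; simp)).1
  rw [hx] at h1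
  have h2 := vt_inr h1
  rw [sd_rv] at h2
  have h3 : z = (Sum.inr (j, sd B z), true) := by
    rw [← CYCM.rv_rv z, h2]
    rfl
  have h4 := vt_inr hx
  have h5 : sd B z ≠ sd B x := by
    intro h
    have h6 : z.1 = x.1 := by
      rw [h3, h4, h]
    have h7 : z = x := List.inj_on_of_nodup_map hc.nde (by rw [hz]; simp) (by simp) h6
    have h8 : z.2 = true := by rw [h3]
    have h9 : x.2 = false := by rw [h4]
    rw [h7, h9] at h8
    exact absurd h8 (by simp)
  have h6 : sd B z = !sd B x := by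
    revert h5
    cases sd B z <;> cases sd B x <;> simp
  refine ⟨q, ?_⟩
  rw [← h6, ← h3]
  exact hz

theorem start {c : List (Dart (E ⊕ (Fin k × Bool)))} {j : Fin k} (hc : IsCyc (g0 G A B v) c)
    (hj : Sum.inr j ∈ c.map (g0 G A B v).vt) :
    ∃ l, IsCyc (g0 G A B v) ((Sum.inr (j, true), false) :: l) ∧
      ∀ e, e ∈ ((Sum.inr (j, true), false) :: l : List (Dart (E ⊕ (Fin k × Bool)))).map Prod.fst ↔
        e ∈ c.map Prod.fst := by
  obtain ⟨d, hd, hv⟩ := List.mem_map.1 hj
  obtain ⟨a, b, hab⟩ := List.append_of_mem hd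
  have h1 : IsCyc (g0 G A B v) (d :: b ++ a) := by
    have := CYCM.rot a.length hc
    rw [hab, List.rotate_append_length_eq] at this
    exact this
  have h2 : ∀ e, e ∈ (d :: b ++ a).map Prod.fst ↔ e ∈ c.map Prod.fst := by
    intro e
    rw [hab]
    simp only [List.map_append, List.map_cons, List.mem_append, List.mem_cons]
    tauto
  have h3 := vt_inr hv
  rcases hβ : sd B d with _ | _
  · rw [List.cons_append] at h1 h2
    obtain ⟨q, hq⟩ := last_of h1 hv
    rw [hβ] at hq
    have h4 := CYCM.rev h1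
    have h5 : rvc (d :: (b ++ a)) = (Sum.inr (j, true), false) :: (q.map rv).reverse := by
      rw [hq]
      simp [rvc, rv]
    rw [h5] at h4
    refine ⟨_, h4, fun e => ?_⟩
    rw [← h5, ← h2 e]
    simp [rvc, rv]
    tauto
  · rw [hβ] at h3
    rw [← h3]
    exact ⟨b ++ a, h1, h2⟩

theorem main_dec (hk : k ≤ 3) {c : List (Dart (E ⊕ (Fin k × Bool)))}
    (hc : IsCyc (g0 G A B v) c) :
    ∃ c₂ c₁, IsCyc (g0 G A B v) (c₂ ++ c₁) ∧
      (∀ e, e ∈ (c₂ ++ c₁).map Prod.fst ↔ e ∈ c.map Prod.fst) ∧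
      (∀ d ∈ c₂, sd B d = true) ∧ (∀ d ∈ c₁, sd B d = false) ∧
      (c₂ = [] ∨ IsCyc (star G B v) (c₂.map gs)) ∧ (c₁ = [] ∨ IsCyc (star G A v) (c₁.map gs)) ∧
      ∀ i j : Fin k, i < j → Sum.inr (i, true) ∈ (c₂ ++ c₁).map Prod.fst →
        Sum.inr (j, false) ∈ (c₂ ++ c₁).map Prod.fst →
        ∃ q, c₂ ++ c₁ = q ++ [(Sum.inr (j, false), true)] := by
  classical
  have hXB : ∀ e, e ∈ A ∪ B → decide (e ∈ B) = true → e ∈ B := fun e _ h => of_decide_eq_true h
  have hXA : ∀ e, e ∈ A ∪ B → decide (e ∈ B) = false → e ∈ A := fun e h h' =>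
    (Finset.mem_union.1 h).resolve_right (of_decide_eq_false h')
  by_cases hJ : ∃ j, Sum.inr j ∈ c.map (g0 G A B v).vt
  · have hJne : (Finset.univ.filter fun i : Fin k => Sum.inr i ∈ c.map (g0 G A B v).vt).Nonempty := by
      obtain ⟨j, hj⟩ := hJ
      exact ⟨j, Finset.mem_filter.2 ⟨Finset.mem_univ _, hj⟩⟩
    obtain ⟨j, hjJ, hmax⟩ := Finset.exists_max_image _ id hJne
    have hj := (Finset.mem_filter.1 hjJ).2
    obtain ⟨l, hl, hle⟩ := start hc hj
    set x : Dart (E ⊕ (Fin k × Bool)) := (Sum.inr (j, true), false) with hxdef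
    have hsx : sd B x = true := rfl
    have hvx : (g0 G A B v).vt x = Sum.inr j := rfl
    obtain ⟨q, hq⟩ := last_of hl hvx
    rw [hsx, Bool.not_true] at hq
    have hlast : ∀ z, (x :: l).getLast? = some z → sd B z = false := by
      intro z hz
      rw [hq, List.getLast?_append] at hz
      have : (Sum.inr (j, false), true) = z := by simpa using hz
      rw [← this]
      rfl
    obtain ⟨p, y, s, i, hl', hp, hsy, hvy, hs⟩ := decomp hk hl hsx hvx hlast
    have hcons : x :: l = (x :: p) ++ (y :: s) := by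
      rw [hl']
      rfl
    rw [hcons] at hl hle hq
    have hvm : ∀ i' : Fin k, Sum.inr i' ∈ ((x :: p) ++ (y :: s)).map (g0 G A B v).vt →
        i' = i ∨ i' = j := by
      intro i' h
      obtain ⟨d, hd, hdi⟩ := List.mem_map.1 h
      rcases List.mem_append.1 hd with hd | hd
      · rcases List.mem_cons.1 hd with rfl | hd
        · rw [hvx] at hdi
          exact Or.inr (Sum.inr_injective hdi).symm
        · exact absurd hdi ((hp d hd).2 i')
      · rcases List.mem_cons.1 hd with rfl | hd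
        · rw [hvy] at hdi
          exact Or.inl (Sum.inr_injective hdi).symm
        · exact absurd hdi ((hs d hd).2 i')
    have hij : i ≤ j := by
      refine hmax i (Finset.mem_filter.2 ⟨Finset.mem_univ _, ?_⟩)
      rw [vmem hc]
      have h1 : Sum.inr i ∈ ((x :: p) ++ (y :: s)).map (g0 G A B v).vt :=
        List.mem_map.2 ⟨y, by simp, hvy⟩
      obtain ⟨d, hd, hdi⟩ := (vmem hl _).1 h1
      exact ⟨d, (hle _).1 hd, hdi⟩
    have hcl := hl.cl
    have hcl' : (x :: p).map (fun d => (g0 G A B v).vt (rv d)) ++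
        (y :: s).map (fun d => (g0 G A B v).vt (rv d)) =
        (p.map (g0 G A B v).vt ++ [Sum.inr i]) ++ (s.map (g0 G A B v).vt ++ [Sum.inr j]) := by
      rw [← List.map_append, hcl, ← hvy, ← hvx]
      simp
    obtain ⟨cl2, cl1⟩ := List.append_inj hcl' (by simp)
    have hnd := hl.ndv
    rw [List.map_append, List.nodup_append] at hnd
    have hnde := hl.nde
    rw [List.map_append, List.nodup_append] at hnde
    have hxp : ∀ d ∈ x :: p, sd B d = true := by
      intro d hd
      rcases List.mem_cons.1 hd with rfl | hd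
      · exact hsx
      · exact (hp d hd).1
    have hys : ∀ d ∈ y :: s, sd B d = false := by
      intro d hd
      rcases List.mem_cons.1 hd with rfl | hd
      · exact hsy
      · exact (hs d hd).1
    refine ⟨x :: p, y :: s, hl, hle, hxp, hys, Or.inr ?_, Or.inr ?_, ?_⟩
    · refine piece hXB (by simp) (fun d hd => hl.mem d (List.mem_append_left _ hd)) hxp hnde.1 ?_ ?_
      · rw [List.map_cons, List.nodup_cons]
        refine ⟨?_, th_nodup hp (List.nodup_cons.1 hnd.1).2⟩
        rw [hvx]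
        exact th_none hp
      · have e1 : (x :: p).map (fun d => th ((g0 G A B v).vt (rv d))) =
            ((x :: p).map fun d => (g0 G A B v).vt (rv d)).map th := by
          rw [List.map_map]
          rfl
        rw [e1, cl2, List.map_append, List.map_map]
        simp only [List.map_cons, List.map_nil, List.rotate_cons_succ, List.rotate_zero, hvx]
        rfl
    · refine piece hXA (by simp) (fun d hd => hl.mem d (List.mem_append_right _ hd)) hys
        hnde.2.1 ?_ ?_
      · rw [List.map_cons, List.nodup_cons]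
        refine ⟨?_, th_nodup hs (List.nodup_cons.1 hnd.2.1).2⟩
        rw [hvy]
        exact th_none hs
      · have e1 : (y :: s).map (fun d => th ((g0 G A B v).vt (rv d))) =
            ((y :: s).map fun d => (g0 G A B v).vt (rv d)).map th := by
          rw [List.map_map]
          rfl
        rw [e1, cl1, List.map_append, List.map_map]
        simp only [List.map_cons, List.map_nil, List.rotate_cons_succ, List.rotate_zero, hvy]
        rfl
    · intro i' j' hij' hi' hj'
      have h1 := hvm i' ((vmem hl _).2 ⟨(Sum.inr (i', true), false), hi', rfl⟩)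
      have h2 := hvm j' ((vmem hl _).2 ⟨(Sum.inr (j', false), false), hj', rfl⟩)
      have h3 : j' = j := by
        rcases h2 with rfl | rfl
        · rcases h1 with rfl | rfl
          · exact absurd hij' (lt_irrefl _)
          · exact absurd hij' (not_lt.2 hij)
        · rfl
      rw [h3]
      exact ⟨q, hq⟩
  · have hno : ∀ d ∈ c, ∀ i, (g0 G A B v).vt d ≠ Sum.inr i :=
      fun d hd i h => hJ ⟨i, List.mem_map.2 ⟨d, hd, h⟩⟩
    cases c with
    | nil => exact absurd rfl hc.ne
    | cons x l =>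
      have hside : ∀ d ∈ x :: l, sd B d = sd B x := by
        rcases split l x (ch_of l [] x hc) with h | ⟨p, y, s, h1, -, -, ⟨i, hi⟩, -⟩
        · intro d hd
          rcases List.mem_cons.1 hd with rfl | hd
          · rfl
          · exact (h d hd).1
        · exact absurd hi (hno y (by rw [h1]; simp) i)
      have hcyc : ∀ X : Finset E, (∀ e, e ∈ A ∪ B → decide (e ∈ B) = sd B x → e ∈ X) →
          IsCyc (star G X v) ((x :: l).map gs) := by
        intro X hX
        refine piece hX (by simp) hc.mem hside hc.nde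
          (th_nodup (fun d hd => ⟨hside d hd, hno d hd⟩) hc.ndv) ?_
        have e1 : (x :: l).map (fun d => th ((g0 G A B v).vt (rv d))) =
            ((x :: l).map fun d => (g0 G A B v).vt (rv d)).map th := by
          rw [List.map_map]
          rfl
        have e2 : (x :: l).map (fun d => th ((g0 G A B v).vt d)) =
            ((x :: l).map (g0 G A B v).vt).map th := by
          rw [List.map_map]
          rfl
        rw [e1, e2, hc.cl, List.map_rotate]
      have hvac : ∀ j : Fin k, Sum.inr (j, false) ∉ (x :: l).map Prod.fst := by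
        intro j hj
        exact hJ ⟨j, (vmem hc _).2 ⟨(Sum.inr (j, false), false), hj, rfl⟩⟩
      rcases hβ : sd B x with _ | _
      · refine ⟨[], x :: l, hc, fun e => Iff.rfl, fun d hd => absurd hd (by simp),
          fun d hd => by rw [hside d hd, hβ], Or.inl rfl, Or.inr (hcyc A ?_), ?_⟩
        · rw [hβ]
          exact hXA
        · intro i j _ _ hj
          exact absurd hj (hvac j)
      · refine ⟨x :: l, [], by rw [List.append_nil]; exact hc, fun e => by rw [List.append_nil],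
          fun d hd => by rw [hside d hd, hβ], fun d hd => absurd hd (by simp),
          Or.inr (hcyc B ?_), Or.inl rfl, ?_⟩
        · rw [hβ]
          exact hXB
        · intro i j _ _ hj
          rw [List.append_nil] at hj
          exact absurd hj (hvac j)

/-! ### Values -/

omit [DecidableEq V] in
theorem cv_gs {β : Bool} : ∀ {c : List (Dart (E ⊕ (Fin k × Bool)))}, (∀ d ∈ c, sd B d = β) →
    cv c = (cv (c.map gs)).map (Prod.map (fs β) id)
  | [], _ => rfl
  | d :: c, h => by
    have ih := cv_gs (c := c) fun d' hd' => h d' (List.mem_cons_of_mem _ hd')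
    have h1 : sd B d = β := h d List.mem_cons_self
    have h2 : sd B (rv d) = β := h1
    have e : cv (d :: c) = (d, true) :: (rv d, false) :: cv c := rfl
    have e' : cv ((d :: c).map gs) = (gs d, true) :: (rv (gs d), false) :: cv (c.map gs) := rfl
    rw [e, e', ih, List.map_cons, List.map_cons, Prod.map_apply, Prod.map_apply, ← gs_rv, fs_gs h1,
      fs_gs h2]
    rfl

omit [DecidableEq V] in
theorem cv_sd {β : Bool} {c : List (Dart (E ⊕ (Fin k × Bool)))} (h : ∀ d ∈ c, sd B d = β)
    {s : Dart (E ⊕ (Fin k × Bool))} (hs : sd B s = !β) : ¬ on (cv c) s := by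
  intro ho
  obtain ⟨x, hx, rfl⟩ := List.mem_map.1 ho
  unfold cv at hx
  obtain ⟨d, hd, hx⟩ := List.mem_flatMap.1 hx
  have h1 := h d hd
  have h2 : sd B x.1 = β := by
    rcases List.mem_cons.1 hx with rfl | hx
    · exact h1
    · rw [List.mem_singleton.1 hx]
      exact h1
  rw [h2] at hs
  revert hs
  cases β <;> simp

omit [DecidableEq V] in
theorem AWA (hPSU : SpecPSU) {c₂ c₁ : List (Dart (E ⊕ (Fin k × Bool)))}
    (h2 : ∀ d ∈ c₂, sd B d = true) (h1 : ∀ d ∈ c₁, sd B d = false)
    {W : List (Dart (E ⊕ Fin k) × Dart (E ⊕ Fin k))}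
    (hW : ∀ z ∈ W, sd B (fs false z.1) = false ∧ sd B (fs false z.2) = false) :
    AW (cv c₂ ++ cv c₁) (W.map (Prod.map (fs false) (fs false))) = AW (cv (c₁.map gs)) W := by
  unfold AW
  rw [hPSU.map]
  refine hPSU.cgr _ _ _ ?_
  intro z hz w hw
  rw [cv_gs h1]
  refine bet_right (fs_inj false) _ _ z w ?_
  rintro p (rfl | rfl | rfl | rfl)
  · exact cv_sd h2 (hW z hz).1
  · exact cv_sd h2 (hW z hz).2
  · exact cv_sd h2 (hW w hw).1
  · exact cv_sd h2 (hW w hw).2

omit [DecidableEq V] in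
theorem AWB (hPSU : SpecPSU) {c₂ c₁ : List (Dart (E ⊕ (Fin k × Bool)))}
    (h2 : ∀ d ∈ c₂, sd B d = true) (h1 : ∀ d ∈ c₁, sd B d = false)
    {W : List (Dart (E ⊕ Fin k) × Dart (E ⊕ Fin k))}
    (hW : ∀ z ∈ W, sd B (fs true z.1) = true ∧ sd B (fs true z.2) = true) :
    AW (cv c₂ ++ cv c₁) (W.map (Prod.map (fs true) (fs true))) = AW (cv (c₂.map gs)) W := by
  unfold AW
  rw [hPSU.map]
  refine hPSU.cgr _ _ _ ?_
  intro z hz w hw
  rw [cv_gs h2]
  refine bet_left (fs_inj true) _ _ z w ?_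
  rintro p (rfl | rfl | rfl | rfl)
  · exact cv_sd h1 (hW z hz).1
  · exact cv_sd h1 (hW z hz).2
  · exact cv_sd h1 (hW w hw).1
  · exact cv_sd h1 (hW w hw).2

theorem cr_zero {α : Type} (g : α → α → ZMod 2) (A B : List α) (h : ∀ z ∈ A, ∀ w ∈ B, g z w = 0) :
    cr g A B = 0 := by
  unfold cr
  refine List.sum_eq_zero ?_
  intro x hx
  obtain ⟨z, hz, rfl⟩ := List.mem_map.1 hx
  refine List.sum_eq_zero ?_
  intro y hy
  obtain ⟨w, hw, rfl⟩ := List.mem_map.1 hy
  exact h z hz w hw

/-- the strands at the new vertices -/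
def ya (i : Fin k) : Dart (E ⊕ (Fin k × Bool)) := (Sum.inr (i, false), false)

/-- the strands at the new vertices -/
def yb (i : Fin k) : Dart (E ⊕ (Fin k × Bool)) := (Sum.inr (i, true), false)

theorem total (hPSU : SpecPSU) (hCYC : SpecCYC) {c₂ c₁ : List (Dart (E ⊕ (Fin k × Bool)))}
    (hc : IsCyc (g0 G A B v) (c₂ ++ c₁))
    (h2 : ∀ d ∈ c₂, sd B d = true) (h1 : ∀ d ∈ c₁, sd B d = false)
    {W₁ W₂ : List (Dart (E ⊕ Fin k) × Dart (E ⊕ Fin k))}
    {U : List (Dart (E ⊕ (Fin k × Bool)) × Dart (E ⊕ (Fin k × Bool)))}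
    (hW1 : ∀ z ∈ W₁, sd B (fs false z.1) = false ∧ sd B (fs false z.2) = false)
    (hW2 : ∀ z ∈ W₂, sd B (fs true z.1) = true ∧ sd B (fs true z.2) = true)
    (hU : ∀ z ∈ U, ∃ i j : Fin k, i < j ∧ z = (yb i, ya j))
    (hL : ∀ i j : Fin k, i < j → Sum.inr (i, true) ∈ (c₂ ++ c₁).map Prod.fst →
        Sum.inr (j, false) ∈ (c₂ ++ c₁).map Prod.fst →
        ∃ q, c₂ ++ c₁ = q ++ [(Sum.inr (j, false), true)])
    (hv2 : AW (cv (c₂.map gs)) W₂ = 0) (hv1 : AW (cv (c₁.map gs)) W₁ = 0) :
    AW (cv (c₂ ++ c₁)) (U ++ (W₁.map (Prod.map (fs false) (fs false)) ++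
      W₂.map (Prod.map (fs true) (fs true)))) = 0 := by
  have hUz : ∀ z ∈ U, ∀ w : Dart (E ⊕ (Fin k × Bool)) × Dart (E ⊕ (Fin k × Bool)),
      bet (cv (c₂ ++ c₁)) z w = 0 := by
    intro z hz w
    obtain ⟨i, j, hij, rfl⟩ := hU z hz
    by_cases h : on (cv (c₂ ++ c₁)) (yb i) ∧ on (cv (c₂ ++ c₁)) (ya j)
    · obtain ⟨q, hq⟩ := hL i j hij ((hCYC.on _).1 h.1) ((hCYC.on _).1 h.2)
      have e : cv (c₂ ++ c₁) = (cv q ++ [((Sum.inr (j, false), true), true)]) ++
          [((ya j : Dart (E ⊕ (Fin k × Bool))), false)] := by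
        rw [hq]
        simp [cv, rv, ya]
      have hnd := hCYC.cvnd hc
      rw [e] at hnd ⊢
      exact bet_last _ _ _ _ hnd rfl
    · exact bet_off w h
  have e1 : AW (cv (c₂ ++ c₁)) (U ++ (W₁.map (Prod.map (fs false) (fs false)) ++
      W₂.map (Prod.map (fs true) (fs true)))) = AW (cv (c₂ ++ c₁))
        (W₁.map (Prod.map (fs false) (fs false)) ++ W₂.map (Prod.map (fs true) (fs true))) :=
    hPSU.pre _ _ _ fun z hz w _ => hUz z hz w
  have e2 : cv (c₂ ++ c₁) = cv c₂ ++ cv c₁ := by simp [cv]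
  have e3 : AW (cv c₂ ++ cv c₁)
        (W₁.map (Prod.map (fs false) (fs false)) ++ W₂.map (Prod.map (fs true) (fs true))) =
      AW (cv c₂ ++ cv c₁) (W₁.map (Prod.map (fs false) (fs false))) +
      AW (cv c₂ ++ cv c₁) (W₂.map (Prod.map (fs true) (fs true))) + 0 := by
    unfold AW
    rw [hPSU.app, cr_zero]
    intro z hz w hw
    obtain ⟨z', hz', rfl⟩ := List.mem_map.1 hz
    obtain ⟨w', hw', rfl⟩ := List.mem_map.1 hw
    exact bet_cross _ _ _ _ (cv_sd h2 (hW1 z' hz').1) (cv_sd h2 (hW1 z' hz').2)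
      (cv_sd h1 (hW2 w' hw').2)
  rw [e1, e2, e3, AWA hPSU h2 h1 hW1, AWB hPSU h2 h1 hW2, hv2, hv1]
  simp

/-! ### The diagram -/

/-- the interleaved block -/
def il (l : List (Fin k)) : List (Dart (E ⊕ (Fin k × Bool))) := l.flatMap fun i => [ya i, yb i]

omit [DecidableEq V] [DecidableEq E] in
theorem il_run (hRUN : SpecRUN) : ∀ l : List (Fin k), l.Pairwise (· < ·) →
    ∃ U : List (Dart (E ⊕ (Fin k × Bool)) × Dart (E ⊕ (Fin k × Bool))),
      Run (il l) U (l.map ya ++ l.map yb) ∧
      ∀ z ∈ U, ∃ i j : Fin k, i < j ∧ z = (yb i, ya j)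
  | [], _ => ⟨[], Run.nil _, fun z hz => absurd hz (by simp)⟩
  | i :: l, h => by
    rw [List.pairwise_cons] at h
    obtain ⟨U, hU, hU'⟩ := il_run hRUN l h.2
    obtain ⟨W, hW, hW'⟩ := hRUN.exch [(yb i : Dart (E ⊕ (Fin k × Bool)))] (l.map ya)
    refine ⟨U ++ W, ?_, ?_⟩
    · have r1 := hRUN.ctx [ya i, yb i] [] hU
      have r2 := hRUN.ctx [ya i] (l.map yb) hW
      have e1 : [ya i, yb i] ++ il l ++ [] = (il (i :: l) : List (Dart (E ⊕ (Fin k × Bool)))) := by
        rw [List.append_nil]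
        rfl
      have e2 : [(ya i : Dart (E ⊕ (Fin k × Bool))), yb i] ++ (l.map ya ++ l.map yb) ++ [] =
          [ya i] ++ ([yb i] ++ l.map ya) ++ l.map yb := by simp
      have e3 : [(ya i : Dart (E ⊕ (Fin k × Bool)))] ++ (l.map ya ++ [yb i]) ++ l.map yb =
          (i :: l).map ya ++ (i :: l).map yb := by simp
      rw [e1, e2] at r1
      rw [e3] at r2
      exact hRUN.trans r1 r2
    · intro z hz
      rcases List.mem_append.1 hz with hz | hz
      · exact hU' z hz
      · obtain ⟨h1, h2⟩ := hW' z hz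
        obtain ⟨j, hj, hj'⟩ := List.mem_map.1 h2
        refine ⟨i, j, h.1 j hj, ?_⟩
        rw [List.mem_singleton] at h1
        rw [← h1, hj']

theorem il_blk (hBLK : SpecBLK) : ∀ l : List (Fin k), l.Nodup → Blocks (g0 G A B v).vt (il l)
  | [], _ => fun a b c h _ => absurd (h.subset (by simp : a ∈ [a, b, c])) (by simp [il])
  | i :: l, h => by
    have e : (il (i :: l) : List (Dart (E ⊕ (Fin k × Bool)))) = [ya i, yb i] ++ il l := rfl
    rw [List.nodup_cons] at h
    rw [e]
    refine hBLK.app _ _ _ (hBLK.one _ _ (Sum.inr i) ?_) (il_blk hBLK l h.2) ?_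
    · intro x hx
      rcases List.mem_cons.1 hx with rfl | hx
      · rfl
      · rw [List.mem_singleton.1 hx]
        rfl
    · intro x hx y hy
      have h1 : (g0 G A B v).vt x = Sum.inr i := by
        rcases List.mem_cons.1 hx with rfl | hx
        · rfl
        · rw [List.mem_singleton.1 hx]
          rfl
      obtain ⟨j, hj, hy⟩ := List.mem_flatMap.1 hy
      have h2 : (g0 G A B v).vt y = Sum.inr j := by
        rcases List.mem_cons.1 hy with rfl | hy
        · rfl
        · rw [List.mem_singleton.1 hy]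
          rfl
      rw [h1, h2]
      intro h3
      rw [Sum.inr_injective h3] at h
      exact h.1 hj

omit [DecidableEq V] in
theorem il_vt {l : List (Fin k)} {x : Dart (E ⊕ (Fin k × Bool))} (hx : x ∈ il l) [DecidableEq V] :
    ∃ i, (g0 G A B v).vt x = Sum.inr i := by
  obtain ⟨j, hj, hy⟩ := List.mem_flatMap.1 hx
  refine ⟨j, ?_⟩
  rcases List.mem_cons.1 hy with rfl | hy
  · rfl
  · rw [List.mem_singleton.1 hy]
    rfl

theorem sdA (hdis : Disjoint A B) {d : Dart (E ⊕ Fin k)} (hd : d.1 ∈ (star G A v).X) :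
    sd B (fs false d) = false := by
  obtain ⟨e | i, b⟩ := d
  · have h : e ∈ A := by simpa [star] using hd
    have h' : e ∉ B := Finset.disjoint_left.1 hdis h
    exact decide_eq_false h'
  · rfl

theorem sdB {d : Dart (E ⊕ Fin k)} (hd : d.1 ∈ (star G B v).X) : sd B (fs true d) = true := by
  obtain ⟨e | i, b⟩ := d
  · have h : e ∈ B := by simpa [star] using hd
    exact decide_eq_true h
  · rfl

theorem vt_fs {X : Finset E} (β : Bool) (d : Dart (E ⊕ Fin k)) :
    (star G X v).vt d = th ((g0 G A B v).vt (fs β d)) := by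
  rw [← vt_th G A B X v, gs_fs]

theorem vt_some {X : Finset E} {β : Bool} {d : Dart (E ⊕ Fin k)} (h : (star G X v).vt d ≠ none)
    (hs : sd B (fs β d) = β) : ∃ w, (star G X v).vt d = some w ∧
      (g0 G A B v).vt (fs β d) = Sum.inl (w, β) := by
  have h1 := vt_fs (G := G) (A := A) (B := B) (v := v) (X := X) β d
  rcases hy : (g0 G A B v).vt (fs β d) with ⟨w, β'⟩ | i
  · rw [hy] at h1
    refine ⟨w, h1, ?_⟩
    rw [← vt_inl hy, hs]
  · rw [hy] at h1
    exact absurd h1 h

/-- blocks at the bottom -/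
theorem blk_side (hBLK : SpecBLK) {X : Finset E} {β : Bool} {L : List (Dart (E ⊕ Fin k))}
    (hb : Blocks (star G X v).vt L) (hn : ∀ x ∈ L, (star G X v).vt x ≠ none)
    (hs : ∀ x ∈ L, sd B (fs β x) = β) : Blocks (g0 G A B v).vt (L.map (fs β)) := by
  refine hBLK.map _ _ _ (hBLK.cgr _ _ _ hb ?_)
  intro x hx y hy
  obtain ⟨w, h1, h2⟩ := vt_some (A := A) (B := B) (hn x hx) (hs x hx)
  obtain ⟨w', h3, h4⟩ := vt_some (A := A) (B := B) (hn y hy) (hs y hy)
  rw [h1, h2, h3, h4]
  constructor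
  · intro h
    rw [Option.some.inj h]
  · intro h
    have h5 : w = w' := congrArg Prod.fst (Sum.inl_injective h)
    rw [h5]

theorem mem_side {X : Finset E} {β : Bool} {L : List (Dart (E ⊕ Fin k))}
    (hL : ∀ d, d ∈ L ↔ d.1 ∈ (star G X v).X) (d : Dart (E ⊕ (Fin k × Bool))) :
    d ∈ L.map (fs β) ↔ (∃ e ∈ X, d.1 = Sum.inl e) ∨ ∃ i, d.1 = Sum.inr (i, β) := by
  constructor
  · intro h
    obtain ⟨⟨e | i, b⟩, hd', rfl⟩ := List.mem_map.1 h
    · left
      refine ⟨e, ?_, rfl⟩
      simpa [star] using (hL _).1 hd'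
    · right
      exact ⟨i, rfl⟩
  · rintro (⟨e, he, h⟩ | ⟨i, h⟩)
    · refine List.mem_map.2 ⟨(Sum.inl e, d.2), (hL _).2 (by simpa [star] using he), ?_⟩
      obtain ⟨x, b⟩ := d
      simp only at h
      rw [h]
      rfl
    · refine List.mem_map.2 ⟨(Sum.inr i, d.2), (hL _).2 (by simp [star]), ?_⟩
      obtain ⟨x, b⟩ := d
      simp only at h
      rw [h]
      rfl

theorem diag (hRUN : SpecRUN) (hBLK : SpecBLK) (hdis : Disjoint A B)
    {L₁ L₂ T₁ T₂ : List (Dart (E ⊕ Fin k))} {W₁ W₂ : List (Dart (E ⊕ Fin k) × Dart (E ⊕ Fin k))}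
    {U : List (Dart (E ⊕ (Fin k × Bool)) × Dart (E ⊕ (Fin k × Bool)))}
    (hd1 : IsDia (star G A v) (L₁ ++ (List.finRange k).map fun i => (Sum.inr i, false)) W₁ T₁)
    (hd2 : IsDia (star G B v) (((List.finRange k).map fun i => (Sum.inr i, false)) ++ L₂) W₂ T₂)
    (hn1 : ∀ x ∈ L₁, (star G A v).vt x ≠ none) (hn2 : ∀ x ∈ L₂, (star G B v).vt x ≠ none)
    (hU : Run (il (List.finRange k)) U ((List.finRange k).map ya ++ (List.finRange k).map yb)) :
    IsDia (g0 G A B v) (L₁.map (fs false) ++ (il (List.finRange k) ++ L₂.map (fs true)))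
      (U ++ (W₁.map (Prod.map (fs false) (fs false)) ++ W₂.map (Prod.map (fs true) (fs true))))
      (T₁.map (fs false) ++ T₂.map (fs true)) := by
  set P : List (Dart (E ⊕ Fin k)) := (List.finRange k).map fun i => (Sum.inr i, false) with hP
  have eA : (List.finRange k).map ya = P.map (fs false : _ → Dart (E ⊕ (Fin k × Bool))) := by
    rw [hP, List.map_map]
    rfl
  have eB : (List.finRange k).map yb = P.map (fs true : _ → Dart (E ⊕ (Fin k × Bool))) := by
    rw [hP, List.map_map]
    rfl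
  rw [eA, eB] at hU
  have r1 : Run (L₁.map (fs false) ++ (il (List.finRange k) ++ L₂.map (fs true))) U
      ((L₁ ++ P).map (fs false) ++ (P ++ L₂).map (fs true)) := by
    have := hRUN.ctx (L₁.map (fs false)) (L₂.map (fs true)) hU
    simpa only [List.map_append, List.append_assoc] using this
  have r2 : Run ((L₁ ++ P).map (fs false) ++ (P ++ L₂).map (fs true))
      (W₁.map (Prod.map (fs false) (fs false)))
      (T₁.map (fs false) ++ (P ++ L₂).map (fs true)) := by
    have := hRUN.ctx [] ((P ++ L₂).map (fs true)) (hRUN.map (fs false) hd1.dia.run)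
    simpa only [List.nil_append] using this
  have r3 : Run (T₁.map (fs false) ++ (P ++ L₂).map (fs true))
      (W₂.map (Prod.map (fs true) (fs true))) (T₁.map (fs false) ++ T₂.map (fs true)) := by
    have := hRUN.ctx (T₁.map (fs false)) [] (hRUN.map (fs true) hd2.dia.run)
    simpa only [List.append_nil] using this
  have hp := hRUN.perm r1
  have hs1 : ∀ x ∈ L₁ ++ P, sd B (fs false x) = false := fun x hx => sdA hdis ((hd1.mb x).1 hx)
  have hs2 : ∀ x ∈ P ++ L₂, sd B (fs true x) = true := fun x hx => sdB ((hd2.mb x).1 hx)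
  have ht1 : ∀ x ∈ T₁, sd B (fs false x) = false :=
    fun x hx => hs1 x ((hRUN.perm hd1.dia.run).mem_iff.2 hx)
  have ht2 : ∀ x ∈ T₂, sd B (fs true x) = true :=
    fun x hx => hs2 x ((hRUN.perm hd2.dia.run).mem_iff.2 hx)
  refine ⟨?_, ?_, ?_, ?_, hRUN.trans r1 (hRUN.trans r2 r3)⟩
  · intro d
    rw [hp.mem_iff, List.mem_append, mem_side hd1.mb, mem_side hd2.mb]
    obtain ⟨e | ⟨i, β⟩, b⟩ := d
    · simp [g0]
    · cases β <;> simp [g0]
  · rw [hp.nodup_iff, List.nodup_append]
    refine ⟨(hd1.dia.nd).map (fs_inj false), (hd2.dia.nd).map (fs_inj true), ?_⟩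
    intro a ha b hb hab
    obtain ⟨x, hx, rfl⟩ := List.mem_map.1 ha
    obtain ⟨y, hy, rfl⟩ := List.mem_map.1 hb
    have h1 := hs1 x hx
    rw [hab, hs2 y hy] at h1
    exact absurd h1 (by simp)
  · have b1 : Blocks (g0 G A B v).vt (L₁.map (fs false)) :=
      blk_side hBLK (hBLK.sub _ _ _ (List.sublist_append_left _ _) hd1.dia.bb) hn1
        fun x hx => hs1 x (List.mem_append_left _ hx)
    have b3 : Blocks (g0 G A B v).vt (L₂.map (fs true)) :=
      blk_side hBLK (hBLK.sub _ _ _ (List.sublist_append_right _ _) hd2.dia.bb) hn2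
        fun x hx => hs2 x (List.mem_append_right _ hx)
    have b2 : Blocks (g0 G A B v).vt (il (List.finRange k)) :=
      il_blk hBLK _ (List.nodup_finRange k)
    have v1 : ∀ x ∈ L₁.map (fs false), ∃ w, (g0 G A B v).vt x = Sum.inl (w, false) := by
      intro x hx
      obtain ⟨y, hy, rfl⟩ := List.mem_map.1 hx
      obtain ⟨w, -, h⟩ := vt_some (A := A) (B := B) (hn1 y hy) (hs1 y (List.mem_append_left _ hy))
      exact ⟨w, h⟩
    have v3 : ∀ x ∈ L₂.map (fs true), ∃ w, (g0 G A B v).vt x = Sum.inl (w, true) := by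
      intro x hx
      obtain ⟨y, hy, rfl⟩ := List.mem_map.1 hx
      obtain ⟨w, -, h⟩ := vt_some (A := A) (B := B) (hn2 y hy) (hs2 y (List.mem_append_right _ hy))
      exact ⟨w, h⟩
    refine hBLK.app _ _ _ b1 (hBLK.app _ _ _ b2 b3 ?_) ?_
    · intro x hx y hy
      obtain ⟨i, hi⟩ := il_vt (G := G) (A := A) (B := B) (v := v) hx
      obtain ⟨w, hw⟩ := v3 y hy
      rw [hi, hw]
      exact fun h => by cases h
    · intro x hx y hy
      obtain ⟨w, hw⟩ := v1 x hx
      rcases List.mem_append.1 hy with hy | hy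
      · obtain ⟨i, hi⟩ := il_vt (G := G) (A := A) (B := B) (v := v) hy
        rw [hi, hw]
        exact fun h => by cases h
      · obtain ⟨w', hw'⟩ := v3 y hy
        rw [hw, hw']
        intro h
        have := congrArg Prod.snd (Sum.inl_injective h)
        simp at this
  · have c1 : ∀ (β : Bool) (T : List (Dart (E ⊕ Fin k))), Blocks Prod.fst T →
        Blocks Prod.fst (T.map (fs β : _ → Dart (E ⊕ (Fin k × Bool)))) := by
      intro β T hT
      refine hBLK.map _ _ _ (hBLK.cgr _ _ _ hT ?_)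
      intro x _ y _
      constructor
      · intro h
        change Sum.map id (fun i => (i, β)) x.1 = Sum.map id (fun i => (i, β)) y.1
        rw [h]
      · intro h
        have hinj : Function.Injective (Sum.map id (fun i => (i, β)) :
            E ⊕ Fin k → E ⊕ (Fin k × Bool)) :=
          Sum.map_injective.2 ⟨Function.injective_id, fun a b h => congrArg Prod.fst h⟩
        exact hinj h
    refine hBLK.app _ _ _ (c1 false T₁ hd1.dia.tt) (c1 true T₂ hd2.dia.tt) ?_
    intro x hx y hy h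
    obtain ⟨x', hx', rfl⟩ := List.mem_map.1 hx
    obtain ⟨y', hy', rfl⟩ := List.mem_map.1 hy
    have h1 : sd B (fs false x') = sd B (fs true y') := by
      unfold sd
      rw [h]
    rw [ht1 x' hx', ht2 y' hy'] at h1
    exact absurd h1 (by simp)

theorem perm_centre {X : Finset E} {bot top : List (Dart (E ⊕ Fin k))}
    {W : List (Dart (E ⊕ Fin k) × Dart (E ⊕ Fin k))} (hd : IsDia (star G X v) bot W top) :
    ((List.finRange k).map fun i => ((Sum.inr i, false) : Dart (E ⊕ Fin k))).Perm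
      (bot.filter fun x => (star G X v).vt x = none) := by
  rw [List.perm_ext_iff_of_nodup]
  · rintro ⟨e | i, b⟩
    · simp only [List.mem_map, List.mem_filter, decide_eq_true_eq]
      constructor
      · rintro ⟨i, -, h⟩
        simp at h
      · rintro ⟨-, h⟩
        exact absurd h (by simp [star])
    · simp only [List.mem_map, List.mem_filter, decide_eq_true_eq]
      constructor
      · rintro ⟨i', -, h⟩
        have h1 : i' = i := Sum.inr_injective (congrArg Prod.fst h)
        have h2 : false = b := congrArg Prod.snd h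
        subst h1
        subst h2
        exact ⟨(hd.mb _).2 (by simp [star]), rfl⟩
      · rintro ⟨-, h⟩
        cases b
        · exact ⟨i, List.mem_finRange _, rfl⟩
        · exact absurd h (by simp [star])
  · refine (List.nodup_finRange k).map ?_
    intro i j h
    exact Sum.inr_injective (congrArg Prod.fst h)
  · exact (hd.dia.nd).filter _

end graphs

end GLAM

open GLAM in
theorem specGLA (hFRT : SpecFRT) (hPSU : SpecPSU) (hRUN : SpecRUN) (hBLK : SpecBLK)
    (hCYC : SpecCYC) (hBAS : SpecBAS) : SpecGLA := by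
  intro V E _ _ k G A B v hdis hk _ ⟨botA, WA, topA, hdA, hvA⟩ ⟨botB, WB, topB, hdB, hvB⟩
  obtain ⟨UA, hdA', hEA, -⟩ := hFRT.la hdA none _ (perm_centre hdA)
  obtain ⟨UB, hdB', hEB, -⟩ := hFRT.fr hdB none _ (perm_centre hdB)
  obtain ⟨U, hU, hU'⟩ := il_run (E := E) hRUN (List.finRange k) (List.pairwise_lt_finRange k)
  have hdia := diag hRUN hBLK hdis hdA' hdB' (fun x hx => by simpa using (List.mem_filter.1 hx).2)
    (fun x hx => by simpa using (List.mem_filter.1 hx).2) hU
  refine ⟨_, _, _, hdia, ?_⟩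
  intro c hc
  obtain ⟨c₂, c₁, hc', he, h2, h1, hc2, hc1, hL⟩ := main_dec hk hc
  rw [← hBAS.same hdia hc hc' (fun e => (he e).symm)]
  refine total hPSU hCYC hc' h2 h1 ?_ ?_ hU' hL ?_ ?_
  · intro z hz
    obtain ⟨a1, a2, -⟩ := hRUN.mem hdA'.dia.nd hdA'.dia.run z hz
    exact ⟨sdA hdis ((hdA'.mb _).1 a1), sdA hdis ((hdA'.mb _).1 a2)⟩
  · intro z hz
    obtain ⟨a1, a2, -⟩ := hRUN.mem hdB'.dia.nd hdB'.dia.run z hz
    exact ⟨sdB ((hdB'.mb _).1 a1), sdB ((hdB'.mb _).1 a2)⟩
  · rcases hc2 with rfl | hc2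
    · exact AW_nil hPSU _
    · rw [hEB.1 _ hc2]
      exact hvB _ hc2
  · rcases hc1 with rfl | hc1
    · exact AW_nil hPSU _
    · rw [hEA.1 _ hc1]
      exact hvA _ hc1

end Pool.Agent.Lib.MP3ff0f8.T
end

section
/-!
# Module ISO: invariance under isomorphisms
-/
namespace Pool.Agent.Lib.MP3ff0f8.T

namespace ISOM

set_option linter.unusedSectionVars false

section lists

variable {α β : Type} [DecidableEq α] [DecidableEq β]

lemma idxOf_map_eq (f : α → β) (L : List α) (p : α) (h : ∀ x ∈ L, f x = f p → x = p) :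
    (L.map f).idxOf (f p) = L.idxOf p := by
  induction L with
  | nil => simp
  | cons a L ih =>
    rw [List.map_cons, List.idxOf_cons, List.idxOf_cons]
    by_cases hap : a = p
    · subst hap
      simp
    · have hf : f a ≠ f p := fun hh => hap (h a (by simp) hh)
      have e1 : (f a == f p) = false := by simpa using hf
      have e2 : (a == p) = false := by simpa using hap
      rw [e1, e2, ih fun x hx => h x (by simp [hx])]

omit [DecidableEq α] [DecidableEq β] in
lemma map_inj_on (f : α → β) : ∀ (l l' : List α), (∀ x ∈ l, ∀ y ∈ l', f x = f y → x = y) →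
    l.map f = l'.map f → l = l' := by
  intro l
  induction l with
  | nil =>
    intro l' _ he
    cases l' with
    | nil => rfl
    | cons a l' => simp at he
  | cons a l ih =>
    intro l' h he
    cases l' with
    | nil => simp at he
    | cons b l' =>
      simp only [List.map_cons, List.cons.injEq] at he
      have h1 := h a (by simp) b (by simp) he.1
      have h2 := ih l' (fun x hx y hy => h x (by simp [hx]) y (by simp [hy])) he.2
      rw [h1, h2]

end lists

section curve

variable {S S' : Type} [DecidableEq S] [DecidableEq S'] (δ : S → S') (P : S → Prop)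

/-- the image of a curve -/
def cmap (q : List (S × Bool)) : List (S' × Bool) := q.map fun x => (δ x.1, x.2)

omit [DecidableEq S] [DecidableEq S'] in
lemma cmap_fst (q : List (S × Bool)) : (cmap δ q).map Prod.fst = (q.map Prod.fst).map δ := by
  simp [cmap, List.map_map, Function.comp_def]

variable {δ P}

omit [DecidableEq S] [DecidableEq S'] in
lemma on_cmap (hinj : ∀ x y, P x → P y → δ x = δ y → x = y) {q : List (S × Bool)}
    (hq : ∀ x ∈ q, P x.1) {p : S} (hp : P p) : on (cmap δ q) (δ p) ↔ on q p := by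
  unfold on
  rw [cmap_fst, List.mem_map]
  constructor
  · rintro ⟨x, hx, he⟩
    obtain ⟨y, hy, rfl⟩ := List.mem_map.mp hx
    have := hinj _ _ (hq y hy) hp he
    rw [← this]; exact hx
  · intro h
    exact ⟨p, h, rfl⟩

lemma idx_cmap (hinj : ∀ x y, P x → P y → δ x = δ y → x = y) {q : List (S × Bool)}
    (hq : ∀ x ∈ q, P x.1) {p : S} (hp : P p) : idx (cmap δ q) (δ p) = idx q p := by
  unfold idx
  rw [cmap_fst]
  apply idxOf_map_eq
  intro x hx he
  obtain ⟨y, hy, rfl⟩ := List.mem_map.mp hx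
  exact hinj _ _ (hq y hy) hp he

omit [DecidableEq S] [DecidableEq S'] in
lemma mem_cmap (hinj : ∀ x y, P x → P y → δ x = δ y → x = y) {q : List (S × Bool)}
    (hq : ∀ x ∈ q, P x.1) {p : S} (hp : P p) (b : Bool) :
    (δ p, b) ∈ cmap δ q ↔ (p, b) ∈ q := by
  unfold cmap
  rw [List.mem_map]
  constructor
  · rintro ⟨x, hx, he⟩
    simp only [Prod.mk.injEq] at he
    have := hinj _ _ (hq x hx) hp he.1
    rw [← this, ← he.2]; exact hx
  · intro h
    exact ⟨(p, b), h, rfl⟩

lemma l01_cmap (hinj : ∀ x y, P x → P y → δ x = δ y → x = y) {q : List (S × Bool)}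
    (hq : ∀ x ∈ q, P x.1) {p r : S} (hp : P p) (hr : P r) :
    l01 (cmap δ q) (δ p) (δ r) ↔ l01 q p r := by
  unfold l01
  rw [idx_cmap hinj hq hp, idx_cmap hinj hq hr, mem_cmap hinj hq hp]
  have : δ p = δ r ↔ p = r := ⟨hinj _ _ hp hr, fun h => by rw [h]⟩
  rw [this]

lemma l10_cmap (hinj : ∀ x y, P x → P y → δ x = δ y → x = y) {q : List (S × Bool)}
    (hq : ∀ x ∈ q, P x.1) {p r : S} (hp : P p) (hr : P r) :
    l10 (cmap δ q) (δ p) (δ r) ↔ l10 q p r := by
  unfold l10
  rw [idx_cmap hinj hq hp, idx_cmap hinj hq hr, mem_cmap hinj hq hp]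
  have : δ p = δ r ↔ p = r := ⟨hinj _ _ hp hr, fun h => by rw [h]⟩
  rw [this]

lemma bet_cmap (hinj : ∀ x y, P x → P y → δ x = δ y → x = y) {q : List (S × Bool)}
    (hq : ∀ x ∈ q, P x.1) {z w : S × S} (hz : P z.1 ∧ P z.2) (hw : P w.1 ∧ P w.2) :
    bet (cmap δ q) (Prod.map δ δ z) (Prod.map δ δ w) = bet q z w := by
  unfold bet
  simp only [Prod.map_fst, Prod.map_snd]
  simp only [on_cmap hinj hq hz.1, on_cmap hinj hq hz.2, on_cmap hinj hq hw.1,
    on_cmap hinj hq hw.2, l01_cmap hinj hq hz.1 hw.2, l10_cmap hinj hq hw.2 hz.2,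
    l01_cmap hinj hq hz.2 hw.1, l10_cmap hinj hq hw.1 hz.2, l01_cmap hinj hq hz.2 hw.2,
    l10_cmap hinj hq hw.2 hz.1]

end curve

section iso

variable {V E V' E' : Type} [DecidableEq V] [DecidableEq E] [DecidableEq V'] [DecidableEq E']
  {G : Gr V E} {H : Gr V' E'} {δ : Dart E → Dart E'} {ψ : V → V'}

lemma fst_iff (h : IsIso G H δ ψ) {x y : Dart E} (hx : x.1 ∈ G.X) (hy : y.1 ∈ G.X) :
    (δ x).1 = (δ y).1 ↔ x.1 = y.1 := by
  constructor
  · intro he
    rcases CYCM.fst_eq he with h1 | h1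
    · rw [h.inj x y hx hy h1]
    · rw [← h.rvv y hy] at h1
      rw [h.inj x (rv y) hx hy h1]
      rfl
  · intro he
    rcases CYCM.fst_eq he with h1 | h1
    · rw [h1]
    · rw [h1, h.rvv y hy]
      rfl

lemma vt_iff (h : IsIso G H δ ψ) {x y : Dart E} (hx : x.1 ∈ G.X) (hy : y.1 ∈ G.X) :
    H.vt (δ x) = H.vt (δ y) ↔ G.vt x = G.vt y := by
  rw [h.vtx x hx, h.vtx y hy]
  exact ⟨h.vinj x y hx hy, fun e => by rw [e]⟩

/-- a section of `δ` -/
noncomputable def ga (h : IsIso G H δ ψ) (d' : Dart E') (d₀ : Dart E) : Dart E := by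
  classical
  exact if hd : d'.1 ∈ H.X then (h.surj d' hd).choose else d₀

lemma ga_X (h : IsIso G H δ ψ) {d' : Dart E'} (d₀ : Dart E) (hd : d'.1 ∈ H.X) :
    (ga h d' d₀).1 ∈ G.X := by
  unfold ga
  rw [dif_pos hd]
  exact (h.surj d' hd).choose_spec.1

lemma ga_eq (h : IsIso G H δ ψ) {d' : Dart E'} (d₀ : Dart E) (hd : d'.1 ∈ H.X) :
    δ (ga h d' d₀) = d' := by
  unfold ga
  rw [dif_pos hd]
  exact (h.surj d' hd).choose_spec.2

lemma dia (hRUN : SpecRUN) (hBLK : SpecBLK) (h : IsIso G H δ ψ) {bot top : List (Dart E)}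
    {W : List (Dart E × Dart E)} (hD : IsDia G bot W top) :
    IsDia H (bot.map δ) (W.map (Prod.map δ δ)) (top.map δ) := by
  have hp := hRUN.perm hD.dia.run
  constructor
  · intro d
    rw [List.mem_map]
    constructor
    · rintro ⟨x, hx, rfl⟩
      exact h.maps x ((hD.mb x).mp hx)
    · intro hd
      obtain ⟨x, hx, he⟩ := h.surj d hd
      exact ⟨x, (hD.mb x).mpr hx, he⟩
  · constructor
    · refine List.Nodup.map_on ?_ hD.dia.nd
      intro x hx y hy he
      exact h.inj x y ((hD.mb x).mp hx) ((hD.mb y).mp hy) he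
    · refine hBLK.map _ _ _ (hBLK.cgr _ _ _ hD.dia.bb ?_)
      intro x hx y hy
      exact (vt_iff h ((hD.mb x).mp hx) ((hD.mb y).mp hy)).symm
    · refine hBLK.map _ _ _ (hBLK.cgr _ _ _ hD.dia.tt ?_)
      intro x hx y hy
      exact (fst_iff h ((hD.mb x).mp (hp.mem_iff.mpr hx)) ((hD.mb y).mp (hp.mem_iff.mpr hy))).symm
    · exact hRUN.map δ hD.dia.run

/-- cycles of `H` come from cycles of `G` -/
lemma cyc (h : IsIso G H δ ψ) (d₀ : Dart E) {c' : List (Dart E')} (hc : IsCyc H c') :
    IsCyc G (c'.map fun d => ga h d d₀) ∧ (c'.map fun d => ga h d d₀).map δ = c' := by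
  have hX : ∀ d ∈ c', (ga h d d₀).1 ∈ G.X := fun d hd => ga_X h d₀ (hc.mem d hd)
  have he : ∀ d ∈ c', δ (ga h d d₀) = d := fun d hd => ga_eq h d₀ (hc.mem d hd)
  have hm : (c'.map fun d => ga h d d₀).map δ = c' := by
    rw [List.map_map]
    conv_rhs => rw [← List.map_id c']
    exact List.map_congr_left fun d hd => he d hd
  have hv : ∀ d ∈ c', ψ (G.vt (ga h d d₀)) = H.vt d := by
    intro d hd
    rw [← h.vtx _ (hX d hd), he d hd]
  have hrv : ∀ d ∈ c', ψ (G.vt (rv (ga h d d₀))) = H.vt (rv d) := by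
    intro d hd
    have hx : (rv (ga h d d₀)).1 ∈ G.X := hX d hd
    rw [← h.vtx _ hx, h.rvv _ (hX d hd), he d hd]
  refine ⟨⟨?_, ?_, ?_, ?_, ?_⟩, hm⟩
  · have := hc.ne
    simpa using this
  · intro d hd
    obtain ⟨x, hx, rfl⟩ := List.mem_map.mp hd
    exact hX x hx
  · rw [List.map_map]
    have h1 : c'.Nodup := List.Nodup.of_map _ hc.nde
    refine List.Nodup.map_on ?_ h1
    intro x hx y hy hxy
    have h2 := (fst_iff h (hX x hx) (hX y hy)).mpr hxy
    rw [he x hx, he y hy] at h2
    exact List.inj_on_of_nodup_map hc.nde hx hy h2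
  · rw [List.map_map]
    have h1 : c'.Nodup := List.Nodup.of_map _ hc.nde
    refine List.Nodup.map_on ?_ h1
    intro x hx y hy hxy
    have h2 : H.vt x = H.vt y := by
      rw [← hv x hx, ← hv y hy]
      simp only [Function.comp_apply] at hxy
      rw [hxy]
    exact List.inj_on_of_nodup_map hc.ndv hx hy h2
  · apply map_inj_on ψ
    · intro x hx y hy hxy
      obtain ⟨a, ha, rfl⟩ := List.mem_map.mp hx
      rw [List.mem_rotate] at hy
      obtain ⟨b, hb, rfl⟩ := List.mem_map.mp hy
      obtain ⟨a', ha', rfl⟩ := List.mem_map.mp ha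
      obtain ⟨b', hb', rfl⟩ := List.mem_map.mp hb
      exact h.vinj _ _ (hX a' ha') (hX b' hb') hxy
    · rw [List.map_rotate]
      simp only [List.map_map]
      have e1 : c'.map (ψ ∘ (fun d => G.vt (rv d)) ∘ fun d => ga h d d₀) =
          c'.map fun d => H.vt (rv d) := List.map_congr_left fun d hd => hrv d hd
      have e2 : c'.map (ψ ∘ G.vt ∘ fun d => ga h d d₀) = c'.map H.vt :=
        List.map_congr_left fun d hd => hv d hd
      rw [e1, e2, hc.cl]

lemma cv_map (h : IsIso G H δ ψ) {c : List (Dart E)} (hc : ∀ d ∈ c, d.1 ∈ G.X) :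
    cv (c.map δ) = cmap δ (cv c) := by
  induction c with
  | nil => simp [cv, cmap]
  | cons d c ih =>
    have h1 := ih fun x hx => hc x (by simp [hx])
    have h2 := h.rvv d (hc d (by simp))
    simp only [cv, cmap, List.map_cons, List.flatMap_cons, List.map_append, List.map_nil] at h1 ⊢
    rw [h1, h2]

lemma aw (hPSU : SpecPSU) (hRUN : SpecRUN) (h : IsIso G H δ ψ) {bot top : List (Dart E)}
    {W : List (Dart E × Dart E)} (hD : IsDia G bot W top) {c : List (Dart E)}
    (hc : ∀ d ∈ c, d.1 ∈ G.X) :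
    AW (cv (c.map δ)) (W.map (Prod.map δ δ)) = AW (cv c) W := by
  unfold AW
  rw [cv_map h hc, hPSU.map]
  apply hPSU.cgr
  intro z hz w hw
  have hz' := hRUN.mem hD.dia.nd hD.dia.run z hz
  have hw' := hRUN.mem hD.dia.nd hD.dia.run w hw
  refine bet_cmap (P := fun d : Dart E => d.1 ∈ G.X) h.inj ?_
    ⟨(hD.mb _).mp hz'.1, (hD.mb _).mp hz'.2.1⟩ ⟨(hD.mb _).mp hw'.1, (hD.mb _).mp hw'.2.1⟩
  intro x hx
  have : on (cv c) x.1 := List.mem_map_of_mem hx
  rw [CYCM.on_iff] at this
  obtain ⟨d, hd, he⟩ := List.mem_map.mp this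
  show x.1.1 ∈ G.X
  rw [← he]
  exact hc d hd

lemma lk_map (hRUN : SpecRUN) (h : IsIso G H δ ψ) {bot top : List (Dart E)}
    {W : List (Dart E × Dart E)} (hD : IsDia G bot W top) {c c' : List (Dart E)}
    (hc : ∀ d ∈ c, d.1 ∈ G.X) (hc' : ∀ d ∈ c', d.1 ∈ G.X) :
    lk (W.map (Prod.map δ δ)) (c.map δ) (c'.map δ) = lk W c c' := by
  have key : ∀ (b : List (Dart E)), (∀ d ∈ b, d.1 ∈ G.X) → ∀ x : Dart E, x.1 ∈ G.X →
      ((δ x).1 ∈ (b.map δ).map Prod.fst ↔ x.1 ∈ b.map Prod.fst) := by
    intro b hb x hx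
    simp only [List.mem_map, exists_exists_and_eq_and]
    constructor
    · rintro ⟨d, hd, he⟩
      exact ⟨d, hd, (fst_iff h (hb d hd) hx).mp he⟩
    · rintro ⟨d, hd, he⟩
      exact ⟨d, hd, (fst_iff h (hb d hd) hx).mpr he⟩
  unfold lk
  rw [List.countP_map]
  congr 1
  apply List.countP_congr
  intro z hz
  have hz' := hRUN.mem hD.dia.nd hD.dia.run z hz
  have h1 := key c hc z.1 ((hD.mb _).mp hz'.1)
  have h2 := key c' hc' z.2 ((hD.mb _).mp hz'.2.1)
  simp only [Function.comp_apply, Prod.map_fst, Prod.map_snd, decide_eq_true_eq, h1, h2]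

lemma good (hPSU : SpecPSU) (hRUN : SpecRUN) (hBLK : SpecBLK) (h : IsIso G H δ ψ)
    (hG : Good G) : Good H := by
  obtain ⟨bot, W, top, hD, hA⟩ := hG
  refine ⟨_, _, _, dia hRUN hBLK h hD, ?_⟩
  intro c' hc'
  cases c' with
  | nil => exact absurd rfl hc'.ne
  | cons d' t' =>
    obtain ⟨d₀, -, -⟩ := h.surj d' (hc'.mem d' (by simp))
    obtain ⟨h1, h2⟩ := cyc h d₀ hc'
    rw [← h2, aw hPSU hRUN h hD h1.mem]
    exact hA _ h1

/-! ### `D₄` minors -/

/-- vertices of the branch sets are ends of darts -/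
lemma vert {M : D4M V' E'} (hM : IsD4 H M) (i : Fin 4) {w : V'} (hw : w ∈ M.B i) :
    ∃ d' : Dart E', d'.1 ∈ H.X ∧ H.vt d' = w := by
  classical
  by_cases hB : ({w} : Finset V') = M.B i
  · have h1 := hM.bS i false
    rw [← hB, Finset.mem_singleton] at h1
    exact ⟨_, hM.bX i false, h1⟩
  · obtain ⟨d, hd, h1, -, -⟩ := hM.conn i {w} (by simpa using hw) ⟨w, by simp⟩ hB
    exact ⟨d, hM.sub i hd, by simpa using h1⟩

lemma d4 (hRUN : SpecRUN) (hBLK : SpecBLK) (h : IsIso G H δ ψ) (hG : D4even G) : D4even H := by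
  classical
  obtain ⟨bot, W, top, hD, hA⟩ := hG
  refine ⟨_, _, _, dia hRUN hBLK h hD, ?_⟩
  intro M hM C hC
  -- a base dart
  obtain ⟨d₀, -, -⟩ := h.surj (M.bd 0 false) (hM.bX 0 false)
  set g : Dart E' → Dart E := fun d => ga h d d₀ with hg
  have gX : ∀ d : Dart E', d.1 ∈ H.X → (g d).1 ∈ G.X := fun d hd => ga_X h d₀ hd
  have ge : ∀ d : Dart E', d.1 ∈ H.X → δ (g d) = d := fun d hd => ga_eq h d₀ hd
  have gv : ∀ d : Dart E', d.1 ∈ H.X → ψ (G.vt (g d)) = H.vt d := by
    intro d hd
    rw [← h.vtx _ (gX d hd), ge d hd]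
  have grv : ∀ d : Dart E', d.1 ∈ H.X → ψ (G.vt (rv (g d))) = H.vt (rv d) := by
    intro d hd
    have hx : (rv (g d)).1 ∈ G.X := gX d hd
    rw [← h.vtx _ hx, h.rvv _ (gX d hd), ge d hd]
  have gf : ∀ d e : Dart E', d.1 ∈ H.X → e.1 ∈ H.X → (d.1 = e.1 ↔ (g d).1 = (g e).1) := by
    intro d e hd he
    rw [← fst_iff h (gX d hd) (gX e he), ge d hd, ge e he]
  -- vertices
  have hR : ∀ i, ∀ w ∈ M.B i, ∃ v : V, (∃ d : Dart E, d.1 ∈ G.X ∧ G.vt d = v) ∧ ψ v = w := by
    intro i w hw
    obtain ⟨d', hd', rfl⟩ := vert hM i hw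
    exact ⟨G.vt (g d'), ⟨g d', gX d' hd', rfl⟩, gv d' hd'⟩
  have hR2 : ∀ w : V', ∃ v : V, (∃ i, w ∈ M.B i) → (∃ d : Dart E, d.1 ∈ G.X ∧ G.vt d = v) ∧
      ψ v = w := by
    intro w
    by_cases hw : ∃ i, w ∈ M.B i
    · obtain ⟨i, hi⟩ := hw
      obtain ⟨v, hv⟩ := hR i w hi
      exact ⟨v, fun _ => hv⟩
    · exact ⟨G.vt d₀, fun hh => absurd hh hw⟩
  choose φ hφ using hR2
  have hinj : ∀ v v' : V, (∃ d : Dart E, d.1 ∈ G.X ∧ G.vt d = v) →
      (∃ d : Dart E, d.1 ∈ G.X ∧ G.vt d = v') → ψ v = ψ v' → v = v' := by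
    rintro _ _ ⟨d, hd, rfl⟩ ⟨d', hd', rfl⟩ he
    exact h.vinj d d' hd hd' he
  have hφψ : ∀ d : Dart E, d.1 ∈ G.X → (∃ i, ψ (G.vt d) ∈ M.B i) → φ (ψ (G.vt d)) = G.vt d := by
    intro d hd hi
    have := hφ _ hi
    exact hinj _ _ this.1 ⟨d, hd, rfl⟩ this.2
  set N : D4M V E := ⟨fun i => (M.B i).image φ, fun i => (M.T i).image fun e => (g (e, false)).1,
    fun i b => g (M.bd i b)⟩ with hN
  have memB : ∀ i, ∀ v : V, v ∈ N.B i ↔ (∃ d : Dart E, d.1 ∈ G.X ∧ G.vt d = v) ∧ ψ v ∈ M.B i := by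
    intro i v
    show v ∈ (M.B i).image φ ↔ _
    rw [Finset.mem_image]
    constructor
    · rintro ⟨w, hw, rfl⟩
      have := hφ w ⟨i, hw⟩
      exact ⟨this.1, by rw [this.2]; exact hw⟩
    · rintro ⟨⟨d, hd, rfl⟩, h2⟩
      exact ⟨_, h2, hφψ d hd ⟨i, h2⟩⟩
  have memT : ∀ i, ∀ d : Dart E', d.1 ∈ H.X → ((g d).1 ∈ N.T i ↔ d.1 ∈ M.T i) := by
    intro i d hd
    show (g d).1 ∈ (M.T i).image (fun e => (g (e, false)).1) ↔ _
    rw [Finset.mem_image]
    constructor
    · rintro ⟨e, he, h1⟩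
      have := (gf (e, false) d (hM.sub i he) hd).mpr h1
      rw [← this]; exact he
    · intro h1
      exact ⟨d.1, h1, (gf (d.1, false) d hd hd).mp rfl⟩
  have subT : ∀ i, N.T i ⊆ G.X := by
    intro i e he
    have he1 : e ∈ (M.T i).image (fun e => (g (e, false)).1) := he
    obtain ⟨e', he2, rfl⟩ := Finset.mem_image.mp he1
    exact gX _ (hM.sub i he2)
  have dT : ∀ i, ∀ d : Dart E, d.1 ∈ G.X → (d.1 ∈ N.T i ↔ (δ d).1 ∈ M.T i) := by
    intro i d hd
    rw [← memT i (δ d) (h.maps d hd)]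
    have : g (δ d) = d := h.inj _ _ (gX _ (h.maps d hd)) hd (ge _ (h.maps d hd))
    rw [this]
  have hN4 : IsD4 G N := by
    constructor
    · intro i j hij
      rw [Finset.disjoint_left]
      intro v hv hv'
      exact Finset.disjoint_left.mp (hM.disj i j hij) ((memB i v).mp hv).2 ((memB j v).mp hv').2
    · exact subT
    · intro i d hd
      have hdX := subT i hd
      rw [memB]
      refine ⟨⟨d, hdX, rfl⟩, ?_⟩
      rw [← h.vtx d hdX]
      exact hM.ends i _ ((dT i d hdX).mp hd)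
    · intro i S hS hne hS'
      have h1 : S.image ψ ⊆ M.B i := by
        intro w hw
        obtain ⟨v, hv, rfl⟩ := Finset.mem_image.mp hw
        exact ((memB i v).mp (hS hv)).2
      have h2 : S.image ψ ≠ M.B i := by
        intro he
        apply hS'
        apply Finset.Subset.antisymm hS
        intro v hv
        have hv' := (memB i v).mp hv
        rw [← he, Finset.mem_image] at hv'
        obtain ⟨hv1, s, hs, hsv⟩ := hv'
        have := hinj s v ((memB i s).mp (hS hs)).1 hv1 hsv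
        rw [← this]; exact hs
      obtain ⟨d', hd', h3, h4, h5⟩ := hM.conn i (S.image ψ) h1 (hne.image ψ) h2
      have hX := hM.sub i hd'
      refine ⟨g d', (memT i d' hX).mpr hd', ?_, ?_, ?_⟩
      · obtain ⟨s, hs, hsv⟩ := Finset.mem_image.mp h3
        have := hinj s (G.vt (g d')) ((memB i s).mp (hS hs)).1 ⟨g d', gX d' hX, rfl⟩
          (by rw [hsv, gv d' hX])
        rw [← this]; exact hs
      · rw [memB]
        refine ⟨⟨rv (g d'), gX d' hX, rfl⟩, ?_⟩
        rw [grv d' hX]; exact h4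
      · intro hh
        apply h5
        rw [← grv d' hX]
        exact Finset.mem_image_of_mem ψ hh
    · intro i
      have e1 : (N.T i).card = (M.T i).card := by
        show ((M.T i).image fun e => (g (e, false)).1).card = _
        apply Finset.card_image_of_injOn
        intro a ha b hb hab
        exact (gf (a, false) (b, false) (hM.sub i ha) (hM.sub i hb)).mpr hab
      have e2 : (N.B i).card = (M.B i).card := by
        show ((M.B i).image φ).card = _
        apply Finset.card_image_of_injOn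
        intro a ha b hb hab
        have h1 := (hφ a ⟨i, ha⟩).2
        have h2 := (hφ b ⟨i, hb⟩).2
        have hab' : φ a = φ b := hab
        rw [← h1, ← h2, hab']
      rw [e1, e2]
      exact hM.card i
    · intro i b
      exact gX _ (hM.bX i b)
    · intro i b
      rw [memB]
      refine ⟨⟨_, gX _ (hM.bX i b), rfl⟩, ?_⟩
      show ψ (G.vt (g (M.bd i b))) ∈ _
      rw [gv _ (hM.bX i b)]
      exact hM.bS i b
    · intro i b
      rw [memB]
      refine ⟨⟨rv (g (M.bd i b)), gX _ (hM.bX i b), rfl⟩, ?_⟩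
      show ψ (G.vt (rv (g (M.bd i b)))) ∈ _
      rw [grv _ (hM.bX i b)]
      exact hM.bE i b
    · intro i hh
      exact hM.bN i ((gf _ _ (hM.bX i false) (hM.bX i true)).mpr hh)
  have hCi : ∀ i, IsCi G N i ((C i).map g) := by
    intro i
    have hc := cyc h d₀ (hC i).cyc
    refine ⟨hc.1, ?_, ?_, ?_⟩
    · intro d hd
      obtain ⟨x, hx, rfl⟩ := List.mem_map.mp hd
      have hX := (hC i).cyc.mem x hx
      rcases (hC i).mem x hx with h1 | h1 | h1 | h1
      · exact Or.inl ((memT i x hX).mpr h1)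
      · exact Or.inr (Or.inl ((memT (i + 1) x hX).mpr h1))
      · exact Or.inr (Or.inr (Or.inl ((gf _ _ hX (hM.bX i false)).mp h1)))
      · exact Or.inr (Or.inr (Or.inr ((gf _ _ hX (hM.bX i true)).mp h1)))
    · obtain ⟨x, hx, he⟩ := List.mem_map.mp (hC i).b0
      rw [List.mem_map]
      exact ⟨g x, List.mem_map_of_mem hx,
        (gf _ _ ((hC i).cyc.mem x hx) (hM.bX i false)).mp he⟩
    · obtain ⟨x, hx, he⟩ := List.mem_map.mp (hC i).b1
      rw [List.mem_map]
      exact ⟨g x, List.mem_map_of_mem hx,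
        (gf _ _ ((hC i).cyc.mem x hx) (hM.bX i true)).mp he⟩
  have hfin := hA N hN4 (fun i => (C i).map g) hCi
  have hl : ∀ i j, lk (W.map (Prod.map δ δ)) (C i) (C j) = lk W ((C i).map g) ((C j).map g) := by
    intro i j
    have hi := cyc h d₀ (hC i).cyc
    have hj := cyc h d₀ (hC j).cyc
    have := lk_map hRUN h hD hi.1.mem hj.1.mem
    rw [hi.2, hj.2] at this
    exact this
  rw [hl, hl]
  exact hfin

end iso

end ISOM

theorem specISO (hPSU : SpecPSU) (hRUN : SpecRUN) (hBLK : SpecBLK) : SpecISO := by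
  intro V E V' E' _ _ _ _ G H δ ψ h
  exact ⟨ISOM.good hPSU hRUN hBLK h, ISOM.d4 hRUN hBLK h⟩

end Pool.Agent.Lib.MP3ff0f8.T
end

section
/-!
# Module MIK: `star G A v` is a minor of `G`
-/
namespace Pool.Agent.Lib.MP3ff0f8.T

namespace MIKM

variable {V E : Type} [DecidableEq V] [DecidableEq E] {k : ℕ}

set_option linter.unusedSectionVars false

lemma mem_vs {G : Gr V E} {A : Finset E} {w : V} :
    w ∈ G.vs A ↔ ∃ x : Dart E, x.1 ∈ A ∧ G.vt x = w := by
  unfold Gr.vs
  rw [Finset.mem_image]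
  constructor
  · rintro ⟨x, hx, h⟩
    exact ⟨x, (Finset.mem_product.mp hx).1, h⟩
  · rintro ⟨x, hx, h⟩
    exact ⟨x, Finset.mem_product.mpr ⟨hx, Finset.mem_univ _⟩, h⟩

lemma mem_star {G : Gr V E} {A : Finset E} {v : Fin k → V} (x : E ⊕ Fin k) :
    x ∈ (star G A v).X ↔ (∃ e ∈ A, x = Sum.inl e) ∨ ∃ i, x = Sum.inr i := by
  unfold star
  simp only [Finset.mem_union, Finset.mem_map, Function.Embedding.coeFn_mk, Finset.mem_univ,
    true_and]
  constructor
  · rintro (⟨e, he, rfl⟩ | ⟨i, rfl⟩)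
    · exact Or.inl ⟨e, he, rfl⟩
    · exact Or.inr ⟨i, rfl⟩
  · rintro (⟨e, he, rfl⟩ | ⟨i, rfl⟩)
    · exact Or.inl ⟨e, he, rfl⟩
    · exact Or.inr ⟨i, rfl⟩

open Classical in
/-- the map of darts in the base case -/
noncomputable def de (f : Fin k → Dart E) (d : Dart E) : Dart (E ⊕ Fin k) :=
  if h : ∃ i, d.1 = (f i).1 then (Sum.inr h.choose, xor d.2 (f h.choose).2) else (Sum.inl d.1, d.2)

lemma de_inr {f : Fin k → Dart E} (hf : ∀ i j, (f i).1 = (f j).1 → i = j) {d : Dart E} {i : Fin k}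
    (h : d.1 = (f i).1) : de f d = (Sum.inr i, xor d.2 (f i).2) := by
  have hex : ∃ i, d.1 = (f i).1 := ⟨i, h⟩
  have : hex.choose = i := hf _ _ (hex.choose_spec.symm.trans h)
  unfold de
  rw [dif_pos hex, this]

lemma de_inl {f : Fin k → Dart E} {d : Dart E} (h : ∀ i, d.1 ≠ (f i).1) :
    de f d = (Sum.inl d.1, d.2) := by
  unfold de
  rw [dif_neg]
  rintro ⟨i, hi⟩
  exact h i hi

lemma base (hDDC : SpecDDC) (hISO : SpecISO) {G : Gr V E} (A : Finset E) (v : Fin k → V) (y : V)
    (f : Fin k → Dart E) (hA : A ⊆ G.X) (hv : Function.Injective v) (hy : y ∉ G.vs A)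
    (hvy : ∀ i, v i ≠ y)
    (hf : ∀ i, (f i).1 ∈ G.X \ A ∧ G.vt (f i) = y ∧ G.vt (rv (f i)) = v i) (hG : D4even G) :
    D4even (star G A v) := by
  classical
  have finj : ∀ i j, (f i).1 = (f j).1 → i = j := by
    intro i j hij
    rcases CYCM.fst_eq hij with h | h
    · apply hv
      rw [← (hf i).2.2, ← (hf j).2.2, h]
    · exfalso
      have h1 := (hf i).2.1
      rw [h, (hf j).2.2] at h1
      exact hvy j h1
  set Y : Finset E := A ∪ Finset.univ.image fun i => (f i).1 with hY
  have hYX : Y ⊆ G.X := by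
    intro e he
    rw [hY, Finset.mem_union, Finset.mem_image] at he
    rcases he with he | ⟨i, -, rfl⟩
    · exact hA he
    · exact (Finset.mem_sdiff.mp (hf i).1).1
  have hG' := hDDC.res Y hYX hG
  have fA : ∀ i, (f i).1 ∉ A := fun i => (Finset.mem_sdiff.mp (hf i).1).2
  have caseY : ∀ d : Dart E, d.1 ∈ Y → (∃ i, d.1 = (f i).1) ∨ (d.1 ∈ A ∧ ∀ i, d.1 ≠ (f i).1) := by
    intro d hd
    rw [hY, Finset.mem_union, Finset.mem_image] at hd
    rcases hd with hd | ⟨i, -, hi⟩
    · exact Or.inr ⟨hd, fun i h => fA i (h ▸ hd)⟩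
    · exact Or.inl ⟨i, hi.symm⟩
  refine (hISO (G := G.res Y) (H := star G A v) (δ := de f)
    (ψ := fun a => if a = y then none else some a) ?_).2 hG'
  constructor
  · intro d d' hd hd' h
    rcases caseY d hd with ⟨i, hi⟩ | ⟨h1, h2⟩
    · rcases caseY d' hd' with ⟨j, hj⟩ | ⟨h3, h4⟩
      · rw [de_inr finj hi, de_inr finj hj, Prod.mk.injEq] at h
        obtain ⟨ha, hb⟩ := h
        have ha' := Sum.inr_injective ha
        subst ha'
        refine Prod.ext (hi.trans hj.symm) ?_
        revert hb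
        cases d.2 <;> cases d'.2 <;> cases (f i).2 <;> simp
      · rw [de_inr finj hi, de_inl h4] at h
        simp at h
    · rcases caseY d' hd' with ⟨j, hj⟩ | ⟨h3, h4⟩
      · rw [de_inr finj hj, de_inl h2] at h
        simp at h
      · rw [de_inl h2, de_inl h4, Prod.mk.injEq] at h
        exact Prod.ext (Sum.inl_injective h.1) h.2
  · intro d hd
    rcases caseY d hd with ⟨i, hi⟩ | ⟨h1, h2⟩
    · have hi' : (rv d).1 = (f i).1 := hi
      rw [de_inr finj hi, de_inr finj hi']
      simp only [rv, Prod.mk.injEq, true_and]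
      cases d.2 <;> cases (f i).2 <;> rfl
    · have h2' : ∀ i, (rv d).1 ≠ (f i).1 := h2
      rw [de_inl h2, de_inl h2']
      rfl
  · intro d hd
    rw [mem_star]
    rcases caseY d hd with ⟨i, hi⟩ | ⟨h1, h2⟩
    · right
      exact ⟨i, by rw [de_inr finj hi]⟩
    · left
      exact ⟨d.1, h1, by rw [de_inl h2]⟩
  · intro d' hd'
    rw [mem_star] at hd'
    obtain ⟨x, b⟩ := d'
    rcases hd' with ⟨e, he, h⟩ | ⟨i, h⟩
    · simp only at h
      subst h
      refine ⟨(e, b), ?_, ?_⟩
      · show e ∈ Y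
        rw [hY, Finset.mem_union]
        exact Or.inl he
      · rw [de_inl]
        intro i h
        exact fA i (h ▸ he)
    · simp only at h
      subst h
      refine ⟨((f i).1, xor b (f i).2), ?_, ?_⟩
      · show (f i).1 ∈ Y
        rw [hY, Finset.mem_union, Finset.mem_image]
        exact Or.inr ⟨i, Finset.mem_univ _, rfl⟩
      · rw [de_inr (d := ((f i).1, xor b (f i).2)) finj (i := i) rfl]
        simp
  · intro d hd
    rcases caseY d hd with ⟨i, hi⟩ | ⟨h1, h2⟩
    · rw [de_inr finj hi]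
      rcases CYCM.fst_eq hi with h | h
      · rw [h]
        have e0 : xor (f i).2 (f i).2 = false := Bool.xor_self _
        rw [e0]
        have e1 : G.vt (f i) = y := (hf i).2.1
        show none = if G.vt (f i) = y then none else some (G.vt (f i))
        rw [if_pos e1]
      · rw [h]
        have e0 : xor (rv (f i)).2 (f i).2 = true := by
          simp [rv]
        rw [e0]
        have e1 : G.vt (rv (f i)) = v i := (hf i).2.2
        show some (v i) = if G.vt (rv (f i)) = y then none else some (G.vt (rv (f i)))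
        rw [e1, if_neg (hvy i)]
    · rw [de_inl h2]
      show some (G.vt (d.1, d.2)) = if G.vt d = y then none else some (G.vt d)
      rw [if_neg]
      intro h
      exact hy (mem_vs.mpr ⟨d, h1, h⟩)
  · intro d d' _ _ h
    have h' : (if G.vt d = y then none else some (G.vt d)) =
      (if G.vt d' = y then none else some (G.vt d')) := h
    show G.vt d = G.vt d'
    split_ifs at h' with h1 h2 h2
    · rw [h1, h2]
    · exact Option.some_injective _ h'

lemma step (hDDC : SpecDDC) (hISO : SpecISO) (n : ℕ) : ∀ {G : Gr V E} (A : Finset E)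
    (v : Fin k → V) (K : Finset V) (f : Fin k → Dart E), K.card = n → A ⊆ G.X →
    Function.Injective v → K.Nonempty → Conn G (G.X \ A) K → (∀ w ∈ K, w ∉ G.vs A) →
    (∀ i, v i ∉ K) → (∀ i, (f i).1 ∈ G.X \ A ∧ G.vt (f i) ∈ K ∧ G.vt (rv (f i)) = v i) →
    D4even G → D4even (star G A v) := by
  induction n with
  | zero =>
    intro G A v K f hn _ _ hK
    exact absurd (Finset.card_eq_zero.mp hn) hK.ne_empty
  | succ n ih =>
    intro G A v K f hn hA hv hK hC hKA hvK hf hG
    obtain ⟨p, hp⟩ := hK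
    by_cases h1 : K = {p}
    · subst h1
      refine base hDDC hISO A v p f hA hv (hKA p hp) (fun i h => hvK i ?_) (fun i => ?_) hG
      · rw [h]; exact hp
      · exact ⟨(hf i).1, Finset.mem_singleton.mp (hf i).2.1, (hf i).2.2⟩
    · obtain ⟨d, hd, hdp, hdK, hdn⟩ := hC {p} (by simpa using hp) ⟨p, by simp⟩ (Ne.symm h1)
      have hdp' : G.vt d = p := Finset.mem_singleton.mp hdp
      have hdX : d.1 ∈ G.X := (Finset.mem_sdiff.mp hd).1
      have hdA : d.1 ∉ A := (Finset.mem_sdiff.mp hd).2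
      have hne : G.vt d ≠ G.vt (rv d) := by
        intro h
        apply hdn
        rw [← h]
        exact hdp
      have hpK : G.vt d ∈ K := by rw [hdp']; exact hp
      set q := G.vt (rv d) with hq
      set G' := G.con d with hG'
      have vt' : ∀ x, G'.vt x = if G.vt x = q then G.vt d else G.vt x := fun x => rfl
      have hvA : ∀ x : Dart E, x.1 ∈ A → G'.vt x = G.vt x := by
        intro x hx
        rw [vt', if_neg]
        intro h
        exact hKA q hdK (mem_vs.mpr ⟨x, hx, h⟩)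
      have hX' : G'.X = G.X.erase d.1 := rfl
      have hE := hDDC.con d hdX hne hG
      have hA' : A ⊆ G'.X := by
        intro e he
        rw [hX', Finset.mem_erase]
        exact ⟨fun h => hdA (h ▸ he), hA he⟩
      have hcard : (K.erase q).card = n := by
        rw [Finset.card_erase_of_mem hdK, hn]
        rfl
      have hres := ih (G := G') A v (K.erase q) f hcard hA' hv
        ⟨G.vt d, Finset.mem_erase.mpr ⟨hne, hpK⟩⟩ ?_ ?_ ?_ ?_ hE
      · refine (hISO (G := star G' A v) (H := star G A v) (δ := id) (ψ := id) ?_).2 hres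
        constructor
        · intro x y _ _ h; exact h
        · intro x _; rfl
        · intro x hx
          rw [mem_star] at hx ⊢
          exact hx
        · intro x hx
          refine ⟨x, ?_, rfl⟩
          rw [mem_star] at hx ⊢
          exact hx
        · intro x hx
          rw [mem_star] at hx
          obtain ⟨x1, b⟩ := x
          rcases hx with ⟨e, he, h⟩ | ⟨i, h⟩
          · simp only at h
            subst h
            show some (G.vt (e, b)) = some (G'.vt (e, b))
            rw [hvA (e, b) he]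
          · simp only at h
            subst h
            cases b <;> rfl
        · intro x y _ _ h; exact h
      · -- Conn
        intro S hS hSne hSK
        have hqS : q ∉ S := fun h => (Finset.mem_erase.mp (hS h)).1 rfl
        set S' : Finset V := if G.vt d ∈ S then insert q S else S with hS'
        have memS' : ∀ w, w ∈ S' ↔ w ∈ S ∨ (w = q ∧ G.vt d ∈ S) := by
          intro w
          rw [hS']
          split_ifs with h
          · rw [Finset.mem_insert]; tauto
          · tauto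
        have hS'K : S' ⊆ K := by
          intro w hw
          rcases (memS' w).mp hw with h | ⟨rfl, -⟩
          · exact (Finset.mem_erase.mp (hS h)).2
          · exact hdK
        have hS'ne : S'.Nonempty := by
          obtain ⟨w, hw⟩ := hSne
          exact ⟨w, (memS' w).mpr (Or.inl hw)⟩
        have hS'K2 : S' ≠ K := by
          intro h
          by_cases hpS : G.vt d ∈ S
          · apply hSK
            apply Finset.Subset.antisymm hS
            intro w hw
            obtain ⟨hw1, hw2⟩ := Finset.mem_erase.mp hw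
            rw [← h, memS'] at hw2
            rcases hw2 with h2 | ⟨h2, -⟩
            · exact h2
            · exact absurd h2 hw1
          · have : G.vt d ∈ S' := by rw [h]; exact hpK
            rcases (memS' _).mp this with h2 | ⟨-, h2⟩
            · exact hpS h2
            · exact hpS h2
        obtain ⟨x, hx, hx1, hx2, hx3⟩ := hC S' hS'K hS'ne hS'K2
        have hxd : x.1 ≠ d.1 := by
          intro h
          rcases CYCM.fst_eq h with rfl | rfl
          · rcases (memS' _).mp hx1 with h2 | ⟨h2, -⟩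
            · exact hx3 ((memS' _).mpr (Or.inr ⟨rfl, h2⟩))
            · exact hne h2
          · rw [CYCM.rv_rv] at hx3
            rcases (memS' _).mp hx1 with h2 | ⟨-, h2⟩
            · exact hqS h2
            · exact hx3 ((memS' _).mpr (Or.inl h2))
        refine ⟨x, ?_, ?_, ?_, ?_⟩
        · rw [Finset.mem_sdiff] at hx ⊢
          rw [hX', Finset.mem_erase]
          exact ⟨⟨hxd, hx.1⟩, hx.2⟩
        · rw [vt']
          split_ifs with h
          · rcases (memS' _).mp hx1 with h2 | ⟨-, h2⟩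
            · exact absurd (h ▸ h2) hqS
            · exact h2
          · rcases (memS' _).mp hx1 with h2 | ⟨h2, -⟩
            · exact h2
            · exact absurd h2 h
        · rw [vt', Finset.mem_erase]
          split_ifs with h
          · exact ⟨hne, hpK⟩
          · exact ⟨h, hx2⟩
        · rw [vt']
          split_ifs with h
          · intro h2
            exact hx3 ((memS' _).mpr (Or.inr ⟨h, h2⟩))
          · intro h2
            exact hx3 ((memS' _).mpr (Or.inl h2))
      · intro w hw hwA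
        obtain ⟨x, hx, hxw⟩ := mem_vs.mp hwA
        rw [hvA x hx] at hxw
        exact hKA w (Finset.mem_erase.mp hw).2 (mem_vs.mpr ⟨x, hx, hxw⟩)
      · intro i h
        exact hvK i (Finset.mem_erase.mp h).2
      · intro i
        obtain ⟨h1, h2, h3⟩ := hf i
        have hfd : (f i).1 ≠ d.1 := by
          intro h
          rcases CYCM.fst_eq h with h4 | h4
          · apply hvK i
            rw [← h3, h4]
            exact hdK
          · apply hvK i
            rw [← h3, h4, CYCM.rv_rv]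
            exact hpK
        refine ⟨?_, ?_, ?_⟩
        · rw [Finset.mem_sdiff] at h1 ⊢
          rw [hX', Finset.mem_erase]
          exact ⟨⟨hfd, h1.1⟩, h1.2⟩
        · rw [vt', Finset.mem_erase]
          split_ifs with h
          · exact ⟨hne, hpK⟩
          · exact ⟨h, h2⟩
        · rw [vt', h3, if_neg]
          intro h
          apply hvK i
          rw [h]
          exact hdK

end MIKM

theorem specMIK (hDDC : SpecDDC) (hISO : SpecISO) : SpecMIK := by
  intro V E _ _ k G A v K f hA hv hK hC hKA hvK hf hG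
  exact MIKM.step hDDC hISO K.card A v K f rfl hA hv hK hC hKA hvK hf hG

end Pool.Agent.Lib.MP3ff0f8.T
end
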