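import Pool.Agent.Lib.MP_3ff0f8_gt.T.Spec
import Pool.Agent.Lib.MP_3ff0f8_gt.T.IND

section
/-!
# Module LOC: closed runs with all parities even
-/
namespace Pool.Agent.Lib.MP3ff0f8.T

namespace LOCM

open Finset

lemma add_self (x : ZMod 2) : x + x = 0 := CharTwo.add_self_eq_zero x

section general

variable {α : Type} [DecidableEq α]

lemma par_cons (z : α) (W : List α) (y : α) :
    par (z :: W) y = par W y + if z = y then 1 else 0 := by
  unfold par
  rw [List.count_cons]
  push_cast
  by_cases h : z = y <;> simp [h]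

lemma sum_map (W : List α) (f : α → ZMod 2) (E : Finset α) (hE : ∀ z ∈ W, z ∈ E) :
    (W.map f).sum = ∑ y ∈ E, f y * par W y := by
  induction W with
  | nil => simp [par]
  | cons z W ih =>
    rw [List.map_cons, List.sum_cons, ih (fun w hw => hE w (List.mem_cons_of_mem _ hw))]
    simp only [par_cons, mul_add, Finset.sum_add_distrib, mul_ite, mul_one, mul_zero]
    rw [Finset.sum_ite_eq E z, if_pos (hE z List.mem_cons_self), add_comm]

/-- number mod 2 of the pairs of positions with values `x`, `y` -/
def NN (U : List α) (x y : α) : ZMod 2 := ps (fun z w => if z = x ∧ w = y then 1 else 0) U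

lemma NN_cons (z : α) (U : List α) (x y : α) :
    NN (z :: U) x y = (if z = x then par U y else 0) + NN U x y := by
  unfold NN
  rw [ps]
  congr 1
  rw [sum_map U _ U.toFinset (fun w hw => List.mem_toFinset.2 hw)]
  by_cases h : z = x
  · simp only [h, true_and, if_true, ite_mul, one_mul, zero_mul]
    rw [Finset.sum_ite_eq' U.toFinset y]
    split_ifs with h1
    · rfl
    · unfold par
      rw [List.count_eq_zero_of_not_mem (fun h2 => h1 (List.mem_toFinset.2 h2))]
      simp
  · simp [h]

lemma ps_eq (U : List α) (g : α → α → ZMod 2) (E : Finset α) (hE : ∀ z ∈ U, z ∈ E) :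
    ps g U = ∑ x ∈ E, ∑ y ∈ E, g x y * NN U x y := by
  induction U with
  | nil => simp [ps, NN]
  | cons z U ih =>
    have hE' : ∀ w ∈ U, w ∈ E := fun w hw => hE w (List.mem_cons_of_mem _ hw)
    rw [ps, ih hE']
    simp only [NN_cons, mul_add, Finset.sum_add_distrib]
    congr 1
    rw [sum_map U _ E hE']
    have : ∀ x ∈ E, (∑ y ∈ E, g x y * if z = x then par U y else 0)
        = if z = x then ∑ y ∈ E, g x y * par U y else 0 := by
      intro x _
      split_ifs <;> simp
    rw [Finset.sum_congr rfl this, Finset.sum_ite_eq E z, if_pos (hE z List.mem_cons_self)]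

lemma NN_symm (U : List α) (x y : α) (hxy : x ≠ y) :
    NN U x y + NN U y x = par U x * par U y := by
  induction U with
  | nil => simp [NN, ps, par]
  | cons z U ih =>
    rw [NN_cons, NN_cons, par_cons, par_cons]
    have h : (if z = x then par U y else 0) + NN U x y + ((if z = y then par U x else 0) + NN U y x)
        = (if z = x then par U y else 0) + (if z = y then par U x else 0) +
          (NN U x y + NN U y x) := by ring
    rw [h, ih]
    by_cases h1 : z = x
    · subst h1
      simp only [if_true, if_neg hxy]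
      ring
    · simp only [h1, if_false]
      split_ifs <;> ring

end general

section runs

variable {S : Type} [DecidableEq S]

/-- relative order in a list -/
def bf (L : List S) (s t : S) : ZMod 2 := if L.idxOf s < L.idxOf t then 1 else 0

lemma inv_eq (L L' : List S) (s t : S) : inv L L' s t = bf L s t + bf L' s t := by
  unfold inv bf
  by_cases h1 : L.idxOf s < L.idxOf t <;> by_cases h2 : L'.idxOf s < L'.idxOf t <;>
    simp [h1, h2, add_self]

/-- two adjacent entries have the same order relative to a third one -/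
lemma bf_adj (A B : List S) (s t w : S) (hnd : (A ++ s :: t :: B).Nodup) (hws : w ≠ s)
    (hwt : w ≠ t) : bf (A ++ s :: t :: B) s w = bf (A ++ s :: t :: B) t w := by
  have hsA : s ∉ A := by
    intro h
    exact (List.disjoint_of_nodup_append hnd) h (by simp)
  have htA : t ∉ A := by
    intro h
    exact (List.disjoint_of_nodup_append hnd) h (by simp)
  have hst : s ≠ t := by
    have := (List.nodup_append.1 hnd).2.1
    rw [List.nodup_cons] at this
    intro h
    exact this.1 (by simp [h])
  unfold bf
  rw [List.idxOf_append_of_notMem hsA, List.idxOf_append_of_notMem htA]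
  by_cases hwA : w ∈ A
  · rw [List.idxOf_append_of_mem hwA]
    have := List.idxOf_lt_length_iff.2 hwA
    rw [if_neg (by omega), if_neg (by omega)]
  · rw [List.idxOf_append_of_notMem hwA]
    rw [List.idxOf_cons_self, List.idxOf_cons_ne _ hst, List.idxOf_cons_self,
      List.idxOf_cons_ne _ (Ne.symm hws), List.idxOf_cons_ne _ (Ne.symm hwt)]
    rw [if_pos (by omega), if_pos (by omega)]

/-- the sum of the four numbers -/
lemma four (hRUN : SpecRUN) (L : List S) (hL : L.Nodup) (o v w : S) (ho : o ∈ L) (hv : v ∈ L)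
    (hw : w ∈ L) (hov : o ≠ v) (hwo : w ≠ o) (hwv : w ≠ v) :
    ∀ (M : List S) (U : List (S × S)), Run M U L →
      NN U (o, v) (o, w) + NN U (o, v) (w, o) + NN U (o, v) (v, w) + NN U (o, v) (w, v)
        = (bf L o w + bf L v w) * par U (o, v) := by
  intro M U hrun
  have key : ∀ (A B : List S) (s t : S) (W : List (S × S)), (A ++ t :: s :: B).Nodup →
      Run (A ++ t :: s :: B) W L → ((s = o ∧ t = v) ∨ (s = v ∧ t = o)) →
      par W (o, w) + par W (w, o) + par W (v, w) + par W (w, v) = bf L o w + bf L v w := by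
    intro A B s t W hnd hW hst
    have hperm := hRUN.perm hW
    have h1 := hRUN.pari hnd hW o (hperm.mem_iff.2 ho) w (hperm.mem_iff.2 hw) (Ne.symm hwo)
    have h2 := hRUN.pari hnd hW v (hperm.mem_iff.2 hv) w (hperm.mem_iff.2 hw) (Ne.symm hwv)
    rw [inv_eq] at h1 h2
    have h3 : bf (A ++ t :: s :: B) o w = bf (A ++ t :: s :: B) v w := by
      rcases hst with ⟨rfl, rfl⟩ | ⟨rfl, rfl⟩
      · exact (bf_adj A B _ _ w hnd hwv hwo).symm
      · exact bf_adj A B _ _ w hnd hwo hwv
    calc par W (o, w) + par W (w, o) + par W (v, w) + par W (w, v)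
        = (par W (o, w) + par W (w, o)) + (par W (v, w) + par W (w, v)) := by ring
      _ = (bf (A ++ t :: s :: B) v w + bf (A ++ t :: s :: B) v w) + (bf L o w + bf L v w) := by
          rw [h1, h2, h3]; ring
      _ = _ := by rw [add_self, zero_add]
  have nd : ∀ (M : List S) (U : List (S × S)), Run M U L → M.Nodup := fun M U h =>
    (hRUN.perm h).nodup_iff.2 hL
  generalize hL' : L = L' at hrun
  induction hrun
  · simp [NN, ps, par]
  · rename_i A B s t W L'' hr ih
    subst hL'
    have ih' := ih rfl
    simp only [NN_cons, par_cons]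
    by_cases h : (s, t) = (o, v)
    · simp only [h, if_true]
      have hst : (s = o ∧ t = v) ∨ (s = v ∧ t = o) := Or.inl (Prod.mk.injEq _ _ _ _ ▸ h)
      have hk := key A B s t W (nd _ _ hr) hr hst
      linear_combination hk + ih'
    · simp only [h, if_false, zero_add, add_zero]
      exact ih'
  · rename_i A B s t W L'' hr ih
    subst hL'
    have ih' := ih rfl
    simp only [NN_cons, par_cons]
    by_cases h : (t, s) = (o, v)
    · simp only [h, if_true]
      have hst : (s = o ∧ t = v) ∨ (s = v ∧ t = o) := by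
        have h' := h
        rw [Prod.mk.injEq] at h'
        exact Or.inr ⟨h'.2, h'.1⟩
      have hk := key A B s t W (nd _ _ hr) hr hst
      linear_combination hk + ih'
    · simp only [h, if_false, zero_add, add_zero]
      exact ih'

end runs

section triples

/-- the order of three elements: `p` = (0 before 1), `q` = (1 before 2), `r` = (0 before 2) -/
def cb (p q r : Bool) (i j : Fin 3) : Bool :=
  if i = 0 ∧ j = 1 then p else if i = 1 ∧ j = 0 then !p else
  if i = 1 ∧ j = 2 then q else if i = 2 ∧ j = 1 then !q else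
  if i = 0 ∧ j = 2 then r else if i = 2 ∧ j = 0 then !r else false

def fb (f g h : Bool) (i : Fin 3) : Bool := if i = 0 then f else if i = 1 then g else h

def L1 (p q r f g h : Bool) (i j : Fin 3) : Bool := cb p q r i j || (decide (i = j) && fb f g h i)
def L0 (p q r f g h : Bool) (i j : Fin 3) : Bool := cb p q r i j || (decide (i = j) && !fb f g h i)

def B3 (p q r f g h : Bool) (i j k l : Fin 3) : Bool :=
  xor (L1 p q r f g h i l && (L0 p q r f g h l j && L1 p q r f g h j k))
    (L0 p q r f g h k j && (L1 p q r f g h j l && L0 p q r f g h l i))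

/-- over strand function -/
def cf (p q r : Bool) (i : Fin 3) : Bool :=
  if p = q then false else if r = p then decide (i = 0) else decide (i = 2)

set_option maxRecDepth 100000 in
lemma check : ∀ p q r f g h : Bool, ¬ (p = q ∧ r ≠ p) → ∀ i j k l : Fin 3, i ≠ j → k ≠ l →
    ¬ (i = k ∧ j = l) → ¬ (i = l ∧ j = k) →
    xor (xor (B3 p q r f g h i j k l) (B3 true true true true true true i j k l))
      (xor (B3 p q r f g h k l i j) (B3 true true true true true true k l i j)) =
    xor (cf p q r i) (cf p q r k) := by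
  decide +kernel

/-- `Bool` to `ZMod 2` -/
def tz (b : Bool) : ZMod 2 := if b then 1 else 0

lemma tz_xor (a b : Bool) : tz (xor a b) = tz a + tz b := by
  cases a <;> cases b <;> simp [tz, add_self]

variable {S : Type} [DecidableEq S]

lemma idx_inj {q : List (S × Bool)} {a b : S} (ha : on q a) (hab : a ≠ b) :
    idx q a ≠ idx q b := by
  intro h
  unfold idx at h
  exact hab ((List.idxOf_inj ha).1 h)

lemma flag {q : List (S × Bool)} (hq : (q.map Prod.fst).Nodup) {a : S} (ha : on q a) :
    (a, false) ∈ q ↔ ¬ (a, true) ∈ q := by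
  constructor
  · intro h1 h2
    have := List.inj_on_of_nodup_map hq h1 h2 rfl
    simp at this
  · intro h
    unfold on at ha
    rw [List.mem_map] at ha
    obtain ⟨⟨x, b⟩, hx, rfl⟩ := ha
    cases b
    · exact hx
    · exact absurd hx h

lemma transfer (q : List (S × Bool)) (hq : (q.map Prod.fst).Nodup) (s t u : S) (hs : on q s)
    (ht : on q t) (hu : on q u) (hst : s ≠ t) (hsu : s ≠ u) (htu : t ≠ u) (i j k l : Fin 3) :
    bet q (![s, t, u] i, ![s, t, u] j) (![s, t, u] k, ![s, t, u] l) =
      tz (B3 (decide (idx q s < idx q t)) (decide (idx q t < idx q u)) (decide (idx q s < idx q u))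
        (decide ((s, true) ∈ q)) (decide ((t, true) ∈ q)) (decide ((u, true) ∈ q)) i j k l) := by
  have e1 : idx q t < idx q s ↔ ¬ idx q s < idx q t := by
    have := idx_inj hs hst
    omega
  have e2 : idx q u < idx q t ↔ ¬ idx q t < idx q u := by
    have := idx_inj ht htu
    omega
  have e3 : idx q u < idx q s ↔ ¬ idx q s < idx q u := by
    have := idx_inj hs hsu
    omega
  have g1 := flag hq hs
  have g2 := flag hq ht
  have g3 := flag hq hu
  have hon : ∀ i : Fin 3, on q (![s, t, u] i) := by
    intro i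
    fin_cases i
    · exact hs
    · exact ht
    · exact hu
  have h1 : ∀ i j : Fin 3, l01 q (![s, t, u] i) (![s, t, u] j) ↔
      L1 (decide (idx q s < idx q t)) (decide (idx q t < idx q u)) (decide (idx q s < idx q u))
        (decide ((s, true) ∈ q)) (decide ((t, true) ∈ q)) (decide ((u, true) ∈ q)) i j = true := by
    intro i j
    fin_cases i <;> fin_cases j <;>
      simp [l01, L1, cb, fb, e1, e2, e3, hst, hsu, htu, hst.symm, hsu.symm, htu.symm]
  have h0 : ∀ i j : Fin 3, l10 q (![s, t, u] i) (![s, t, u] j) ↔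
      L0 (decide (idx q s < idx q t)) (decide (idx q t < idx q u)) (decide (idx q s < idx q u))
        (decide ((s, true) ∈ q)) (decide ((t, true) ∈ q)) (decide ((u, true) ∈ q)) i j = true := by
    intro i j
    fin_cases i <;> fin_cases j <;>
      simp [l10, L0, cb, fb, e1, e2, e3, g1, g2, g3, hst, hsu, htu, hst.symm, hsu.symm, htu.symm]
  unfold bet
  simp only [hon, and_self, if_true, h1, h0]
  unfold B3
  rw [tz_xor]
  simp [tz]

end triples

section sums

variable {S : Type} [DecidableEq S]

/-- the functions of the form in the statement -/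
def InL (L : List S) (φ : List (S × Bool) → ZMod 2) : Prop :=
  ∃ (κ : S → S → S → ZMod 2) (μ : S → S → ZMod 2), ∀ q : List (S × Bool), (q.map Prod.fst).Nodup →
    φ q = (∑ s ∈ L.toFinset, ∑ t ∈ L.toFinset, ∑ u ∈ L.toFinset,
        κ s t u * (ion q s * ion q t * ion q u)) +
      ∑ s ∈ L.toFinset, ∑ t ∈ L.toFinset, μ s t * coh q s t

lemma InL.congr {L : List S} {φ ψ : List (S × Bool) → ZMod 2} (h : InL L φ)
    (he : ∀ q, (q.map Prod.fst).Nodup → ψ q = φ q) : InL L ψ := by
  obtain ⟨κ, μ, h⟩ := h
  exact ⟨κ, μ, fun q hq => by rw [he q hq, h q hq]⟩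

lemma InL.zero (L : List S) : InL L (fun _ => 0) :=
  ⟨fun _ _ _ => 0, fun _ _ => 0, fun q _ => by simp⟩

lemma InL.add {L : List S} {φ ψ : List (S × Bool) → ZMod 2} (h : InL L φ) (h' : InL L ψ) :
    InL L (fun q => φ q + ψ q) := by
  obtain ⟨κ, μ, h⟩ := h
  obtain ⟨κ', μ', h'⟩ := h'
  refine ⟨fun s t u => κ s t u + κ' s t u, fun s t => μ s t + μ' s t, fun q hq => ?_⟩
  simp only [h q hq, h' q hq, add_mul, Finset.sum_add_distrib]
  ring

lemma InL.sum {L : List S} {ι : Type} (A : Finset ι) (φ : ι → List (S × Bool) → ZMod 2)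
    (h : ∀ i ∈ A, InL L (φ i)) : InL L (fun q => ∑ i ∈ A, φ i q) := by
  classical
  induction A using Finset.induction_on with
  | empty => simpa using InL.zero L
  | insert a A ha ih =>
    simp only [Finset.sum_insert ha]
    exact InL.add (h a (Finset.mem_insert_self _ _))
      (ih fun i hi => h i (Finset.mem_insert_of_mem hi))

lemma InL.three {L : List S} {s t u : S} (hs : s ∈ L) (ht : t ∈ L) (hu : u ∈ L) (k : ZMod 2) :
    InL L (fun q => k * (ion q s * ion q t * ion q u)) := by
  refine ⟨fun a b c => if a = s ∧ b = t ∧ c = u then k else 0, fun _ _ => 0, fun q _ => ?_⟩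
  simp only [zero_mul, Finset.sum_const_zero, add_zero]
  rw [Finset.sum_eq_single s]
  · rw [Finset.sum_eq_single t]
    · rw [Finset.sum_eq_single u]
      · simp
      · intro c _ hc
        simp [hc]
      · intro h
        exact absurd (List.mem_toFinset.2 hu) h
    · intro c _ hc
      simp [hc]
    · intro h
      exact absurd (List.mem_toFinset.2 ht) h
  · intro c _ hc
    simp [hc]
  · intro h
    exact absurd (List.mem_toFinset.2 hs) h

lemma InL.two {L : List S} {s t : S} (hs : s ∈ L) (ht : t ∈ L) (k : ZMod 2) :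
    InL L (fun q => k * coh q s t) := by
  refine ⟨fun _ _ _ => 0, fun a b => if a = s ∧ b = t then k else 0, fun q _ => ?_⟩
  simp only [zero_mul, Finset.sum_const_zero, zero_add]
  rw [Finset.sum_eq_single s]
  · rw [Finset.sum_eq_single t]
    · simp
    · intro c _ hc
      simp [hc]
    · intro h
      exact absurd (List.mem_toFinset.2 ht) h
  · intro c _ hc
    simp [hc]
  · intro h
    exact absurd (List.mem_toFinset.2 hs) h

lemma sym_zero (P : Finset ((S × S) × (S × S))) (hP : ∀ p ∈ P, p.swap ∈ P)
    (F : (S × S) → (S × S) → ZMod 2) (hF : ∀ p ∈ P, F p.1 p.2 = F p.2 p.1)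
    (hd : ∀ p ∈ P, p.1 = p.2 → F p.1 p.2 = 0) : ∑ p ∈ P, F p.1 p.2 = 0 := by
  refine Finset.sum_involution (fun p _ => p.swap) ?_ ?_ hP ?_
  · intro p hp
    simp only [Prod.fst_swap, Prod.snd_swap]
    rw [← hF p hp, add_self]
  · intro p hp h0 h1
    apply h0
    apply hd p hp
    have := congrArg Prod.fst h1
    simpa using this.symm
  · intro p hp
    simp

/-- the strands of a pair of events -/
def sp (p : (S × S) × (S × S)) : Finset S := {p.1.1, p.1.2, p.2.1, p.2.2}

lemma sp_swap (p : (S × S) × (S × S)) : sp p.swap = sp p := by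
  unfold sp
  ext x
  simp only [Prod.fst_swap, Prod.snd_swap, Finset.mem_insert, Finset.mem_singleton]
  tauto

/-- properties of the numbers `N x y` -/
structure Nice (L : List S) (N : (S × S) → (S × S) → ZMod 2) : Prop where
  symm : ∀ x y, N x y = N y x
  d1 : ∀ x y, x.1 = x.2 → N x y = 0
  d2 : ∀ x y, y.1 = y.2 → N x y = 0
  four : ∀ o ∈ L, ∀ v ∈ L, ∀ w ∈ L, o ≠ v → w ≠ o → w ≠ v →
    N (o, v) (o, w) + N (o, v) (w, o) + N (o, v) (v, w) + N (o, v) (w, v) = 0

/-- the pairs of events with the set of strands `T` -/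
def PT (L : List S) (T : Finset S) : Finset ((S × S) × (S × S)) :=
  ((L.toFinset ×ˢ L.toFinset) ×ˢ (L.toFinset ×ˢ L.toFinset)).filter fun p => sp p = T

lemma mem_PT {L : List S} {T : Finset S} {p : (S × S) × (S × S)} : p ∈ PT L T ↔
    ((p.1.1 ∈ L ∧ p.1.2 ∈ L) ∧ p.2.1 ∈ L ∧ p.2.2 ∈ L) ∧ sp p = T := by
  simp [PT, Finset.mem_filter, Finset.mem_product]

lemma PT_swap {L : List S} {T : Finset S} (p : (S × S) × (S × S)) (hp : p ∈ PT L T) :
    p.swap ∈ PT L T := by
  rw [mem_PT] at hp ⊢
  rw [sp_swap]
  simp only [Prod.fst_swap, Prod.snd_swap]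
  tauto

lemma bet_self {q : List (S × Bool)} {z : S × S} (hz : z.1 ≠ z.2) : bet q z z = 0 := by
  unfold bet l01 l10
  have h1 : ¬ (z.1 = z.2) := hz
  have h2 : ¬ (z.2 = z.1) := fun h => hz h.symm
  simp only [h1, h2, false_and, or_false]
  split_ifs <;> first | rfl | (exfalso; omega)

lemma case_four {L : List S} {N : (S × S) → (S × S) → ZMod 2} (hN : Nice L N) (T : Finset S)
    (hT : T.card = 4) (q : List (S × Bool)) :
    ∑ p ∈ PT L T, bet q p.1 p.2 * N p.1 p.2 = 0 := by
  refine sym_zero (PT L T) PT_swap (fun x y => bet q x y * N x y) ?_ ?_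
  · rintro ⟨⟨a, b⟩, c, d⟩ hp
    rw [mem_PT] at hp
    have hc : ({a, b, c, d} : Finset S).card = 4 := by
      have := hp.2
      unfold sp at this
      simp only at this
      rw [this, hT]
    have hab : a ≠ b := by
      rintro rfl
      have h3 : ({a, c, d} : Finset S).card ≤ 3 := Finset.card_le_three
      simp only [Finset.insert_idem] at hc
      omega
    have hcd : c ≠ d := by
      rintro rfl
      have h3 : ({a, b, c} : Finset S).card ≤ 3 := Finset.card_le_three
      simp only [Finset.pair_eq_singleton] at hc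
      omega
    have hac : a ≠ c := by
      rintro rfl
      have h3 : ({a, b, d} : Finset S).card ≤ 3 := Finset.card_le_three
      have h4 : ({a, b, a, d} : Finset S) = {a, b, d} := by
        ext x; simp only [Finset.mem_insert, Finset.mem_singleton]; tauto
      rw [h4] at hc
      omega
    have had : a ≠ d := by
      rintro rfl
      have h3 : ({a, b, c} : Finset S).card ≤ 3 := Finset.card_le_three
      have h4 : ({a, b, c, a} : Finset S) = {a, b, c} := by
        ext x; simp only [Finset.mem_insert, Finset.mem_singleton]; tauto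
      rw [h4] at hc
      omega
    have hbc : b ≠ c := by
      rintro rfl
      have h3 : ({a, b, d} : Finset S).card ≤ 3 := Finset.card_le_three
      have h4 : ({a, b, b, d} : Finset S) = {a, b, d} := by
        ext x; simp only [Finset.mem_insert, Finset.mem_singleton]; tauto
      rw [h4] at hc
      omega
    have hbd : b ≠ d := by
      rintro rfl
      have h3 : ({a, b, c} : Finset S).card ≤ 3 := Finset.card_le_three
      have h4 : ({a, b, c, b} : Finset S) = {a, b, c} := by
        ext x; simp only [Finset.mem_insert, Finset.mem_singleton]; tauto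
      rw [h4] at hc
      omega
    simp only
    rw [hN.symm (c, d) (a, b)]
    congr 1
    unfold bet l01 l10
    simp only [hab, hcd, hac, had, hbc, hbd, hab.symm, hcd.symm, hac.symm, had.symm, hbc.symm,
      hbd.symm, false_and, or_false]
    by_cases h : on q a ∧ on q b ∧ on q c ∧ on q d
    · have h' : on q c ∧ on q d ∧ on q a ∧ on q b := ⟨h.2.2.1, h.2.2.2, h.1, h.2.1⟩
      rw [if_pos h, if_pos h', add_comm]
    · have h' : ¬ (on q c ∧ on q d ∧ on q a ∧ on q b) := fun k => h ⟨k.2.2.1, k.2.2.2, k.1, k.2.1⟩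
      rw [if_neg h, if_neg h']
  · rintro ⟨⟨a, b⟩, c, d⟩ hp h
    simp only at h ⊢
    rw [h]
    by_cases hcd : c = d
    · rw [hN.d1 _ _ hcd, mul_zero]
    · rw [bet_self hcd, zero_mul]

lemma case_le_one {L : List S} {N : (S × S) → (S × S) → ZMod 2} (hN : Nice L N) (T : Finset S)
    (hT : T.card ≤ 1) (q : List (S × Bool)) :
    ∑ p ∈ PT L T, bet q p.1 p.2 * N p.1 p.2 = 0 := by
  apply Finset.sum_eq_zero
  intro p hp
  rw [mem_PT] at hp
  rw [hN.d1 _ _ ?_, mul_zero]
  apply Finset.card_le_one.1 hT
  · rw [← hp.2]; simp [sp]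
  · rw [← hp.2]; simp [sp]

lemma case_ge_five {L : List S} {N : (S × S) → (S × S) → ZMod 2} (T : Finset S)
    (hT : 5 ≤ T.card) (q : List (S × Bool)) :
    ∑ p ∈ PT L T, bet q p.1 p.2 * N p.1 p.2 = 0 := by
  apply Finset.sum_eq_zero
  intro p hp
  rw [mem_PT] at hp
  exfalso
  have h1 : (sp p).card ≤ 4 := Finset.card_le_four
  rw [hp.2] at h1
  omega

lemma coh_not {q : List (S × Bool)} {s t : S} (h : ¬ (on q s ∧ on q t)) : coh q s t = 0 := by
  have hm : ∀ (a : S) (b : Bool), (a, b) ∈ q → on q a := by
    intro a b hab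
    unfold on
    exact List.mem_map.2 ⟨(a, b), hab, rfl⟩
  unfold coh
  rw [if_neg (fun k => h ⟨hm _ _ k.1, hm _ _ k.2⟩), if_neg (fun k => h ⟨hm _ _ k.1, hm _ _ k.2⟩),
    add_zero]

lemma bet_two {q : List (S × Bool)} {s t : S} (hst : s ≠ t) :
    bet q (s, t) (t, s) + bet q (t, s) (s, t) = coh q s t := by
  by_cases h : on q s ∧ on q t
  · unfold bet
    have h1 : on q s ∧ on q t ∧ on q t ∧ on q s := ⟨h.1, h.2, h.2, h.1⟩
    have h2 : on q t ∧ on q s ∧ on q s ∧ on q t := ⟨h.2, h.1, h.1, h.2⟩
    simp only [h1, h2, if_true, and_self]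
    unfold l01 l10 coh
    simp only [lt_irrefl, false_or, true_and, hst, hst.symm, false_and, or_false]
    have h3 := idx_inj h.1 hst
    by_cases h4 : idx q s < idx q t
    · have h5 : ¬ idx q t < idx q s := by omega
      by_cases h6 : (s, false) ∈ q <;> by_cases h7 : (t, false) ∈ q <;>
        by_cases h8 : (s, true) ∈ q <;> by_cases h9 : (t, true) ∈ q <;>
        simp [h4, h5, h6, h7, h8, h9]
    · have h5 : idx q t < idx q s := by omega
      by_cases h6 : (s, false) ∈ q <;> by_cases h7 : (t, false) ∈ q <;>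
        by_cases h8 : (s, true) ∈ q <;> by_cases h9 : (t, true) ∈ q <;>
        simp [h4, h5, h6, h7, h8, h9]
  · rw [coh_not h]
    unfold bet
    rw [if_neg (fun k => h ⟨k.1, k.2.1⟩), if_neg (fun k => h ⟨k.2.1, k.1⟩), add_zero]

lemma case_two {L : List S} {N : (S × S) → (S × S) → ZMod 2} (hN : Nice L N) (s t : S)
    (hs : s ∈ L) (ht : t ∈ L) (hst : s ≠ t) (q : List (S × Bool)) :
    ∑ p ∈ PT L {s, t}, bet q p.1 p.2 * N p.1 p.2 = N (s, t) (t, s) * coh q s t := by
  have hsub : ({((s, t), (t, s)), ((t, s), (s, t))} : Finset ((S × S) × (S × S))) ⊆ PT L {s, t} := by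
    intro p hp
    rw [Finset.mem_insert, Finset.mem_singleton] at hp
    rw [mem_PT]
    rcases hp with rfl | rfl
    · refine ⟨⟨⟨hs, ht⟩, ht, hs⟩, ?_⟩
      ext x; simp only [sp, Finset.mem_insert, Finset.mem_singleton]; tauto
    · refine ⟨⟨⟨ht, hs⟩, hs, ht⟩, ?_⟩
      ext x; simp only [sp, Finset.mem_insert, Finset.mem_singleton]; tauto
  rw [← Finset.sum_subset hsub]
  · rw [Finset.sum_pair]
    · simp only
      rw [hN.symm (t, s) (s, t), ← add_mul, bet_two hst, mul_comm]
    · intro h
      rw [Prod.mk.injEq, Prod.mk.injEq] at h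
      exact hst h.1.1
  · rintro ⟨⟨a, b⟩, c, d⟩ hp hn
    rw [mem_PT] at hp
    simp only
    by_cases hab : a = b
    · rw [hN.d1 _ _ hab, mul_zero]
    by_cases hcd : c = d
    · rw [hN.d2 _ _ hcd, mul_zero]
    have hm : ∀ x, x ∈ sp ((a, b), (c, d)) → x = s ∨ x = t := by
      intro x hx
      rw [hp.2] at hx
      simpa using hx
    have ha := hm a (by simp [sp])
    have hb := hm b (by simp [sp])
    have hc := hm c (by simp [sp])
    have hd := hm d (by simp [sp])
    rw [Finset.mem_insert, Finset.mem_singleton] at hn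
    have : (a, b) = (c, d) := by
      rcases ha with rfl | rfl <;> rcases hb with rfl | rfl <;> rcases hc with rfl | rfl <;>
        rcases hd with rfl | rfl <;> simp_all
    rw [this, bet_self hcd, zero_mul]

/-- relation (c1), summed -/
lemma rel_sum {L : List S} {N : (S × S) → (S × S) → ZMod 2} (hN : Nice L N) (T : Finset S)
    (hTL : ∀ x ∈ T, x ∈ L) (hT : T.card = 3) (x : S × S) :
    ∑ y ∈ L.toFinset ×ˢ L.toFinset, (if sp (x, y) = T then N x y else 0) = 0 := by
  obtain ⟨o, v⟩ := x
  by_cases hov : o = v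
  · apply Finset.sum_eq_zero
    intro y _
    rw [hN.d1 _ _ hov, ite_self]
  by_cases hm : o ∈ T ∧ v ∈ T
  · obtain ⟨w, hw, hwo, hwv⟩ : ∃ w ∈ T, w ≠ o ∧ w ≠ v := by
      by_contra hcon
      push Not at hcon
      have : T ⊆ {o, v} := by
        intro w hw
        rw [Finset.mem_insert, Finset.mem_singleton]
        by_cases h : w = o
        · exact Or.inl h
        · exact Or.inr (hcon w hw h)
      have h2 := Finset.card_le_card this
      have h3 : ({o, v} : Finset S).card ≤ 2 := Finset.card_le_two
      omega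
    have hTe : T = {o, v, w} := by
      symm
      apply Finset.eq_of_subset_of_card_le
      · intro z hz
        simp only [Finset.mem_insert, Finset.mem_singleton] at hz
        rcases hz with rfl | rfl | rfl
        · exact hm.1
        · exact hm.2
        · exact hw
      · rw [hT, Finset.card_eq_three.2 ⟨o, v, w, hov, Ne.symm hwo, Ne.symm hwv, rfl⟩]
    have hoL := hTL o hm.1
    have hvL := hTL v hm.2
    have hwL := hTL w hw
    have h4 := hN.four o hoL v hvL w hwL hov hwo hwv
    have hpt : ∀ y ∈ L.toFinset ×ˢ L.toFinset, (if sp ((o, v), y) = T then N (o, v) y else 0) =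
        (if y = (o, w) then N (o, v) (o, w) else 0) + (if y = (w, o) then N (o, v) (w, o) else 0) +
        (if y = (v, w) then N (o, v) (v, w) else 0) + (if y = (w, v) then N (o, v) (w, v) else 0) := by
      rintro ⟨c, d⟩ _
      by_cases hcd : c = d
      · subst hcd
        rw [hN.d2 _ _ rfl, ite_self]
        rw [if_neg, if_neg, if_neg, if_neg]
        · simp
        all_goals
          intro h
          rw [Prod.mk.injEq] at h
          first | exact hwo (h.2.symm.trans h.1) | exact hwo (h.1.symm.trans h.2) |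
            exact hwv (h.2.symm.trans h.1) | exact hwv (h.1.symm.trans h.2)
      by_cases hs : sp ((o, v), (c, d)) = T
      · rw [if_pos hs]
        have hc : c = o ∨ c = v ∨ c = w := by
          have : c ∈ T := by rw [← hs]; simp [sp]
          rw [hTe] at this
          simpa using this
        have hd : d = o ∨ d = v ∨ d = w := by
          have : d ∈ T := by rw [← hs]; simp [sp]
          rw [hTe] at this
          simpa using this
        have hw' : w = c ∨ w = d := by
          have : w ∈ sp ((o, v), (c, d)) := by rw [hs]; exact hw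
          simp only [sp, Finset.mem_insert, Finset.mem_singleton] at this
          rcases this with h | h | h | h
          · exact absurd h hwo
          · exact absurd h hwv
          · exact Or.inl h
          · exact Or.inr h
        have hvo : v ≠ o := Ne.symm hov
        rcases hc with rfl | rfl | rfl <;> rcases hd with rfl | rfl | rfl <;>
          simp_all [Prod.mk.injEq]
      · rw [if_neg hs]
        have hneg : ∀ c' d', sp ((o, v), (c', d')) = T → (c, d) ≠ (c', d') := by
          intro c' d' h h'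
          rw [← h'] at h
          exact hs h
        rw [if_neg (hneg _ _ ?_), if_neg (hneg _ _ ?_), if_neg (hneg _ _ ?_), if_neg (hneg _ _ ?_)]
        · simp
        all_goals
          rw [hTe]
          ext z
          simp only [sp, Finset.mem_insert, Finset.mem_singleton]
          tauto
    rw [Finset.sum_congr rfl hpt]
    simp only [Finset.sum_add_distrib, Finset.sum_ite_eq']
    simp only [Finset.mem_product, List.mem_toFinset, hoL, hvL, hwL, and_self, if_true]
    exact h4
  · apply Finset.sum_eq_zero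
    intro y _
    rw [if_neg]
    intro h
    apply hm
    rw [← h]
    simp [sp]

lemma rel_sum' {L : List S} {N : (S × S) → (S × S) → ZMod 2} (hN : Nice L N) (T : Finset S)
    (hTL : ∀ x ∈ T, x ∈ L) (hT : T.card = 3) (c : S × S → ZMod 2) :
    ∑ p ∈ PT L T, c p.1 * N p.1 p.2 = 0 := by
  unfold PT
  rw [Finset.sum_filter, Finset.sum_product]
  apply Finset.sum_eq_zero
  intro x _
  have h := rel_sum hN T hTL hT x
  have h2 : ∀ y ∈ L.toFinset ×ˢ L.toFinset, (if sp (x, y) = T then c x * N x y else 0) =
      c x * (if sp (x, y) = T then N x y else 0) := by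
    intro y _
    split_ifs <;> simp
  simp only
  rw [Finset.sum_congr rfl h2, ← Finset.mul_sum, h, mul_zero]

lemma idx0 {s t u : S} (hst : s ≠ t) (hsu : s ≠ u) (htu : t ≠ u) :
    idx [(s, true), (t, true), (u, true)] s < idx [(s, true), (t, true), (u, true)] t ∧
    idx [(s, true), (t, true), (u, true)] t < idx [(s, true), (t, true), (u, true)] u ∧
    idx [(s, true), (t, true), (u, true)] s < idx [(s, true), (t, true), (u, true)] u := by
  unfold idx
  simp only [List.map_cons, List.map_nil, List.idxOf_cons_self, List.idxOf_cons_ne _ hst,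
    List.idxOf_cons_ne _ hsu, List.idxOf_cons_ne _ htu]
  simp

lemma transfer0 {s t u : S} (hst : s ≠ t) (hsu : s ≠ u) (htu : t ≠ u) (i j k l : Fin 3) :
    bet [(s, true), (t, true), (u, true)] (![s, t, u] i, ![s, t, u] j) (![s, t, u] k, ![s, t, u] l)
      = tz (B3 true true true true true true i j k l) := by
  obtain ⟨i1, i2, i3⟩ := idx0 hst hsu htu
  have h := transfer [(s, true), (t, true), (u, true)] (by simp [hst, hsu, htu]) s t u
    (by unfold on; simp) (by unfold on; simp) (by unfold on; simp) hst hsu htu i j k l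
  have f1 : decide ((s, true) ∈ [(s, true), (t, true), (u, true)]) = true := by simp
  have f2 : decide ((t, true) ∈ [(s, true), (t, true), (u, true)]) = true := by simp
  have f3 : decide ((u, true) ∈ [(s, true), (t, true), (u, true)]) = true := by simp
  rw [decide_eq_true i1, decide_eq_true i2, decide_eq_true i3, f1, f2, f3] at h
  exact h

lemma transfer1 (q : List (S × Bool)) (hq : (q.map Prod.fst).Nodup) (s t u : S) (hs : on q s)
    (ht : on q t) (hu : on q u) (hst : s ≠ t) (hsu : s ≠ u) (htu : t ≠ u) :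
    ∃ P Q R F G H : Bool, ¬ (P = Q ∧ R ≠ P) ∧ ∀ i j k l : Fin 3,
    bet q (![s, t, u] i, ![s, t, u] j) (![s, t, u] k, ![s, t, u] l) = tz (B3 P Q R F G H i j k l) := by
  refine ⟨_, _, _, _, _, _, ?_, transfer q hq s t u hs ht hu hst hsu htu⟩
  have e1 := idx_inj hs hst
  have e2 := idx_inj ht htu
  have e3 := idx_inj hs hsu
  rintro ⟨a, b⟩
  by_cases h2 : idx q s < idx q t
  · have h3 : idx q t < idx q u := by
      rw [decide_eq_true h2] at a
      exact of_decide_eq_true a.symm
    apply b
    rw [decide_eq_true h2, decide_eq_true (h2.trans h3)]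
  · have h3 : ¬ idx q t < idx q u := by
      rw [decide_eq_false h2] at a
      exact of_decide_eq_false a.symm
    apply b
    rw [decide_eq_false h2, decide_eq_false (by omega)]

lemma bool_id (a b c d e f : ZMod 2) (h : a + b + (c + d) = e + f) : a + b + e = c + d + f := by
  have two : (2 : ZMod 2) = 0 := rfl
  linear_combination h + two * (e - c - d)

lemma case_three {L : List S} {N : (S × S) → (S × S) → ZMod 2} (hN : Nice L N) (s t u : S)
    (hs : s ∈ L) (ht : t ∈ L) (hu : u ∈ L) (hst : s ≠ t) (hsu : s ≠ u) (htu : t ≠ u)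
    (q : List (S × Bool)) (hq : (q.map Prod.fst).Nodup) :
    ∑ p ∈ PT L {s, t, u}, bet q p.1 p.2 * N p.1 p.2 =
      (∑ p ∈ PT L {s, t, u}, bet [(s, true), (t, true), (u, true)] p.1 p.2 * N p.1 p.2) *
        (ion q s * ion q t * ion q u) := by
  have hc3 : ({s, t, u} : Finset S).card = 3 := Finset.card_eq_three.2 ⟨s, t, u, hst, hsu, htu, rfl⟩
  by_cases hon : on q s ∧ on q t ∧ on q u
  swap
  · have h1 : ion q s * ion q t * ion q u = 0 := by
      unfold ion
      by_cases h1 : on q s
      · by_cases h2 : on q t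
        · have h3 : ¬ on q u := fun h3 => hon ⟨h1, h2, h3⟩
          simp [h3]
        · simp [h2]
      · simp [h1]
    rw [h1, mul_zero]
    apply Finset.sum_eq_zero
    intro p hp
    rw [mem_PT] at hp
    have hb : bet q p.1 p.2 = 0 := by
      unfold bet
      rw [if_neg]
      intro h
      apply hon
      have : ∀ x ∈ ({s, t, u} : Finset S), on q x := by
        intro x hx
        rw [← hp.2] at hx
        simp only [sp, Finset.mem_insert, Finset.mem_singleton] at hx
        rcases hx with rfl | rfl | rfl | rfl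
        · exact h.1
        · exact h.2.1
        · exact h.2.2.1
        · exact h.2.2.2
      exact ⟨this s (by simp), this t (by simp), this u (by simp)⟩
    rw [hb, zero_mul]
  obtain ⟨os, ot, ou⟩ := hon
  have h1 : ion q s * ion q t * ion q u = 1 := by
    unfold ion
    simp [os, ot, ou]
  rw [h1, mul_one]
  obtain ⟨P, Q, R, F, G, H, hcyc, tr⟩ := transfer1 q hq s t u os ot ou hst hsu htu
  -- the function c
  let c : S × S → ZMod 2 := fun x => if P = Q then 0 else if R = P then (if x.1 = s then 1 else 0) else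
    (if x.1 = u then 1 else 0)
  have hc : ∀ (i j : Fin 3), c (![s, t, u] i, ![s, t, u] j) = tz (cf P Q R i) := by
    intro i j
    simp only [c, cf]
    by_cases h2 : P = Q
    · simp [h2, tz]
    · by_cases h3 : R = P
      · simp only [h2, h3, if_false, if_true]
        fin_cases i <;> simp [tz, hst.symm, hsu.symm]
      · simp only [h2, h3, if_false]
        fin_cases i <;> simp [tz, hsu, htu]
  have tr0 := transfer0 hst hsu htu
  generalize [(s, true), (t, true), (u, true)] = q0 at tr0 ⊢
  have hmain : ∑ p ∈ PT L {s, t, u}, (bet q p.1 p.2 + bet q0 p.1 p.2 + c p.1) * N p.1 p.2 = 0 := by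
    refine sym_zero (PT L {s, t, u}) PT_swap
      (fun x y => (bet q x y + bet q0 x y + c x) * N x y) ?_ ?_
    · rintro ⟨⟨a1, a2⟩, a3, a4⟩ hp
      rw [mem_PT] at hp
      simp only
      by_cases h12 : a1 = a2
      · rw [hN.d1 _ _ h12, hN.d2 _ _ h12, mul_zero, mul_zero]
      by_cases h34 : a3 = a4
      · rw [hN.d2 _ _ h34, hN.d1 _ _ h34, mul_zero, mul_zero]
      have hmem : ∀ x ∈ sp ((a1, a2), (a3, a4)), ∃ i : Fin 3, x = ![s, t, u] i := by
        intro x hx
        rw [hp.2] at hx
        simp only [Finset.mem_insert, Finset.mem_singleton] at hx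
        rcases hx with rfl | rfl | rfl
        · exact ⟨0, rfl⟩
        · exact ⟨1, rfl⟩
        · exact ⟨2, rfl⟩
      obtain ⟨i, hi⟩ := hmem a1 (by simp [sp])
      obtain ⟨j, hj⟩ := hmem a2 (by simp [sp])
      obtain ⟨k, hk⟩ := hmem a3 (by simp [sp])
      obtain ⟨l, hl⟩ := hmem a4 (by simp [sp])
      have hij : i ≠ j := by rintro rfl; exact h12 (hi.trans hj.symm)
      have hkl : k ≠ l := by rintro rfl; exact h34 (hk.trans hl.symm)
      have hcard : ({a1, a2, a3, a4} : Finset S).card = 3 := by
        have := hp.2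
        unfold sp at this
        simp only at this
        rw [this, hc3]
      have hik : ¬ (i = k ∧ j = l) := by
        rintro ⟨rfl, rfl⟩
        have e1 : a3 = a1 := hk.trans hi.symm
        have e2 : a4 = a2 := hl.trans hj.symm
        rw [e1, e2] at hcard
        have h4 : ({a1, a2, a1, a2} : Finset S) = {a1, a2} := by
          ext x; simp only [Finset.mem_insert, Finset.mem_singleton]; tauto
        rw [h4] at hcard
        have h3 : ({a1, a2} : Finset S).card ≤ 2 := Finset.card_le_two
        omega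
      have hil : ¬ (i = l ∧ j = k) := by
        rintro ⟨rfl, rfl⟩
        have e1 : a4 = a1 := hl.trans hi.symm
        have e2 : a3 = a2 := hk.trans hj.symm
        rw [e1, e2] at hcard
        have h4 : ({a1, a2, a2, a1} : Finset S) = {a1, a2} := by
          ext x; simp only [Finset.mem_insert, Finset.mem_singleton]; tauto
        rw [h4] at hcard
        have h3 : ({a1, a2} : Finset S).card ≤ 2 := Finset.card_le_two
        omega
      rw [hN.symm (a3, a4) (a1, a2)]
      congr 1
      rw [hi, hj, hk, hl]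
      rw [tr, tr, tr0, tr0, hc i j, hc k l]
      have hch := congrArg tz (check P Q R F G H hcyc i j k l hij hkl hik hil)
      simp only [tz_xor] at hch
      exact bool_id _ _ _ _ _ _ hch
    · rintro ⟨⟨a1, a2⟩, a3, a4⟩ hp h
      exfalso
      rw [mem_PT] at hp
      simp only at h
      rw [Prod.mk.injEq] at h
      obtain ⟨rfl, rfl⟩ := h
      have hcard : ({a1, a2, a1, a2} : Finset S).card = 3 := by
        have := hp.2
        unfold sp at this
        simp only at this
        rw [this, hc3]
      have h4 : ({a1, a2, a1, a2} : Finset S) = {a1, a2} := by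
        ext x; simp only [Finset.mem_insert, Finset.mem_singleton]; tauto
      rw [h4] at hcard
      have h3 : ({a1, a2} : Finset S).card ≤ 2 := Finset.card_le_two
      omega
  have hrel := rel_sum' hN {s, t, u} (by
    intro x hx
    simp only [Finset.mem_insert, Finset.mem_singleton] at hx
    rcases hx with rfl | rfl | rfl <;> assumption) hc3 c
  simp only [add_mul, Finset.sum_add_distrib] at hmain
  rw [hrel, add_zero] at hmain
  exact CharTwo.add_eq_zero.1 hmain

end sums

end LOCM

open LOCM in
theorem specLOC (hPSU : SpecPSU) (hRUN : SpecRUN) : SpecLOC := by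
  intro S _ L U hL hrun hpar
  have hmem := hRUN.mem hL hrun
  let N : (S × S) → (S × S) → ZMod 2 := NN U
  have hz : ∀ x y : S × S, (x ∉ U ∨ y ∉ U) → NN U x y = 0 := by
    intro x y h
    unfold NN
    rw [hPSU.cgr _ (fun _ _ => 0)]
    · clear hrun hpar hmem h
      induction U with
      | nil => rfl
      | cons z U ih => simp [ps, ih]
    · intro z hz w hw
      rw [if_neg]
      rintro ⟨rfl, rfl⟩
      rcases h with h | h
      · exact h hz
      · exact h hw
  have hN : Nice L N := by
    refine ⟨fun x y => ?_, fun x y h => ?_, fun x y h => ?_, ?_⟩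
    · by_cases hxy : x = y
      · rw [hxy]
      · have := NN_symm U x y hxy
        rw [hpar x, zero_mul] at this
        exact CharTwo.add_eq_zero.1 this
    · exact hz x y (Or.inl fun hx => (hmem x hx).2.2 h)
    · exact hz x y (Or.inr fun hy => (hmem y hy).2.2 h)
    · intro o ho v hv w hw hov hwo hwv
      have := four hRUN L hL o v w ho hv hw hov hwo hwv L U hrun
      rw [hpar, mul_zero] at this
      exact this
  have hE : ∀ z ∈ U, z ∈ L.toFinset ×ˢ L.toFinset := by
    intro z hzU
    rw [Finset.mem_product, List.mem_toFinset, List.mem_toFinset]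
    exact ⟨(hmem z hzU).1, (hmem z hzU).2.1⟩
  have hA : InL L (fun q => AW q U) := by
    have hsum : InL L (fun q => ∑ T ∈ L.toFinset.powerset, ∑ p ∈ PT L T, bet q p.1 p.2 * N p.1 p.2) := by
      apply InL.sum
      intro T hT
      rw [Finset.mem_powerset] at hT
      have hTL : ∀ x ∈ T, x ∈ L := fun x hx => List.mem_toFinset.1 (hT hx)
      rcases Nat.lt_or_ge T.card 2 with h | h
      · exact (InL.zero L).congr fun q _ => case_le_one hN T (by omega) q
      rcases Nat.lt_or_ge T.card 3 with h3 | h3
      · obtain ⟨s, t, hst, rfl⟩ := Finset.card_eq_two.1 (show T.card = 2 by omega)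
        have hs := hTL s (by simp)
        have ht := hTL t (by simp)
        exact (InL.two hs ht (N (s, t) (t, s))).congr fun q _ => case_two hN s t hs ht hst q
      rcases Nat.lt_or_ge T.card 4 with h4 | h4
      · obtain ⟨s, t, u, hst, hsu, htu, rfl⟩ := Finset.card_eq_three.1 (show T.card = 3 by omega)
        have hs := hTL s (by simp)
        have ht := hTL t (by simp)
        have hu := hTL u (by simp)
        exact (InL.three hs ht hu _).congr fun q hq => case_three hN s t u hs ht hu hst hsu htu q hq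
      rcases Nat.lt_or_ge T.card 5 with h5 | h5
      · exact (InL.zero L).congr fun q _ => case_four hN T (by omega) q
      · exact (InL.zero L).congr fun q _ => case_ge_five T h5 q
    refine hsum.congr fun q _ => ?_
    unfold AW
    rw [ps_eq U (bet q) (L.toFinset ×ˢ L.toFinset) hE, ← Finset.sum_product']
    symm
    apply Finset.sum_fiberwise_of_maps_to
      (s := (L.toFinset ×ˢ L.toFinset) ×ˢ (L.toFinset ×ˢ L.toFinset)) (g := sp)
    intro p hp
    simp only [Finset.mem_product, List.mem_toFinset] at hp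
    rw [Finset.mem_powerset]
    intro x hx
    simp only [sp, Finset.mem_insert, Finset.mem_singleton] at hx
    rw [List.mem_toFinset]
    rcases hx with rfl | rfl | rfl | rfl
    · exact hp.1.1
    · exact hp.1.2
    · exact hp.2.1
    · exact hp.2.2
  exact hA

end Pool.Agent.Lib.MP3ff0f8.T
end

section
/-!
# MP_3ff0f8_gt, topological half: module NOD (the nodes of the realisation are distinct)
-/
namespace Pool.Agent.Lib.MP3ff0f8.T

namespace NODM

lemma inj {S : Type} [DecidableEq S] {L : List S} {s t : S} (hs : s ∈ L)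
    (h : L.idxOf s = L.idxOf t) : s = t := (List.idxOf_inj hs).1 h

end NODM

theorem specNOD (hSTT : SpecSTT) : SpecNOD where
  ss := by
    intro V E _ _ _ _ vt bot top W hD s s' j j' hj hj' h
    simp only [Nd, Prod.mk.injEq] at h
    obtain ⟨h3, h1, -⟩ := h
    have h2 : j = j' := Nat.cast_injective h1
    subst h2
    refine ⟨?_, rfl⟩
    have h4 := Nat.cast_injective h3
    obtain ⟨-, -, hp, -⟩ := hSTT.run hD.dia.nd hD.dia.run (j / 2) (by omega)
    have hm : ∀ d : Dart E, d ∈ stt bot W (j / 2) := by
      intro d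
      rw [hp.mem_iff, hD.mb d]
      exact Finset.mem_univ _
    exact NODM.inj (hm s) h4
  vs := by
    intro V E _ _ _ _ vt bot W v s j h
    have h1 : (-1 : ℝ) = (j : ℝ) := congrArg (fun p : P3 => p.2.1) h
    have h2 : (0 : ℝ) ≤ (j : ℝ) := Nat.cast_nonneg _
    linarith
  vv := by
    intro V E _ _ vt bot v v' h
    have h1 : (vxr vt bot v).1 = (vxr vt bot v').1 := congrArg (fun p : P3 => p.1) h
    simp only [vxr] at h1
    split_ifs at h1 with h2 h3 h3
    · have h4 : (bot.map vt).idxOf v = (bot.map vt).idxOf v' := by exact_mod_cast h1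
      exact (List.idxOf_inj h2).1 h4
    · have h4 : (0 : ℝ) ≤ (((bot.map vt).idxOf v : ℕ) : ℝ) := Nat.cast_nonneg _
      have h5 : (0 : ℝ) ≤ (((Fintype.equivFin V v' : Fin (Fintype.card V)) : ℕ) : ℝ) :=
        Nat.cast_nonneg _
      linarith
    · have h4 : (0 : ℝ) ≤ (((bot.map vt).idxOf v' : ℕ) : ℝ) := Nat.cast_nonneg _
      have h5 : (0 : ℝ) ≤ (((Fintype.equivFin V v : Fin (Fintype.card V)) : ℕ) : ℝ) :=
        Nat.cast_nonneg _
      linarith
    · have h4 : (((Fintype.equivFin V v : Fin (Fintype.card V)) : ℕ) : ℝ) =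
        (((Fintype.equivFin V v' : Fin (Fintype.card V)) : ℕ) : ℝ) := by linarith
      have h5 : ((Fintype.equivFin V v : Fin (Fintype.card V)) : ℕ) =
        ((Fintype.equivFin V v' : Fin (Fintype.card V)) : ℕ) := by exact_mod_cast h4
      exact (Fintype.equivFin V).injective (Fin.ext h5)

end Pool.Agent.Lib.MP3ff0f8.T
end

section
/-!
# MP_3ff0f8_gt, topological half: module PRE

Events whose under strands are all at one vertex (before all others) or all on one edge (after all
others) do not change the Polyak-Viro numbers.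
-/
namespace Pool.Agent.Lib.MP3ff0f8.T.PREM

open Finset

section words

variable {S : Type} [DecidableEq S]

lemma not_mem_of_nodup {q : List (S × Bool)} (hn : (q.map Prod.fst).Nodup) {x : S} {f : Bool}
    (h : (x, f) ∈ q) : (x, !f) ∉ q := by
  intro h'
  have := List.inj_on_of_nodup_map hn h h' rfl
  simp at this

lemma idx_first {q M : List (S × Bool)} {x : S} {f : Bool} (hq : q = (x, f) :: M) :
    idx q x = 0 := by
  subst hq
  simp [idx]

lemma no_before {q M : List (S × Bool)} {x : S} {f : Bool} (hq : q = (x, f) :: M)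
    (hn : (q.map Prod.fst).Nodup) (p : S) :
    (f = true → ¬ l10 q p x) ∧ (f = false → ¬ l01 q p x) := by
  have h0 := idx_first hq
  have hm : (x, f) ∈ q := by rw [hq]; simp
  have hnm := not_mem_of_nodup hn hm
  constructor
  · rintro rfl (h | ⟨rfl, h⟩)
    · omega
    · exact hnm (by simpa using h)
  · rintro rfl (h | ⟨rfl, h⟩)
    · omega
    · exact hnm (by simpa using h)

lemma idx_last {q M : List (S × Bool)} {x : S} {f : Bool} (hq : q = M ++ [(x, f)])
    (hn : (q.map Prod.fst).Nodup) : idx q x = M.length := by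
  subst hq
  have hx : x ∉ M.map Prod.fst := by
    rw [List.map_append, List.nodup_append] at hn
    intro h
    exact hn.2.2 x h x (by simp) rfl
  unfold idx
  rw [List.map_append, List.idxOf_append_of_notMem hx]
  simp

lemma no_after {q M : List (S × Bool)} {x : S} {f : Bool} (hq : q = M ++ [(x, f)])
    (hn : (q.map Prod.fst).Nodup) {p : S} (hp : on q p) :
    (f = true → ¬ l10 q x p) ∧ (f = false → ¬ l01 q x p) := by
  have h0 := idx_last hq hn
  have hm : (x, f) ∈ q := by rw [hq]; simp
  have hnm := not_mem_of_nodup hn hm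
  have hl : idx q p < M.length + 1 := by
    have h1 : (q.map Prod.fst).idxOf p < (q.map Prod.fst).length := List.idxOf_lt_length_of_mem hp
    have h2 : (q.map Prod.fst).length = M.length + 1 := by rw [hq]; simp
    unfold idx
    omega
  constructor
  · rintro rfl (h | ⟨rfl, h⟩)
    · omega
    · exact hnm (by simpa using h)
  · rintro rfl (h | ⟨rfl, h⟩)
    · omega
    · exact hnm (by simpa using h)

/-- an event `z` whose under strand is the first (going up) or the last (going down) strand -/
lemma bet_bot {q : List (S × Bool)} (hn : (q.map Prod.fst).Nodup) {z w : S × S}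
    (h : (∃ M, q = (z.2, true) :: M) ∨ ∃ M, q = M ++ [(z.2, false)]) : bet q z w = 0 := by
  unfold bet
  split_ifs with ho h1 h2 h2
  · rcases h with ⟨M, hM⟩ | ⟨M, hM⟩
    · exact absurd h1.2.1 ((no_before hM hn w.2).1 rfl)
    · exact absurd h1.2.2 ((no_after hM hn ho.2.2.1).2 rfl)
  · rcases h with ⟨M, hM⟩ | ⟨M, hM⟩
    · exact absurd h1.2.1 ((no_before hM hn w.2).1 rfl)
    · exact absurd h1.2.2 ((no_after hM hn ho.2.2.1).2 rfl)
  · rcases h with ⟨M, hM⟩ | ⟨M, hM⟩
    · exact absurd h2.1 ((no_before hM hn w.1).1 rfl)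
    · exact absurd h2.2.1 ((no_after hM hn ho.2.2.2).2 rfl)
  · simp
  · rfl

/-- an event `w` whose under strand is the first (going down) or the last (going up) strand -/
lemma bet_top {q : List (S × Bool)} (hn : (q.map Prod.fst).Nodup) {z w : S × S}
    (h : (∃ M, q = (w.2, false) :: M) ∨ ∃ M, q = M ++ [(w.2, true)]) : bet q z w = 0 := by
  unfold bet
  split_ifs with ho h1 h2 h2
  · rcases h with ⟨M, hM⟩ | ⟨M, hM⟩
    · exact absurd h1.1 ((no_before hM hn z.1).2 rfl)
    · exact absurd h1.2.1 ((no_after hM hn ho.2.1).1 rfl)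
  · rcases h with ⟨M, hM⟩ | ⟨M, hM⟩
    · exact absurd h1.1 ((no_before hM hn z.1).2 rfl)
    · exact absurd h1.2.1 ((no_after hM hn ho.2.1).1 rfl)
  · rcases h with ⟨M, hM⟩ | ⟨M, hM⟩
    · exact absurd h2.2.1 ((no_before hM hn z.2).2 rfl)
    · exact absurd h2.2.2 ((no_after hM hn ho.1).1 rfl)
  · simp
  · rfl

lemma bet_off {q : List (S × Bool)} {z w : S × S} (h : ¬ on q z.2 ∨ ¬ on q w.2) :
    bet q z w = 0 := by
  unfold bet
  rw [if_neg]
  rintro ⟨_, h2, _, h4⟩
  rcases h with h | h
  · exact h h2
  · exact h h4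

end words

section graph

variable {V E : Type}

lemma cv_cons (d : Dart E) (B : List (Dart E)) :
    cv (d :: B) = (d, true) :: (rv d, false) :: cv B := by simp [cv]

lemma cv_append (A B : List (Dart E)) : cv (A ++ B) = cv A ++ cv B := by simp [cv]

lemma exists_start {G : Gr V E} {c : List (Dart E)} (hc : IsCyc G c) {x : Dart E}
    (hx : x.1 ∈ c.map Prod.fst) : ∃ d ∈ c, G.vt d = G.vt x := by
  obtain ⟨d, hd, hdx⟩ := List.mem_map.1 hx
  by_cases h : d = x
  · exact ⟨d, hd, by rw [h]⟩
  · have hrv : rv d = x := by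
      rcases d with ⟨a, b⟩
      rcases x with ⟨a', b'⟩
      simp only at hdx
      subst hdx
      simp only [Prod.mk.injEq, true_and] at h
      simp only [rv, Prod.mk.injEq, true_and]
      cases b <;> cases b' <;> simp_all
    have h1 : G.vt (rv d) ∈ c.map (fun d => G.vt (rv d)) := List.mem_map.2 ⟨d, hd, rfl⟩
    rw [hc.cl, List.mem_rotate] at h1
    obtain ⟨d', hd', h2⟩ := List.mem_map.1 h1
    exact ⟨d', hd', by rw [h2, hrv]⟩

end graph

end Pool.Agent.Lib.MP3ff0f8.T.PREM

namespace Pool.Agent.Lib.MP3ff0f8.T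

open PREM

theorem specPRE (hPSU : SpecPSU) (hCYC : SpecCYC) (hBAS : SpecBAS) : SpecPRE where
  bot := by
    intro V E _ G bot bot' top U W v hW hUW hU c hc
    by_cases hv : ∃ d ∈ c, G.vt d = v
    · obtain ⟨d, hd, hdv⟩ := hv
      obtain ⟨A, B, rfl⟩ := List.append_of_mem hd
      set c' := d :: B ++ A with hc'
      have hrot : c' = (A ++ d :: B).rotate A.length := by
        rw [List.rotate_append_length_eq]
      have hcyc' : IsCyc G c' := by rw [hrot]; exact hCYC.rot _ hc
      have hisr : c'.IsRotated (A ++ d :: B) := by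
        rw [hrot]
        exact (List.IsRotated.forall _ _)
      rw [← hBAS.cyr hUW hc hisr, ← hBAS.cyr hW hc hisr]
      have hn := hCYC.cvnd hcyc'
      unfold AW
      apply hPSU.pre
      intro z hz w hw
      by_cases hon : on (cv c') z.2
      · have hmem := (hCYC.on z.2).1 hon
        have hne : c' ≠ [] := by simp [hc']
        have hhead : c'.head? = some d := by simp [hc']
        have hlast : c'.getLast? = some (c'.getLast hne) := List.getLast?_eq_some_getLast hne
        obtain ⟨_, h2⟩ := hCYC.two hcyc' hhead hlast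
        rcases h2 z.2 hmem (by rw [hU z hz, hdv]) with h | h
        · apply bet_bot hn
          left
          refine ⟨(rv d, false) :: cv (B ++ A), ?_⟩
          rw [h, hc', List.cons_append, cv_cons]
        · apply bet_bot hn
          right
          refine ⟨cv c'.dropLast ++ [(c'.getLast hne, true)], ?_⟩
          rw [h]
          conv_lhs => rw [← List.dropLast_append_getLast hne]
          rw [cv_append]
          simp [cv]
      · exact bet_off (Or.inl hon)
    · unfold AW
      apply hPSU.pre
      intro z hz w hw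
      apply bet_off
      left
      intro hon
      have hmem := (hCYC.on z.2).1 hon
      obtain ⟨d, hd, hdv⟩ := exists_start hc hmem
      exact hv ⟨d, hd, by rw [hdv, hU z hz]⟩
  top := by
    intro V E _ G bot top top' U W e hW hWU hU c hc
    by_cases he : ∃ d ∈ c, d.1 = e
    · obtain ⟨d, hd, hde⟩ := he
      obtain ⟨A, B, rfl⟩ := List.append_of_mem hd
      set k := (cv A).length + 1 with hk
      rw [← hBAS.rot hWU hc k, ← hBAS.rot hW hc k]
      have hq : (cv (A ++ d :: B)).rotate k = (rv d, false) :: cv B ++ (cv A ++ [(d, true)]) := by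
        have h1 : cv (A ++ d :: B) = (cv A ++ [(d, true)]) ++ ((rv d, false) :: cv B) := by
          rw [cv_append, cv_cons]
          simp
        have h2 : k = (cv A ++ [(d, true)]).length := by simp [hk]
        rw [h1, h2, List.rotate_append_length_eq]
      set q := (cv (A ++ d :: B)).rotate k with hqd
      have hn : (q.map Prod.fst).Nodup := by
        rw [hqd, List.map_rotate, List.nodup_rotate]
        exact hCYC.cvnd hc
      unfold AW
      apply hPSU.suf
      intro z hz w hw
      by_cases hon : on q w.2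
      · have hmem : w.2.1 = e := hU w hw
        have hor : w.2 = rv d ∨ w.2 = d := by
          rcases hw2 : w.2 with ⟨a, b⟩
          rw [hw2] at hmem
          rcases d with ⟨a', b'⟩
          simp only at hmem hde
          subst hmem
          subst hde
          cases b <;> cases b' <;> simp [rv]
        rcases hor with h | h
        · apply bet_top hn
          left
          exact ⟨cv B ++ (cv A ++ [(d, true)]), by rw [hq, h]; simp⟩
        · apply bet_top hn
          right
          exact ⟨(rv d, false) :: cv B ++ cv A, by rw [hq, h]; simp⟩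
      · exact bet_off (Or.inr hon)
    · unfold AW
      apply hPSU.suf
      intro z hz w hw
      apply bet_off
      right
      intro hon
      have hmem := (hCYC.on w.2).1 hon
      rw [hU w hw] at hmem
      obtain ⟨d, hd, hde⟩ := List.mem_map.1 hmem
      exact he ⟨d, hd, hde⟩

end Pool.Agent.Lib.MP3ff0f8.T
end

section
/-!
# MP_3ff0f8_gt, topological half: module RNG

Rings and clasps: changing parities of a diagram without changing the Polyak-Viro numbers.
-/
namespace Pool.Agent.Lib.MP3ff0f8.T

namespace RNGM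

open Finset

section words

variable {S : Type}

lemma add_self (x : ZMod 2) : x + x = 0 := CharTwo.add_self_eq_zero x

lemma par_reverse {α : Type} [DecidableEq α] (W : List α) (z : α) : par W.reverse z = par W z := by
  unfold par
  rw [List.count_reverse]

lemma par_append {α : Type} [DecidableEq α] (A B : List α) (z : α) :
    par (A ++ B) z = par A z + par B z := by
  unfold par
  rw [List.count_append, Nat.cast_add]

lemma par_nodup {α : Type} [DecidableEq α] {L : List α} (hn : L.Nodup) {z : α} {p : Prop}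
    [Decidable p] (hp : z ∈ L ↔ p) : par L z = if p then 1 else 0 := by
  unfold par
  split_ifs with h
  · rw [List.count_eq_one_of_mem hn (hp.2 h)]
    rfl
  · rw [List.count_eq_zero_of_not_mem fun h1 => h (hp.1 h1)]
    rfl

lemma map_swap_eq [DecidableEq S] {A B : List S} {s t : S} (h : (A ++ s :: t :: B).Nodup) :
    (A ++ s :: t :: B).map (Equiv.swap s t) = A ++ t :: s :: B := by
  have h1 : ∀ x ∈ A, Equiv.swap s t x = x := by
    intro x hx
    rw [List.nodup_append] at h
    have h2 : x ≠ s := fun e => h.2.2 x hx s (by simp) e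
    have h3 : x ≠ t := fun e => h.2.2 x hx t (by simp) e
    exact Equiv.swap_apply_of_ne_of_ne h2 h3
  have h1' : ∀ x ∈ B, Equiv.swap s t x = x := by
    intro x hx
    rw [List.nodup_append, List.nodup_cons, List.nodup_cons] at h
    have h2 : x ≠ s := by
      rintro rfl
      exact h.2.1.1 (List.mem_cons_of_mem _ hx)
    have h3 : x ≠ t := by
      rintro rfl
      exact h.2.1.2.1 hx
    exact Equiv.swap_apply_of_ne_of_ne h2 h3
  rw [List.map_append, List.map_cons, List.map_cons, Equiv.swap_apply_left,
    Equiv.swap_apply_right, List.map_congr_left h1, List.map_congr_left h1']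
  simp

lemma run_det [DecidableEq S] {L L' : List S} {W : List (S × S)} (h : Run L W L') :
    L.Nodup → L' = W.foldl (fun L z => L.map (Equiv.swap z.1 z.2)) L := by
  induction h
  · intro _; rfl
  · rename_i A B s t W L' _ ih
    intro hn
    have hn' : (A ++ t :: s :: B).Nodup :=
      (List.Perm.append_left A (List.Perm.swap t s B)).nodup_iff.1 hn
    rw [List.foldl_cons, map_swap_eq hn]
    exact ih hn'
  · rename_i A B s t W L' _ ih
    intro hn
    have hn' : (A ++ t :: s :: B).Nodup :=
      (List.Perm.append_left A (List.Perm.swap t s B)).nodup_iff.1 hn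
    rw [List.foldl_cons, Equiv.swap_comm, map_swap_eq hn]
    exact ih hn'

/-- a run is determined by its start and its word -/
lemma run_unique [DecidableEq S] {L L' L'' : List S} {W : List (S × S)} (hn : L.Nodup)
    (h : Run L W L') (h' : Run L W L'') : L' = L'' := by
  rw [run_det h hn, run_det h' hn]

/-- the first part of a run, if the last part is a known run -/
lemma run_cancel [DecidableEq S] (hRUN : SpecRUN) {L M L' : List S} {U W : List (S × S)}
    (hn : L.Nodup) (h : Run L (U ++ W) L') (h' : Run M W L') : Run L U M := by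
  obtain ⟨M', h1, h2⟩ := hRUN.appr h
  have hL' : L'.Nodup := (hRUN.perm h).nodup_iff.1 hn
  have : M' = M := run_unique hL' (hRUN.rev h2) (hRUN.rev h')
  rwa [this] at h1

lemma run_cancel' [DecidableEq S] (hRUN : SpecRUN) {L M L' : List S} {U W : List (S × S)}
    (hn : L.Nodup) (h : Run L (W ++ U) L') (h' : Run L W M) : Run M U L' := by
  obtain ⟨M', h1, h2⟩ := hRUN.appr h
  have : M' = M := run_unique hn h1 h'
  rwa [this] at h2

lemma run_move (hRUN : SpecRUN) (t : S) : ∀ P : List S,
    Run (t :: P) (P.map fun x => (t, x)) (P ++ [t])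
  | [] => Run.nil _
  | a :: P => by
    have h1 := hRUN.ctx [a] [] (run_move hRUN t P)
    have h2 := Run.over [] P t a (P.map fun x => (t, x)) (a :: P ++ [t]) (by simpa using h1)
    simpa using h2

lemma run_move' (hRUN : SpecRUN) (t : S) : ∀ P : List S,
    Run (t :: P) (P.map fun x => (x, t)) (P ++ [t])
  | [] => Run.nil _
  | a :: P => by
    have h1 := hRUN.ctx [a] [] (run_move' hRUN t P)
    have h2 := Run.under [] P t a (P.map fun x => (x, t)) (a :: P ++ [t]) (by simpa using h1)
    simpa using h2

/-- the ring word -/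
def rg (t : S) (P : List S) : List (S × S) :=
  (P.map fun x => (t, x)) ++ (P.map fun x => (x, t)).reverse

lemma run_rg (hRUN : SpecRUN) (t : S) (A P B : List S) :
    Run (A ++ t :: P ++ B) (rg t P) (A ++ t :: P ++ B) :=
  hRUN.ctx A B (hRUN.trans (run_move hRUN t P) (hRUN.rev (run_move' hRUN t P)))

lemma mem_rg {t : S} {P : List S} {z : S × S} (h : z ∈ rg t P) :
    (z.1 = t ∧ z.2 ∈ P) ∨ (z.2 = t ∧ z.1 ∈ P) := by
  unfold rg at h
  rw [List.mem_append, List.mem_reverse, List.mem_map, List.mem_map] at h
  rcases h with ⟨x, hx, rfl⟩ | ⟨x, hx, rfl⟩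
  · exact Or.inl ⟨rfl, hx⟩
  · exact Or.inr ⟨rfl, hx⟩

lemma par_rg [DecidableEq S] {t : S} {P : List S} (hP : P.Nodup) (ht : t ∉ P) (z : S × S) :
    par (rg t P) z = if (z.1 = t ∧ z.2 ∈ P) ∨ (z.2 = t ∧ z.1 ∈ P) then 1 else 0 := by
  unfold rg
  rw [par_append, par_reverse]
  have h1 : par (P.map fun x => (t, x)) z = if z.1 = t ∧ z.2 ∈ P then 1 else 0 := by
    have hn : (P.map fun x => (t, x)).Nodup :=
      hP.map fun a b hab => by simpa using hab
    refine par_nodup hn ?_
    rw [List.mem_map]
    constructor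
    · rintro ⟨x, hx, rfl⟩
      exact ⟨rfl, hx⟩
    · intro h
      exact ⟨z.2, h.2, by rw [← h.1]⟩
  have h2 : par (P.map fun x => (x, t)) z = if z.2 = t ∧ z.1 ∈ P then 1 else 0 := by
    have hn : (P.map fun x => (x, t)).Nodup :=
      hP.map fun a b hab => by simpa using hab
    refine par_nodup hn ?_
    rw [List.mem_map]
    constructor
    · rintro ⟨x, hx, rfl⟩
      exact ⟨rfl, hx⟩
    · intro h
      exact ⟨z.1, h.2, by rw [← h.1]⟩
  rw [h1, h2]
  by_cases h3 : z.1 = t ∧ z.2 ∈ P
  · have h4 : ¬ (z.2 = t ∧ z.1 ∈ P) := fun h5 => ht (h3.1 ▸ h5.2)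
    rw [if_pos h3, if_neg h4, if_pos (Or.inl h3), add_zero]
  · by_cases h4 : z.2 = t ∧ z.1 ∈ P
    · rw [if_neg h3, if_pos h4, if_pos (Or.inr h4), zero_add]
    · rw [if_neg h3, if_neg h4, if_neg (by tauto), add_zero]

lemma par_clasp [DecidableEq S] {s t : S} (hst : s ≠ t) (z : S × S) :
    par [(s, t), (t, s)] z = if z = (s, t) ∨ z = (t, s) then 1 else 0 := by
  have hn : ([(s, t), (t, s)] : List (S × S)).Nodup := by
    simp [hst]
  refine par_nodup hn ?_
  simp

/-- a sum over a list without repetition in which at most two entries with equal values count -/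
lemma sum_two [DecidableEq S] {P : List S} (hP : P.Nodup) (f : S → ZMod 2) {s s' : S}
    (hs : s ∈ P) (hs' : s' ∈ P) (hne : s ≠ s') (h0 : ∀ x ∈ P, x ≠ s → x ≠ s' → f x = 0)
    (he : f s = f s') : (P.map f).sum = 0 := by
  rw [← List.sum_toFinset f hP, Finset.sum_eq_add s s' hne]
  · rw [he, add_self]
  · intro c hc hc2
    exact h0 c (List.mem_toFinset.1 hc) hc2.1 hc2.2
  · intro h
    exact absurd (List.mem_toFinset.2 hs) h
  · intro h
    exact absurd (List.mem_toFinset.2 hs') h

section bets

variable [DecidableEq S]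

lemma bet_off1 {q : List (S × Bool)} {z w : S × S} (h : ¬ on q z.1 ∨ ¬ on q z.2) :
    bet q z w = 0 := by
  unfold bet
  rw [if_neg]
  rintro ⟨h1, h2, _, _⟩
  rcases h with h | h
  · exact h h1
  · exact h h2

lemma idx_inj {q : List (S × Bool)} {p r : S} (hp : on q p) (h : idx q p = idx q r) : p = r := by
  unfold idx at h
  exact (List.idxOf_inj hp).1 h

lemma l10_false {q : List (S × Bool)} {s p : S} (hs : (s, false) ∈ q) (hp : on q p) :
    l10 q p s ↔ idx q p ≤ idx q s := by
  unfold l10
  constructor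
  · rintro (h | ⟨rfl, _⟩)
    · exact h.le
    · exact le_rfl
  · intro h
    rcases h.lt_or_eq with h | h
    · exact Or.inl h
    · have := idx_inj hp h
      subst this
      exact Or.inr ⟨rfl, hs⟩

lemma l10_true {q : List (S × Bool)} (hn : (q.map Prod.fst).Nodup) {s p : S} (hs : (s, true) ∈ q) :
    l10 q p s ↔ idx q p < idx q s := by
  unfold l10
  constructor
  · rintro (h | ⟨rfl, h⟩)
    · exact h
    · exact absurd h (PREM.not_mem_of_nodup hn hs)
  · exact Or.inl

lemma l01_false {q : List (S × Bool)} (hn : (q.map Prod.fst).Nodup) {s p : S}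
    (hs : (s, false) ∈ q) : l01 q s p ↔ idx q s < idx q p := by
  unfold l01
  constructor
  · rintro (h | ⟨rfl, h⟩)
    · exact h
    · exact absurd h (PREM.not_mem_of_nodup hn hs)
  · exact Or.inl

lemma l01_true {q : List (S × Bool)} {s p : S} (hs : (s, true) ∈ q) :
    l01 q s p ↔ idx q s ≤ idx q p := by
  unfold l01
  constructor
  · rintro (h | ⟨rfl, _⟩)
    · exact h.le
    · exact le_rfl
  · intro h
    rcases h.lt_or_eq with h | h
    · exact Or.inl h
    · have := idx_inj (List.mem_map.2 ⟨_, hs, rfl⟩ : on q s) h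
      subst this
      exact Or.inr ⟨rfl, hs⟩

/-- two consecutive strands, the first going down, the second going up -/
lemma bet_eq {q : List (S × Bool)} (hn : (q.map Prod.fst).Nodup) {s s' : S}
    (h1 : (s, false) ∈ q) (h2 : (s', true) ∈ q) (hi : idx q s' = idx q s + 1) (t : S) (w : S × S) :
    bet q (t, s) w = bet q (t, s') w := by
  have hs : on q s := List.mem_map.2 ⟨_, h1, rfl⟩
  have hs' : on q s' := List.mem_map.2 ⟨_, h2, rfl⟩
  unfold bet
  by_cases h : on q t ∧ on q w.1 ∧ on q w.2
  · have e1 : l10 q w.2 s ↔ l10 q w.2 s' := by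
      rw [l10_false h1 h.2.2, l10_true hn h2, hi]; omega
    have e2 : l01 q s w.1 ↔ l01 q s' w.1 := by
      rw [l01_false hn h1, l01_true h2, hi]; omega
    have e3 : l10 q w.1 s ↔ l10 q w.1 s' := by
      rw [l10_false h1 h.2.1, l10_true hn h2, hi]; omega
    have e4 : l01 q s w.2 ↔ l01 q s' w.2 := by
      rw [l01_false hn h1, l01_true h2, hi]; omega
    simp only [h.1, h.2.1, h.2.2, hs, hs', and_self, if_true, e1, e2, e3, e4]
  · rw [if_neg (by tauto), if_neg (by tauto)]

/-- the ring, if the ring strand is the first or the last strand of the curve -/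
lemma ps_rg (hPSU : SpecPSU) {q : List (S × Bool)} (hn : (q.map Prod.fst).Nodup) {t s s' : S}
    {P : List S} (hP : P.Nodup) (hs : s ∈ P) (hs' : s' ∈ P) (hne : s ≠ s')
    (h1 : (s, false) ∈ q) (h2 : (s', true) ∈ q) (hi : idx q s' = idx q s + 1)
    (h0 : ∀ x ∈ P, x ≠ s → x ≠ s' → ¬ on q x)
    (ht : (∃ M, q = (t, true) :: M) ∨ ∃ M, q = M ++ [(t, false)]) (Y : List (S × S)) :
    ps (bet q) (rg t P ++ Y) = ps (bet q) Y := by
  have hsum : ∀ w, (P.map fun x => bet q (t, x) w).sum = 0 := fun w =>
    sum_two hP _ hs hs' hne (fun x hx hx1 hx2 => bet_off1 (Or.inr (h0 x hx hx1 hx2)))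
      (bet_eq hn h1 h2 hi t w)
  have hA : ps (bet q) (P.map fun x => (t, x)) = 0 := by
    have h3 : ∀ z ∈ (P.map fun x => (t, x)), ∀ w ∈ (P.map fun x => (t, x)) ++ [],
        bet q z w = 0 := by
      intro z hz w hw
      rw [List.append_nil] at hw
      obtain ⟨x, hx, rfl⟩ := List.mem_map.1 hz
      obtain ⟨y, hy, rfl⟩ := List.mem_map.1 hw
      have hx' : x = s ∨ x = s' ∨ ¬ on q x := by
        by_cases e1 : x = s
        · exact Or.inl e1
        · by_cases e2 : x = s'
          · exact Or.inr (Or.inl e2)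
          · exact Or.inr (Or.inr (h0 x hx e1 e2))
      have hy' : y = s ∨ y = s' ∨ ¬ on q y := by
        by_cases e1 : y = s
        · exact Or.inl e1
        · by_cases e2 : y = s'
          · exact Or.inr (Or.inl e2)
          · exact Or.inr (Or.inr (h0 y hy e1 e2))
      have e := bet_eq hn h1 h2 hi t
      rcases hx' with rfl | rfl | hx'
      · rcases hy' with rfl | rfl | hy'
        · exact CFIM.bet_self _ _
        · rw [e]; exact CFIM.bet_self _ _
        · exact PREM.bet_off (Or.inr hy')
      · rcases hy' with rfl | rfl | hy'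
        · rw [← e]; exact CFIM.bet_self _ _
        · exact CFIM.bet_self _ _
        · exact PREM.bet_off (Or.inr hy')
      · exact PREM.bet_off (Or.inl hx')
    have := hPSU.pre (bet q) (P.map fun x => (t, x)) [] h3
    rw [List.append_nil] at this
    rw [this]
    rfl
  have hB : ps (bet q) ((P.map fun x => (x, t)).reverse ++ Y) = ps (bet q) Y := by
    apply hPSU.pre
    intro z hz w _
    rw [List.mem_reverse] at hz
    obtain ⟨x, hx, rfl⟩ := List.mem_map.1 hz
    exact PREM.bet_bot hn ht
  have hC : cr (bet q) (P.map fun x => (t, x)) ((P.map fun x => (x, t)).reverse ++ Y) = 0 := by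
    unfold cr
    rw [List.map_map]
    refine sum_two hP _ hs hs' hne (fun x hx hx1 hx2 => ?_) ?_
    · apply List.sum_eq_zero
      intro y hy
      obtain ⟨w, _, rfl⟩ := List.mem_map.1 hy
      exact bet_off1 (Or.inr (h0 x hx hx1 hx2))
    · simp only [Function.comp]
      congr 1
      exact List.map_congr_left fun w _ => bet_eq hn h1 h2 hi t w
  unfold rg
  rw [List.append_assoc, hPSU.app, hA, hB, hC, zero_add, add_zero]

lemma idx_succ {q : List (S × Bool)} (hn : (q.map Prod.fst).Nodup) {A B : List (S × Bool)}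
    {x y : S × Bool} (hq : q = A ++ x :: y :: B) : idx q y.1 = idx q x.1 + 1 := by
  subst hq
  unfold idx
  rw [List.map_append, List.map_cons, List.map_cons] at *
  have hx : x.1 ∉ A.map Prod.fst := by
    intro h
    rw [List.nodup_append] at hn
    exact hn.2.2 _ h _ (by simp) rfl
  have hy : y.1 ∉ A.map Prod.fst := by
    intro h
    rw [List.nodup_append] at hn
    exact hn.2.2 _ h _ (by simp) rfl
  have hxy : x.1 ≠ y.1 := by
    intro h
    rw [List.nodup_append, List.nodup_cons] at hn
    exact hn.2.1.1 (by simp [h])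
  rw [List.idxOf_append_of_notMem hx, List.idxOf_append_of_notMem hy, List.idxOf_cons_self,
    List.idxOf_cons_ne _ hxy, List.idxOf_cons_self]

end bets

end words

section graph

variable {V E : Type}

/-- prepend a run to a diagram -/
lemma dia_pre [DecidableEq E] (hRUN : SpecRUN) {G : Gr V E} {bot bot' top : List (Dart E)}
    {U W : List (Dart E × Dart E)} (hD : IsDia G bot W top) (hU : Run bot' U bot)
    (hb : Blocks G.vt bot') : IsDia G bot' (U ++ W) top where
  mb := fun d => by rw [← hD.mb d]; exact (hRUN.perm hU).mem_iff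
  dia := ⟨(hRUN.perm hU).nodup_iff.2 hD.dia.nd, hb, hD.dia.tt, hRUN.trans hU hD.dia.run⟩

/-- append a run to a diagram -/
lemma dia_suf [DecidableEq E] (hRUN : SpecRUN) {G : Gr V E} {bot top top' : List (Dart E)}
    {U W : List (Dart E × Dart E)} (hD : IsDia G bot W top) (hU : Run top U top')
    (hb : Blocks Prod.fst top') : IsDia G bot (W ++ U) top' where
  mb := hD.mb
  dia := ⟨hD.dia.nd, hD.dia.bb, hb, hRUN.trans hD.dia.run hU⟩

section lks

variable [DecidableEq E]

lemma lk_append (A B : List (Dart E × Dart E)) (c c' : List (Dart E)) :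
    lk (A ++ B) c c' = lk A c c' + lk B c c' := by
  unfold lk
  rw [List.countP_append, Nat.cast_add]

lemma lk_reverse (A : List (Dart E × Dart E)) (c c' : List (Dart E)) :
    lk A.reverse c c' = lk A c c' := by
  unfold lk
  rw [List.countP_reverse]

lemma lk_zero {A : List (Dart E × Dart E)} {c c' : List (Dart E)}
    (h : ∀ z ∈ A, ¬ (z.1.1 ∈ c.map Prod.fst ∧ z.2.1 ∈ c'.map Prod.fst)) : lk A c c' = 0 := by
  unfold lk
  rw [List.countP_eq_zero.2]
  · rfl
  · intro z hz
    simpa using h z hz

lemma lk_map {α : Type} (f : α → Dart E × Dart E) (A : List α) (c c' : List (Dart E)) :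
    lk (A.map f) c c' = (A.map fun x => if (f x).1.1 ∈ c.map Prod.fst ∧
      (f x).2.1 ∈ c'.map Prod.fst then (1 : ZMod 2) else 0).sum := by
  induction A with
  | nil => simp [lk]
  | cons a A ih =>
    rw [List.map_cons, List.map_cons, List.sum_cons, ← ih, ← List.singleton_append, lk_append]
    congr 1
    unfold lk
    rw [List.countP_cons, List.countP_nil, zero_add]
    by_cases h : (f a).1.1 ∈ c.map Prod.fst ∧ (f a).2.1 ∈ c'.map Prod.fst
    · rw [if_pos h, if_pos (by simpa using h)]
      rfl
    · rw [if_neg h, if_neg (by simpa using h)]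
      rfl

end lks

/-- the darts at a vertex on the edges of a cycle: none or two -/
lemma even_at [DecidableEq E] {G : Gr V E} {c : List (Dart E)} (hc : IsCyc G c) {v : V}
    {P : List (Dart E)} (hP : P.Nodup) (hm : ∀ x : Dart E, x ∈ P ↔ x.1 ∈ G.X ∧ G.vt x = v) :
    (P.map fun x => if x.1 ∈ c.map Prod.fst then (1 : ZMod 2) else 0).sum = 0 := by
  by_cases h : ∃ x ∈ P, x.1 ∈ c.map Prod.fst
  · obtain ⟨x, hx, hxc⟩ := h
    obtain ⟨d, hd, hdx⟩ := PREM.exists_start hc hxc
    rw [((hm x).1 hx).2] at hdx
    obtain ⟨k, t, hk⟩ := CYCM.exists_rot hd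
    have hc' := CYCM.rot k hc
    rw [hk] at hc'
    have hmr : ∀ e, e ∈ (d :: t).map Prod.fst ↔ e ∈ c.map Prod.fst := by
      intro e
      rw [← hk]
      exact CYCM.mem_map_rotate k e
    have hne : d :: t ≠ [] := by simp
    set l := (d :: t).getLast hne with hl
    have hlm : l ∈ d :: t := List.getLast_mem hne
    have h2 := CYCM.two hc' (d := d) (l := l) (by simp) (List.getLast?_eq_some_getLast hne)
    rw [hdx] at h2
    have hdP : d ∈ P := (hm d).2 ⟨hc'.mem d (by simp), hdx⟩
    have hlP : rv l ∈ P := (hm _).2 ⟨hc'.mem l hlm, h2.1⟩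
    have hne2 : d ≠ rv l := by
      intro e
      have h3 : d.1 = l.1 := by rw [e]; rfl
      have h4 : d = l := List.inj_on_of_nodup_map hc'.nde (by simp) hlm h3
      rw [← h4] at e
      exact CYCM.rv_ne d e.symm
    refine sum_two hP _ hdP hlP hne2 (fun x hx hx1 hx2 => ?_) ?_
    · rw [if_neg]
      intro h3
      rcases h2.2 x ((hmr _).2 h3) ((hm x).1 hx).2 with h4 | h4
      · exact hx1 h4
      · exact hx2 h4
    · have h5 : d.1 ∈ c.map Prod.fst := (hmr _).1 (by simp)
      have h6 : (rv l).1 ∈ c.map Prod.fst := (hmr _).1 (List.mem_map.2 ⟨l, hlm, rfl⟩)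
      rw [if_pos h5, if_pos h6]
  · rw [List.map_congr_left (g := fun _ => (0 : ZMod 2))]
    · simp
    · intro x hx
      rw [if_neg]
      exact fun h1 => h ⟨x, hx, h1⟩

/-- linking numbers of a ring -/
lemma lk_rg [DecidableEq E] {G : Gr V E} {c c' : List (Dart E)} (hc : IsCyc G c)
    (hc' : IsCyc G c') {v : V} {P : List (Dart E)} (hP : P.Nodup)
    (hm : ∀ x : Dart E, x ∈ P ↔ x.1 ∈ G.X ∧ G.vt x = v) (t : Dart E) : lk (rg t P) c c' = 0 := by
  unfold rg
  rw [lk_append, lk_reverse, lk_map, lk_map]
  have h1 : (P.map fun x => if (t, x).1.1 ∈ c.map Prod.fst ∧ (t, x).2.1 ∈ c'.map Prod.fst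
      then (1 : ZMod 2) else 0).sum = 0 := by
    by_cases h : t.1 ∈ c.map Prod.fst
    · refine Eq.trans ?_ (even_at hc' hP hm)
      congr 1
      exact List.map_congr_left fun x _ => by simp only [h, true_and]
    · rw [List.map_congr_left (g := fun _ => (0 : ZMod 2))]
      · simp
      · intro x _
        rw [if_neg]
        exact fun h1 => h h1.1
  have h2 : (P.map fun x => if (x, t).1.1 ∈ c.map Prod.fst ∧ (x, t).2.1 ∈ c'.map Prod.fst
      then (1 : ZMod 2) else 0).sum = 0 := by
    by_cases h : t.1 ∈ c'.map Prod.fst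
    · refine Eq.trans ?_ (even_at hc hP hm)
      congr 1
      exact List.map_congr_left fun x _ => by simp only [h, and_true]
    · rw [List.map_congr_left (g := fun _ => (0 : ZMod 2))]
      · simp
      · intro x _
        rw [if_neg]
        exact fun h1 => h h1.2
  rw [h1, h2, add_zero]

/-- values of a ring -/
lemma AW_rg [DecidableEq E] (hPSU : SpecPSU) (hCYC : SpecCYC) (hBAS : SpecBAS) {G : Gr V E}
    {bot top : List (Dart E)} {Y : List (Dart E × Dart E)} {t : Dart E} {v : V}
    {P : List (Dart E)} (hP : P.Nodup) (hm : ∀ x : Dart E, x ∈ P ↔ x.1 ∈ G.X ∧ G.vt x = v)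
    (htv : G.vt t ≠ v) (hD : IsDia G bot Y top) (hD' : IsDia G bot (rg t P ++ Y) top)
    {c : List (Dart E)} (hc : IsCyc G c) : AW (cv c) (rg t P ++ Y) = AW (cv c) Y := by
  by_cases h1 : t.1 ∈ c.map Prod.fst
  · by_cases h2 : ∃ x ∈ P, x.1 ∈ c.map Prod.fst
    · obtain ⟨x, hx, hxc⟩ := h2
      obtain ⟨d, hd, hdt⟩ := PREM.exists_start hc h1
      obtain ⟨k, r, hk⟩ := CYCM.exists_rot hd
      have hc' := CYCM.rot k hc
      have hrot : (c.rotate k).IsRotated c := (List.IsRotated.forall _ _)
      rw [← hBAS.cyr hD' hc hrot, ← hBAS.cyr hD hc hrot]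
      rw [hk] at hc' ⊢
      have hmr : ∀ e, e ∈ (d :: r).map Prod.fst ↔ e ∈ c.map Prod.fst := by
        intro e
        rw [← hk]
        exact CYCM.mem_map_rotate k e
      have hn := hCYC.cvnd hc'
      -- the strand `t`
      have ht : (∃ M, cv (d :: r) = (t, true) :: M) ∨ ∃ M, cv (d :: r) = M ++ [(t, false)] := by
        have hne : d :: r ≠ [] := by simp
        have h2 := CYCM.two hc' (d := d) (l := (d :: r).getLast hne) (by simp)
          (List.getLast?_eq_some_getLast hne)
        rcases h2.2 t ((hmr _).2 h1) hdt.symm with h | h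
        · left
          exact ⟨(rv d, false) :: cv r, by rw [PREM.cv_cons, h]⟩
        · right
          refine ⟨cv (d :: r).dropLast ++ [((d :: r).getLast hne, true)], ?_⟩
          rw [h]
          conv_lhs => rw [← List.dropLast_append_getLast hne]
          rw [PREM.cv_append]
          simp [cv]
      -- the strands at `v`
      obtain ⟨d₂, hd₂, hd₂v⟩ := PREM.exists_start hc' ((hmr _).2 hxc)
      rw [((hm x).1 hx).2] at hd₂v
      have hdd : d₂ ≠ d := by
        rintro rfl
        exact htv (hdt.symm.trans hd₂v)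
      have hd₂r : d₂ ∈ r := by
        rcases List.mem_cons.1 hd₂ with h | h
        · exact absurd h hdd
        · exact h
      obtain ⟨A, B, hAB⟩ := List.append_of_mem hd₂r
      have hne : d :: A ≠ [] := by simp
      obtain ⟨p, d₁, hp⟩ : ∃ p d₁, d :: A = p ++ [d₁] :=
        ⟨(d :: A).dropLast, (d :: A).getLast hne, (List.dropLast_append_getLast hne).symm⟩
      have hform : d :: r = p ++ d₁ :: d₂ :: B := by
        rw [hAB, ← List.cons_append, hp]
        simp
      have hstep := CYCM.step (G := G) (p := p) (x := d₁) (y := d₂) (s := B) (hform ▸ hc')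
      rw [← hform, hd₂v] at hstep
      have hd₁m : d₁ ∈ d :: r := by rw [hform]; simp
      have hq : cv (d :: r) = (cv p ++ [(d₁, true)]) ++ (rv d₁, false) :: (d₂, true) ::
          ((rv d₂, false) :: cv B) := by
        rw [hform, PREM.cv_append, PREM.cv_cons, PREM.cv_cons]
        simp
      have hi : idx (cv (d :: r)) d₂ = idx (cv (d :: r)) (rv d₁) + 1 :=
        idx_succ hn (x := (rv d₁, false)) (y := (d₂, true)) hq
      unfold AW
      refine ps_rg hPSU hn hP (s := rv d₁) (s' := d₂) ?_ ?_ ?_ ?_ ?_ hi ?_ ht Y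
      · exact (hm _).2 ⟨hc'.mem d₁ hd₁m, hstep.1⟩
      · exact (hm _).2 ⟨hc'.mem d₂ hd₂, hd₂v⟩
      · intro e
        rw [e] at hi
        omega
      · rw [hq]; simp
      · rw [hq]; simp
      · intro x hx hx1 hx2 hon
        rcases hstep.2 x ((hCYC.on x).1 hon) ((hm x).1 hx).2 with h | h
        · exact hx2 h
        · exact hx1 h
    · unfold AW
      apply hPSU.pre
      intro z hz w _
      apply bet_off1
      rcases mem_rg hz with h | h
      · right
        intro hon
        exact h2 ⟨_, h.2, (hCYC.on _).1 hon⟩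
      · left
        intro hon
        exact h2 ⟨_, h.2, (hCYC.on _).1 hon⟩
  · unfold AW
    apply hPSU.pre
    intro z hz w _
    apply bet_off1
    have hno : ¬ on (cv c) t := fun hon => h1 ((hCYC.on t).1 hon)
    rcases mem_rg hz with h | h
    · left
      rwa [h.1]
    · right
      rwa [h.1]

end graph

end RNGM

open RNGM in
theorem specRNG (hPSU : SpecPSU) (hRUN : SpecRUN) (hCYC : SpecCYC) (hBAS : SpecBAS)
    (hPRE : SpecPRE) (hFRT : SpecFRT) : SpecRNG where
  ring := by
    intro V E _ _ G bot top W hD t ht v htv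
    obtain ⟨Ua, hDa, hEa, hUa⟩ :=
      hFRT.fr hD v (bot.filter fun x => G.vt x = v) (List.Perm.refl _)
    set Pv := bot.filter (fun x => G.vt x = v) with hPv
    set Q := bot.filter (fun x => G.vt x ≠ v) with hQ
    have htQ : t ∈ Q := List.mem_filter.2 ⟨ht, by simpa using htv⟩
    set Bt := (Pv ++ Q).filter (fun x => G.vt x = G.vt t) with hBt
    have htB : t ∈ Bt := List.mem_filter.2 ⟨List.mem_append_right _ htQ, by simp⟩
    have hperm : (Bt.erase t ++ [t]).Perm Bt :=
      List.perm_append_comm.trans (List.perm_cons_erase htB).symm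
    obtain ⟨Ub, hDb, hEb, hUb⟩ := hFRT.fr hDa (G.vt t) (Bt.erase t ++ [t]) hperm
    have hfil : (Pv ++ Q).filter (fun x => G.vt x ≠ G.vt t) =
        Pv ++ Q.filter (fun x => G.vt x ≠ G.vt t) := by
      rw [List.filter_append, List.filter_eq_self.2]
      intro x hx
      have h1 : G.vt x = v := by simpa using (List.mem_filter.1 hx).2
      simpa [h1] using Ne.symm htv
    rw [hfil] at hDb
    set Y := Ub ++ (Ua ++ W) with hY
    set A := Bt.erase t
    set B := Q.filter (fun x => G.vt x ≠ G.vt t)
    have hform : (A ++ [t]) ++ (Pv ++ B) = A ++ t :: Pv ++ B := by simp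
    rw [hform] at hDb
    have hPn : Pv.Nodup := hD.dia.nd.filter _
    have hm : ∀ x : Dart E, x ∈ Pv ↔ x.1 ∈ G.X ∧ G.vt x = v := by
      intro x
      rw [hPv, List.mem_filter, hD.mb]
      simp
    have hm' : ∀ x : Dart E, x ∈ Pv ↔ x ∈ bot ∧ G.vt x = v := by
      intro x
      rw [hPv, List.mem_filter]
      simp
    have hD3 : IsDia G (A ++ t :: Pv ++ B) (rg t Pv ++ Y) top :=
      dia_pre hRUN hDb (run_rg hRUN t A Pv B) hDb.dia.bb
    have hrb : Run (A ++ t :: Pv ++ B) Ub (Pv ++ Q) :=
      run_cancel hRUN hDb.dia.nd hDb.dia.run hDa.dia.run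
    have hD4 : IsDia G (Pv ++ Q) (Ub.reverse ++ (rg t Pv ++ Y)) top :=
      dia_pre hRUN hD3 (hRUN.rev hrb) hDa.dia.bb
    have hra : Run (Pv ++ Q) Ua bot :=
      run_cancel hRUN hDa.dia.nd hDa.dia.run hD.dia.run
    have hD5 : IsDia G bot (Ua.reverse ++ (Ub.reverse ++ (rg t Pv ++ Y))) top :=
      dia_pre hRUN hD4 (hRUN.rev hra) hD.dia.bb
    refine ⟨_, hD5, ⟨fun c hc => ?_, fun c c' hc hc' hcc => ?_⟩, fun z => ?_⟩
    · rw [hPRE.bot hD4 hD5 (v := v) (fun z hz => hUa z (List.mem_reverse.1 hz)) c hc,
        hPRE.bot hD3 hD4 (v := G.vt t) (fun z hz => hUb z (List.mem_reverse.1 hz)) c hc,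
        AW_rg hPSU hCYC hBAS hPn hm htv hDb hD3 hc, hEb.1 c hc, hEa.1 c hc]
    · rw [lk_append, lk_append, lk_append, lk_reverse, lk_reverse, lk_rg hc hc' hPn hm t, hY,
        lk_append, lk_append]
      have h1 := add_self (lk Ua c c')
      have h2 := add_self (lk Ub c c')
      linear_combination h1 + h2
    · rw [par_append, par_append, par_append, par_reverse, par_reverse, hY, par_append, par_append,
        par_rg hPn (fun h => htv ((hm t).1 h).2)]
      have h1 := add_self (par Ua z)
      have h2 := add_self (par Ub z)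
      have h3 : ((z.1 = t ∧ z.2 ∈ Pv) ∨ (z.2 = t ∧ z.1 ∈ Pv)) ↔
          ((z.1 = t ∧ z.2 ∈ bot ∧ G.vt z.2 = v) ∨ (z.2 = t ∧ z.1 ∈ bot ∧ G.vt z.1 = v)) := by
        rw [hm', hm']
      split_ifs with a b b
      · linear_combination h1 + h2
      · exact absurd (h3.1 a) b
      · exact absurd (h3.2 b) a
      · linear_combination h1 + h2
  clasp := by
    intro V E _ _ G bot top W hD s hs t ht hst hor
    rcases hor with hv | he
    · -- same vertex
      set Bs := bot.filter (fun x => G.vt x = G.vt s) with hBs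
      have hsB : s ∈ Bs := List.mem_filter.2 ⟨hs, by simp⟩
      have htB : t ∈ Bs.erase s :=
        (List.mem_erase_of_ne hst.symm).2 (List.mem_filter.2 ⟨ht, by simpa using hv.symm⟩)
      set C := (Bs.erase s).erase t with hC
      have hperm : (C ++ [s, t]).Perm Bs := by
        refine List.perm_append_comm.trans ?_
        refine List.Perm.trans ?_ (List.perm_cons_erase hsB).symm
        exact List.Perm.cons s (List.perm_cons_erase htB).symm
      obtain ⟨U, hDU, hEU, hU⟩ := hFRT.fr hD (G.vt s) (C ++ [s, t]) hperm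
      set R := bot.filter fun x => G.vt x ≠ G.vt s
      have hform : (C ++ [s, t]) ++ R = C ++ s :: t :: R := by simp
      rw [hform] at hDU
      have hrun : Run (C ++ s :: t :: R) [(s, t), (t, s)] (C ++ s :: t :: R) :=
        Run.over C R s t _ _ (Run.over C R t s _ _ (Run.nil _))
      have hD3 : IsDia G (C ++ s :: t :: R) ([(s, t), (t, s)] ++ (U ++ W)) top :=
        dia_pre hRUN hDU hrun hDU.dia.bb
      have hrU : Run (C ++ s :: t :: R) U bot :=
        run_cancel hRUN hDU.dia.nd hDU.dia.run hD.dia.run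
      have hD4 : IsDia G bot (U.reverse ++ ([(s, t), (t, s)] ++ (U ++ W))) top :=
        dia_pre hRUN hD3 (hRUN.rev hrU) hD.dia.bb
      refine ⟨_, hD4, ⟨fun c hc => ?_, fun c c' hc hc' hcc => ?_⟩, fun z => ?_⟩
      · rw [hPRE.bot hD3 hD4 (v := G.vt s) (fun z hz => hU z (List.mem_reverse.1 hz)) c hc,
          hPRE.bot hDU hD3 (v := G.vt s) ?_ c hc, hEU.1 c hc]
        intro z hz
        simp only [List.mem_cons, List.not_mem_nil, or_false] at hz
        rcases hz with rfl | rfl
        · exact hv.symm
        · rfl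
      · rw [lk_append, lk_append, lk_append, lk_reverse, lk_zero (A := [(s, t), (t, s)])]
        · have h1 := add_self (lk U c c')
          linear_combination h1
        · intro z hz h
          obtain ⟨x, hx, hxv⟩ := PREM.exists_start hc h.1
          obtain ⟨y, hy, hyv⟩ := PREM.exists_start hc' h.2
          refine hcc x hx y hy ?_
          rw [hxv, hyv]
          simp only [List.mem_cons, List.not_mem_nil, or_false] at hz
          rcases hz with rfl | rfl
          · exact hv
          · exact hv.symm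
      · rw [par_append, par_append, par_append, par_reverse, par_clasp hst]
        have h1 := add_self (par U z)
        linear_combination h1
    · -- same edge
      have hts : t = rv s := by
        rcases CYCM.fst_eq he.symm with h | h
        · exact absurd h.symm hst
        · exact h
      subst hts
      obtain ⟨U, hDU, hEU, hU⟩ := hFRT.tp hD s ((hD.mb s).1 hs)
      set R := top.filter fun x => x.1 ≠ s.1
      have hrun : Run ([] ++ s :: rv s :: R) [(s, rv s), (rv s, s)] ([] ++ s :: rv s :: R) :=
        Run.over [] R s (rv s) _ _ (Run.over [] R (rv s) s _ _ (Run.nil _))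
      rw [List.nil_append] at hrun
      have hD3 : IsDia G bot ((W ++ U) ++ [(s, rv s), (rv s, s)]) (s :: rv s :: R) :=
        dia_suf hRUN hDU hrun hDU.dia.tt
      have hrU : Run top U (s :: rv s :: R) :=
        run_cancel' hRUN hDU.dia.nd hDU.dia.run hD.dia.run
      have hD4 : IsDia G bot (((W ++ U) ++ [(s, rv s), (rv s, s)]) ++ U.reverse) top :=
        dia_suf hRUN hD3 (hRUN.rev hrU) hD.dia.tt
      refine ⟨_, hD4, ⟨fun c hc => ?_, fun c c' hc hc' hcc => ?_⟩, fun z => ?_⟩
      · rw [hPRE.top hD3 hD4 (e := s.1) (fun z hz => hU z (List.mem_reverse.1 hz)) c hc,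
          hPRE.top hDU hD3 (e := s.1) ?_ c hc, hEU.1 c hc]
        intro z hz
        simp only [List.mem_cons, List.not_mem_nil, or_false] at hz
        rcases hz with rfl | rfl
        · rfl
        · rfl
      · rw [lk_append, lk_append, lk_append, lk_reverse, lk_zero (A := [(s, rv s), (rv s, s)])]
        · have h1 := add_self (lk U c c')
          linear_combination h1
        · intro z hz h
          have h1 : s.1 ∈ c.map Prod.fst := by
            simp only [List.mem_cons, List.not_mem_nil, or_false] at hz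
            rcases hz with rfl | rfl
            · exact h.1
            · exact h.1
          have h2 : s.1 ∈ c'.map Prod.fst := by
            simp only [List.mem_cons, List.not_mem_nil, or_false] at hz
            rcases hz with rfl | rfl
            · exact h.2
            · exact h.2
          obtain ⟨x, hx, hxv⟩ := PREM.exists_start hc h1
          obtain ⟨y, hy, hyv⟩ := PREM.exists_start hc' h2
          exact hcc x hx y hy (by rw [hxv, hyv])
      · rw [par_append, par_append, par_append, par_reverse, par_clasp hst]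
        have h1 := add_self (par U z)
        linear_combination h1

end Pool.Agent.Lib.MP3ff0f8.T
end

section
/-!
# MP_3ff0f8_gt, topological half: module NRM

Normal form of a diagram at an edge.
-/
namespace Pool.Agent.Lib.MP3ff0f8.T

namespace NRMM

open RNGM

variable {V E : Type} [DecidableEq V] [DecidableEq E]

omit [DecidableEq V] in
lemma eqv_trans {G : Gr V E} {W W' W'' : List (Dart E × Dart E)} (h : Eqv G W W')
    (h' : Eqv G W' W'') : Eqv G W W'' :=
  ⟨fun c hc => (h'.1 c hc).trans (h.1 c hc),
   fun c c' hc hc' hcc => (h'.2 c c' hc hc' hcc).trans (h.2 c c' hc hc' hcc)⟩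

omit [DecidableEq V] in
lemma eqv_refl (G : Gr V E) (W : List (Dart E × Dart E)) : Eqv G W W :=
  ⟨fun _ _ => rfl, fun _ _ _ _ _ => rfl⟩

/-- linking numbers depend only on the parities -/
lemma lk_par (hPSU : SpecPSU) {W W' : List (Dart E × Dart E)} (h : ∀ z, par W z = par W' z)
    {c : List (Dart E)} (hc : c ≠ []) (c' : List (Dart E)) : lk W c c' = lk W' c c' := by
  obtain ⟨d, hd⟩ := List.exists_mem_of_ne_nil c hc
  have h1 := hPSU.crl (fun z _ => if z.1.1 ∈ c.map Prod.fst ∧ z.2.1 ∈ c'.map Prod.fst
    then (1 : ZMod 2) else 0) W W' [(d, d)] h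
  unfold cr at h1
  simp only [List.map_cons, List.map_nil, List.sum_cons, List.sum_nil, add_zero] at h1
  have h2 := lk_map id W c c'
  have h3 := lk_map id W' c c'
  rw [List.map_id] at h2 h3
  rw [h2, h3]
  exact h1

/-- step of the second part: make one parity zero without changing certain others -/
lemma fix_one (hRNG : SpecRNG) {G : Gr V E} {bot top : List (Dart E)} {x s : Dart E}
    (hx : x ∈ bot) (hs : s ∈ bot) (hsx : s ≠ x) {W : List (Dart E × Dart E)}
    (hD : IsDia G bot W top) :
    ∃ W', IsDia G bot W' top ∧ Eqv G W W' ∧ par W' (x, s) = 0 ∧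
      ∀ y u, (G.vt y ≠ G.vt x ∨ u ≠ s) → y ≠ s → par W' (y, u) = par W (y, u) := by
  by_cases h0 : par W (x, s) = 0
  · exact ⟨W, hD, eqv_refl G W, h0, fun _ _ _ _ => rfl⟩
  have h1 : par W (x, s) = 1 := by
    have : ∀ a : ZMod 2, a ≠ 0 → a = 1 := by decide
    exact this _ h0
  by_cases hv : G.vt s = G.vt x
  · obtain ⟨W', hD', hE, hp⟩ := hRNG.clasp hD s hs x hx hsx (Or.inl hv)
    refine ⟨W', hD', hE, ?_, ?_⟩
    · rw [hp, h1, if_pos (Or.inr rfl)]
      rfl
    · intro y u hyu hys
      rw [hp, if_neg, add_zero]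
      rintro (h | h)
      · exact hys (congrArg Prod.fst h)
      · have e1 : y = x := congrArg Prod.fst h
        have e2 : u = s := congrArg Prod.snd h
        rcases hyu with h3 | h3
        · exact h3 (by rw [e1])
        · exact h3 e2
  · obtain ⟨W', hD', hE, hp⟩ := hRNG.ring hD s hs (G.vt x) hv
    refine ⟨W', hD', hE, ?_, ?_⟩
    · rw [hp, h1, if_pos (Or.inr ⟨rfl, hx, rfl⟩)]
      rfl
    · intro y u hyu hys
      rw [hp, if_neg, add_zero]
      rintro (h | h)
      · exact hys h.1
      · rcases hyu with h3 | h3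
        · exact h3 h.2.2
        · exact h3 h.1

lemma fix_list (hRNG : SpecRNG) {G : Gr V E} {bot top : List (Dart E)} {d : Dart E}
    (hd : d ∈ bot) (hrd : rv d ∈ bot) (hne : G.vt d ≠ G.vt (rv d)) :
    ∀ l : List (Dart E), (∀ s ∈ l, s ∈ bot ∧ s ≠ d ∧ s ≠ rv d) →
    ∀ W : List (Dart E × Dart E), IsDia G bot W top →
    ∃ W', IsDia G bot W' top ∧ Eqv G W W' ∧
      (∀ s ∈ l, par W' (d, s) = 0 ∧ par W' (rv d, s) = 0) ∧
      ∀ u, u ∉ l → par W' (d, u) = par W (d, u) ∧ par W' (rv d, u) = par W (rv d, u)
  | [], _, W, hD => ⟨W, hD, eqv_refl G W, by simp, fun _ _ => ⟨rfl, rfl⟩⟩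
  | s :: l, hl, W, hD => by
    obtain ⟨W₁, hD₁, hE₁, hz₁, hu₁⟩ := fix_list hRNG hd hrd hne l
      (fun s' hs' => hl s' (List.mem_cons_of_mem _ hs')) W hD
    obtain ⟨hsb, hsd, hsr⟩ := hl s (by simp)
    obtain ⟨W₂, hD₂, hE₂, hz₂, hu₂⟩ := fix_one hRNG hd hsb hsd hD₁
    obtain ⟨W₃, hD₃, hE₃, hz₃, hu₃⟩ := fix_one hRNG hrd hsb hsr hD₂
    have e1 : ∀ u, u ≠ s → par W₃ (d, u) = par W₁ (d, u) := fun u hu =>
      (hu₃ d u (Or.inl hne) hsd.symm).trans (hu₂ d u (Or.inr hu) hsd.symm)
    have e2 : ∀ u, u ≠ s → par W₃ (rv d, u) = par W₁ (rv d, u) := fun u hu =>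
      (hu₃ (rv d) u (Or.inr hu) hsr.symm).trans (hu₂ (rv d) u (Or.inl hne.symm) hsr.symm)
    refine ⟨W₃, hD₃, eqv_trans hE₁ (eqv_trans hE₂ hE₃), ?_, ?_⟩
    · intro s' hs'
      by_cases h : s' = s
      · subst h
        exact ⟨(hu₃ d s' (Or.inl hne) hsd.symm).trans hz₂, hz₃⟩
      · have h1 : s' ∈ l := by
          rcases List.mem_cons.1 hs' with h2 | h2
          · exact absurd h2 h
          · exact h2
        rw [e1 s' h, e2 s' h]
        exact hz₁ s' h1
    · intro u hu
      rw [List.mem_cons, not_or] at hu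
      rw [e1 u hu.1, e2 u hu.1]
      exact hu₁ u hu.2

/-- all the parities of the events in which `d` or `rv d` passes over another strand, and of
`(d, rv d)`, can be made zero -/
lemma fix_all (hRNG : SpecRNG) {G : Gr V E} {bot top : List (Dart E)} {d : Dart E}
    (hd : d ∈ bot) (hrd : rv d ∈ bot) (hne : G.vt d ≠ G.vt (rv d))
    {W : List (Dart E × Dart E)} (hD : IsDia G bot W top) :
    ∃ W', IsDia G bot W' top ∧ Eqv G W W' ∧
      (∀ s ∈ bot, s ≠ d → s ≠ rv d → par W' (d, s) = 0 ∧ par W' (rv d, s) = 0) ∧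
      par W' (d, rv d) = 0 := by
  obtain ⟨W₁, hD₁, hE₁, hz₁, -⟩ := fix_list hRNG hd hrd hne
    (bot.filter fun s => s ≠ d ∧ s ≠ rv d) (fun s hs => by
      rw [List.mem_filter] at hs
      exact ⟨hs.1, by simpa using hs.2⟩) W hD
  have hz : ∀ s ∈ bot, s ≠ d → s ≠ rv d → par W₁ (d, s) = 0 ∧ par W₁ (rv d, s) = 0 :=
    fun s hs h1 h2 => hz₁ s (List.mem_filter.2 ⟨hs, by simp [h1, h2]⟩)
  by_cases h0 : par W₁ (d, rv d) = 0
  · exact ⟨W₁, hD₁, hE₁, hz, h0⟩
  have h1 : par W₁ (d, rv d) = 1 := by
    have : ∀ a : ZMod 2, a ≠ 0 → a = 1 := by decide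
    exact this _ h0
  obtain ⟨W₂, hD₂, hE₂, hp⟩ := hRNG.clasp hD₁ d hd (rv d) hrd (CYCM.rv_ne d).symm (Or.inr rfl)
  refine ⟨W₂, hD₂, eqv_trans hE₁ hE₂, fun s hs hs1 hs2 => ⟨?_, ?_⟩, ?_⟩
  · rw [hp, (hz s hs hs1 hs2).1, if_neg]
    · rfl
    · rintro (h | h)
      · exact hs2 (congrArg Prod.snd h)
      · exact hs1 (congrArg Prod.snd h)
  · rw [hp, (hz s hs hs1 hs2).2, if_neg]
    · rfl
    · rintro (h | h)
      · exact hs2 (congrArg Prod.snd h)
      · exact hs1 (congrArg Prod.snd h)
  · rw [hp, h1, if_pos (Or.inl rfl)]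
    rfl

lemma par_zero {α : Type} [DecidableEq α] {W : List α} {z : α} (h : z ∉ W) : par W z = 0 := by
  unfold par
  rw [List.count_eq_zero_of_not_mem h]
  rfl

lemma par_filter {α : Type} [DecidableEq α] {W : List α} {z : α} (p : α → Bool) (h : p z = true) :
    par (W.filter p) z = par W z := by
  unfold par
  rw [List.count_filter h]

end NRMM

open RNGM NRMM in
theorem specNRM (hPSU : SpecPSU) (hRUN : SpecRUN) (hCFI : SpecCFI) (hFRT : SpecFRT)
    (hRNG : SpecRNG) : SpecNRM := by
  intro V E _ _ G bot top W hD d hd hne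
  have hdb : d ∈ bot := (hD.mb d).2 hd
  have hrb : rv d ∈ bot := (hD.mb _).2 hd
  -- the block of the end of `d`
  set B1 := bot.filter (fun x => G.vt x = G.vt (rv d)) with hB1
  have hr1 : rv d ∈ B1 := List.mem_filter.2 ⟨hrb, by simp⟩
  obtain ⟨U1, hD1, hE1, -⟩ := hFRT.fr hD (G.vt (rv d)) (rv d :: B1.erase (rv d))
    (List.perm_cons_erase hr1).symm
  set Q := B1.erase (rv d) with hQ
  set M := bot.filter (fun x => G.vt x ≠ G.vt (rv d)) with hM
  have hQv : ∀ x ∈ Q, G.vt x = G.vt (rv d) := by
    intro x hx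
    simpa using (List.mem_filter.1 (List.mem_of_mem_erase hx)).2
  -- the block of the start of `d`
  set B2 := (rv d :: Q ++ M).filter (fun x => G.vt x = G.vt d) with hB2
  have hd2 : d ∈ B2 := List.mem_filter.2
    ⟨List.mem_append_right _ (List.mem_filter.2 ⟨hdb, by simpa using hne⟩), by simp⟩
  obtain ⟨U2, hD2, hE2, -⟩ := hFRT.fr hD1 (G.vt d) (B2.erase d ++ [d])
    (List.perm_append_comm.trans (List.perm_cons_erase hd2).symm)
  set P := B2.erase d with hP
  have hPv : ∀ x ∈ P, G.vt x = G.vt d := by
    intro x hx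
    simpa using (List.mem_filter.1 (List.mem_of_mem_erase hx)).2
  have hfil : (rv d :: Q ++ M).filter (fun x => G.vt x ≠ G.vt d) =
      rv d :: Q ++ M.filter (fun x => G.vt x ≠ G.vt d) := by
    rw [List.filter_append, List.filter_eq_self.2]
    intro x hx
    have h1 : G.vt x = G.vt (rv d) := by
      rcases List.mem_cons.1 hx with rfl | h
      · rfl
      · exact hQv x h
    simpa [h1] using Ne.symm hne
  rw [hfil] at hD2
  set R := M.filter (fun x => G.vt x ≠ G.vt d) with hR
  have hRv : ∀ x ∈ R, G.vt x ≠ G.vt d ∧ G.vt x ≠ G.vt (rv d) := by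
    intro x hx
    have h1 := List.mem_filter.1 hx
    have h2 := List.mem_filter.1 h1.1
    exact ⟨by simpa using h1.2, by simpa using h2.2⟩
  have hform : (P ++ [d]) ++ (rv d :: Q ++ R) = P ++ d :: rv d :: (Q ++ R) := by simp
  rw [hform] at hD2
  -- the top
  obtain ⟨U3, hD3, hE3, -⟩ := hFRT.tp hD2 d hd
  set R' := top.filter fun x => x.1 ≠ d.1 with hR'
  -- parities
  have hdb' : d ∈ P ++ d :: rv d :: (Q ++ R) := by simp
  have hrb' : rv d ∈ P ++ d :: rv d :: (Q ++ R) := by simp
  obtain ⟨W₂, hD4, hE4, hz, hz'⟩ := fix_all hRNG hdb' hrb' hne hD3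
  have hE : Eqv G W W₂ := eqv_trans hE1 (eqv_trans hE2 (eqv_trans hE3 hE4))
  have hnd := hD4.dia.nd
  -- the strands different from `d`, `rv d`
  have hnotP : d ∉ P ∧ rv d ∉ P := by
    rw [List.nodup_append] at hnd
    exact ⟨fun h => hnd.2.2 d h d (by simp) rfl, fun h => hnd.2.2 (rv d) h (rv d) (by simp) rfl⟩
  have hnotQR : d ∉ Q ++ R ∧ rv d ∉ Q ++ R := by
    rw [List.nodup_append, List.nodup_cons, List.nodup_cons] at hnd
    exact ⟨fun h => hnd.2.1.1 (List.mem_cons_of_mem _ h), hnd.2.1.2.1⟩
  have hpP : ∀ x ∈ P, x.1 ≠ d.1 := by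
    intro x hx e
    rcases CYCM.fst_eq e with rfl | rfl
    · exact hnotP.1 hx
    · exact hnotP.2 hx
  have hpQR : ∀ x ∈ Q ++ R, x.1 ≠ d.1 := by
    intro x hx e
    rcases CYCM.fst_eq e with rfl | rfl
    · exact hnotQR.1 hx
    · exact hnotQR.2 hx
  set p : Dart E → Bool := fun x => decide (x.1 ≠ d.1) with hp
  set W₃ := W₂.filter (fun z => p z.1 && p z.2) with hW₃
  have hrun3 : Run (P ++ Q ++ R) W₃ R' := by
    have h1 := hRUN.filt p hD4.dia.run
    have h2 : (P ++ d :: rv d :: (Q ++ R)).filter p = P ++ Q ++ R := by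
      rw [List.filter_append, List.filter_eq_self.2 (fun x hx => by simpa [hp] using hpP x hx),
        List.filter_cons_of_neg (by simp [hp]), List.filter_cons_of_neg (by simp [hp, rv]),
        List.filter_eq_self.2 (fun x hx => by simpa [hp] using hpQR x hx), List.append_assoc]
    have h3 : (d :: rv d :: R').filter p = R' := by
      rw [List.filter_cons_of_neg (by simp [hp]), List.filter_cons_of_neg (by simp [hp, rv]),
        List.filter_eq_self.2]
      intro x hx
      exact (List.mem_filter.1 hx).2
    rw [h2, h3] at h1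
    exact h1
  obtain ⟨U, hU, hUm⟩ := hRUN.exch P [d, rv d]
  have hrunU : Run (P ++ d :: rv d :: (Q ++ R)) U (d :: rv d :: (P ++ Q ++ R)) := by
    have h1 := hRUN.ctx [] (Q ++ R) hU
    simpa using h1
  have hUm' : ∀ z ∈ U, z.1 ∈ P ∧ (z.2 = d ∨ z.2 = rv d) := by
    intro z hz
    have h1 := hUm z hz
    exact ⟨h1.1, by simpa using h1.2⟩
  have hrunW : Run (d :: rv d :: (P ++ Q ++ R)) W₃ (d :: rv d :: R') := by
    have h1 := hRUN.ctx [d, rv d] [] hrun3
    simpa using h1
  have hDn : IsDia G (P ++ d :: rv d :: (Q ++ R)) (U ++ W₃) (d :: rv d :: R') :=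
    ⟨hD4.mb, hD4.dia.nd, hD4.dia.bb, hD4.dia.tt, hRUN.trans hrunU hrunW⟩
  -- the parities agree
  have hW₃m : ∀ z ∈ W₃, z.1.1 ≠ d.1 ∧ z.2.1 ≠ d.1 := by
    intro z hz
    have h1 := (List.mem_filter.1 hz).2
    simpa [hp] using h1
  have ht1 : ∀ x y : Dart E, x.1 = d.1 → par (U ++ W₃) (x, y) = 0 := by
    intro x y hx
    apply par_zero
    rw [List.mem_append]
    rintro (h | h)
    · exact hpP x (hUm' _ h).1 hx
    · exact (hW₃m _ h).1 hx
  have ht2 : ∀ x y : Dart E, x.1 = d.1 → y ∈ P ++ d :: rv d :: (Q ++ R) → x ≠ y →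
      (x, y) ≠ (rv d, d) → par W₂ (x, y) = 0 := by
    intro x y hx hy hxy hne2
    by_cases hyd : y.1 = d.1
    · rcases CYCM.fst_eq hx with rfl | rfl
      · rcases CYCM.fst_eq hyd with rfl | rfl
        · exact absurd rfl hxy
        · exact hz'
      · rcases CYCM.fst_eq hyd with rfl | rfl
        · exact absurd rfl hne2
        · exact absurd rfl hxy
    · have h1 : y ≠ d := fun e => hyd (by rw [e])
      have h2 : y ≠ rv d := fun e => hyd (by rw [e]; rfl)
      rcases CYCM.fst_eq hx with rfl | rfl
      · exact (hz y hy h1 h2).1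
      · exact (hz y hy h1 h2).2
  have hpar : ∀ z, par (U ++ W₃) z = par W₂ z := by
    rintro ⟨x, y⟩
    by_cases hin : x ∈ P ++ d :: rv d :: (Q ++ R) ∧ y ∈ P ++ d :: rv d :: (Q ++ R) ∧ x ≠ y
    · obtain ⟨hx, hy, hxy⟩ := hin
      have hp1 := hRUN.pari hDn.dia.nd hDn.dia.run x hx y hy hxy
      have hp2 := hRUN.pari hD4.dia.nd hD4.dia.run x hx y hy hxy
      by_cases hxd : x.1 = d.1 ∧ (x, y) ≠ (rv d, d)
      · rw [ht1 x y hxd.1, ht2 x y hxd.1 hy hxy hxd.2]
      · by_cases hyd : y.1 = d.1
        · -- the opposite pair is zero on both sides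
          have h1 : par (U ++ W₃) (y, x) = 0 := ht1 y x hyd
          have h2 : par W₂ (y, x) = 0 := by
            refine ht2 y x hyd hx hxy.symm ?_
            intro e
            have e1 : y = rv d := congrArg Prod.fst e
            have e2 : x = d := congrArg Prod.snd e
            refine hxd ⟨by rw [e2], ?_⟩
            rw [e1, e2]
            intro e3
            exact CYCM.rv_ne d (congrArg Prod.fst e3).symm
          rw [h1, add_zero] at hp1
          rw [h2, add_zero] at hp2
          rw [hp1, hp2]
        · have hxd' : x.1 ≠ d.1 := by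
            intro e
            refine hxd ⟨e, ?_⟩
            intro e2
            have e3 : y = d := congrArg Prod.snd e2
            exact hyd (by rw [e3])
          rw [par_append, par_zero (W := U), zero_add, hW₃, par_filter]
          · simp [hp, hxd', hyd]
          · intro h
            rcases (hUm' _ h).2 with e | e
            · have e' : y = d := e
              exact hyd (by rw [e'])
            · have e' : y = rv d := e
              exact hyd (by rw [e']; rfl)
    · rw [par_zero, par_zero]
      · intro h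
        have h1 := hRUN.mem hD4.dia.nd hD4.dia.run _ h
        exact hin h1
      · intro h
        have h1 := hRUN.mem hDn.dia.nd hDn.dia.run _ h
        exact hin h1
  obtain ⟨F, hF, hFc⟩ := hCFI hDn hD4 hpar
  refine ⟨P, Q, R, R', U, W₃, hPv, hQv, hRv, hUm', hrunU, hrun3, hDn, ⟨F, hF, fun c hc => ?_⟩,
    fun c c' hc hc' hcc => ?_⟩
  · rw [hFc c hc, hE.1 c hc]
  · rw [lk_par hPSU hpar hc.ne, hE.2 c c' hc hc' hcc]

end Pool.Agent.Lib.MP3ff0f8.T
end
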