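import Pool.Agent.Lib.MP_3ff0f8_gt.T.SEP

/-!
Module PVC: the polygon of a cycle in the realisation has a regular vertical projection, and its
Polyak-Viro number is that of the word diagram.
-/

set_option autoImplicit false
set_option linter.unusedSectionVars false

namespace Pool.Agent.Lib.MP3ff0f8.T

namespace PVCM

open PLNM

/-! ### Segment numbers -/

/-- the number of the segment, in the slab of the event `k`, of the strand with position `A` on the
curve -/
def seg (m A k : ℕ) : ℕ := (4 * m + 3) * (A / 2) + (if A % 2 = 0 then 2 * k + 2 else 4 * m - 2 * k)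

theorem seg_lt {m k l : ℕ} (A B : ℕ) (hk : k < m) (hl : l < m) :
    seg m A k < seg m B l ↔ A < B ∨ (A = B ∧ ((A % 2 = 0 ∧ k < l) ∨ (A % 2 = 1 ∧ l < k))) := by
  unfold seg
  rcases Nat.lt_trichotomy (A / 2) (B / 2) with h | h | h
  · have h1 : (4 * m + 3) * (A / 2) + (4 * m + 3) ≤ (4 * m + 3) * (B / 2) := by
      calc (4 * m + 3) * (A / 2) + (4 * m + 3) = (4 * m + 3) * (A / 2 + 1) := by ring
        _ ≤ _ := Nat.mul_le_mul_left _ h
    have h2 : A < B := by omega
    generalize (4 * m + 3) * (A / 2) = X at *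
    generalize (4 * m + 3) * (B / 2) = Y at *
    split_ifs <;> omega
  · rw [h]
    generalize (4 * m + 3) * (B / 2) = Y at *
    split_ifs <;> omega
  · have h1 : (4 * m + 3) * (B / 2) + (4 * m + 3) ≤ (4 * m + 3) * (A / 2) := by
      calc (4 * m + 3) * (B / 2) + (4 * m + 3) = (4 * m + 3) * (B / 2 + 1) := by ring
        _ ≤ _ := Nat.mul_le_mul_left _ h
    have h2 : B < A := by omega
    generalize (4 * m + 3) * (A / 2) = X at *
    generalize (4 * m + 3) * (B / 2) = Y at *
    split_ifs <;> omega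

theorem seg_inj {m k l : ℕ} {A B : ℕ} (hk : k < m) (hl : l < m) (h : seg m A k = seg m B l) :
    A = B ∧ k = l := by
  have h1 := seg_lt A B hk hl
  have h2 := seg_lt B A hl hk
  have h3 : ¬ (A < B ∨ (A = B ∧ ((A % 2 = 0 ∧ k < l) ∨ (A % 2 = 1 ∧ l < k)))) := by
    rw [← h1]; omega
  have h4 : ¬ (B < A ∨ (B = A ∧ ((B % 2 = 0 ∧ l < k) ∨ (B % 2 = 1 ∧ k < l)))) := by
    rw [← h2]; omega
  omega

theorem decomp (m : ℕ) {i R : ℕ} (h : i < (4 * m + 3) * R) :
    ∃ r x, r < R ∧ x < 4 * m + 3 ∧ i = (4 * m + 3) * r + x :=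
  ⟨i / (4 * m + 3), i % (4 * m + 3), Nat.div_lt_of_lt_mul h, Nat.mod_lt _ (by omega),
    (Nat.div_add_mod _ _).symm⟩

/-! ### Labels -/

/-- label and orientation of the segment number `x` of the dart `d` -/
def lb {E : Type} (m : ℕ) (d : Dart E) (x : ℕ) : Lab E × Bool :=
  if x = 0 then (.fan d, false) else
    if x ≤ 2 * m then (.up d (x - 1), false) else
      if x = 2 * m + 1 then (.cap d.1, d.2) else
        if x ≤ 4 * m + 1 then (.up (rv d) (4 * m + 1 - x), true) else (.fan (rv d), true)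

/-- edge of a label -/
def ed {E : Type} : Lab E → E
  | .fan s => s.1
  | .up s _ => s.1
  | .cap e => e

theorem rv_ne {E : Type} (d : Dart E) : rv d ≠ d := by
  intro h
  have := congrArg Prod.snd h
  simp [rv] at this

theorem ne_rv {E : Type} (d : Dart E) : d ≠ rv d := (rv_ne d).symm

theorem rv_fst {E : Type} (d : Dart E) : (rv d).1 = d.1 := rfl

theorem rv_rv {E : Type} (d : Dart E) : rv (rv d) = d := by
  simp [rv]

theorem ed_lb {E : Type} (m : ℕ) (d : Dart E) (x : ℕ) : ed (lb m d x).1 = d.1 := by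
  unfold lb
  split_ifs <;> rfl

theorem lb_inj {E : Type} {m : ℕ} {d : Dart E} {x y : ℕ} (hx : x < 4 * m + 3)
    (hy : y < 4 * m + 3) (h : (lb m d x).1 = (lb m d y).1) : x = y := by
  unfold lb at h
  split_ifs at h <;>
    simp only [Lab.fan.injEq, Lab.up.injEq, true_and, rv_ne, ne_rv, false_and] at h <;> omega

section main

variable {V E : Type} [Fintype V] [Fintype E] [DecidableEq V] [DecidableEq E]
  {vt : Dart E → V} {bot top : List (Dart E)} {W : List (Dart E × Dart E)} {C : List (Dart E)}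

theorem edge_inj (hC : IsCyc (fg vt) C) {r r' : ℕ} (h : r < C.length) (h' : r' < C.length)
    (he : C[r].1 = C[r'].1) : r = r' := by
  have hnd := hC.nde
  exact (List.Nodup.getElem_inj_iff hnd (i := r) (j := r') (hi := by simpa using h)
    (hj := by simpa using h')).1 (by simpa using he)

theorem lb_ok (d : Dart E) (x : ℕ) : (lb W.length d x).1.ok W := by
  unfold lb
  split_ifs
  · trivial
  · change x - 1 < 2 * W.length
    omega
  · trivial
  · change 4 * W.length + 1 - x < 2 * W.length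
    omega
  · trivial

theorem pt_lb (hC : IsCyc (fg vt) C) (r : ℕ) (h : r < C.length) (x : ℕ)
    (hx : x < 4 * W.length + 3) (t : ℝ) :
    pt ((real vt bot W).poly vt C) ((4 * W.length + 3) * r + x) t =
      (lb W.length C[r] x).1.p vt bot W (if (lb W.length C[r] x).2 then 1 - t else t) := by
  unfold lb
  by_cases h0 : x = 0
  · subst h0
    rw [if_pos rfl, add_zero, specPIX.fan0 vt bot W C hC r h t]
    simp
  · rw [if_neg h0]
    by_cases h1 : x ≤ 2 * W.length
    · rw [if_pos h1]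
      have h2 := specPIX.up0 vt bot W C hC r h (x - 1) (by omega) t
      have e1 : (4 * W.length + 3) * r + 1 + (x - 1) = (4 * W.length + 3) * r + x := by omega
      rw [e1] at h2
      rw [h2]
      simp
    · rw [if_neg h1]
      by_cases h2 : x = 2 * W.length + 1
      · rw [if_pos h2]
        have h3 := specPIX.cap0 vt bot W C hC r h t
        rw [h2, ← add_assoc, h3]
      · rw [if_neg h2]
        by_cases h3 : x ≤ 4 * W.length + 1
        · rw [if_pos h3]
          have h4 := specPIX.up1 vt bot W C hC r h (4 * W.length + 1 - x) (by omega) t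
          have e1 : (4 * W.length + 3) * r + 4 * W.length + 1 - (4 * W.length + 1 - x) =
            (4 * W.length + 3) * r + x := by omega
          rw [e1] at h4
          rw [h4]
          simp
        · rw [if_neg h3]
          have h4 := specPIX.fan1 vt bot W C hC r h t
          have e1 : (4 * W.length + 3) * r + 4 * W.length + 2 =
            (4 * W.length + 3) * r + x := by omega
          rw [e1] at h4
          rw [h4]
          simp

/-! ### Positions on the curve -/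

theorem idxOf_getD {S : Type} [DecidableEq S] (L : List S) (hnd : L.Nodup) (i : ℕ)
    (h : i < L.length) (x p : S) (hp : L.getD i x = p) : L.idxOf p = i := by
  rw [List.getD_eq_getElem _ _ h] at hp
  rw [← hp]
  exact List.Nodup.idxOf_getElem hnd i h

theorem cv_map (C : List (Dart E)) : (cv C).map Prod.fst = C.flatMap fun d => [d, rv d] := by
  unfold cv
  rw [List.map_flatMap]
  rfl

theorem cv_len (C : List (Dart E)) : ((cv C).map Prod.fst).length = 2 * C.length := by
  rw [cv_map]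
  induction C with
  | nil => rfl
  | cons d C ih =>
    rw [List.flatMap_cons, List.length_append, ih]
    simp only [List.length_cons, List.length_nil]
    ring

theorem idx_up (hCYC : SpecCYC) (hC : IsCyc (fg vt) C) (r : ℕ) (h : r < C.length) :
    idx (cv C) C[r] = 2 * r := by
  unfold idx
  have hnd := hCYC.cvnd hC
  have hl := cv_len C
  apply idxOf_getD _ hnd _ (by omega) C[r]
  rw [cv_map]
  have := PIXM.getD_flatMap (fun d : Dart E => [d, rv d]) 2 (fun _ => rfl) C[r] C r 0 h (by omega)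
  rw [add_zero] at this
  rw [this]
  rfl

theorem idx_dn (hCYC : SpecCYC) (hC : IsCyc (fg vt) C) (r : ℕ) (h : r < C.length) :
    idx (cv C) (rv C[r]) = 2 * r + 1 := by
  unfold idx
  have hnd := hCYC.cvnd hC
  have hl := cv_len C
  apply idxOf_getD _ hnd _ (by omega) C[r]
  rw [cv_map]
  have := PIXM.getD_flatMap (fun d : Dart E => [d, rv d]) 2 (fun _ => rfl) C[r] C r 1 h (by omega)
  rw [this]
  rfl

theorem on_cases (hCYC : SpecCYC) {p : Dart E} (h : on (cv C) p) :
    ∃ (r : ℕ) (hr : r < C.length), p = C[r] ∨ p = rv C[r] := by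
  rw [hCYC.on, List.mem_map] at h
  obtain ⟨d, hd, hdp⟩ := h
  obtain ⟨r, hr, hrd⟩ := List.getElem_of_mem hd
  refine ⟨r, hr, ?_⟩
  rw [hrd]
  obtain ⟨e, b⟩ := d
  obtain ⟨e', b'⟩ := p
  simp only at hdp
  subst hdp
  cases b <;> cases b' <;> simp [rv]

theorem on_up (hCYC : SpecCYC) (r : ℕ) (h : r < C.length) : on (cv C) C[r] := by
  rw [hCYC.on]
  exact List.mem_map_of_mem (List.getElem_mem h)

theorem on_dn (hCYC : SpecCYC) (r : ℕ) (h : r < C.length) : on (cv C) (rv C[r]) := by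
  rw [hCYC.on, rv_fst]
  exact List.mem_map_of_mem (List.getElem_mem h)

theorem par_up (hCYC : SpecCYC) (hC : IsCyc (fg vt) C) {p : Dart E} (h : on (cv C) p) :
    idx (cv C) p % 2 = 0 ↔ (p, true) ∈ cv C := by
  rw [hCYC.up]
  obtain ⟨r, hr, rfl | rfl⟩ := on_cases hCYC h
  · rw [idx_up hCYC hC r hr]
    constructor
    · intro _
      exact List.getElem_mem hr
    · intro _
      omega
  · rw [idx_dn hCYC hC r hr]
    constructor
    · intro h1
      omega
    · intro h1
      exfalso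
      obtain ⟨r', hr', h2⟩ := List.getElem_of_mem h1
      have h3 := edge_inj hC hr' hr (by rw [h2]; rfl)
      subst h3
      exact ne_rv _ h2

theorem par_dn (hCYC : SpecCYC) (hC : IsCyc (fg vt) C) {p : Dart E} (h : on (cv C) p) :
    idx (cv C) p % 2 = 1 ↔ (p, false) ∈ cv C := by
  rw [hCYC.dn]
  obtain ⟨r, hr, rfl | rfl⟩ := on_cases hCYC h
  · rw [idx_up hCYC hC r hr]
    constructor
    · intro h1
      omega
    · intro h1
      exfalso
      obtain ⟨r', hr', h2⟩ := List.getElem_of_mem h1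
      have h3 := edge_inj hC hr' hr (by rw [h2]; rfl)
      subst h3
      exact ne_rv _ h2
  · rw [idx_dn hCYC hC r hr, rv_rv]
    constructor
    · intro _
      exact List.getElem_mem hr
    · intro _
      omega

theorem idx_eq (hCYC : SpecCYC) (hC : IsCyc (fg vt) C) {p r : Dart E} (hp : on (cv C) p)
    (hr : on (cv C) r) (h : idx (cv C) p = idx (cv C) r) : p = r := by
  obtain ⟨a, ha, rfl | rfl⟩ := on_cases hCYC hp <;> obtain ⟨b, hb, rfl | rfl⟩ := on_cases hCYC hr
  · rw [idx_up hCYC hC a ha, idx_up hCYC hC b hb] at h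
    have : a = b := by omega
    subst this
    rfl
  · rw [idx_up hCYC hC a ha, idx_dn hCYC hC b hb] at h
    omega
  · rw [idx_dn hCYC hC a ha, idx_up hCYC hC b hb] at h
    omega
  · rw [idx_dn hCYC hC a ha, idx_dn hCYC hC b hb] at h
    have : a = b := by omega
    subst this
    rfl

/-- segment number of the strand `p` in the slab of event `k` -/
def sn (m : ℕ) (C : List (Dart E)) (p : Dart E) (k : ℕ) : ℕ := seg m (idx (cv C) p) k

theorem sn_lt01 (hCYC : SpecCYC) (hC : IsCyc (fg vt) C) {p r : Dart E} (hp : on (cv C) p)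
    (hr : on (cv C) r) {m k l : ℕ} (hk : k < m) (hl : l < m) (hkl : k < l) :
    sn m C p k < sn m C r l ↔ l01 (cv C) p r := by
  unfold sn l01
  rw [seg_lt _ _ hk hl, ← par_up hCYC hC hp]
  constructor
  · rintro (h | ⟨h1, h2⟩)
    · exact Or.inl h
    · right
      exact ⟨idx_eq hCYC hC hp hr h1, by omega⟩
  · rintro (h | ⟨h1, h2⟩)
    · exact Or.inl h
    · right
      exact ⟨by rw [h1], Or.inl ⟨h2, hkl⟩⟩

theorem sn_lt10 (hCYC : SpecCYC) (hC : IsCyc (fg vt) C) {p r : Dart E} (hp : on (cv C) p)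
    (hr : on (cv C) r) {m k l : ℕ} (hk : k < m) (hl : l < m) (hkl : k < l) :
    sn m C p l < sn m C r k ↔ l10 (cv C) p r := by
  unfold sn l10
  rw [seg_lt _ _ hl hk, ← par_dn hCYC hC hp]
  constructor
  · rintro (h | ⟨h1, h2⟩)
    · exact Or.inl h
    · right
      exact ⟨idx_eq hCYC hC hp hr h1, by omega⟩
  · rintro (h | ⟨h1, h2⟩)
    · exact Or.inl h
    · right
      exact ⟨by rw [h1], Or.inr ⟨h2, hkl⟩⟩

theorem sn_inj (hCYC : SpecCYC) (hC : IsCyc (fg vt) C) {p r : Dart E} (hp : on (cv C) p)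
    (hr : on (cv C) r) {m k l : ℕ} (hk : k < m) (hl : l < m) (h : sn m C p k = sn m C r l) :
    p = r ∧ k = l := by
  obtain ⟨h1, h2⟩ := seg_inj hk hl h
  exact ⟨idx_eq hCYC hC hp hr h1, h2⟩

theorem lb_up (hCYC : SpecCYC) (hC : IsCyc (fg vt) C) {r : ℕ} (h : r < C.length) {x : ℕ}
    {m : ℕ} {p : Dart E} {k : ℕ} (hk : k < m)
    (hl : (lb m C[r] x).1 = .up p (2 * k + 1)) :
    on (cv C) p ∧ (4 * m + 3) * r + x = sn m C p k := by
  unfold lb at hl
  split_ifs at hl with h0 h1 h2 h3 <;>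
    simp only [Lab.up.injEq] at hl
  · obtain ⟨hp, hx⟩ := hl
    subst hp
    refine ⟨on_up hCYC r h, ?_⟩
    unfold sn seg
    rw [idx_up hCYC hC r h, if_pos (by omega)]
    have : 2 * r / 2 = r := by omega
    rw [this]
    omega
  · obtain ⟨hp, hx⟩ := hl
    subst hp
    refine ⟨on_dn hCYC r h, ?_⟩
    unfold sn seg
    rw [idx_dn hCYC hC r h, if_neg (by omega)]
    have : (2 * r + 1) / 2 = r := by omega
    rw [this]
    omega

theorem pt_sn (hCYC : SpecCYC) (hC : IsCyc (fg vt) C) {p : Dart E} (hp : on (cv C) p) {k : ℕ}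
    (hk : k < W.length) :
    sn W.length C p k < ((real vt bot W).poly vt C).length ∧
    pt ((real vt bot W).poly vt C) (sn W.length C p k) (1 / 2) =
      (Lab.up p (2 * k + 1)).p vt bot W (1 / 2) := by
  rw [specPIX.len]
  obtain ⟨r, hr, rfl | rfl⟩ := on_cases hCYC hp
  · have h1 := specPIX.up0 vt bot W C hC r hr (2 * k + 1) (by omega) (1 / 2)
    have e1 : sn W.length C C[r] k = (4 * W.length + 3) * r + 1 + (2 * k + 1) := by
      unfold sn seg
      rw [idx_up hCYC hC r hr, if_pos (by omega)]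
      have : 2 * r / 2 = r := by omega
      rw [this]
      omega
    refine ⟨?_, ?_⟩
    · rw [e1]
      calc (4 * W.length + 3) * r + 1 + (2 * k + 1) < (4 * W.length + 3) * r + (4 * W.length + 3) := by
            omega
        _ = (4 * W.length + 3) * (r + 1) := by ring
        _ ≤ _ := Nat.mul_le_mul_left _ hr
    · rw [e1, h1]
  · have h1 := specPIX.up1 vt bot W C hC r hr (2 * k + 1) (by omega) (1 / 2)
    have e1 : sn W.length C (rv C[r]) k =
        (4 * W.length + 3) * r + 4 * W.length + 1 - (2 * k + 1) := by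
      unfold sn seg
      rw [idx_dn hCYC hC r hr, if_neg (by omega)]
      have : (2 * r + 1) / 2 = r := by omega
      rw [this]
      omega
    refine ⟨?_, ?_⟩
    · rw [e1]
      calc (4 * W.length + 3) * r + 4 * W.length + 1 - (2 * k + 1) <
            (4 * W.length + 3) * r + (4 * W.length + 3) := by
            omega
        _ = (4 * W.length + 3) * (r + 1) := by ring
        _ ≤ _ := Nat.mul_le_mul_left _ hr
    · rw [e1, h1]
      norm_num

/-! ### Crossings -/

theorem pln' (hPLN : SpecPLN) (hCYC : SpecCYC) (hD : IsDia (fg vt) bot W top)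
    (hC : IsCyc (fg vt) C) {i j : ℕ} (hi : i < ((real vt bot W).poly vt C).length)
    (hj : j < ((real vt bot W).poly vt C).length) (hij : i ≠ j) {s t : ℝ} (hs0 : 0 ≤ s)
    (hs1 : s ≤ 1) (ht0 : 0 ≤ t) (ht1 : t ≤ 1)
    (h : samexy (pt ((real vt bot W).poly vt C) i s) (pt ((real vt bot W).poly vt C) j t)) :
    (pt ((real vt bot W).poly vt C) i s = pt ((real vt bot W).poly vt C) j t ∧
      (s = 0 ∨ s = 1) ∧ (t = 0 ∨ t = 1)) ∨
    (s = 1 / 2 ∧ t = 1 / 2 ∧ ∃ (k : ℕ) (hk : k < W.length), on (cv C) W[k].1 ∧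
      on (cv C) W[k].2 ∧
      ((i = sn W.length C W[k].1 k ∧ j = sn W.length C W[k].2 k) ∨
       (i = sn W.length C W[k].2 k ∧ j = sn W.length C W[k].1 k))) := by
  rw [specPIX.len] at hi hj
  obtain ⟨r, x, hr, hx, rfl⟩ := decomp _ hi
  obtain ⟨r', x', hr', hx', rfl⟩ := decomp _ hj
  rw [pt_lb hC r hr x hx, pt_lb hC r' hr' x' hx'] at h ⊢
  have hne : (lb W.length C[r] x).1 ≠ (lb W.length C[r'] x').1 := by
    intro h1
    have h2 := congrArg ed h1
    rw [ed_lb, ed_lb] at h2
    have h3 := edge_inj hC hr hr' h2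
    subst h3
    have h4 := lb_inj hx hx' h1
    subst h4
    exact hij rfl
  have hs : ∀ (b : Bool) (u : ℝ), 0 ≤ u → u ≤ 1 → 0 ≤ (if b then 1 - u else u) ∧
      (if b then 1 - u else u) ≤ 1 := by
    intro b u h1 h2
    cases b <;> simp <;> constructor <;> linarith
  have hs' : ∀ (b : Bool) (u : ℝ), ((if b then 1 - u else u) = 0 ∨ (if b then 1 - u else u) = 1) →
      u = 0 ∨ u = 1 := by
    intro b u h1
    cases b
    · simpa using h1
    · simp only [if_true] at h1
      rcases h1 with h1 | h1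
      · right; linarith
      · left; linarith
  have hs'' : ∀ (b : Bool) (u : ℝ), (if b then 1 - u else u) = 1 / 2 → u = 1 / 2 := by
    intro b u h1
    cases b
    · simpa using h1
    · simp only [if_true] at h1
      linarith
  rcases hPLN vt bot top W hD _ _ (lb_ok _ _) (lb_ok _ _) hne _ _ (hs _ s hs0 hs1).1
    (hs _ s hs0 hs1).2 (hs _ t ht0 ht1).1 (hs _ t ht0 ht1).2 h with
    ⟨h1, h2, h3⟩ | ⟨h1, h2, k, hk, h3⟩
  · left
    exact ⟨h1, hs' _ _ h2, hs' _ _ h3⟩
  · right
    refine ⟨hs'' _ _ h1, hs'' _ _ h2, k, hk, ?_⟩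
    rcases h3 with ⟨h3, h4⟩ | ⟨h3, h4⟩
    · obtain ⟨q1, q2⟩ := lb_up hCYC hC hr hk h3
      obtain ⟨q3, q4⟩ := lb_up hCYC hC hr' hk h4
      exact ⟨q1, q3, Or.inl ⟨q2, q4⟩⟩
    · obtain ⟨q1, q2⟩ := lb_up hCYC hC hr hk h3
      obtain ⟨q3, q4⟩ := lb_up hCYC hC hr' hk h4
      exact ⟨q3, q1, Or.inr ⟨q2, q4⟩⟩

/-- two points of the same segment with the same projection are equal -/
theorem same_seg (hSTT : SpecSTT) (hBLK : SpecBLK) (hD : IsDia (fg vt) bot W top)
    (hC : IsCyc (fg vt) C) {i : ℕ} (hi : i < ((real vt bot W).poly vt C).length) {s t : ℝ}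
    (h : samexy (pt ((real vt bot W).poly vt C) i s) (pt ((real vt bot W).poly vt C) i t)) :
    s = t := by
  rw [specPIX.len] at hi
  obtain ⟨r, x, hr, hx, rfl⟩ := decomp _ hi
  rw [pt_lb hC r hr x hx, pt_lb hC r hr x hx] at h
  have hb : ∀ (b : Bool) (u v : ℝ), (if b then 1 - u else u) = (if b then 1 - v else v) → u = v := by
    intro b u v h1
    cases b
    · simpa using h1
    · simp only [if_true] at h1
      linarith
  apply hb (lb W.length C[r] x).2
  generalize (if (lb W.length C[r] x).2 then 1 - s else s) = u at *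
  generalize (if (lb W.length C[r] x).2 then 1 - t else t) = v at *
  obtain ⟨h1, h2⟩ := h
  cases hl : (lb W.length C[r] x).1 with
  | fan d =>
    rw [hl, fan_y, fan_y] at h2
    linarith
  | up d j =>
    rw [hl, up_y, up_y] at h2
    linarith
  | cap e =>
    rw [hl, cap_x, cap_x] at h1
    have h3 : (u - v) * ((pos bot W W.length (e, true) : ℝ) - pos bot W W.length (e, false)) = 0 := by
      linarith
    rcases mul_eq_zero.1 h3 with h4 | h4
    · linarith
    · exfalso
      have h5 : pos bot W W.length (e, true) = pos bot W W.length (e, false) := by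
        have : (pos bot W W.length (e, true) : ℝ) = pos bot W W.length (e, false) := by linarith
        exact_mod_cast this
      have := pos_cap hSTT hBLK hD e
      omega

theorem mid_z (p : Dart E) {k : ℕ} (hk : k < W.length) :
    ((Lab.up p (2 * k + 1)).p vt bot W (1 / 2)).2.2 = if W[k].1 = p then 1 else 0 := by
  have e1 : (2 * k + 1 - 1) / 2 = k := by omega
  have e2 : (2 * k + 1 + 1 - 1) / 2 = k := by omega
  have e3 : (W.map Prod.fst)[k]? = some W[k].1 := by
    rw [List.getElem?_map, List.getElem?_eq_getElem hk]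
    rfl
  simp only [Lab.p, Lab.lo, Lab.hi, Nd, Prod.snd_add, Prod.smul_snd, smul_eq_mul, e1, e2, e3,
    Option.some.injEq]
  by_cases h : W[k].1 = p
  · rw [if_pos ⟨by omega, h⟩, if_pos ⟨by omega, h⟩, if_pos h]
    norm_num
  · rw [if_neg (fun h' => h h'.2), if_neg (fun h' => h h'.2), if_neg h]
    norm_num

theorem mid_xy (hSTT : SpecSTT) (hD : IsDia (fg vt) bot W top) {k : ℕ} (hk : k < W.length) :
    samexy ((Lab.up W[k].1 (2 * k + 1)).p vt bot W (1 / 2))
      ((Lab.up W[k].2 (2 * k + 1)).p vt bot W (1 / 2)) := by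
  obtain ⟨q1, q2, q3, q4⟩ := hSTT.step hD.dia.nd hD.dia.run k hk
  have q2' : pos bot W (k + 1) W[k].1 = pos bot W k W[k].2 := q2
  have q3' : pos bot W (k + 1) W[k].2 = pos bot W k W[k].1 := q3
  constructor
  · rw [up_x, up_x]
    have e1 : (2 * k + 1) / 2 = k := by omega
    have e2 : (2 * k + 1 + 1) / 2 = k + 1 := by omega
    rw [e1, e2, q2', q3']
    ring
  · rw [up_y, up_y]

theorem ne_ev (hSTT : SpecSTT) (hD : IsDia (fg vt) bot W top) {k : ℕ} (hk : k < W.length) :
    W[k].1 ≠ W[k].2 := by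
  obtain ⟨q1, q2, q3, q4⟩ := hSTT.step hD.dia.nd hD.dia.run k hk
  intro h
  rw [h] at q1
  omega

theorem ov_iff (hPLN : SpecPLN) (hCYC : SpecCYC) (hSTT : SpecSTT) (hBLK : SpecBLK)
    (hD : IsDia (fg vt) bot W top) (hC : IsCyc (fg vt) C) {i j : ℕ}
    (hi : i < ((real vt bot W).poly vt C).length)
    (hj : j < ((real vt bot W).poly vt C).length) {s t : ℝ}
    (h : ov ((real vt bot W).poly vt C) ((real vt bot W).poly vt C) i j s t) :
    s = 1 / 2 ∧ t = 1 / 2 ∧ ∃ (k : ℕ) (hk : k < W.length), on (cv C) W[k].1 ∧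
      on (cv C) W[k].2 ∧ i = sn W.length C W[k].1 k ∧ j = sn W.length C W[k].2 k := by
  obtain ⟨h1, h2, h3, h4, h5, h6⟩ := h
  by_cases hij : i = j
  · exfalso
    subst hij
    have := same_seg hSTT hBLK hD hC hi h5
    subst this
    exact lt_irrefl _ h6
  · rcases pln' hPLN hCYC hD hC hi hj hij h1.le h2.le h3.le h4.le h5 with
      ⟨_, h7 | h7, _⟩ | ⟨h7, h8, k, hk, h9, h10, h11⟩
    · linarith
    · linarith
    · refine ⟨h7, h8, k, hk, h9, h10, ?_⟩
      rcases h11 with h11 | h11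
      · exact h11
      · exfalso
        obtain ⟨e1, e2⟩ := h11
        subst h7 h8
        rw [e1, e2, (pt_sn hCYC hC h9 hk).2, (pt_sn hCYC hC h10 hk).2, mid_z _ hk, mid_z _ hk,
          if_pos rfl, if_neg (ne_ev hSTT hD hk)] at h6
        linarith

theorem ov_of (hCYC : SpecCYC) (hSTT : SpecSTT)
    (hD : IsDia (fg vt) bot W top) (hC : IsCyc (fg vt) C) {k : ℕ} (hk : k < W.length)
    (h1 : on (cv C) W[k].1) (h2 : on (cv C) W[k].2) :
    ov ((real vt bot W).poly vt C) ((real vt bot W).poly vt C) (sn W.length C W[k].1 k)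
      (sn W.length C W[k].2 k) (1 / 2) (1 / 2) := by
  refine ⟨by norm_num, by norm_num, by norm_num, by norm_num, ?_, ?_⟩
  · rw [(pt_sn hCYC hC h1 hk).2, (pt_sn hCYC hC h2 hk).2]
    exact mid_xy hSTT hD hk
  · rw [(pt_sn hCYC hC h1 hk).2, (pt_sn hCYC hC h2 hk).2, mid_z _ hk, mid_z _ hk,
      if_pos rfl, if_neg (ne_ev hSTT hD hk)]
    norm_num

/-! ### Regularity -/

theorem nd_inj (hNOD : SpecNOD) (hD : IsDia (fg vt) bot W top) (hC : IsCyc (fg vt) C) {i j : ℕ}
    (hi : i < ((real vt bot W).poly vt C).length)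
    (hj : j < ((real vt bot W).poly vt C).length)
    (h : nd ((real vt bot W).poly vt C) i = nd ((real vt bot W).poly vt C) j) : i = j := by
  rw [specPIX.len] at hi hj
  obtain ⟨r, x, hr, hx, rfl⟩ := decomp _ hi
  obtain ⟨r', x', hr', hx', rfl⟩ := decomp _ hj
  rw [PIXM.nd_eq vt bot W C r hr x hx, PIXM.nd_eq vt bot W C r' hr' x' hx'] at h
  unfold PIXM.node at h
  have key : ∀ (s s' : Dart E) (j j' : ℕ), j ≤ 2 * W.length → j' ≤ 2 * W.length →
      Nd bot W s j = Nd bot W s' j' → s = s' ∧ j = j' := hNOD.ss vt bot top W hD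
  split_ifs at h with h1 h2 h3 h4 h5 h6 h7 h8
  · have h9 := hNOD.vv vt bot h
    have hnd := hC.ndv
    have h10 := (List.Nodup.getElem_inj_iff hnd (i := r) (j := r') (hi := by simpa using hr)
      (hj := by simpa using hr')).1 (by simpa [fg] using h9)
    subst h10
    omega
  · exact absurd h (hNOD.vs vt bot W _ _ _)
  · exact absurd h (hNOD.vs vt bot W _ _ _)
  · exact absurd h.symm (hNOD.vs vt bot W _ _ _)
  · obtain ⟨q1, q2⟩ := key _ _ _ _ (by omega) (by omega) h
    have h10 := edge_inj hC hr hr' (by rw [q1])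
    subst h10
    omega
  · obtain ⟨q1, q2⟩ := key _ _ _ _ (by omega) (by omega) h
    have h10 := edge_inj hC hr hr' (by rw [q1]; rfl)
    subst h10
    exact absurd q1 (ne_rv _)
  · exact absurd h.symm (hNOD.vs vt bot W _ _ _)
  · obtain ⟨q1, q2⟩ := key _ _ _ _ (by omega) (by omega) h
    have h10 := edge_inj hC hr hr' (by rw [← q1]; rfl)
    subst h10
    exact absurd q1 (rv_ne _)
  · obtain ⟨q1, q2⟩ := key _ _ _ _ (by omega) (by omega) h
    have h10 := edge_inj hC hr hr' (by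
      have := congrArg Prod.fst q1
      simpa [rv] using this)
    subst h10
    omega

theorem pt0 (P : List P3) (i : ℕ) : pt P i 0 = nd P i := by
  simp [pt]

theorem pt1 (P : List P3) (i : ℕ) : pt P i 1 = nd P (i + 1) := by
  simp [pt]

theorem nd_mod (P : List P3) (i : ℕ) : nd P (i % P.length) = nd P i := by
  unfold nd
  rw [Nat.mod_mod]

theorem reg (hPLN : SpecPLN) (hNOD : SpecNOD) (hCYC : SpecCYC) (hSTT : SpecSTT)
    (hD : IsDia (fg vt) bot W top) (hC : IsCyc (fg vt) C) :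
    Reg ((real vt bot W).poly vt C) := by
  constructor
  · intro i j hi hj hij hij' t ht0 ht1 h
    rw [← pt0] at h
    rcases pln' hPLN hCYC hD hC hi hj hij le_rfl zero_le_one ht0 ht1 h with
      ⟨h1, _, h2 | h2⟩ | ⟨h1, _⟩
    · subst h2
      rw [pt0, pt0] at h1
      exact hij (nd_inj hNOD hD hC hi hj h1)
    · subst h2
      rw [pt0, pt1, ← nd_mod _ (j + 1)] at h1
      exact hij' (nd_inj hNOD hD hC hi (Nat.mod_lt _ (by omega)) h1)
    · norm_num at h1
  · intro i j k hi hj hk hij hjk hik s t u hs0 hs1 ht0 ht1 hu0 hu1 ⟨h1, h2⟩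
    rcases pln' hPLN hCYC hD hC hi hj hij hs0.le hs1.le ht0.le ht1.le h1 with
      ⟨_, h7 | h7, _⟩ | ⟨_, _, a, ha, a1, a2, a3⟩
    · linarith
    · linarith
    rcases pln' hPLN hCYC hD hC hj hk hjk ht0.le ht1.le hu0.le hu1.le h2 with
      ⟨_, h7 | h7, _⟩ | ⟨_, _, b, hb, b1, b2, b3⟩
    · linarith
    · linarith
    have hea := ne_ev hSTT hD ha
    rcases a3 with ⟨e1, e2⟩ | ⟨e1, e2⟩ <;> rcases b3 with ⟨f1, f2⟩ | ⟨f1, f2⟩
    · obtain ⟨q1, q2⟩ := sn_inj hCYC hC a2 b1 ha hb (e2.symm.trans f1)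
      subst q2
      exact hea q1.symm
    · obtain ⟨q1, q2⟩ := sn_inj hCYC hC a2 b2 ha hb (e2.symm.trans f1)
      subst q2
      exact hik (e1.trans f2.symm)
    · obtain ⟨q1, q2⟩ := sn_inj hCYC hC a1 b1 ha hb (e2.symm.trans f1)
      subst q2
      exact hik (e1.trans f2.symm)
    · obtain ⟨q1, q2⟩ := sn_inj hCYC hC a1 b2 ha hb (e2.symm.trans f1)
      subst q2
      exact hea q1

/-! ### Counting -/

/-- the pattern -/
def Q (W : List (Dart E × Dart E)) (C : List (Dart E)) (k l : Fin W.length) : Prop :=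
  (on (cv C) (W.get k).1 ∧ on (cv C) (W.get k).2) ∧ (on (cv C) (W.get l).1 ∧ on (cv C) (W.get l).2) ∧
  sn W.length C (W.get k).1 k < sn W.length C (W.get l).2 l ∧
  sn W.length C (W.get l).2 l < sn W.length C (W.get k).2 k ∧
  sn W.length C (W.get k).2 k < sn W.length C (W.get l).1 l

instance (W : List (Dart E × Dart E)) (C : List (Dart E)) (k l : Fin W.length) :
    Decidable (Q W C k l) := by unfold Q; infer_instance

theorem pv_card (hPLN : SpecPLN) (hCYC : SpecCYC) (hSTT : SpecSTT) (hBLK : SpecBLK)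
    (hD : IsDia (fg vt) bot W top) (hC : IsCyc (fg vt) C) :
    pv ((real vt bot W).poly vt C) =
      ((Finset.univ : Finset (Fin W.length × Fin W.length)).filter fun x => Q W C x.1 x.2).card := by
  classical
  unfold pv
  symm
  refine Finset.card_bij (fun x _ => (sn W.length C (W.get x.1).1 x.1,
    sn W.length C (W.get x.1).2 x.1, sn W.length C (W.get x.2).1 x.2,
    sn W.length C (W.get x.2).2 x.2)) ?_ ?_ ?_
  · rintro ⟨k, l⟩ hx
    obtain ⟨⟨a1, a2⟩, ⟨b1, b2⟩, h1, h2, h3⟩ := (Finset.mem_filter.1 hx).2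
    refine Finset.mem_filter.2 ⟨?_, ?_⟩
    · simp only [Finset.mem_product, Finset.mem_range]
      exact ⟨(pt_sn hCYC hC a1 k.2).1, (pt_sn hCYC hC a2 k.2).1, (pt_sn hCYC hC b1 l.2).1,
        (pt_sn hCYC hC b2 l.2).1⟩
    · refine ⟨1 / 2, 1 / 2, 1 / 2, 1 / 2, ov_of hCYC hSTT hD hC k.2 a1 a2,
        ov_of hCYC hSTT hD hC l.2 b1 b2, Or.inl h1, Or.inl h2, Or.inl h3⟩
  · rintro ⟨k, l⟩ hx ⟨k', l'⟩ hx' h
    obtain ⟨⟨a1, a2⟩, ⟨b1, b2⟩, _⟩ := (Finset.mem_filter.1 hx).2
    obtain ⟨⟨a1', a2'⟩, ⟨b1', b2'⟩, _⟩ := (Finset.mem_filter.1 hx').2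
    simp only [Prod.mk.injEq] at h
    have e1 := (sn_inj hCYC hC a1 a1' k.2 k'.2 h.1).2
    have e2 := (sn_inj hCYC hC b1 b1' l.2 l'.2 h.2.2.1).2
    rw [Prod.mk.injEq]
    exact ⟨Fin.ext e1, Fin.ext e2⟩
  · rintro ⟨i, j, i', j'⟩ hx
    obtain ⟨hr, s, t, s', t', h1, h2, h3, h4, h5⟩ := Finset.mem_filter.1 hx
    simp only [Finset.mem_product, Finset.mem_range] at hr
    obtain ⟨r1, r2, r3, r4⟩ := hr
    obtain ⟨hs, ht, k, hk, k1, k2, k3, k4⟩ := ov_iff hPLN hCYC hSTT hBLK hD hC r1 r2 h1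
    obtain ⟨hs', ht', l, hl, l1, l2, l3, l4⟩ := ov_iff hPLN hCYC hSTT hBLK hD hC r3 r4 h2
    have lexlt : ∀ a b : ℕ, lex a (1 / 2) b (1 / 2) → a < b := by
      rintro a b (h | ⟨_, h⟩)
      · exact h
      · exact absurd h (lt_irrefl _)
    simp only at k3 k4 l3 l4 h3 h4 h5
    subst hs ht hs' ht'
    have g3 := lexlt _ _ h3
    have g4 := lexlt _ _ h4
    have g5 := lexlt _ _ h5
    rw [k3, l4] at g3
    rw [l4, k4] at g4
    rw [k4, l3] at g5
    refine ⟨(⟨k, hk⟩, ⟨l, hl⟩), ?_, ?_⟩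
    · rw [Finset.mem_filter]
      exact ⟨Finset.mem_univ _, ⟨k1, k2⟩, ⟨l1, l2⟩, g3, g4, g5⟩
    · simp only [List.get_eq_getElem]
      rw [← k3, ← k4, ← l3, ← l4]

theorem sum_pair {m : ℕ} (G : Fin m → Fin m → ZMod 2) (h0 : ∀ k, G k k = 0) :
    ∑ k, ∑ l, G k l = ∑ k, ∑ l, if k < l then G k l + G l k else 0 := by
  have h1 : ∀ k l, G k l = (if k < l then G k l else 0) + (if l < k then G k l else 0) := by
    intro k l
    rcases lt_trichotomy k l with h | h | h
    · rw [if_pos h, if_neg (not_lt.2 h.le), add_zero]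
    · subst h
      rw [if_neg (lt_irrefl _), h0, add_zero]
    · rw [if_pos h, if_neg (not_lt.2 h.le), zero_add]
  have h2 : ∑ k, ∑ l, G k l = ∑ k, ∑ l, (if k < l then G k l else 0) +
      ∑ k, ∑ l, (if l < k then G k l else 0) := by
    rw [← Finset.sum_add_distrib]
    refine Finset.sum_congr rfl fun k _ => ?_
    rw [← Finset.sum_add_distrib]
    exact Finset.sum_congr rfl fun l _ => h1 k l
  rw [h2, Finset.sum_comm (f := fun k l => if l < k then G k l else 0), ← Finset.sum_add_distrib]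
  refine Finset.sum_congr rfl fun k _ => ?_
  rw [← Finset.sum_add_distrib]
  refine Finset.sum_congr rfl fun l _ => ?_
  by_cases h : k < l
  · rw [if_pos h, if_pos h, if_pos h]
  · rw [if_neg h, if_neg h, if_neg h, add_zero]

theorem bet_eq (hCYC : SpecCYC) (hC : IsCyc (fg vt) C) (k l : Fin W.length) (hkl : k < l) :
    bet (cv C) (W.get k) (W.get l) =
      (if Q W C k l then 1 else 0) + (if Q W C l k then 1 else 0) := by
  unfold bet
  by_cases hon : on (cv C) (W.get k).1 ∧ on (cv C) (W.get k).2 ∧ on (cv C) (W.get l).1 ∧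
      on (cv C) (W.get l).2
  · rw [if_pos hon]
    obtain ⟨a1, a2, b1, b2⟩ := hon
    have e1 : Q W C k l ↔ l01 (cv C) (W.get k).1 (W.get l).2 ∧ l10 (cv C) (W.get l).2 (W.get k).2 ∧
        l01 (cv C) (W.get k).2 (W.get l).1 := by
      unfold Q
      rw [← sn_lt01 hCYC hC a1 b2 k.2 l.2 hkl, ← sn_lt10 hCYC hC b2 a2 k.2 l.2 hkl,
        ← sn_lt01 hCYC hC a2 b1 k.2 l.2 hkl]
      exact ⟨fun h => h.2.2, fun h => ⟨⟨a1, a2⟩, ⟨b1, b2⟩, h⟩⟩
    have e2 : Q W C l k ↔ l10 (cv C) (W.get l).1 (W.get k).2 ∧ l01 (cv C) (W.get k).2 (W.get l).2 ∧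
        l10 (cv C) (W.get l).2 (W.get k).1 := by
      unfold Q
      rw [← sn_lt10 hCYC hC b1 a2 k.2 l.2 hkl, ← sn_lt01 hCYC hC a2 b2 k.2 l.2 hkl,
        ← sn_lt10 hCYC hC b2 a1 k.2 l.2 hkl]
      exact ⟨fun h => h.2.2, fun h => ⟨⟨b1, b2⟩, ⟨a1, a2⟩, h⟩⟩
    simp only [e1, e2]
  · rw [if_neg hon, if_neg, if_neg, add_zero]
    · rintro ⟨⟨a1, a2⟩, ⟨b1, b2⟩, _⟩
      exact hon ⟨b1, b2, a1, a2⟩
    · rintro ⟨⟨a1, a2⟩, ⟨b1, b2⟩, _⟩
      exact hon ⟨a1, a2, b1, b2⟩

end main

end PVCM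

open PVCM in
theorem specPVC (hPSU : SpecPSU) (hBLK : SpecBLK) (hCYC : SpecCYC) (hSTT : SpecSTT)
    (hPLN : SpecPLN) (hNOD : SpecNOD) : SpecPVC := by
  intro V E _ _ _ _ vt bot top W hD C hC
  refine ⟨reg hPLN hNOD hCYC hSTT hD hC, ?_⟩
  rw [pv_card hPLN hCYC hSTT hBLK hD hC]
  unfold AW
  rw [hPSU.ixs, Finset.card_filter]
  push_cast
  rw [Fintype.sum_prod_type]
  rw [sum_pair (fun k l => if Q W C k l then (1 : ZMod 2) else 0)]
  · refine Finset.sum_congr rfl fun k _ => Finset.sum_congr rfl fun l _ => ?_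
    by_cases h : k < l
    · rw [if_pos h, if_pos h, bet_eq hCYC hC k l h]
    · rw [if_neg h, if_neg h]
  · intro k
    rw [if_neg]
    rintro ⟨_, _, _, h, _⟩
    exact lt_irrefl _ h

end Pool.Agent.Lib.MP3ff0f8.T
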