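import Pool.Agent.Lib.MP_3ff0f8_gt.T.Spec

section
/-!
# MP_3ff0f8_gt, topological half: module PAR

Adding an edge parallel to an edge of a good graph: the two strands of the edge are doubled.
-/
namespace Pool.Agent.Lib.MP3ff0f8.T

namespace PARM

/-! ## Words: replacing strands by lists of strands -/

section words

variable {S : Type}

/-- the word which exchanges `P` and `Q`, `P` over `Q` -/
def exO : List S → List S → List (S × S)
  | [], _ => []
  | s :: P, Q => exO P Q ++ Q.map fun t => (s, t)

theorem run_one (s : S) (Q : List S) : ∀ A : List S,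
    Run (A ++ s :: Q) (Q.map fun t => (s, t)) (A ++ Q ++ [s]) := by
  induction Q with
  | nil => intro A; simpa using Run.nil (A ++ [s])
  | cons t Q ih =>
    intro A
    have h := ih (A ++ [t])
    have h1 : A ++ [t] ++ s :: Q = A ++ t :: s :: Q := by simp
    have h2 : A ++ [t] ++ Q ++ [s] = A ++ t :: Q ++ [s] := by simp
    rw [h1, h2] at h
    exact Run.over A Q s t _ _ h

theorem run_exO (hRUN : SpecRUN) (P Q : List S) : Run (P ++ Q) (exO P Q) (Q ++ P) := by
  induction P with
  | nil => simpa [exO] using Run.nil Q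
  | cons s P ih =>
    have h1 := hRUN.ctx [s] [] ih
    have h2 := hRUN.ctx [] P (run_one s Q [])
    have h3 : [s] ++ (P ++ Q) ++ [] = s :: P ++ Q := by simp
    have h4 : [s] ++ (Q ++ P) ++ [] = s :: Q ++ P := by simp
    have h5 : [] ++ ([] ++ s :: Q) ++ P = s :: Q ++ P := by simp
    have h6 : [] ++ ([] ++ Q ++ [s]) ++ P = Q ++ s :: P := by simp
    rw [h3, h4] at h1
    rw [h5, h6] at h2
    exact hRUN.trans h1 h2

theorem filter_exO (p : S → Bool) (P Q : List S) :
    (exO P Q).filter (fun z => p z.1 && p z.2) = exO (P.filter p) (Q.filter p) := by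
  induction P with
  | nil => simp [exO]
  | cons s P ih =>
    simp only [exO, List.filter_append, ih]
    by_cases hs : p s = true
    · rw [List.filter_cons_of_pos hs]
      simp only [exO]
      congr 1
      rw [List.filter_map]
      congr 1
      apply List.filter_congr
      intro x _
      simp [hs]
    · rw [List.filter_cons_of_neg hs]
      rw [List.filter_map]
      have : Q.filter ((fun z : S × S => p z.1 && p z.2) ∘ fun t => (s, t)) = [] := by
        apply List.filter_eq_nil_iff.2
        intro x _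
        simp [hs]
      rw [this]
      simp

/-- replacing every strand `x` by the list of strands `g x` -/
theorem dblRun (hRUN : SpecRUN) (g : S → List S) {L L' : List S} {W : List (S × S)}
    (h : Run L W L') : ∃ W', Run (L.flatMap g) W' (L'.flatMap g) ∧
      ∀ (p : S → Bool) (ρ : S → S), (∀ x ∈ L, (g x).filter p = [ρ x]) →
        W'.filter (fun z => p z.1 && p z.2) = W.map (Prod.map ρ ρ) := by
  induction h
  · exact ⟨[], Run.nil _, by simp⟩
  · rename_i A B s t W L' h ih
    obtain ⟨W', h1, h2⟩ := ih
    refine ⟨exO (g s) (g t) ++ W', ?_, ?_⟩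
    · have h3 := hRUN.ctx (A.flatMap g) (B.flatMap g) (run_exO hRUN (g s) (g t))
      refine hRUN.trans ?_ h1
      simpa [List.flatMap_append, List.flatMap_cons] using h3
    · intro p ρ hp
      rw [List.filter_append, filter_exO, h2 p ρ (fun x hx => hp x (by
        simp only [List.mem_append, List.mem_cons] at hx ⊢; tauto))]
      rw [hp s (by simp), hp t (by simp)]
      simp [exO]
  · rename_i A B s t W L' h ih
    obtain ⟨W', h1, h2⟩ := ih
    refine ⟨(exO (g t) (g s)).reverse ++ W', ?_, ?_⟩
    · have h3 := hRUN.ctx (A.flatMap g) (B.flatMap g) (hRUN.rev (run_exO hRUN (g t) (g s)))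
      refine hRUN.trans ?_ h1
      simpa [List.flatMap_append, List.flatMap_cons] using h3
    · intro p ρ hp
      rw [List.filter_append, List.filter_reverse, filter_exO, h2 p ρ (fun x hx => hp x (by
        simp only [List.mem_append, List.mem_cons] at hx ⊢; tauto))]
      rw [hp s (by simp), hp t (by simp)]
      simp [exO]

theorem blk_aux {β : Type} (f : S → β) (g : S → List S) (v : β) : ∀ L : List S,
    (∀ x ∈ L, ∀ y ∈ g x, f y = f x) →
    (∀ b c : S, [b, c].Sublist L → f c = v → f b = v) →
    ∀ b c : S, [b, c].Sublist (L.flatMap g) → f c = v → f b = v := by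
  intro L
  induction L with
  | nil =>
    intro _ _ b c h
    simp at h
  | cons x L ih =>
    intro hg hL b c h hc
    rw [List.flatMap_cons, List.sublist_append_iff] at h
    obtain ⟨l₁, l₂, h0, h1, h2⟩ := h
    rcases l₁ with _ | ⟨a₁, _ | ⟨a₂, l₁⟩⟩
    · simp only [List.nil_append] at h0
      subst h0
      exact ih (fun y hy => hg y (List.mem_cons_of_mem _ hy))
        (fun b c h => hL b c (h.cons _)) b c h2 hc
    · simp only [List.cons_append, List.nil_append, List.cons.injEq] at h0
      obtain ⟨h3, h4⟩ := h0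
      subst h3
      subst h4
      have hb : f b = f x := hg x (by simp) b (h1.subset (by simp))
      have hc' : c ∈ L.flatMap g := h2.subset (by simp)
      rw [List.mem_flatMap] at hc'
      obtain ⟨y, hy, hcy⟩ := hc'
      have hcy' : f c = f y := hg y (List.mem_cons_of_mem _ hy) c hcy
      rw [hb]
      apply hL x y _ (by rw [← hcy', hc])
      exact List.Sublist.cons_cons _ (by simpa using hy)
    · simp only [List.cons_append, List.cons.injEq] at h0
      obtain ⟨h3, h4, _⟩ := h0
      subst h3
      subst h4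
      have hb : f b = f x := hg x (by simp) b (h1.subset (by simp))
      have hc' : f c = f x := hg x (by simp) c (h1.subset (by simp))
      rw [hb, ← hc', hc]

theorem blk_flatMap {β : Type} (f : S → β) (g : S → List S) : ∀ L : List S,
    (∀ x ∈ L, ∀ y ∈ g x, f y = f x) → Blocks f L → Blocks f (L.flatMap g) := by
  intro L
  induction L with
  | nil =>
    intro _ _ a b c h
    simp at h
  | cons x L ih =>
    intro hg hL a b c h hac
    have hL' : Blocks f L := fun a b c h => hL a b c (h.cons _)
    have hg' : ∀ y ∈ L, ∀ z ∈ g y, f z = f y := fun y hy => hg y (List.mem_cons_of_mem _ hy)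
    rw [List.flatMap_cons, List.sublist_append_iff] at h
    obtain ⟨l₁, l₂, h0, h1, h2⟩ := h
    rcases l₁ with _ | ⟨a₁, _ | ⟨a₂, l₁⟩⟩
    · simp only [List.nil_append] at h0
      subst h0
      exact ih hg' hL' a b c h2 hac
    · simp only [List.cons_append, List.nil_append, List.cons.injEq] at h0
      obtain ⟨h3, h4⟩ := h0
      subst h3
      subst h4
      have ha : f a = f x := hg x (by simp) a (h1.subset (by simp))
      rw [ha]
      refine blk_aux f g (f x) L hg' ?_ b c h2 (by rw [← hac, ha])
      intro b' c' h' hc'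
      exact hL x b' c' (List.Sublist.cons_cons _ h') hc'.symm
    · simp only [List.cons_append, List.cons.injEq] at h0
      obtain ⟨h3, h4, _⟩ := h0
      subst h3
      subst h4
      have ha : f a = f x := hg x (by simp) a (h1.subset (by simp))
      have hb : f b = f x := hg x (by simp) b (h1.subset (by simp))
      rw [ha, hb]

variable [DecidableEq S]

theorem idxOf_map_inj {f : S → S} (hf : Function.Injective f) (p : S) (l : List S) :
    (l.map f).idxOf (f p) = l.idxOf p := by
  induction l with
  | nil => rfl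
  | cons a l ih =>
    rw [List.map_cons, List.idxOf_cons, List.idxOf_cons, ih]
    by_cases h : a = p
    · subst h; simp
    · have h' : f a ≠ f p := fun h' => h (hf h')
      have h1 : (a == p) = false := by simpa using h
      have h2 : (f a == f p) = false := by simpa using h'
      rw [h1, h2]

omit [DecidableEq S] in
theorem fst_map (f : S → S) (q : List (S × Bool)) :
    (q.map (Prod.map f id)).map Prod.fst = (q.map Prod.fst).map f := by
  rw [List.map_map, List.map_map]
  rfl

omit [DecidableEq S] in
theorem on_map {f : S → S} (hf : Function.Injective f) (q : List (S × Bool)) (p : S) :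
    on (q.map (Prod.map f id)) (f p) ↔ on q p := by
  unfold on
  rw [fst_map]
  exact List.mem_map_of_injective hf

theorem idx_map {f : S → S} (hf : Function.Injective f) (q : List (S × Bool)) (p : S) :
    idx (q.map (Prod.map f id)) (f p) = idx q p := by
  unfold idx
  rw [fst_map]
  exact idxOf_map_inj hf p _

omit [DecidableEq S] in
theorem mem_map_pair {f : S → S} (hf : Function.Injective f) (q : List (S × Bool)) (p : S)
    (b : Bool) : (f p, b) ∈ q.map (Prod.map f id) ↔ (p, b) ∈ q := by
  have h : Function.Injective (Prod.map f (id : Bool → Bool)) := hf.prodMap Function.injective_id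
  have := List.mem_map_of_injective (l := q) (a := (p, b)) h
  simpa using this

theorem l01_map {f : S → S} (hf : Function.Injective f) (q : List (S × Bool)) (p r : S) :
    l01 (q.map (Prod.map f id)) (f p) (f r) ↔ l01 q p r := by
  unfold l01
  rw [idx_map hf, idx_map hf, mem_map_pair hf, hf.eq_iff]

theorem l10_map {f : S → S} (hf : Function.Injective f) (q : List (S × Bool)) (p r : S) :
    l10 (q.map (Prod.map f id)) (f p) (f r) ↔ l10 q p r := by
  unfold l10
  rw [idx_map hf, idx_map hf, mem_map_pair hf, hf.eq_iff]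

theorem bet_map {f : S → S} (hf : Function.Injective f) (q : List (S × Bool)) (z w : S × S) :
    bet (q.map (Prod.map f id)) (Prod.map f f z) (Prod.map f f w) = bet q z w := by
  unfold bet
  simp only [Prod.map_fst, Prod.map_snd, on_map hf, l01_map hf, l10_map hf]

end words

/-! ## Exchanging two parallel edges -/

section tau

variable {V E : Type}

theorem rv_rv (d : Dart E) : rv (rv d) = d := by
  unfold rv; simp

theorem rv_ne (d : Dart E) : rv d ≠ d := by
  rcases d with ⟨e, b⟩
  unfold rv
  cases b <;> simp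

theorem eq_or {x d : Dart E} (h : x.1 = d.1) : x = d ∨ x = rv d := by
  rcases x with ⟨x1, x2⟩
  rcases d with ⟨d1, d2⟩
  simp only at h
  subst h
  unfold rv
  cases x2 <;> cases d2 <;> simp

variable [DecidableEq E]

/-- exchange of `d` and `d'`, `rv d` and `rv d'` -/
def tau (d d' x : Dart E) : Dart E :=
  if x.1 = d.1 then (d'.1, xor x.2 (xor d.2 d'.2))
  else if x.1 = d'.1 then (d.1, xor x.2 (xor d.2 d'.2)) else x

theorem tau_fst (d d' x : Dart E) : (tau d d' x).1 = Equiv.swap d.1 d'.1 x.1 := by
  unfold tau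
  rw [Equiv.swap_apply_def]
  split_ifs <;> rfl

theorem tau_d (d d' : Dart E) : tau d d' d = d' := by
  unfold tau
  rw [if_pos rfl]
  rcases d with ⟨d1, d2⟩
  rcases d' with ⟨e1, e2⟩
  cases d2 <;> cases e2 <;> rfl

theorem tau_rv (d d' x : Dart E) : tau d d' (rv x) = rv (tau d d' x) := by
  have h : (rv x).1 = x.1 := rfl
  unfold tau
  rw [h]
  split_ifs
  · unfold rv
    simp
  · unfold rv
    simp
  · rfl

theorem tau_tau (d d' x : Dart E) : tau d d' (tau d d' x) = x := by
  rcases x with ⟨x1, x2⟩
  rcases d with ⟨d1, d2⟩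
  rcases d' with ⟨e1, e2⟩
  unfold tau
  simp only
  by_cases h1 : x1 = d1
  · subst h1
    simp only [if_true]
    by_cases h2 : e1 = x1
    · subst h2
      simp only [if_true]
      cases x2 <;> cases d2 <;> cases e2 <;> rfl
    · simp only [h2, if_false]
      cases x2 <;> cases d2 <;> cases e2 <;> rfl
  · by_cases h2 : x1 = e1
    · subst h2
      simp only [h1, if_false, if_true]
      cases x2 <;> cases d2 <;> cases e2 <;> rfl
    · simp only [h1, h2, if_false]

theorem tau_inj (d d' : Dart E) : Function.Injective (tau d d') := by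
  intro x y h
  rw [← tau_tau d d' x, h, tau_tau]

theorem tau_other {d d' x : Dart E} (h : x.1 ≠ d.1) (h' : x.1 ≠ d'.1) : tau d d' x = x := by
  unfold tau
  rw [if_neg h, if_neg h']

theorem vt_tau {G : Gr V E} {d d' : Dart E} (h1 : G.vt d = G.vt d')
    (h2 : G.vt (rv d) = G.vt (rv d')) (x : Dart E) : G.vt (tau d d' x) = G.vt x := by
  by_cases hx : x.1 = d.1
  · rcases eq_or hx with h | h
    · rw [h, tau_d, h1]
    · rw [h, tau_rv, tau_d, h2]
  · by_cases hx' : x.1 = d'.1
    · rcases eq_or hx' with h | h
      · rw [h]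
        have : tau d d' d' = d := by
          have := tau_tau d d' d
          rwa [tau_d] at this
        rw [this, h1]
      · rw [h, tau_rv]
        have : tau d d' d' = d := by
          have := tau_tau d d' d
          rwa [tau_d] at this
        rw [this, h2]
    · rw [tau_other hx hx']

theorem cyc_tau {G : Gr V E} {d d' : Dart E} (hd : d.1 ∈ G.X) (hd' : d'.1 ∈ G.X)
    (h1 : G.vt d = G.vt d') (h2 : G.vt (rv d) = G.vt (rv d')) {c : List (Dart E)}
    (hc : IsCyc G c) : IsCyc G (c.map (tau d d')) := by
  have hv : (c.map (tau d d')).map G.vt = c.map G.vt := by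
    rw [List.map_map]
    apply List.map_congr_left
    intro x _
    exact vt_tau h1 h2 x
  refine ⟨?_, ?_, ?_, ?_, ?_⟩
  · intro h
    exact hc.ne (List.map_eq_nil_iff.1 h)
  · intro y hy
    rw [List.mem_map] at hy
    obtain ⟨x, hx, rfl⟩ := hy
    unfold tau
    split_ifs
    · exact hd'
    · exact hd
    · exact hc.mem x hx
  · have : (c.map (tau d d')).map Prod.fst = (c.map Prod.fst).map (Equiv.swap d.1 d'.1) := by
      rw [List.map_map, List.map_map]
      apply List.map_congr_left
      intro x _
      exact tau_fst d d' x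
    rw [this]
    exact hc.nde.map (Equiv.injective _)
  · rw [hv]
    exact hc.ndv
  · rw [hv, List.map_map, ← hc.cl]
    apply List.map_congr_left
    intro x _
    show G.vt (rv (tau d d' x)) = G.vt (rv x)
    rw [← tau_rv]
    exact vt_tau h1 h2 _

theorem cv_tau (d d' : Dart E) (c : List (Dart E)) :
    (cv (c.map (tau d d'))).map (Prod.map (tau d d') id) = cv c := by
  unfold cv
  rw [List.map_flatMap, List.flatMap_map]
  apply List.flatMap_congr
  intro x _
  simp [tau_rv, tau_tau]

/-- doubling of the strands `d` and `rv d` -/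
def dbl (d d' x : Dart E) : List (Dart E) := if x.1 = d.1 then [x, tau d d' x] else [x]

theorem mem_dbl {d d' x y : Dart E} : y ∈ dbl d d' x ↔ y = x ∨ (x.1 = d.1 ∧ y = tau d d' x) := by
  unfold dbl
  split_ifs with h
  · simp [h]
  · simp [h]

end tau

/-! ## Cycles -/

section cyc

variable {V E : Type} {G : Gr V E}

/-- a cycle through two parallel edges consists of these two edges -/
theorem two_edges {l : List (Dart E)} (hc : IsCyc G l) {x y : Dart E} (hx : x ∈ l) (hy : y ∈ l)
    (hxy : G.vt (rv x) = G.vt y) (hyx : G.vt (rv y) = G.vt x) : ∀ z ∈ l, z = x ∨ z = y := by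
  have step : ∀ i (hi : i < l.length) j (hj : j < l.length), G.vt (rv l[i]) = G.vt l[j] →
      (i + 1) % l.length = j := by
    intro i hi j hj h
    have h2 : (l.map fun d => G.vt (rv d))[i]'(by simpa using hi) =
        ((l.map G.vt).rotate 1)[i]'(by simpa using hi) := by
      congr 1
      exact hc.cl
    rw [List.getElem_rotate] at h2
    have h3 : (l.map fun d => G.vt (rv d))[i]'(by simpa using hi) = G.vt (rv l[i]) := by simp
    have h4 : (l.map G.vt)[j]'(by simpa using hj) = G.vt l[j] := by simp
    rw [h3, h, ← h4] at h2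
    have h5 := (hc.ndv.getElem_inj_iff).1 h2
    rw [List.length_map] at h5
    exact h5.symm
  obtain ⟨i, hi, hix⟩ := List.getElem_of_mem hx
  obtain ⟨j, hj, hjy⟩ := List.getElem_of_mem hy
  have h1 := step i hi j hj (by rw [hix, hjy]; exact hxy)
  have h2 := step j hj i hi (by rw [hix, hjy]; exact hyx)
  have hn : l.length ≤ 2 := by
    by_contra hcon
    push Not at hcon
    rcases Nat.lt_or_ge (i + 1) l.length with h5 | h5
    · rw [Nat.mod_eq_of_lt h5] at h1
      rcases Nat.lt_or_ge (j + 1) l.length with h6 | h6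
      · rw [Nat.mod_eq_of_lt h6] at h2
        omega
      · have h7 : j + 1 = l.length := by omega
        rw [h7, Nat.mod_self] at h2
        omega
    · have h6 : i + 1 = l.length := by omega
      rw [h6, Nat.mod_self] at h1
      rw [Nat.mod_eq_of_lt (by omega)] at h2
      omega
  intro z hz
  obtain ⟨k, hk, hkz⟩ := List.getElem_of_mem hz
  have hk' : k = i ∨ k = j := by
    rcases Nat.lt_or_ge (i + 1) l.length with h5 | h5
    · rw [Nat.mod_eq_of_lt h5] at h1
      omega
    · have h6 : i + 1 = l.length := by omega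
      rw [h6, Nat.mod_self] at h1
      omega
  rcases hk' with h | h
  · subst h
    left
    rw [← hkz, hix]
  · subst h
    right
    rw [← hkz, hjy]

end cyc

/-! ## The construction -/

theorem core (hPSU : SpecPSU) (hRUN : SpecRUN) (hBLK : SpecBLK) (hCYC : SpecCYC) (hBAS : SpecBAS)
    (hGAD : SpecGAD) {V E : Type} [DecidableEq V] [DecidableEq E] {G : Gr V E} {d d' : Dart E}
    (hL : Loopless G) (hdX : d.1 ∈ G.X) (hdX' : d'.1 ∈ G.X) (hne : d.1 ≠ d'.1)
    (h1 : G.vt d = G.vt d') (h2 : G.vt (rv d) = G.vt (rv d')) {bot A B : List (Dart E)}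
    {W : List (Dart E × Dart E)}
    (hdia : IsDia (G.res (G.X.erase d'.1)) bot W (A ++ d :: rv d :: B))
    (hval : ∀ c, IsCyc (G.res (G.X.erase d'.1)) c → AW (cv c) W = 0) : Good G := by
  obtain ⟨W', hW1, hW2⟩ := dblRun hRUN (dbl d d') hdia.dia.run
  have hmb : ∀ x, x ∈ bot ↔ x.1 ∈ G.X.erase d'.1 := hdia.mb
  have htn : (A ++ d :: rv d :: B).Nodup := (hRUN.perm hdia.dia.run).nodup_iff.1 hdia.dia.nd
  have htm : ∀ x ∈ A ++ d :: rv d :: B, x.1 ∈ G.X.erase d'.1 := by
    intro x hx
    exact (hmb x).1 ((hRUN.perm hdia.dia.run).mem_iff.2 hx)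
  have hA1 : ∀ x ∈ A, x.1 ≠ d.1 := by
    intro x hx hxd
    rw [List.nodup_append] at htn
    rcases eq_or hxd with h | h
    · exact htn.2.2 x hx d (by simp) h
    · exact htn.2.2 x hx (rv d) (by simp) h
  have hB1 : ∀ x ∈ B, x.1 ≠ d.1 := by
    intro x hx hxd
    rw [List.nodup_append] at htn
    have h3 := htn.2.1
    rw [List.nodup_cons, List.nodup_cons] at h3
    rcases eq_or hxd with h | h
    · subst h
      exact h3.1 (List.mem_cons_of_mem _ hx)
    · subst h
      exact h3.2.1 hx
  have hid : ∀ L : List (Dart E), (∀ x ∈ L, x.1 ≠ d.1) → L.flatMap (dbl d d') = L := by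
    intro L hL
    induction L with
    | nil => rfl
    | cons x L ih =>
      rw [List.flatMap_cons, ih (fun y hy => hL y (List.mem_cons_of_mem _ hy))]
      unfold dbl
      rw [if_neg (hL x (by simp))]
      rfl
  have htop : (A ++ d :: rv d :: B).flatMap (dbl d d') = A ++ d :: d' :: rv d :: rv d' :: B := by
    rw [List.flatMap_append, List.flatMap_cons, List.flatMap_cons, hid A hA1, hid B hB1]
    have h3 : dbl d d' d = [d, d'] := by
      unfold dbl
      rw [if_pos rfl, tau_d]
    have h4 : dbl d d' (rv d) = [rv d, rv d'] := by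
      unfold dbl
      rw [if_pos (show (rv d).1 = d.1 from rfl), tau_rv, tau_d]
    rw [h3, h4]
    simp
  rw [htop] at hW1
  have hrun : Run (bot.flatMap (dbl d d')) (W' ++ [(d', rv d)])
      (A ++ [d, rv d] ++ [d', rv d'] ++ B) := by
    refine hRUN.trans hW1 ?_
    have h3 : A ++ d :: d' :: rv d :: rv d' :: B = (A ++ [d]) ++ d' :: rv d :: (rv d' :: B) := by
      simp
    have h4 : A ++ [d, rv d] ++ [d', rv d'] ++ B = (A ++ [d]) ++ rv d :: d' :: (rv d' :: B) := by
      simp
    rw [h3, h4]
    exact Run.over _ _ _ _ _ _ (Run.nil _)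
  have hD : IsDia G (bot.flatMap (dbl d d')) (W' ++ [(d', rv d)])
      (A ++ [d, rv d] ++ [d', rv d'] ++ B) := by
    refine ⟨?_, ?_, ?_, ?_, hrun⟩
    · intro x
      rw [List.mem_flatMap]
      constructor
      · rintro ⟨y, hy, hxy⟩
        rw [mem_dbl] at hxy
        rcases hxy with h | ⟨h3, h4⟩
        · rw [h]
          exact Finset.mem_of_mem_erase ((hmb y).1 hy)
        · rw [h4]
          unfold tau
          rw [if_pos h3]
          exact hdX'
      · intro hx
        by_cases hxd : x.1 = d'.1
        · refine ⟨tau d d' x, ?_, ?_⟩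
          · rw [hmb, tau_fst, hxd, Equiv.swap_apply_right]
            exact Finset.mem_erase.2 ⟨hne, hdX⟩
          · rw [mem_dbl, tau_tau, tau_fst, hxd, Equiv.swap_apply_right]
            exact Or.inr ⟨rfl, rfl⟩
        · refine ⟨x, (hmb x).2 (Finset.mem_erase.2 ⟨hxd, hx⟩), ?_⟩
          rw [mem_dbl]
          exact Or.inl rfl
    · rw [List.nodup_flatMap]
      refine ⟨?_, ?_⟩
      · intro x hx
        unfold dbl
        split_ifs with h
        · rw [List.nodup_cons, List.mem_singleton]
          refine ⟨?_, List.nodup_singleton _⟩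
          intro h3
          have h4 : (tau d d' x).1 = d'.1 := by
            rw [tau_fst, h, Equiv.swap_apply_left]
          rw [← h3, h] at h4
          exact hne h4
        · exact List.nodup_singleton _
      · refine (List.Pairwise.and_mem.1 hdia.dia.nd).imp ?_
        rintro x y ⟨hx, hy, hxy⟩
        rw [Function.onFun, List.disjoint_left]
        intro z hzx hzy
        rw [mem_dbl] at hzx hzy
        have hx' := Finset.ne_of_mem_erase ((hmb x).1 hx)
        have hy' := Finset.ne_of_mem_erase ((hmb y).1 hy)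
        rcases hzx with h3 | ⟨h3, h4⟩
        · rcases hzy with h5 | ⟨h5, h6⟩
          · exact hxy (h3.symm.trans h5)
          · apply hx'
            rw [← h3, h6, tau_fst, h5, Equiv.swap_apply_left]
        · rcases hzy with h5 | ⟨h5, h6⟩
          · apply hy'
            rw [← h5, h4, tau_fst, h3, Equiv.swap_apply_left]
          · exact hxy (tau_inj d d' (h4.symm.trans h6))
    · apply blk_flatMap
      · intro x _ y hy
        rw [mem_dbl] at hy
        rcases hy with h | ⟨_, h⟩
        · rw [h]
        · rw [h]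
          exact vt_tau h1 h2 x
      · exact hdia.dia.bb
    · apply hBLK.ins _ _ _ _ d'.1
      · have h3 : A ++ [d, rv d] ++ B = A ++ d :: rv d :: B := by simp
        rw [h3]
        exact hdia.dia.tt
      · intro x hx y hy hxy
        have hyB := hB1 y hy
        rw [List.mem_append] at hx
        rcases hx with hx | hx
        · have h3 : [x, d, y].Sublist (A ++ d :: rv d :: B) := by
            have h4 : [x].Sublist A := by simpa using hx
            have h5 : [d, y].Sublist (d :: rv d :: B) := by
              apply List.Sublist.cons_cons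
              apply List.Sublist.cons
              simpa using hy
            exact h4.append h5
          have h4 := hdia.dia.tt x d y h3 hxy
          exact hA1 x hx h4.symm
        · have h3 : x.1 = d.1 := by
            simp only [List.mem_cons, List.not_mem_nil, or_false] at hx
            rcases hx with hx | hx
            · rw [hx]
            · rw [hx]; rfl
          exact hyB (hxy.symm.trans h3)
      · intro x hx
        simp only [List.mem_cons, List.not_mem_nil, or_false] at hx
        rcases hx with hx | hx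
        · rw [hx]
        · rw [hx]; rfl
      · intro x hx
        rw [List.mem_append] at hx
        rcases hx with hx | hx
        · exact Finset.ne_of_mem_erase (htm x (List.mem_append_left _ hx))
        · simp only [List.mem_cons, List.not_mem_nil, or_false] at hx
          rcases hx with hx | hx
          · rw [hx]; exact hne
          · rw [hx]; exact hne
      · intro x hx
        exact Finset.ne_of_mem_erase (htm x (by simp [hx]))
  have hsel : ∀ (c : List (Dart E)) (e : E), e ∉ c.map Prod.fst → (d.1 = e ∨ d'.1 = e) →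
      AW (cv c) (W' ++ [(d', rv d)]) =
        ps (bet (cv c)) (W'.filter fun z => decide (z.1.1 ≠ e) && decide (z.2.1 ≠ e)) := by
    intro c e he hde
    have h3 := hPSU.fil (bet (cv c)) (fun z => decide (z.1.1 ≠ e) && decide (z.2.1 ≠ e))
      (W' ++ [(d', rv d)]) (by
        intro z _ w _ h
        have hoff : ∀ s : Dart E, s.1 = e → ¬ on (cv c) s := by
          intro s hs
          rw [hCYC.on, hs]
          exact he
        unfold bet
        rw [if_neg]
        rintro ⟨a1, a2, a3, a4⟩
        rcases h with h | h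
        · simp only [Bool.and_eq_false_iff, decide_eq_false_iff_not, not_not] at h
          rcases h with h | h
          · exact hoff _ h a1
          · exact hoff _ h a2
        · simp only [Bool.and_eq_false_iff, decide_eq_false_iff_not, not_not] at h
          rcases h with h | h
          · exact hoff _ h a3
          · exact hoff _ h a4)
    unfold AW
    rw [← h3, List.filter_append]
    congr 1
    rw [List.filter_cons_of_neg, List.filter_nil, List.append_nil]
    simp only [Bool.and_eq_true, decide_eq_true_eq]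
    rintro ⟨a1, a2⟩
    rcases hde with h | h
    · exact a2 h
    · exact a1 h
  have hc0 : IsCyc G [d, rv d'] := by
    refine ⟨by simp, ?_, ?_, ?_, ?_⟩
    · intro x hx
      simp only [List.mem_cons, List.not_mem_nil, or_false] at hx
      rcases hx with hx | hx
      · rw [hx]; exact hdX
      · rw [hx]; exact hdX'
    · simp only [List.map_cons, List.map_nil, List.nodup_cons, List.mem_singleton,
        List.not_mem_nil, not_false_iff, List.nodup_nil, and_true]
      exact hne
    · simp only [List.map_cons, List.map_nil, List.nodup_cons, List.mem_singleton,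
        List.not_mem_nil, not_false_iff, List.nodup_nil, and_true]
      rw [← h2]
      exact hL d hdX
    · simp only [List.map_cons, List.map_nil, rv_rv]
      rw [h2, ← h1]
      rfl
  have hzero : ∀ c, IsCyc G c → (d'.1 ∉ c.map Prod.fst ∨ d.1 ∉ c.map Prod.fst) →
      AW (cv c) (W' ++ [(d', rv d)]) = 0 := by
    intro c hc hor
    by_cases h3 : d'.1 ∈ c.map Prod.fst
    · have h4 : d.1 ∉ c.map Prod.fst := hor.resolve_left (fun h => h h3)
      rw [hsel c d.1 h4 (Or.inl rfl)]
      have h5 := hW2 (fun x => decide (x.1 ≠ d.1)) (tau d d') (by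
        intro x hx
        have hx' := Finset.ne_of_mem_erase ((hmb x).1 hx)
        unfold dbl
        split_ifs with h
        · have h6 : (tau d d' x).1 = d'.1 := by
            rw [tau_fst, h, Equiv.swap_apply_left]
          rw [List.filter_cons_of_neg (by simp [h]), List.filter_cons_of_pos (by
            simp only [h6, decide_eq_true_eq]; exact hne.symm), List.filter_nil]
        · rw [List.filter_cons_of_pos (by simpa using h), List.filter_nil, tau_other h hx'])
      have h6 : (W'.filter fun z => decide (z.1.1 ≠ d.1) && decide (z.2.1 ≠ d.1)) =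
          W.map (Prod.map (tau d d') (tau d d')) := h5
      rw [h6, hPSU.map]
      have h7 : IsCyc (G.res (G.X.erase d'.1)) (c.map (tau d d')) := by
        rw [hCYC.res (Finset.erase_subset _ _)]
        refine ⟨cyc_tau hdX hdX' h1 h2 hc, ?_⟩
        intro y hy
        have hy2 := (cyc_tau hdX hdX' h1 h2 hc).mem y hy
        rw [Finset.mem_erase]
        refine ⟨?_, hy2⟩
        rw [List.mem_map] at hy
        obtain ⟨x, hx, rfl⟩ := hy
        rw [tau_fst]
        intro h8
        apply h4
        rw [List.mem_map]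
        refine ⟨x, hx, ?_⟩
        have := congrArg (Equiv.swap d.1 d'.1) h8
        rw [Equiv.swap_apply_self, Equiv.swap_apply_right] at this
        exact this
      have h8 := hval _ h7
      unfold AW at h8
      rw [← h8]
      apply hPSU.cgr
      intro z _ w _
      have h9 := bet_map (tau_inj d d') (cv (c.map (tau d d'))) z w
      rw [cv_tau] at h9
      exact h9
    · rw [hsel c d'.1 h3 (Or.inr rfl)]
      have h5 := hW2 (fun x => decide (x.1 ≠ d'.1)) id (by
        intro x hx
        have hx' := Finset.ne_of_mem_erase ((hmb x).1 hx)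
        unfold dbl
        split_ifs with h
        · have h6 : (tau d d' x).1 = d'.1 := by
            rw [tau_fst, h, Equiv.swap_apply_left]
          rw [List.filter_cons_of_pos (by simpa using hx'), List.filter_cons_of_neg (by
            simp [h6]), List.filter_nil]
          rfl
        · rw [List.filter_cons_of_pos (by simpa using hx'), List.filter_nil]
          rfl)
      have h6 : (W'.filter fun z => decide (z.1.1 ≠ d'.1) && decide (z.2.1 ≠ d'.1)) = W := by
        have h7 : (W'.filter fun z => decide (z.1.1 ≠ d'.1) && decide (z.2.1 ≠ d'.1)) =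
          W.map (Prod.map id id) := h5
        rw [h7]
        simp
      rw [h6]
      apply hval
      rw [hCYC.res (Finset.erase_subset _ _)]
      refine ⟨hc, ?_⟩
      intro x hx
      rw [Finset.mem_erase]
      refine ⟨?_, hc.mem x hx⟩
      intro h7
      apply h3
      rw [List.mem_map]
      exact ⟨x, hx, h7⟩
  apply hGAD hL hD
  refine ⟨AW (cv [d, rv d']) (W' ++ [(d', rv d)]) • fun c => xe d.1 c * xe d'.1 c * xe d'.1 c,
    ?_, ?_⟩
  · apply Submodule.smul_mem
    apply Submodule.subset_span
    left
    exact ⟨d.1, hdX, d'.1, hdX', d'.1, hdX', rfl⟩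
  · intro c hc
    simp only [Pi.smul_apply, smul_eq_mul]
    by_cases h3 : d.1 ∈ c.map Prod.fst
    · by_cases h4 : d'.1 ∈ c.map Prod.fst
      · have hxe1 : xe d.1 c = 1 := by unfold xe; rw [if_pos h3]
        have hxe2 : xe d'.1 c = 1 := by unfold xe; rw [if_pos h4]
        rw [hxe1, hxe2, mul_one, mul_one, mul_one]
        apply hBAS.same hD hc0 hc
        obtain ⟨x, hx, hxd⟩ := List.mem_map.1 h3
        obtain ⟨y, hy, hyd⟩ := List.mem_map.1 h4
        have hxy : x ≠ y := by
          intro h
          rw [h, hyd] at hxd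
          exact hne hxd.symm
        have hvne : G.vt x ≠ G.vt y := fun h => hxy (List.inj_on_of_nodup_map hc.ndv hx hy h)
        have key : G.vt (rv x) = G.vt y ∧ G.vt (rv y) = G.vt x := by
          rcases eq_or hxd with hx1 | hx1
          · rcases eq_or hyd with hy1 | hy1
            · exfalso
              apply hvne
              rw [hx1, hy1, h1]
            · rw [hx1, hy1, rv_rv]
              exact ⟨h2, h1.symm⟩
          · rcases eq_or hyd with hy1 | hy1
            · rw [hx1, hy1, rv_rv]
              exact ⟨h1, h2.symm⟩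
            · exfalso
              apply hvne
              rw [hx1, hy1, h2]
        have hall := two_edges hc hx hy key.1 key.2
        intro e
        constructor
        · intro he
          simp only [List.map_cons, List.map_nil, List.mem_cons, List.not_mem_nil,
            or_false] at he
          rcases he with he | he
          · rw [he]; exact h3
          · rw [he]; exact h4
        · intro he
          obtain ⟨z, hz, rfl⟩ := List.mem_map.1 he
          simp only [List.map_cons, List.map_nil, List.mem_cons, List.not_mem_nil, or_false]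
          rcases hall z hz with h | h
          · left
            rw [h, hxd]
          · right
            rw [h, hyd]
            rfl
      · have hxe2 : xe d'.1 c = 0 := by unfold xe; rw [if_neg h4]
        rw [hxe2, mul_zero, mul_zero]
        exact hzero c hc (Or.inl h4)
    · have hxe1 : xe d.1 c = 0 := by unfold xe; rw [if_neg h3]
      rw [hxe1, zero_mul, zero_mul, mul_zero]
      exact hzero c hc (Or.inr h3)

end PARM

open PARM in
theorem specPAR (hPSU : SpecPSU) (hRUN : SpecRUN) (hBLK : SpecBLK) (hCYC : SpecCYC)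
    (hBAS : SpecBAS) (hGAD : SpecGAD) : SpecPAR := by
  intro V E _ _ G d d' hL hdX hdX' hne h1 h2 hgood
  obtain ⟨bot, W, top, hdia, hval⟩ := hgood
  have hmb : ∀ x, x ∈ bot ↔ x.1 ∈ G.X.erase d'.1 := hdia.mb
  have hperm := hRUN.perm hdia.dia.run
  have hd : d ∈ top := by
    rw [← hperm.mem_iff, hmb]
    exact Finset.mem_erase.2 ⟨hne, hdX⟩
  have hr : rv d ∈ top := by
    rw [← hperm.mem_iff, hmb]
    exact Finset.mem_erase.2 ⟨hne, hdX⟩
  obtain ⟨A, B, h | h⟩ := hBLK.adj Prod.fst top d (rv d) (hperm.nodup_iff.1 hdia.dia.nd)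
    hdia.dia.tt hd hr (rv_ne d).symm rfl (fun x _ hx => eq_or hx)
  · rw [h] at hdia
    exact core hPSU hRUN hBLK hCYC hBAS hGAD hL hdX hdX' hne h1 h2 hdia hval
  · rw [h] at hdia
    have h3 : IsDia (G.res (G.X.erase (rv d').1)) bot W (A ++ rv d :: rv (rv d) :: B) := by
      rw [rv_rv]
      exact hdia
    refine core hPSU hRUN hBLK hCYC hBAS hGAD (d := rv d) (d' := rv d') hL hdX hdX' hne h2 ?_ h3
      hval
    rw [rv_rv, rv_rv]
    exact h1

end Pool.Agent.Lib.MP3ff0f8.T
end

section
/-!
Module PIX: index bookkeeping for the polygon of a cycle in the realisation.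
-/
set_option autoImplicit false

namespace Pool.Agent.Lib.MP3ff0f8.T

namespace PIXM

variable {V E : Type} [Fintype V] [DecidableEq V] [DecidableEq E]

theorem dn_eq (vt : Dart E → V) (bot : List (Dart E)) (W : List (Dart E × Dart E)) (d : Dart E) :
    (real vt bot W).dn vt d = vxr vt bot (vt d) ::
      ((List.range (2 * W.length + 1)).map (Nd bot W d) ++
       (List.range (2 * W.length + 1)).reverse.map (Nd bot W (rv d))) := by
  obtain ⟨e, b⟩ := d
  cases b
  · simp [Emb.dn, real, rv]
  · simp [Emb.dn, real, rv, List.map_reverse]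

theorem dn_len (vt : Dart E → V) (bot : List (Dart E)) (W : List (Dart E × Dart E)) (d : Dart E) :
    ((real vt bot W).dn vt d).length = 4 * W.length + 3 := by
  rw [dn_eq]
  simp only [List.length_cons, List.length_append, List.length_map, List.length_range,
    List.length_reverse]
  omega

/-- the nodes -/
noncomputable def node (vt : Dart E → V) (bot : List (Dart E)) (W : List (Dart E × Dart E))
    (d : Dart E) (i : ℕ) : P3 :=
  if i = 0 then vxr vt bot (vt d) else
    if i ≤ 2 * W.length + 1 then Nd bot W d (i - 1) else Nd bot W (rv d) (4 * W.length + 2 - i)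

theorem dn_getD (vt : Dart E → V) (bot : List (Dart E)) (W : List (Dart E × Dart E)) (d : Dart E)
    (i : ℕ) (hi : i < 4 * W.length + 3) :
    ((real vt bot W).dn vt d).getD i 0 = node vt bot W d i := by
  rw [dn_eq, node]
  rcases Nat.eq_zero_or_pos i with rfl | hpos
  · simp
  · obtain ⟨j, rfl⟩ : ∃ j, i = j + 1 := ⟨i - 1, by omega⟩
    rw [if_neg (by omega), List.getD_cons_succ]
    by_cases hj : j + 1 ≤ 2 * W.length + 1
    · rw [if_pos hj, List.getD_append _ _ _ _ (by simp; omega),
        List.getD_eq_getElem _ _ (by simp; omega)]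
      simp
    · rw [if_neg hj, List.getD_append_right _ _ _ _ (by simp; omega),
        List.getD_eq_getElem _ _ (by simp; omega)]
      simp only [List.length_map, List.length_range, List.getElem_map, List.getElem_reverse,
        List.getElem_range]
      congr 1
      omega

theorem getD_flatMap {α β : Type} (f : α → List β) (n : ℕ) (hf : ∀ a, (f a).length = n) (x : β) :
    ∀ (L : List α) (r i : ℕ) (hr : r < L.length), i < n →
      (L.flatMap f).getD (n * r + i) x = (f L[r]).getD i x := by
  intro L
  induction L with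
  | nil => intro r i hr; simp at hr
  | cons a c ih =>
    intro r i hr hi
    rw [List.flatMap_cons]
    cases r with
    | zero =>
      rw [List.getD_append _ _ _ _ (by rw [hf]; omega), Nat.mul_zero, Nat.zero_add]
      rfl
    | succ r =>
      have h1 : n * (r + 1) + i = n + (n * r + i) := by ring
      rw [h1, List.getD_append_right _ _ _ _ (by rw [hf]; omega), hf,
        Nat.add_sub_cancel_left]
      rw [ih r i (by simpa using hr) hi]
      rfl

theorem len (vt : Dart E → V) (bot : List (Dart E)) (W : List (Dart E × Dart E))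
    (C : List (Dart E)) :
    ((real vt bot W).poly vt C).length = (4 * W.length + 3) * C.length := by
  unfold Emb.poly
  induction C with
  | nil => simp
  | cons d C ih =>
    rw [List.flatMap_cons, List.length_append, ih, dn_len, List.length_cons]
    ring

theorem nd_eq (vt : Dart E → V) (bot : List (Dart E)) (W : List (Dart E × Dart E))
    (C : List (Dart E)) (r : ℕ) (h : r < C.length) (i : ℕ) (hi : i < 4 * W.length + 3) :
    nd ((real vt bot W).poly vt C) ((4 * W.length + 3) * r + i) = node vt bot W (C[r]) i := by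
  unfold nd
  have hlt : (4 * W.length + 3) * r + i < ((real vt bot W).poly vt C).length := by
    rw [len]
    calc (4 * W.length + 3) * r + i < (4 * W.length + 3) * r + (4 * W.length + 3) := by omega
      _ = (4 * W.length + 3) * (r + 1) := by ring
      _ ≤ (4 * W.length + 3) * C.length := Nat.mul_le_mul_left _ h
  rw [Nat.mod_eq_of_lt hlt]
  unfold Emb.poly
  rw [getD_flatMap _ _ (dn_len vt bot W) _ C r i h hi, dn_getD _ _ _ _ _ hi]

theorem nd_next [Fintype E] (vt : Dart E → V) (bot : List (Dart E)) (W : List (Dart E × Dart E))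
    (C : List (Dart E)) (hC : IsCyc (fg vt) C) (r : ℕ) (h : r < C.length) :
    nd ((real vt bot W).poly vt C) ((4 * W.length + 3) * r + (4 * W.length + 3)) =
      vxr vt bot (vt (rv C[r])) := by
  have hcl := hC.cl
  have h1 : (C.map (fun d => (fg vt).vt (rv d)))[r]'(by simpa using h) =
      ((C.map (fg vt).vt).rotate 1)[r]'(by simpa using h) := by
    simp only [hcl]
  rw [List.getElem_map, List.getElem_rotate, List.getElem_map] at h1
  have h2 : (fg vt).vt = vt := rfl
  rw [h2] at h1
  rw [h1]
  by_cases hr : r + 1 < C.length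
  · have h3 : (4 * W.length + 3) * r + (4 * W.length + 3) = (4 * W.length + 3) * (r + 1) + 0 := by
      ring
    rw [h3, nd_eq vt bot W C (r + 1) hr 0 (by omega)]
    unfold node
    rw [if_pos rfl]
    congr 3
    rw [List.length_map, Nat.mod_eq_of_lt hr]
  · have h3 : r + 1 = C.length := by omega
    have h4 : (4 * W.length + 3) * r + (4 * W.length + 3) = ((real vt bot W).poly vt C).length := by
      rw [len, ← h3]; ring
    rw [h4]
    have h5 : nd ((real vt bot W).poly vt C) ((real vt bot W).poly vt C).length =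
        nd ((real vt bot W).poly vt C) ((4 * W.length + 3) * 0 + 0) := by
      unfold nd
      rw [Nat.mod_self]
      simp
    rw [h5, nd_eq vt bot W C 0 (by omega) 0 (by omega)]
    unfold node
    rw [if_pos rfl]
    congr 3
    rw [List.length_map, h3, Nat.mod_self]

end PIXM

open PIXM in
theorem specPIX : SpecPIX where
  len := fun vt bot W C => PIXM.len vt bot W C
  fan0 := by
    intro V E _ _ _ _ vt bot W C hC r h t
    unfold pt Lab.p
    have h0 := nd_eq vt bot W C r h 0 (by omega)
    have h1 := nd_eq vt bot W C r h 1 (by omega)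
    rw [add_zero] at h0
    rw [h0, h1]
    rfl
  up0 := by
    intro V E _ _ _ _ vt bot W C hC r h j hj t
    unfold pt Lab.p
    have h0 := nd_eq vt bot W C r h (1 + j) (by omega)
    have h1 := nd_eq vt bot W C r h (1 + j + 1) (by omega)
    rw [← add_assoc] at h0
    rw [← add_assoc, ← add_assoc] at h1
    rw [h0, h1]
    unfold node
    rw [if_neg (by omega), if_pos (by omega), if_neg (by omega), if_pos (by omega)]
    have e1 : 1 + j - 1 = j := by omega
    have e2 : 1 + j + 1 - 1 = j + 1 := by omega
    rw [e1, e2]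
    rfl
  cap0 := by
    intro V E _ _ _ _ vt bot W C hC r h t
    unfold pt Lab.p
    have h0 := nd_eq vt bot W C r h (2 * W.length + 1) (by omega)
    have h1 := nd_eq vt bot W C r h (2 * W.length + 1 + 1) (by omega)
    rw [← add_assoc] at h0
    rw [← add_assoc, ← add_assoc] at h1
    rw [h0, h1]
    unfold node
    rw [if_neg (by omega), if_pos (by omega), if_neg (by omega), if_neg (by omega)]
    have e1 : 2 * W.length + 1 - 1 = 2 * W.length := by omega
    have e2 : 4 * W.length + 2 - (2 * W.length + 1 + 1) = 2 * W.length := by omega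
    rw [e1, e2]
    generalize C[r] = d
    obtain ⟨e, b⟩ := d
    cases b
    · simp only [Lab.lo, Lab.hi, rv, Bool.not_false, Bool.false_eq_true, if_false]
    · simp only [Lab.lo, Lab.hi, rv, Bool.not_true, if_true]
      rw [sub_sub_cancel, add_comm]
  up1 := by
    intro V E _ _ _ _ vt bot W C hC r h j hj t
    unfold pt Lab.p
    have h0 := nd_eq vt bot W C r h (4 * W.length + 1 - j) (by omega)
    have h1 := nd_eq vt bot W C r h (4 * W.length + 1 - j + 1) (by omega)
    have e0 : (4 * W.length + 3) * r + 4 * W.length + 1 - j =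
        (4 * W.length + 3) * r + (4 * W.length + 1 - j) := by omega
    rw [← add_assoc] at h1
    rw [e0, h0, h1]
    unfold node
    rw [if_neg (by omega), if_neg (by omega), if_neg (by omega), if_neg (by omega)]
    have e1 : 4 * W.length + 2 - (4 * W.length + 1 - j) = j + 1 := by omega
    have e2 : 4 * W.length + 2 - (4 * W.length + 1 - j + 1) = j := by omega
    rw [e1, e2]
    simp only [Lab.lo, Lab.hi]
    rw [sub_sub_cancel, add_comm]
  fan1 := by
    intro V E _ _ _ _ vt bot W C hC r h t
    unfold pt Lab.p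
    have h0 := nd_eq vt bot W C r h (4 * W.length + 2) (by omega)
    have h1 := nd_next vt bot W C hC r h
    have e0 : (4 * W.length + 3) * r + 4 * W.length + 2 + 1 =
        (4 * W.length + 3) * r + (4 * W.length + 3) := by omega
    rw [← add_assoc] at h0
    rw [e0, h0, h1]
    unfold node
    rw [if_neg (by omega), if_neg (by omega)]
    have e1 : 4 * W.length + 2 - (4 * W.length + 2) = 0 := by omega
    rw [e1]
    simp only [Lab.lo, Lab.hi]
    rw [sub_sub_cancel, add_comm]

end Pool.Agent.Lib.MP3ff0f8.T
end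

section
/-!
Module PLN: the vertical projection of the realisation of a word diagram.
-/
set_option autoImplicit false

namespace Pool.Agent.Lib.MP3ff0f8.T

namespace PLNM

theorem interp_int {a b c : ℕ} (hab : a + 1 = b ∨ b + 1 = a) {t : ℝ} (h0 : 0 ≤ t) (h1 : t ≤ 1)
    (h : (1 - t) * (a : ℝ) + t * (b : ℝ) = (c : ℝ)) : (t = 0 ∧ c = a) ∨ (t = 1 ∧ c = b) := by
  rcases hab with rfl | rfl
  · push_cast at h
    have h2 : (c : ℝ) = a + t := by linarith
    have h3 : a ≤ c := by
      have : (a : ℝ) ≤ c := by linarith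
      exact_mod_cast this
    have h4 : c ≤ a + 1 := by
      have : (c : ℝ) ≤ ((a + 1 : ℕ) : ℝ) := by push_cast; linarith
      exact_mod_cast this
    rcases Nat.lt_or_ge c (a + 1) with h5 | h5
    · have h6 : c = a := by omega
      subst h6
      left
      exact ⟨by linarith, rfl⟩
    · have h6 : c = a + 1 := by omega
      subst h6
      right
      push_cast at h2
      exact ⟨by linarith, rfl⟩
  · push_cast at h
    have h2 : (c : ℝ) = b + 1 - t := by linarith
    have h3 : b ≤ c := by
      have : (b : ℝ) ≤ c := by linarith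
      exact_mod_cast this
    have h4 : c ≤ b + 1 := by
      have : (c : ℝ) ≤ ((b + 1 : ℕ) : ℝ) := by push_cast; linarith
      exact_mod_cast this
    rcases Nat.lt_or_ge c (b + 1) with h5 | h5
    · have h6 : c = b := by omega
      subst h6
      right
      exact ⟨by linarith, rfl⟩
    · have h6 : c = b + 1 := by omega
      subst h6
      left
      push_cast at h2
      exact ⟨by linarith, rfl⟩

/-- two disjoint pairs of adjacent integers: the intervals are disjoint -/
theorem interp_disj {a b c d : ℕ} (hab : a + 1 = b ∨ b + 1 = a) (hcd : c + 1 = d ∨ d + 1 = c)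
    (h1 : a ≠ c) (h2 : a ≠ d) (h3 : b ≠ c) (h4 : b ≠ d) {s t : ℝ} (hs0 : 0 ≤ s) (hs1 : s ≤ 1)
    (ht0 : 0 ≤ t) (ht1 : t ≤ 1)
    (h : (1 - s) * (a : ℝ) + s * (b : ℝ) = (1 - t) * (c : ℝ) + t * (d : ℝ)) : False := by
  -- all numbers of the first pair are less than those of the second one, or conversely
  have hor : (a < c ∧ a < d ∧ b < c ∧ b < d) ∨ (c < a ∧ d < a ∧ c < b ∧ d < b) := by omega
  rcases hor with ⟨q1, q2, q3, q4⟩ | ⟨q1, q2, q3, q4⟩
  · have r1 : (a : ℝ) + 1 ≤ c := by exact_mod_cast q1
    have r2 : (a : ℝ) + 1 ≤ d := by exact_mod_cast q2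
    have r3 : (b : ℝ) + 1 ≤ c := by exact_mod_cast q3
    have r4 : (b : ℝ) + 1 ≤ d := by exact_mod_cast q4
    rcases le_total (c : ℝ) (d : ℝ) with hc | hc
    · have e1 : (1 - s) * (a : ℝ) + s * (b : ℝ) ≤ c - 1 := by nlinarith
      have e2 : (c : ℝ) ≤ (1 - t) * (c : ℝ) + t * (d : ℝ) := by nlinarith
      linarith
    · have e1 : (1 - s) * (a : ℝ) + s * (b : ℝ) ≤ d - 1 := by nlinarith
      have e2 : (d : ℝ) ≤ (1 - t) * (c : ℝ) + t * (d : ℝ) := by nlinarith
      linarith
  · have r1 : (c : ℝ) + 1 ≤ a := by exact_mod_cast q1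
    have r2 : (d : ℝ) + 1 ≤ a := by exact_mod_cast q2
    have r3 : (c : ℝ) + 1 ≤ b := by exact_mod_cast q3
    have r4 : (d : ℝ) + 1 ≤ b := by exact_mod_cast q4
    rcases le_total (a : ℝ) (b : ℝ) with hc | hc
    · have e1 : (1 - t) * (c : ℝ) + t * (d : ℝ) ≤ a - 1 := by nlinarith
      have e2 : (a : ℝ) ≤ (1 - s) * (a : ℝ) + s * (b : ℝ) := by nlinarith
      linarith
    · have e1 : (1 - t) * (c : ℝ) + t * (d : ℝ) ≤ b - 1 := by nlinarith
      have e2 : (b : ℝ) ≤ (1 - s) * (a : ℝ) + s * (b : ℝ) := by nlinarith
      linarith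

theorem idx_blk {S β : Type} [DecidableEq S] [DecidableEq β] (f : S → β) (L : List S)
    (hB : Blocks f L) (s s' : S) (hs : s ∈ L) (hs' : s' ∈ L) (hne : f s ≠ f s') :
    (L.idxOf s < (L.map f).idxOf (f s')) ∨ (L.idxOf s' < (L.map f).idxOf (f s)) := by
  set X := (L.map f).idxOf (f s) with hX
  set X' := (L.map f).idxOf (f s') with hX'
  have hXl : X < L.length := by
    have := List.idxOf_lt_length_iff.2 (List.mem_map_of_mem (f := f) hs)
    rw [List.length_map] at this
    exact this
  have hXl' : X' < L.length := by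
    have := List.idxOf_lt_length_iff.2 (List.mem_map_of_mem (f := f) hs')
    rw [List.length_map] at this
    exact this
  have hfX : f L[X] = f s := by
    have h1 : (L.map f)[X]'(by rw [List.length_map]; exact hXl) = f s :=
      List.getElem_idxOf (by rw [List.length_map]; exact hXl)
    rw [List.getElem_map] at h1
    exact h1
  have hfX' : f L[X'] = f s' := by
    have h1 : (L.map f)[X']'(by rw [List.length_map]; exact hXl') = f s' :=
      List.getElem_idxOf (by rw [List.length_map]; exact hXl')
    rw [List.getElem_map] at h1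
    exact h1
  have hp : L.idxOf s < L.length := List.idxOf_lt_length_iff.2 hs
  have hp' : L.idxOf s' < L.length := List.idxOf_lt_length_iff.2 hs'
  have hps : L[L.idxOf s] = s := List.getElem_idxOf hp
  have hps' : L[L.idxOf s'] = s' := List.getElem_idxOf hp'
  by_contra hcon
  push Not at hcon
  obtain ⟨c1, c2⟩ := hcon
  -- sublists of three entries
  have sub3 : ∀ (i j k : ℕ) (hi : i < L.length) (hj : j < L.length) (hk : k < L.length),
      i < j → j < k → [L[i], L[j], L[k]].Sublist L := by
    intro i j k hi hj hk hij hjk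
    have h1 : L = L.take i ++ L[i] :: (L.drop (i + 1)) := by
      rw [← List.drop_eq_getElem_cons hi, List.take_append_drop]
    have h2 : L.drop (i + 1) = (L.drop (i + 1)).take (j - (i + 1)) ++ L[j] :: L.drop (j + 1) := by
      have : L[j] :: L.drop (j + 1) = (L.drop (i + 1)).drop (j - (i + 1)) := by
        rw [List.drop_drop, ← List.drop_eq_getElem_cons hj]
        congr 1
        omega
      rw [this, List.take_append_drop]
    have h3 : L[k] ∈ L.drop (j + 1) := by
      rw [List.mem_drop_iff_getElem]
      exact ⟨k - (j + 1), by omega, by congr 1; omega⟩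
    have h4 : [L[k]].Sublist (L.drop (j + 1)) := List.singleton_sublist.2 h3
    have h5 : [L[j], L[k]].Sublist (L.drop (i + 1)) := by
      rw [h2]
      exact (List.Sublist.cons_cons _ h4).trans (List.sublist_append_right _ _)
    have h6 : [L[i], L[j], L[k]].Sublist (L.take i ++ L[i] :: (L.drop (i + 1))) :=
      (List.Sublist.cons_cons _ h5).trans (List.sublist_append_right _ _)
    rw [← h1] at h6
    exact h6
  rcases Nat.lt_trichotomy X X' with h | h | h
  · -- X < X' ≤ idxOf s
    rcases Nat.eq_or_lt_of_le c1 with h1 | h1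
    · apply hne
      rw [← hfX', ← hps]
      congr 1
      congr 1
      exact h1.symm
    · have h2 := hB _ _ _ (sub3 X X' (L.idxOf s) hXl hXl' hp h h1) (by rw [hfX, hps])
      apply hne
      rw [← hfX, ← h2, hfX']
  · apply hne
    rw [← hfX, ← hfX']
    congr 1
    congr 1
  · rcases Nat.eq_or_lt_of_le c2 with h1 | h1
    · apply hne
      rw [← hfX, ← hps']
      congr 1
      congr 1
    · have h2 := hB _ _ _ (sub3 X' X (L.idxOf s') hXl' hXl hp' h h1) (by rw [hfX', hps'])
      apply hne
      rw [← hfX, h2, hfX']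

theorem idx_map_le {S β : Type} [DecidableEq S] [DecidableEq β] (f : S → β) (L : List S)
    (s : S) (hs : s ∈ L) : (L.map f).idxOf (f s) ≤ L.idxOf s := by
  induction L with
  | nil => simp at hs
  | cons a L ih =>
    rw [List.map_cons]
    by_cases h : a = s
    · subst h
      simp
    · by_cases h' : f a = f s
      · rw [h', List.idxOf_cons_self]
        omega
      · rw [List.idxOf_cons_ne _ h', List.idxOf_cons_ne _ h]
        have := ih (by
          rcases List.mem_cons.1 hs with h1 | h1
          · exact absurd h1.symm h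
          · exact h1)
        omega

/-- position of a strand after `k` events -/
def pos {S : Type} [DecidableEq S] (bot : List S) (W : List (S × S)) (k : ℕ) (s : S) : ℕ :=
  (stt bot W k).idxOf s

theorem stt_zero {S : Type} [DecidableEq S] (bot : List S) (W : List (S × S)) :
    stt bot W 0 = bot := by
  cases W <;> rfl

theorem pos_zero {S : Type} [DecidableEq S] (bot : List S) (W : List (S × S)) (s : S) :
    pos bot W 0 s = bot.idxOf s := by
  unfold pos
  rw [stt_zero]

theorem idx_inj {S : Type} [DecidableEq S] {L : List S} {s s' : S} (hs : s ∈ L)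
    (h : L.idxOf s = L.idxOf s') : s = s' := (List.idxOf_inj hs).1 h

theorem idx_adj {S : Type} [DecidableEq S] (A B : List S) (s t : S)
    (hnd : (A ++ s :: t :: B).Nodup) :
    (A ++ s :: t :: B).idxOf s = A.length ∧ (A ++ s :: t :: B).idxOf t = A.length + 1 := by
  have h1 := (List.nodup_append.1 hnd)
  have hA : s ∉ A := fun hA => h1.2.2 _ hA _ (by simp) rfl
  have hA' : t ∉ A := fun hA => h1.2.2 _ hA _ (by simp) rfl
  have hst : s ≠ t := by
    have := (List.nodup_cons.1 h1.2.1).1
    intro h
    apply this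
    rw [h]
    simp
  rw [List.idxOf_append_of_notMem hA, List.idxOf_append_of_notMem hA', List.idxOf_cons_self,
    List.idxOf_cons_ne _ hst, List.idxOf_cons_self]
  exact ⟨rfl, rfl⟩

section main

variable {V E : Type} [Fintype V] [DecidableEq V] [DecidableEq E]
  (vt : Dart E → V) (bot : List (Dart E)) (W : List (Dart E × Dart E))

theorem p0 (l : Lab E) : l.p vt bot W 0 = l.lo vt bot W := by
  simp [Lab.p]

theorem p1 (l : Lab E) : l.p vt bot W 1 = l.hi bot W := by
  simp [Lab.p]

theorem fan_x (s : Dart E) (hs : s ∈ bot) (t : ℝ) : ((Lab.fan s).p vt bot W t).1 =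
    (1 - t) * (((bot.map vt).idxOf (vt s) : ℕ) : ℝ) + t * (pos bot W 0 s : ℝ) := by
  have h : vt s ∈ bot.map vt := List.mem_map_of_mem hs
  simp only [Lab.p, Lab.lo, Lab.hi, vxr, if_pos h, Nd, pos, Prod.fst_add, Prod.smul_fst,
    smul_eq_mul, Nat.zero_div]

theorem fan_y (s : Dart E) (t : ℝ) : ((Lab.fan s).p vt bot W t).2.1 = t - 1 := by
  simp [Lab.p, Lab.lo, Lab.hi, vxr, Nd]

theorem up_x (s : Dart E) (j : ℕ) (t : ℝ) : ((Lab.up s j).p vt bot W t).1 =
    (1 - t) * (pos bot W (j / 2) s : ℝ) + t * (pos bot W ((j + 1) / 2) s : ℝ) := by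
  simp only [Lab.p, Lab.lo, Lab.hi, Nd, pos, Prod.fst_add, Prod.smul_fst, smul_eq_mul]

theorem up_y (s : Dart E) (j : ℕ) (t : ℝ) : ((Lab.up s j).p vt bot W t).2.1 = j + t := by
  simp only [Lab.p, Lab.lo, Lab.hi, Nd, Prod.snd_add, Prod.fst_add, Prod.smul_snd, Prod.smul_fst,
    smul_eq_mul]
  push_cast
  ring

theorem cap_x (e : E) (t : ℝ) : ((Lab.cap e).p vt bot W t).1 =
    (1 - t) * (pos bot W W.length (e, false) : ℝ) + t * (pos bot W W.length (e, true) : ℝ) := by
  have h : 2 * W.length / 2 = W.length := by omega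
  simp only [Lab.p, Lab.lo, Lab.hi, Nd, pos, Prod.fst_add, Prod.smul_fst, smul_eq_mul, h]

theorem cap_y (e : E) (t : ℝ) : ((Lab.cap e).p vt bot W t).2.1 = 2 * (W.length : ℝ) := by
  simp only [Lab.p, Lab.lo, Lab.hi, Nd, Prod.snd_add, Prod.fst_add, Prod.smul_snd, Prod.smul_fst,
    smul_eq_mul]
  push_cast
  ring

/-- the conclusion -/
def Concl (l l' : Lab E) (s t : ℝ) : Prop :=
  (l.p vt bot W s = l'.p vt bot W t ∧ (s = 0 ∨ s = 1) ∧ (t = 0 ∨ t = 1)) ∨
  (s = 1 / 2 ∧ t = 1 / 2 ∧ ∃ (k : ℕ) (h : k < W.length),
    (l = .up W[k].1 (2 * k + 1) ∧ l' = .up W[k].2 (2 * k + 1)) ∨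
    (l = .up W[k].2 (2 * k + 1) ∧ l' = .up W[k].1 (2 * k + 1)))

variable {vt bot W} in
theorem Concl.symm {l l' : Lab E} {s t : ℝ} (h : Concl vt bot W l l' s t) :
    Concl vt bot W l' l t s := by
  rcases h with ⟨h1, h2, h3⟩ | ⟨h1, h2, k, hk, h3 | h3⟩
  · exact Or.inl ⟨h1.symm, h3, h2⟩
  · exact Or.inr ⟨h2, h1, k, hk, Or.inr ⟨h3.2, h3.1⟩⟩
  · exact Or.inr ⟨h2, h1, k, hk, Or.inl ⟨h3.2, h3.1⟩⟩

end main

section dia

set_option linter.unusedSectionVars false

variable {V E : Type} [Fintype V] [Fintype E] [DecidableEq V] [DecidableEq E]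
  {vt : Dart E → V} {bot top : List (Dart E)} {W : List (Dart E × Dart E)}

theorem mem_bot (hD : IsDia (fg vt) bot W top) (s : Dart E) : s ∈ bot :=
  (hD.mb s).2 (Finset.mem_univ _)

theorem pos_inj (hSTT : SpecSTT) (hD : IsDia (fg vt) bot W top) {k : ℕ} (hk : k ≤ W.length)
    {s s' : Dart E} (h : pos bot W k s = pos bot W k s') : s = s' := by
  have h1 := hSTT.run hD.dia.nd hD.dia.run k hk
  have hm : s ∈ stt bot W k := h1.2.2.1.mem_iff.2 (mem_bot hD s)
  exact idx_inj hm h

theorem pos_cap (hSTT : SpecSTT) (hBLK : SpecBLK) (hD : IsDia (fg vt) bot W top) (e : E) :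
    pos bot W W.length (e, false) + 1 = pos bot W W.length (e, true) ∨
    pos bot W W.length (e, true) + 1 = pos bot W W.length (e, false) := by
  have h1 := hSTT.run hD.dia.nd hD.dia.run W.length le_rfl
  have h2 := hSTT.fin hD.dia.nd hD.dia.run
  have hm : ∀ s : Dart E, s ∈ stt bot W W.length := fun s =>
    h1.2.2.1.mem_iff.2 (mem_bot hD s)
  have hnd := h1.2.2.2
  have hb : Blocks Prod.fst (stt bot W W.length) := by rw [h2]; exact hD.dia.tt
  obtain ⟨A, B, h3 | h3⟩ := hBLK.adj Prod.fst (stt bot W W.length) (e, false) (e, true) hnd hb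
    (hm _) (hm _) (by simp) rfl (by
      rintro ⟨e', b⟩ _ he
      simp only at he
      subst he
      cases b
      · left; rfl
      · right; rfl)
  · left
    unfold pos
    rw [h3] at hnd ⊢
    obtain ⟨q1, q2⟩ := idx_adj A B (e, false) (e, true) hnd
    rw [q1, q2]
  · right
    unfold pos
    rw [h3] at hnd ⊢
    obtain ⟨q1, q2⟩ := idx_adj A B (e, true) (e, false) hnd
    rw [q1, q2]

theorem fan_fan (hSTT : SpecSTT) (hD : IsDia (fg vt) bot W top) (s s' : Dart E) (hne : s ≠ s') (a b : ℝ)
    (ha0 : 0 ≤ a) (ha1 : a ≤ 1)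
    (h : samexy ((Lab.fan s).p vt bot W a) ((Lab.fan s').p vt bot W b)) :
    Concl vt bot W (.fan s) (.fan s') a b := by
  obtain ⟨hx, hy⟩ := h
  rw [fan_y, fan_y] at hy
  have hab : a = b := by linarith
  subst hab
  rw [fan_x vt bot W s (mem_bot hD s), fan_x vt bot W s' (mem_bot hD s')] at hx
  by_cases hv : vt s = vt s'
  · rw [hv] at hx
    have h1 : a * ((pos bot W 0 s : ℝ) - pos bot W 0 s') = 0 := by linarith
    rcases mul_eq_zero.1 h1 with h2 | h2
    · left
      subst h2
      refine ⟨?_, Or.inl rfl, Or.inl rfl⟩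
      rw [p0, p0]
      simp only [Lab.lo, hv]
    · exfalso
      apply hne
      have h3 : pos bot W 0 s = pos bot W 0 s' := by
        have : (pos bot W 0 s : ℝ) = pos bot W 0 s' := by linarith
        exact_mod_cast this
      exact pos_inj hSTT hD (Nat.zero_le _) h3
  · exfalso
    have h1 := idx_blk vt bot hD.dia.bb s s' (mem_bot hD s) (mem_bot hD s') hv
    have h2 := idx_map_le vt bot s (mem_bot hD s)
    have h3 := idx_map_le vt bot s' (mem_bot hD s')
    have h1' : pos bot W 0 s < (bot.map vt).idxOf (vt s') ∨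
      pos bot W 0 s' < (bot.map vt).idxOf (vt s) := by rw [pos_zero, pos_zero]; exact h1
    have h2' : (bot.map vt).idxOf (vt s) ≤ pos bot W 0 s := by
      rw [pos_zero]; exact h2
    have h3' : (bot.map vt).idxOf (vt s') ≤ pos bot W 0 s' := by
      rw [pos_zero]; exact h3
    have r2 : (((bot.map vt).idxOf (vt s) : ℕ) : ℝ) ≤ (pos bot W 0 s : ℝ) := by exact_mod_cast h2'
    have r3 : (((bot.map vt).idxOf (vt s') : ℕ) : ℝ) ≤ (pos bot W 0 s' : ℝ) := by
      exact_mod_cast h3'
    rcases h1' with h1 | h1
    · have r1 : (pos bot W 0 s : ℝ) < (((bot.map vt).idxOf (vt s') : ℕ) : ℝ) := by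
        exact_mod_cast h1
      have e1 : (1 - a) * (((bot.map vt).idxOf (vt s) : ℕ) : ℝ) + a * (pos bot W 0 s : ℝ) ≤
          pos bot W 0 s := by nlinarith
      have e2 : (((bot.map vt).idxOf (vt s') : ℕ) : ℝ) ≤
          (1 - a) * (((bot.map vt).idxOf (vt s') : ℕ) : ℝ) + a * (pos bot W 0 s' : ℝ) := by
        nlinarith
      linarith
    · have r1 : (pos bot W 0 s' : ℝ) < (((bot.map vt).idxOf (vt s) : ℕ) : ℝ) := by
        exact_mod_cast h1
      have e1 : (1 - a) * (((bot.map vt).idxOf (vt s') : ℕ) : ℝ) + a * (pos bot W 0 s' : ℝ) ≤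
          pos bot W 0 s' := by nlinarith
      have e2 : (((bot.map vt).idxOf (vt s) : ℕ) : ℝ) ≤
          (1 - a) * (((bot.map vt).idxOf (vt s) : ℕ) : ℝ) + a * (pos bot W 0 s : ℝ) := by
        nlinarith
      linarith

theorem fan_up (hSTT : SpecSTT) (hD : IsDia (fg vt) bot W top) (s s' : Dart E) (j : ℕ)
    (a b : ℝ) (ha1 : a ≤ 1) (hb0 : 0 ≤ b)
    (h : samexy ((Lab.fan s).p vt bot W a) ((Lab.up s' j).p vt bot W b)) :
    Concl vt bot W (.fan s) (.up s' j) a b := by
  obtain ⟨hx, hy⟩ := h
  rw [fan_y, up_y] at hy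
  have hj0 : (0 : ℝ) ≤ j := Nat.cast_nonneg j
  have ha : a = 1 := by linarith
  have hb : b = 0 := by linarith
  have hj : j = 0 := by
    have : (j : ℝ) = 0 := by linarith
    exact_mod_cast this
  subst ha hb hj
  rw [fan_x vt bot W s (mem_bot hD s), up_x] at hx
  have h1 : pos bot W 0 s = pos bot W 0 s' := by
    have : (pos bot W 0 s : ℝ) = pos bot W 0 s' := by
      simpa using hx
    exact_mod_cast this
  have h2 := pos_inj hSTT hD (Nat.zero_le _) h1
  subst h2
  left
  refine ⟨?_, Or.inr rfl, Or.inl rfl⟩
  rw [p0, p1]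
  rfl

theorem fan_cap (hSTT : SpecSTT) (hBLK : SpecBLK) (hD : IsDia (fg vt) bot W top) (s : Dart E)
    (e : E) (a b : ℝ) (ha1 : a ≤ 1) (hb0 : 0 ≤ b) (hb1 : b ≤ 1)
    (h : samexy ((Lab.fan s).p vt bot W a) ((Lab.cap e).p vt bot W b)) :
    Concl vt bot W (.fan s) (.cap e) a b := by
  obtain ⟨hx, hy⟩ := h
  rw [fan_y, cap_y] at hy
  have hm0 : (0 : ℝ) ≤ W.length := Nat.cast_nonneg _
  have ha : a = 1 := by linarith
  have hm : W.length = 0 := by
    have : (W.length : ℝ) = 0 := by linarith
    exact_mod_cast this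
  subst ha
  rw [fan_x vt bot W s (mem_bot hD s), cap_x] at hx
  have hx' : (1 - b) * (pos bot W W.length (e, false) : ℝ) + b * (pos bot W W.length (e, true) : ℝ)
      = (pos bot W W.length s : ℝ) := by
    rw [← hx, hm]
    ring
  rcases interp_int (pos_cap hSTT hBLK hD e) hb0 hb1 hx' with ⟨h1, h2⟩ | ⟨h1, h2⟩
  · have h3 := pos_inj hSTT hD le_rfl h2
    subst h3 h1
    left
    refine ⟨?_, Or.inr rfl, Or.inl rfl⟩
    rw [p0, p1]
    simp only [Lab.lo, Lab.hi, hm, Nat.mul_zero]
  · have h3 := pos_inj hSTT hD le_rfl h2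
    subst h3 h1
    left
    refine ⟨?_, Or.inr rfl, Or.inr rfl⟩
    rw [p1, p1]
    simp only [Lab.hi, hm, Nat.mul_zero]

theorem up_cap (hSTT : SpecSTT) (hBLK : SpecBLK) (hD : IsDia (fg vt) bot W top) (s : Dart E)
    (j : ℕ) (hj : j < 2 * W.length) (e : E) (a b : ℝ) (ha1 : a ≤ 1) (hb0 : 0 ≤ b) (hb1 : b ≤ 1)
    (h : samexy ((Lab.up s j).p vt bot W a) ((Lab.cap e).p vt bot W b)) :
    Concl vt bot W (.up s j) (.cap e) a b := by
  obtain ⟨hx, hy⟩ := h
  rw [up_y, cap_y] at hy
  have hj1 : (j : ℝ) + 1 ≤ 2 * W.length := by exact_mod_cast hj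
  have ha : a = 1 := by linarith
  have hj2 : j + 1 = 2 * W.length := by
    have : (j : ℝ) + 1 = 2 * W.length := by linarith
    exact_mod_cast this
  subst ha
  rw [up_x, cap_x, hj2] at hx
  have hd : 2 * W.length / 2 = W.length := by omega
  rw [hd] at hx
  have hx' : (1 - b) * (pos bot W W.length (e, false) : ℝ) + b * (pos bot W W.length (e, true) : ℝ)
      = (pos bot W W.length s : ℝ) := by
    rw [← hx]
    ring
  rcases interp_int (pos_cap hSTT hBLK hD e) hb0 hb1 hx' with ⟨h1, h2⟩ | ⟨h1, h2⟩
  · have h3 := pos_inj hSTT hD le_rfl h2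
    subst h3 h1
    left
    refine ⟨?_, Or.inr rfl, Or.inl rfl⟩
    rw [p0, p1]
    simp only [Lab.lo, Lab.hi, hj2]
  · have h3 := pos_inj hSTT hD le_rfl h2
    subst h3 h1
    left
    refine ⟨?_, Or.inr rfl, Or.inr rfl⟩
    rw [p1, p1]
    simp only [Lab.hi, hj2]

theorem cap_cap (hSTT : SpecSTT) (hBLK : SpecBLK) (hD : IsDia (fg vt) bot W top) (e e' : E)
    (hne : e ≠ e') (a b : ℝ) (ha0 : 0 ≤ a) (ha1 : a ≤ 1) (hb0 : 0 ≤ b) (hb1 : b ≤ 1)
    (h : samexy ((Lab.cap e).p vt bot W a) ((Lab.cap e').p vt bot W b)) : False := by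
  obtain ⟨hx, hy⟩ := h
  rw [cap_x, cap_x] at hx
  have hn : ∀ β β' : Bool, pos bot W W.length (e, β) ≠ pos bot W W.length (e', β') := by
    intro β β' h1
    exact hne (congrArg Prod.fst (pos_inj hSTT hD le_rfl h1))
  exact interp_disj (pos_cap hSTT hBLK hD e) (pos_cap hSTT hBLK hD e') (hn _ _) (hn _ _) (hn _ _)
    (hn _ _) ha0 ha1 hb0 hb1 hx

theorem up_up_same (hSTT : SpecSTT) (hD : IsDia (fg vt) bot W top) (s s' : Dart E) (j : ℕ)
    (hj : j < 2 * W.length) (hne : s ≠ s') (a b : ℝ) (ha0 : 0 ≤ a) (ha1 : a ≤ 1)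
    (h : samexy ((Lab.up s j).p vt bot W a) ((Lab.up s' j).p vt bot W b)) :
    Concl vt bot W (.up s j) (.up s' j) a b := by
  obtain ⟨hx, hy⟩ := h
  rw [up_y, up_y] at hy
  have hab : a = b := by linarith
  subst hab
  rw [up_x, up_x] at hx
  rcases Nat.even_or_odd' j with ⟨k, hk | hk⟩
  · exfalso
    have e1 : j / 2 = k := by omega
    have e2 : (j + 1) / 2 = k := by omega
    rw [e1, e2] at hx
    have h1 : (pos bot W k s : ℝ) = pos bot W k s' := by linarith
    have h2 : pos bot W k s = pos bot W k s' := by exact_mod_cast h1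
    exact hne (pos_inj hSTT hD (by omega) h2)
  · have e1 : j / 2 = k := by omega
    have e2 : (j + 1) / 2 = k + 1 := by omega
    rw [e1, e2] at hx
    have hkl : k < W.length := by omega
    obtain ⟨q1, q2, q3, q4⟩ := hSTT.step hD.dia.nd hD.dia.run k hkl
    have q2' : pos bot W (k + 1) W[k].1 = pos bot W k W[k].2 := q2
    have q3' : pos bot W (k + 1) W[k].2 = pos bot W k W[k].1 := q3
    have q1' : pos bot W k W[k].1 + 1 = pos bot W k W[k].2 ∨
      pos bot W k W[k].2 + 1 = pos bot W k W[k].1 := q1
    have q4' : ∀ x : Dart E, x ≠ W[k].1 → x ≠ W[k].2 → pos bot W (k + 1) x = pos bot W k x :=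
      fun x h1 h2 => q4 x (mem_bot hD x) h1 h2
    have hkl' : k ≤ W.length := hkl.le
    -- the third strand
    have key : ∀ x y z : Dart E, (pos bot W k x + 1 = pos bot W k y ∨
        pos bot W k y + 1 = pos bot W k x) → x ≠ z → y ≠ z →
        (1 - a) * (pos bot W k x : ℝ) + a * (pos bot W k y : ℝ) = (pos bot W k z : ℝ) → False := by
      intro x y z hadj hxz hyz heq
      rcases interp_int hadj ha0 ha1 heq with ⟨_, h2⟩ | ⟨_, h2⟩
      · exact hxz (pos_inj hSTT hD hkl' h2.symm)
      · exact hyz (pos_inj hSTT hD hkl' h2.symm)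
    have mid : (1 - a) * (pos bot W k W[k].1 : ℝ) + a * (pos bot W k W[k].2 : ℝ) =
        (1 - a) * (pos bot W k W[k].2 : ℝ) + a * (pos bot W k W[k].1 : ℝ) → a = 1 / 2 := by
      intro h1
      have h2 : (1 - 2 * a) * ((pos bot W k W[k].1 : ℝ) - pos bot W k W[k].2) = 0 := by linarith
      rcases mul_eq_zero.1 h2 with h3 | h3
      · linarith
      · exfalso
        have h4 : pos bot W k W[k].1 = pos bot W k W[k].2 := by
          have : (pos bot W k W[k].1 : ℝ) = pos bot W k W[k].2 := by linarith
          exact_mod_cast this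
        omega
    by_cases c1 : s = W[k].1
    · by_cases c2 : s' = W[k].2
      · rw [c1, c2, q2', q3'] at hx
        have ha := mid hx
        right
        refine ⟨ha, ha, k, hkl, Or.inl ⟨?_, ?_⟩⟩
        · rw [c1, hk]
        · rw [c2, hk]
      · exfalso
        have c3 : s' ≠ W[k].1 := by rw [← c1]; exact hne.symm
        rw [q4' s' c3 c2, c1, q2'] at hx
        refine key W[k].1 W[k].2 s' q1' (Ne.symm c3) (Ne.symm c2) ?_
        rw [hx]; ring
    · by_cases c2 : s = W[k].2
      · by_cases c3 : s' = W[k].1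
        · rw [c2, c3, q2', q3'] at hx
          have ha := mid hx.symm
          right
          refine ⟨ha, ha, k, hkl, Or.inr ⟨?_, ?_⟩⟩
          · rw [c2, hk]
          · rw [c3, hk]
        · exfalso
          have c4 : s' ≠ W[k].2 := by rw [← c2]; exact hne.symm
          rw [q4' s' c3 c4, c2, q3'] at hx
          refine key W[k].2 W[k].1 s' q1'.symm (Ne.symm c4) (Ne.symm c3) ?_
          rw [hx]; ring
      · rw [q4' s c1 c2] at hx
        exfalso
        by_cases c3 : s' = W[k].1
        · rw [c3, q2'] at hx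
          refine key W[k].1 W[k].2 s q1' (Ne.symm c1) (Ne.symm c2) ?_
          rw [← hx]; ring
        · by_cases c4 : s' = W[k].2
          · rw [c4, q3'] at hx
            refine key W[k].2 W[k].1 s q1'.symm (Ne.symm c2) (Ne.symm c1) ?_
            rw [← hx]; ring
          · rw [q4' s' c3 c4] at hx
            have h1 : (pos bot W k s : ℝ) = pos bot W k s' := by linarith
            have h2 : pos bot W k s = pos bot W k s' := by exact_mod_cast h1
            exact hne (pos_inj hSTT hD hkl' h2)

theorem up_up_lt (hSTT : SpecSTT) (hD : IsDia (fg vt) bot W top) (s s' : Dart E) (j j' : ℕ)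
    (hj' : j' < 2 * W.length) (hlt : j < j') (a b : ℝ) (ha1 : a ≤ 1) (hb0 : 0 ≤ b)
    (h : samexy ((Lab.up s j).p vt bot W a) ((Lab.up s' j').p vt bot W b)) :
    Concl vt bot W (.up s j) (.up s' j') a b := by
  obtain ⟨hx, hy⟩ := h
  rw [up_y, up_y] at hy
  have h1 : (j : ℝ) + 1 ≤ j' := by exact_mod_cast hlt
  have ha : a = 1 := by linarith
  have hb : b = 0 := by linarith
  have hjj : j' = j + 1 := by
    have : (j' : ℝ) = j + 1 := by linarith
    exact_mod_cast this
  subst ha hb hjj
  rw [up_x, up_x] at hx
  have h2 : (pos bot W ((j + 1) / 2) s : ℝ) = pos bot W ((j + 1) / 2) s' := by linarith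
  have h3 : pos bot W ((j + 1) / 2) s = pos bot W ((j + 1) / 2) s' := by exact_mod_cast h2
  have h4 := pos_inj hSTT hD (by omega) h3
  subst h4
  left
  refine ⟨?_, Or.inr rfl, Or.inl rfl⟩
  rw [p0, p1]
  rfl

end dia

end PLNM

open PLNM in
theorem specPLN (hSTT : SpecSTT) (hBLK : SpecBLK) : SpecPLN := by
  intro V E _ _ _ _ vt bot top W hD l l' hl hl' hne s t hs0 hs1 ht0 ht1 h
  change Concl vt bot W l l' s t
  have hsym : samexy (l'.p vt bot W t) (l.p vt bot W s) := ⟨h.1.symm, h.2.symm⟩
  cases l with
  | fan x =>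
    cases l' with
    | fan y => exact fan_fan hSTT hD x y (fun h => hne (by rw [h])) s t hs0 hs1 h
    | up y j => exact fan_up hSTT hD x y j s t hs1 ht0 h
    | cap e => exact fan_cap hSTT hBLK hD x e s t hs1 ht0 ht1 h
  | up x i =>
    have hi : i < 2 * W.length := hl
    cases l' with
    | fan y => exact (fan_up hSTT hD y x i t s ht1 hs0 hsym).symm
    | up y j =>
      have hj : j < 2 * W.length := hl'
      rcases Nat.lt_trichotomy i j with hij | hij | hij
      · exact up_up_lt hSTT hD x y i j hj hij s t hs1 ht0 h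
      · subst hij
        exact up_up_same hSTT hD x y i hi (fun h => hne (by rw [h])) s t hs0 hs1 h
      · exact (up_up_lt hSTT hD y x j i hi hij t s ht1 hs0 hsym).symm
    | cap e => exact up_cap hSTT hBLK hD x i hi e s t hs1 ht0 ht1 h
  | cap e =>
    cases l' with
    | fan y => exact (fan_cap hSTT hBLK hD y e t s ht1 hs0 hs1 hsym).symm
    | up y j =>
      have hj : j < 2 * W.length := hl'
      exact (up_cap hSTT hBLK hD y j hj e t s ht1 hs0 hs1 hsym).symm
    | cap e' =>
      exact (cap_cap hSTT hBLK hD e e' (fun h => hne (by rw [h])) s t hs0 hs1 ht0 ht1 h).elim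

end Pool.Agent.Lib.MP3ff0f8.T
end

section
/-! # MP_3ff0f8_gt, module PSU: sums over ordered pairs (helper18) -/
namespace Pool.Agent.Lib.MP3ff0f8.T.PSUM

open Pool.Agent.Lib.MP3ff0f8.T

theorem ps_nil {α : Type} (g : α → α → ZMod 2) : ps g [] = 0 := rfl

theorem ps_cons {α : Type} (g : α → α → ZMod 2) (z : α) (W : List α) :
    ps g (z :: W) = (W.map (g z)).sum + ps g W := rfl

theorem cr_nil {α : Type} (g : α → α → ZMod 2) (B : List α) : cr g [] B = 0 := rfl

theorem cr_cons {α : Type} (g : α → α → ZMod 2) (z : α) (A B : List α) :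
    cr g (z :: A) B = (B.map (g z)).sum + cr g A B := by
  simp [cr]

theorem cr_nil_right {α : Type} (g : α → α → ZMod 2) (A : List α) : cr g A [] = 0 := by
  induction A with
  | nil => rfl
  | cons z A ih => rw [cr_cons, ih]; simp

theorem cr_app_left {α : Type} (g : α → α → ZMod 2) (A A' B : List α) :
    cr g (A ++ A') B = cr g A B + cr g A' B := by
  simp [cr]

theorem cr_app_right {α : Type} (g : α → α → ZMod 2) (A B B' : List α) :
    cr g A (B ++ B') = cr g A B + cr g A B' := by
  induction A with
  | nil => simp [cr_nil]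
  | cons z A ih => rw [cr_cons, cr_cons, cr_cons, ih]; simp; ring

theorem cr_flip {α : Type} (g : α → α → ZMod 2) (A B : List α) :
    cr g A B = cr (fun z w => g w z) B A := by
  induction A with
  | nil => rw [cr_nil, cr_nil_right]
  | cons z A ih =>
    rw [cr_cons, ih]
    have : cr (fun z w => g w z) B (z :: A) = cr (fun z w => g w z) B ([z] ++ A) := rfl
    rw [this, cr_app_right]
    congr 1
    clear ih this
    induction B with
    | nil => simp [cr_nil]
    | cons b B ihB => rw [cr_cons, List.map_cons, List.sum_cons, ihB]; simp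

theorem app {α : Type} (g : α → α → ZMod 2) (A B : List α) :
    ps g (A ++ B) = ps g A + ps g B + cr g A B := by
  induction A with
  | nil => simp [ps_nil, cr_nil]
  | cons z A ih =>
    rw [List.cons_append, ps_cons, ps_cons, cr_cons, ih]; simp; ring

/-- a sum over a list depends only on the parities -/
theorem sum_par {α : Type} [DecidableEq α] (h : α → ZMod 2) (A : List α) :
    (A.map h).sum = ∑ z ∈ A.toFinset, par A z * h z := by
  rw [Finset.sum_list_map_count]
  apply Finset.sum_congr rfl
  intro z _
  simp [par]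

theorem sum_par_congr {α : Type} [DecidableEq α] (h : α → ZMod 2) (A A' : List α)
    (H : ∀ z, par A z = par A' z) : (A.map h).sum = (A'.map h).sum := by
  have key : ∀ B C : List α, (B.map h).sum = ∑ z ∈ B.toFinset ∪ C.toFinset, par B z * h z := by
    intro B C
    rw [sum_par]
    apply Finset.sum_subset Finset.subset_union_left
    intro z _ hz
    have : B.count z = 0 := List.count_eq_zero.2 (by simpa using hz)
    simp [par, this]
  rw [key A A', key A' A, Finset.union_comm]
  exact Finset.sum_congr rfl fun z _ => by rw [H z]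

theorem crl {α : Type} [DecidableEq α] (g : α → α → ZMod 2) (A A' B : List α)
    (H : ∀ z, par A z = par A' z) : cr g A B = cr g A' B :=
  sum_par_congr (fun z => (B.map (g z)).sum) A A' H

theorem crr {α : Type} [DecidableEq α] (g : α → α → ZMod 2) (A B B' : List α)
    (H : ∀ z, par B z = par B' z) : cr g A B = cr g A B' := by
  rw [cr_flip g A B, cr_flip g A B']; exact crl _ B B' A H

theorem ps_single {α : Type} (g : α → α → ZMod 2) (z : α) : ps g [z] = 0 := by simp [ps]

theorem rvs {α : Type} (g : α → α → ZMod 2) (A : List α) :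
    ps g A.reverse = ps (fun z w => g w z) A := by
  induction A with
  | nil => rfl
  | cons z A ih =>
    rw [List.reverse_cons, app, ih, ps_single, ps_cons]
    have : cr g A.reverse [z] = (A.map fun w => g w z).sum := by
      rw [cr_flip, cr_cons, cr_nil]
      simp
    rw [this]; ring

theorem cr_self {α : Type} (g : α → α → ZMod 2) (h : ∀ z, g z z = 0) (A : List α) :
    cr g A A = ps g A + ps (fun z w => g w z) A := by
  induction A with
  | nil => rfl
  | cons z A ih =>
    rw [cr_cons, cr_flip, cr_cons, cr_flip, ih, ps_cons, ps_cons]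
    simp [h]; ring

theorem cr_reverse_right {α : Type} (g : α → α → ZMod 2) (A B : List α) :
    cr g A B.reverse = cr g A B := by
  unfold cr
  congr 1
  apply List.map_congr_left
  intro z _
  rw [List.map_reverse, List.sum_reverse]

theorem rev {α : Type} (g : α → α → ZMod 2) (h : ∀ z, g z z = 0) (A : List α) :
    ps g (A ++ A.reverse) = 0 := by
  rw [app, rvs, cr_reverse_right, cr_self g h]
  have : ∀ a b : ZMod 2, a + b + (a + b) = 0 := by decide
  exact this _ _

theorem cr_par_zero_left {α : Type} [DecidableEq α] (g : α → α → ZMod 2) (A B : List α)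
    (H : ∀ z, par A z = 0) : cr g A B = 0 := by
  rw [crl g A [] B (fun z => by rw [H z]; simp [par]), cr_nil]

theorem cr_par_zero_right {α : Type} [DecidableEq α] (g : α → α → ZMod 2) (A B : List α)
    (H : ∀ z, par B z = 0) : cr g A B = 0 := by
  rw [cr_flip]; exact cr_par_zero_left _ B A H

theorem ins {α : Type} [DecidableEq α] (g : α → α → ZMod 2) (A B C : List α)
    (H : ∀ z, par B z = 0) : ps g (A ++ B ++ C) = ps g (A ++ C) + ps g B := by
  rw [app g (A ++ B) C, app g A B, app g A C, cr_app_left, cr_par_zero_left g B C H,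
    cr_par_zero_right g A B H]
  ring

theorem sum_map_zero {α : Type} (h : α → ZMod 2) (B : List α) (H : ∀ z ∈ B, h z = 0) :
    (B.map h).sum = 0 := by
  apply List.sum_eq_zero
  intro x hx
  obtain ⟨z, hz, rfl⟩ := List.mem_map.1 hx
  exact H z hz

theorem cr_zero {α : Type} (g : α → α → ZMod 2) (A B : List α)
    (H : ∀ z ∈ A, ∀ w ∈ B, g z w = 0) : cr g A B = 0 :=
  sum_map_zero _ A fun z hz => sum_map_zero _ B fun w hw => H z hz w hw

theorem ps_zero {α : Type} (g : α → α → ZMod 2) (A : List α)
    (H : ∀ z ∈ A, ∀ w ∈ A, g z w = 0) : ps g A = 0 := by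
  induction A with
  | nil => rfl
  | cons z A ih =>
    rw [ps_cons, ih (fun a ha b hb => H a (List.mem_cons_of_mem _ ha) b (List.mem_cons_of_mem _ hb)),
      sum_map_zero _ A fun w hw => H z List.mem_cons_self w (List.mem_cons_of_mem _ hw), add_zero]

theorem pre {α : Type} (g : α → α → ZMod 2) (A B : List α)
    (H : ∀ z ∈ A, ∀ w ∈ A ++ B, g z w = 0) : ps g (A ++ B) = ps g B := by
  rw [app, ps_zero g A fun z hz w hw => H z hz w (List.mem_append_left _ hw),
    cr_zero g A B fun z hz w hw => H z hz w (List.mem_append_right _ hw)]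
  ring

theorem suf {α : Type} (g : α → α → ZMod 2) (A B : List α)
    (H : ∀ z ∈ A ++ B, ∀ w ∈ B, g z w = 0) : ps g (A ++ B) = ps g A := by
  rw [app, ps_zero g B fun z hz w hw => H z (List.mem_append_right _ hz) w hw,
    cr_zero g A B fun z hz w hw => H z (List.mem_append_left _ hz) w hw]
  ring

theorem sum_filter {α : Type} (h : α → ZMod 2) (p : α → Bool) (W : List α)
    (H : ∀ z ∈ W, p z = false → h z = 0) : ((W.filter p).map h).sum = (W.map h).sum := by
  induction W with
  | nil => rfl
  | cons z W ih =>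
    have ih' := ih fun w hw => H w (List.mem_cons_of_mem _ hw)
    by_cases hz : p z = true
    · rw [List.filter_cons_of_pos hz, List.map_cons, List.sum_cons, ih', List.map_cons,
        List.sum_cons]
    · rw [List.filter_cons_of_neg hz, ih', List.map_cons, List.sum_cons,
        H z List.mem_cons_self (by simpa using hz), zero_add]

theorem fil {α : Type} (g : α → α → ZMod 2) (p : α → Bool) (W : List α)
    (H : ∀ z ∈ W, ∀ w ∈ W, p z = false ∨ p w = false → g z w = 0) :
    ps g (W.filter p) = ps g W := by
  induction W with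
  | nil => rfl
  | cons z W ih =>
    have ih' := ih fun a ha b hb => H a (List.mem_cons_of_mem _ ha) b (List.mem_cons_of_mem _ hb)
    by_cases hz : p z = true
    · rw [List.filter_cons_of_pos hz, ps_cons, ps_cons, ih',
        sum_filter (g z) p W fun w hw hp =>
          H z List.mem_cons_self w (List.mem_cons_of_mem _ hw) (Or.inr hp)]
    · rw [List.filter_cons_of_neg hz, ps_cons, ih',
        sum_map_zero (g z) W fun w hw =>
          H z List.mem_cons_self w (List.mem_cons_of_mem _ hw) (Or.inl (by simpa using hz)),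
        zero_add]

theorem cgr {α : Type} (g g' : α → α → ZMod 2) (W : List α)
    (H : ∀ z ∈ W, ∀ w ∈ W, g z w = g' z w) : ps g W = ps g' W := by
  induction W with
  | nil => rfl
  | cons z W ih =>
    rw [ps_cons, ps_cons,
      ih fun a ha b hb => H a (List.mem_cons_of_mem _ ha) b (List.mem_cons_of_mem _ hb)]
    congr 2
    exact List.map_congr_left fun w hw => H z List.mem_cons_self w (List.mem_cons_of_mem _ hw)

theorem map {α β : Type} (g : β → β → ZMod 2) (f : α → β) (W : List α) :
    ps g (W.map f) = ps (fun a b => g (f a) (f b)) W := by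
  induction W with
  | nil => rfl
  | cons z W ih =>
    rw [List.map_cons, ps_cons, ps_cons, ih, List.map_map]; rfl

theorem ixs {α : Type} (g : α → α → ZMod 2) (W : List α) :
    ps g W = ∑ k : Fin W.length, ∑ l : Fin W.length,
      if k < l then g (W.get k) (W.get l) else 0 := by
  induction W with
  | nil => rfl
  | cons z W ih =>
    rw [ps_cons, ih]
    simp only [List.length_cons]
    rw [Fin.sum_univ_succ]
    simp only [Fin.sum_univ_succ (n := W.length)]
    simp only [lt_self_iff_false, if_false, zero_add, Fin.succ_pos, if_true, List.get_cons_zero,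
      List.get_cons_succ', Fin.not_lt_zero, Fin.succ_lt_succ_iff]
    congr 1
    rw [← List.sum_ofFn]
    congr 1
    apply List.ext_getElem
    · simp
    · intro i h1 h2
      simp

end Pool.Agent.Lib.MP3ff0f8.T.PSUM

namespace Pool.Agent.Lib.MP3ff0f8.T

theorem specPSU : SpecPSU where
  app := PSUM.app
  crl := PSUM.crl
  crr := PSUM.crr
  rev := PSUM.rev
  rvs := PSUM.rvs
  ins := PSUM.ins
  pre := PSUM.pre
  suf := PSUM.suf
  fil := PSUM.fil
  cgr := PSUM.cgr
  map := PSUM.map
  ixs := PSUM.ixs

end Pool.Agent.Lib.MP3ff0f8.T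
end

section
/-!
# Module REA: all parities are realised
-/
namespace Pool.Agent.Lib.MP3ff0f8.T

namespace REAM

lemma add_self (x : ZMod 2) : x + x = 0 := CharTwo.add_self_eq_zero x

lemma par_reverse {α : Type} [DecidableEq α] (W : List α) (z : α) : par W.reverse z = par W z := by
  unfold par
  rw [List.count_reverse]

lemma par_append {α : Type} [DecidableEq α] (A B : List α) (z : α) :
    par (A ++ B) z = par A z + par B z := by
  unfold par
  rw [List.count_append, Nat.cast_add]

lemma par_pair {α : Type} [DecidableEq α] (x y z : α) (hxy : x ≠ y) :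
    par [x, y] z = if z = x ∨ z = y then 1 else 0 := by
  unfold par
  by_cases hx : z = x
  · subst hx
    simp [hxy]
  · by_cases hy : z = y
    · subst hy
      simp [hxy]
    · simp [hx, hy, Ne.symm hx, Ne.symm hy]

/-- if two elements of `ZMod 2` differ, adding one makes them equal -/
lemma add_one_of_ne {x y : ZMod 2} (h : x ≠ y) : x + 1 = y := by
  revert x y
  decide

lemma inv_comm {S : Type} [DecidableEq S] (L L' : List S) (s t : S) (hs : s ∈ L) (hs' : s ∈ L')
    (hst : s ≠ t) : inv L L' s t = inv L L' t s := by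
  have h1 : L.idxOf s ≠ L.idxOf t := fun h => hst ((List.idxOf_inj hs).1 h)
  have h2 : L'.idxOf s ≠ L'.idxOf t := fun h => hst ((List.idxOf_inj hs').1 h)
  unfold inv
  congr 1
  apply propext
  constructor
  · intro h
    constructor <;> intro h3 <;> omega
  · intro h
    constructor <;> intro h3 <;> omega

/-- the bad pairs -/
def bad {S : Type} [DecidableEq S] (L : List S) (a : S → S → ZMod 2) (W : List (S × S)) :
    Finset (S × S) :=
  (L.toFinset ×ˢ L.toFinset).filter fun z => z.1 ≠ z.2 ∧ par W z ≠ a z.1 z.2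

lemma step (hRUN : SpecRUN) {S : Type} [DecidableEq S] (L L' : List S) (W : List (S × S))
    (h : Run L W L') (s t : S) (hs : s ∈ L) (ht : t ∈ L) (hst : s ≠ t) :
    ∃ W', Run L W' L' ∧ ∀ z, par W' z = par W z + if z = (s, t) ∨ z = (t, s) then 1 else 0 := by
  have hp : L.Perm (s :: t :: (L.erase s).erase t) := by
    refine (List.perm_cons_erase hs).trans (List.Perm.cons _ ?_)
    exact List.perm_cons_erase ((List.mem_erase_of_ne (Ne.symm hst)).2 ht)
  obtain ⟨w, hw⟩ := hRUN.exi hp
  have h1 : Run (s :: t :: (L.erase s).erase t) [(s, t), (t, s)] (s :: t :: (L.erase s).erase t) := by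
    refine Run.over [] _ s t _ _ ?_
    refine Run.over [] _ t s _ _ ?_
    exact Run.nil _
  refine ⟨w ++ [(s, t), (t, s)] ++ w.reverse ++ W, ?_, ?_⟩
  · exact hRUN.trans (hRUN.trans (hRUN.trans hw h1) (hRUN.rev hw)) h
  · intro z
    have hne : ((s, t) : S × S) ≠ (t, s) := by
      intro h
      exact hst (Prod.mk.inj h).1
    rw [par_append, par_append, par_append, par_reverse, par_pair _ _ _ hne]
    have := add_self (par w z)
    linear_combination this

end REAM

open REAM in
theorem specREA (hRUN : SpecRUN) : SpecREA := by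
  intro S _ L L' a hnd hperm ha
  obtain ⟨W₀, hW₀⟩ := hRUN.exi hperm
  suffices H : ∀ n : ℕ, ∀ W, Run L W L' → (bad L a W).card ≤ n →
      ∃ W', Run L W' L' ∧ ∀ s ∈ L, ∀ t ∈ L, s ≠ t → par W' (s, t) = a s t from
    H _ W₀ hW₀ le_rfl
  intro n
  induction n with
  | zero =>
    intro W hW hc
    refine ⟨W, hW, fun s hs t ht hst => ?_⟩
    by_contra hne
    have : ((s, t) : S × S) ∈ bad L a W := by
      unfold bad
      rw [Finset.mem_filter, Finset.mem_product, List.mem_toFinset, List.mem_toFinset]
      exact ⟨⟨hs, ht⟩, hst, hne⟩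
    have h2 := Finset.card_pos.2 ⟨_, this⟩
    omega
  | succ n ih =>
    intro W hW hc
    by_cases hb : (bad L a W).Nonempty
    · obtain ⟨⟨s, t⟩, hz⟩ := hb
      have hz' := hz
      unfold bad at hz'
      rw [Finset.mem_filter, Finset.mem_product, List.mem_toFinset, List.mem_toFinset] at hz'
      obtain ⟨⟨hs, ht⟩, hst, hne⟩ := hz'
      simp only at hs ht hst hne
      obtain ⟨W', hW', hpar⟩ := step hRUN L L' W hW s t hs ht hst
      have e1 := hRUN.pari hnd hW s hs t ht hst
      have e2 := ha s hs t ht hst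
      have hne' : par W (t, s) ≠ a t s := by
        intro h
        apply hne
        have : par W (s, t) + par W (t, s) = a s t + a t s := by rw [e1, e2]
        rw [h] at this
        exact add_right_cancel this
      refine ih W' hW' ?_
      have hsub : bad L a W' ⊆ (bad L a W).erase (s, t) := by
        intro z hz2
        unfold bad at hz2
        rw [Finset.mem_filter, Finset.mem_product, List.mem_toFinset, List.mem_toFinset] at hz2
        obtain ⟨⟨h1, h2⟩, h3, h4⟩ := hz2
        rw [hpar z] at h4
        have hzs : z ≠ (s, t) := by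
          intro h
          subst h
          apply h4
          rw [if_pos (Or.inl rfl)]
          exact add_one_of_ne hne
        have hzt : z ≠ (t, s) := by
          intro h
          subst h
          apply h4
          rw [if_pos (Or.inr rfl)]
          exact add_one_of_ne hne'
        rw [if_neg (by rintro (h | h); exact hzs h; exact hzt h), add_zero] at h4
        rw [Finset.mem_erase]
        refine ⟨hzs, ?_⟩
        unfold bad
        rw [Finset.mem_filter, Finset.mem_product, List.mem_toFinset, List.mem_toFinset]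
        exact ⟨⟨h1, h2⟩, h3, h4⟩
      have h5 := Finset.card_le_card hsub
      rw [Finset.card_erase_of_mem hz] at h5
      omega
    · refine ih W hW ?_
      rw [Finset.not_nonempty_iff_eq_empty] at hb
      rw [hb]
      simp

end Pool.Agent.Lib.MP3ff0f8.T
end

section
/-!
# Module RES: restriction of a diagram to a subgraph
-/
namespace Pool.Agent.Lib.MP3ff0f8.T

namespace RESM

variable {V E : Type}

/-- `bet` vanishes if one of the four strands is not on the curve -/
lemma bet_off {S : Type} [DecidableEq S] (q : List (S × Bool)) (z w : S × S)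
    (h : ¬ (on q z.1 ∧ on q z.2 ∧ on q w.1 ∧ on q w.2)) : bet q z w = 0 := by
  unfold bet
  rw [if_neg h]

/-- `lk` is unchanged by a filter keeping all events between edges of `Y` -/
lemma lk_filter [DecidableEq E] (Y : Finset E) (W : List (Dart E × Dart E)) (c c' : List (Dart E))
    (hc : ∀ d ∈ c, d.1 ∈ Y) (hc' : ∀ d ∈ c', d.1 ∈ Y) :
    lk (W.filter fun z => decide (z.1.1 ∈ Y) && decide (z.2.1 ∈ Y)) c c' = lk W c c' := by
  unfold lk
  rw [List.countP_filter]
  congr 1
  apply List.countP_congr
  intro z _
  simp only [List.mem_map, Bool.decide_and, Bool.and_eq_true, decide_eq_true_eq]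
  constructor
  · rintro ⟨h, _⟩
    exact h
  · rintro ⟨⟨d, hd, hd'⟩, ⟨d', hd'', hd'''⟩⟩
    refine ⟨⟨⟨d, hd, hd'⟩, ⟨d', hd'', hd'''⟩⟩, ?_, ?_⟩
    · rw [← hd']; exact hc d hd
    · rw [← hd''']; exact hc' d' hd''

end RESM

open RESM in
theorem specRES (hPSU : SpecPSU) (hRUN : SpecRUN) (hBLK : SpecBLK) (hCYC : SpecCYC) : SpecRES := by
  intro V E _ G bot top W hD Y hY
  refine ⟨bot.filter fun x => decide (x.1 ∈ Y), W.filter fun z => decide (z.1.1 ∈ Y) && decide (z.2.1 ∈ Y),
    top.filter fun x => decide (x.1 ∈ Y), ?_, ?_, ?_⟩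
  · refine ⟨?_, ⟨?_, ?_, ?_, ?_⟩⟩
    · intro d
      simp only [List.mem_filter, decide_eq_true_eq, Gr.res]
      constructor
      · exact fun h => h.2
      · exact fun h => ⟨(hD.mb d).2 (hY h), h⟩
    · exact hD.dia.nd.filter _
    · exact hBLK.fil _ _ _ hD.dia.bb
    · exact hBLK.fil _ _ _ hD.dia.tt
    · exact hRUN.filt (fun x => decide (x.1 ∈ Y)) hD.dia.run
  · intro c hc
    have hcY : ∀ d ∈ c, d.1 ∈ Y := fun d hd => hc.mem d hd
    have hon : ∀ s : Dart E, on (cv c) s → s.1 ∈ Y := by
      intro s hs
      rw [hCYC.on] at hs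
      obtain ⟨d, hd, hd'⟩ := List.mem_map.1 hs
      rw [← hd']
      exact hcY d hd
    unfold AW
    apply hPSU.fil
    intro z _ w _ h
    apply bet_off
    rintro ⟨h1, h2, h3, h4⟩
    rcases h with h | h
    · simp only [Bool.and_eq_false_iff, decide_eq_false_iff_not] at h
      rcases h with h | h
      · exact h (hon _ h1)
      · exact h (hon _ h2)
    · simp only [Bool.and_eq_false_iff, decide_eq_false_iff_not] at h
      rcases h with h | h
      · exact h (hon _ h3)
      · exact h (hon _ h4)
  · intro c c' hc hc'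
    exact lk_filter Y W c c' (fun d hd => hc.mem d hd) (fun d hd => hc'.mem d hd)

end Pool.Agent.Lib.MP3ff0f8.T
end

section
/-! # MP_3ff0f8_gt, module RUN: elementary properties of runs (helper18) -/
namespace Pool.Agent.Lib.MP3ff0f8.T.RUNM

open Pool.Agent.Lib.MP3ff0f8.T

theorem trans {S : Type} {L L' L'' : List S} {W W' : List (S × S)} (h : Run L W L')
    (h' : Run L' W' L'') : Run L (W ++ W') L'' := by
  induction h
  · rename_i L
    exact h'
  · rename_i A B s t W L' _ ih
    exact Run.over A B s t _ _ (ih h')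
  · rename_i A B s t W L' _ ih
    exact Run.under A B s t _ _ (ih h')

/-- a single exchange -/
theorem one {S : Type} (A B : List S) (s t : S) : Run (A ++ s :: t :: B) [(s, t)] (A ++ t :: s :: B) :=
  Run.over A B s t _ _ (Run.nil _)

theorem one' {S : Type} (A B : List S) (s t : S) : Run (A ++ s :: t :: B) [(t, s)] (A ++ t :: s :: B) :=
  Run.under A B s t _ _ (Run.nil _)

theorem rev {S : Type} {L L' : List S} {W : List (S × S)} (h : Run L W L') :
    Run L' W.reverse L := by
  induction h
  · rename_i L
    exact Run.nil L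
  · rename_i A B s t W L' _ ih
    rw [List.reverse_cons]; exact trans ih (one' A B t s)
  · rename_i A B s t W L' _ ih
    rw [List.reverse_cons]; exact trans ih (one A B t s)

theorem perm_swap {S : Type} (A B : List S) (s t : S) :
    (A ++ s :: t :: B).Perm (A ++ t :: s :: B) :=
  List.Perm.append_left A (List.Perm.swap t s B)

theorem perm {S : Type} {L L' : List S} {W : List (S × S)} (h : Run L W L') : L.Perm L' := by
  induction h
  · rename_i L
    exact List.Perm.refl L
  · rename_i A B s t W L' _ ih
    exact (perm_swap A B s t).trans ih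
  · rename_i A B s t W L' _ ih
    exact (perm_swap A B s t).trans ih

theorem ctx {S : Type} {L L' : List S} {W : List (S × S)} (P Q : List S) (h : Run L W L') :
    Run (P ++ L ++ Q) W (P ++ L' ++ Q) := by
  induction h
  · rename_i L
    exact Run.nil _
  · rename_i A B s t W L' _ ih
    have := Run.over (P ++ A) (B ++ Q) s t W (P ++ L' ++ Q) (by simpa using ih)
    simpa using this
  · rename_i A B s t W L' _ ih
    have := Run.under (P ++ A) (B ++ Q) s t W (P ++ L' ++ Q) (by simpa using ih)
    simpa using this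

theorem mir {S : Type} {L L' : List S} {W : List (S × S)} (h : Run L W L') :
    Run L.reverse W L'.reverse := by
  induction h
  · rename_i L
    exact Run.nil _
  · rename_i A B s t W L' _ ih
    have := Run.under B.reverse A.reverse t s W L'.reverse (by simpa using ih)
    simpa using this
  · rename_i A B s t W L' _ ih
    have := Run.over B.reverse A.reverse t s W L'.reverse (by simpa using ih)
    simpa using this

theorem filt {S : Type} {L L' : List S} {W : List (S × S)} (P : S → Bool) (h : Run L W L') :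
    Run (L.filter P) (W.filter fun z => P z.1 && P z.2) (L'.filter P) := by
  induction h
  · rename_i L
    exact Run.nil _
  · rename_i A B s t W L' _ ih
    simp only [List.filter_append] at ih ⊢
    by_cases hs : P s = true <;> by_cases ht : P t = true
    · rw [List.filter_cons_of_pos ht, List.filter_cons_of_pos hs] at ih
      rw [List.filter_cons_of_pos hs, List.filter_cons_of_pos ht, List.filter_cons_of_pos (by simp [hs, ht])]
      exact Run.over _ _ s t _ _ ih
    · rw [List.filter_cons_of_neg ht, List.filter_cons_of_pos hs] at ih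
      rw [List.filter_cons_of_pos hs, List.filter_cons_of_neg ht, List.filter_cons_of_neg (by simp [ht])]
      exact ih
    · rw [List.filter_cons_of_pos ht, List.filter_cons_of_neg hs] at ih
      rw [List.filter_cons_of_neg hs, List.filter_cons_of_pos ht, List.filter_cons_of_neg (by simp [hs])]
      exact ih
    · rw [List.filter_cons_of_neg ht, List.filter_cons_of_neg hs] at ih
      rw [List.filter_cons_of_neg hs, List.filter_cons_of_neg ht, List.filter_cons_of_neg (by simp [hs])]
      exact ih
  · rename_i A B s t W L' _ ih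
    simp only [List.filter_append] at ih ⊢
    by_cases hs : P s = true <;> by_cases ht : P t = true
    · rw [List.filter_cons_of_pos ht, List.filter_cons_of_pos hs] at ih
      rw [List.filter_cons_of_pos hs, List.filter_cons_of_pos ht, List.filter_cons_of_pos (by simp [hs, ht])]
      exact Run.under _ _ s t _ _ ih
    · rw [List.filter_cons_of_neg ht, List.filter_cons_of_pos hs] at ih
      rw [List.filter_cons_of_pos hs, List.filter_cons_of_neg ht, List.filter_cons_of_neg (by simp [ht])]
      exact ih
    · rw [List.filter_cons_of_pos ht, List.filter_cons_of_neg hs] at ih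
      rw [List.filter_cons_of_neg hs, List.filter_cons_of_pos ht, List.filter_cons_of_neg (by simp [hs])]
      exact ih
    · rw [List.filter_cons_of_neg ht, List.filter_cons_of_neg hs] at ih
      rw [List.filter_cons_of_neg hs, List.filter_cons_of_neg ht, List.filter_cons_of_neg (by simp [hs])]
      exact ih

theorem map {S S' : Type} {L L' : List S} {W : List (S × S)} (f : S → S') (h : Run L W L') :
    Run (L.map f) (W.map (Prod.map f f)) (L'.map f) := by
  induction h
  · rename_i L
    exact Run.nil _
  · rename_i A B s t W L' _ ih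
    have := Run.over (A.map f) (B.map f) (f s) (f t) _ _ (by simpa using ih)
    simpa using this
  · rename_i A B s t W L' _ ih
    have := Run.under (A.map f) (B.map f) (f s) (f t) _ _ (by simpa using ih)
    simpa using this

theorem mem {S : Type} {L L' : List S} {W : List (S × S)} (hn : L.Nodup) (h : Run L W L') :
    ∀ z ∈ W, z.1 ∈ L ∧ z.2 ∈ L ∧ z.1 ≠ z.2 := by
  induction h
  · rename_i L
    simp
  · rename_i A B s t W L' _ ih
    have hp := perm_swap A B s t
    have ih' := ih (hp.nodup_iff.1 hn)
    intro z hz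
    rcases List.mem_cons.1 hz with rfl | hz
    · refine ⟨by simp, by simp, ?_⟩
      have := (List.nodup_append.1 hn).2.1
      simp at this
      exact this.1.1
    · obtain ⟨h1, h2, h3⟩ := ih' z hz
      exact ⟨hp.mem_iff.2 h1, hp.mem_iff.2 h2, h3⟩
  · rename_i A B s t W L' _ ih
    have hp := perm_swap A B s t
    have ih' := ih (hp.nodup_iff.1 hn)
    intro z hz
    rcases List.mem_cons.1 hz with rfl | hz
    · refine ⟨by simp, by simp, ?_⟩
      have := (List.nodup_append.1 hn).2.1
      simp at this
      exact fun h => this.1.1 h.symm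
    · obtain ⟨h1, h2, h3⟩ := ih' z hz
      exact ⟨hp.mem_iff.2 h1, hp.mem_iff.2 h2, h3⟩

/-- additivity of the inversion -/
theorem inv_add {S : Type} [DecidableEq S] (L M L' : List S) (s t : S) :
    inv L L' s t = inv L M s t + inv M L' s t := by
  unfold inv
  by_cases h1 : L.idxOf s < L.idxOf t <;> by_cases h2 : M.idxOf s < M.idxOf t <;>
    by_cases h3 : L'.idxOf s < L'.idxOf t <;> simp [h1, h2, h3] <;> decide

/-- the index of an element of `A ++ s :: t :: B` -/
theorem idx_swap {S : Type} [DecidableEq S] (A B : List S) (s t : S)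
    (hn : (A ++ s :: t :: B).Nodup) :
    (A ++ s :: t :: B).idxOf s = A.length ∧ (A ++ s :: t :: B).idxOf t = A.length + 1 ∧
    (A ++ t :: s :: B).idxOf s = A.length + 1 ∧ (A ++ t :: s :: B).idxOf t = A.length ∧
    ∀ x ∈ A ++ s :: t :: B, x ≠ s → x ≠ t →
      (A ++ s :: t :: B).idxOf x = (A ++ t :: s :: B).idxOf x ∧
      ((A ++ s :: t :: B).idxOf x < A.length ∨ A.length + 1 < (A ++ s :: t :: B).idxOf x) := by
  obtain ⟨hA, hB, hAB⟩ := List.nodup_append.1 hn
  have hsA : s ∉ A := fun h => hAB s h s (by simp) rfl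
  have htA : t ∉ A := fun h => hAB t h t (by simp) rfl
  have hst : s ≠ t := by simp at hB; exact hB.1.1
  refine ⟨?_, ?_, ?_, ?_, ?_⟩
  · rw [List.idxOf_append_of_notMem hsA]; simp
  · rw [List.idxOf_append_of_notMem htA, List.idxOf_cons_ne _ hst, List.idxOf_cons_self]
  · rw [List.idxOf_append_of_notMem hsA, List.idxOf_cons_ne _ hst.symm, List.idxOf_cons_self]
  · rw [List.idxOf_append_of_notMem htA]; simp
  · intro x hx hxs hxt
    by_cases hxA : x ∈ A
    · rw [List.idxOf_append_of_mem hxA, List.idxOf_append_of_mem hxA]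
      exact ⟨rfl, Or.inl (List.idxOf_lt_length_iff.2 hxA)⟩
    · rw [List.idxOf_append_of_notMem hxA, List.idxOf_append_of_notMem hxA,
        List.idxOf_cons_ne _ hxs.symm, List.idxOf_cons_ne _ hxt.symm,
        List.idxOf_cons_ne _ hxt.symm, List.idxOf_cons_ne _ hxs.symm]
      exact ⟨rfl, Or.inr (by omega)⟩

/-- the inversion of a single exchange -/
theorem inv_swap {S : Type} [DecidableEq S] (A B : List S) (s t : S)
    (hn : (A ++ s :: t :: B).Nodup) (x y : S) (hx : x ∈ A ++ s :: t :: B)
    (hy : y ∈ A ++ s :: t :: B) (hxy : x ≠ y) :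
    inv (A ++ s :: t :: B) (A ++ t :: s :: B) x y =
      if (x = s ∧ y = t) ∨ (x = t ∧ y = s) then 1 else 0 := by
  obtain ⟨h1, h2, h3, h4, h5⟩ := idx_swap A B s t hn
  have hst : s ≠ t := by
    have hB := (List.nodup_append.1 hn).2.1
    simp at hB; exact hB.1.1
  unfold inv
  by_cases hxs : x = s
  · subst hxs
    by_cases hyt : y = t
    · subst hyt; rw [h1, h2, h3, h4]; simp
    · obtain ⟨e1, e2⟩ := h5 y hy hxy.symm hyt
      rw [h1, h3, ← e1, if_pos (by omega), if_neg]
      rintro (⟨_, h⟩ | ⟨h, _⟩)
      · exact hyt h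
      · exact hst h
  · by_cases hxt : x = t
    · subst hxt
      by_cases hys : y = s
      · subst hys; rw [h1, h2, h3, h4]; simp
      · obtain ⟨e1, e2⟩ := h5 y hy hys hxy.symm
        rw [h2, h4, ← e1, if_pos (by omega), if_neg]
        rintro (⟨h, _⟩ | ⟨_, h⟩)
        · exact hxs h
        · exact hys h
    · obtain ⟨e1, e2⟩ := h5 x hx hxs hxt
      rw [← e1]
      have hif : ¬ ((x = s ∧ y = t) ∨ (x = t ∧ y = s)) := by
        rintro (⟨h, _⟩ | ⟨h, _⟩)
        · exact hxs h
        · exact hxt h
      rw [if_neg hif]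
      by_cases hys : y = s
      · subst hys; rw [h1, h3, if_pos (by omega)]
      · by_cases hyt : y = t
        · subst hyt; rw [h2, h4, if_pos (by omega)]
        · obtain ⟨e3, _⟩ := h5 y hy hys hyt
          rw [← e3, if_pos Iff.rfl]

theorem par_cons {α : Type} [DecidableEq α] (z w : α) (W : List α) :
    par (z :: W) w = (if z = w then 1 else 0) + par W w := by
  unfold par
  rw [List.count_cons]
  by_cases h : z = w
  · subst h; simp; ring
  · simp [h]

theorem pari {S : Type} [DecidableEq S] {L L' : List S} {W : List (S × S)} (hn : L.Nodup)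
    (h : Run L W L') : ∀ s ∈ L, ∀ t ∈ L, s ≠ t → par W (s, t) + par W (t, s) = inv L L' s t := by
  induction h
  · rename_i L
    intro s _ t _ _; simp [par, inv]
  · rename_i A B s t W L' _ ih
    intro x hx y hy hxy
    have hp := perm_swap A B s t
    have ih' := ih (hp.nodup_iff.1 hn) x (hp.mem_iff.1 hx) y (hp.mem_iff.1 hy) hxy
    rw [inv_add (A ++ s :: t :: B) (A ++ t :: s :: B) L' x y, ← ih', inv_swap A B s t hn x y hx hy hxy,
      par_cons, par_cons]
    have e1 : ((s, t) = (x, y)) ↔ (x = s ∧ y = t) := by simp [Prod.ext_iff, eq_comm]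
    have e2 : ((s, t) = (y, x)) ↔ (x = t ∧ y = s) := by simp [Prod.ext_iff, eq_comm, and_comm]
    simp only [e1, e2]
    by_cases h1 : x = s ∧ y = t
    · have h2 : ¬ (x = t ∧ y = s) := fun h2 => hxy (h1.1.trans h2.2.symm)
      simp only [h1, and_self, true_or, if_true]
      rw [if_neg (by rintro ⟨a, b⟩; exact h2 ⟨h1.1.trans a, h1.2.trans b⟩)]
      ring
    · by_cases h2 : x = t ∧ y = s
      · simp only [if_neg h1, if_pos h2]
        rw [if_pos (Or.inr h2)]
        ring
      · rw [if_neg h1, if_neg h2, if_neg (by tauto)]; ring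
  · rename_i A B s t W L' _ ih
    intro x hx y hy hxy
    have hp := perm_swap A B s t
    have ih' := ih (hp.nodup_iff.1 hn) x (hp.mem_iff.1 hx) y (hp.mem_iff.1 hy) hxy
    rw [inv_add (A ++ s :: t :: B) (A ++ t :: s :: B) L' x y, ← ih', inv_swap A B s t hn x y hx hy hxy,
      par_cons, par_cons]
    have e1 : ((t, s) = (x, y)) ↔ (x = t ∧ y = s) := by simp [Prod.ext_iff, eq_comm]
    have e2 : ((t, s) = (y, x)) ↔ (x = s ∧ y = t) := by simp [Prod.ext_iff, eq_comm, and_comm]
    simp only [e1, e2]
    by_cases h1 : x = s ∧ y = t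
    · have h2 : ¬ (x = t ∧ y = s) := fun h2 => hxy (h1.1.trans h2.2.symm)
      rw [if_neg h2, if_pos h1, if_pos (Or.inl h1)]
      ring
    · by_cases h2 : x = t ∧ y = s
      · rw [if_neg h1, if_pos h2, if_pos (Or.inr h2)]
        ring
      · rw [if_neg h1, if_neg h2, if_neg (by tauto)]; ring

theorem appr {S : Type} {L L' : List S} {W₁ W₂ : List (S × S)} (h : Run L (W₁ ++ W₂) L') :
    ∃ M, Run L W₁ M ∧ Run M W₂ L' := by
  generalize hW : W₁ ++ W₂ = W at h
  induction h generalizing W₁
  · rename_i L
    obtain ⟨rfl, rfl⟩ := List.append_eq_nil_iff.1 hW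
    exact ⟨L, Run.nil L, Run.nil L⟩
  · rename_i A B s t W L' hr ih
    match W₁, hW with
    | [], hW =>
      rw [List.nil_append] at hW
      subst hW
      exact ⟨_, Run.nil _, Run.over A B s t _ _ hr⟩
    | z :: W₁, hW =>
      rw [List.cons_append, List.cons.injEq] at hW
      obtain ⟨rfl, hW⟩ := hW
      obtain ⟨M, h1, h2⟩ := ih hW
      exact ⟨M, Run.over A B s t _ _ h1, h2⟩
  · rename_i A B s t W L' hr ih
    match W₁, hW with
    | [], hW =>
      rw [List.nil_append] at hW
      subst hW
      exact ⟨_, Run.nil _, Run.under A B s t _ _ hr⟩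
    | z :: W₁, hW =>
      rw [List.cons_append, List.cons.injEq] at hW
      obtain ⟨rfl, hW⟩ := hW
      obtain ⟨M, h1, h2⟩ := ih hW
      exact ⟨M, Run.under A B s t _ _ h1, h2⟩

theorem cons_inv {S : Type} {L L' : List S} {W : List (S × S)} {z : S × S}
    (h : Run L (z :: W) L') : ∃ (A B : List S) (s t : S), L = A ++ s :: t :: B ∧
      Run (A ++ t :: s :: B) W L' ∧ (z = (s, t) ∨ z = (t, s)) := by
  cases h
  · rename_i A B s t hr; exact ⟨A, B, s, t, rfl, hr, Or.inl rfl⟩
  · rename_i A B s t hr; exact ⟨A, B, s, t, rfl, hr, Or.inr rfl⟩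

theorem split {S : Type} {L L' : List S} {W₁ W₂ : List (S × S)} {z : S × S}
    (h : Run L (W₁ ++ z :: W₂) L') : ∃ (A B : List S) (s t : S), Run L W₁ (A ++ s :: t :: B) ∧
      Run (A ++ t :: s :: B) W₂ L' ∧ (z = (s, t) ∨ z = (t, s)) := by
  obtain ⟨M, h1, h2⟩ := appr h
  obtain ⟨A, B, s, t, hM, hr, hz⟩ := cons_inv h2
  exact ⟨A, B, s, t, hM ▸ h1, hr, hz⟩

theorem exi {S : Type} {L L' : List S} (h : L.Perm L') : ∃ W, Run L W L' := by
  induction h with
  | nil => exact ⟨[], Run.nil _⟩
  | cons x _ ih =>
    obtain ⟨W, hW⟩ := ih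
    exact ⟨W, by simpa using ctx [x] [] hW⟩
  | swap x y l => exact ⟨_, one [] l y x⟩
  | trans _ _ ih1 ih2 =>
    obtain ⟨W, hW⟩ := ih1
    obtain ⟨W', hW'⟩ := ih2
    exact ⟨_, trans hW hW'⟩

/-- the strand `p` passes over `Q` -/
theorem exch_one {S : Type} (p : S) (Q : List S) :
    ∃ W, Run (p :: Q) W (Q ++ [p]) ∧ ∀ z ∈ W, z.1 = p ∧ z.2 ∈ Q := by
  induction Q with
  | nil => exact ⟨[], Run.nil _, by simp⟩
  | cons q Q ih =>
    obtain ⟨W, hW, hm⟩ := ih
    refine ⟨(p, q) :: W, ?_, ?_⟩
    · have := Run.over [] Q p q W (q :: (Q ++ [p])) (by simpa using ctx [q] [] hW)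
      simpa using this
    · intro z hz
      rcases List.mem_cons.1 hz with rfl | hz
      · simp
      · exact ⟨(hm z hz).1, List.mem_cons_of_mem _ (hm z hz).2⟩

theorem exch {S : Type} (P Q : List S) :
    ∃ W, Run (P ++ Q) W (Q ++ P) ∧ ∀ z ∈ W, z.1 ∈ P ∧ z.2 ∈ Q := by
  induction P with
  | nil => exact ⟨[], by simpa using Run.nil Q, by simp⟩
  | cons p P ih =>
    obtain ⟨W, hW, hm⟩ := ih
    obtain ⟨W', hW', hm'⟩ := exch_one p Q
    refine ⟨W ++ W', ?_, ?_⟩
    · apply trans (L' := p :: (Q ++ P))
      · simpa using ctx [p] [] hW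
      · simpa using ctx [] P hW'
    · intro z hz
      rcases List.mem_append.1 hz with hz | hz
      · exact ⟨List.mem_cons_of_mem _ (hm z hz).1, (hm z hz).2⟩
      · exact ⟨by rw [(hm' z hz).1]; simp, (hm' z hz).2⟩

theorem exch' {S : Type} (P Q : List S) :
    ∃ W, Run (P ++ Q) W (Q ++ P) ∧ ∀ z ∈ W, z.1 ∈ Q ∧ z.2 ∈ P := by
  obtain ⟨W, hW, hm⟩ := exch Q P
  exact ⟨W.reverse, rev hW, fun z hz => hm z (List.mem_reverse.1 hz)⟩

end Pool.Agent.Lib.MP3ff0f8.T.RUNM

namespace Pool.Agent.Lib.MP3ff0f8.T

theorem specRUN : SpecRUN where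
  trans := RUNM.trans
  rev := RUNM.rev
  perm := RUNM.perm
  ctx := RUNM.ctx
  mir := RUNM.mir
  filt := RUNM.filt
  map := RUNM.map
  mem := RUNM.mem
  pari := RUNM.pari
  split := RUNM.split
  appr := RUNM.appr
  exi := RUNM.exi
  exch := RUNM.exch
  exch' := RUNM.exch'

end Pool.Agent.Lib.MP3ff0f8.T
end

section
/-!
# MP_3ff0f8_gt, topological half: module SEP

A separation of minimal order: both sides contain a connected set of inner vertices which is
adjacent to all the common vertices.
-/
namespace Pool.Agent.Lib.MP3ff0f8.T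

open Finset

namespace SEPM

variable {V E : Type} [DecidableEq V] [DecidableEq E] {G : Gr V E}

omit [DecidableEq E] in
theorem mem_vs {A : Finset E} {x : V} : x ∈ G.vs A ↔ ∃ d : Dart E, d.1 ∈ A ∧ G.vt d = x := by
  unfold Gr.vs
  simp only [mem_image, mem_product, mem_univ, and_true]

omit [DecidableEq E] in
/-- a graph without loops and parallel edges with at most three vertices has at most that many
edges -/
theorem small (hl : Loopless G) (hn : NoPar G) {B : Finset E} (hB : B ⊆ G.X) {T : Finset V}
    (hT : T.card ≤ 3) (hs : G.vs B ⊆ T) : B.card ≤ T.card := by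
  have h1 : B.card ≤ (T.powersetCard 2).card := by
    apply Finset.card_le_card_of_injOn (fun e => ({G.vt (e, false), G.vt (e, true)} : Finset V))
    · intro e he
      have he' : e ∈ B := he
      rw [Finset.mem_coe, Finset.mem_powersetCard]
      refine ⟨?_, ?_⟩
      · intro x hx
        simp only [Finset.mem_insert, Finset.mem_singleton] at hx
        apply hs
        rw [mem_vs]
        rcases hx with hx | hx
        · exact ⟨(e, false), he', hx.symm⟩
        · exact ⟨(e, true), he', hx.symm⟩
      · apply Finset.card_pair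
        exact hl (e, false) (hB he')
    · intro e he e' he' h
      have he1 : e ∈ B := he
      have he1' : e' ∈ B := he'
      simp only at h
      have ha : G.vt (e, false) ∈ ({G.vt (e', false), G.vt (e', true)} : Finset V) := by
        rw [← h]; simp
      have hb : G.vt (e, true) ∈ ({G.vt (e', false), G.vt (e', true)} : Finset V) := by
        rw [← h]; simp
      have hne := hl (e, false) (hB he1)
      have hne' : G.vt (e, false) ≠ G.vt (e, true) := hne
      simp only [Finset.mem_insert, Finset.mem_singleton] at ha hb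
      rcases ha with ha | ha
      · rcases hb with hb | hb
        · exact absurd (ha.trans hb.symm) hne'
        · exact hn (e, false) (e', false) (hB he1) (hB he1') ha hb
      · rcases hb with hb | hb
        · exact hn (e, false) (e', true) (hB he1) (hB he1') ha hb
        · exact absurd (ha.trans hb.symm) hne'
  rw [Finset.card_powersetCard] at h1
  refine h1.trans ?_
  generalize T.card = k at hT
  interval_cases k <;> decide

/-- one side of the statement -/
theorem half (hl : Loopless G) (hn : NoPar G) (hd : Deg3 G) {A B : Finset E} (hAB : Disjoint A B)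
    (hU : A ∪ B = G.X) (h3 : (G.vs A ∩ G.vs B).card ≤ 3)
    (hA : (G.vs A ∩ G.vs B).card < A.card) (hB : (G.vs A ∩ G.vs B).card < B.card)
    (hmin : ∀ A' B' : Finset E, Disjoint A' B' → A' ∪ B' = G.X →
      (G.vs A' ∩ G.vs B').card < (G.vs A ∩ G.vs B).card →
      A'.card ≤ (G.vs A' ∩ G.vs B').card ∨ B'.card ≤ (G.vs A' ∩ G.vs B').card) :
    ∃ K : Finset V, K.Nonempty ∧ Conn G B K ∧ (∀ w ∈ K, w ∉ G.vs A) ∧
      ∀ t ∈ G.vs A ∩ G.vs B, ∃ f : Dart E, f.1 ∈ B ∧ G.vt f ∈ K ∧ G.vt (rv f) = t := by
  classical
  have hBX : B ⊆ G.X := by rw [← hU]; exact Finset.subset_union_right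
  have hAX : A ⊆ G.X := by rw [← hU]; exact Finset.subset_union_left
  obtain ⟨w, hwB, hwA⟩ : ∃ w, w ∈ G.vs B ∧ w ∉ G.vs A := by
    by_contra hcon
    push Not at hcon
    have : G.vs B ⊆ G.vs A ∩ G.vs B := fun x hx => Finset.mem_inter.2 ⟨hcon x hx, hx⟩
    have := small hl hn hBX h3 this
    omega
  let R : V → V → Prop := fun x y => ∃ d : Dart E, d.1 ∈ B ∧ G.vt d = x ∧ G.vt (rv d) = y ∧
    y ∉ G.vs A
  let K : Finset V := (G.vs B).filter fun x => Relation.ReflTransGen R w x
  have hK : ∀ x, x ∈ K ↔ Relation.ReflTransGen R w x := by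
    intro x
    simp only [K, Finset.mem_filter, and_iff_right_iff_imp]
    intro hx
    induction hx with
    | refl => exact hwB
    | tail _ h _ =>
      obtain ⟨d, hd1, _, hd3, _⟩ := h
      exact mem_vs.2 ⟨rv d, hd1, hd3⟩
  have hKA : ∀ x ∈ K, x ∉ G.vs A := by
    intro x hx
    rw [hK] at hx
    induction hx with
    | refl => exact hwA
    | tail _ h _ =>
      obtain ⟨d, _, _, _, hd4⟩ := h
      exact hd4
  have hKB : ∀ x ∈ K, ∀ d : Dart E, d.1 ∈ G.X → G.vt d = x → d.1 ∈ B := by
    intro x hx d hdX hdx
    rw [← hU, Finset.mem_union] at hdX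
    rcases hdX with h | h
    · exact absurd (mem_vs.2 ⟨d, h, hdx⟩) (hKA x hx)
    · exact h
  have hcl : ∀ d : Dart E, d.1 ∈ B → G.vt d ∈ K → G.vt (rv d) ∉ G.vs A → G.vt (rv d) ∈ K := by
    intro d h1 h2 h3
    rw [hK] at h2 ⊢
    exact h2.tail ⟨d, h1, rfl, rfl, h3⟩
  have hwK : w ∈ K := (hK w).2 Relation.ReflTransGen.refl
  refine ⟨K, ⟨w, hwK⟩, ?_, hKA, ?_⟩
  · intro S hSK hSn hSne
    by_contra hcon
    push Not at hcon
    have key : ∀ x, Relation.ReflTransGen R w x → (x ∈ S ↔ w ∈ S) := by
      intro x hx
      induction hx with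
      | refl => rfl
      | @tail y z hwy h ih =>
        obtain ⟨d, hd1, hd2, hd3, hd4⟩ := h
        have hy : y ∈ K := (hK y).2 hwy
        have hz : z ∈ K := (hK z).2 (hwy.tail ⟨d, hd1, hd2, hd3, hd4⟩)
        rw [← ih]
        constructor
        · intro hzS
          by_contra hyS
          have := hcon (rv d) hd1 (by rw [hd3]; exact hzS)
          have hrr : rv (rv d) = d := by
            unfold rv; simp
          rw [hrr, hd2] at this
          exact hyS (this hy)
        · intro hyS
          have := hcon d hd1 (by rw [hd2]; exact hyS)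
          rw [hd3] at this
          exact this hz
    obtain ⟨x, hx⟩ := hSn
    have hwS : w ∈ S := (key x ((hK x).1 (hSK hx))).1 hx
    apply hSne
    apply Finset.Subset.antisymm hSK
    intro y hy
    exact (key y ((hK y).1 hy)).2 hwS
  · intro t ht
    by_contra hcon
    push Not at hcon
    let A' : Finset E := G.X.filter fun e => ∃ b, G.vt (e, b) ∈ K
    have hA'B : A' ⊆ B := by
      intro e he
      simp only [A', Finset.mem_filter] at he
      obtain ⟨heX, b, hb⟩ := he
      exact hKB _ hb (e, b) heX rfl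
    have hmemA' : ∀ d : Dart E, d.1 ∈ G.X → G.vt d ∈ K → d.1 ∈ A' := by
      intro d h1 h2
      simp only [A', Finset.mem_filter]
      exact ⟨h1, d.2, h2⟩
    have hsub : G.vs A' ∩ G.vs (G.X \ A') ⊆ (G.vs A ∩ G.vs B).erase t := by
      intro x hx
      rw [Finset.mem_inter] at hx
      obtain ⟨hx1, hx2⟩ := hx
      obtain ⟨d, hdA, hdx⟩ := mem_vs.1 hx1
      obtain ⟨d₂, hdA₂, hdx₂⟩ := mem_vs.1 hx2
      rw [Finset.mem_sdiff] at hdA₂
      have hxK : x ∉ K := by
        intro hxK
        exact hdA₂.2 (hmemA' d₂ hdA₂.1 (by rw [hdx₂]; exact hxK))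
      have hdB : d.1 ∈ B := hA'B hdA
      have hrK : G.vt (rv d) ∈ K := by
        simp only [A', Finset.mem_filter] at hdA
        obtain ⟨_, b, hb⟩ := hdA
        by_cases hbd : b = d.2
        · subst hbd
          exact absurd (by rw [← hdx]; exact hb) hxK
        · have : b = !d.2 := by
            cases b <;> cases h : d.2 <;> simp_all
          subst this
          exact hb
      have hrr : rv (rv d) = d := by
        unfold rv; simp
      rw [Finset.mem_erase, Finset.mem_inter]
      refine ⟨?_, ?_, mem_vs.2 ⟨d, hdB, hdx⟩⟩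
      · intro hxt
        apply hcon (rv d) hdB hrK
        rw [hrr, hdx, hxt]
      · by_contra hxA
        apply hxK
        have := hcl (rv d) hdB hrK (by rw [hrr, hdx]; exact hxA)
        rw [hrr, hdx] at this
        exact this
    have hlt : (G.vs A' ∩ G.vs (G.X \ A')).card < (G.vs A ∩ G.vs B).card := by
      refine (Finset.card_le_card hsub).trans_lt ?_
      exact Finset.card_erase_lt_of_mem ht
    have hc1 : 3 ≤ A'.card := by
      obtain ⟨d, hdB, hdw⟩ := mem_vs.1 hwB
      have hst : ∀ x : Dart E, x ∈ G.st w ↔ x.1 ∈ G.X ∧ G.vt x = w := by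
        intro x
        unfold Gr.st
        simp only [mem_filter, mem_product, mem_univ, and_true]
      have h3' : 3 ≤ (G.st w).card := hd w ⟨d, (hst d).2 ⟨hBX hdB, hdw⟩⟩
      refine h3'.trans ?_
      apply Finset.card_le_card_of_injOn Prod.fst
      · intro x hx
        have hx' := (hst x).1 hx
        exact hmemA' x hx'.1 (by rw [hx'.2]; exact hwK)
      · intro x hx y hy hxy
        have hx' := (hst x).1 hx
        have hy' := (hst y).1 hy
        by_contra hne
        have hyx : y = rv x := by
          rcases x with ⟨x1, x2⟩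
          rcases y with ⟨y1, y2⟩
          simp only at hxy
          subst hxy
          unfold rv
          simp only [Prod.mk.injEq, true_and]
          cases x2 <;> cases y2 <;> simp_all
        exact hl x hx'.1 (by rw [← hyx, hx'.2, hy'.2])
    have hc2 : A.card ≤ (G.X \ A').card := by
      apply Finset.card_le_card
      intro e he
      rw [Finset.mem_sdiff]
      refine ⟨hAX he, fun h => ?_⟩
      exact Finset.disjoint_left.1 hAB he (hA'B h)
    have hd1 : Disjoint A' (G.X \ A') := Finset.disjoint_sdiff
    have hu1 : A' ∪ (G.X \ A') = G.X := by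
      apply Finset.union_sdiff_of_subset
      exact Finset.filter_subset _ _
    rcases hmin A' (G.X \ A') hd1 hu1 hlt with h | h
    · omega
    · omega

end SEPM

open SEPM in
theorem specSEP : SpecSEP := by
  classical
  intro V E _ _ G hl hn hd hs
  let P : ℕ → Prop := fun k => ∃ A B : Finset E, Disjoint A B ∧ A ∪ B = G.X ∧
    (G.vs A ∩ G.vs B).card = k ∧ k ≤ 3 ∧ k < A.card ∧ k < B.card
  have hP : ∃ k, P k := by
    unfold Sep4 at hs
    push Not at hs
    obtain ⟨A, B, h1, h2, h3, h4, h5⟩ := hs
    exact ⟨_, A, B, h1, h2, rfl, h3, h4, h5⟩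
  obtain ⟨A, B, hAB, hU, hk, h3, hA, hB⟩ := Nat.find_spec hP
  have hmin : ∀ A' B' : Finset E, Disjoint A' B' → A' ∪ B' = G.X →
      (G.vs A' ∩ G.vs B').card < Nat.find hP →
      A'.card ≤ (G.vs A' ∩ G.vs B').card ∨ B'.card ≤ (G.vs A' ∩ G.vs B').card := by
    intro A' B' h1 h2 h4
    by_contra hcon
    push Not at hcon
    exact Nat.find_min hP h4 ⟨A', B', h1, h2, rfl, by omega, hcon.1, hcon.2⟩
  generalize Nat.find hP = k at hk h3 hA hB hmin
  subst hk
  obtain ⟨K, hK1, hK2, hK3, hK4⟩ := half hl hn hd hAB hU h3 hA hB hmin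
  have hcomm : G.vs B ∩ G.vs A = G.vs A ∩ G.vs B := Finset.inter_comm _ _
  obtain ⟨L, hL1, hL2, hL3, hL4⟩ := half hl hn hd hAB.symm (by rw [Finset.union_comm]; exact hU)
    (by rw [hcomm]; exact h3) (by rw [hcomm]; exact hB) (by rw [hcomm]; exact hA)
    (by rw [hcomm]; exact hmin)
  rw [hcomm] at hL4
  let e := (G.vs A ∩ G.vs B).equivFin.symm
  have hv : ∀ i, (e i : V) ∈ G.vs A ∩ G.vs B := fun i => (e i).2
  choose f hf using fun i => hK4 (e i) (hv i)
  choose g hg using fun i => hL4 (e i) (hv i)
  refine ⟨(G.vs A ∩ G.vs B).card, A, B, fun i => (e i : V), h3, hAB, hU, hA, hB, ?_, ?_,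
    ⟨K, f, hK1, hK2, hK3, ?_, hf⟩, ⟨L, g, hL1, hL2, hL3, ?_, hg⟩⟩
  · intro i j hij
    exact e.injective (Subtype.ext hij)
  · intro w hw
    refine ⟨e.symm ⟨w, hw⟩, ?_⟩
    simp
  · intro i hi
    exact hK3 _ hi (Finset.mem_inter.1 (hv i)).1
  · intro i hi
    exact hL3 _ hi (Finset.mem_inter.1 (hv i)).2

end Pool.Agent.Lib.MP3ff0f8.T
end
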