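import Pool.Agent.Lib.MP_3ff0f8_gt.T.Spec

/-!
# MP_3ff0f8_gt, topological half: module SUB (subdivision of an edge)
-/

namespace Pool.Agent.Lib.MP3ff0f8.T.SUBM

set_option linter.dupNamespace false
set_option linter.unusedSectionVars false

variable {V E : Type}

theorem rv_rv (x : Dart E) : rv (rv x) = x := by
  obtain ⟨a, b⟩ := x
  simp [rv]

theorem rv_ne (x : Dart E) : rv x ≠ x := by
  intro h
  have := congrArg Prod.snd h
  simp [rv] at this

theorem eq_or (x y : Dart E) (h : x.1 = y.1) : x = y ∨ x = rv y := by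
  obtain ⟨x1, x2⟩ := x
  obtain ⟨y1, y2⟩ := y
  simp only at h
  subst h
  cases x2 <;> cases y2 <;> simp [rv]

/-! ### Congruence of `bet` -/

section

variable {S S' : Type} [DecidableEq S] [DecidableEq S']

theorem bet_congr (q : List (S × Bool)) (q' : List (S' × Bool)) (f : S → S') (z w : S × S)
    (P : S → Prop) (h1 : P z.1) (h2 : P z.2) (h3 : P w.1) (h4 : P w.2)
    (hon : ∀ s, P s → (on q' (f s) ↔ on q s))
    (hl : ∀ s, P s → ∀ t, P t → on q s → on q t → (l01 q' (f s) (f t) ↔ l01 q s t))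
    (hl' : ∀ s, P s → ∀ t, P t → on q s → on q t → (l10 q' (f s) (f t) ↔ l10 q s t)) :
    bet q' (f z.1, f z.2) (f w.1, f w.2) = bet q z w := by
  unfold bet
  by_cases h : on q z.1 ∧ on q z.2 ∧ on q w.1 ∧ on q w.2
  · have h' : on q' (f z.1) ∧ on q' (f z.2) ∧ on q' (f w.1) ∧ on q' (f w.2) :=
      ⟨(hon _ h1).2 h.1, (hon _ h2).2 h.2.1, (hon _ h3).2 h.2.2.1, (hon _ h4).2 h.2.2.2⟩
    rw [if_pos h', if_pos h]
    simp only [hl _ h1 _ h4 h.1 h.2.2.2, hl' _ h4 _ h2 h.2.2.2 h.2.1, hl _ h2 _ h3 h.2.1 h.2.2.1,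
      hl' _ h3 _ h2 h.2.2.1 h.2.1, hl _ h2 _ h4 h.2.1 h.2.2.2, hl' _ h4 _ h1 h.2.2.2 h.1]
  · have h' : ¬ (on q' (f z.1) ∧ on q' (f z.2) ∧ on q' (f w.1) ∧ on q' (f w.2)) := by
      intro h'
      exact h ⟨(hon _ h1).1 h'.1, (hon _ h2).1 h'.2.1, (hon _ h3).1 h'.2.2.1, (hon _ h4).1 h'.2.2.2⟩
    rw [if_neg h', if_neg h]

theorem idxOf_map_inj (f : S → S') (l : List S) (s : S) (h : ∀ x ∈ l, f x = f s → x = s) :
    (l.map f).idxOf (f s) = l.idxOf s := by
  induction l with
  | nil => rfl
  | cons a l ih =>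
    rw [List.map_cons]
    by_cases ha : a = s
    · subst ha
      rw [List.idxOf_cons_self, List.idxOf_cons_self]
    · have ha' : f a ≠ f s := fun e => ha (h a (List.mem_cons_self ..) e)
      rw [List.idxOf_cons_ne _ ha', List.idxOf_cons_ne _ ha,
        ih (fun x hx => h x (List.mem_cons_of_mem _ hx))]

theorem idxOf_self (x : S) (l : List S) : (x :: l).idxOf x = 0 := List.idxOf_cons_self

theorem idxOf_last (x y : S) (l : List S) (hx : x ≠ y) (hy : y ∉ l) :
    (x :: (l ++ [y])).idxOf y = l.length + 1 := by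
  rw [List.idxOf_cons_ne _ hx, List.idxOf_append_of_notMem hy, List.idxOf_cons_self]

theorem idxOf_lt (s : S) (l : List S) (h : s ∈ l) : l.idxOf s < l.length :=
  List.idxOf_lt_length_of_mem h

theorem idxOf_ext (x y : S) (l : List S) (s : S) (hx : x ≠ s) (hs : s ∈ l) :
    (x :: (l ++ [y])).idxOf s = l.idxOf s + 1 := by
  rw [List.idxOf_cons_ne _ hx, List.idxOf_append_of_mem hs]

end

/-! ### The renaming -/

section

variable [DecidableEq E]

/-- replace the strand `g` by `d` -/
def sg (d g x : Dart E) : Dart E := if x = g then d else x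

theorem sg_self (d g : Dart E) : sg d g g = d := by simp [sg]

theorem sg_ne (d g x : Dart E) (h : x ≠ g) : sg d g x = x := by simp [sg, h]

theorem sg_inj {d g x y : Dart E} (hx : x.1 ≠ d.1) (hy : y.1 ≠ d.1) (h : sg d g x = sg d g y) :
    x = y := by
  unfold sg at h
  split_ifs at h with h1 h2 h2
  · rw [h1, h2]
  · exact absurd (congrArg Prod.fst h).symm hy
  · exact absurd (congrArg Prod.fst h) hx
  · exact h

theorem sg_ne_g {d g x : Dart E} (hdg : d.1 ≠ g.1) : sg d g x ≠ g := by
  unfold sg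
  split_ifs with h
  · exact fun e => hdg (congrArg Prod.fst e)
  · exact h

theorem sg_ne_rvd {d g x : Dart E} (hx : x.1 ≠ d.1) : sg d g x ≠ rv d := by
  unfold sg
  split_ifs with h
  · exact fun e => rv_ne d e.symm
  · intro e
    have e' : x.1 = (rv d).1 := congrArg Prod.fst e
    exact hx e'

/-- the curve `q'` of a cycle through `d`, `g` and the corresponding curve `q` -/
theorem bet_sg {d g : Dart E} (hdg : d.1 ≠ g.1) (q : List (Dart E × Bool))
    (hq : ∀ x ∈ q, x.1.1 ≠ d.1) (z w : Dart E × Dart E) (h1 : z.1.1 ≠ d.1) (h2 : z.2.1 ≠ d.1)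
    (h3 : w.1.1 ≠ d.1) (h4 : w.2.1 ≠ d.1) :
    bet ((g, true) :: (q.map (fun x => (sg d g x.1, x.2)) ++ [(rv d, false)]))
      (sg d g z.1, sg d g z.2) (sg d g w.1, sg d g w.2) = bet q z w := by
  set q' := ((g, true) :: (q.map (fun x => (sg d g x.1, x.2)) ++ [(rv d, false)])) with hq'
  have hm : q'.map Prod.fst = g :: ((q.map Prod.fst).map (sg d g) ++ [rv d]) := by
    rw [hq']
    simp [List.map_map, Function.comp_def]
  have hq1 : ∀ x ∈ q.map Prod.fst, x.1 ≠ d.1 := by
    intro x hx
    obtain ⟨y, hy, rfl⟩ := List.mem_map.1 hx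
    exact hq y hy
  have hmem : ∀ s : Dart E, s.1 ≠ d.1 → (sg d g s ∈ (q.map Prod.fst).map (sg d g) ↔
      s ∈ q.map Prod.fst) := by
    intro s hs
    constructor
    · intro h
      obtain ⟨y, hy, hy'⟩ := List.mem_map.1 h
      have := sg_inj (hq1 y hy) hs hy'
      rwa [← this]
    · intro h
      exact List.mem_map_of_mem h
  have hon : ∀ s : Dart E, s.1 ≠ d.1 → (on q' (sg d g s) ↔ on q s) := by
    intro s hs
    unfold on
    rw [hm, List.mem_cons, List.mem_append, List.mem_singleton, hmem s hs]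
    constructor
    · rintro (h | h | h)
      · exact absurd h (sg_ne_g hdg)
      · exact h
      · exact absurd h (sg_ne_rvd hs)
    · exact fun h => Or.inr (Or.inl h)
  have hidx : ∀ s : Dart E, s.1 ≠ d.1 → on q s → idx q' (sg d g s) = idx q s + 1 := by
    intro s hs ho
    unfold idx
    rw [hm, idxOf_ext g (rv d) _ _ (fun e => sg_ne_g hdg e.symm) ((hmem s hs).2 ho),
      idxOf_map_inj (sg d g) _ s (fun x hx e => sg_inj (hq1 x hx) hs e)]
  have hfl : ∀ (s : Dart E) (b : Bool), s.1 ≠ d.1 → ((sg d g s, b) ∈ q' ↔ (s, b) ∈ q) := by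
    intro s b hs
    rw [hq', List.mem_cons, List.mem_append, List.mem_singleton]
    constructor
    · rintro (h | h | h)
      · exact absurd (congrArg Prod.fst h) (sg_ne_g hdg)
      · obtain ⟨y, hy, hy'⟩ := List.mem_map.1 h
        have e1 : sg d g y.1 = sg d g s := congrArg Prod.fst hy'
        have e2 : y.2 = b := congrArg Prod.snd hy'
        have e3 := sg_inj (hq y hy) hs e1
        have : y = (s, b) := Prod.ext e3 e2
        rwa [← this]
      · exact absurd (congrArg Prod.fst h) (sg_ne_rvd hs)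
    · intro h
      exact Or.inr (Or.inl (List.mem_map.2 ⟨(s, b), h, rfl⟩))
  refine bet_congr q q' (sg d g) z w (fun s => s.1 ≠ d.1) h1 h2 h3 h4 hon ?_ ?_
  · intro s hs t ht hos hot
    unfold l01
    rw [hidx s hs hos, hidx t ht hot, hfl s true hs, Nat.add_lt_add_iff_right]
    constructor
    · rintro (h | h)
      · exact Or.inl h
      · exact Or.inr ⟨sg_inj hs ht h.1, h.2⟩
    · rintro (h | h)
      · exact Or.inl h
      · exact Or.inr ⟨by rw [h.1], h.2⟩
  · intro s hs t ht hos hot
    unfold l10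
    rw [hidx s hs hos, hidx t ht hot, hfl s false hs, Nat.add_lt_add_iff_right]
    constructor
    · rintro (h | h)
      · exact Or.inl h
      · exact Or.inr ⟨sg_inj hs ht h.1, h.2⟩
    · rintro (h | h)
      · exact Or.inl h
      · exact Or.inr ⟨by rw [h.1], h.2⟩

/-- events with under strand `g` (first on the curve) or `rv d` (last) do not contribute -/
theorem bet_under {d g : Dart E} (hdg : d.1 ≠ g.1) (Q : List (Dart E × Bool))
    (hQ : ∀ x ∈ Q, x.1 ≠ g ∧ x.1 ≠ rv d) (y z : Dart E × Dart E) (hz : z.2 = g ∨ z.2 = rv d)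
    (hz1 : z.1 ≠ g ∧ z.1 ≠ rv d) (hy1 : y.1 ≠ g ∧ y.1 ≠ rv d) :
    bet ((g, true) :: (Q ++ [(rv d, false)])) y z = 0 := by
  set q := ((g, true) :: (Q ++ [(rv d, false)])) with hq
  have hm : q.map Prod.fst = g :: (Q.map Prod.fst ++ [rv d]) := by
    rw [hq]; simp
  have hig : idx q g = 0 := by
    unfold idx
    rw [hm]
    exact idxOf_self _ _
  have hgr : g ≠ rv d := fun e => hdg (congrArg Prod.fst e).symm
  have hQr : rv d ∉ Q.map Prod.fst := by
    intro h
    obtain ⟨x, hx, hx'⟩ := List.mem_map.1 h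
    exact (hQ x hx).2 hx'
  have hir : idx q (rv d) = Q.length + 1 := by
    unfold idx
    rw [hm]
    have := idxOf_last g (rv d) (Q.map Prod.fst) hgr hQr
    rwa [List.length_map] at this
  have hle : ∀ s, on q s → idx q s ≤ Q.length + 1 := by
    intro s hs
    have h1 : idx q s < (q.map Prod.fst).length := idxOf_lt s _ hs
    rw [hm] at h1
    simp at h1
    omega
  unfold bet
  by_cases h : on q y.1 ∧ on q y.2 ∧ on q z.1 ∧ on q z.2
  · obtain ⟨ho1, ho2, ho3, ho4⟩ := h
    have hA : ¬ (l01 q y.1 z.2 ∧ l10 q z.2 y.2 ∧ l01 q y.2 z.1) := by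
      rintro ⟨ha, hb, hc⟩
      rcases hz with hz | hz
      · rw [hz] at ha
        rcases ha with h3 | h3
        · rw [hig] at h3; omega
        · exact hy1.1 h3.1
      · rw [hz] at hb
        rcases hb with h3 | h3
        · rw [hir] at h3
          have := hle _ ho2
          omega
        · rw [← h3.1] at hc
          rcases hc with h5 | h5
          · rw [hir] at h5
            have := hle _ ho3
            omega
          · exact hz1.2 h5.1.symm
    have hB : ¬ (l10 q z.1 y.2 ∧ l01 q y.2 z.2 ∧ l10 q z.2 y.1) := by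
      rintro ⟨ha, hb, hc⟩
      rcases hz with hz | hz
      · rw [hz] at hb
        rcases hb with h3 | h3
        · rw [hig] at h3; omega
        · rw [h3.1] at ha
          rcases ha with h5 | h5
          · rw [hig] at h5; omega
          · exact hz1.1 h5.1
      · rw [hz] at hc
        rcases hc with h3 | h3
        · rw [hir] at h3
          have := hle _ ho1
          omega
        · exact hy1.2 h3.1.symm
    rw [if_pos ⟨ho1, ho2, ho3, ho4⟩, if_neg hA, if_neg hB, add_zero]
  · rw [if_neg h]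

end

/-! ### Cycles of `G` and of `G.con d` -/

section

variable [DecidableEq V] [DecidableEq E]

/-- the hypotheses of SUB -/
structure Hyp (G : Gr V E) (d g : Dart E) : Prop where
  dX : d.1 ∈ G.X
  gX : g.1 ∈ G.X
  dg : d.1 ≠ g.1
  vd : G.vt d ≠ G.vt (rv d)
  vg : G.vt g = G.vt (rv d)
  vg' : G.vt (rv g) ≠ G.vt (rv d)
  deg : ∀ x : Dart E, x.1 ∈ G.X → G.vt x = G.vt (rv d) → x = rv d ∨ x = g

variable {G : Gr V E} {d g : Dart E}

theorem con_vt (G : Gr V E) (d x : Dart E) :
    (G.con d).vt x = if G.vt x = G.vt (rv d) then G.vt d else G.vt x := rfl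

theorem con_ne {x : Dart E} (hx : G.vt x ≠ G.vt (rv d)) : (G.con d).vt x = G.vt x := by
  rw [con_vt, if_neg hx]

theorem mem_conX {e : E} : e ∈ (G.con d).X ↔ e ≠ d.1 ∧ e ∈ G.X := Finset.mem_erase

theorem vt_sg (h : Hyp G d g) {x : Dart E} (hx : x.1 ∈ (G.con d).X) :
    G.vt (sg d g x) = (G.con d).vt x := by
  by_cases hxg : x = g
  · subst hxg
    rw [sg_self, con_vt, if_pos h.vg]
  · rw [sg_ne _ _ _ hxg, con_ne]
    intro e
    rcases h.deg x (mem_conX.1 hx).2 e with e1 | e1
    · exact (mem_conX.1 hx).1 (by rw [e1]; rfl)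
    · exact hxg e1

theorem mem_map_sg (h : Hyp G d g) {bot : List (Dart E)}
    (hb : ∀ x, x ∈ bot ↔ x.1 ∈ (G.con d).X) (x : Dart E) :
    x ∈ bot.map (sg d g) ↔ x = d ∨ (x.1 ∈ G.X ∧ x.1 ≠ d.1 ∧ x ≠ g) := by
  rw [List.mem_map]
  constructor
  · rintro ⟨y, hy, rfl⟩
    rw [hb, mem_conX] at hy
    by_cases hyg : y = g
    · left; rw [hyg, sg_self]
    · right; rw [sg_ne _ _ _ hyg]; exact ⟨hy.2, hy.1, hyg⟩
  · rintro (rfl | ⟨h1, h2, h3⟩)
    · exact ⟨g, (hb g).2 (mem_conX.2 ⟨h.dg.symm, h.gX⟩), sg_self _ _⟩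
    · exact ⟨x, (hb x).2 (mem_conX.2 ⟨h2, h1⟩), sg_ne _ _ _ h3⟩

theorem exists_prev {c : List (Dart E)} (hc : IsCyc G c) {x : Dart E} (hx : x ∈ c) :
    ∃ y ∈ c, G.vt (rv y) = G.vt x := by
  have h1 : G.vt x ∈ (c.map G.vt).rotate 1 := List.mem_rotate.2 (List.mem_map_of_mem hx)
  rw [← hc.cl] at h1
  obtain ⟨y, hy, hy'⟩ := List.mem_map.1 h1
  exact ⟨y, hy, hy'⟩

theorem exists_next {c : List (Dart E)} (hc : IsCyc G c) {x : Dart E} (hx : x ∈ c) :
    ∃ y ∈ c, G.vt y = G.vt (rv x) := by
  have h1 : G.vt (rv x) ∈ c.map (fun d => G.vt (rv d)) :=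
    List.mem_map.2 ⟨x, hx, rfl⟩
  rw [hc.cl] at h1
  obtain ⟨y, hy, hy'⟩ := List.mem_map.1 (List.mem_rotate.1 h1)
  exact ⟨y, hy, hy'⟩

theorem nocyc (h : Hyp G d g) {c : List (Dart E)} (hc : IsCyc G c)
    (hd : d.1 ∉ c.map Prod.fst) : ∀ x ∈ c, G.vt x ≠ G.vt (rv d) := by
  intro x hx e
  rcases h.deg x (hc.mem x hx) e with e1 | e1
  · exact hd (List.mem_map.2 ⟨x, hx, by rw [e1]; rfl⟩)
  · obtain ⟨y, hy, hy'⟩ := exists_prev hc hx
    rw [e] at hy'
    rcases h.deg (rv y) (hc.mem y hy) hy' with e2 | e2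
    · have e3 : (rv y).1 = (rv d).1 := by rw [e2]
      exact hd (List.mem_map.2 ⟨y, hy, e3⟩)
    · have e3 : y.1 = x.1 := by
        have : (rv y).1 = x.1 := by rw [e2, e1]
        exact this
      have e4 : y = x := List.inj_on_of_nodup_map hc.nde hy hx e3
      rw [e4, e1] at e2
      exact rv_ne g e2

theorem nog (h : Hyp G d g) {c : List (Dart E)} (hc : IsCyc G c)
    (hd : d.1 ∉ c.map Prod.fst) : g.1 ∉ c.map Prod.fst := by
  intro hg
  obtain ⟨x, hx, hx'⟩ := List.mem_map.1 hg
  rcases eq_or x g hx' with e | e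
  · rw [e] at hx
    exact nocyc h hc hd g hx h.vg
  · obtain ⟨y, hy, hy'⟩ := exists_next hc hx
    rw [e, rv_rv, h.vg] at hy'
    exact nocyc h hc hd y hy hy'

theorem cl_con {c : List (Dart E)}
    (hcl : c.map (fun d => G.vt (rv d)) = (c.map G.vt).rotate 1) :
    c.map (fun x => (G.con d).vt (rv x)) = (c.map (G.con d).vt).rotate 1 := by
  have h1 : c.map (fun x => (G.con d).vt (rv x)) =
      (c.map (fun d => G.vt (rv d))).map (fun v => if v = G.vt (rv d) then G.vt d else v) := by
    rw [List.map_map]; rfl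
  have h2 : c.map (G.con d).vt =
      (c.map G.vt).map (fun v => if v = G.vt (rv d) then G.vt d else v) := by
    rw [List.map_map]; rfl
  rw [h1, h2, hcl, List.map_rotate]

theorem cyc_con_of_not (h : Hyp G d g) {c : List (Dart E)} (hc : IsCyc G c)
    (hd : d.1 ∉ c.map Prod.fst) : IsCyc (G.con d) c := by
  refine ⟨hc.ne, ?_, hc.nde, ?_, cl_con hc.cl⟩
  · intro x hx
    refine mem_conX.2 ⟨fun e => hd (List.mem_map.2 ⟨x, hx, e⟩), hc.mem x hx⟩
  · have : c.map (G.con d).vt = c.map G.vt :=
      List.map_congr_left (fun x hx => con_ne (nocyc h hc hd x hx))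
    rw [this]
    exact hc.ndv

theorem cyc_con_of_mem (h : Hyp G d g) {c : List (Dart E)} (hc : IsCyc G (g :: (c ++ [d]))) :
    IsCyc (G.con d) (g :: c) := by
  have hnv := hc.ndv
  have hne := hc.nde
  simp only [List.map_cons, List.map_append, List.map_nil, List.nodup_cons,
    List.mem_append, List.mem_singleton, not_or] at hnv hne
  have hcv : ∀ x ∈ c, G.vt x ≠ G.vt (rv d) := by
    intro x hx e
    exact hnv.1.1 (List.mem_map.2 ⟨x, hx, by rw [e, h.vg]⟩)
  have hmap : c.map (G.con d).vt = c.map G.vt :=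
    List.map_congr_left (fun x hx => con_ne (hcv x hx))
  have hgv : (G.con d).vt g = G.vt d := by rw [con_vt, if_pos h.vg]
  have hnd2 := List.nodup_append.1 hnv.2
  have hne2 := List.nodup_append.1 hne.2
  refine ⟨by simp, ?_, ?_, ?_, ?_⟩
  · intro x hx
    rw [List.mem_cons] at hx
    rcases hx with rfl | hx
    · exact mem_conX.2 ⟨h.dg.symm, h.gX⟩
    · refine mem_conX.2 ⟨?_, hc.mem x (by simp [hx])⟩
      exact hne2.2.2 x.1 (List.mem_map_of_mem hx) d.1 (by simp)
  · rw [List.map_cons, List.nodup_cons]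
    exact ⟨hne.1.1, hne2.1⟩
  · rw [List.map_cons, List.nodup_cons, hmap, hgv]
    refine ⟨fun hm => ?_, hnd2.1⟩
    exact hnd2.2.2 _ hm (G.vt d) (by simp) rfl
  · have hcl := hc.cl
    simp only [List.map_cons, List.map_append, List.map_nil, List.rotate_cons_succ,
      List.rotate_zero] at hcl
    have hcl2 : (G.vt (rv g) :: c.map (fun x => G.vt (rv x))) = c.map G.vt ++ [G.vt d] := by
      have h3 : (G.vt (rv g) :: c.map (fun x => G.vt (rv x))) ++ [G.vt (rv d)] =
          (c.map G.vt ++ [G.vt d]) ++ [G.vt g] := by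
        simpa using hcl
      exact (List.append_inj' h3 rfl).1
    have h1 : (g :: c).map (fun x => (G.con d).vt (rv x)) =
        (G.vt (rv g) :: c.map (fun x => G.vt (rv x))).map
          (fun v => if v = G.vt (rv d) then G.vt d else v) := by
      rw [List.map_cons, List.map_cons, List.map_map]; rfl
    rw [h1, hcl2, List.map_cons, List.rotate_cons_succ, List.rotate_zero, List.map_append, hgv,
      List.map_map]
    congr 1
    simp [h.vd]

theorem normal (hCYC : SpecCYC) (h : Hyp G d g) {c : List (Dart E)} (hc : IsCyc G c)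
    (hd : d ∈ c) : ∃ c₁, (g :: (c₁ ++ [d])).IsRotated c := by
  obtain ⟨A, B, rfl⟩ := List.append_of_mem hd
  have hrot : (A ++ d :: B).rotate (A.length + 1) = B ++ A ++ [d] := by
    have : A ++ d :: B = (A ++ [d]) ++ B := by simp
    rw [this, show A.length + 1 = (A ++ [d]).length by simp, List.rotate_append_length_eq]
    simp
  have hc' := hCYC.rot (A.length + 1) hc
  rw [hrot] at hc'
  cases hL : B ++ A with
  | nil =>
    rw [hL] at hc'
    have := hc'.cl
    simp at this
    exact absurd this.symm h.vd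
  | cons x c₁ =>
    rw [hL] at hc'
    have h2 := (hCYC.two (d := x) (l := d) hc' (by simp) (List.getLast?_concat ..)).1
    have hx : x.1 ∈ G.X := hc'.mem x (by simp)
    have hxg : x = g := by
      rcases h.deg x hx h2.symm with e | e
      · exfalso
        have hn := hc'.nde
        rw [List.cons_append, List.map_cons, List.nodup_cons] at hn
        apply hn.1
        rw [e]
        simp [rv]
      · exact e
    refine ⟨c₁, ?_⟩
    have : g :: (c₁ ++ [d]) = B ++ A ++ [d] := by rw [hL, hxg]; rfl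
    rw [this, ← hrot]
    exact List.IsRotated.forall _ _

end

/-! ### The construction -/

section

variable [DecidableEq V] [DecidableEq E] {G : Gr V E} {d g : Dart E}

theorem bet_zero {q : List (Dart E × Bool)} {z w : Dart E × Dart E} (h : ¬ on q w.2) :
    bet q z w = 0 := by
  unfold bet
  rw [if_neg]
  exact fun h' => h h'.2.2.2

theorem cv_cons (x : Dart E) (c : List (Dart E)) :
    cv (x :: c) = (x, true) :: (rv x, false) :: cv c := rfl

theorem cv_append (a b : List (Dart E)) : cv (a ++ b) = cv a ++ cv b := by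
  unfold cv
  rw [List.flatMap_append]

theorem mem_cv {c : List (Dart E)} {x : Dart E × Bool} (hx : x ∈ cv c) :
    ∃ y ∈ c, x.1 = y ∨ x.1 = rv y := by
  unfold cv at hx
  obtain ⟨y, hy, hy'⟩ := List.mem_flatMap.1 hx
  refine ⟨y, hy, ?_⟩
  simp only [List.mem_cons, List.not_mem_nil, or_false] at hy'
  rcases hy' with rfl | rfl
  · exact Or.inl rfl
  · exact Or.inr rfl

theorem build (hPSU : SpecPSU) (hRUN : SpecRUN) (hBLK : SpecBLK) (hCYC : SpecCYC)
    (hBAS : SpecBAS) (h : Hyp G d g) {bot top : List (Dart E)} {W : List (Dart E × Dart E)}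
    (hD : IsDia (G.con d) bot W top) (hval : ∀ c, IsCyc (G.con d) c → AW (cv c) W = 0)
    (P M T' : List (Dart E)) (hP : P = [rv d, g] ∨ P = [g, rv d])
    (hM : top.map (sg d g) = M ++ T') (htt : Blocks Prod.fst (M ++ P ++ T')) : Good G := by
  obtain ⟨U, hU, hUm⟩ := hRUN.exch' P M
  have hU' : Run (P ++ M ++ T') U (M ++ P ++ T') := by
    simpa using hRUN.ctx [] T' hU
  have hW' : Run (P ++ bot.map (sg d g)) (W.map (Prod.map (sg d g) (sg d g)))
      (P ++ top.map (sg d g)) := by
    simpa using hRUN.ctx P [] (hRUN.map (sg d g) hD.dia.run)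
  have hmb := hD.mb
  have hperm : bot.Perm top := hRUN.perm hD.dia.run
  have hmt : ∀ x, x ∈ top ↔ x.1 ∈ (G.con d).X := fun x => by rw [← hperm.mem_iff]; exact hmb x
  have hPm : ∀ x, x ∈ P ↔ (x = rv d ∨ x = g) := by
    intro x
    rcases hP with rfl | rfl
    · simp
    · simp [or_comm]
  have hgr : g ≠ rv d := fun e => h.dg (congrArg Prod.fst e).symm
  have hPnd : P.Nodup := by
    rcases hP with rfl | rfl
    · simp [hgr.symm]
    · simp [hgr]
  have hbne : ∀ x ∈ bot, x.1 ≠ d.1 := fun x hx => (mem_conX.1 ((hmb x).1 hx)).1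
  have hnotg : ∀ x ∈ bot.map (sg d g), x ≠ g ∧ x ≠ rv d := by
    intro x hx
    obtain ⟨y, hy, rfl⟩ := List.mem_map.1 hx
    exact ⟨sg_ne_g h.dg, sg_ne_rvd (hbne y hy)⟩
  have hnotg' : ∀ x ∈ M, x ≠ g ∧ x ≠ rv d := by
    intro x hx
    have : x ∈ top.map (sg d g) := by rw [hM]; exact List.mem_append_left _ hx
    exact hnotg x ((hperm.map (sg d g)).mem_iff.2 this)
  have hDia : IsDia G (P ++ bot.map (sg d g)) (W.map (Prod.map (sg d g) (sg d g)) ++ U)
      (M ++ P ++ T') := by
    refine ⟨?_, ⟨?_, ?_, htt, ?_⟩⟩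
    · intro x
      rw [List.mem_append, hPm, mem_map_sg h hmb]
      constructor
      · rintro ((rfl | rfl) | (rfl | h1))
        · exact h.dX
        · exact h.gX
        · exact h.dX
        · exact h1.1
      · intro hx
        by_cases h1 : x.1 = d.1
        · rcases eq_or x d h1 with e | e
          · exact Or.inr (Or.inl e)
          · exact Or.inl (Or.inl e)
        · by_cases h2 : x = g
          · exact Or.inl (Or.inr h2)
          · exact Or.inr (Or.inr ⟨hx, h1, h2⟩)
    · rw [List.nodup_append]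
      refine ⟨hPnd, ?_, ?_⟩
      · refine List.Nodup.map_on ?_ hD.dia.nd
        intro x hx y hy e
        exact sg_inj (hbne x hx) (hbne y hy) e
      · intro x hx y hy e
        subst e
        rcases (hPm x).1 hx with e | e
        · exact (hnotg x hy).2 e
        · exact (hnotg x hy).1 e
    · refine hBLK.app G.vt P (bot.map (sg d g)) ?_ ?_ ?_
      · refine hBLK.one G.vt P (G.vt (rv d)) ?_
        intro x hx
        rcases (hPm x).1 hx with rfl | rfl
        · rfl
        · exact h.vg
      · refine hBLK.map G.vt (sg d g) bot ?_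
        refine hBLK.cgr (G.con d).vt (fun x => G.vt (sg d g x)) bot hD.dia.bb ?_
        intro x hx y hy
        rw [vt_sg h ((hmb x).1 hx), vt_sg h ((hmb y).1 hy)]
      · intro x hx y hy e
        have hxw : G.vt x = G.vt (rv d) := by
          rcases (hPm x).1 hx with rfl | rfl
          · rfl
          · exact h.vg
        rw [hxw] at e
        have hyX : y.1 ∈ G.X := by
          rcases (mem_map_sg h hmb y).1 hy with rfl | h1
          · exact h.dX
          · exact h1.1
        rcases h.deg y hyX e.symm with e1 | e1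
        · exact (hnotg y hy).2 e1
        · exact (hnotg y hy).1 e1
    · refine hRUN.trans hW' ?_
      rw [hM, ← List.append_assoc]
      exact hU'
  have hWm : ∀ z ∈ W, z.1.1 ≠ d.1 ∧ z.2.1 ≠ d.1 := by
    intro z hz
    have := hRUN.mem hD.dia.nd hD.dia.run z hz
    exact ⟨hbne _ this.1, hbne _ this.2.1⟩
  refine ⟨_, _, _, hDia, ?_⟩
  have key : ∀ c, IsCyc G c → d ∈ c →
      AW (cv c) (W.map (Prod.map (sg d g) (sg d g)) ++ U) = 0 := by
    intro c hc hdc
    obtain ⟨c₁, hr⟩ := normal hCYC h hc hdc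
    rw [← hBAS.cyr hDia hc hr]
    have hc1 : IsCyc G (g :: (c₁ ++ [d])) := by
      obtain ⟨n, hn⟩ := hr.symm
      rw [← hn]
      exact hCYC.rot n hc
    have hcH := cyc_con_of_mem h hc1
    have hH := hval _ hcH
    rw [← hBAS.rot hD hcH 1] at hH
    have hq1 : (cv (g :: c₁)).rotate 1 = (rv g, false) :: (cv c₁ ++ [(g, true)]) := by
      rw [cv_cons, List.rotate_cons_succ, List.rotate_zero]
      rfl
    have hne := hc1.nde
    have hedge : ∀ y ∈ c₁, y.1 ≠ d.1 ∧ y.1 ≠ g.1 := by
      intro y hy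
      rw [List.map_cons, List.map_append, List.nodup_cons, List.mem_append] at hne
      have hne2 := List.nodup_append.1 hne.2
      exact ⟨hne2.2.2 y.1 (List.mem_map_of_mem hy) d.1 (by simp),
        fun e => hne.1 (Or.inl (List.mem_map.2 ⟨y, hy, e⟩))⟩
    have hcvm : ∀ x ∈ cv c₁, x.1.1 ≠ d.1 ∧ x.1.1 ≠ g.1 := by
      intro x hx
      obtain ⟨y, hy, e | e⟩ := mem_cv hx
      · rw [e]; exact hedge y hy
      · rw [e]; exact hedge y hy
    have hq : cv (g :: (c₁ ++ [d])) = (g, true) ::
        (((rv g, false) :: (cv c₁ ++ [(g, true)])).map (fun x => (sg d g x.1, x.2)) ++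
          [(rv d, false)]) := by
      rw [cv_cons, cv_append]
      have e1 : (cv c₁).map (fun x => (sg d g x.1, x.2)) = cv c₁ := by
        conv_rhs => rw [← List.map_id (cv c₁)]
        refine List.map_congr_left ?_
        intro x hx
        rw [sg_ne _ _ _ (fun e => (hcvm x hx).2 (by rw [e]))]
        rfl
      simp only [List.map_cons, List.map_append, List.map_nil, e1, sg_self, sg_ne d g (rv g) (rv_ne g)]
      simp [cv]
    have hqe : ∀ x ∈ ((rv g, false) :: (cv c₁ ++ [(g, true)]) : List (Dart E × Bool)),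
        x.1.1 ≠ d.1 := by
      intro x hx
      rw [List.mem_cons, List.mem_append, List.mem_singleton] at hx
      rcases hx with rfl | hx | rfl
      · exact h.dg.symm
      · exact (hcvm x hx).1
      · exact h.dg.symm
    rw [hq]
    unfold AW
    rw [hPSU.suf]
    · rw [hPSU.map]
      rw [hq1] at hH
      unfold AW at hH
      rw [← hH]
      refine hPSU.cgr _ _ W ?_
      intro z hz w hw
      exact bet_sg h.dg _ hqe z w (hWm z hz).1 (hWm z hz).2 (hWm w hw).1 (hWm w hw).2
    · intro z hz w hw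
      have hw2 := hUm w hw
      refine bet_under h.dg _ ?_ z w ((hPm _).1 hw2.2).symm (hnotg' _ hw2.1) ?_
      · intro x hx
        obtain ⟨y, hy, rfl⟩ := List.mem_map.1 hx
        exact ⟨sg_ne_g h.dg, sg_ne_rvd (hqe y hy)⟩
      · rw [List.mem_append] at hz
        rcases hz with hz | hz
        · obtain ⟨y, hy, rfl⟩ := List.mem_map.1 hz
          exact ⟨sg_ne_g h.dg, sg_ne_rvd (hWm y hy).1⟩
        · exact hnotg' _ (hUm z hz).1
  intro c hc
  by_cases hdc : d.1 ∈ c.map Prod.fst
  · obtain ⟨x, hx, hx'⟩ := List.mem_map.1 hdc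
    rcases eq_or x d hx' with e | e
    · rw [e] at hx
      exact key c hc hx
    · rw [← hBAS.neg _ hc]
      refine key _ (hCYC.rev hc) ?_
      unfold rvc
      rw [List.mem_reverse, List.mem_map]
      exact ⟨x, hx, by rw [e, rv_rv]⟩
  · have hgc := nog h hc hdc
    have hon : ∀ s, on (cv c) s → s.1 ≠ d.1 ∧ s.1 ≠ g.1 := by
      intro s hs
      rw [hCYC.on] at hs
      exact ⟨fun e => hdc (e ▸ hs), fun e => hgc (e ▸ hs)⟩
    unfold AW
    rw [hPSU.suf]
    · rw [hPSU.map]
      have hH := hval c (cyc_con_of_not h hc hdc)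
      unfold AW at hH
      rw [← hH]
      refine hPSU.cgr _ _ W ?_
      intro z hz w hw
      have hsame : ∀ s, on (cv c) s → sg d g s = s := by
        intro s hs
        exact sg_ne _ _ _ (fun e => (hon s hs).2 (by rw [e]))
      refine bet_congr (cv c) (cv c) (sg d g) z w (fun s => s.1 ≠ d.1) (hWm z hz).1 (hWm z hz).2
        (hWm w hw).1 (hWm w hw).2 ?_ ?_ ?_
      · intro s hs
        by_cases e : s = g
        · rw [e, sg_self]
          constructor
          · intro h1; exact absurd rfl (hon _ h1).1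
          · intro h1; exact absurd rfl (hon _ h1).2
        · rw [sg_ne _ _ _ e]
      · intro s hs t ht hos hot
        rw [hsame s hos, hsame t hot]
      · intro s hs t ht hos hot
        rw [hsame s hos, hsame t hot]
    · intro z hz w hw
      refine bet_zero ?_
      intro ho
      have hw2 := (hPm _).1 (hUm w hw).2
      rcases hw2 with e | e
      · exact (hon _ ho).1 (by rw [e]; rfl)
      · exact (hon _ ho).2 (by rw [e])

end

end Pool.Agent.Lib.MP3ff0f8.T.SUBM

namespace Pool.Agent.Lib.MP3ff0f8.T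

open SUBM

theorem specSUB (hPSU : SpecPSU) (hRUN : SpecRUN) (hBLK : SpecBLK) (hCYC : SpecCYC)
    (hBAS : SpecBAS) : SpecSUB := by
  intro V E _ _ G d g hdX hgX hdg hvd hvg hvg' hdeg hgood
  have h : Hyp G d g := ⟨hdX, hgX, hdg, hvd, hvg, hvg', hdeg⟩
  obtain ⟨bot, W, top, hD, hval⟩ := hgood
  have hmb := hD.mb
  have hperm : bot.Perm top := hRUN.perm hD.dia.run
  have htn : top.Nodup := hperm.nodup_iff.1 hD.dia.nd
  have hmt : ∀ x, x ∈ top ↔ x.1 ∈ (G.con d).X := fun x => by rw [← hperm.mem_iff]; exact hmb x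
  have hgH : g.1 ∈ (G.con d).X := mem_conX.2 ⟨hdg.symm, hgX⟩
  obtain ⟨A, B, hAB⟩ := hBLK.adj Prod.fst top g (rv g) htn hD.dia.tt ((hmt _).2 hgH)
    ((hmt _).2 hgH) (rv_ne g).symm rfl (fun x _ e => eq_or x g e)
  have htd : ∀ x ∈ top, x.1 ≠ d.1 := fun x hx => (mem_conX.1 ((hmt x).1 hx)).1
  -- facts on the two parts
  have hAtop : ∀ x ∈ A, x ∈ top := by
    intro x hx
    rcases hAB with e | e <;> rw [e] <;> simp [hx]
  have hBtop : ∀ x ∈ B, x ∈ top := by
    intro x hx
    rcases hAB with e | e <;> rw [e] <;> simp [hx]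
  have hAg : ∀ x ∈ A, x ≠ g ∧ x ≠ rv g := by
    intro x hx
    rcases hAB with e | e
    · rw [e, List.nodup_append] at htn
      exact ⟨htn.2.2 x hx g (by simp), htn.2.2 x hx (rv g) (by simp)⟩
    · rw [e, List.nodup_append] at htn
      exact ⟨htn.2.2 x hx g (by simp), htn.2.2 x hx (rv g) (by simp)⟩
  have hBg : ∀ x ∈ B, x ≠ g ∧ x ≠ rv g := by
    intro x hx
    rcases hAB with e | e
    · rw [e, List.nodup_append] at htn
      have h1 := htn.2.1
      rw [List.nodup_cons, List.nodup_cons] at h1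
      exact ⟨fun e => h1.1 (by rw [← e]; simp [hx]), fun e => h1.2.1 (by rw [← e]; exact hx)⟩
    · rw [e, List.nodup_append] at htn
      have h1 := htn.2.1
      rw [List.nodup_cons, List.nodup_cons] at h1
      exact ⟨fun e => h1.2.1 (by rw [← e]; exact hx), fun e => h1.1 (by rw [← e]; simp [hx])⟩
  have hAe : ∀ x ∈ A, x.1 ≠ g.1 ∧ x.1 ≠ d.1 := by
    intro x hx
    refine ⟨fun e => ?_, htd x (hAtop x hx)⟩
    rcases eq_or x g e with e1 | e1
    · exact (hAg x hx).1 e1
    · exact (hAg x hx).2 e1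
  have hBe : ∀ x ∈ B, x.1 ≠ g.1 ∧ x.1 ≠ d.1 := by
    intro x hx
    refine ⟨fun e => ?_, htd x (hBtop x hx)⟩
    rcases eq_or x g e with e1 | e1
    · exact (hBg x hx).1 e1
    · exact (hBg x hx).2 e1
  have hABe : ∀ x ∈ A, ∀ y ∈ B, x.1 ≠ y.1 := by
    intro x hx y hy e
    have hs : [x, g, y].Sublist top := by
      have h1 : [x].Sublist A := List.singleton_sublist.2 hx
      have h3 : [y].Sublist B := List.singleton_sublist.2 hy
      rcases hAB with e | e
      · rw [e]
        have h2 : [g, y].Sublist (g :: rv g :: B) :=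
          List.Sublist.cons_cons _ (List.Sublist.cons _ h3)
        exact h1.append h2
      · rw [e]
        have h2 : [g, y].Sublist (rv g :: g :: B) :=
          List.Sublist.cons _ (List.Sublist.cons_cons _ h3)
        exact h1.append h2
    exact (hAe x hx).1 (hD.dia.tt x g y hs e).symm
  have hABb : Blocks Prod.fst (A ++ B) := by
    refine hBLK.sub Prod.fst top (A ++ B) ?_ hD.dia.tt
    rcases hAB with e | e
    · rw [e]
      exact (List.Sublist.refl A).append (List.Sublist.cons _ (List.Sublist.cons _ (List.Sublist.refl B)))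
    · rw [e]
      exact (List.Sublist.refl A).append (List.Sublist.cons _ (List.Sublist.cons _ (List.Sublist.refl B)))
  have hsA : A.map (sg d g) = A := by
    conv_rhs => rw [← List.map_id A]
    exact List.map_congr_left (fun x hx => sg_ne _ _ _ (hAg x hx).1)
  have hsB : B.map (sg d g) = B := by
    conv_rhs => rw [← List.map_id B]
    exact List.map_congr_left (fun x hx => sg_ne _ _ _ (hBg x hx).1)
  rcases hAB with e | e
  · refine build hPSU hRUN hBLK hCYC hBAS h hD hval [rv d, g] (A ++ [d]) (rv g :: B) (Or.inl rfl)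
      ?_ ?_
    · rw [e, List.map_append, List.map_cons, List.map_cons, hsA, hsB, sg_self,
        sg_ne d g (rv g) (rv_ne g)]
      simp
    · have h1 : Blocks Prod.fst (A ++ [d, rv d] ++ B) := by
        refine hBLK.ins Prod.fst A [d, rv d] B d.1 hABb hABe ?_ (fun x hx => (hAe x hx).2)
          (fun x hx => (hBe x hx).2)
        intro x hx
        simp only [List.mem_cons, List.not_mem_nil, or_false] at hx
        rcases hx with rfl | rfl <;> rfl
      have h2 : Blocks Prod.fst ((A ++ [d, rv d]) ++ [g, rv g] ++ B) := by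
        refine hBLK.ins Prod.fst (A ++ [d, rv d]) [g, rv g] B g.1 h1 ?_ ?_ ?_
          (fun x hx => (hBe x hx).1)
        · intro x hx y hy
          rw [List.mem_append] at hx
          rcases hx with hx | hx
          · exact hABe x hx y hy
          · simp only [List.mem_cons, List.not_mem_nil, or_false] at hx
            rcases hx with rfl | rfl
            · exact (hBe y hy).2.symm
            · exact (hBe y hy).2.symm
        · intro x hx
          simp only [List.mem_cons, List.not_mem_nil, or_false] at hx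
          rcases hx with rfl | rfl <;> rfl
        · intro x hx
          rw [List.mem_append] at hx
          rcases hx with hx | hx
          · exact (hAe x hx).1
          · simp only [List.mem_cons, List.not_mem_nil, or_false] at hx
            rcases hx with rfl | rfl
            · exact hdg
            · exact hdg
      simpa using h2
  · refine build hPSU hRUN hBLK hCYC hBAS h hD hval [g, rv d] (A ++ [rv g]) (d :: B) (Or.inr rfl)
      ?_ ?_
    · rw [e, List.map_append, List.map_cons, List.map_cons, hsA, hsB, sg_self,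
        sg_ne d g (rv g) (rv_ne g)]
      simp
    · have h1 : Blocks Prod.fst (A ++ [rv g, g] ++ B) := by
        refine hBLK.ins Prod.fst A [rv g, g] B g.1 hABb hABe ?_ (fun x hx => (hAe x hx).1)
          (fun x hx => (hBe x hx).1)
        intro x hx
        simp only [List.mem_cons, List.not_mem_nil, or_false] at hx
        rcases hx with rfl | rfl <;> rfl
      have h2 : Blocks Prod.fst ((A ++ [rv g, g]) ++ [rv d, d] ++ B) := by
        refine hBLK.ins Prod.fst (A ++ [rv g, g]) [rv d, d] B d.1 h1 ?_ ?_ ?_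
          (fun x hx => (hBe x hx).2)
        · intro x hx y hy
          rw [List.mem_append] at hx
          rcases hx with hx | hx
          · exact hABe x hx y hy
          · simp only [List.mem_cons, List.not_mem_nil, or_false] at hx
            rcases hx with rfl | rfl
            · exact (hBe y hy).1.symm
            · exact (hBe y hy).1.symm
        · intro x hx
          simp only [List.mem_cons, List.not_mem_nil, or_false] at hx
          rcases hx with rfl | rfl <;> rfl
        · intro x hx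
          rw [List.mem_append] at hx
          rcases hx with hx | hx
          · exact (hAe x hx).2
          · simp only [List.mem_cons, List.not_mem_nil, or_false] at hx
            rcases hx with rfl | rfl
            · exact hdg.symm
            · exact hdg.symm
      simpa using h2

end Pool.Agent.Lib.MP3ff0f8.T
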