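import Pool.Agent.Lib.MP_3ff0f8_gt.T.IND
import Pool.Agent.Lib.MP_3ff0f8_gt.T.SEP
import Pool.Agent.Lib.MP_3ff0f8_gt.T.HAL
import Pool.Agent.Lib.MP_3ff0f8_gt.T.BAS
import Pool.Agent.Lib.MP_3ff0f8_gt.T.NRM
import Pool.Agent.Lib.MP_3ff0f8_gt.T.STT
import Pool.Agent.Lib.MP_3ff0f8_gt.T.MIK
import Pool.Agent.Lib.MP_3ff0f8_gt.T.DFB
import Pool.Agent.Lib.MP_3ff0f8_gt.T.SUB
import Pool.Agent.Lib.MP_3ff0f8_gt.T.CNB
import Pool.Agent.Lib.MP_3ff0f8_gt.T.CNC
import Pool.Agent.Lib.MP_3ff0f8_gt.T.CND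
import Pool.Agent.Lib.MP_3ff0f8_gt.T.LKD
import Pool.Agent.Lib.MP_3ff0f8_gt.T.SGM
import Pool.Agent.Lib.MP_3ff0f8_gt.T.GTW
import Pool.Agent.Lib.MP_3ff0f8_gt.T.PVC

section
/-!
# MP_3ff0f8_gt, topological half: module RSF (restriction of `F(G)` to a contraction)
-/
set_option linter.unusedSectionVars false

namespace Pool.Agent.Lib.MP3ff0f8.T.RSFM

open Pool.Agent.Lib.MP3ff0f8.T DFCM CONM

variable {V E : Type} [DecidableEq V] [DecidableEq E]

/-- the darts at the start of `d`, other than `d` -/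
def PP (G : Gr V E) (d : Dart E) : Finset (Dart E) := (G.st (G.vt d)).erase d

lemma mem_PP {G : Gr V E} {d x : Dart E} :
    x ∈ PP G d ↔ x ≠ d ∧ x.1 ∈ G.X ∧ G.vt x = G.vt d := by
  simp [PP, Gr.st]

lemma PP_ne {G : Gr V E} {d x : Dart E} (hne : G.vt d ≠ G.vt (rv d)) (hx : x ∈ PP G d) :
    x.1 ≠ d.1 := by
  intro h
  obtain ⟨h1, _, h3⟩ := mem_PP.1 hx
  rcases eq_or h with rfl | rfl
  · exact h1 rfl
  · exact hne h3.symm

/-- `φ` restricts to an element of `F(G / d)` -/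
def Rst (G : Gr V E) (d : Dart E) (φ : List (Dart E) → ZMod 2) : Prop :=
  ∃ F' ∈ FF (G.con d), ∀ c, IsCyc G c → IsCyc (G.con d) (del d.1 c) → F' (del d.1 c) = φ c

lemma Rst.congr {G : Gr V E} {d : Dart E} {φ ψ : List (Dart E) → ZMod 2} (h : Rst G d φ)
    (he : ∀ c, IsCyc G c → φ c = ψ c) : Rst G d ψ := by
  obtain ⟨F', hF', h1⟩ := h
  exact ⟨F', hF', fun c hc hc' => (h1 c hc hc').trans (he c hc)⟩

lemma xe_del {c : List (Dart E)} {e f : E} (h : f ≠ e) : xe f (del e c) = xe f c := by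
  unfold xe
  simp only [mem_del_map h]

lemma cc_del {c : List (Dart E)} {e : E} {s t : Dart E} (hs : s.1 ≠ e) (ht : t.1 ≠ e) :
    cc s t (del e c) = cc s t c := by
  have hs' : (rv s).1 ≠ e := hs
  have ht' : (rv t).1 ≠ e := ht
  unfold cc
  simp only [mem_del, hs, ht, hs', ht', ne_eq, not_false_eq_true, and_true]

lemma rv_notMem {G : Gr V E} {c : List (Dart E)} (hc : IsCyc G c) {x : Dart E} (hx : x ∈ c) :
    rv x ∉ c := by
  intro h
  exact CYCM.rv_ne x (TREM.eq_of_fst hc h hx rfl)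

lemma mem_map_iff {c : List (Dart E)} {x : Dart E} :
    x.1 ∈ c.map Prod.fst ↔ x ∈ c ∨ rv x ∈ c := by
  constructor
  · intro h
    obtain ⟨y, hy, hy2⟩ := List.mem_map.1 h
    rcases eq_or hy2 with rfl | rfl
    · exact Or.inl hy
    · exact Or.inr hy
  · rintro (h | h)
    · exact List.mem_map_of_mem h
    · exact List.mem_map.2 ⟨rv x, h, rfl⟩

lemma xe_eq {G : Gr V E} {c : List (Dart E)} (hc : IsCyc G c) (t : Dart E) :
    xe t.1 c = (if t ∈ c then 1 else 0) + (if rv t ∈ c then 1 else 0) := by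
  unfold xe
  by_cases h1 : t ∈ c
  · have h2 := rv_notMem hc h1
    rw [if_pos (mem_map_iff.2 (Or.inl h1)), if_pos h1, if_neg h2, add_zero]
  · by_cases h2 : rv t ∈ c
    · rw [if_pos (mem_map_iff.2 (Or.inr h2)), if_neg h1, if_pos h2, zero_add]
    · rw [if_neg (fun h => (mem_map_iff.1 h).elim h1 h2), if_neg h1, if_neg h2, add_zero]

/-- the strands of a cycle at the start of `d` -/
lemma cases4 {G : Gr V E} {c : List (Dart E)} (hc : IsCyc G c) (d : Dart E) :
    (∀ x : Dart E, x.1 ∈ c.map Prod.fst → G.vt x ≠ G.vt d) ∨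
    (∃ y ∈ PP G d, rv y ∈ c ∧ d ∈ c ∧ ∀ z ∈ PP G d, z.1 ∈ c.map Prod.fst → z = y) ∨
    (∃ y ∈ PP G d, y ∈ c ∧ rv d ∈ c ∧ ∀ z ∈ PP G d, z.1 ∈ c.map Prod.fst → z = y) ∨
    (∃ x ∈ PP G d, ∃ y ∈ PP G d, x ≠ y ∧ x ∈ c ∧ rv y ∈ c ∧ d.1 ∉ c.map Prod.fst ∧
      ∀ z ∈ PP G d, z.1 ∈ c.map Prod.fst → z = x ∨ z = y) := by
  by_cases h : ∃ x ∈ c, G.vt x = G.vt d
  · right
    obtain ⟨x, hx, hxv⟩ := h
    have h1 : G.vt x ∈ (c.map G.vt).rotate 1 := List.mem_rotate.2 (List.mem_map_of_mem hx)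
    rw [← hc.cl] at h1
    obtain ⟨y, hy, hyv⟩ := List.mem_map.1 h1
    have hyd : G.vt (rv y) = G.vt d := hyv.trans hxv
    have hxy : x ≠ rv y := by
      intro e
      have e2 : x = y := TREM.eq_of_fst hc hx hy (by rw [e]; rfl)
      rw [e2] at e
      exact CYCM.rv_ne y e.symm
    have hall : ∀ z : Dart E, z.1 ∈ c.map Prod.fst → G.vt z = G.vt d → z = x ∨ z = rv y := by
      intro z hz hzv
      obtain ⟨w, hw, hw2⟩ := List.mem_map.1 hz
      rcases eq_or (x := z) (d := w) hw2.symm with rfl | rfl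
      · left
        exact List.inj_on_of_nodup_map hc.ndv hw hx (hzv.trans hxv.symm)
      · right
        have hn : (c.map fun d => G.vt (rv d)).Nodup := by
          rw [hc.cl]; exact List.nodup_rotate.mpr hc.ndv
        rw [List.inj_on_of_nodup_map hn hw hy (hzv.trans hyd.symm)]
    have hryX : (rv y).1 ∈ G.X := hc.mem y hy
    have hxX : x.1 ∈ G.X := hc.mem x hx
    by_cases h2 : d = x
    · left
      refine ⟨rv y, mem_PP.2 ⟨?_, hryX, hyd⟩, ?_, ?_, ?_⟩
      · rw [h2]; exact hxy.symm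
      · rw [TREM.rv_rv]; exact hy
      · rw [h2]; exact hx
      · intro z hz hz2
        obtain ⟨a1, _, a3⟩ := mem_PP.1 hz
        rcases hall z hz2 a3 with e | e
        · exact absurd (e.trans h2.symm) a1
        · exact e
    · by_cases h3 : d = rv y
      · right; left
        refine ⟨x, mem_PP.2 ⟨?_, hxX, hxv⟩, hx, ?_, ?_⟩
        · rw [h3]; exact hxy
        · rw [h3, TREM.rv_rv]; exact hy
        · intro z hz hz2
          obtain ⟨a1, _, a3⟩ := mem_PP.1 hz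
          rcases hall z hz2 a3 with e | e
          · exact e
          · exact absurd (e.trans h3.symm) a1
      · right; right
        refine ⟨x, mem_PP.2 ⟨fun e => h2 e.symm, hxX, hxv⟩, rv y,
          mem_PP.2 ⟨fun e => h3 e.symm, hryX, hyd⟩, hxy, hx, ?_, ?_, ?_⟩
        · rw [TREM.rv_rv]; exact hy
        · intro e
          rcases hall d e rfl with e | e
          · exact h2 e
          · exact h3 e
        · intro z hz hz2
          exact hall z hz2 (mem_PP.1 hz).2.2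
  · left
    intro x hx hxv
    obtain ⟨y, hy, hyv⟩ := vert hc hx
    exact h ⟨y, hy, hyv.trans hxv⟩

lemma xe_one {c : List (Dart E)} {e : E} (h : e ∈ c.map Prod.fst) : xe e c = 1 := by
  unfold xe
  rw [if_pos h]

lemma xe_zero {c : List (Dart E)} {e : E} (h : e ∉ c.map Prod.fst) : xe e c = 0 := by
  unfold xe
  rw [if_neg h]

lemma zmod_two (a : ZMod 2) : a + a = 0 := CharTwo.add_self_eq_zero a

/-- a cycle has `0` or `2` strands at a vertex -/
lemma sum_xe {G : Gr V E} {c : List (Dart E)} (hc : IsCyc G c) (d : Dart E) :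
    ∑ x ∈ PP G d, xe x.1 c = xe d.1 c := by
  rcases cases4 hc d with h | ⟨y, hy, hyc, hdc, hall⟩ | ⟨y, hy, hyc, hdc, hall⟩ |
    ⟨x, hx, y, hy, hxy, hxc, hyc, hdc, hall⟩
  · rw [xe_zero (fun e => h d e rfl)]
    refine Finset.sum_eq_zero fun x hx => xe_zero fun e => h x e (mem_PP.1 hx).2.2
  · rw [Finset.sum_eq_single_of_mem y hy, xe_one (mem_map_iff.2 (Or.inr hyc)),
      xe_one (mem_map_iff.2 (Or.inl hdc))]
    intro z hz hzy
    exact xe_zero fun e => hzy (hall z hz e)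
  · rw [Finset.sum_eq_single_of_mem y hy, xe_one (mem_map_iff.2 (Or.inl hyc)),
      xe_one (mem_map_iff.2 (Or.inr hdc))]
    intro z hz hzy
    exact xe_zero fun e => hzy (hall z hz e)
  · rw [Finset.sum_eq_add_of_mem x y hx hy hxy, xe_one (mem_map_iff.2 (Or.inl hxc)),
      xe_one (mem_map_iff.2 (Or.inr hyc)), xe_zero hdc, zmod_two]
    rintro z hz ⟨h1, h2⟩
    refine xe_zero fun e => ?_
    rcases hall z hz e with h | h
    · exact h1 h
    · exact h2 h

lemma cc_notMem {c : List (Dart E)} {s : Dart E} (h : s.1 ∉ c.map Prod.fst) (t : Dart E) :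
    cc s t c = 0 := by
  have h1 : s ∉ c := fun e => h (mem_map_iff.2 (Or.inl e))
  have h2 : rv s ∉ c := fun e => h (mem_map_iff.2 (Or.inr e))
  unfold cc
  rw [if_neg (fun e => h1 e.1), if_neg (fun e => h2 e.1), add_zero]

lemma cc_mem {G : Gr V E} {c : List (Dart E)} (hc : IsCyc G c) {s : Dart E} (h : s ∈ c)
    (t : Dart E) : cc s t c = if t ∈ c then 1 else 0 := by
  have h2 : rv s ∉ c := rv_notMem hc h
  unfold cc
  simp [h, h2]

lemma cc_rvmem {G : Gr V E} {c : List (Dart E)} (hc : IsCyc G c) {s : Dart E} (h : rv s ∈ c)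
    (t : Dart E) : cc s t c = if rv t ∈ c then 1 else 0 := by
  have h2 : s ∉ c := by
    have := rv_notMem hc h
    rwa [TREM.rv_rv] at this
  unfold cc
  simp [h, h2]

/-- the sum over the pairs -/
lemma pairs_zero {c : List (Dart E)} {P : Finset (Dart E)} (w : Dart E)
    (h : ∀ z ∈ P, z.1 ∈ c.map Prod.fst → z = w) (a : ZMod 2) :
    ∑ A ∈ P.powersetCard 2, (∏ x ∈ A, xe x.1 c) * a = 0 := by
  refine Finset.sum_eq_zero fun A hA => ?_
  obtain ⟨h1, h2⟩ := Finset.mem_powersetCard.1 hA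
  obtain ⟨x, y, hxy, rfl⟩ := Finset.card_eq_two.1 h2
  rw [Finset.prod_pair hxy]
  by_cases hx : x = w
  · have hy : y ≠ w := fun e => hxy (hx.trans e.symm)
    have : xe y.1 c = 0 := xe_zero fun e => hy (h y (h1 (by simp)) e)
    rw [this]
    simp
  · have : xe x.1 c = 0 := xe_zero fun e => hx (h x (h1 (by simp)) e)
    rw [this]
    simp

lemma pairs_one {c : List (Dart E)} {P : Finset (Dart E)} {u w : Dart E} (huw : u ≠ w)
    (hu : u ∈ P) (hw : w ∈ P) (hu' : u.1 ∈ c.map Prod.fst) (hw' : w.1 ∈ c.map Prod.fst)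
    (h : ∀ z ∈ P, z.1 ∈ c.map Prod.fst → z = u ∨ z = w) (a : ZMod 2) :
    ∑ A ∈ P.powersetCard 2, (∏ x ∈ A, xe x.1 c) * a = a := by
  have hmem : ({u, w} : Finset (Dart E)) ∈ P.powersetCard 2 := by
    rw [Finset.mem_powersetCard]
    refine ⟨?_, Finset.card_pair huw⟩
    intro x hx
    rw [Finset.mem_insert, Finset.mem_singleton] at hx
    rcases hx with rfl | rfl
    · exact hu
    · exact hw
  rw [Finset.sum_eq_single_of_mem _ hmem, Finset.prod_pair huw, xe_one hu', xe_one hw']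
  · simp
  · intro A hA hne
    obtain ⟨h1, h2⟩ := Finset.mem_powersetCard.1 hA
    have h3 : ∃ z ∈ A, z.1 ∉ c.map Prod.fst := by
      by_contra hcon
      push Not at hcon
      apply hne
      refine Finset.eq_of_subset_of_card_le ?_ ?_
      · intro z hz
        rw [Finset.mem_insert, Finset.mem_singleton]
        exact h z (h1 hz) (hcon z hz)
      · rw [Finset.card_pair huw, h2]
    obtain ⟨z, hz, hz2⟩ := h3
    rw [Finset.prod_eq_zero hz (xe_zero hz2), zero_mul]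

/-- the coherence with `d` -/
lemma cc_eq {G : Gr V E} {c : List (Dart E)} (hc : IsCyc G c) (d t : Dart E) :
    ∑ x ∈ PP G d, cc (rv x) t c +
      ∑ A ∈ (PP G d).powersetCard 2, (∏ x ∈ A, xe x.1 c) * xe t.1 c = cc d t c := by
  rcases cases4 hc d with h | ⟨y, hy, hyc, hdc, hall⟩ | ⟨y, hy, hyc, hdc, hall⟩ |
    ⟨x, hx, y, hy, hxy, hxc, hyc, hdc, hall⟩
  · rw [cc_notMem (fun e => h d e rfl), pairs_zero d, add_zero]
    · refine Finset.sum_eq_zero fun x hx => cc_notMem (fun e => ?_) t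
      exact h x e (mem_PP.1 hx).2.2
    · intro z hz hz2
      exact absurd (mem_PP.1 hz).2.2 (h z hz2)
  · rw [pairs_zero y hall, add_zero, Finset.sum_eq_single_of_mem y hy, cc_mem hc hyc,
      cc_mem hc hdc]
    intro z hz hzy
    exact cc_notMem (s := rv z) (fun e => hzy (hall z hz e)) t
  · rw [pairs_zero y hall, add_zero, Finset.sum_eq_single_of_mem y hy,
      cc_rvmem hc (s := rv y) (by rw [TREM.rv_rv]; exact hyc), cc_rvmem hc hdc]
    intro z hz hzy
    exact cc_notMem (s := rv z) (fun e => hzy (hall z hz e)) t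
  · rw [pairs_one hxy hx hy (mem_map_iff.2 (Or.inl hxc)) (mem_map_iff.2 (Or.inr hyc)) hall,
      Finset.sum_eq_add_of_mem x y hx hy hxy,
      cc_rvmem hc (s := rv x) (by rw [TREM.rv_rv]; exact hxc), cc_mem hc hyc, cc_notMem hdc,
      xe_eq hc t, add_comm (if rv t ∈ c then (1 : ZMod 2) else 0), zmod_two]
    rintro z hz ⟨h1, h2⟩
    refine cc_notMem (fun e => ?_) t
    rcases hall z hz e with h | h
    · exact h1 h
    · exact h2 h

lemma mem_con {G : Gr V E} {d : Dart E} {e : E} : e ∈ (G.con d).X ↔ e ≠ d.1 ∧ e ∈ G.X :=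
  Finset.mem_erase

lemma mem3 {G : Gr V E} {e g h : E} (he : e ∈ G.X) (hg : g ∈ G.X) (hh : h ∈ G.X) :
    (fun c => xe e c * xe g c * xe h c) ∈ FF G :=
  Submodule.subset_span (Or.inl ⟨e, he, g, hg, h, hh, rfl⟩)

lemma memcc {G : Gr V E} {s t : Dart E} (hs : s.1 ∈ G.X) (ht : t.1 ∈ G.X) : cc s t ∈ FF G :=
  Submodule.subset_span (Or.inr ⟨s, t, hs, ht, rfl⟩)

/-- products of sums of edge indicators -/
lemma prod_mem {G : Gr V E} (A B C : Finset (Dart E)) (hA : ∀ x ∈ A, x.1 ∈ G.X)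
    (hB : ∀ x ∈ B, x.1 ∈ G.X) (hC : ∀ x ∈ C, x.1 ∈ G.X) :
    (fun c => (∑ x ∈ A, xe x.1 c) * (∑ y ∈ B, xe y.1 c) * (∑ z ∈ C, xe z.1 c)) ∈ FF G := by
  have h : (fun c => (∑ x ∈ A, xe x.1 c) * (∑ y ∈ B, xe y.1 c) * (∑ z ∈ C, xe z.1 c)) =
      ∑ x ∈ A, ∑ y ∈ B, ∑ z ∈ C, fun c : List (Dart E) => xe x.1 c * xe y.1 c * xe z.1 c := by
    funext c
    simp only [Finset.sum_apply]
    rw [Finset.sum_mul_sum, Finset.sum_mul]
    refine Finset.sum_congr rfl fun x _ => ?_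
    rw [Finset.sum_mul]
    refine Finset.sum_congr rfl fun y _ => ?_
    rw [Finset.mul_sum]
  rw [h]
  refine Submodule.sum_mem _ fun x hx => Submodule.sum_mem _ fun y hy =>
    Submodule.sum_mem _ fun z hz => mem3 (hA x hx) (hB y hy) (hC z hz)

/-- the darts which express the indicator of `e` -/
def Xs (G : Gr V E) (d : Dart E) (e : E) : Finset (Dart E) := if e = d.1 then PP G d else {(e, false)}

lemma Xs_mem {G : Gr V E} {d : Dart E} (hne : G.vt d ≠ G.vt (rv d)) {e : E} (he : e ∈ G.X)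
    (x : Dart E) (hx : x ∈ Xs G d e) : x.1 ∈ (G.con d).X := by
  unfold Xs at hx
  rw [mem_con]
  split_ifs at hx with h
  · exact ⟨PP_ne hne hx, (mem_PP.1 hx).2.1⟩
  · rw [Finset.mem_singleton] at hx
    rw [hx]
    exact ⟨h, he⟩

lemma Xs_sum {G : Gr V E} {d : Dart E} (hne : G.vt d ≠ G.vt (rv d)) {c : List (Dart E)}
    (hc : IsCyc G c) (e : E) : ∑ x ∈ Xs G d e, xe x.1 (del d.1 c) = xe e c := by
  unfold Xs
  split_ifs with h
  · rw [h, ← sum_xe hc d]
    exact Finset.sum_congr rfl fun x hx => xe_del (PP_ne hne hx)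
  · rw [Finset.sum_singleton, xe_del h]

lemma rst3 {G : Gr V E} {d : Dart E} (hne : G.vt d ≠ G.vt (rv d)) {e g h : E} (he : e ∈ G.X)
    (hg : g ∈ G.X) (hh : h ∈ G.X) : Rst G d fun c => xe e c * xe g c * xe h c := by
  refine ⟨_, prod_mem (Xs G d e) (Xs G d g) (Xs G d h) (Xs_mem hne he) (Xs_mem hne hg)
    (Xs_mem hne hh), ?_⟩
  intro c hc _
  simp only [Xs_sum hne hc]

lemma rst_ne {G : Gr V E} {d s t : Dart E} (hs : s.1 ∈ G.X) (ht : t.1 ∈ G.X) (hs' : s.1 ≠ d.1)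
    (ht' : t.1 ≠ d.1) : Rst G d (cc s t) :=
  ⟨cc s t, memcc (mem_con.2 ⟨hs', hs⟩) (mem_con.2 ⟨ht', ht⟩), fun _ _ _ => cc_del hs' ht'⟩

lemma rst_d {G : Gr V E} {d t : Dart E} (hne : G.vt d ≠ G.vt (rv d)) (ht : t.1 ∈ G.X)
    (ht' : t.1 ≠ d.1) : Rst G d (cc d t) := by
  refine ⟨∑ x ∈ PP G d, cc (rv x) t + ∑ A ∈ (PP G d).powersetCard 2,
    (fun c : List (Dart E) => (∏ x ∈ A, xe x.1 c) * xe t.1 c), ?_, ?_⟩
  · refine Submodule.add_mem _ (Submodule.sum_mem _ fun x hx => ?_)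
      (Submodule.sum_mem _ fun A hA => ?_)
    · have hx1 : (rv x).1 ∈ (G.con d).X := mem_con.2 ⟨PP_ne hne (x := x) hx, (mem_PP.1 hx).2.1⟩
      exact memcc hx1 (mem_con.2 ⟨ht', ht⟩)
    · obtain ⟨h1, h2⟩ := Finset.mem_powersetCard.1 hA
      obtain ⟨x, y, hxy, rfl⟩ := Finset.card_eq_two.1 h2
      have hx : x ∈ PP G d := h1 (by simp)
      have hy : y ∈ PP G d := h1 (by simp)
      simp only [Finset.prod_pair hxy]
      exact mem3 (mem_con.2 ⟨PP_ne hne hx, (mem_PP.1 hx).2.1⟩)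
        (mem_con.2 ⟨PP_ne hne hy, (mem_PP.1 hy).2.1⟩) (mem_con.2 ⟨ht', ht⟩)
  · intro c hc _
    rw [← cc_eq hc d t]
    simp only [Pi.add_apply, Finset.sum_apply]
    congr 1
    · exact Finset.sum_congr rfl fun x hx => cc_del (s := rv x) (PP_ne hne (x := x) hx) ht'
    · refine Finset.sum_congr rfl fun A hA => ?_
      rw [xe_del ht']
      congr 1
      refine Finset.prod_congr rfl fun x hx => xe_del (PP_ne hne ?_)
      exact (Finset.mem_powersetCard.1 hA).1 hx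

lemma cc_comm (s t : Dart E) (c : List (Dart E)) : cc s t c = cc t s c := by
  unfold cc
  simp only [and_comm]

lemma cc_rv (s t : Dart E) (c : List (Dart E)) : cc (rv s) t c = cc s (rv t) c := by
  unfold cc
  rw [TREM.rv_rv, TREM.rv_rv, add_comm]

lemma cc_self {G : Gr V E} {c : List (Dart E)} (hc : IsCyc G c) (s : Dart E) :
    cc s s c = xe s.1 c * xe s.1 c * xe s.1 c := by
  have h1 : cc s s c = xe s.1 c := by
    rw [xe_eq hc s]
    unfold cc
    simp only [and_self]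
  rw [h1]
  unfold xe
  split_ifs <;> simp

lemma cc_self_rv (s : Dart E) (c : List (Dart E)) : cc s (rv s) c = 0 := by
  unfold cc
  rw [TREM.rv_rv]
  simp only [and_comm (a := rv s ∈ c)]
  exact zmod_two _

lemma rst_cc {G : Gr V E} {d s t : Dart E} (hne : G.vt d ≠ G.vt (rv d)) (hs : s.1 ∈ G.X)
    (ht : t.1 ∈ G.X) : Rst G d (cc s t) := by
  have h0 : Rst G d fun _ => 0 := ⟨0, Submodule.zero_mem _, fun _ _ _ => rfl⟩
  -- one of the darts is of the edge of `d`
  have key : ∀ s t : Dart E, s.1 ∈ G.X → t.1 ∈ G.X → s.1 = d.1 → Rst G d (cc s t) := by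
    intro s t hs ht h
    by_cases h2 : t.1 = d.1
    · rcases eq_or (x := t) (d := s) (h2.trans h.symm) with rfl | rfl
      · exact (rst3 hne ht ht ht).congr fun c hc => (cc_self hc t).symm
      · exact h0.congr fun c _ => (cc_self_rv s c).symm
    · rcases eq_or h with rfl | rfl
      · exact rst_d hne ht h2
      · exact (rst_d (t := rv t) hne ht h2).congr fun c _ => (cc_rv d t c).symm
  by_cases h1 : s.1 = d.1
  · exact key s t hs ht h1
  · by_cases h2 : t.1 = d.1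
    · exact (key t s ht hs h2).congr fun c _ => cc_comm t s c
    · exact rst_ne hs ht h1 h2

end Pool.Agent.Lib.MP3ff0f8.T.RSFM

namespace Pool.Agent.Lib.MP3ff0f8.T

open RSFM in
theorem specRSF : SpecRSF := by
  intro V E _ _ G d _ hne F hF
  change Rst G d F
  unfold FF at hF
  induction hF using Submodule.span_induction with
  | mem f hf =>
    rcases hf with ⟨e, he, g, hg, k, hk, rfl⟩ | ⟨s, t, hs, ht, rfl⟩
    · exact rst3 hne he hg hk
    · exact rst_cc hne hs ht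
  | zero => exact ⟨0, Submodule.zero_mem _, fun _ _ _ => rfl⟩
  | add f g _ _ hf hg =>
    obtain ⟨F₁, h1, h1'⟩ := hf
    obtain ⟨F₂, h2, h2'⟩ := hg
    refine ⟨F₁ + F₂, Submodule.add_mem _ h1 h2, fun c hc hc' => ?_⟩
    rw [Pi.add_apply, Pi.add_apply, h1' c hc hc', h2' c hc hc']
  | smul a f _ hf =>
    obtain ⟨F₁, h1, h1'⟩ := hf
    refine ⟨a • F₁, Submodule.smul_mem _ a h1, fun c hc hc' => ?_⟩
    rw [Pi.smul_apply, Pi.smul_apply, h1' c hc hc']

end Pool.Agent.Lib.MP3ff0f8.T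
end

section
/-! # The topological half: Theorem C implies the answer to Q1 -/
namespace Pool.Agent.Lib.MP3ff0f8.T

/-- Theorem C implies the answer to Q1 in its finite form: `Ia2 vt → ID4 vt`. -/
theorem topHalf (hC : SpecC) : SpecFIN := by
  have hPSU : SpecPSU := specPSU 
  have hRUN : SpecRUN := specRUN 
  have hBLK : SpecBLK := specBLK 
  have hREA : SpecREA := specREA hRUN
  have hHAL : SpecHAL := specHAL hPSU hRUN hBLK
  have hCYC : SpecCYC := specCYC 
  have hBAS : SpecBAS := specBAS hHAL hPSU hRUN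
  have hLOC : SpecLOC := specLOC hPSU hRUN
  have hCFI : SpecCFI := specCFI hPSU hRUN hCYC hLOC
  have hGAD : SpecGAD := specGAD hPSU hRUN hCYC
  have hPRE : SpecPRE := specPRE hPSU hCYC hBAS
  have hFRT : SpecFRT := specFRT hPSU hRUN hBLK hCYC hPRE
  have hRNG : SpecRNG := specRNG hPSU hRUN hCYC hBAS hPRE hFRT
  have hNRM : SpecNRM := specNRM hPSU hRUN hCFI hFRT hRNG
  have hCON : SpecCON := specCON hNRM hPSU hRUN hBLK hCYC hBAS
  have hLIF : SpecLIF := specLIF hCYC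
  have hRSF : SpecRSF := specRSF 
  have hRES : SpecRES := specRES hPSU hRUN hBLK hCYC
  have hISO : SpecISO := specISO hPSU hRUN hBLK
  have hGCO : SpecGCO := specGCO hCON hLIF hRSF hGAD hBAS hCYC
  have hDDC : SpecDDC := specDDC hRES hCON hLIF hCYC
  have hTRE : SpecTRE := specTRE 
  have hDFC : SpecDFC := specDFC hTRE hCYC
  have hDFB : SpecDFB := specDFB hBAS
  have hDFL : SpecDFL := specDFL hDFB hDFC hCON hLIF hRSF hCYC
  have hADD : SpecADD := specADD hPSU hRUN hBLK hCYC hFRT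
  have hSUB : SpecSUB := specSUB hPSU hRUN hBLK hCYC hBAS
  have hPAR : SpecPAR := specPAR hPSU hRUN hBLK hCYC hBAS hGAD
  have hGLA : SpecGLA := specGLA hFRT hPSU hRUN hBLK hCYC hBAS
  have hGLB : SpecGLB := specGLB hGCO hISO
  have hMIK : SpecMIK := specMIK hDDC hISO
  have hSEP : SpecSEP := specSEP 
  have hCNA : SpecCNA := specCNA 
  have hCNC : SpecCNC := specCNC 
  have hCND : SpecCND := specCND 
  have hLKD : SpecLKD := specLKD hREA
  have hGEN : SpecGEN := specGEN 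
  have hSGM : SpecSGM := specSGM 
  have hPSG : SpecPSG := specPSG 
  have hGTW : SpecGTW := specGTW hLKD hGEN hSGM
  have hSTT : SpecSTT := specSTT 
  have hPLN : SpecPLN := specPLN hSTT hBLK
  have hNOD : SpecNOD := specNOD hSTT
  have hEMB : SpecEMB := specEMB hPLN hNOD hSTT
  have hPIX : SpecPIX := specPIX 
  have hPVC : SpecPVC := specPVC hPSU hBLK hCYC hSTT hPLN hNOD
  have hCNB : SpecCNB := specCNB hLKD
  have hIND : SpecIND := specIND hC hGAD hBAS hDDC hDFL hADD hSUB hPAR hGLA hGLB hMIK hSEP hISO hRES hCYC hCNA hCNB hCNC hCND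
  have hFIN : SpecFIN := specFIN hIND hGTW hEMB hPVC
  exact hFIN

end Pool.Agent.Lib.MP3ff0f8.T
end
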