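import Pool.Agent.Lib.MP_3ff0f8_gt.T.Spec

/-!
# Module CND: a graph with all degrees at least three contains a subdivision of `K₄`
-/

namespace Pool.Agent.Lib.MP3ff0f8.T

namespace CNDM

variable {V E : Type}

/-- adjacency -/
def Adj (G : Gr V E) (u v : V) : Prop := ∃ d : Dart E, d.1 ∈ G.X ∧ G.vt d = u ∧ G.vt (rv d) = v

lemma rv_rv (d : Dart E) : rv (rv d) = d := by simp [rv]

lemma Adj.symm {G : Gr V E} {u v : V} (h : Adj G u v) : Adj G v u := by
  obtain ⟨d, h1, h2, h3⟩ := h
  exact ⟨rv d, h1, h3, by rw [rv_rv]; exact h2⟩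

/-- the vertices `p 0, …, p n` form a path -/
def IsPath (G : Gr V E) (n : ℕ) (p : ℕ → V) : Prop :=
  (∀ i j, i ≤ n → j ≤ n → p i = p j → i = j) ∧ ∀ i, i < n → Adj G (p i) (p (i + 1))

/-- a chain inside a set -/
def Pth (G : Gr V E) (S : Set V) (s t : V) : Prop :=
  ∃ P : List (Dart E), Ch G s P t ∧ ∀ u ∈ cvs G s P, u ∈ S

lemma Pth.refl {G : Gr V E} {S : Set V} {s : V} (h : s ∈ S) : Pth G S s s :=
  ⟨[], rfl, fun u hu => by
    simp only [cvs, List.map_nil, List.mem_singleton] at hu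
    rw [hu]; exact h⟩

lemma Pth.cons {G : Gr V E} {S : Set V} {s r t : V} (h : Adj G s r) (hs : s ∈ S)
    (h' : Pth G S r t) : Pth G S s t := by
  obtain ⟨d, h1, h2, h3⟩ := h
  obtain ⟨P, h4, h5⟩ := h'
  refine ⟨d :: P, ⟨h1, h2, by rw [h3]; exact h4⟩, ?_⟩
  intro u hu
  simp only [cvs, List.map_cons, List.mem_cons] at hu
  rcases hu with rfl | hu
  · exact hs
  · apply h5
    simp only [cvs, List.mem_cons]
    rw [h3] at hu
    exact hu

lemma up {G : Gr V E} {n : ℕ} {p : ℕ → V} (h : IsPath G n p) (b : ℕ) (hb : b ≤ n) (S : Set V) :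
    ∀ k a, a + k = b → (∀ m, a ≤ m → m ≤ b → p m ∈ S) → Pth G S (p a) (p b) := by
  intro k
  induction k with
  | zero =>
    intro a hab hS
    have : a = b := by omega
    subst this
    exact Pth.refl (hS a (le_refl _) (le_refl _))
  | succ k ih =>
    intro a hab hS
    exact Pth.cons (h.2 a (by omega)) (hS a (le_refl _) (by omega))
      (ih (a + 1) (by omega) (fun m h1 h2 => hS m (by omega) h2))

lemma down {G : Gr V E} {n : ℕ} {p : ℕ → V} (h : IsPath G n p) (a : ℕ) (S : Set V) :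
    ∀ k b, a + k = b → b ≤ n → (∀ m, a ≤ m → m ≤ b → p m ∈ S) → Pth G S (p b) (p a) := by
  intro k
  induction k with
  | zero =>
    intro b hab hb hS
    have : a = b := by omega
    subst this
    exact Pth.refl (hS a (le_refl _) (le_refl _))
  | succ k ih =>
    intro b hab hb hS
    have e : b = (a + k) + 1 := by omega
    have h1 : Adj G (p b) (p (a + k)) := by
      rw [e]; exact (h.2 (a + k) (by omega)).symm
    exact Pth.cons h1 (hS b (by omega) (le_refl _))
      (ih (a + k) rfl (by omega) (fun m h1 h2 => hS m h1 (by omega)))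

lemma six : ∀ i j : Fin 4, i < j → (i = 0 ∧ j = 1) ∨ (i = 0 ∧ j = 2) ∨ (i = 0 ∧ j = 3) ∨
    (i = 1 ∧ j = 2) ∨ (i = 1 ∧ j = 3) ∨ (i = 2 ∧ j = 3) := by decide

/-- assembling the six chains -/
lemma hasK4_of {G : Gr V E} {w0 w1 w2 w3 : V} {S01 S23 S02 S13 S03 S12 : Set V}
    (h01 : Pth G S01 w0 w1) (h23 : Pth G S23 w2 w3) (h02 : Pth G S02 w0 w2)
    (h13 : Pth G S13 w1 w3) (h03 : Pth G S03 w0 w3) (h12 : Pth G S12 w1 w2)
    (a1 : ∀ u ∈ S01, u ∉ S23) (a2 : ∀ u ∈ S02, u ∉ S13) (a3 : ∀ u ∈ S03, u ∉ S12) : HasK4 G := by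
  obtain ⟨P01, c01, s01⟩ := h01
  obtain ⟨P23, c23, s23⟩ := h23
  obtain ⟨P02, c02, s02⟩ := h02
  obtain ⟨P13, c13, s13⟩ := h13
  obtain ⟨P03, c03, s03⟩ := h03
  obtain ⟨P12, c12, s12⟩ := h12
  refine ⟨![w0, w1, w2, w3], ![![[], P01, P02, P03], ![[], [], P12, P13], ![[], [], [], P23],
    ![[], [], [], []]], ?_, ?_⟩
  · intro i j hij
    rcases six i j hij with ⟨rfl, rfl⟩ | ⟨rfl, rfl⟩ | ⟨rfl, rfl⟩ | ⟨rfl, rfl⟩ | ⟨rfl, rfl⟩ | ⟨rfl, rfl⟩
    · exact c01
    · exact c02
    · exact c03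
    · exact c12
    · exact c13
    · exact c23
  · intro i j k l hij hkl h1 h2 h3 h4
    rcases six i j hij with ⟨rfl, rfl⟩ | ⟨rfl, rfl⟩ | ⟨rfl, rfl⟩ | ⟨rfl, rfl⟩ | ⟨rfl, rfl⟩ |
      ⟨rfl, rfl⟩ <;>
    rcases six k l hkl with ⟨rfl, rfl⟩ | ⟨rfl, rfl⟩ | ⟨rfl, rfl⟩ | ⟨rfl, rfl⟩ | ⟨rfl, rfl⟩ |
      ⟨rfl, rfl⟩ <;>
    first
      | exact absurd rfl h1
      | exact absurd rfl h2
      | exact absurd rfl h3
      | exact absurd rfl h4
      | skip
    · intro u hu hu'; exact a1 u (s01 u hu) (s23 u hu')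
    · intro u hu hu'; exact a2 u (s02 u hu) (s13 u hu')
    · intro u hu hu'; exact a3 u (s03 u hu) (s12 u hu')
    · intro u hu hu'; exact a3 u (s03 u hu') (s12 u hu)
    · intro u hu hu'; exact a2 u (s02 u hu') (s13 u hu)
    · intro u hu hu'; exact a1 u (s01 u hu') (s23 u hu)

/-- three different neighbours -/
lemma three [DecidableEq V] {G : Gr V E} (hL : Loopless G) (hN : NoPar G) (hD : Deg3 G) {u v : V}
    (h : Adj G u v) (a b : V) : ∃ z, Adj G u z ∧ z ≠ a ∧ z ≠ b := by
  classical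
  obtain ⟨d, h1, h2, h3⟩ := h
  have hmem : ∀ x : Dart E, x ∈ G.st u ↔ x.1 ∈ G.X ∧ G.vt x = u := by
    intro x
    simp [Gr.st]
  have hne : (G.st u).Nonempty := ⟨d, (hmem d).2 ⟨h1, h2⟩⟩
  have h3' := hD u hne
  have hinj : Set.InjOn (fun x : Dart E => G.vt (rv x)) (G.st u : Set (Dart E)) := by
    intro x hx y hy hxy
    have hx' := (hmem x).1 hx
    have hy' := (hmem y).1 hy
    have e := hN x y hx'.1 hy'.1 (hx'.2.trans hy'.2.symm) hxy
    obtain ⟨ex, bx⟩ := x
    obtain ⟨ey, bY⟩ := y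
    simp only at e
    subst e
    by_cases hb : bx = bY
    · rw [hb]
    · exfalso
      have : (ex, bY) = rv (ex, bx) := by
        cases bx <;> cases bY <;> simp_all [rv]
      apply hL (ex, bx) hx'.1
      rw [← this, hx'.2, hy'.2]
  have hcard : ((G.st u).image fun x : Dart E => G.vt (rv x)).card = (G.st u).card :=
    Finset.card_image_of_injOn hinj
  have hex : ∃ z ∈ (G.st u).image fun x : Dart E => G.vt (rv x), z ∉ ({a, b} : Finset V) := by
    by_contra hcon
    push Not at hcon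
    have hsub : ((G.st u).image fun x : Dart E => G.vt (rv x)) ⊆ ({a, b} : Finset V) := hcon
    have := Finset.card_le_card hsub
    have h2 := Finset.card_le_two (a := a) (b := b)
    omega
  obtain ⟨z, hz, hz'⟩ := hex
  obtain ⟨x, hx, rfl⟩ := Finset.mem_image.1 hz
  have hx' := (hmem x).1 hx
  simp only [Finset.mem_insert, Finset.mem_singleton, not_or] at hz'
  exact ⟨_, ⟨x, hx'.1, hx'.2, rfl⟩, hz'.1, hz'.2⟩

lemma mem_vs [DecidableEq V] {G : Gr V E} {u v : V} (h : Adj G u v) : u ∈ G.vs G.X := by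
  obtain ⟨d, h1, h2, h3⟩ := h
  unfold Gr.vs
  exact Finset.mem_image.2 ⟨d, by simp [h1], h2⟩

/-- extension of a path at the beginning -/
lemma extend {G : Gr V E} {n : ℕ} {p : ℕ → V} (h : IsPath G n p) {z : V} (hz : Adj G (p 0) z)
    (hn : ∀ m, m ≤ n → z ≠ p m) : ∃ q, IsPath G (n + 1) q := by
  refine ⟨fun m => Nat.casesOn m z p, ?_, ?_⟩
  · intro i j hi hj hij
    cases i with
    | zero =>
      cases j with
      | zero => rfl
      | succ j => exact absurd hij (hn j (by omega))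
    | succ i =>
      cases j with
      | zero => exact absurd hij.symm (hn i (by omega))
      | succ j =>
        have := h.1 i j (by omega) (by omega) hij
        omega
  · intro i hi
    cases i with
    | zero => exact hz.symm
    | succ i => exact h.2 i (by omega)

/-- reversal of the beginning of a path -/
lemma turn {G : Gr V E} {n : ℕ} {p : ℕ → V} (h : IsPath G n p) {i : ℕ} (_ : 1 ≤ i) (hin : i ≤ n)
    (ha : Adj G (p 0) (p i)) : IsPath G n (fun m => if m < i then p (i - 1 - m) else p m) := by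
  refine ⟨?_, ?_⟩
  · intro a b ha' hb hab
    simp only at hab
    split_ifs at hab with h1 h2 h2
    · have := h.1 _ _ (by omega) (by omega) hab
      omega
    · have := h.1 _ _ (by omega) (by omega) hab
      omega
    · have := h.1 _ _ (by omega) (by omega) hab
      omega
    · exact h.1 _ _ ha' hb hab
  · intro a ha'
    show Adj G (if a < i then p (i - 1 - a) else p a)
      (if a + 1 < i then p (i - 1 - (a + 1)) else p (a + 1))
    split_ifs with h1 h2 h2
    · have e : i - 1 - a = (i - 1 - (a + 1)) + 1 := by omega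
      rw [e]
      exact (h.2 _ (by omega)).symm
    · have e1 : i - 1 - a = 0 := by omega
      have e2 : a + 1 = i := by omega
      rw [e1, e2]
      exact ha
    · omega
    · exact h.2 a ha'

end CNDM

open CNDM in
theorem specCND : SpecCND := by
  intro V E _ _ G hL hN hD hne
  classical
  -- an edge
  obtain ⟨e0, he0⟩ := hne
  have hadj0 : Adj G (G.vt (e0, false)) (G.vt (rv (e0, false))) := ⟨(e0, false), he0, rfl, rfl⟩
  -- lengths of paths are bounded
  have hbound : ∀ n, (∃ p, IsPath G n p) → n ≤ (G.vs G.X).card := by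
    rintro n ⟨p, hp⟩
    have h1 : (Finset.range n).image p ⊆ G.vs G.X := by
      intro v hv
      obtain ⟨m, hm, rfl⟩ := Finset.mem_image.1 hv
      exact mem_vs (hp.2 m (Finset.mem_range.1 hm))
    have h2 := Finset.card_le_card h1
    rw [Finset.card_image_of_injOn, Finset.card_range] at h2
    · exact h2
    · intro a ha b hb hab
      have ha' := Finset.mem_range.1 ha
      have hb' := Finset.mem_range.1 hb
      exact hp.1 a b (by omega) (by omega) hab
  have hex : ∃ p, IsPath G 1 p := by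
    refine ⟨fun m => if m = 0 then G.vt (e0, false) else G.vt (rv (e0, false)), ?_, ?_⟩
    · intro i j hi hj hij
      have hl := hL (e0, false) he0
      simp only at hij
      split_ifs at hij with h1 h2 h2
      · omega
      · exact absurd hij hl
      · exact absurd hij.symm hl
      · omega
    · intro i hi
      have : i = 0 := by omega
      subst this
      simpa using hadj0
  -- the maximal length
  have hmax : ∃ n, (∃ p, IsPath G n p) ∧ ∀ m, (∃ p, IsPath G m p) → m ≤ n := by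
    refine ⟨Nat.findGreatest (fun n => ∃ p, IsPath G n p) (G.vs G.X).card, ?_, ?_⟩
    · exact Nat.findGreatest_spec (P := fun n => ∃ p, IsPath G n p) (hbound 1 hex) hex
    · intro m hm
      exact Nat.le_findGreatest (hbound m hm) hm
  obtain ⟨n, ⟨p0, hp0⟩, hn⟩ := hmax
  have hn1 : 1 ≤ n := hn 1 hex
  -- all neighbours of the first vertex are on the path
  have hnb : ∀ p, IsPath G n p → ∀ z, Adj G (p 0) z → ∃ m, m ≤ n ∧ z = p m := by
    intro p hp z hz
    by_contra hcon
    push Not at hcon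
    have := hn (n + 1) (extend hp hz hcon)
    omega
  have hcand : ∃ i, 2 ≤ i ∧ i ≤ n ∧ ∃ p, IsPath G n p ∧ Adj G (p 0) (p i) := by
    obtain ⟨z, hz, hz0, hz1⟩ := three hL hN hD (hp0.2 0 (by omega)) (p0 0) (p0 1)
    obtain ⟨m, hm, rfl⟩ := hnb p0 hp0 z hz
    refine ⟨m, ?_, hm, p0, hp0, hz⟩
    have h0 : m ≠ 0 := fun h => hz0 (by rw [h])
    have h1 : m ≠ 1 := fun h => hz1 (by rw [h])
    omega
  obtain ⟨hi2, hin, p, hp, hpi⟩ := Nat.find_spec hcand
  have hmin := fun m => Nat.find_min hcand (m := m)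
  set i := Nat.find hcand with hi
  -- the third neighbour of the first vertex
  obtain ⟨z, hz, hz1, hz2⟩ := three hL hN hD (hp.2 0 (by omega)) (p 1) (p i)
  obtain ⟨j, hj, rfl⟩ := hnb p hp z hz
  have hj0 : j ≠ 0 := by
    rintro rfl
    obtain ⟨d, d1, d2, d3⟩ := hz
    exact hL d d1 (d2.trans d3.symm)
  have hj1 : j ≠ 1 := fun h => hz1 (by rw [h])
  have hji : j ≠ i := fun h => hz2 (by rw [h])
  have hij : i < j := by
    by_contra hcon
    exact hmin j (by omega) ⟨by omega, hj, p, hp, hz⟩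
  -- the turned path
  have hq := turn hp (by omega) hin hpi
  set q : ℕ → V := fun m => if m < i then p (i - 1 - m) else p m with hqdef
  have q0 : q 0 = p (i - 1) := by
    simp only [hqdef]
    rw [if_pos (by omega)]
    congr 1
  have hq01 : Adj G (q 0) (q 1) := hq.2 0 (by omega)
  obtain ⟨y, hy, hy1, hy2⟩ := three hL hN hD hq01 (p (i - 2)) (p i)
  obtain ⟨m', hm', hym'⟩ := hnb q hq y hy
  have hyp : ∃ m, m ≤ n ∧ y = p m ∧ (m < i → y = q (i - 1 - m)) := by
    by_cases hmi : m' < i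
    · refine ⟨i - 1 - m', by omega, ?_, fun _ => ?_⟩
      · rw [hym']
        simp only [hqdef]
        rw [if_pos hmi]
      · rw [hym']
        congr 1
        omega
    · refine ⟨m', hm', ?_, fun h => absurd h hmi⟩
      rw [hym']
      simp only [hqdef]
      rw [if_neg hmi]
  obtain ⟨m, hm, rfl, hmq⟩ := hyp
  have hm1 : m ≠ i - 1 := by
    rintro rfl
    obtain ⟨d, d1, d2, d3⟩ := hy
    rw [q0] at d2
    exact hL d d1 (d2.trans d3.symm)
  have hm2 : m ≠ i - 2 := fun h => hy1 (by rw [h])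
  have hm3 : m ≠ i := fun h => hy2 (by rw [h])
  have him : i < m := by
    by_contra hcon
    have hlt : m < i := by omega
    refine hmin (i - 1 - m) (by omega) ⟨by omega, by omega, q, hq, ?_⟩
    rw [← hmq hlt]
    exact hy
  rw [q0] at hy
  have htj : min j m ≤ j := min_le_left _ _
  have htm : min j m ≤ m := min_le_right _ _
  have hit : i < min j m := lt_min hij him
  set t := min j m with ht
  have inj : ∀ a b, a ≤ n → b ≤ n → p a = p b → a = b := hp.1
  refine hasK4_of (w0 := p 0) (w1 := p (i - 1)) (w2 := p i) (w3 := p t)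
    (S01 := {u | ∃ a, a < i ∧ u = p a}) (S23 := {u | ∃ a, i ≤ a ∧ a ≤ n ∧ u = p a})
    (S02 := {u | u = p 0 ∨ u = p i}) (S13 := {u | u = p (i - 1) ∨ ∃ a, i < a ∧ a ≤ n ∧ u = p a})
    (S03 := {u | u = p 0 ∨ ∃ a, i < a ∧ a ≤ n ∧ u = p a})
    (S12 := {u | u = p (i - 1) ∨ u = p i}) ?_ ?_ ?_ ?_ ?_ ?_ ?_ ?_ ?_
  · exact up hp (i - 1) (by omega) _ (i - 1) 0 (by omega) (fun a _ h2 => ⟨a, by omega, rfl⟩)
  · exact up hp t (by omega) _ (t - i) i (by omega) (fun a h1 h2 => ⟨a, h1, by omega, rfl⟩)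
  · exact Pth.cons hpi (Or.inl rfl) (Pth.refl (Or.inr rfl))
  · exact Pth.cons hy (Or.inl rfl) (down hp t _ (m - t) m (by omega) hm
      (fun a h1 h2 => Or.inr ⟨a, by omega, by omega, rfl⟩))
  · exact Pth.cons hz (Or.inl rfl) (down hp t _ (j - t) j (by omega) hj
      (fun a h1 h2 => Or.inr ⟨a, by omega, by omega, rfl⟩))
  · have h1 : Adj G (p (i - 1)) (p i) := by
      have := hp.2 (i - 1) (by omega)
      rwa [show i - 1 + 1 = i by omega] at this
    exact Pth.cons h1 (Or.inl rfl) (Pth.refl (Or.inr rfl))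
  · rintro u ⟨a, ha, rfl⟩ ⟨b, hb, hb', hab⟩
    have := inj a b (by omega) hb' hab
    omega
  · rintro u (rfl | rfl) (h | ⟨b, hb, hb', hab⟩)
    · have := inj _ _ (by omega) (by omega) h
      omega
    · have := inj _ _ (by omega) hb' hab
      omega
    · have := inj _ _ (by omega) (by omega) h
      omega
    · have := inj _ _ (by omega) hb' hab
      omega
  · rintro u (rfl | ⟨b, hb, hb', rfl⟩) (h | h)
    · have := inj _ _ (by omega) (by omega) h
      omega
    · have := inj _ _ (by omega) (by omega) h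
      omega
    · have := inj _ _ hb' (by omega) h
      omega
    · have := inj _ _ hb' (by omega) h
      omega

end Pool.Agent.Lib.MP3ff0f8.T
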