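import Pool.Agent.Lib.MP_3ff0f8_gt.T.CNWDefs
import Pool.Agent.Lib.MP_3ff0f8_gt.T.PVC
import Pool.Agent.Lib.MP_3ff0f8_gt.T.SEP
import Pool.Agent.Lib.MP_3ff0f8_gt.T.IND
import Pool.Agent.Lib.MP_3ff0f8_gt.T.STT
import Pool.Agent.Lib.MP_3ff0f8_gt.T.NRM
import Pool.Agent.Lib.MP_3ff0f8_gt.T.HAL
import Pool.Agent.Lib.MP_3ff0f8_gt.T.BAS
import Pool.Agent.Lib.MP_3ff0f8_gt.T.All
import Pool.Agent.Lib.MP_3ff0f8_gt.T.MIK
import Pool.Agent.Lib.MP_3ff0f8_gt.T.DFB
import Pool.Agent.Lib.MP_3ff0f8_gt.T.SUB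
import Pool.Agent.Lib.MP_3ff0f8_gt.T.CNB
import Pool.Agent.Lib.MP_3ff0f8_gt.T.CNC
import Pool.Agent.Lib.MP_3ff0f8_gt.T.CND
import Pool.Agent.Lib.MP_3ff0f8_gt.T.LKD
import Pool.Agent.Lib.MP_3ff0f8_gt.T.SGM
import Pool.Agent.Lib.MP_3ff0f8_gt.T.GTW

section
/-!
# CNW: on the realisations of word diagrams every function with Conway's skein relation is the
Polyak-Viro number
-/
set_option autoImplicit false
set_option linter.unusedSectionVars false

namespace Pool.Agent.Lib.MP3ff0f8.T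

namespace CNWM

open PVCM

/-! ### Combinatorics of chords -/

/-- the Polyak-Viro number of the chords `e ∈ N` with upper point `O e` and lower point `U e` -/
def pvn (N : Finset ℕ) (O U : ℕ → ℕ) : ℕ :=
  ((N ×ˢ N).filter fun x => O x.1 < U x.2 ∧ U x.2 < U x.1 ∧ U x.1 < O x.2).card

theorem pvn_sum (N : Finset ℕ) (O U : ℕ → ℕ) : (pvn N O U : ZMod 2) =
    ∑ k ∈ N, ∑ l ∈ N, if O k < U l ∧ U l < U k ∧ U k < O l then 1 else 0 := by
  unfold pvn
  rw [Finset.card_filter]
  push_cast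
  rw [Finset.sum_product]

theorem pvn_flip (N : Finset ℕ) (O U O' U' : ℕ → ℕ) (k₀ : ℕ) (hk : k₀ ∈ N) (hO : O' k₀ = U k₀)
    (hU : U' k₀ = O k₀) (hO' : ∀ k, k ≠ k₀ → O' k = O k) (hU' : ∀ k, k ≠ k₀ → U' k = U k)
    (hb : U k₀ < O k₀) :
    (pvn N O' U' : ZMod 2) + (pvn N O U : ZMod 2) =
      ((N.filter fun e => (U k₀ < U' e ∧ U' e < O k₀) ∧ (O' e < U k₀ ∨ O k₀ < O' e)).card : ZMod 2) := by
  rw [pvn_sum, pvn_sum, Finset.card_filter]
  push_cast
  rw [← Finset.add_sum_erase N _ hk, ← Finset.add_sum_erase N (fun k => ∑ l ∈ N, if O k < U l ∧ U l < U k ∧ U k < O l then (1 : ZMod 2) else 0) hk,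
    ← Finset.add_sum_erase N (fun e => if (U k₀ < U' e ∧ U' e < O k₀) ∧ (O' e < U k₀ ∨ O k₀ < O' e) then (1 : ZMod 2) else 0) hk]
  have h1 : ∀ (A B : ℕ → ℕ), ∑ l ∈ N, (if A k₀ < B l ∧ B l < B k₀ ∧ B k₀ < A l then (1 : ZMod 2) else 0) =
      ∑ l ∈ N.erase k₀, if A k₀ < B l ∧ B l < B k₀ ∧ B k₀ < A l then (1 : ZMod 2) else 0 := by
    intro A B
    rw [← Finset.add_sum_erase N _ hk, if_neg, zero_add]
    omega
  rw [h1, h1]
  have h2 : ∀ (A B : ℕ → ℕ), ∑ k ∈ N.erase k₀, ∑ l ∈ N, (if A k < B l ∧ B l < B k ∧ B k < A l then (1 : ZMod 2) else 0) =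
      ∑ k ∈ N.erase k₀, (if A k < B k₀ ∧ B k₀ < B k ∧ B k < A k₀ then (1 : ZMod 2) else 0) +
      ∑ k ∈ N.erase k₀, ∑ l ∈ N.erase k₀, (if A k < B l ∧ B l < B k ∧ B k < A l then (1 : ZMod 2) else 0) := by
    intro A B
    rw [← Finset.sum_add_distrib]
    refine Finset.sum_congr rfl fun k _ => ?_
    rw [← Finset.add_sum_erase N _ hk]
  rw [h2, h2]
  have h3 : ∑ k ∈ N.erase k₀, ∑ l ∈ N.erase k₀, (if O' k < U' l ∧ U' l < U' k ∧ U' k < O' l then (1 : ZMod 2) else 0) =
      ∑ k ∈ N.erase k₀, ∑ l ∈ N.erase k₀, (if O k < U l ∧ U l < U k ∧ U k < O l then (1 : ZMod 2) else 0) := by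
    refine Finset.sum_congr rfl fun k hk => Finset.sum_congr rfl fun l hl => ?_
    have h5 := Finset.ne_of_mem_erase hk
    have h6 := Finset.ne_of_mem_erase hl
    rw [hO' k h5, hU' k h5, hO' l h6, hU' l h6]
  rw [h3]
  have h4 : ∀ a b c d e : ZMod 2, a + (b + c) + (d + (e + c)) = a + b + (d + e) := by
    intro a b c d e
    have : c + c = 0 := CharTwo.add_self_eq_zero c
    linear_combination this
  rw [h4]
  have h7 : (if (U k₀ < U' k₀ ∧ U' k₀ < O k₀) ∧ (O' k₀ < U k₀ ∨ O k₀ < O' k₀) then (1 : ZMod 2) else 0) = 0 := by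
    rw [if_neg]
    omega
  rw [h7, zero_add, ← Finset.sum_add_distrib, ← Finset.sum_add_distrib, ← Finset.sum_add_distrib]
  refine Finset.sum_congr rfl fun e he => ?_
  have h5 := Finset.ne_of_mem_erase he
  rw [hO' e h5, hU' e h5, hO, hU]
  have e1 : ¬ (O e < O k₀ ∧ O k₀ < U e ∧ U e < U k₀) := by omega
  have e2 : ¬ (O k₀ < U e ∧ U e < U k₀ ∧ U k₀ < O e) := by omega
  rw [if_neg e1, if_neg e2, add_zero, zero_add]
  by_cases c1 : U k₀ < U e ∧ U e < O k₀
  · by_cases c2 : O e < U k₀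
    · have c3 : ¬ (O k₀ < O e) := by omega
      rw [if_neg (by omega), if_pos (by omega), if_pos (by omega), zero_add]
    · by_cases c3 : O k₀ < O e
      · rw [if_pos (by omega), if_neg (by omega), if_pos (by omega), add_zero]
      · rw [if_neg (by omega), if_neg (by omega), if_neg (by omega), add_zero]
  · rw [if_neg (by omega), if_neg (by omega), if_neg (by omega), add_zero]

/-! ### Changing one event -/

/-- exchange the strands of the event number `k` -/
def fl {S : Type} (W : List (S × S)) (k : ℕ) (h : k < W.length) : List (S × S) :=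
  W.set k (W[k].2, W[k].1)

theorem fl_len {S : Type} (W : List (S × S)) (k : ℕ) (h : k < W.length) :
    (fl W k h).length = W.length := by
  simp [fl]

theorem fl_self {S : Type} (W : List (S × S)) (k : ℕ) (h : k < W.length)
    (h' : k < (fl W k h).length) : (fl W k h)[k] = (W[k].2, W[k].1) := by
  simp [fl]

theorem fl_ne {S : Type} (W : List (S × S)) (k l : ℕ) (h : k < W.length) (hl : l < W.length)
    (hkl : l ≠ k) (h' : l < (fl W k h).length) : (fl W k h)[l] = W[l] := by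
  simp only [fl]
  rw [List.getElem_set_ne (Ne.symm hkl)]

theorem run_fl {S : Type} {L L' : List S} {W : List (S × S)} (hr : Run L W L') :
    ∀ (k : ℕ) (h : k < W.length), Run L (fl W k h) L' := by
  induction hr
  · intro k h
    exact absurd h (by simp)
  · rename_i A B s t W L' hr ih
    intro k h
    cases k with
    | zero => exact Run.under A B s t W L' hr
    | succ k => exact Run.over A B s t _ L' (ih k (by simpa using h))
  · rename_i A B s t W L' hr ih
    intro k h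
    cases k with
    | zero => exact Run.over A B s t W L' hr
    | succ k => exact Run.under A B s t _ L' (ih k (by simpa using h))

theorem stt_fl {S : Type} [DecidableEq S] (W : List (S × S)) : ∀ (L : List S) (k : ℕ)
    (h : k < W.length) (j : ℕ), stt L (fl W k h) j = stt L W j := by
  induction W with
  | nil => intro L k h; exact absurd h (by simp)
  | cons z W ih =>
    intro L k h j
    cases j with
    | zero => simp [stt]
    | succ j =>
      cases k with
      | zero =>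
        have : fl (z :: W) 0 h = (z.2, z.1) :: W := rfl
        rw [this, stt, stt, Equiv.swap_comm]
      | succ k =>
        have : fl (z :: W) (k + 1) h = z :: fl W k (by simpa using h) := rfl
        rw [this, stt, stt, ih]

section main

variable {V E : Type} [Fintype V] [Fintype E] [DecidableEq V] [DecidableEq E]
  {vt : Dart E → V} {bot top : List (Dart E)} {W : List (Dart E × Dart E)} {C : List (Dart E)}

theorem dia_fl (hD : IsDia (fg vt) bot W top) (k : ℕ) (h : k < W.length) :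
    IsDia (fg vt) bot (fl W k h) top :=
  ⟨hD.mb, hD.dia.nd, hD.dia.bb, hD.dia.tt, run_fl hD.dia.run k h⟩

theorem Nd_fl (k : ℕ) (h : k < W.length) (s : Dart E) (j : ℕ) :
    samexy (Nd bot W s j) (Nd bot (fl W k h) s j) := by
  unfold Nd
  rw [stt_fl]
  exact ⟨rfl, rfl⟩

theorem node_fl (k : ℕ) (h : k < W.length) (d : Dart E) (i : ℕ) :
    samexy (PIXM.node vt bot W d i) (PIXM.node vt bot (fl W k h) d i) := by
  unfold PIXM.node
  rw [fl_len]
  split_ifs
  · exact ⟨rfl, rfl⟩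
  · exact Nd_fl k h _ _
  · exact Nd_fl k h _ _

theorem len_fl (k : ℕ) (h : k < W.length) :
    ((real vt bot (fl W k h)).poly vt C).length = ((real vt bot W).poly vt C).length := by
  rw [specPIX.len, specPIX.len, fl_len]

theorem nd_fl (hC : IsCyc (fg vt) C) (k : ℕ) (h : k < W.length) (i : ℕ) :
    samexy (nd ((real vt bot W).poly vt C) i) (nd ((real vt bot (fl W k h)).poly vt C) i) := by
  rw [← nd_mod, ← nd_mod ((real vt bot (fl W k h)).poly vt C) i, len_fl]
  have hpos : 0 < ((real vt bot W).poly vt C).length := by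
    rw [specPIX.len]
    exact Nat.mul_pos (by omega) (List.length_pos_iff.2 hC.ne)
  have hlt := Nat.mod_lt i hpos
  generalize i % ((real vt bot W).poly vt C).length = x at *
  rw [specPIX.len] at hlt
  obtain ⟨r, y, hr, hy, rfl⟩ := decomp _ hlt
  rw [PIXM.nd_eq vt bot W C r hr y hy]
  have h2 := PIXM.nd_eq vt bot (fl W k h) C r hr y (by rw [fl_len]; exact hy)
  rw [fl_len] at h2
  rw [h2]
  exact node_fl k h _ _

/-! ### The chords of the polygon -/

open Classical in
/-- the events on the cycle -/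
noncomputable def evs (W : List (Dart E × Dart E)) (C : List (Dart E)) : Finset ℕ :=
  (Finset.range W.length).filter fun k => ∃ h : k < W.length, on (cv C) W[k].1 ∧ on (cv C) W[k].2

/-- position of the upper point of the event `k` -/
def OO (W : List (Dart E × Dart E)) (C : List (Dart E)) (k : ℕ) : ℕ :=
  if h : k < W.length then sn W.length C W[k].1 k else 0

/-- position of the lower point of the event `k` -/
def UU (W : List (Dart E × Dart E)) (C : List (Dart E)) (k : ℕ) : ℕ :=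
  if h : k < W.length then sn W.length C W[k].2 k else 0

theorem mem_evs {k : ℕ} : k ∈ evs W C ↔ ∃ h : k < W.length, on (cv C) W[k].1 ∧ on (cv C) W[k].2 := by
  unfold evs
  rw [Finset.mem_filter, Finset.mem_range]
  exact ⟨fun h => h.2, fun h => ⟨h.1, h⟩⟩

theorem OO_eq {k : ℕ} (h : k < W.length) : OO W C k = sn W.length C W[k].1 k := by
  simp [OO, h]

theorem UU_eq {k : ℕ} (h : k < W.length) : UU W C k = sn W.length C W[k].2 k := by
  simp [UU, h]

theorem evs_fl (k : ℕ) (h : k < W.length) : evs (fl W k h) C = evs W C := by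
  ext e
  rw [mem_evs, mem_evs]
  by_cases hek : e = k
  · subst hek
    constructor
    · rintro ⟨h1, h2⟩
      rw [fl_self] at h2
      exact ⟨h, h2.2, h2.1⟩
    · rintro ⟨h1, h2⟩
      refine ⟨by rw [fl_len]; exact h, ?_⟩
      rw [fl_self]
      exact ⟨h2.2, h2.1⟩
  · constructor
    · rintro ⟨h1, h2⟩
      have h3 : e < W.length := by rwa [fl_len] at h1
      rw [fl_ne W k e h h3 hek] at h2
      exact ⟨h3, h2⟩
    · rintro ⟨h1, h2⟩
      refine ⟨by rw [fl_len]; exact h1, ?_⟩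
      rw [fl_ne W k e h h1 hek]
      exact h2

theorem OO_fl (k : ℕ) (h : k < W.length) : OO (fl W k h) C k = UU W C k := by
  rw [OO_eq (by rw [fl_len]; exact h), UU_eq h, fl_self, fl_len]

theorem UU_fl (k : ℕ) (h : k < W.length) : UU (fl W k h) C k = OO W C k := by
  rw [UU_eq (by rw [fl_len]; exact h), OO_eq h, fl_self, fl_len]

theorem OO_fl' (k : ℕ) (h : k < W.length) (e : ℕ) (he : e ≠ k) :
    OO (fl W k h) C e = OO W C e := by
  by_cases h1 : e < W.length
  · rw [OO_eq (by rw [fl_len]; exact h1), OO_eq h1, fl_ne W k e h h1 he, fl_len]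
  · have h2 : ¬ e < (fl W k h).length := by rw [fl_len]; exact h1
    simp [OO, h1, h2]

theorem UU_fl' (k : ℕ) (h : k < W.length) (e : ℕ) (he : e ≠ k) :
    UU (fl W k h) C e = UU W C e := by
  by_cases h1 : e < W.length
  · rw [UU_eq (by rw [fl_len]; exact h1), UU_eq h1, fl_ne W k e h h1 he, fl_len]
  · have h2 : ¬ e < (fl W k h).length := by rw [fl_len]; exact h1
    simp [UU, h1, h2]

theorem ov_evs (hD : IsDia (fg vt) bot W top) (hC : IsCyc (fg vt) C) {i j : ℕ}
    (hi : i < ((real vt bot W).poly vt C).length)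
    (hj : j < ((real vt bot W).poly vt C).length) {s t : ℝ} :
    ov ((real vt bot W).poly vt C) ((real vt bot W).poly vt C) i j s t ↔
      s = 1 / 2 ∧ t = 1 / 2 ∧ ∃ k ∈ evs W C, i = OO W C k ∧ j = UU W C k := by
  constructor
  · intro h
    obtain ⟨h1, h2, k, hk, h3, h4, h5, h6⟩ :=
      ov_iff (specPLN specSTT specBLK) specCYC specSTT specBLK hD hC hi hj h
    exact ⟨h1, h2, k, mem_evs.2 ⟨hk, h3, h4⟩, by rw [OO_eq hk, h5], by rw [UU_eq hk, h6]⟩
  · rintro ⟨rfl, rfl, k, hk, rfl, rfl⟩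
    obtain ⟨h, h1, h2⟩ := mem_evs.1 hk
    rw [OO_eq h, UU_eq h]
    exact ov_of specCYC specSTT hD hC h h1 h2

theorem OO_lt (hC : IsCyc (fg vt) C) {k : ℕ} (hk : k ∈ evs W C) :
    OO W C k < ((real vt bot W).poly vt C).length := by
  obtain ⟨h, h1, h2⟩ := mem_evs.1 hk
  rw [OO_eq h]
  exact (pt_sn (vt := vt) (bot := bot) specCYC hC h1 h).1

theorem UU_lt (hC : IsCyc (fg vt) C) {k : ℕ} (hk : k ∈ evs W C) :
    UU W C k < ((real vt bot W).poly vt C).length := by
  obtain ⟨h, h1, h2⟩ := mem_evs.1 hk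
  rw [UU_eq h]
  exact (pt_sn (vt := vt) (bot := bot) specCYC hC h2 h).1

theorem OO_inj (hC : IsCyc (fg vt) C) {k l : ℕ} (hk : k ∈ evs W C) (hl : l ∈ evs W C)
    (h : OO W C k = OO W C l) : k = l := by
  obtain ⟨a, a1, a2⟩ := mem_evs.1 hk
  obtain ⟨b, b1, b2⟩ := mem_evs.1 hl
  rw [OO_eq a, OO_eq b] at h
  exact (sn_inj specCYC hC a1 b1 a b h).2

theorem UU_inj (hC : IsCyc (fg vt) C) {k l : ℕ} (hk : k ∈ evs W C) (hl : l ∈ evs W C)
    (h : UU W C k = UU W C l) : k = l := by
  obtain ⟨a, a1, a2⟩ := mem_evs.1 hk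
  obtain ⟨b, b1, b2⟩ := mem_evs.1 hl
  rw [UU_eq a, UU_eq b] at h
  exact (sn_inj specCYC hC a2 b2 a b h).2

theorem OU_ne (hD : IsDia (fg vt) bot W top) (hC : IsCyc (fg vt) C) {k l : ℕ} (hk : k ∈ evs W C)
    (hl : l ∈ evs W C) : OO W C k ≠ UU W C l := by
  intro h
  obtain ⟨a, a1, a2⟩ := mem_evs.1 hk
  obtain ⟨b, b1, b2⟩ := mem_evs.1 hl
  rw [OO_eq a, UU_eq b] at h
  obtain ⟨q1, q2⟩ := sn_inj specCYC hC a1 b2 a b h
  subst q2
  exact ne_ev specSTT hD a q1

theorem lex_half (a b : ℕ) : lex a (1 / 2) b (1 / 2) ↔ a < b := by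
  constructor
  · rintro (h | ⟨_, h⟩)
    · exact h
    · exact absurd h (lt_irrefl _)
  · exact Or.inl

theorem pv_evs (hD : IsDia (fg vt) bot W top) (hC : IsCyc (fg vt) C) :
    pv ((real vt bot W).poly vt C) = pvn (evs W C) (OO W C) (UU W C) := by
  classical
  unfold pv pvn
  symm
  refine Finset.card_bij (fun x _ => (OO W C x.1, UU W C x.1, OO W C x.2, UU W C x.2)) ?_ ?_ ?_
  · rintro ⟨k, l⟩ hx
    obtain ⟨h0, h1, h2, h3⟩ := Finset.mem_filter.1 hx
    obtain ⟨hk, hl⟩ := Finset.mem_product.1 h0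
    refine Finset.mem_filter.2 ⟨?_, ?_⟩
    · simp only [Finset.mem_product, Finset.mem_range]
      exact ⟨OO_lt hC hk, UU_lt hC hk, OO_lt hC hl, UU_lt hC hl⟩
    · exact ⟨1 / 2, 1 / 2, 1 / 2, 1 / 2,
        (ov_evs hD hC (OO_lt hC hk) (UU_lt hC hk)).2 ⟨rfl, rfl, k, hk, rfl, rfl⟩,
        (ov_evs hD hC (OO_lt hC hl) (UU_lt hC hl)).2 ⟨rfl, rfl, l, hl, rfl, rfl⟩,
        Or.inl h1, Or.inl h2, Or.inl h3⟩
  · rintro ⟨k, l⟩ hx ⟨k', l'⟩ hx' h
    obtain ⟨hk, hl⟩ := Finset.mem_product.1 (Finset.mem_filter.1 hx).1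
    obtain ⟨hk', hl'⟩ := Finset.mem_product.1 (Finset.mem_filter.1 hx').1
    simp only [Prod.mk.injEq] at h
    rw [Prod.mk.injEq]
    exact ⟨OO_inj hC hk hk' h.1, OO_inj hC hl hl' h.2.2.1⟩
  · rintro ⟨i, j, i', j'⟩ hx
    obtain ⟨hr, s, t, s', t', h1, h2, h3, h4, h5⟩ := Finset.mem_filter.1 hx
    simp only [Finset.mem_product, Finset.mem_range] at hr
    obtain ⟨r1, r2, r3, r4⟩ := hr
    obtain ⟨rfl, rfl, k, hk, k3, k4⟩ := (ov_evs hD hC r1 r2).1 h1
    obtain ⟨rfl, rfl, l, hl, l3, l4⟩ := (ov_evs hD hC r3 r4).1 h2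
    simp only at k3 k4 l3 l4 h3 h4 h5
    rw [lex_half] at h3 h4 h5
    subst k3 k4 l3 l4
    exact ⟨(k, l), Finset.mem_filter.2 ⟨Finset.mem_product.2 ⟨hk, hl⟩, h3, h4, h5⟩, rfl⟩

theorem smo_evs (hD : IsDia (fg vt) bot W top) (hC : IsCyc (fg vt) C) (i j : ℕ) :
    smo ((real vt bot W).poly vt C) i j (1 / 2) (1 / 2) =
      ((evs W C).filter fun e => (i < UU W C e ∧ UU W C e < j) ∧
        (OO W C e < i ∨ j < OO W C e)).card := by
  classical
  unfold smo
  symm
  refine Finset.card_bij (fun e _ => (OO W C e, UU W C e)) ?_ ?_ ?_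
  · intro e he
    obtain ⟨h0, h1, h2⟩ := Finset.mem_filter.1 he
    refine Finset.mem_filter.2 ⟨?_, 1 / 2, 1 / 2, ?_, ?_, ?_⟩
    · simp only [Finset.mem_product, Finset.mem_range]
      exact ⟨OO_lt hC h0, UU_lt hC h0⟩
    · exact (ov_evs hD hC (OO_lt hC h0) (UU_lt hC h0)).2 ⟨rfl, rfl, e, h0, rfl, rfl⟩
    · rw [lex_half, lex_half]
      exact h1
    · rw [lex_half, lex_half]
      exact h2
  · intro e he e' he' h
    rw [Prod.mk.injEq] at h
    exact OO_inj hC (Finset.mem_filter.1 he).1 (Finset.mem_filter.1 he').1 h.1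
  · rintro ⟨k, l⟩ hx
    obtain ⟨hr, u, v, h1, h2, h3⟩ := Finset.mem_filter.1 hx
    simp only [Finset.mem_product, Finset.mem_range] at hr
    obtain ⟨rfl, rfl, e, he, rfl, rfl⟩ := (ov_evs hD hC hr.1 hr.2).1 h1
    simp only [lex_half] at h2 h3
    exact ⟨e, Finset.mem_filter.2 ⟨he, h2, h3⟩, rfl⟩

theorem kp (hD : IsDia (fg vt) bot W top) (hC : IsCyc (fg vt) C) :
    Kp ((real vt bot W).poly vt C) := by
  refine ⟨?_, reg (specPLN specSTT specBLK) (specNOD specSTT) specCYC specSTT hD hC, ?_⟩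
  · rw [specPIX.len]
    have h1 := List.length_pos_iff.2 hC.ne
    have h2 : (4 * W.length + 3) * 1 ≤ (4 * W.length + 3) * C.length := Nat.mul_le_mul_left _ h1
    omega
  · intro i j hi hj hij s t hs0 hs1 ht0 ht1 h
    rcases pln' (specPLN specSTT specBLK) specCYC hD hC hi hj hij hs0.le hs1.le ht0.le ht1.le h with
      ⟨_, h7 | h7, _⟩ | ⟨h7, h8, k, hk, h9, h10, h11⟩
    · linarith
    · linarith
    · subst h7 h8
      rcases h11 with ⟨e1, e2⟩ | ⟨e1, e2⟩
      · rw [e1, e2, (pt_sn specCYC hC h9 hk).2, (pt_sn specCYC hC h10 hk).2, mid_z _ hk, mid_z _ hk,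
          if_pos rfl, if_neg (ne_ev specSTT hD hk)]
        norm_num
      · rw [e1, e2, (pt_sn specCYC hC h9 hk).2, (pt_sn specCYC hC h10 hk).2, mid_z _ hk, mid_z _ hk,
          if_pos rfl, if_neg (ne_ev specSTT hD hk)]
        norm_num

theorem chg (hD : IsDia (fg vt) bot W top) (hC : IsCyc (fg vt) C) (k : ℕ) (hk : k ∈ evs W C)
    (h : k < W.length) :
    Chg ((real vt bot (fl W k h)).poly vt C) ((real vt bot W).poly vt C) (UU W C k) (OO W C k)
      (1 / 2) (1 / 2) := by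
  have hD' := dia_fl hD k h
  have hk' : k ∈ evs (fl W k h) C := by rw [evs_fl]; exact hk
  have hl := len_fl (vt := vt) (bot := bot) (C := C) k h
  refine ⟨hl.symm, fun i => ?_, ?_, ?_, ?_⟩
  · have h1 := nd_fl (bot := bot) hC k h i
    exact ⟨h1.1.symm, h1.2.symm⟩
  · have h1 := UU_lt (bot := bot) hC hk
    have h2 := OO_lt (bot := bot) hC hk
    rw [← hl] at h1 h2
    exact (ov_evs hD' hC h1 h2).2 ⟨rfl, rfl, k, hk', (OO_fl k h).symm, (UU_fl k h).symm⟩
  · exact (ov_evs hD hC (OO_lt hC hk) (UU_lt hC hk)).2 ⟨rfl, rfl, k, hk, rfl, rfl⟩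
  · intro i j u v hi hj hn
    rw [ov_evs hD' hC hi hj, ov_evs hD hC (hl ▸ hi) (hl ▸ hj), evs_fl]
    constructor
    · rintro ⟨rfl, rfl, e, he, h1, h2⟩
      by_cases hek : e = k
      · exfalso
        subst hek
        rw [OO_fl] at h1
        rw [UU_fl] at h2
        exact hn (Or.inl ⟨h1, h2⟩)
      · exact ⟨rfl, rfl, e, he, by rw [h1, OO_fl' k h e hek], by rw [h2, UU_fl' k h e hek]⟩
    · rintro ⟨rfl, rfl, e, he, h1, h2⟩
      by_cases hek : e = k
      · exfalso
        subst hek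
        exact hn (Or.inr ⟨h1, h2⟩)
      · exact ⟨rfl, rfl, e, he, by rw [h1, OO_fl' k h e hek], by rw [h2, UU_fl' k h e hek]⟩

theorem a_eq {a : List P3 → ZMod 2} (ha : IsA2 a) (hC : IsCyc (fg vt) C) : ∀ (n : ℕ)
    (W : List (Dart E × Dart E)), IsDia (fg vt) bot W top →
    ((evs W C).filter fun e => UU W C e < OO W C e).card = n →
    a ((real vt bot W).poly vt C) = (pv ((real vt bot W).poly vt C) : ZMod 2) := by
  intro n
  induction n with
  | zero =>
    intro W hD h0
    rw [Finset.card_eq_zero, Finset.filter_eq_empty_iff] at h0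
    have h1 : ∀ e ∈ evs W C, OO W C e < UU W C e := by
      intro e he
      have := h0 he
      have := OU_ne hD hC he he
      omega
    rw [ha.desc _ (kp hD hC), pv_evs hD hC]
    · unfold pvn
      rw [Finset.filter_eq_empty_iff.2]
      · simp
      · rintro ⟨k, l⟩ hx ⟨h2, h3, h4⟩
        have := h1 l (Finset.mem_product.1 hx).2
        simp only at h2 h3 h4
        omega
    · intro i j s t hi hj hov
      obtain ⟨rfl, rfl, k, hk, rfl, rfl⟩ := (ov_evs hD hC hi hj).1 hov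
      rw [lex_half]
      exact h1 k hk
  | succ n ih =>
    intro W hD hn
    have hne : ((evs W C).filter fun e => UU W C e < OO W C e).Nonempty := by
      rw [← Finset.card_pos, hn]
      omega
    obtain ⟨k, hk⟩ := hne
    obtain ⟨hk1, hk2⟩ := Finset.mem_filter.1 hk
    obtain ⟨h, _⟩ := mem_evs.1 hk1
    have hD' := dia_fl hD k h
    have hcard : ((evs (fl W k h) C).filter fun e => UU (fl W k h) C e < OO (fl W k h) C e).card = n := by
      have he : ((evs (fl W k h) C).filter fun e => UU (fl W k h) C e < OO (fl W k h) C e) =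
          ((evs W C).filter fun e => UU W C e < OO W C e).erase k := by
        ext e
        rw [evs_fl, Finset.mem_erase, Finset.mem_filter, Finset.mem_filter]
        by_cases hek : e = k
        · subst hek
          rw [OO_fl, UU_fl]
          constructor
          · rintro ⟨_, h1⟩
            omega
          · rintro ⟨h1, _⟩
            exact absurd rfl h1
        · rw [OO_fl' k h e hek, UU_fl' k h e hek]
          exact ⟨fun h1 => ⟨hek, h1⟩, fun h1 => h1.2⟩
      rw [he, Finset.card_erase_of_mem hk, hn]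
      rfl
    have h1 := ih (fl W k h) hD' hcard
    have hlen := len_fl (vt := vt) (bot := bot) (C := C) k h
    have h2 := ha.skein _ _ _ _ _ _ (kp hD' hC) (kp hD hC)
      (by rw [hlen]; exact UU_lt hC hk1) (by rw [hlen]; exact OO_lt hC hk1)
      ((lex_half _ _).2 hk2) (chg hD hC k hk1 h)
    have h3 := pvn_flip (evs W C) (OO W C) (UU W C) (OO (fl W k h) C) (UU (fl W k h) C) k hk1
      (OO_fl k h) (UU_fl k h) (fun e he => OO_fl' k h e he) (fun e he => UU_fl' k h e he) hk2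
    rw [smo_evs hD' hC, evs_fl] at h2
    have h4 := pv_evs hD' hC
    rw [evs_fl] at h4
    rw [← h3, h1, h4] at h2
    rw [pv_evs hD hC]
    exact add_left_cancel h2

end main

end CNWM

/-- on the realisation of a word diagram every function with Conway's skein relation is the number `AW` of
the word diagram -/
theorem cnw {a : List P3 → ZMod 2} (ha : IsA2 a) {V E : Type} [Fintype V] [Fintype E]
    [DecidableEq V] [DecidableEq E] (vt : Dart E → V) (bot top : List (Dart E))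
    (W : List (Dart E × Dart E)) (hD : IsDia (fg vt) bot W top) (c : List (Dart E))
    (hc : IsCyc (fg vt) c) : a ((real vt bot W).poly vt c) = AW (cv c) W := by
  rw [CNWM.a_eq ha hc _ W hD rfl]
  exact (specPVC specPSU specBLK specCYC specSTT (specPLN specSTT specBLK) (specNOD specSTT)
    vt bot top W hD c hc).2

theorem specFIN2 (hIND : SpecIND) (hGTW : SpecGTW) (hEMB : SpecEMB) : SpecFIN2 := by
  intro a ha V E _ _ _ _ vt hI Γ hΓ
  by_contra hno
  obtain ⟨bot, W, top, hdia, hz⟩ := hIND (fg vt) (hGTW vt Γ hΓ hno)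
  obtain ⟨c, hc, h1⟩ := hI (real vt bot W) (hEMB vt bot top W hdia)
  rw [cnw ha vt bot top W hdia c hc, hz c hc] at h1
  exact zero_ne_one h1

end Pool.Agent.Lib.MP3ff0f8.T
end

section
/-! # The topological half: Theorem C implies the answer to Q1, both forms -/
namespace Pool.Agent.Lib.MP3ff0f8.T

/-- Theorem C implies the answer to Q1: for `a₂` mod 2 given by the Polyak-Viro formula (`SpecFIN`), and for
every function with Conway's skein relation mod 2 (`SpecFIN2`). -/
theorem topHalf2 (hC : SpecC) : SpecFIN ∧ SpecFIN2 := by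
  have hPSU : SpecPSU := specPSU 
  have hRUN : SpecRUN := specRUN 
  have hBLK : SpecBLK := specBLK 
  have hREA : SpecREA := specREA hRUN
  have hHAL : SpecHAL := specHAL hPSU hRUN hBLK
  have hCYC : SpecCYC := specCYC 
  have hBAS : SpecBAS := specBAS hHAL hPSU hRUN
  have hLOC : SpecLOC := specLOC hPSU hRUN
  have hCFI : SpecCFI := specCFI hPSU hRUN hCYC hLOC
  have hGAD : SpecGAD := specGAD hPSU hRUN hCYC
  have hPRE : SpecPRE := specPRE hPSU hCYC hBAS
  have hFRT : SpecFRT := specFRT hPSU hRUN hBLK hCYC hPRE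
  have hRNG : SpecRNG := specRNG hPSU hRUN hCYC hBAS hPRE hFRT
  have hNRM : SpecNRM := specNRM hPSU hRUN hCFI hFRT hRNG
  have hCON : SpecCON := specCON hNRM hPSU hRUN hBLK hCYC hBAS
  have hLIF : SpecLIF := specLIF hCYC
  have hRSF : SpecRSF := specRSF 
  have hRES : SpecRES := specRES hPSU hRUN hBLK hCYC
  have hISO : SpecISO := specISO hPSU hRUN hBLK
  have hGCO : SpecGCO := specGCO hCON hLIF hRSF hGAD hBAS hCYC
  have hDDC : SpecDDC := specDDC hRES hCON hLIF hCYC
  have hTRE : SpecTRE := specTRE 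
  have hDFC : SpecDFC := specDFC hTRE hCYC
  have hDFB : SpecDFB := specDFB hBAS
  have hDFL : SpecDFL := specDFL hDFB hDFC hCON hLIF hRSF hCYC
  have hADD : SpecADD := specADD hPSU hRUN hBLK hCYC hFRT
  have hSUB : SpecSUB := specSUB hPSU hRUN hBLK hCYC hBAS
  have hPAR : SpecPAR := specPAR hPSU hRUN hBLK hCYC hBAS hGAD
  have hGLA : SpecGLA := specGLA hFRT hPSU hRUN hBLK hCYC hBAS
  have hGLB : SpecGLB := specGLB hGCO hISO
  have hMIK : SpecMIK := specMIK hDDC hISO
  have hSEP : SpecSEP := specSEP 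
  have hCNA : SpecCNA := specCNA 
  have hCNC : SpecCNC := specCNC 
  have hCND : SpecCND := specCND 
  have hLKD : SpecLKD := specLKD hREA
  have hGEN : SpecGEN := specGEN 
  have hSGM : SpecSGM := specSGM 
  have hPSG : SpecPSG := specPSG 
  have hGTW : SpecGTW := specGTW hLKD hGEN hSGM
  have hSTT : SpecSTT := specSTT 
  have hPLN : SpecPLN := specPLN hSTT hBLK
  have hNOD : SpecNOD := specNOD hSTT
  have hEMB : SpecEMB := specEMB hPLN hNOD hSTT
  have hPIX : SpecPIX := specPIX 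
  have hPVC : SpecPVC := specPVC hPSU hBLK hCYC hSTT hPLN hNOD
  have hCNB : SpecCNB := specCNB hLKD
  have hIND : SpecIND := specIND hC hGAD hBAS hDDC hDFL hADD hSUB hPAR hGLA hGLB hMIK hSEP hISO hRES hCYC hCNA hCNB hCNC hCND
  have hFIN : SpecFIN := specFIN hIND hGTW hEMB hPVC
  exact ⟨hFIN, specFIN2 hIND hGTW hEMB⟩

end Pool.Agent.Lib.MP3ff0f8.T
end
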