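import Pool.Agent.Lib.MP_3ff0f8_gt.T.Defs

/-!
# MP_3ff0f8_gt: `a₂` mod 2 by Conway's skein relation

Definitions for the second form of the conclusion: instead of the Polyak-Viro formula we use any function
on closed polygons which satisfies Conway's skein relation modulo 2 and vanishes on descending
(hence unknotted) polygons.
-/

namespace Pool.Agent.Lib.MP3ff0f8.T

/-- `P` is an embedded closed polygon with regular vertical projection: the projection is regular, and at
every crossing the two points have different heights -/
structure Kp (P : List P3) : Prop where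
  len : 3 ≤ P.length
  reg : Reg P
  emb : ∀ i j, i < P.length → j < P.length → i ≠ j → ∀ s t : ℝ, 0 < s → s < 1 → 0 < t → t < 1 →
    samexy (pt P i s) (pt P j t) → (pt P i s).2.2 ≠ (pt P j t).2.2

/-- `P` is descending: travelling along `P` from its first node, one passes every crossing first on its
upper strand -/
def Desc (P : List P3) : Prop := ∀ i j (s t : ℝ), i < P.length → j < P.length → ov P P i j s t →
  lex i s j t

/-- crossing change: `P` and `P'` have the same vertical projection, node by node; at the crossing of the
`i`-th segment (at the parameter `s`) and the `j`-th segment (at the parameter `t`) the `i`-th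
segment is above in `P` and below in `P'`; at all other crossings the same segment is above -/
structure Chg (P P' : List P3) (i j : ℕ) (s t : ℝ) : Prop where
  len : P'.length = P.length
  xy : ∀ k, samexy (nd P k) (nd P' k)
  ov : ov P P i j s t
  ov' : T.ov P' P' j i t s
  oth : ∀ k l (u v : ℝ), k < P.length → l < P.length → ¬ ((k = i ∧ l = j) ∨ (k = j ∧ l = i)) →
    (T.ov P P k l u v ↔ T.ov P' P' k l u v)

open Classical in
/-- Smoothing the crossing of the points `(i, s)` and `(j, t)` of `P` gives two closed curves: the arc of
`P` from `(i, s)` to `(j, t)` and the rest of `P`.  `smo P i j s t` is the number of crossings at which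
the rest passes over the arc, so mod 2 it is the linking number of the two curves. -/
noncomputable def smo (P : List P3) (i j : ℕ) (s t : ℝ) : ℕ :=
  ((Finset.range P.length ×ˢ Finset.range P.length).filter fun x : ℕ × ℕ =>
    ∃ u v : ℝ, ov P P x.1 x.2 u v ∧ (lex i s x.2 v ∧ lex x.2 v j t) ∧
      (lex x.1 u i s ∨ lex j t x.1 u)).card

/-- `a` is (on the polygons with regular vertical projection) the coefficient `a₂` of the Conway polynomial
modulo 2: it vanishes on descending polygons, which are unknotted, and satisfies Conway's skein relation
`a₂(K₊) - a₂(K₋) = lk(K₀)` modulo 2 -/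
structure IsA2 (a : List P3 → ZMod 2) : Prop where
  desc : ∀ P, Kp P → Desc P → a P = 0
  skein : ∀ P P' i j s t, Kp P → Kp P' → i < P.length → j < P.length → lex i s j t →
    Chg P P' i j s t → a P + a P' = (smo P i j s t : ZMod 2)

/-- `Ia₂` mod 2, `a` being `a₂` mod 2: every embedding contains a cycle with `a₂` odd -/
def Ia2w {V E : Type} [Fintype E] (a : List P3 → ZMod 2) (vt : Dart E → V) : Prop :=
  ∀ Γ : Emb V E, IsEmb vt Γ → ∃ c, IsCyc (fg vt) c ∧ a (Γ.poly vt c) = 1

/-- the conclusion, second form -/
def SpecFIN2 : Prop := ∀ a : List P3 → ZMod 2, IsA2 a →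
  ∀ (V E : Type) [Fintype V] [Fintype E] [DecidableEq V] [DecidableEq E] (vt : Dart E → V),
    Ia2w a vt → ID4 vt

end Pool.Agent.Lib.MP3ff0f8.T
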