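import Pool.Agent.Lib.MP_3ff0f8_gt.T.CNWPV
import Pool.Agent.Lib.MP_3ff0f8_gt.T.All2
import Pool.Agent.Lib.MP_3ff0f8_gt.BR.All2

/-!
# The conclusion with `a₂` mod 2 given by Conway's skein relation
-/

set_option autoImplicit false

namespace Pool.Agent.Lib.MP3ff0f8.T

/-- `Ia₂` mod 2, `a₂` mod 2 being given by Conway's skein relation: there is a function `a` on closed
polygons with the two properties `IsA2` (the reduction mod 2 of the coefficient `a₂` of the Conway
polynomial is such a function, and so is the Polyak-Viro number mod 2, `isA2_pv`) such that every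
embedding contains a cycle on which `a` is `1` -/
def Ia2c {V E : Type} [Fintype E] (vt : Dart E → V) : Prop :=
  ∃ a : List P3 → ZMod 2, IsA2 a ∧ ∀ Γ : Emb V E, IsEmb vt Γ → ∃ c, IsCyc (fg vt) c ∧ a (Γ.poly vt c) = 1

/-- the conclusion, third form: `Ia2c vt → ID4 vt` -/
def SpecFIN3 : Prop := ∀ (V E : Type) [Fintype V] [Fintype E] [DecidableEq V] [DecidableEq E]
  (vt : Dart E → V), Ia2c vt → ID4 vt

theorem specFIN3 (h : SpecFIN2) : SpecFIN3 := by
  rintro V E _ _ _ _ vt ⟨a, ha, hI⟩
  exact h a ha V E vt hI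

theorem sh_zero : sh 0 0 = id := by
  funext p
  simp [sh]

/-- the Polyak-Viro form of `Ia₂` mod 2 implies the Conway form -/
theorem Ia2.toC {V E : Type} [Fintype E] {vt : Dart E → V} (h : Ia2 vt) : Ia2c vt := by
  classical
  refine ⟨fun P => if Reg P then (pv P : ZMod 2) else 1, ⟨?_, ?_⟩, ?_⟩
  · intro P hP hD
    show (if Reg P then (pv P : ZMod 2) else 1) = 0
    rw [if_pos hP.reg]
    exact isA2_pv.desc P hP hD
  · intro P P' i j s t hP hP' hi hj hl hc
    show (if Reg P then (pv P : ZMod 2) else 1) + (if Reg P' then (pv P' : ZMod 2) else 1) = _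
    rw [if_pos hP.reg, if_pos hP'.reg]
    exact isA2_pv.skein P P' i j s t hP hP' hi hj hl hc
  · intro Γ hΓ
    obtain ⟨c, hc, h1⟩ := h Γ hΓ
    refine ⟨c, hc, ?_⟩
    show (if Reg (Γ.poly vt c) then (pv (Γ.poly vt c) : ZMod 2) else 1) = 1
    split_ifs with h2
    · have h3 := h1 0 0
      rw [sh_zero, List.map_id] at h3
      exact (ZMod.natCast_eq_one_iff_odd).2 (h3 h2)
    · rfl

/-- the third form of the conclusion implies the first one -/
theorem SpecFIN3.toFIN (h : SpecFIN3) : SpecFIN := by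
  intro V E _ _ _ _ vt hI
  exact h V E vt hI.toC

end Pool.Agent.Lib.MP3ff0f8.T

namespace Pool.Agent.Lib.MP3ff0f8.BR

open Pool.Agent.Lib.MP3ff0f8

/-- Theorem C implies that every `Ia_2 mod 2` graph is `ID_4 mod 2` (Conway form) -/
theorem main3 (hC : DL.TheoremC) : T.SpecFIN3 := T.specFIN3 (main2 hC).2

end Pool.Agent.Lib.MP3ff0f8.BR
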