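import Pool.Agent.Lib.MP_3ff0f8_gt.T.CNWDefs

/-!
# The Polyak-Viro number satisfies Conway's skein relation modulo 2
-/

set_option autoImplicit false

namespace Pool.Agent.Lib.MP3ff0f8.T

namespace CNWPVM

theorem pt_x (P : List P3) (i : ℕ) (s : ℝ) :
    (pt P i s).1 = (1 - s) * (nd P i).1 + s * (nd P (i + 1)).1 := rfl

theorem pt_y (P : List P3) (i : ℕ) (s : ℝ) :
    (pt P i s).2.1 = (1 - s) * (nd P i).2.1 + s * (nd P (i + 1)).2.1 := rfl

theorem nd_mod (P : List P3) (i : ℕ) : nd P (i % P.length) = nd P i := by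
  unfold nd
  rw [Nat.mod_mod]

theorem succ_mod {n i : ℕ} (h : i < n) : (i + 1) % n = if i + 1 < n then i + 1 else 0 := by
  split_ifs with h1
  · exact Nat.mod_eq_of_lt h1
  · have : i + 1 = n := by omega
    rw [this, Nat.mod_self]

theorem line {ax ay bx bY cx cy dx dy s t s' t' : ℝ}
    (h1x : (1 - s) * ax + s * bx = (1 - t) * cx + t * dx)
    (h1y : (1 - s) * ay + s * bY = (1 - t) * cy + t * dy)
    (h2x : (1 - s') * ax + s' * bx = (1 - t') * cx + t' * dx)
    (h2y : (1 - s') * ay + s' * bY = (1 - t') * cy + t' * dy) (hs : s ≠ s') (ht : t ≠ t') :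
    ∃ c l : ℝ, l ≠ 0 ∧ cx = (1 - c) * ax + c * bx ∧ cy = (1 - c) * ay + c * bY ∧
      dx = (1 - (c + l)) * ax + (c + l) * bx ∧ dy = (1 - (c + l)) * ay + (c + l) * bY ∧
      s = c + t * l := by
  have ht' : t' - t ≠ 0 := sub_ne_zero.2 (Ne.symm ht)
  have hs' : s' - s ≠ 0 := sub_ne_zero.2 (Ne.symm hs)
  refine ⟨s - t * ((s' - s) / (t' - t)), (s' - s) / (t' - t), div_ne_zero hs' ht', ?_, ?_, ?_, ?_, ?_⟩
  · field_simp
    linear_combination (t' - t) * (-1) * h1x + t * (h2x - h1x)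
  · field_simp
    linear_combination (t' - t) * (-1) * h1y + t * (h2y - h1y)
  · field_simp
    linear_combination (t' - t) * (-1) * h1x - (1 - t) * (h2x - h1x)
  · field_simp
    linear_combination (t' - t) * (-1) * h1y - (1 - t) * (h2y - h1y)
  · ring

variable {P : List P3}

theorem nonvert (hP : Kp P) {i : ℕ} (hi : i < P.length) : ¬ samexy (nd P i) (nd P (i + 1)) := by
  intro h
  have hn := hP.len
  have e1 := succ_mod hi
  have h1 : (i + 1) % P.length < P.length := Nat.mod_lt _ (by omega)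
  have e2 := succ_mod h1
  refine hP.reg.1 i ((i + 1) % P.length) hi h1 ?_ ?_ 0 le_rfl zero_le_one ?_
  · rw [e1]
    split_ifs <;> omega
  · rw [e2, e1]
    split_ifs <;> omega
  · have : pt P ((i + 1) % P.length) 0 = nd P (i + 1) := by
      rw [← nd_mod P (i + 1)]
      simp [pt]
    rw [this]
    exact h

/-- a node over a segment is an end point of the segment -/
theorem onseg (hP : Kp P) {i j : ℕ} (hi : i < P.length) (hj : j < P.length) {t : ℝ} (h0 : 0 ≤ t)
    (h1 : t ≤ 1) (h : samexy (nd P i) (pt P j t)) : i = j ∨ i = (j + 1) % P.length := by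
  by_contra hc
  rw [not_or] at hc
  exact hP.reg.1 i j hi hj hc.1 hc.2 t h0 h1 h

theorem onseg' (hP : Kp P) {i j : ℕ} (hi : i < P.length) (hj : j < P.length) (hij : i ≠ j) {t : ℝ}
    (h0 : 0 ≤ t) (h1 : t ≤ 1) (h : samexy (nd P (i + 1)) (pt P j t)) : (i + 1) % P.length = j := by
  have hlt : (i + 1) % P.length < P.length := Nat.mod_lt _ (by omega)
  rw [← nd_mod] at h
  rcases onseg hP hlt hj h0 h1 h with h2 | h2
  · exact h2
  · exfalso
    apply hij
    rw [succ_mod hi, succ_mod hj] at h2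
    split_ifs at h2 <;> omega

theorem uniq (hP : Kp P) {i j : ℕ} (hi : i < P.length) (hj : j < P.length) (hij : i ≠ j)
    {s t s' t' : ℝ} (hs0 : 0 < s) (hs1 : s < 1) (ht0 : 0 < t) (ht1 : t < 1)
    (h : samexy (pt P i s) (pt P j t)) (h' : samexy (pt P i s') (pt P j t')) :
    s = s' ∧ t = t' := by
  have hvi := nonvert hP hi
  have hvj := nonvert hP hj
  obtain ⟨h1x, h1y⟩ := h
  obtain ⟨h2x, h2y⟩ := h'
  rw [pt_x, pt_x] at h1x h2x
  rw [pt_y, pt_y] at h1y h2y
  by_cases hs : s = s'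
  · refine ⟨hs, ?_⟩
    by_contra ht
    subst hs
    apply hvj
    have ht' : t - t' ≠ 0 := sub_ne_zero.2 ht
    constructor
    · apply mul_left_cancel₀ ht'
      linear_combination h1x - h2x
    · apply mul_left_cancel₀ ht'
      linear_combination h1y - h2y
  by_cases ht : t = t'
  · exfalso
    subst ht
    apply hvi
    have hs' : s - s' ≠ 0 := sub_ne_zero.2 hs
    constructor
    · apply mul_left_cancel₀ hs'
      linear_combination h2x - h1x
    · apply mul_left_cancel₀ hs'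
      linear_combination h2y - h1y
  exfalso
  obtain ⟨c, l, hl, hcx, hcy, hdx, hdy, hst⟩ := line h1x h1y h2x h2y hs ht
  have hn := hP.len
  -- the four facts
  have F1 : 0 ≤ c → c ≤ 1 → (i + 1) % P.length = j := by
    intro h0 h1
    rcases onseg hP hj hi h0 h1 ⟨by rw [pt_x]; exact hcx, by rw [pt_y]; exact hcy⟩ with h2 | h2
    · exact absurd h2.symm hij
    · exact h2.symm
  have F2 : 0 ≤ c + l → c + l ≤ 1 → (j + 1) % P.length = i := fun h0 h1 =>
    onseg' hP hj hi hij.symm h0 h1 ⟨by rw [pt_x]; exact hdx, by rw [pt_y]; exact hdy⟩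
  have F3 : 0 ≤ -c / l → -c / l ≤ 1 → (j + 1) % P.length = i := by
    intro h0 h1
    have : samexy (nd P i) (pt P j (-c / l)) := by
      constructor
      · rw [pt_x, hcx, hdx]
        field_simp
        ring
      · rw [pt_y, hcy, hdy]
        field_simp
        ring
    rcases onseg hP hi hj h0 h1 this with h2 | h2
    · exact absurd h2 hij
    · exact h2.symm
  have F4 : 0 ≤ (1 - c) / l → (1 - c) / l ≤ 1 → (i + 1) % P.length = j := by
    intro h0 h1
    have : samexy (nd P (i + 1)) (pt P j ((1 - c) / l)) := by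
      constructor
      · rw [pt_x, hcx, hdx]
        field_simp
        ring
      · rw [pt_y, hcy, hdy]
        field_simp
        ring
    exact onseg' hP hi hj hij h0 h1 this
  have F5 : (i + 1) % P.length = j → c = 1 := by
    intro h0
    have h1 : nd P j = nd P (i + 1) := by rw [← h0, nd_mod]
    rw [h1] at hcx hcy
    by_contra hc
    apply hvi
    have hc' : 1 - c ≠ 0 := sub_ne_zero.2 (Ne.symm hc)
    constructor
    · apply mul_left_cancel₀ hc'
      linear_combination -hcx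
    · apply mul_left_cancel₀ hc'
      linear_combination -hcy
  have F6 : (j + 1) % P.length = i → c + l = 0 := by
    intro h0
    have h1 : nd P i = nd P (j + 1) := by rw [← h0, nd_mod]
    rw [← h1] at hdx hdy
    by_contra hc
    apply hvi
    constructor
    · apply mul_left_cancel₀ hc
      linear_combination hdx
    · apply mul_left_cancel₀ hc
      linear_combination hdy
  have F7 : (i + 1) % P.length = j → (j + 1) % P.length = i → False := by
    intro h0 h1
    rw [succ_mod hi] at h0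
    rw [succ_mod hj] at h1
    split_ifs at h0 h1 <;> omega
  rcases lt_or_gt_of_ne hl with hl' | hl'
  · -- l < 0
    have hc : s < c := by nlinarith
    have hd : c + l < s := by nlinarith
    by_cases hd0 : 0 ≤ c + l
    · have h1 := F2 hd0 (by linarith)
      have h2 := F6 h1
      by_cases hc1 : c ≤ 1
      · exact F7 (F1 (by linarith) hc1) h1
      · refine F7 (F4 ?_ ?_) h1
        · exact div_nonneg_of_nonpos (by linarith) hl'.le
        · rw [div_le_one_of_neg hl']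
          linarith
    · by_cases hc1 : c ≤ 1
      · have h1 := F1 (by linarith) hc1
        refine F7 h1 (F3 ?_ ?_)
        · exact div_nonneg_of_nonpos (by linarith) hl'.le
        · rw [div_le_one_of_neg hl']
          linarith
      · refine F7 (F4 ?_ ?_) (F3 ?_ ?_)
        · exact div_nonneg_of_nonpos (by linarith) hl'.le
        · rw [div_le_one_of_neg hl']
          linarith
        · exact div_nonneg_of_nonpos (by linarith) hl'.le
        · rw [div_le_one_of_neg hl']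
          linarith
  · -- 0 < l
    have hc : c < s := by nlinarith
    have hd : s < c + l := by nlinarith
    by_cases hc0 : 0 ≤ c
    · have h1 := F5 (F1 hc0 (by linarith))
      linarith
    · have h1 := F6 (F3 (div_nonneg (by linarith) hl'.le) (by rw [div_le_one hl']; linarith))
      linarith

theorem ov_ne (hP : Kp P) {i j : ℕ} (hi : i < P.length) {s t : ℝ} (h : ov P P i j s t) : i ≠ j := by
  rintro rfl
  obtain ⟨_, _, _, _, ⟨hx, hy⟩, hz⟩ := h
  rw [pt_x, pt_x] at hx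
  rw [pt_y, pt_y] at hy
  have hst : s ≠ t := by
    rintro rfl
    exact lt_irrefl _ hz
  have hst' : s - t ≠ 0 := sub_ne_zero.2 hst
  apply nonvert hP hi
  constructor
  · apply mul_left_cancel₀ hst'
    linear_combination -hx
  · apply mul_left_cancel₀ hst'
    linear_combination -hy

theorem ov_uniq (hP : Kp P) {i j : ℕ} (hi : i < P.length) (hj : j < P.length) {s t s' t' : ℝ}
    (h : ov P P i j s t) (h' : ov P P i j s' t') : s = s' ∧ t = t' := by
  have hij := ov_ne hP hi h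
  obtain ⟨a1, a2, a3, a4, a5, _⟩ := h
  obtain ⟨_, _, _, _, b5, _⟩ := h'
  exact uniq hP hi hj hij a1 a2 a3 a4 a5 b5

/-- a pair of segments cannot cross in both ways -/
theorem ov_asymm (hP : Kp P) {i j : ℕ} (hi : i < P.length) (hj : j < P.length) {s t s' t' : ℝ}
    (h : ov P P i j s t) (h' : ov P P j i s' t') : False := by
  have hij := ov_ne hP hi h
  obtain ⟨a1, a2, a3, a4, a5, a6⟩ := h
  obtain ⟨b1, b2, b3, b4, b5, b6⟩ := h'
  obtain ⟨e1, e2⟩ := uniq hP hi hj hij a1 a2 a3 a4 a5 ⟨b5.1.symm, b5.2.symm⟩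
  subst e1 e2
  exact lt_asymm a6 b6

theorem lex_trans {i j k : ℕ} {s t u : ℝ} (h : lex i s j t) (h' : lex j t k u) : lex i s k u := by
  rcases h with h | ⟨rfl, h⟩ <;> rcases h' with h' | ⟨rfl, h'⟩
  · exact Or.inl (h.trans h')
  · exact Or.inl h
  · exact Or.inl h'
  · exact Or.inr ⟨rfl, h.trans h'⟩

theorem lex_irrefl {i : ℕ} {s : ℝ} (h : lex i s i s) : False := by
  rcases h with h | ⟨_, h⟩
  · exact lt_irrefl _ h
  · exact lt_irrefl _ h

theorem lex_asymm {i j : ℕ} {s t : ℝ} (h : lex i s j t) (h' : lex j t i s) : False :=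
  lex_irrefl (lex_trans h h')

/-- the pattern of the Polyak-Viro formula -/
def R (P : List P3) (x : ℕ × ℕ × ℕ × ℕ) : Prop :=
  ∃ s t s' t' : ℝ, ov P P x.1 x.2.1 s t ∧ ov P P x.2.2.1 x.2.2.2 s' t' ∧
    lex x.1 s x.2.2.2 t' ∧ lex x.2.2.2 t' x.2.1 t ∧ lex x.2.1 t x.2.2.1 s'

/-- the quadruples of numbers smaller than `n` -/
def Q (n : ℕ) : Finset (ℕ × ℕ × ℕ × ℕ) :=
  Finset.range n ×ˢ Finset.range n ×ˢ Finset.range n ×ˢ Finset.range n

theorem mem_Q {n : ℕ} {x : ℕ × ℕ × ℕ × ℕ} :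
    x ∈ Q n ↔ x.1 < n ∧ x.2.1 < n ∧ x.2.2.1 < n ∧ x.2.2.2 < n := by
  simp only [Q, Finset.mem_product, Finset.mem_range]

open Classical in
theorem pv_R (P : List P3) : pv P = ((Q P.length).filter (R P)).card := by
  unfold pv Q
  congr 1

section skein

variable {P' : List P3} {i j : ℕ} {s₀ t₀ : ℝ}

theorem common (hP : Kp P) (hP' : Kp P') (hi : i < P.length) (hj : j < P.length)
    (hl : lex i s₀ j t₀) (hc : Chg P P' i j s₀ t₀) (x : ℕ × ℕ × ℕ × ℕ) (hx : x ∈ Q P.length) :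
    (R P x ∧ ¬ (x.1 = i ∧ x.2.1 = j)) ↔ (R P' x ∧ ¬ (x.2.2.1 = j ∧ x.2.2.2 = i)) := by
  obtain ⟨a, b, k, l⟩ := x
  obtain ⟨ha, hb, hk, hl'⟩ := mem_Q.1 hx
  simp only at ha hb hk hl'
  have hn := hc.len
  constructor
  · rintro ⟨⟨s, t, s', t', h1, h2, h3, h4, h5⟩, h6⟩
    simp only at h1 h2 h3 h4 h5 h6
    have n1 : ¬ ((a = i ∧ b = j) ∨ (a = j ∧ b = i)) := by
      rintro (h | ⟨rfl, rfl⟩)
      · exact h6 h
      · exact ov_asymm hP ha hb h1 hc.ov
    have n2 : ¬ ((k = i ∧ l = j) ∨ (k = j ∧ l = i)) := by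
      rintro (⟨rfl, rfl⟩ | ⟨rfl, rfl⟩)
      · obtain ⟨e1, e2⟩ := ov_uniq hP hk hl' h2 hc.ov
        subst e1 e2
        exact lex_asymm (lex_trans h4 h5) hl
      · exact ov_asymm hP hk hl' h2 hc.ov
    refine ⟨⟨s, t, s', t', (hc.oth a b s t ha hb n1).1 h1, (hc.oth k l s' t' hk hl' n2).1 h2,
      h3, h4, h5⟩, ?_⟩
    intro h
    exact n2 (Or.inr h)
  · rintro ⟨⟨s, t, s', t', h1, h2, h3, h4, h5⟩, h6⟩
    simp only at h1 h2 h3 h4 h5 h6
    have n2 : ¬ ((k = i ∧ l = j) ∨ (k = j ∧ l = i)) := by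
      rintro (⟨rfl, rfl⟩ | h)
      · exact ov_asymm hP' (by omega) (by omega) h2 hc.ov'
      · exact h6 h
    have n1 : ¬ ((a = i ∧ b = j) ∨ (a = j ∧ b = i)) := by
      rintro (⟨rfl, rfl⟩ | ⟨rfl, rfl⟩)
      · exact ov_asymm hP' (by omega) (by omega) h1 hc.ov'
      · obtain ⟨e1, e2⟩ := ov_uniq hP' (by omega) (by omega) h1 hc.ov'
        subst e1 e2
        exact lex_asymm (lex_trans h3 h4) hl
    refine ⟨⟨s, t, s', t', (hc.oth a b s t ha hb n1).2 h1, (hc.oth k l s' t' hk hl' n2).2 h2,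
      h3, h4, h5⟩, ?_⟩
    intro h
    exact n1 (Or.inl h)

/-- the crossings whose lower point is on the arc and whose upper point is after it -/
def S1 (P : List P3) (i j : ℕ) (s₀ t₀ : ℝ) (x : ℕ × ℕ) : Prop :=
  ∃ u v : ℝ, ov P P x.1 x.2 u v ∧ (lex i s₀ x.2 v ∧ lex x.2 v j t₀) ∧ lex j t₀ x.1 u

/-- the crossings whose lower point is on the arc and whose upper point is before it -/
def S2 (P : List P3) (i j : ℕ) (s₀ t₀ : ℝ) (x : ℕ × ℕ) : Prop :=
  ∃ u v : ℝ, ov P P x.1 x.2 u v ∧ (lex i s₀ x.2 v ∧ lex x.2 v j t₀) ∧ lex x.1 u i s₀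

open Classical in
theorem card1 (hP : Kp P) (hi : i < P.length) (hj : j < P.length) (hc : Chg P P' i j s₀ t₀) :
    (((Q P.length).filter (R P)).filter fun x => x.1 = i ∧ x.2.1 = j).card =
      ((Finset.range P.length ×ˢ Finset.range P.length).filter (S1 P i j s₀ t₀)).card := by
  refine Finset.card_bij (fun x _ => (x.2.2.1, x.2.2.2)) ?_ ?_ ?_
  · rintro ⟨a, b, k, l⟩ hx
    rw [Finset.mem_filter, Finset.mem_filter] at hx
    obtain ⟨⟨hq, s, t, s', t', h1, h2, h3, h4, h5⟩, e1, e2⟩ := hx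
    obtain ⟨ha, hb, hk, hl'⟩ := mem_Q.1 hq
    simp only at h1 h2 h3 h4 h5 e1 e2 ha hb hk hl'
    subst e1 e2
    obtain ⟨e1, e2⟩ := ov_uniq hP ha hb h1 hc.ov
    subst e1 e2
    rw [Finset.mem_filter, Finset.mem_product, Finset.mem_range, Finset.mem_range]
    exact ⟨⟨hk, hl'⟩, s', t', h2, ⟨h3, h4⟩, h5⟩
  · rintro ⟨a, b, k, l⟩ hx ⟨a', b', k', l'⟩ hx' h
    rw [Finset.mem_filter] at hx hx'
    obtain ⟨_, e1, e2⟩ := hx
    obtain ⟨_, e3, e4⟩ := hx'
    simp only [Prod.mk.injEq] at *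
    exact ⟨e1.trans e3.symm, e2.trans e4.symm, h.1, h.2⟩
  · rintro ⟨k, l⟩ hx
    rw [Finset.mem_filter, Finset.mem_product, Finset.mem_range, Finset.mem_range] at hx
    obtain ⟨⟨hk, hl'⟩, u, v, h1, ⟨h2, h3⟩, h4⟩ := hx
    refine ⟨(i, j, k, l), ?_, rfl⟩
    rw [Finset.mem_filter, Finset.mem_filter]
    exact ⟨⟨mem_Q.2 ⟨hi, hj, hk, hl'⟩, s₀, t₀, u, v, hc.ov, h1, h2, h3, h4⟩, rfl, rfl⟩

open Classical in
theorem card2 (hP : Kp P) (hP' : Kp P') (hi : i < P.length) (hj : j < P.length)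
    (hc : Chg P P' i j s₀ t₀) :
    (((Q P.length).filter (R P')).filter fun x => x.2.2.1 = j ∧ x.2.2.2 = i).card =
      ((Finset.range P.length ×ˢ Finset.range P.length).filter (S2 P i j s₀ t₀)).card := by
  have hn := hc.len
  refine Finset.card_bij (fun x _ => (x.1, x.2.1)) ?_ ?_ ?_
  · rintro ⟨a, b, k, l⟩ hx
    rw [Finset.mem_filter, Finset.mem_filter] at hx
    obtain ⟨⟨hq, s, t, s', t', h1, h2, h3, h4, h5⟩, e1, e2⟩ := hx
    obtain ⟨ha, hb, hk, hl'⟩ := mem_Q.1 hq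
    simp only at h1 h2 h3 h4 h5 e1 e2 ha hb hk hl'
    subst e1 e2
    obtain ⟨e1, e2⟩ := ov_uniq hP' (by omega) (by omega) h2 hc.ov'
    subst e1 e2
    rw [Finset.mem_filter, Finset.mem_product, Finset.mem_range, Finset.mem_range]
    refine ⟨⟨ha, hb⟩, s, t, (hc.oth a b s t ha hb ?_).2 h1, ⟨h4, h5⟩, h3⟩
    rintro (⟨rfl, rfl⟩ | ⟨rfl, rfl⟩)
    · exact ov_asymm hP' (by omega) (by omega) h1 hc.ov'
    · obtain ⟨e1, e2⟩ := ov_uniq hP' (by omega) (by omega) h1 hc.ov'
      subst e1 e2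
      exact lex_irrefl h4
  · rintro ⟨a, b, k, l⟩ hx ⟨a', b', k', l'⟩ hx' h
    rw [Finset.mem_filter] at hx hx'
    obtain ⟨_, e1, e2⟩ := hx
    obtain ⟨_, e3, e4⟩ := hx'
    simp only [Prod.mk.injEq] at *
    exact ⟨h.1, h.2, e1.trans e3.symm, e2.trans e4.symm⟩
  · rintro ⟨k, l⟩ hx
    rw [Finset.mem_filter, Finset.mem_product, Finset.mem_range, Finset.mem_range] at hx
    obtain ⟨⟨hk, hl'⟩, u, v, h1, ⟨h2, h3⟩, h4⟩ := hx
    simp only at h1 h2 h3 h4
    refine ⟨(k, l, j, i), ?_, rfl⟩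
    rw [Finset.mem_filter, Finset.mem_filter]
    refine ⟨⟨mem_Q.2 ⟨hk, hl', hj, hi⟩, u, v, t₀, s₀, (hc.oth k l u v hk hl' ?_).1 h1, hc.ov',
      h4, h2, h3⟩, rfl, rfl⟩
    rintro (⟨rfl, rfl⟩ | ⟨rfl, rfl⟩)
    · obtain ⟨e1, e2⟩ := ov_uniq hP hk hl' h1 hc.ov
      subst e1 e2
      exact lex_irrefl h3
    · exact ov_asymm hP hk hl' h1 hc.ov

open Classical in
theorem smo_card (hP : Kp P) (hl : lex i s₀ j t₀) :
    smo P i j s₀ t₀ = ((Finset.range P.length ×ˢ Finset.range P.length).filter (S1 P i j s₀ t₀)).card +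
      ((Finset.range P.length ×ˢ Finset.range P.length).filter (S2 P i j s₀ t₀)).card := by
  rw [← Finset.card_union_of_disjoint]
  · unfold smo
    congr 1
    ext ⟨k, l⟩
    rw [Finset.mem_union, Finset.mem_filter, Finset.mem_filter, Finset.mem_filter]
    constructor
    · rintro ⟨h0, u, v, h1, h2, h3 | h3⟩
      · exact Or.inr ⟨h0, u, v, h1, h2, h3⟩
      · exact Or.inl ⟨h0, u, v, h1, h2, h3⟩
    · rintro (⟨h0, u, v, h1, h2, h3⟩ | ⟨h0, u, v, h1, h2, h3⟩)
      · exact ⟨h0, u, v, h1, h2, Or.inr h3⟩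
      · exact ⟨h0, u, v, h1, h2, Or.inl h3⟩
  · rw [Finset.disjoint_filter]
    rintro ⟨k, l⟩ h0 ⟨u, v, h1, _, h3⟩ ⟨u', v', h1', _, h3'⟩
    rw [Finset.mem_product, Finset.mem_range, Finset.mem_range] at h0
    obtain ⟨e1, e2⟩ := ov_uniq hP h0.1 h0.2 h1 h1'
    subst e1 e2
    exact lex_asymm (lex_trans h3 h3') hl

end skein

end CNWPVM

open CNWPVM in
/-- **The Polyak-Viro number mod 2 satisfies Conway's skein relation mod 2** and vanishes on descending
polygons. -/
theorem isA2_pv : IsA2 (fun P => (pv P : ZMod 2)) := by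
  classical
  constructor
  · intro P hP hD
    have : pv P = 0 := by
      rw [pv_R, Finset.card_eq_zero, Finset.filter_eq_empty_iff]
      rintro ⟨a, b, k, l⟩ hx ⟨s, t, s', t', h1, h2, h3, h4, h5⟩
      obtain ⟨ha, hb, hk, hl'⟩ := mem_Q.1 hx
      exact lex_asymm (lex_trans h4 h5) (hD _ _ _ _ hk hl' h2)
    simp [this]
  · intro P P' i j s₀ t₀ hP hP' hi hj hl hc
    have h1 := Finset.card_filter_add_card_filter_not (s := (Q P.length).filter (R P))
      (fun x => x.1 = i ∧ x.2.1 = j)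
    have h2 := Finset.card_filter_add_card_filter_not (s := (Q P.length).filter (R P'))
      (fun x => x.2.2.1 = j ∧ x.2.2.2 = i)
    have h3 : (((Q P.length).filter (R P)).filter fun x => ¬ (x.1 = i ∧ x.2.1 = j)) =
        (((Q P.length).filter (R P')).filter fun x => ¬ (x.2.2.1 = j ∧ x.2.2.2 = i)) := by
      rw [Finset.filter_filter, Finset.filter_filter]
      exact Finset.filter_congr fun x hx => common hP hP' hi hj hl hc x hx
    rw [card1 hP hi hj hc, h3, ← pv_R] at h1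
    have h4 : pv P' = ((Q P.length).filter (R P')).card := by rw [pv_R, hc.len]
    rw [card2 hP hP' hi hj hc, ← h4] at h2
    show (pv P : ZMod 2) + (pv P' : ZMod 2) = _
    rw [smo_card hP hl, ← h1, ← h2]
    push_cast
    have h5 : ∀ a b c : ZMod 2, a + c + (b + c) = a + b := by
      intro a b c
      have : c + c = 0 := CharTwo.add_self_eq_zero c
      linear_combination this
    rw [h5]

end Pool.Agent.Lib.MP3ff0f8.T
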