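import Mathlib

/-!
# MP_3ff0f8_gt, topological half: definitions

Everything is organised around *word diagrams*.  A finite graph is given by a finite set `X` of
edges and a function `vt` on darts `(e, b)` (`b : Bool` selects one of the two ends of `e`); every
edge is cut at its middle point (its *cap*) into its two *strands* `(e, false)`, `(e, true)`.  A
diagram is a braid-like word: a list `bot` of all strands (the strands at one vertex are
contiguous), a list `top` of all strands (the two strands of an edge are adjacent), and a list `W`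
of events `(o, u)` (the strand `o` passes over the strand `u`), each exchanging two adjacent strands,
which leads from `bot` to `top`.
-/

namespace Pool.Agent.Lib.MP3ff0f8.T

set_option linter.dupNamespace false

/-! ## 1. Words (no graph) -/

section words

variable {S : Type} [DecidableEq S]

/-- `Run L W L'`: starting from the list `L`, the events of `W` (read from left to right), each of
which exchanges two adjacent entries, lead to `L'`.  The event `(o, u)` means: `o` passes over `u`. -/
inductive Run {S : Type} : List S → List (S × S) → List S → Prop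
  | nil (L : List S) : Run L [] L
  | over (A B : List S) (s t : S) (W : List (S × S)) (L' : List S) :
      Run (A ++ t :: s :: B) W L' → Run (A ++ s :: t :: B) ((s, t) :: W) L'
  | under (A B : List S) (s t : S) (W : List (S × S)) (L' : List S) :
      Run (A ++ t :: s :: B) W L' → Run (A ++ s :: t :: B) ((t, s) :: W) L'

/-- number of occurrences mod 2 -/
def par {α : Type} [DecidableEq α] (W : List α) (z : α) : ZMod 2 := (W.count z : ZMod 2)

/-- inversion of the pair `s`, `t` between the lists `L` and `L'` -/
def inv (L L' : List S) (s t : S) : ZMod 2 :=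
  if (L.idxOf s < L.idxOf t ↔ L'.idxOf s < L'.idxOf t) then 0 else 1

/-- `ps g W` is the sum of `g z w` over all pairs `z` before `w` in `W` -/
def ps {α : Type} (g : α → α → ZMod 2) : List α → ZMod 2
  | [] => 0
  | z :: W => (W.map (g z)).sum + ps g W

/-- `cr g A B` is the sum of `g z w` over all `z` in `A`, `w` in `B` -/
def cr {α : Type} (g : α → α → ZMod 2) (A B : List α) : ZMod 2 :=
  (A.map fun z => (B.map (g z)).sum).sum

/-- a curve is the list of the strands which it runs through, with a flag (`true`: the strand is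
traversed upwards, from `bot` to `top`; `false`: downwards) -/
def on (q : List (S × Bool)) (p : S) : Prop := p ∈ q.map Prod.fst

instance (q : List (S × Bool)) (p : S) : Decidable (on q p) := by unfold on; infer_instance

/-- position of the strand `p` on the curve `q` -/
def idx (q : List (S × Bool)) (p : S) : ℕ := (q.map Prod.fst).idxOf p

/-- a point of `p` at an earlier level of the word comes on `q` before a point of `r` at a later
level of the word -/
def l01 (q : List (S × Bool)) (p r : S) : Prop := idx q p < idx q r ∨ (p = r ∧ (p, true) ∈ q)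

/-- a point of `p` at a later level of the word comes on `q` before a point of `r` at an earlier
level of the word -/
def l10 (q : List (S × Bool)) (p r : S) : Prop := idx q p < idx q r ∨ (p = r ∧ (p, false) ∈ q)

instance (q : List (S × Bool)) (p r : S) : Decidable (l01 q p r) := by unfold l01; infer_instance
instance (q : List (S × Bool)) (p r : S) : Decidable (l10 q p r) := by unfold l10; infer_instance

/-- contribution of the events `z = (o, u)` (earlier in the word) and `w = (o', u')` (later) to the
Polyak-Viro number of the curve `q`: pattern over, under', under, over' or over', under, under',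
over along `q`. -/
def bet (q : List (S × Bool)) (z w : S × S) : ZMod 2 :=
  if on q z.1 ∧ on q z.2 ∧ on q w.1 ∧ on q w.2 then
    (if l01 q z.1 w.2 ∧ l10 q w.2 z.2 ∧ l01 q z.2 w.1 then 1 else 0) +
    (if l10 q w.1 z.2 ∧ l01 q z.2 w.2 ∧ l10 q w.2 z.1 then 1 else 0)
  else 0

/-- the Polyak-Viro number of the curve `q` in the word `W` -/
def AW (q : List (S × Bool)) (W : List (S × S)) : ZMod 2 := ps (bet q) W

/-- `s` and `t` are both traversed upwards or both downwards -/
def coh (q : List (S × Bool)) (s t : S) : ZMod 2 :=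
  (if (s, true) ∈ q ∧ (t, true) ∈ q then 1 else 0) +
  (if (s, false) ∈ q ∧ (t, false) ∈ q then 1 else 0)

/-- indicator of `on` -/
def ion (q : List (S × Bool)) (s : S) : ZMod 2 := if on q s then 1 else 0

/-- entries with the same value of `f` are contiguous -/
def Blocks {β : Type} (f : S → β) (L : List S) : Prop :=
  ∀ a b c : S, [a, b, c].Sublist L → f a = f c → f b = f a

/-- abstract diagram: `bk` = block at the bottom (vertex), `tk` = block at the top (edge) -/
structure ADia {β γ : Type} (bk : S → β) (tk : S → γ) (bot : List S) (W : List (S × S))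
    (top : List S) : Prop where
  nd : bot.Nodup
  bb : Blocks bk bot
  tt : Blocks tk top
  run : Run bot W top

/-- the curve given by the pairs (strand going up, strand going down) -/
def acv (l : List (S × S)) : List (S × Bool) := l.flatMap fun x => [(x.1, true), (x.2, false)]

/-- abstract closed curve, based at the bottom -/
structure ACyc {β γ : Type} (bk : S → β) (tk : S → γ) (l : List (S × S)) : Prop where
  ne : l ≠ []
  nd : ((acv l).map Prod.fst).Nodup
  tp : ∀ x ∈ l, tk x.1 = tk x.2
  cl : l.map (fun x => bk x.2) = (l.map fun x => bk x.1).rotate 1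
  nb : (l.map fun x => bk x.1).Nodup
  nt : (l.map fun x => tk x.1).Nodup

/-- change all flags -/
def flp (q : List (S × Bool)) : List (S × Bool) := q.map fun x => (x.1, !x.2)

end words

/-! ## 2. Graphs, cycles -/

/-- darts; also used as strands -/
abbrev Dart (E : Type) := E × Bool

/-- the reversed dart; the other strand of the same edge -/
def rv {E : Type} (d : Dart E) : Dart E := (d.1, !d.2)

/-- a finite multigraph (loops and parallel edges allowed); the dart `d` starts at `vt d` and ends
at `vt (rv d)` -/
structure Gr (V E : Type) where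
  X : Finset E
  vt : Dart E → V

variable {V E : Type}

/-- a cycle of `G` as a closed list of darts, without repeated edge and vertex -/
structure IsCyc (G : Gr V E) (c : List (Dart E)) : Prop where
  ne : c ≠ []
  mem : ∀ d ∈ c, d.1 ∈ G.X
  nde : (c.map Prod.fst).Nodup
  ndv : (c.map G.vt).Nodup
  cl : c.map (fun d => G.vt (rv d)) = (c.map G.vt).rotate 1

/-- the curve of a cycle: it goes up the strand `d` and down the strand `rv d` for each dart -/
def cv (c : List (Dart E)) : List (Dart E × Bool) :=
  c.flatMap fun d => [(d, true), (rv d, false)]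

/-- the reversed cycle -/
def rvc (c : List (Dart E)) : List (Dart E) := (c.map rv).reverse

/-- a diagram of `G` -/
structure IsDia [DecidableEq E] (G : Gr V E) (bot : List (Dart E)) (W : List (Dart E × Dart E))
    (top : List (Dart E)) : Prop where
  mb : ∀ d, d ∈ bot ↔ d.1 ∈ G.X
  dia : ADia G.vt Prod.fst bot W top

/-- indicator of an edge on a cycle -/
def xe [DecidableEq E] (e : E) (c : List (Dart E)) : ZMod 2 := if e ∈ c.map Prod.fst then 1 else 0

/-- `1` if the cycle runs through the edges of the darts `s`, `t` coherently -/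
def cc [DecidableEq E] (s t : Dart E) (c : List (Dart E)) : ZMod 2 :=
  (if s ∈ c ∧ t ∈ c then 1 else 0) + (if rv s ∈ c ∧ rv t ∈ c then 1 else 0)

/-- the space `F(G)`, spanned by the products of at most three edge indicators and the `cc s t` -/
def FF [DecidableEq E] (G : Gr V E) : Submodule (ZMod 2) (List (Dart E) → ZMod 2) :=
  Submodule.span (ZMod 2)
    ({f | ∃ e ∈ G.X, ∃ g ∈ G.X, ∃ h ∈ G.X, f = fun c => xe e c * xe g c * xe h c} ∪
     {f | ∃ s t : Dart E, s.1 ∈ G.X ∧ t.1 ∈ G.X ∧ f = cc s t})

/-- `φ` agrees on the cycles of `G` with an element of `F(G)` -/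
def InF [DecidableEq E] (G : Gr V E) (φ : List (Dart E) → ZMod 2) : Prop :=
  ∃ F ∈ FF G, ∀ c, IsCyc G c → φ c = F c

/-- `c` and `c'` have no common vertex -/
def Dj (G : Gr V E) (c c' : List (Dart E)) : Prop := ∀ d ∈ c, ∀ d' ∈ c', G.vt d ≠ G.vt d'

/-- number mod 2 of the events in which a strand of `c` passes over a strand of `c'`: the linking
number mod 2 of the disjoint cycles `c`, `c'` in the word -/
def lk [DecidableEq E] (W : List (Dart E × Dart E)) (c c' : List (Dart E)) : ZMod 2 :=
  ((W.countP fun z => z.1.1 ∈ c.map Prod.fst ∧ z.2.1 ∈ c'.map Prod.fst : ℕ) : ZMod 2)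

/-- `G` has a diagram in which the Polyak-Viro number of every cycle is even -/
def Good [DecidableEq E] (G : Gr V E) : Prop :=
  ∃ bot W top, IsDia G bot W top ∧ ∀ c, IsCyc G c → AW (cv c) W = 0

/-! ## 3. Minors -/

/-- restriction to the edges of `Y` -/
def Gr.res (G : Gr V E) (Y : Finset E) : Gr V E := ⟨Y, G.vt⟩

/-- contraction of the edge of the dart `d`: its end is merged into its start -/
def Gr.con [DecidableEq V] [DecidableEq E] (G : Gr V E) (d : Dart E) : Gr V E :=
  ⟨G.X.erase d.1, fun x => if G.vt x = G.vt (rv d) then G.vt d else G.vt x⟩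

/-- delete the darts of the edge `e` from a list -/
def del [DecidableEq E] (e : E) (c : List (Dart E)) : List (Dart E) := c.filter fun d => d.1 ≠ e

/-- `(B, T)` is connected: every nonempty proper part `S` of `B` is left by a dart of `T` -/
def Conn (G : Gr V E) (T : Finset E) (B : Finset V) : Prop :=
  ∀ S ⊆ B, S.Nonempty → S ≠ B → ∃ d : Dart E, d.1 ∈ T ∧ G.vt d ∈ S ∧ G.vt (rv d) ∈ B ∧ G.vt (rv d) ∉ S

/-- data of a `D₄` minor: four vertex sets `B i`, edge sets `T i`, and the eight beads: `bd i b` is
a dart from `B i` to `B (i + 1)` -/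
structure D4M (V E : Type) where
  B : Fin 4 → Finset V
  T : Fin 4 → Finset E
  bd : Fin 4 → Bool → Dart E

/-- `M` is a `D₄` minor of `G`: the `(B i, T i)` are four disjoint trees, and contracting all the
edges of these trees in the subgraph of `G` formed by the trees and the beads gives `D₄` -/
structure IsD4 (G : Gr V E) (M : D4M V E) : Prop where
  disj : ∀ i j, i ≠ j → Disjoint (M.B i) (M.B j)
  sub : ∀ i, M.T i ⊆ G.X
  ends : ∀ i, ∀ d : Dart E, d.1 ∈ M.T i → G.vt d ∈ M.B i
  conn : ∀ i, Conn G (M.T i) (M.B i)
  card : ∀ i, (M.T i).card + 1 = (M.B i).card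
  bX : ∀ i b, (M.bd i b).1 ∈ G.X
  bS : ∀ i b, G.vt (M.bd i b) ∈ M.B i
  bE : ∀ i b, G.vt (rv (M.bd i b)) ∈ M.B (i + 1)
  bN : ∀ i, (M.bd i false).1 ≠ (M.bd i true).1

/-- `C` is the cycle of `G` which becomes, after the contraction of the trees, the 2-cycle `C i` of
`D₄` formed by the two beads between `B i` and `B (i + 1)` -/
structure IsCi (G : Gr V E) (M : D4M V E) (i : Fin 4) (C : List (Dart E)) : Prop where
  cyc : IsCyc G C
  mem : ∀ d ∈ C, d.1 ∈ M.T i ∨ d.1 ∈ M.T (i + 1) ∨ d.1 = (M.bd i false).1 ∨ d.1 = (M.bd i true).1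
  b0 : (M.bd i false).1 ∈ C.map Prod.fst
  b1 : (M.bd i true).1 ∈ C.map Prod.fst

/-- `c` is the cycle which becomes the 4-cycle through the four beads `bd i (ε i)`, all traversed
forwards -/
structure IsCe (G : Gr V E) (M : D4M V E) (ε : Fin 4 → Bool) (c : List (Dart E)) : Prop where
  cyc : IsCyc G c
  mem : ∀ d ∈ c, (∃ i, d.1 ∈ M.T i) ∨ ∃ i, d = M.bd i (ε i)
  bds : ∀ i, M.bd i (ε i) ∈ c

/-- `G` has a diagram without doubly linked `D₄` minor mod 2 -/
def D4even [DecidableEq E] (G : Gr V E) : Prop :=
  ∃ bot W top, IsDia G bot W top ∧ ∀ M, IsD4 G M → ∀ C : Fin 4 → List (Dart E),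
    (∀ i, IsCi G M i (C i)) → lk W (C 0) (C 2) * lk W (C 3) (C 1) = 0

/-! ## 4. Conditions on graphs -/

/-- no loops -/
def Loopless (G : Gr V E) : Prop := ∀ d : Dart E, d.1 ∈ G.X → G.vt d ≠ G.vt (rv d)

/-- no parallel edges -/
def NoPar (G : Gr V E) : Prop := ∀ d d' : Dart E, d.1 ∈ G.X → d'.1 ∈ G.X →
  G.vt d = G.vt d' → G.vt (rv d) = G.vt (rv d') → d.1 = d'.1

/-- the darts starting at `w` -/
def Gr.st [DecidableEq V] (G : Gr V E) (w : V) : Finset (Dart E) :=
  (G.X ×ˢ (Finset.univ : Finset Bool)).filter fun d => G.vt d = w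

/-- the vertices of the edges of `A` -/
def Gr.vs [DecidableEq V] (G : Gr V E) (A : Finset E) : Finset V :=
  (A ×ˢ (Finset.univ : Finset Bool)).image G.vt

/-- all degrees are `0` or at least `3` -/
def Deg3 [DecidableEq V] (G : Gr V E) : Prop := ∀ w, (G.st w).Nonempty → 3 ≤ (G.st w).card

/-- internally 4-connected: no partition of the edges into two parts with `k ≤ 3` common vertices
and more than `k` edges each -/
def Sep4 [DecidableEq V] [DecidableEq E] (G : Gr V E) : Prop :=
  ∀ A B : Finset E, Disjoint A B → A ∪ B = G.X → (G.vs A ∩ G.vs B).card ≤ 3 →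
    A.card ≤ (G.vs A ∩ G.vs B).card ∨ B.card ≤ (G.vs A ∩ G.vs B).card

/-- the graph formed by the edges of `A` and a new vertex `none` joined to the vertices `v i` -/
def star [DecidableEq V] [DecidableEq E] {k : ℕ} (G : Gr V E) (A : Finset E) (v : Fin k → V) :
    Gr (Option V) (E ⊕ Fin k) :=
  ⟨A.map ⟨Sum.inl, Sum.inl_injective⟩ ∪ (Finset.univ : Finset (Fin k)).map ⟨Sum.inr, Sum.inr_injective⟩,
   fun d => match d with
    | (Sum.inl e, b) => some (G.vt (e, b))
    | (Sum.inr _, false) => none
    | (Sum.inr i, true) => some (v i)⟩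

/-- isomorphism: `δ` maps the darts of `G` to the darts of `H`, `ψ` the vertices -/
structure IsIso {V' E' : Type} (G : Gr V E) (H : Gr V' E') (δ : Dart E → Dart E') (ψ : V → V') :
    Prop where
  inj : ∀ d d', d.1 ∈ G.X → d'.1 ∈ G.X → δ d = δ d' → d = d'
  rvv : ∀ d, d.1 ∈ G.X → δ (rv d) = rv (δ d)
  maps : ∀ d, d.1 ∈ G.X → (δ d).1 ∈ H.X
  surj : ∀ d', d'.1 ∈ H.X → ∃ d, d.1 ∈ G.X ∧ δ d = d'
  vtx : ∀ d, d.1 ∈ G.X → H.vt (δ d) = ψ (G.vt d)
  vinj : ∀ d d', d.1 ∈ G.X → d'.1 ∈ G.X → ψ (G.vt d) = ψ (G.vt d') → G.vt d = G.vt d'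

/-! ## 5. Geometry -/

/-- three-dimensional space -/
abbrev P3 := ℝ × ℝ × ℝ

/-- a polygonal map of a graph: the image of each vertex and, for each edge `e`, the interior
nodes of a polygonal arc from `vt (e, false)` to `vt (e, true)` -/
structure Emb (V E : Type) where
  vx : V → P3
  arc : E → List P3

/-- the nodes of the polygonal arc of `e` -/
def Emb.nodes (Γ : Emb V E) (vt : Dart E → V) (e : E) : List P3 :=
  Γ.vx (vt (e, false)) :: (Γ.arc e ++ [Γ.vx (vt (e, true))])

/-- the `i`-th segment of the arc of `e`, `i = 0, …, (Γ.arc e).length` -/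
def Emb.sg (Γ : Emb V E) (vt : Dart E → V) (e : E) (i : ℕ) : P3 × P3 :=
  ((Γ.nodes vt e).getD i 0, (Γ.nodes vt e).getD (i + 1) 0)

/-- `Γ` is a piecewise linear embedding: the images of the vertices and all interior nodes are
pairwise distinct, the segments are nondegenerate, and two different segments meet at most in common
end points -/
structure IsEmb (vt : Dart E → V) (Γ : Emb V E) : Prop where
  vinj : Function.Injective Γ.vx
  anod : ∀ e, (Γ.arc e).Nodup
  adis : ∀ e e', e ≠ e' → ∀ p ∈ Γ.arc e, p ∉ Γ.arc e'
  vdis : ∀ v e, Γ.vx v ∉ Γ.arc e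
  ndeg : ∀ e i, i ≤ (Γ.arc e).length → (Γ.sg vt e i).1 ≠ (Γ.sg vt e i).2
  meet : ∀ e e' i j, i ≤ (Γ.arc e).length → j ≤ (Γ.arc e').length → (e, i) ≠ (e', j) →
    ∀ p, p ∈ segment ℝ (Γ.sg vt e i).1 (Γ.sg vt e i).2 →
      p ∈ segment ℝ (Γ.sg vt e' j).1 (Γ.sg vt e' j).2 →
      (p = (Γ.sg vt e i).1 ∨ p = (Γ.sg vt e i).2) ∧ (p = (Γ.sg vt e' j).1 ∨ p = (Γ.sg vt e' j).2)

/-- the nodes of the arc of a dart, without the last one -/
def Emb.dn (Γ : Emb V E) (vt : Dart E → V) (d : Dart E) : List P3 :=
  if d.2 then Γ.vx (vt d) :: (Γ.arc d.1).reverse else Γ.vx (vt d) :: Γ.arc d.1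

/-- the closed polygon which is the image of the cycle `c` -/
def Emb.poly (Γ : Emb V E) (vt : Dart E → V) (c : List (Dart E)) : List P3 := c.flatMap (Γ.dn vt)

/-- the `i`-th node of a closed polygon (indices modulo the number of nodes) -/
def nd (P : List P3) (i : ℕ) : P3 := P.getD (i % P.length) 0

/-- the point with parameter `s ∈ [0, 1]` on the `i`-th segment -/
noncomputable def pt (P : List P3) (i : ℕ) (s : ℝ) : P3 := (1 - s) • nd P i + s • nd P (i + 1)

/-- equal vertical projections -/
def samexy (p q : P3) : Prop := p.1 = q.1 ∧ p.2.1 = q.2.1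

/-- the point of parameter `s` of the (open) `i`-th segment of `P` lies vertically above the point
of parameter `t` of the (open) `j`-th segment of `Q` -/
def ov (P Q : List P3) (i j : ℕ) (s t : ℝ) : Prop :=
  0 < s ∧ s < 1 ∧ 0 < t ∧ t < 1 ∧ samexy (pt P i s) (pt Q j t) ∧ (pt Q j t).2.2 < (pt P i s).2.2

/-- `sh a b` takes the direction `(-a, -b, 1)` to the vertical direction: the vertical projection
after `sh a b` is the projection along `(-a, -b, 1)` -/
def sh (a b : ℝ) (p : P3) : P3 := (p.1 + a * p.2.2, p.2.1 + b * p.2.2, p.2.2)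

/-- the vertical projection of the closed polygon `P` is regular: no node projects to a point of a
segment of which it is not an end point, and there are no triple points -/
def Reg (P : List P3) : Prop :=
  (∀ i j, i < P.length → j < P.length → i ≠ j → i ≠ (j + 1) % P.length → ∀ t : ℝ, 0 ≤ t → t ≤ 1 →
    ¬ samexy (nd P i) (pt P j t)) ∧
  (∀ i j k, i < P.length → j < P.length → k < P.length → i ≠ j → j ≠ k → i ≠ k → ∀ s t u : ℝ,
    0 < s → s < 1 → 0 < t → t < 1 → 0 < u → u < 1 →
    ¬ (samexy (pt P i s) (pt P j t) ∧ samexy (pt P j t) (pt P k u)))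

/-- order of the points of a polygon -/
def lex (i : ℕ) (s : ℝ) (j : ℕ) (t : ℝ) : Prop := i < j ∨ (i = j ∧ s < t)

open Classical in
/-- the Polyak-Viro number of the vertical projection of `P`: the number of pairs of crossings
`x = (i over j)`, `y = (k over l)` such that, along the polygon, one passes successively over `x`,
under `y`, under `x`, over `y` -/
noncomputable def pv (P : List P3) : ℕ :=
  ((Finset.range P.length ×ˢ Finset.range P.length ×ˢ Finset.range P.length ×ˢ
    Finset.range P.length).filter fun x : ℕ × ℕ × ℕ × ℕ =>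
      ∃ s t s' t' : ℝ, ov P P x.1 x.2.1 s t ∧ ov P P x.2.2.1 x.2.2.2 s' t' ∧
        lex x.1 s x.2.2.2 t' ∧ lex x.2.2.2 t' x.2.1 t ∧ lex x.2.1 t x.2.2.1 s').card

/-- `a₂(P)` is odd (the Polyak-Viro formula mod 2, for all projection directions `(-a, -b, 1)` in
which the projection is regular) -/
def a2odd (P : List P3) : Prop := ∀ a b : ℝ, Reg (P.map (sh a b)) → Odd (pv (P.map (sh a b)))

/-- the projection of the pair of disjoint polygons `P`, `Q` has only transverse crossings between
`P` and `Q`, away from the nodes -/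
def RegL (P Q : List P3) : Prop :=
  (∀ i j, i < P.length → j < Q.length → ∀ t : ℝ, 0 ≤ t → t ≤ 1 → ¬ samexy (nd P i) (pt Q j t)) ∧
  (∀ i j, i < P.length → j < Q.length → ∀ t : ℝ, 0 ≤ t → t ≤ 1 → ¬ samexy (nd Q j) (pt P i t))

open Classical in
/-- number of crossings at which `P` passes over `Q` -/
noncomputable def lkn (P Q : List P3) : ℕ :=
  ((Finset.range P.length ×ˢ Finset.range Q.length).filter fun x : ℕ × ℕ =>
    ∃ s t : ℝ, ov P Q x.1 x.2 s t).card

/-- `lk(P, Q)` is odd -/
def lkodd (P Q : List P3) : Prop :=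
  ∃ a b : ℝ, RegL (P.map (sh a b)) (Q.map (sh a b)) ∧ Odd (lkn (P.map (sh a b)) (Q.map (sh a b)))

/-- the finite graph with edge set `E` and incidence function `vt` -/
def fg [Fintype E] (vt : Dart E → V) : Gr V E := ⟨Finset.univ, vt⟩

/-- `Ia₂` mod 2: every embedding contains a cycle with `a₂` odd -/
def Ia2 [Fintype E] (vt : Dart E → V) : Prop :=
  ∀ Γ : Emb V E, IsEmb vt Γ → ∃ c, IsCyc (fg vt) c ∧ a2odd (Γ.poly vt c)

/-- `ID₄` mod 2: every embedding contains a `D₄` minor which is double linked mod 2 -/
def ID4 [Fintype E] (vt : Dart E → V) : Prop :=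
  ∀ Γ : Emb V E, IsEmb vt Γ → ∃ M : D4M V E, IsD4 (fg vt) M ∧ ∃ C : Fin 4 → List (Dart E),
    (∀ i, IsCi (fg vt) M i (C i)) ∧
    lkodd (Γ.poly vt (C 0)) (Γ.poly vt (C 2)) ∧ lkodd (Γ.poly vt (C 3)) (Γ.poly vt (C 1))

/-! ## 6. The gluing graph -/

/-- `star G A v` and `star G B v` joined at their centres: the vertices are doubled
(`Sum.inl (w, false)` on the side of `A`, `Sum.inl (w, true)` on the side of `B`), and for each `i` the vertices
`(v i, false)`, `(v i, true)` are joined by a path of two edges through the new vertex `Sum.inr i` -/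
def g0 [DecidableEq V] [DecidableEq E] {k : ℕ} (G : Gr V E) (A B : Finset E) (v : Fin k → V) :
    Gr ((V × Bool) ⊕ Fin k) (E ⊕ (Fin k × Bool)) :=
  ⟨(A ∪ B).map ⟨Sum.inl, Sum.inl_injective⟩ ∪
     (Finset.univ : Finset (Fin k × Bool)).map ⟨Sum.inr, Sum.inr_injective⟩,
   fun d => match d with
    | (Sum.inl e, b) => Sum.inl (G.vt (e, b), decide (e ∈ B))
    | (Sum.inr (i, _), false) => Sum.inr i
    | (Sum.inr (i, β), true) => Sum.inl (v i, β)⟩

/-! ## 7. The polygonal realisation of a word diagram -/

/-- the list of the strands after the first `k` events -/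
def stt {S : Type} [DecidableEq S] : List S → List (S × S) → ℕ → List S
  | L, _, 0 => L
  | L, [], _ + 1 => L
  | L, z :: W, k + 1 => stt (L.map (Equiv.swap z.1 z.2)) W k

/-- the node of the strand `s` at level `j`, `j = 0, …, 2 m` (`m` = number of events): its
`x`-coordinate is the position of `s` after `j / 2` events, its `y`-coordinate is `j`, and it is at
height `1` if `j = 2 k + 1` or `j = 2 k + 2` and `s` is the over strand of the `k`-th event -/
noncomputable def Nd {S : Type} [DecidableEq S] (bot : List S) (W : List (S × S)) (s : S) (j : ℕ) : P3 :=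
  (((stt bot W (j / 2)).idxOf s : ℝ), (j : ℝ),
    if 0 < j ∧ (W.map Prod.fst)[(j - 1) / 2]? = some s then 1 else 0)

/-- the point of the vertex `v`: below the first strand at `v`, or to the left if `v` is isolated -/
noncomputable def vxr [Fintype V] [DecidableEq V] (vt : Dart E → V) (bot : List (Dart E)) (v : V) : P3 :=
  (if v ∈ bot.map vt then (((bot.map vt).idxOf v : ℕ) : ℝ) else -1 - ((Fintype.equivFin V v : ℕ) : ℝ), -1, 0)

/-- the realisation -/
noncomputable def real [Fintype V] [DecidableEq V] [DecidableEq E] (vt : Dart E → V)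
    (bot : List (Dart E)) (W : List (Dart E × Dart E)) : Emb V E :=
  ⟨vxr vt bot, fun e => (List.range (2 * W.length + 1)).map (Nd bot W (e, false)) ++
    (List.range (2 * W.length + 1)).reverse.map (Nd bot W (e, true))⟩

/-- the segments of the realisation: `fan s` joins the vertex to the bottom of `s`, `up s j` is the
part of `s` between the levels `j` and `j + 1`, and `cap e` is the cap of `e` -/
inductive Lab (E : Type)
  | fan (s : Dart E)
  | up (s : Dart E) (j : ℕ)
  | cap (e : E)

/-- first end point -/
noncomputable def Lab.lo [Fintype V] [DecidableEq V] [DecidableEq E] (vt : Dart E → V)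
    (bot : List (Dart E)) (W : List (Dart E × Dart E)) : Lab E → P3
  | .fan s => vxr vt bot (vt s)
  | .up s j => Nd bot W s j
  | .cap e => Nd bot W (e, false) (2 * W.length)

/-- second end point -/
noncomputable def Lab.hi [DecidableEq E] (bot : List (Dart E)) (W : List (Dart E × Dart E)) : Lab E → P3
  | .fan s => Nd bot W s 0
  | .up s j => Nd bot W s (j + 1)
  | .cap e => Nd bot W (e, true) (2 * W.length)

/-- the labels which occur -/
def Lab.ok (W : List (Dart E × Dart E)) : Lab E → Prop
  | .up _ j => j < 2 * W.length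
  | _ => True

/-- point of parameter `t` on the segment `l` -/
noncomputable def Lab.p [Fintype V] [DecidableEq V] [DecidableEq E] (vt : Dart E → V)
    (bot : List (Dart E)) (W : List (Dart E × Dart E)) (l : Lab E) (t : ℝ) : P3 :=
  (1 - t) • l.lo vt bot W + t • l.hi bot W

end Pool.Agent.Lib.MP3ff0f8.T
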